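import Pool.Agent.TH32.H.Fast

set_option autoImplicit false

namespace Pool.Agent.TH32

open CT PT

set_option maxRecDepth 100000 in
/-- certificate for block 0 (c0R1), tree A -/
def t00A : PT :=
  (b (f [0, 1] (b (b (b (t [0, 1] (t [0, 2] (b (b (t [0, 1] (b (b (t [0, 2] (t [0, 1, 8] (t [0, 4,
  8] (b (f [0, 5, 9] (b (t [0, 1] (t [0, 5] (t [0, 1, 3] (f [0, 1, 2, 3, 6, 10] (l (n 3 2 (n 2 2 (n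
  5 3 (n 4 5 e (n 3 1 (n 1 5 (n 3 1 (n 3 4 e e) e) e) e)) e) e) e)))))) (f [0, 1] (t [0, 5] (b (b (l
  (n 2 3 e (n 4 5 e (n 5 3 (n 1 3 e (n 3 1 (n 2 1 (n 5 2 e (n 1 5 (n 3 5 (n 3 4 (n 4 2 (n 1 2 (n 3 2
  (n 5 2 e (n 5 4 e e)) (n 3 4 (n 5 4 e e) e)) (n 1 4 (n 3 4 (n 5 4 e e) e) e)) e) (n 1 2 (n 3 2 (n
  4 2 (n 5 2 e e) e) e) e)) e) e)) e) e)) (n 3 2 e (n 2 5 e (n 1 2 (n 2 5 (n 1 4 (n 4 2 (n 1 3 (n 3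
  2 e (n 3 4 e e)) e) e) (n 1 3 (n 3 2 e (n 3 4 e (n 3 3 e e))) e)) e) (n 4 2 (n 3 2 (n 1 3 e (n 1 5
  e e)) (n 3 4 (n 1 2 e (n 1 3 e (n 1 5 e e))) e)) e)))))))) (l (n 2 3 e (n 4 5 e (n 5 3 (n 1 3 e (n
  3 1 (n 5 3 e (n 1 5 (n 2 1 (n 4 2 (n 1 2 (n 3 2 (n 5 2 e (n 5 4 e e)) (n 3 4 (n 5 4 e e) e)) (n 1
  4 (n 3 4 (n 5 4 e e) e) e)) (n 3 4 e (n 1 2 (n 3 2 (n 4 2 (n 5 2 e e) e) e) e))) e) e)) e)) (n 3 2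
  e (n 5 2 (n 3 2 e (n 2 1 (n 2 4 e (n 1 2 e (n 1 3 e (n 1 4 e (n 1 5 e e))))) (n 2 5 (n 1 4 (n 4 2
  e e) e) e))) e))))))) (b (l (n 2 3 e (n 3 5 (n 4 3 e (n 3 2 e (n 1 2 (n 5 2 (n 2 4 (n 5 2 (n 1 3
  (n 5 3 (n 1 4 (n 4 5 e e) e) e) e) e) e) e) e))) (n 1 3 e (n 1 3 e (n 4 5 e (n 5 2 e (n 1 2 (n 2 4
  (n 1 5 (n 1 3 (n 2 3 (n 3 5 (n 2 4 (n 3 4 (n 4 1 e (n 4 1 e e)) e) e) e) (n 3 4 (n 4 1 e (n 4 1 e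
  e)) e)) (n 4 1 e (n 4 3 e (n 4 3 e e)))) e) e) e)))))))) (l (n 2 3 e (n 4 5 e (n 5 3 (n 3 1 (n 1 5
  (n 1 2 (n 3 1 (n 2 4 (n 3 4 (n 5 2 (n 3 2 e (n 1 4 (n 4 2 e (n 4 3 e e)) e)) (n 1 5 e (n 1 4 (n 4
  3 e (n 4 5 e e)) e))) e) e) e) (n 3 2 (n 3 1 e (n 3 4 (n 5 2 (n 2 4 (n 3 4 (n 4 5 e (n 4 1 e (n 4
  1 e e))) e) e) e) e)) e)) e) e) (n 3 2 e (n 2 5 e (n 2 1 e (n 5 2 (n 2 4 (n 1 3 (n 3 5 (n 1 4 (n 4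
  3 e (n 4 5 e e)) e) e) (n 1 4 (n 4 3 e (n 4 5 e (n 4 4 e e))) e)) e) e)))))))))))))) (b (b (t [0,
  1] (t [0, 2, 11] (t [0, 2] (f [0, 7, 11] (l (n 1 3 e (n 2 3 (n 3 3 (n 4 5 e (n 2 5 e (n 2 1 (n 4 2
  e e) e))) e) e))))))) (f [0, 1] (t [0, 2, 11] (t [0, 2] (b (l (n 1 3 e (n 2 5 (n 4 2 e e) (n 2 1
  (n 3 5 (n 4 3 e (n 5 4 (n 3 2 e (n 3 5 (n 4 2 (n 5 5 e e) e) e)) e)) (n 2 3 e (n 4 5 e (n 3 2 (n 2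
  5 (n 5 5 (n 2 4 (n 4 3 e (n 4 3 e e)) e) e) e) e)))) e)))) (l (n 1 3 e (n 4 5 e (n 2 5 e (n 2 1 (n
  3 2 (n 3 2 e (n 3 5 e (n 3 4 (n 4 5 e (n 2 4 (n 4 2 e (n 4 4 e e)) e)) e))) (n 5 3 e (n 3 5 (n 2 5
  e (n 2 4 (n 4 5 e (n 4 4 e e)) e)) (n 4 2 e e)))) e)))))))))) (b (t [0, 1] (t [0, 6] (t [0, 1, 4]
  (f [0, 3] (l (n 1 3 e (n 2 3 (n 2 5 e (n 2 1 e (n 4 5 e (n 5 2 e (n 3 3 (n 4 1 e (n 4 2 e e))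
  e))))) e))))))) (f [0, 1] (t [0, 6] (b (b (l (n 1 3 e (n 2 3 e (n 3 5 (n 4 3 e (n 3 2 e (n 2 1 e
  (n 5 2 (n 5 4 (n 4 2 (n 3 2 e (n 3 4 e e)) (n 4 1 (n 3 2 e (n 3 3 e e)) e)) e) e)))) (n 1 3 (n 4 5
  e (n 5 2 e (n 5 2 (n 3 5 (n 1 2 (n 2 4 (n 4 5 e (n 1 4 (n 1 4 (n 3 4 (n 4 3 e e) e) e) e)) e) e)
  e) e))) (n 4 5 e (n 5 2 (n 2 1 (n 5 1 e (n 3 2 (n 2 2 (n 1 4 (n 4 5 e (n 4 3 e (n 4 3 e e))) e) e)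
  (n 3 5 (n 1 4 (n 4 5 e (n 2 4 (n 4 2 e (n 4 3 e (n 4 3 e e))) e)) e) e))) e) (n 2 1 e (n 3 2 (n 2
  4 (n 5 2 (n 4 1 e (n 4 3 e (n 4 3 e e))) e) (n 5 2 e (n 5 4 e e))) e))))))))) (l (n 1 3 e (n 2 3 e
  (n 3 5 (n 4 3 e (n 3 2 e (n 1 2 (n 2 4 (n 2 5 e (n 4 1 (n 3 2 e (n 3 3 e e)) e)) (n 5 4 (n 3 2 e
  (n 3 4 e e)) e)) e))) (n 3 1 (n 4 5 e (n 1 2 (n 5 2 e (n 3 1 (n 5 1 e (n 2 5 (n 1 4 (n 2 4 (n 4 3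
  e (n 4 3 e e)) e) e) e)) (n 3 2 (n 2 5 (n 2 4 (n 1 4 (n 4 1 e (n 4 3 e (n 4 3 e e))) e) e) e) (n 3
  4 (n 1 4 (n 4 1 e (n 4 2 e (n 4 2 e (n 4 4 e e)))) e) e)))) e)) (n 4 5 e (n 5 2 e (n 5 3 e (n 1 2
  (n 3 2 (n 2 5 (n 2 4 (n 1 4 (n 4 1 e (n 4 3 e (n 4 3 e e))) e) e) e) (n 3 4 (n 1 4 (n 4 1 e (n 4 2
  e (n 4 2 e (n 4 4 e e)))) e) e)) (n 1 4 (n 4 3 e (n 4 2 e (n 4 2 e (n 4 4 e e)))) e))))))))))) (b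
  (l (n 1 3 e (n 4 5 e (n 2 3 e (n 3 5 e (n 1 3 (n 5 2 (n 3 5 (n 2 1 (n 5 1 (n 2 4 (n 3 4 (n 1 4 (n
  2 4 (n 3 4 (n 4 5 e (n 4 5 e e)) e) e) e) e) e) e) e) e) (n 3 5 e (n 3 2 (n 3 4 (n 2 1 (n 1 4 (n 3
  4 (n 4 5 e (n 4 2 e (n 4 2 e e))) e) e) (n 2 5 (n 3 4 (n 4 5 e (n 1 4 (n 4 1 e (n 4 2 e (n 4 2 e
  e))) e)) e) e)) e) e))) (n 2 3 (n 2 1 e (n 5 2 (n 2 4 (n 2 4 (n 3 4 (n 1 4 (n 4 1 e (n 4 5 e (n 4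
  5 e (n 4 4 e e)))) e) e) e) e) e)) e))))))) (l (n 1 3 e (n 2 3 e (n 3 5 (n 2 3 e e) (n 1 3 (n 4 2
  e (n 2 5 (n 2 3 e (n 1 2 (n 3 4 (n 5 3 (n 2 4 (n 3 4 (n 1 4 (n 4 1 e (n 4 5 e (n 4 5 e e))) e) e)
  e) e) e) e)) (n 3 4 (n 3 5 (n 1 2 (n 3 2 e (n 1 4 (n 4 2 e (n 4 3 e (n 4 5 e e))) e)) (n 5 1 e (n
  2 4 (n 3 4 (n 4 5 e (n 4 1 e (n 4 1 e (n 4 4 e e)))) e) e))) e) e))) (n 2 1 e (n 4 2 e (n 5 2 (n 1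
  3 (n 3 2 e (n 5 3 e (n 2 4 (n 4 5 e (n 1 4 (n 4 1 e (n 4 3 e (n 4 3 e (n 4 4 e e)))) e)) e))) e)
  e)))))))))))))))))) z) (b (f [0, 2] (t [0, 1, 8] (t [0, 4, 8] (b (f [0, 5, 9] (t [0, 3] (t [0, 3]
  (t [0, 2, 9] (t [0, 2] (f [0, 1, 2, 5, 9] (l (n 3 2 e (n 5 2 (n 1 3 e (n 4 5 e (n 2 1 (n 1 5 (n 2
  1 (n 2 4 e e) e) e) e))) e))))))))) (b (t [0, 4] (t [0, 4] (t [0, 1, 10] (t [0, 1] (f [0, 6, 10]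
  (l (n 1 3 e (n 3 2 e (n 4 5 e (n 2 5 e (n 2 1 (n 4 2 e e) e))))))))))) (t [0, 4] (t [0, 4] (t [0,
  3, 10] (t [0, 3] (f [0, 2] (l (n 1 3 e (n 3 2 e (n 2 5 e (n 2 1 e (n 4 5 e (n 5 2 e (n 4 1 e (n 4
  2 e e))))))))))))))))))) z))) z) (t [0, 2] (t [0, 2] (b (b (t [0, 2] (t [0, 0, 1, 2, 2] (t [0, 5]
  (b (b (b (t [0, 1] (t [0, 0, 4] (t [0, 0, 2, 2, 4] (b (l (n 2 2 (n 3 3 (n 4 5 e (n 1 1 (n 5 5 e e)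
  e)) e) e)) (l (n 4 2 e (n 5 2 (n 2 2 (n 3 5 (n 5 5 (n 1 3 (n 1 1 (n 3 3 e e) e) e) e) e) e)
  e))))))) (f [0, 1] (t [0, 1, 2] (t [0, 1, 2, 2] (b (l (n 4 2 e (n 2 5 (n 2 3 e (n 5 5 (n 3 2 e (n
  3 3 (n 1 2 e (n 1 1 e e)) e)) e)) e))) (l (n 4 2 e (n 2 5 (n 2 3 e (n 5 5 (n 3 2 e (n 3 3 e (n 1 2
  e (n 1 3 e (n 1 1 e e))))) e)) e)))))))) (b (t [0, 1] (t [0, 0, 4] (t [0, 1, 4] (f [0, 1, 2, 3, 4]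
  (l (n 2 3 (n 4 2 e (n 2 5 e (n 3 3 (n 1 2 e (n 1 5 (n 1 2 e e) e)) e))) e)))))) (f [0, 1] (t [0,
  0, 4] (b (b (l (n 4 2 e (n 2 3 e (n 5 3 (n 1 3 e (n 5 1 e (n 2 1 (n 1 2 (n 3 1 (n 5 2 e (n 5 5 e
  e)) e) (n 1 1 (n 5 5 (n 3 2 e (n 3 3 e e)) e) e)) e))) (n 3 2 e (n 1 2 (n 2 5 (n 1 5 e (n 3 1 e (n
  3 3 e e))) (n 2 5 (n 3 1 e (n 3 2 e e)) e)) (n 5 2 (n 1 3 (n 1 2 (n 2 2 (n 1 1 e (n 3 3 e e)) (n 3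
  2 e (n 3 3 e e))) e) e) e))))))) (l (n 2 3 e (n 4 5 e (n 5 3 (n 1 3 e (n 5 2 e (n 3 1 (n 2 1 (n 4
  2 e (n 3 4 (n 1 5 (n 3 5 (n 1 2 (n 3 2 (n 5 2 e (n 5 5 e e)) (n 3 3 (n 5 5 e e) e)) (n 1 1 (n 3 3
  (n 5 5 e e) e) e)) e) e) e)) e) e))) (n 3 2 e (n 2 5 e (n 4 2 e (n 1 2 (n 3 1 e (n 3 2 e (n 2 5 e
  e))) (n 3 2 e (n 3 1 (n 3 3 e (n 1 2 e (n 1 5 e (n 1 1 e e)))) e))))))))))) (b (l (n 4 2 e (n 2 3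
  e (n 3 5 (n 3 1 e (n 2 3 (n 5 2 (n 5 3 (n 1 2 (n 5 2 e e) e) e) e) e)) (n 1 3 e (n 1 3 e (n 5 2 e
  (n 1 2 (n 5 3 (n 1 5 (n 3 2 e e) e) (n 1 3 e (n 1 5 e e))) e)))))))) (l (n 4 2 e (n 2 3 e (n 5 3
  (n 3 1 (n 5 2 (n 1 5 (n 3 1 (n 3 2 e e) e) e) (n 1 3 e (n 2 1 e (n 5 1 (n 3 2 e (n 3 5 e e)) e))))
  e) (n 3 2 e (n 2 5 e (n 2 1 e (n 5 2 (n 1 3 (n 3 5 e e) e) e)))))))))))))) (b (b (t [0, 1] (t [0,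
  3] (t [0, 2] (b (l (n 2 2 (n 3 3 (n 4 5 e (n 1 1 e (n 5 5 e e))) e) e)) (l (n 1 3 e (n 2 3 (n 4 2
  e (n 3 3 (n 5 2 (n 2 2 (n 5 5 e e) (n 2 1 e e)) e) e)) e))))))) (f [0, 1] (t [0, 3] (t [0, 2] (b
  (l (n 1 3 e (n 4 2 e (n 2 3 e (n 5 3 (n 3 1 (n 2 1 (n 3 2 (n 5 2 e (n 5 5 e e)) (n 3 3 (n 5 5 e e)
  e)) e) e) (n 3 2 e (n 5 2 (n 3 3 (n 2 1 e (n 2 2 e e)) e) e))))))) (l (n 1 3 e (n 4 2 e (n 5 2 (n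
  5 3 (n 2 3 e (n 3 1 (n 2 1 (n 3 2 (n 5 2 e (n 5 5 e e)) (n 3 3 (n 5 5 e e) e)) e) e)) (n 3 2 e (n
  3 5 e (n 2 1 e (n 2 2 e e))))) e))))))))) (b (t [0, 1] (t [0, 3] (t [0, 1, 4] (f [0, 3] (l (n 1 3
  e (n 2 3 (n 4 2 e (n 2 5 e (n 2 1 e (n 3 3 (n 5 2 e e) e)))) e))))))) (f [0, 1] (t [0, 3] (b (b (l
  (n 1 3 e (n 4 2 e (n 2 3 e (n 3 5 (n 3 2 e (n 2 5 e (n 1 2 (n 3 2 e (n 3 3 e e)) e))) (n 3 1 (n 1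
  2 (n 5 2 e (n 1 3 (n 3 2 (n 5 2 e e) e) (n 5 1 (n 1 1 e e) (n 5 2 e e)))) e) (n 5 2 e (n 5 2 (n 5
  3 e (n 1 2 e e)) e)))))))) (l (n 1 3 e (n 4 2 e (n 2 3 e (n 3 5 (n 3 2 e (n 2 5 e (n 1 2 (n 3 2 e
  (n 3 3 e e)) e))) (n 3 1 (n 1 2 (n 5 2 e (n 3 1 (n 5 1 e (n 2 5 e e)) (n 3 2 (n 2 5 e e) e))) e)
  (n 5 2 e (n 5 3 e (n 1 2 (n 3 2 (n 2 5 e e) e) e)))))))))) (b (l (n 4 2 e (n 1 3 e (n 2 3 e (n 3 5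
  e (n 1 3 (n 3 5 (n 1 2 (n 2 3 (n 1 5 (n 5 2 e e) e) e) (n 5 2 e e)) e) (n 2 3 (n 2 1 e (n 5 2 e
  e)) e))))))) (l (n 4 2 e (n 2 3 e (n 1 3 e (n 3 2 e (n 5 3 e (n 2 5 e (n 2 1 (n 1 2 (n 3 2 e e) e)
  (n 3 2 (n 2 5 e e) (n 3 1 e (n 3 2 e e))))))))))))))))))))) z) (b (f [0, 2] (t [0, 4] (t [0, 5] (b
  (b (t [0, 4] (t [0, 4] (t [0, 6] (t [0, 3] (b (l (n 2 2 (n 5 5 (n 3 1 (n 4 4 e (n 1 1 (n 3 3 e e)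
  e)) e) e) e)) (l (n 1 3 (n 4 5 e (n 2 5 (n 3 2 (n 1 2 e (n 5 5 (n 2 2 (n 3 3 e e) e) e)) (n 5 3 e
  e)) e)) e))))))) (t [0, 4] (t [0, 4] (t [0, 1, 3] (t [0, 3] (f [0, 1, 2, 3] (l (n 1 3 (n 4 2 e (n
  2 5 e (n 3 5 (n 1 2 e (n 1 5 e (n 5 2 e e))) e))) e)))))))) (b (t [0, 4] (t [0, 4] (t [0, 2] (t
  [0, 1] (b (l (n 2 2 (n 1 3 e (n 4 5 e (n 3 3 e (n 5 5 e e)))) e)) (l (n 1 3 e (n 3 2 e (n 4 2 e (n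
  2 5 (n 5 5 (n 2 2 e e) e) (n 2 1 e e))))))))))) (t [0, 4] (t [0, 4] (t [0, 2] (t [0, 3] (f [0, 2]
  (l (n 1 3 e (n 3 2 e (n 4 2 e (n 2 5 e (n 2 1 e (n 5 2 e e))))))))))))))))) z))))))) z) (b (t [0,
  1] (f [0, 2] (f [0, 2, 4] (t [0, 1] (t [0, 1] (b (t [0, 1, 1] (t [0, 1] (t [0, 1, 1] (f [0, 3] (b
  (b (t [0, 1] (t [0, 3] (t [0, 3] (b (l (n 2 2 (n 3 3 (n 4 5 e (n 1 1 (n 5 5 e e) e)) e) e)) (l (n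
  2 3 (n 3 3 (n 4 5 e (n 5 2 e (n 1 2 (n 1 1 (n 2 2 e e) e) e))) e) e)))))) (f [0, 1] (t [0, 1] (t
  [0, 1] (b (l (n 4 5 e (n 5 2 e (n 2 3 e (n 3 2 e (n 3 3 (n 1 2 e (n 1 1 e e)) e)))))) (l (n 4 5 e
  (n 5 2 e (n 2 3 e (n 3 2 e (n 1 3 (n 1 1 (n 3 3 e e) e) (n 1 2 (n 3 3 e e) e)))))))))))) (t [0, 1]
  (b (t [0, 1] (t [0, 2] (t [0, 2] (b (l (n 2 2 (n 1 3 e (n 4 5 e (n 3 3 (n 5 5 e e) e))) e)) (l (n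
  1 3 e (n 2 3 (n 4 5 e (n 5 2 e (n 2 2 e (n 3 3 e e)))) e))))))) (f [0, 1] (t [0, 1] (t [0, 1] (b
  (l (n 4 5 e (n 1 3 e (n 5 2 e (n 2 3 e (n 3 2 e (n 3 3 e e))))))) (l (n 4 5 e (n 1 3 e (n 5 2 e (n
  2 3 e (n 3 2 e (n 3 3 e e)))))))))))))))))) (t [0, 2] (f [0, 1] (t [0, 2] (f [0, 3] (b (t [0, 2]
  (t [0, 2] (t [0, 3] (t [0, 3] (b (l (n 2 2 (n 1 3 (n 4 5 e (n 3 3 (n 1 1 e (n 5 5 e e)) e)) e) e))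
  (l (n 3 2 e (n 1 3 e (n 4 5 e (n 5 2 e (n 1 2 (n 1 1 (n 2 2 e e) e) e))))))))))) (t [0, 1] (t [0,
  2] (t [0, 2] (t [0, 1] (t [0, 1] (b (l (n 2 2 (n 1 3 e (n 4 5 e (n 3 3 e (n 5 5 e e)))) e)) (l (n
  1 3 e (n 3 2 e (n 4 5 e (n 5 2 e (n 2 2 e e))))))))))))))))))))))) z)) z)) z)

set_option maxRecDepth 100000 in
theorem f00A : chkQ 5 2 10897286400000 t00A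
    (blks.getD 0 ⟨0, 0, 0, 0, 0, .zr, .zr⟩).A = some [0] := by
  decide +kernel

end Pool.Agent.TH32
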