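import Pool.Agent.TH32.H.Fast

set_option autoImplicit false

namespace Pool.Agent.TH32

open CT PT

set_option maxRecDepth 100000 in
/-- certificate for block 0 (c0R1), tree B -/
def t00B : PT :=
  (b (f [0, 1] (b (b (b (t [0, 1] (t [0, 2] (b (b (t [0, 1] (b (b (t [0, 2] (t [0, 1, 8] (t [0, 4,
  8] (b (f [0, 5, 9] (b (t [0, 1] (t [0, 5] (t [0, 1, 3] (t [0, 1, 2, 3, 6, 10] (l (n 3 2 (n 2 2 (n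
  5 3 (n 4 5 e (n 3 1 (n 1 5 (n 3 1 (n 3 4 e e) e) e) e)) e) e) e)))))) (f [0, 1] (t [0, 5] (b (b (l
  (n 2 3 e (n 4 5 e (n 5 3 (n 1 3 e (n 3 1 (n 5 3 e (n 1 5 (n 2 1 (n 4 2 (n 1 2 (n 3 2 (n 5 2 e (n 5
  4 e e)) (n 3 4 (n 5 4 e e) e)) (n 1 4 (n 3 4 (n 5 4 e e) e) e)) (n 3 4 e (n 1 2 (n 3 2 (n 4 2 (n 5
  2 e e) e) e) e))) e) e)) e)) (n 3 2 e (n 5 2 (n 3 2 e (n 2 1 (n 2 4 e (n 1 2 e (n 1 3 e (n 1 4 e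
  (n 1 5 e e))))) (n 2 5 (n 1 4 (n 4 2 e e) e) e))) e)))))) z) z))))) (b (b (t [0, 1] (t [0, 2, 11]
  (t [0, 2] (t [0, 7, 11] (l (n 1 3 e (n 2 3 (n 3 3 (n 4 5 e (n 2 5 e (n 2 1 (n 4 2 e e) e))) e)
  e))))))) (f [0, 1] (t [0, 2, 11] (t [0, 2] (b (l (n 1 3 e (n 4 5 e (n 2 5 e (n 2 1 (n 3 2 (n 3 2 e
  (n 3 5 e (n 3 4 (n 4 5 e (n 2 4 (n 4 2 e (n 4 4 e e)) e)) e))) (n 5 3 e (n 3 5 (n 2 5 e (n 2 4 (n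
  4 5 e (n 4 4 e e)) e)) (n 4 2 e e)))) e))))) z))))) (b (t [0, 1] (t [0, 6] (t [0, 1, 4] (t [0, 3]
  (l (n 1 3 e (n 2 3 (n 2 5 e (n 2 1 e (n 4 5 e (n 5 2 e (n 3 3 (n 4 1 e (n 4 2 e e)) e)))))
  e))))))) (f [0, 1] (t [0, 6] (b (b (l (n 1 3 e (n 2 3 e (n 3 5 (n 4 3 e (n 3 2 e (n 1 2 (n 2 4 (n
  2 5 e (n 4 1 (n 3 2 e (n 3 3 e e)) e)) (n 5 4 (n 3 2 e (n 3 4 e e)) e)) e))) (n 3 1 (n 4 5 e (n 1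
  2 (n 5 2 e (n 3 1 (n 5 1 e (n 2 5 (n 1 4 (n 2 4 (n 4 3 e (n 4 3 e e)) e) e) e)) (n 3 2 (n 2 5 (n 2
  4 (n 1 4 (n 4 1 e (n 4 3 e (n 4 3 e e))) e) e) e) (n 3 4 (n 1 4 (n 4 1 e (n 4 2 e (n 4 2 e (n 4 4
  e e)))) e) e)))) e)) (n 4 5 e (n 5 2 e (n 5 3 e (n 1 2 (n 3 2 (n 2 5 (n 2 4 (n 1 4 (n 4 1 e (n 4 3
  e (n 4 3 e e))) e) e) e) (n 3 4 (n 1 4 (n 4 1 e (n 4 2 e (n 4 2 e (n 4 4 e e)))) e) e)) (n 1 4 (n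
  4 3 e (n 4 2 e (n 4 2 e (n 4 4 e e)))) e)))))))))) z) z))))))))) z) (b (f [0, 2] (t [0, 1, 8] (t
  [0, 4, 8] (b (f [0, 5, 9] (t [0, 3] (t [0, 3] (t [0, 2, 9] (t [0, 2] (t [0, 1, 2, 5, 9] (l (n 3 2
  e (n 5 2 (n 1 3 e (n 4 5 e (n 2 1 (n 1 5 (n 2 1 (n 2 4 e e) e) e) e))) e))))))))) (b (t [0, 4] (t
  [0, 4] (t [0, 1, 10] (t [0, 1] (t [0, 6, 10] (l (n 1 3 e (n 3 2 e (n 4 5 e (n 2 5 e (n 2 1 (n 4 2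
  e e) e))))))))))) (t [0, 4] (t [0, 4] (t [0, 3, 10] (t [0, 3] (t [0, 2] (l (n 1 3 e (n 3 2 e (n 2
  5 e (n 2 1 e (n 4 5 e (n 5 2 e (n 4 1 e (n 4 2 e e))))))))))))))))))) z))) z) (t [0, 2] (t [0, 2]
  (b (b (t [0, 2] (t [0, 0, 1, 2, 2] (t [0, 5] (b (b (b (t [0, 1] (t [0, 0, 4] (t [0, 0, 2, 2, 4] (b
  (l (n 4 2 e (n 5 2 (n 2 2 (n 3 5 (n 5 5 (n 1 3 (n 1 1 (n 3 3 e e) e) e) e) e) e) e))) z)))) (f [0,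
  1] (t [0, 1, 2] (t [0, 1, 2, 2] (b (l (n 4 2 e (n 2 5 (n 2 3 e (n 5 5 (n 3 2 e (n 3 3 e (n 1 2 e
  (n 1 3 e (n 1 1 e e))))) e)) e))) z))))) (b (t [0, 1] (t [0, 0, 4] (t [0, 1, 4] (t [0, 1, 2, 3, 4]
  (l (n 2 3 (n 4 2 e (n 2 5 e (n 3 3 (n 1 2 e (n 1 5 (n 1 2 e e) e)) e))) e)))))) (f [0, 1] (t [0,
  0, 4] (b (b (l (n 2 3 e (n 4 5 e (n 5 3 (n 1 3 e (n 5 2 e (n 3 1 (n 2 1 (n 4 2 e (n 3 4 (n 1 5 (n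
  3 5 (n 1 2 (n 3 2 (n 5 2 e (n 5 5 e e)) (n 3 3 (n 5 5 e e) e)) (n 1 1 (n 3 3 (n 5 5 e e) e) e)) e)
  e) e)) e) e))) (n 3 2 e (n 2 5 e (n 4 2 e (n 1 2 (n 3 1 e (n 3 2 e (n 2 5 e e))) (n 3 2 e (n 3 1
  (n 3 3 e (n 1 2 e (n 1 5 e (n 1 1 e e)))) e)))))))))) z) z))))) (b (b (t [0, 1] (t [0, 3] (t [0,
  2] (b (l (n 1 3 e (n 2 3 (n 4 2 e (n 3 3 (n 5 2 (n 2 2 (n 5 5 e e) (n 2 1 e e)) e) e)) e))) z))))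
  (f [0, 1] (t [0, 3] (t [0, 2] (b (l (n 1 3 e (n 4 2 e (n 5 2 (n 5 3 (n 2 3 e (n 3 1 (n 2 1 (n 3 2
  (n 5 2 e (n 5 5 e e)) (n 3 3 (n 5 5 e e) e)) e) e)) (n 3 2 e (n 3 5 e (n 2 1 e (n 2 2 e e)))))
  e)))) z))))) (b (t [0, 1] (t [0, 3] (t [0, 1, 4] (t [0, 3] (l (n 1 3 e (n 2 3 (n 4 2 e (n 2 5 e (n
  2 1 e (n 3 3 (n 5 2 e e) e)))) e))))))) (f [0, 1] (t [0, 3] (b (b (l (n 1 3 e (n 4 2 e (n 2 3 e (n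
  3 5 (n 3 2 e (n 2 5 e (n 1 2 (n 3 2 e (n 3 3 e e)) e))) (n 3 1 (n 1 2 (n 5 2 e (n 3 1 (n 5 1 e (n
  2 5 e e)) (n 3 2 (n 2 5 e e) e))) e) (n 5 2 e (n 5 3 e (n 1 2 (n 3 2 (n 2 5 e e) e) e))))))))) z)
  z))))))))) z) (b (f [0, 2] (t [0, 4] (t [0, 5] (b (b (t [0, 4] (t [0, 4] (t [0, 6] (t [0, 3] (b (l
  (n 1 3 (n 4 5 e (n 2 5 (n 3 2 (n 1 2 e (n 5 5 (n 2 2 (n 3 3 e e) e) e)) (n 5 3 e e)) e)) e))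
  z))))) (t [0, 4] (t [0, 4] (t [0, 1, 3] (t [0, 3] (t [0, 1, 2, 3] (l (n 1 3 (n 4 2 e (n 2 5 e (n 3
  5 (n 1 2 e (n 1 5 e (n 5 2 e e))) e))) e)))))))) (b (t [0, 4] (t [0, 4] (t [0, 2] (t [0, 1] (b (l
  (n 1 3 e (n 3 2 e (n 4 2 e (n 2 5 (n 5 5 (n 2 2 e e) e) (n 2 1 e e)))))) z))))) (t [0, 4] (t [0,
  4] (t [0, 2] (t [0, 3] (t [0, 2] (l (n 1 3 e (n 3 2 e (n 4 2 e (n 2 5 e (n 2 1 e (n 5 2 e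
  e))))))))))))))))) z))))))) z) (b (t [0, 1] (f [0, 2] (f [0, 2, 4] (t [0, 1] (t [0, 1] (b (t [0,
  1, 1] (t [0, 1] (t [0, 1, 1] (f [0, 3] (b (b (t [0, 1] (t [0, 3] (t [0, 3] (b (l (n 2 3 (n 3 3 (n
  4 5 e (n 5 2 e (n 1 2 (n 1 1 (n 2 2 e e) e) e))) e) e)) z)))) (f [0, 1] (t [0, 1] (t [0, 1] (b (l
  (n 4 5 e (n 5 2 e (n 2 3 e (n 3 2 e (n 1 3 (n 1 1 (n 3 3 e e) e) (n 1 2 (n 3 3 e e) e)))))))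
  z))))) (t [0, 1] (b (t [0, 1] (t [0, 2] (t [0, 2] (b (l (n 1 3 e (n 2 3 (n 4 5 e (n 5 2 e (n 2 2 e
  (n 3 3 e e)))) e))) z)))) (f [0, 1] (t [0, 1] (t [0, 1] (b (l (n 4 5 e (n 1 3 e (n 5 2 e (n 2 3 e
  (n 3 2 e (n 3 3 e e))))))) z))))))))))) (t [0, 2] (f [0, 1] (t [0, 2] (f [0, 3] (b (t [0, 2] (t
  [0, 2] (t [0, 3] (t [0, 3] (b (l (n 3 2 e (n 1 3 e (n 4 5 e (n 5 2 e (n 1 2 (n 1 1 (n 2 2 e e) e)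
  e)))))) z))))) (t [0, 1] (t [0, 2] (t [0, 2] (t [0, 1] (t [0, 1] (b (l (n 1 3 e (n 3 2 e (n 4 5 e
  (n 5 2 e (n 2 2 e e)))))) z))))))))))))))))) z)) z)) z)

set_option maxRecDepth 100000 in
theorem f00B : chkQ 5 3 10897286400000 t00B
    (blks.getD 0 ⟨0, 0, 0, 0, 0, .zr, .zr⟩).B = some [] := by
  decide +kernel

end Pool.Agent.TH32
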