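import Pool.Agent.TH32.H.Fast

set_option autoImplicit false

namespace Pool.Agent.TH32

open CT PT

set_option maxRecDepth 100000 in
/-- certificate for block 1 (c0R2), tree A -/
def t01A : PT :=
  (b (b (b (t [0, 1] (t [0, 2] (t [0, 2] (b (t [0, 1] (b (t [0, 1, 2] (t [0, 1] (t [0, 1, 2] (t [0,
  4] (b (b (b (t [0, 1] (t [0, 5] (t [0, 5] (b (l (n 2 2 (n 3 3 (n 1 1 (n 4 4 e e) e) e) e)) (l (n 2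
  4 (n 3 2 (n 2 2 (n 1 3 (n 4 4 (n 1 1 (n 3 3 e e) e) e) e) e) e) e)))))) (f [0, 1] (t [0, 1, 2, 2]
  (t [0, 1, 2, 2] (b (l (n 2 4 (n 2 3 e (n 3 2 e (n 3 3 (n 4 4 (n 1 2 e (n 1 1 e e)) e) e))) e)) (l
  (n 2 4 (n 2 3 e (n 3 2 e (n 3 3 e (n 4 4 (n 1 2 e (n 1 3 e (n 1 1 e e))) e)))) e))))))) (b (t [0,
  1] (t [0, 5] (t [0, 5] (f [0, 2, 3, 5] (l (n 2 3 (n 2 4 e (n 3 3 (n 1 2 e (n 1 4 (n 1 2 e e) e))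
  e)) e)))))) (f [0, 1] (t [0, 5] (t [0, 5] (b (l (n 2 3 e (n 3 4 (n 3 2 e (n 4 2 (n 1 2 (n 4 2 e (n
  3 1 e (n 3 2 e e))) (n 3 1 (n 1 4 (n 3 2 e (n 3 3 e e)) e) (n 1 2 (n 3 2 e e) e))) e)) (n 1 3 e (n
  1 4 (n 1 2 e (n 1 3 e (n 1 2 (n 3 2 (n 4 2 e e) e) e))) e))))) (l (n 2 3 e (n 3 4 (n 3 2 e (n 4 2
  (n 1 2 (n 4 2 e (n 3 1 e (n 3 2 e e))) (n 1 4 (n 3 2 e (n 3 3 e e)) (n 3 1 e (n 1 2 (n 3 2 e e)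
  e)))) e)) (n 1 3 e (n 1 4 (n 1 2 e (n 1 3 e (n 1 2 (n 3 2 (n 4 2 e e) e) e))) e))))))))))) (b (b
  (t [0, 1] (t [0, 2] (t [0, 2] (b (l (n 2 2 (n 1 3 e (n 3 3 (n 4 4 e e) e)) e)) (l (n 1 3 e (n 2 3
  (n 3 3 (n 4 2 (n 2 2 (n 4 4 e e) (n 2 1 e e)) e) e) e))))))) (f [0, 1] (t [0, 2] (t [0, 2] (b (l
  (n 1 3 e (n 2 3 e (n 3 2 e (n 3 3 (n 4 2 (n 1 2 e (n 2 1 (n 4 1 e e) e)) (n 4 2 (n 2 1 e e) (n 4 4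
  e e))) e))))) (l (n 1 3 e (n 2 4 (n 2 3 e (n 3 2 e (n 3 3 e (n 4 4 e e)))) (n 3 4 (n 3 2 e (n 3 4
  e (n 2 1 e e))) (n 2 1 (n 2 3 e (n 3 2 (n 4 2 e e) e)) e)))))))))) (b (t [0, 1] (t [0, 5] (t [0,
  5] (f [0, 3] (l (n 1 3 e (n 2 3 (n 2 4 e (n 2 1 e (n 4 2 e (n 3 3 e e)))) e))))))) (f [0, 1] (t
  [0, 5] (t [0, 5] (b (l (n 1 3 e (n 2 3 e (n 4 2 (n 2 1 (n 3 1 e (n 4 3 e (n 1 2 e (n 4 1 (n 1 3 e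
  (n 1 1 e e)) e)))) (n 3 4 e e)) (n 3 4 e (n 3 1 e (n 4 2 (n 1 2 (n 2 3 (n 1 3 (n 4 3 (n 3 4 e e)
  e) e) (n 2 2 e e)) e) e))))))) (l (n 1 3 e (n 2 3 e (n 4 2 (n 1 2 e (n 3 4 e (n 3 1 (n 2 3 (n 4 1
  e (n 3 4 e (n 3 3 e e))) e) e))) (n 3 4 e (n 3 1 e (n 4 2 (n 1 2 e (n 2 3 (n 4 3 (n 3 4 e e) e)
  e)) (n 3 4 e (n 2 3 (n 3 2 e e) e)))))))))))))))))))) (t [0, 2] (f [0, 1] (t [0, 2] (t [0, 4] (b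
  (b (t [0, 3] (t [0, 3] (t [0, 4] (t [0, 4] (b (l (n 2 2 (n 1 3 (n 4 4 (n 3 3 (n 1 1 e e) e) e) e)
  e)) (l (n 2 4 (n 3 2 e (n 1 3 (n 4 3 e e) (n 1 2 (n 4 4 (n 1 1 (n 2 2 e e) e) e) e))) e))))))) (t
  [0, 3] (t [0, 3] (t [0, 4] (t [0, 4] (f [0, 1, 2, 4] (l (n 1 3 (n 2 4 e (n 3 4 (n 1 2 e (n 1 4 e
  (n 4 2 e e))) e)) e)))))))) (b (t [0, 3] (t [0, 3] (t [0, 1] (t [0, 1] (b (l (n 2 2 (n 1 3 e (n 3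
  3 e (n 4 4 e e))) e)) (l (n 1 3 e (n 3 2 e (n 2 4 (n 2 2 e (n 4 4 e e)) (n 2 1 e e)))))))))) (t
  [0, 3] (t [0, 3] (t [0, 4] (t [0, 4] (f [0, 2] (l (n 1 3 e (n 3 2 e (n 2 4 e (n 2 1 e (n 4 2 e
  e))))))))))))))))))) z)))) z) (b (t [0, 1] (f [0, 2] (f [0, 2] (t [0, 1] (t [0, 1] (b (t [0, 1, 1]
  (t [0, 1] (t [0, 1, 1] (f [0, 3] (b (b (t [0, 1] (t [0, 3] (t [0, 3] (b (l (n 2 2 (n 3 3 (n 1 1 (n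
  4 4 e e) e) e) e)) (l (n 2 3 (n 3 3 (n 4 2 e (n 1 2 (n 1 1 (n 2 2 e e) e) e)) e) e)))))) (f [0, 1]
  (t [0, 1] (t [0, 1] (b (l (n 4 2 e (n 2 3 e (n 3 2 e (n 3 3 (n 1 2 e (n 1 1 e e)) e))))) (l (n 4 2
  e (n 2 3 e (n 3 2 e (n 1 2 (n 3 3 e e) (n 3 1 (n 1 1 (n 3 3 e e) e) e))))))))))) (t [0, 1] (b (t
  [0, 1] (t [0, 2] (t [0, 2] (b (l (n 2 2 (n 1 3 e (n 3 3 (n 4 4 e e) e)) e)) (l (n 1 3 e (n 2 3 (n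
  4 2 e (n 2 2 e (n 3 3 e e))) e))))))) (f [0, 1] (t [0, 1] (t [0, 1] (b (l (n 4 2 e (n 2 3 e (n 1 3
  e (n 3 2 e (n 3 3 e e)))))) (l (n 4 2 e (n 2 3 e (n 1 3 e (n 3 2 e (n 3 3 e e))))))))))))))))) (t
  [0, 2] (f [0, 1] (t [0, 2] (f [0, 3] (b (t [0, 2] (t [0, 2] (t [0, 3] (t [0, 3] (b (l (n 2 2 (n 1
  3 (n 3 3 (n 1 1 e (n 4 4 e e)) e) e) e)) (l (n 3 2 e (n 1 3 e (n 4 2 e (n 1 2 (n 1 1 (n 2 2 e e)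
  e) e)))))))))) (t [0, 1] (t [0, 2] (t [0, 2] (t [0, 1] (t [0, 1] (b (l (n 2 2 (n 1 3 e (n 3 3 e (n
  4 4 e e))) e)) (l (n 1 3 e (n 3 2 e (n 4 2 e (n 2 2 e e)))))))))))))))))))))) z)) z)

set_option maxRecDepth 100000 in
theorem f01A : chkQ 4 1 10897286400000 t01A
    (blks.getD 1 ⟨0, 0, 0, 0, 0, .zr, .zr⟩).A = some [0] := by
  decide +kernel

end Pool.Agent.TH32
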