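import Pool.Agent.TH32.H.Fast

set_option autoImplicit false

namespace Pool.Agent.TH32

open CT PT

set_option maxRecDepth 100000 in
/-- certificate for block 2 (c0R3), tree A -/
def t02A : PT :=
  (b (b (b (t [0, 1] (b (t [0, 1] (b (t [0, 1] (b (t [0, 1, 2] (t [0, 1] (b (t [0, 4] (b (f [0, 5]
  (b (t [0, 1] (t [0, 1, 3] (t [0, 1, 3] (f [0, 1, 2, 3, 6] (l (n 2 3 (n 3 3 (n 4 2 (n 2 1 (n 1 4 (n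
  2 1 (n 2 5 e e) e) e) e) e) e) e)))))) (f [0, 1] (b (t [0, 1] (b (l (n 2 3 e (n 4 3 (n 1 3 e (n 3
  1 (n 2 1 (n 4 2 e (n 1 4 (n 3 4 (n 3 5 (n 5 2 (n 1 2 (n 3 2 (n 4 2 e (n 4 5 e e)) (n 3 5 (n 4 5 e
  e) e)) (n 1 5 (n 3 5 (n 4 5 e e) e) e)) e) (n 1 2 (n 3 2 (n 4 2 (n 5 2 e e) e) e) e)) e) e)) e)
  e)) (n 3 2 e (n 2 4 e (n 1 2 (n 2 4 (n 1 5 (n 5 2 (n 1 3 (n 3 2 e (n 3 5 e e)) e) e) (n 1 3 (n 3 2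
  e (n 3 5 e (n 3 3 e e))) e)) e) (n 5 2 (n 3 2 (n 1 3 e (n 1 4 e e)) (n 3 5 (n 1 2 e (n 1 3 e (n 1
  4 e e))) e)) e))))))) (l (n 2 3 e (n 4 3 (n 1 3 e (n 3 1 (n 4 3 e (n 1 4 (n 2 1 (n 5 2 (n 1 2 (n 3
  2 (n 4 2 e (n 4 5 e e)) (n 3 5 (n 4 5 e e) e)) (n 1 5 (n 3 5 (n 4 5 e e) e) e)) (n 3 5 e (n 1 2 (n
  3 2 (n 4 2 (n 5 2 e e) e) e) e))) e) e)) e)) (n 3 2 e (n 4 2 (n 3 2 e (n 2 1 (n 2 5 e (n 1 2 e (n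
  1 3 e (n 1 4 e (n 1 5 e e))))) (n 2 4 (n 1 5 (n 5 2 e e) e) e))) e))))))) (t [0, 6] (b (l (n 2 3 e
  (n 3 4 (n 3 1 e (n 2 3 (n 4 2 (n 1 2 (n 4 2 (n 2 5 (n 4 3 (n 1 5 (n 5 4 e e) e) e) e) e) e) e) e))
  (n 1 3 e (n 1 3 e (n 4 2 e (n 1 2 (n 2 5 (n 1 4 (n 1 3 (n 2 3 (n 3 4 (n 2 5 (n 3 5 (n 5 1 e (n 5 1
  e e)) e) e) e) (n 3 5 (n 5 1 e (n 5 1 e e)) e)) (n 5 1 e (n 5 3 e (n 5 3 e e)))) e) e) e))))))) (l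
  (n 2 4 e (n 4 3 (n 3 1 (n 1 4 (n 1 2 (n 2 5 (n 3 1 (n 4 2 (n 3 2 (n 3 5 (n 3 2 e (n 5 1 e e)) (n 3
  2 (n 2 5 e e) e)) (n 1 3 e (n 1 5 (n 5 2 e (n 5 3 e (n 5 3 e e))) e))) (n 1 3 e (n 4 1 (n 1 5 (n 4
  5 (n 5 3 e (n 5 3 e e)) e) e) e))) e) e) e) e) e) (n 3 2 e (n 2 1 e (n 3 4 e (n 5 2 (n 2 4 (n 4 5
  (n 1 3 (n 2 3 (n 3 4 e e) e) e) e) e) (n 4 2 (n 1 3 (n 3 4 (n 5 1 e e) e) (n 5 1 e (n 5 3 e e)))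
  e)))))))))))))) (b (b (t [0, 1] (t [0, 2] (t [0, 2] (f [0, 7] (l (n 1 3 e (n 2 3 (n 2 4 e (n 2 1
  (n 3 3 (n 5 2 e e) e) e)) e))))))) (f [0, 1] (t [0, 2] (t [0, 2] (b (l (n 1 3 e (n 2 4 e (n 2 1 (n
  3 2 (n 3 2 e (n 3 4 (n 4 4 (n 3 5 (n 5 2 e (n 5 2 e e)) e) e) e)) (n 4 3 e (n 2 4 (n 3 4 (n 5 2 (n
  4 4 e e) e) e) e))) e)))) (l (n 1 3 e (n 2 4 e (n 2 1 (n 3 2 (n 3 2 e (n 3 4 e (n 3 5 (n 4 5 (n 5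
  2 e (n 5 2 e (n 5 5 e e))) e) e))) (n 4 3 e (n 3 4 (n 2 4 e (n 5 2 e (n 5 4 e e))) (n 5 2 e e))))
  e))))))))) (b (t [0, 1] (t [0, 1, 4] (t [0, 1, 4] (f [0, 3] (l (n 1 3 e (n 2 3 (n 2 4 e (n 2 1 e
  (n 4 2 e (n 3 3 (n 5 1 e (n 5 2 e e)) e)))) e))))))) (f [0, 1] (b (t [0, 1] (b (l (n 2 3 e (n 3 4
  (n 1 3 e (n 3 2 e (n 2 4 e (n 1 2 (n 5 2 (n 3 2 e (n 3 5 e e)) (n 5 1 (n 3 2 e (n 3 3 e e)) e))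
  e)))) (n 1 3 e (n 1 3 e (n 1 2 e (n 3 2 (n 4 2 (n 4 5 (n 4 1 e (n 2 2 (n 5 3 e (n 5 3 e e)) e)) (n
  2 2 (n 4 1 (n 1 5 e e) e) e)) (n 2 5 (n 1 2 (n 5 3 (n 1 4 (n 3 4 (n 3 4 (n 5 4 (n 4 5 e e) e) e)
  e) e) (n 5 3 (n 1 4 (n 3 4 (n 3 4 (n 5 4 (n 4 5 e e) e) e) e) e) e)) e) (n 1 2 (n 1 4 (n 3 4 (n 4
  3 e e) e) e) (n 1 5 (n 1 4 (n 2 4 (n 4 3 e (n 4 3 e e)) e) e) e)))) e))))))) (l (n 2 3 e (n 3 4 (n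
  1 3 e (n 3 2 e (n 2 4 e (n 1 2 (n 3 2 e (n 3 3 e (n 5 1 e (n 5 2 e e)))) e)))) (n 1 3 e (n 1 3 e
  (n 1 2 e (n 4 1 e (n 3 2 (n 1 2 e (n 2 4 (n 3 4 (n 4 3 (n 2 5 (n 3 5 (n 3 5 (n 5 4 e (n 5 4 e e))
  e) e) e) e) (n 2 5 (n 3 5 (n 5 3 e (n 5 4 e (n 5 4 e (n 5 5 e e)))) e) e)) (n 2 5 (n 5 4 e (n 5 3
  e (n 5 3 e e))) e))) (n 3 4 (n 4 2 (n 3 5 (n 2 5 (n 5 2 e (n 5 4 e (n 5 4 e e))) e) e) (n 4 2 (n 3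
  5 (n 2 5 (n 5 2 e (n 5 4 e (n 5 4 e e))) e) e) e)) (n 3 5 (n 5 4 e (n 5 2 e (n 5 2 e (n 5 5 e
  e)))) e)))))))))))) (t [0, 7] (b (l (n 2 3 e (n 3 4 e (n 1 3 e (n 1 3 e (n 2 3 (n 1 2 (n 2 5 (n 2
  4 (n 3 5 (n 1 4 (n 1 4 (n 4 3 (n 2 5 (n 5 1 e (n 5 1 e e)) e) e) (n 2 5 (n 1 5 (n 5 1 e (n 5 4 e
  (n 5 4 e (n 5 5 e e)))) e) e)) (n 2 5 (n 1 5 (n 5 1 e (n 5 4 e (n 5 4 e (n 5 5 e e)))) e) e)) (n 3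
  4 (n 4 5 e (n 1 4 (n 4 1 e e) e)) e)) (n 2 5 (n 3 5 (n 5 4 e (n 5 1 e (n 5 1 e e))) e) e)) e) e)
  e)))))) (l (n 2 3 e (n 3 4 (n 1 3 e (n 2 3 e e)) (n 1 3 e (n 1 2 (n 1 3 e (n 1 4 (n 5 2 e (n 3 5
  (n 4 3 (n 4 2 e (n 1 5 (n 5 2 e (n 5 3 e (n 5 4 e e))) e)) e) e)) e)) (n 2 3 e (n 1 3 (n 4 2 e (n
  3 5 (n 3 5 (n 1 4 (n 1 4 (n 4 3 (n 5 2 e (n 5 1 e (n 5 1 e e))) e) (n 2 5 (n 1 5 (n 5 1 e (n 5 4 e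
  (n 5 4 e (n 5 5 e (n 5 5 e e))))) e) e)) (n 2 5 (n 1 5 (n 5 1 e (n 5 4 e (n 5 4 e (n 5 5 e (n 5 5
  e e))))) e) e)) (n 3 4 (n 4 5 e (n 1 4 (n 4 1 e e) e)) e)) e)) e))))))))))))))) z))) (t [0, 2] (f
  [0, 1] (b (t [0, 4] (b (f [0, 5] (t [0, 3] (t [0, 3] (t [0, 2] (t [0, 2] (f [0, 1, 2, 5] (l (n 1 3
  (n 3 4 (n 3 2 (n 1 2 e (n 2 4 e (n 4 2 e (n 5 2 e e)))) e) e) e)))))))) (b (t [0, 4] (t [0, 4] (t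
  [0, 1] (t [0, 1] (f [0, 6] (l (n 1 3 e (n 3 2 e (n 2 4 e (n 2 1 (n 5 2 e e) e)))))))))) (t [0, 4]
  (t [0, 4] (t [0, 3] (t [0, 3] (f [0, 2] (l (n 1 3 e (n 3 2 e (n 2 4 e (n 2 1 e (n 4 2 e (n 5 1 e
  (n 5 2 e e)))))))))))))))) z))))) z)) (t [0, 3] (t [0, 2] (t [0, 2] (b (t [0, 1, 3] (t [0, 1] (b
  (t [0, 5] (b (b (b (t [0, 1] (t [0, 0, 2, 2, 4] (t [0, 0, 4] (b (l (n 2 2 (n 3 3 (n 1 1 (n 4 4 e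
  e) e) e) e)) (l (n 2 4 (n 3 2 (n 2 2 (n 1 3 (n 4 4 (n 1 1 (n 3 3 e e) e) e) e) e) e) e)))))) (f
  [0, 1] (t [0, 1, 2, 2] (t [0, 1, 2] (b (l (n 2 4 (n 2 3 e (n 3 2 e (n 3 3 (n 4 4 (n 1 2 e (n 1 1 e
  e)) e) e))) e)) (l (n 2 4 (n 2 3 e (n 3 2 e (n 3 3 e (n 4 4 (n 1 2 e (n 1 3 e (n 1 1 e e))) e))))
  e))))))) (b (t [0, 1] (t [0, 1, 4] (t [0, 0, 4] (f [0, 1, 2, 3, 4] (l (n 2 3 (n 2 4 e (n 3 3 (n 1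
  2 e (n 5 2 e (n 1 4 (n 1 2 e e) e))) e)) e)))))) (f [0, 1] (b (t [0, 0, 1, 2] (b (l (n 2 3 e (n 4
  3 (n 1 3 e (n 3 1 (n 2 1 (n 4 2 e (n 5 2 e (n 3 5 (n 4 2 (n 1 4 (n 3 4 e e) e) (n 4 4 (n 1 2 (n 3
  2 e (n 3 3 e e)) (n 1 1 (n 3 3 e e) e)) e)) e))) e) e)) (n 3 2 e (n 2 4 e (n 5 2 e (n 1 2 (n 2 4
  (n 3 1 e (n 3 2 e e)) e) (n 3 2 (n 1 3 e (n 1 4 e e)) (n 3 3 (n 1 2 e (n 1 4 e (n 1 1 e e)))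
  e))))))))) (l (n 2 3 e (n 4 3 (n 1 3 e (n 4 2 e (n 3 1 (n 2 1 (n 5 2 e (n 3 5 (n 1 4 (n 3 4 (n 1 2
  (n 3 2 (n 4 2 e (n 4 4 e e)) (n 3 3 (n 4 4 e e) e)) (n 1 1 (n 3 3 (n 4 4 e e) e) e)) e) e) e)) e)
  e))) (n 3 2 e (n 2 4 e (n 5 2 e (n 1 2 (n 3 1 e (n 3 2 e (n 2 4 e e))) (n 3 2 e (n 3 1 (n 3 3 e (n
  1 2 e (n 1 4 e (n 1 1 e e)))) e))))))))))) (t [0, 0, 5] (b (l (n 2 3 e (n 3 4 (n 3 2 e (n 4 2 (n 1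
  3 (n 5 2 e (n 4 3 (n 1 2 (n 4 2 e e) e) e)) e) e)) (n 1 3 e (n 1 3 e (n 4 2 e (n 1 4 (n 5 2 e (n 5
  3 e (n 1 2 (n 1 3 (n 2 3 (n 3 4 e e) e) e) e))) e))))))) (l (n 2 4 e (n 4 3 (n 3 1 (n 1 4 (n 5 2 e
  (n 3 2 (n 3 1 (n 1 2 (n 4 2 (n 3 2 (n 3 2 e e) (n 1 3 e e)) (n 1 3 e (n 4 1 e e))) e) e) e)) e) e)
  (n 5 2 e (n 3 2 e (n 2 1 e (n 3 4 e (n 4 2 (n 1 3 (n 3 4 e e) e) e)))))))))))))) (b (b (t [0, 1]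
  (t [0, 2] (t [0, 3] (b (l (n 2 2 (n 3 3 (n 1 1 e (n 4 4 e e)) e) e)) (l (n 1 3 e (n 2 3 (n 3 3 (n
  2 4 (n 2 2 e (n 4 4 e e)) (n 2 1 (n 5 2 e e) e)) e) e))))))) (f [0, 1] (t [0, 2] (t [0, 3] (b (l
  (n 1 3 e (n 4 2 (n 4 3 (n 2 5 (n 2 3 e (n 3 1 (n 2 1 (n 3 2 (n 4 2 e (n 4 4 e e)) (n 3 3 (n 4 4 e
  e) e)) e) e)) e) (n 3 2 e (n 3 4 (n 2 5 (n 4 4 (n 2 1 e (n 2 2 e e)) e) e) e))) e))) (l (n 1 3 e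
  (n 2 3 e (n 3 4 (n 3 2 e (n 4 2 (n 5 2 e (n 2 1 (n 3 3 e e) e)) (n 3 3 e (n 4 4 e e)))) (n 1 3 e
  (n 2 1 (n 5 2 e (n 5 3 e (n 3 2 (n 4 2 e e) e))) e))))))))))) (b (t [0, 1] (t [0, 1, 4] (t [0, 3]
  (f [0, 3] (l (n 1 3 e (n 2 3 (n 2 4 e (n 3 3 (n 5 2 e (n 2 1 e (n 4 2 e e))) e)) e))))))) (f [0,
  1] (b (t [0, 4] (b (l (n 1 3 e (n 2 4 e (n 4 3 (n 5 2 e (n 3 2 (n 3 1 (n 2 1 e (n 4 2 e (n 3 1 (n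
  4 1 e (n 4 2 e (n 4 4 e e))) (n 3 2 (n 4 2 e (n 4 4 e e)) (n 3 3 (n 4 4 e e) e))))) (n 4 2 e (n 3
  4 (n 1 2 (n 3 2 (n 4 2 e e) e) e) e))) e)) (n 3 2 e (n 3 4 e (n 5 2 e (n 2 1 e (n 3 2 e (n 3 3 e
  e)))))))))) (l (n 2 3 e (n 1 3 e (n 3 4 (n 3 2 e (n 4 2 (n 5 2 e (n 2 1 e (n 3 2 e (n 3 3 e e))))
  e)) (n 3 1 (n 5 2 e (n 5 3 e (n 1 2 (n 4 2 e (n 3 1 (n 4 1 e (n 2 4 e e)) (n 3 2 (n 2 4 e e) e)))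
  e))) (n 4 2 e (n 4 3 e (n 5 1 e (n 5 2 e (n 5 3 e (n 1 2 (n 3 2 (n 2 4 e e) e) e))))))))))))) (t
  [0, 4] (b (l (n 1 3 e (n 2 4 e (n 3 4 e (n 5 2 e (n 2 3 e (n 2 3 (n 3 1 (n 2 1 (n 1 2 (n 4 2 e e)
  e) (n 4 2 e (n 1 4 (n 4 2 e (n 4 4 e e)) e))) (n 4 3 e (n 2 4 (n 4 2 e e) e))) e))))))) (l (n 1 3
  e (n 2 4 e (n 4 3 (n 5 2 e (n 3 2 (n 3 1 (n 2 1 e (n 4 2 (n 3 1 e (n 3 2 e (n 4 3 e e))) e)) (n 3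
  4 (n 4 2 (n 2 1 (n 4 1 e (n 3 4 e e)) (n 3 2 (n 3 2 e e) (n 4 3 e e))) e) e)) e)) (n 2 3 e
  e))))))))))))) z))) (t [0, 3] (f [0, 1] (b (t [0, 5] (b (b (t [0, 4] (t [0, 4] (t [0, 3] (t [0, 6]
  (b (l (n 2 2 (n 1 3 (n 4 4 (n 3 3 (n 1 1 e e) e) e) e) e)) (l (n 2 4 (n 3 2 e (n 1 3 (n 4 3 e e)
  (n 1 2 (n 4 4 (n 1 1 (n 2 2 e e) e) e) e))) e))))))) (t [0, 4] (t [0, 4] (t [0, 3] (t [0, 1, 3] (f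
  [0, 1, 2, 3] (l (n 2 4 e (n 3 4 e (n 1 3 e (n 3 2 e (n 5 2 e (n 1 4 (n 1 2 e e) e))))))))))))) (b
  (t [0, 4] (t [0, 4] (t [0, 1] (t [0, 2] (b (l (n 2 2 (n 1 3 e (n 3 3 e (n 4 4 e e))) e)) (l (n 1 3
  e (n 3 2 e (n 2 4 (n 2 2 e (n 4 4 e e)) (n 2 1 (n 5 2 e e) e)))))))))) (t [0, 4] (t [0, 4] (t [0,
  3] (t [0, 2] (f [0, 2] (l (n 1 3 e (n 3 2 e (n 2 4 e (n 5 2 e (n 2 1 e (n 4 2 e e)))))))))))))))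
  z))))))))) z) (b (t [0, 1] (f [0, 2] (f [0, 2] (t [0, 1] (t [0, 1] (b (t [0, 1, 1] (t [0, 1] (t
  [0, 1, 1] (f [0, 3] (b (b (t [0, 1] (t [0, 3] (t [0, 3] (b (l (n 2 2 (n 3 3 (n 1 1 (n 4 4 e e) e)
  e) e)) (l (n 2 3 (n 3 3 (n 4 2 e (n 1 2 (n 1 1 (n 2 2 e e) e) e)) e) e)))))) (f [0, 1] (t [0, 1]
  (t [0, 1] (b (l (n 4 2 e (n 2 3 e (n 3 2 e (n 3 3 (n 1 2 e (n 1 1 e e)) e))))) (l (n 4 2 e (n 2 3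
  e (n 3 2 e (n 1 2 (n 3 3 e e) (n 3 1 (n 1 1 (n 3 3 e e) e) e))))))))))) (t [0, 1] (b (t [0, 1] (t
  [0, 2] (t [0, 2] (b (l (n 2 2 (n 1 3 e (n 3 3 (n 4 4 e e) e)) e)) (l (n 1 3 e (n 2 3 (n 4 2 e (n 2
  2 e (n 3 3 e e))) e))))))) (f [0, 1] (t [0, 1] (t [0, 1] (b (l (n 4 2 e (n 2 3 e (n 1 3 e (n 3 2 e
  (n 3 3 e e)))))) (l (n 4 2 e (n 2 3 e (n 1 3 e (n 3 2 e (n 3 3 e e))))))))))))))))) (t [0, 2] (f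
  [0, 1] (t [0, 2] (f [0, 3] (b (t [0, 2] (t [0, 2] (t [0, 3] (t [0, 3] (b (l (n 2 2 (n 1 3 (n 3 3
  (n 1 1 e (n 4 4 e e)) e) e) e)) (l (n 3 2 e (n 1 3 e (n 4 2 e (n 1 2 (n 1 1 (n 2 2 e e) e)
  e)))))))))) (t [0, 1] (t [0, 2] (t [0, 2] (t [0, 1] (t [0, 1] (b (l (n 2 2 (n 1 3 e (n 3 3 e (n 4
  4 e e))) e)) (l (n 1 3 e (n 3 2 e (n 4 2 e (n 2 2 e e)))))))))))))))))))))) z)) z)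

set_option maxRecDepth 100000 in
theorem f02A : chkQ 5 2 10897286400000 t02A
    (blks.getD 2 ⟨0, 0, 0, 0, 0, .zr, .zr⟩).A = some [0] := by
  decide +kernel

end Pool.Agent.TH32
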