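import Pool.Agent.TH32.H.Fast

set_option autoImplicit false

namespace Pool.Agent.TH32

open CT PT

set_option maxRecDepth 100000 in
/-- certificate for block 2 (c0R3), tree B -/
def t02B : PT :=
  (b (b (b (t [0, 1] (b (t [0, 1] (b (t [0, 1] (b (t [0, 1, 2] (t [0, 1] (b (t [0, 4] (b (f [0, 5]
  (b (t [0, 1] (t [0, 1, 3] (t [0, 1, 3] (t [0, 1, 2, 3, 6] (l (n 2 3 (n 3 3 (n 4 2 (n 2 1 (n 1 4 (n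
  2 1 (n 2 5 e e) e) e) e) e) e) e)))))) (f [0, 1] (b (t [0, 1] (b (l (n 2 3 e (n 4 3 (n 1 3 e (n 3
  1 (n 4 3 e (n 1 4 (n 2 1 (n 5 2 (n 1 2 (n 3 2 (n 4 2 e (n 4 5 e e)) (n 3 5 (n 4 5 e e) e)) (n 1 5
  (n 3 5 (n 4 5 e e) e) e)) (n 3 5 e (n 1 2 (n 3 2 (n 4 2 (n 5 2 e e) e) e) e))) e) e)) e)) (n 3 2 e
  (n 4 2 (n 3 2 e (n 2 1 (n 2 5 e (n 1 2 e (n 1 3 e (n 1 4 e (n 1 5 e e))))) (n 2 4 (n 1 5 (n 5 2 e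
  e) e) e))) e))))) z)) z)))) (b (b (t [0, 1] (t [0, 2] (t [0, 2] (t [0, 7] (l (n 1 3 e (n 2 3 (n 2
  4 e (n 2 1 (n 3 3 (n 5 2 e e) e) e)) e))))))) (f [0, 1] (t [0, 2] (t [0, 2] (b (l (n 1 3 e (n 2 4
  e (n 2 1 (n 3 2 (n 3 2 e (n 3 4 e (n 3 5 (n 4 5 (n 5 2 e (n 5 2 e (n 5 5 e e))) e) e))) (n 4 3 e
  (n 3 4 (n 2 4 e (n 5 2 e (n 5 4 e e))) (n 5 2 e e)))) e)))) z))))) (b (t [0, 1] (t [0, 1, 4] (t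
  [0, 1, 4] (t [0, 3] (l (n 1 3 e (n 2 3 (n 2 4 e (n 2 1 e (n 4 2 e (n 3 3 (n 5 1 e (n 5 2 e e))
  e)))) e))))))) (f [0, 1] (b (t [0, 1] (b (l (n 2 3 e (n 3 4 (n 1 3 e (n 3 2 e (n 2 4 e (n 1 2 (n 3
  2 e (n 3 3 e (n 5 1 e (n 5 2 e e)))) e)))) (n 1 3 e (n 1 3 e (n 1 2 e (n 4 1 e (n 3 2 (n 1 2 e (n
  2 4 (n 3 4 (n 4 3 (n 2 5 (n 3 5 (n 3 5 (n 5 4 e (n 5 4 e e)) e) e) e) e) (n 2 5 (n 3 5 (n 5 3 e (n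
  5 4 e (n 5 4 e (n 5 5 e e)))) e) e)) (n 2 5 (n 5 4 e (n 5 3 e (n 5 3 e e))) e))) (n 3 4 (n 4 2 (n
  3 5 (n 2 5 (n 5 2 e (n 5 4 e (n 5 4 e e))) e) e) (n 4 2 (n 3 5 (n 2 5 (n 5 2 e (n 5 4 e (n 5 4 e
  e))) e) e) e)) (n 3 5 (n 5 4 e (n 5 2 e (n 5 2 e (n 5 5 e e)))) e)))))))))) z)) z)))))) z))) (t
  [0, 2] (f [0, 1] (b (t [0, 4] (b (f [0, 5] (t [0, 3] (t [0, 3] (t [0, 2] (t [0, 2] (t [0, 1, 2, 5]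
  (l (n 1 3 (n 3 4 (n 3 2 (n 1 2 e (n 2 4 e (n 4 2 e (n 5 2 e e)))) e) e) e)))))))) (b (t [0, 4] (t
  [0, 4] (t [0, 1] (t [0, 1] (t [0, 6] (l (n 1 3 e (n 3 2 e (n 2 4 e (n 2 1 (n 5 2 e e) e))))))))))
  (t [0, 4] (t [0, 4] (t [0, 3] (t [0, 3] (t [0, 2] (l (n 1 3 e (n 3 2 e (n 2 4 e (n 2 1 e (n 4 2 e
  (n 5 1 e (n 5 2 e e)))))))))))))))) z))))) z)) (t [0, 3] (t [0, 2] (t [0, 2] (b (t [0, 1, 3] (t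
  [0, 1] (b (t [0, 5] (b (b (b (t [0, 1] (t [0, 0, 2, 2, 4] (t [0, 0, 4] (b (l (n 2 4 (n 3 2 (n 2 2
  (n 1 3 (n 4 4 (n 1 1 (n 3 3 e e) e) e) e) e) e) e)) z)))) (f [0, 1] (t [0, 1, 2, 2] (t [0, 1, 2]
  (b (l (n 2 4 (n 2 3 e (n 3 2 e (n 3 3 e (n 4 4 (n 1 2 e (n 1 3 e (n 1 1 e e))) e)))) e)) z))))) (b
  (t [0, 1] (t [0, 1, 4] (t [0, 0, 4] (t [0, 1, 2, 3, 4] (l (n 2 3 (n 2 4 e (n 3 3 (n 1 2 e (n 5 2 e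
  (n 1 4 (n 1 2 e e) e))) e)) e)))))) (f [0, 1] (b (t [0, 0, 1, 2] (b (l (n 2 3 e (n 4 3 (n 1 3 e (n
  4 2 e (n 3 1 (n 2 1 (n 5 2 e (n 3 5 (n 1 4 (n 3 4 (n 1 2 (n 3 2 (n 4 2 e (n 4 4 e e)) (n 3 3 (n 4
  4 e e) e)) (n 1 1 (n 3 3 (n 4 4 e e) e) e)) e) e) e)) e) e))) (n 3 2 e (n 2 4 e (n 5 2 e (n 1 2 (n
  3 1 e (n 3 2 e (n 2 4 e e))) (n 3 2 e (n 3 1 (n 3 3 e (n 1 2 e (n 1 4 e (n 1 1 e e)))) e)))))))))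
  z)) z)))) (b (b (t [0, 1] (t [0, 2] (t [0, 3] (b (l (n 1 3 e (n 2 3 (n 3 3 (n 2 4 (n 2 2 e (n 4 4
  e e)) (n 2 1 (n 5 2 e e) e)) e) e))) z)))) (f [0, 1] (t [0, 2] (t [0, 3] (b (l (n 1 3 e (n 2 3 e
  (n 3 4 (n 3 2 e (n 4 2 (n 5 2 e (n 2 1 (n 3 3 e e) e)) (n 3 3 e (n 4 4 e e)))) (n 1 3 e (n 2 1 (n
  5 2 e (n 5 3 e (n 3 2 (n 4 2 e e) e))) e)))))) z))))) (b (t [0, 1] (t [0, 1, 4] (t [0, 3] (t [0,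
  3] (l (n 1 3 e (n 2 3 (n 2 4 e (n 3 3 (n 5 2 e (n 2 1 e (n 4 2 e e))) e)) e))))))) (f [0, 1] (b (t
  [0, 4] (b (l (n 2 3 e (n 1 3 e (n 3 4 (n 3 2 e (n 4 2 (n 5 2 e (n 2 1 e (n 3 2 e (n 3 3 e e))))
  e)) (n 3 1 (n 5 2 e (n 5 3 e (n 1 2 (n 4 2 e (n 3 1 (n 4 1 e (n 2 4 e e)) (n 3 2 (n 2 4 e e) e)))
  e))) (n 4 2 e (n 4 3 e (n 5 1 e (n 5 2 e (n 5 3 e (n 1 2 (n 3 2 (n 2 4 e e) e) e))))))))))) z))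
  z)))))) z))) (t [0, 3] (f [0, 1] (b (t [0, 5] (b (b (t [0, 4] (t [0, 4] (t [0, 3] (t [0, 6] (b (l
  (n 2 4 (n 3 2 e (n 1 3 (n 4 3 e e) (n 1 2 (n 4 4 (n 1 1 (n 2 2 e e) e) e) e))) e)) z))))) (t [0,
  4] (t [0, 4] (t [0, 3] (t [0, 1, 3] (t [0, 1, 2, 3] (l (n 2 4 e (n 3 4 e (n 1 3 e (n 3 2 e (n 5 2
  e (n 1 4 (n 1 2 e e) e))))))))))))) (b (t [0, 4] (t [0, 4] (t [0, 1] (t [0, 2] (b (l (n 1 3 e (n 3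
  2 e (n 2 4 (n 2 2 e (n 4 4 e e)) (n 2 1 (n 5 2 e e) e))))) z))))) (t [0, 4] (t [0, 4] (t [0, 3] (t
  [0, 2] (t [0, 2] (l (n 1 3 e (n 3 2 e (n 2 4 e (n 5 2 e (n 2 1 e (n 4 2 e e)))))))))))))))
  z))))))))) z) (b (t [0, 1] (f [0, 2] (f [0, 2] (t [0, 1] (t [0, 1] (b (t [0, 1, 1] (t [0, 1] (t
  [0, 1, 1] (f [0, 3] (b (b (t [0, 1] (t [0, 3] (t [0, 3] (b (l (n 2 3 (n 3 3 (n 4 2 e (n 1 2 (n 1 1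
  (n 2 2 e e) e) e)) e) e)) z)))) (f [0, 1] (t [0, 1] (t [0, 1] (b (l (n 4 2 e (n 2 3 e (n 3 2 e (n
  1 2 (n 3 3 e e) (n 3 1 (n 1 1 (n 3 3 e e) e) e)))))) z))))) (t [0, 1] (b (t [0, 1] (t [0, 2] (t
  [0, 2] (b (l (n 1 3 e (n 2 3 (n 4 2 e (n 2 2 e (n 3 3 e e))) e))) z)))) (f [0, 1] (t [0, 1] (t [0,
  1] (b (l (n 4 2 e (n 2 3 e (n 1 3 e (n 3 2 e (n 3 3 e e)))))) z))))))))))) (t [0, 2] (f [0, 1] (t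
  [0, 2] (f [0, 3] (b (t [0, 2] (t [0, 2] (t [0, 3] (t [0, 3] (b (l (n 3 2 e (n 1 3 e (n 4 2 e (n 1
  2 (n 1 1 (n 2 2 e e) e) e))))) z))))) (t [0, 1] (t [0, 2] (t [0, 2] (t [0, 1] (t [0, 1] (b (l (n 1
  3 e (n 3 2 e (n 4 2 e (n 2 2 e e))))) z))))))))))))))))) z)) z)

set_option maxRecDepth 100000 in
theorem f02B : chkQ 5 3 10897286400000 t02B
    (blks.getD 2 ⟨0, 0, 0, 0, 0, .zr, .zr⟩).B = some [] := by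
  decide +kernel

end Pool.Agent.TH32
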