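import Pool.Agent.TH32.H.Fast

set_option autoImplicit false

namespace Pool.Agent.TH32

open CT PT

set_option maxRecDepth 100000 in
/-- certificate for block 3 (c0R4), tree A -/
def t03A : PT :=
  (b (b (b (t [0, 1] (t [0, 2] (t [0, 2] (b (t [0, 1] (b (t [0, 1, 2] (t [0, 1] (t [0, 1, 2] (b (b
  (b (b (t [0, 1] (t [0, 6] (t [0, 6] (f [0, 4] (l (n 2 3 (n 4 2 (n 3 3 (n 2 1 (n 1 4 (n 2 1 (n 2 5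
  e (n 2 2 e e)) e) e) e) e) e) e)))))) (f [0, 1] (t [0, 6] (t [0, 6] (b (l (n 2 3 e (n 4 3 (n 1 3 e
  (n 4 1 e (n 2 1 (n 3 3 (n 2 5 (n 5 5 (n 1 1 (n 4 4 e e) e) e) e) e) e))) (n 3 2 e (n 2 4 e (n 2 5
  (n 3 3 (n 5 5 (n 1 2 (n 2 4 e e) (n 1 4 e (n 1 1 e e))) e) e) e)))))) (l (n 2 4 e (n 3 4 (n 2 5 (n
  3 2 e (n 3 4 e (n 1 2 (n 4 2 e (n 5 5 e e)) (n 5 5 (n 1 3 e (n 1 4 e e)) e)))) e) (n 1 3 e (n 2 5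
  (n 1 4 (n 1 2 e (n 2 3 e (n 5 5 e e))) e) e)))))))))) (b (t [0, 1] (t [0, 6] (t [0, 6] (l (n 2 3
  (n 2 4 e (n 3 3 (n 1 2 e (n 1 4 (n 1 2 e (n 2 5 e e)) e)) e)) e))))) (f [0, 1] (t [0, 6] (t [0, 6]
  (b (l (n 2 3 e (n 3 4 (n 3 2 e (n 2 4 e (n 5 2 (n 1 5 (n 4 2 e (n 4 5 e (n 3 2 e (n 3 3 e e)))) (n
  1 2 (n 4 2 e (n 3 1 e (n 3 2 e e))) (n 3 1 (n 1 4 (n 3 2 e (n 3 3 e e)) e) (n 1 2 (n 3 2 e e)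
  e)))) e))) (n 1 3 e (n 1 4 (n 1 2 e (n 5 2 (n 1 2 (n 1 3 e (n 4 2 e e)) e) e)) e))))) (l (n 2 3 e
  (n 3 4 (n 3 2 e (n 4 2 (n 1 2 (n 4 2 e (n 1 5 (n 2 5 e (n 3 2 e (n 3 3 e e))) (n 3 1 e (n 3 2 e
  e)))) (n 2 5 e (n 3 1 (n 1 4 (n 3 2 e (n 3 3 e e)) e) (n 1 2 (n 3 2 e e) e)))) e)) (n 1 3 e (n 1 4
  (n 1 2 e (n 1 3 e (n 5 2 (n 1 2 (n 3 2 (n 2 4 e e) e) e) (n 3 5 e e)))) e))))))))))) (b (b (t [0,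
  1] (t [0, 6] (t [0, 6] (f [0, 4] (l (n 1 3 e (n 2 3 (n 2 4 e (n 3 3 (n 5 2 (n 2 1 (n 1 5 (n 5 4 e
  e) e) (n 2 2 (n 4 5 e e) e)) e) e)) e))))))) (f [0, 1] (t [0, 6] (t [0, 6] (b (l (n 1 3 e (n 2 3 e
  (n 3 2 e (n 3 3 (n 4 2 (n 1 2 e (n 2 1 (n 4 5 (n 5 2 e (n 5 2 e e)) (n 4 1 e e)) e)) (n 4 2 (n 2 5
  (n 5 5 e e) (n 2 1 e e)) e)) e))))) (l (n 1 3 e (n 2 3 e (n 3 4 (n 3 2 e (n 4 2 (n 3 3 e (n 5 2 (n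
  2 1 e (n 2 2 e e)) e)) e)) (n 4 2 (n 1 2 e (n 3 1 (n 3 2 e (n 4 5 (n 5 3 e (n 5 2 e (n 5 2 e e)))
  (n 4 1 e e))) e)) (n 5 2 (n 3 1 (n 2 1 e e) e) (n 3 1 (n 5 3 e e) (n 4 3 e (n 3 5 (n 5 1 e (n 5 5
  e e)) e)))))))))))))) (b (t [0, 1] (t [0, 6] (t [0, 6] (f [0, 3] (l (n 1 3 e (n 2 3 (n 2 4 e (n 2
  1 e (n 4 2 e (n 2 5 e (n 3 3 e e))))) e))))))) (f [0, 1] (t [0, 6] (t [0, 6] (b (l (n 1 3 e (n 2 3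
  e (n 3 2 e (n 4 2 (n 4 5 (n 2 1 (n 1 2 e e) e) (n 1 2 e (n 2 1 (n 1 4 (n 3 1 (n 3 3 (n 4 4 e e) e)
  e) e) e))) (n 2 4 e (n 5 2 (n 1 2 (n 3 1 (n 2 2 (n 3 3 e e) e) (n 4 3 (n 3 4 e e) e)) e) e)))))))
  (l (n 1 3 e (n 2 3 e (n 3 4 (n 3 2 e (n 4 2 (n 2 5 e (n 2 1 e (n 3 2 e (n 3 3 e e)))) e)) (n 5 2
  (n 2 1 (n 3 1 e (n 4 5 e (n 4 2 (n 2 1 (n 4 3 e e) e) (n 2 3 (n 3 4 e e) e)))) (n 4 5 e (n 4 2 e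
  (n 4 1 e (n 3 4 (n 3 2 (n 2 4 e e) e) (n 2 4 (n 3 1 e e) e)))))) (n 3 1 e (n 4 2 e (n 4 3 e (n 3 5
  e e)))))))))))))))) (b (b (t [0, 1] (t [0, 5] (t [0, 5] (b (l (n 2 2 (n 3 3 (n 1 1 (n 4 4 e e) e)
  e) e)) (l (n 2 3 (n 4 2 (n 3 3 (n 2 1 (n 1 4 (n 2 1 (n 2 5 (n 1 1 (n 2 2 (n 4 4 e e) e) e) e) e)
  e) e) e) e) e)))))) (f [0, 1] (t [0, 5] (t [0, 5] (b (l (n 3 2 (n 3 2 (n 3 4 (n 2 2 (n 3 4 (n 4 4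
  (n 1 3 (n 1 1 (n 3 3 e e) e) e) e) (n 5 3 e (n 1 3 (n 4 3 e e) (n 1 4 e e)))) e) (n 1 3 e (n 1 4 e
  e))) e) e)) (l (n 2 3 e (n 4 3 (n 1 3 e (n 4 1 e (n 2 1 (n 3 1 (n 5 2 e (n 3 5 (n 1 1 (n 3 3 (n 4
  4 e e) e) e) e)) e) e))) (n 3 2 e (n 4 2 (n 2 5 (n 2 1 (n 1 4 (n 3 3 e e) (n 3 1 (n 1 1 (n 3 3 e
  e) e) e)) (n 2 4 (n 3 3 e e) e)) e) e)))))))))) (t [0, 1] (b (t [0, 1] (t [0, 5] (t [0, 5] (b (l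
  (n 2 2 (n 1 3 e (n 3 3 (n 4 4 e e) e)) e)) (l (n 1 3 e (n 2 3 (n 3 3 (n 4 2 (n 2 5 (n 4 2 (n 2 2
  (n 4 4 e e) (n 2 1 e e)) e) e) e) e) e))))))) (f [0, 1] (t [0, 5] (t [0, 5] (b (l (n 1 3 e (n 2 3
  e (n 3 2 e (n 3 3 (n 4 2 (n 5 4 e (n 1 2 e (n 2 1 (n 5 2 e (n 2 5 e e)) e))) (n 4 2 (n 5 2 e e) (n
  4 4 e e))) e))))) (l (n 1 3 e (n 3 2 (n 3 4 (n 3 2 e (n 4 2 (n 2 5 (n 2 2 (n 4 4 e e) e) e) e)) (n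
  2 4 (n 5 2 e (n 3 5 (n 2 2 e (n 1 3 (n 3 4 e e) e)) e)) (n 1 2 e (n 3 1 (n 5 2 e (n 5 3 e (n 3 2 e
  (n 4 5 e e)))) e)))) e)))))))))))))) (t [0, 2] (f [0, 1] (t [0, 2] (b (b (b (t [0, 4] (t [0, 4] (t
  [0, 5] (t [0, 5] (f [0, 3] (l (n 4 2 (n 4 3 (n 3 1 (n 3 2 e (n 1 4 (n 2 1 (n 2 5 e (n 2 2 e e)) e)
  e)) e) e) e))))))) (t [0, 4] (t [0, 4] (t [0, 5] (t [0, 5] (l (n 3 2 e (n 2 4 e (n 1 3 e (n 1 2 e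
  (n 1 4 (n 1 2 e (n 2 5 e e)) e))))))))))) (b (t [0, 4] (t [0, 4] (t [0, 5] (t [0, 5] (f [0, 3] (l
  (n 1 3 e (n 3 2 e (n 2 4 e (n 5 2 (n 2 1 (n 1 5 (n 5 4 e e) e) (n 2 2 (n 4 5 e e) e)) e))))))))))
  (t [0, 4] (t [0, 4] (t [0, 5] (t [0, 5] (f [0, 2] (l (n 1 3 e (n 3 2 e (n 2 4 e (n 2 1 e (n 4 2 e
  (n 2 5 e e)))))))))))))) (b (t [0, 3] (t [0, 3] (t [0, 4] (t [0, 4] (b (l (n 2 2 (n 1 3 (n 4 4 (n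
  3 3 (n 1 1 e e) e) e) e) e)) (l (n 3 2 e (n 1 3 (n 4 2 e e) (n 2 4 (n 1 2 (n 4 4 (n 1 1 (n 2 2 e
  e) e) e) e) (n 1 2 e (n 5 2 e (n 1 4 (n 1 2 e e) e)))))))))))) (t [0, 1] (t [0, 3] (t [0, 3] (t
  [0, 4] (t [0, 4] (b (l (n 2 2 (n 1 3 e (n 3 3 e (n 4 4 e e))) e)) (l (n 1 3 e (n 3 2 e (n 2 4 (n 2
  2 e (n 4 4 e e)) (n 5 2 e (n 1 2 (n 2 4 e e) e))))))))))))))))))) z)))) z) (b (t [0, 1] (f [0, 2]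
  (f [0, 2] (t [0, 1] (t [0, 1] (b (t [0, 1, 1] (t [0, 1] (t [0, 1, 1] (f [0, 3] (b (b (t [0, 1] (t
  [0, 3] (t [0, 3] (b (l (n 2 2 (n 3 3 (n 1 1 (n 4 4 e e) e) e) e)) (l (n 2 3 (n 3 3 (n 4 2 e (n 1 2
  (n 1 1 (n 2 2 e e) e) e)) e) e)))))) (f [0, 1] (t [0, 1] (t [0, 1] (b (l (n 4 2 e (n 2 3 e (n 3 2
  e (n 3 3 (n 1 2 e (n 1 1 e e)) e))))) (l (n 4 2 e (n 2 3 e (n 3 2 e (n 1 2 (n 3 3 e e) (n 3 1 (n 1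
  1 (n 3 3 e e) e) e))))))))))) (t [0, 1] (b (t [0, 1] (t [0, 2] (t [0, 2] (b (l (n 2 2 (n 1 3 e (n
  3 3 (n 4 4 e e) e)) e)) (l (n 1 3 e (n 2 3 (n 4 2 e (n 2 2 e (n 3 3 e e))) e))))))) (f [0, 1] (t
  [0, 1] (t [0, 1] (b (l (n 4 2 e (n 2 3 e (n 1 3 e (n 3 2 e (n 3 3 e e)))))) (l (n 4 2 e (n 2 3 e
  (n 1 3 e (n 3 2 e (n 3 3 e e))))))))))))))))) (t [0, 2] (f [0, 1] (t [0, 2] (f [0, 3] (b (t [0, 2]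
  (t [0, 2] (t [0, 3] (t [0, 3] (b (l (n 2 2 (n 1 3 (n 3 3 (n 1 1 e (n 4 4 e e)) e) e) e)) (l (n 3 2
  e (n 1 3 e (n 4 2 e (n 1 2 (n 1 1 (n 2 2 e e) e) e)))))))))) (t [0, 1] (t [0, 2] (t [0, 2] (t [0,
  1] (t [0, 1] (b (l (n 2 2 (n 1 3 e (n 3 3 e (n 4 4 e e))) e)) (l (n 1 3 e (n 3 2 e (n 4 2 e (n 2 2
  e e)))))))))))))))))))))) z)) z)

set_option maxRecDepth 100000 in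
theorem f03A : chkQ 5 2 10897286400000 t03A
    (blks.getD 3 ⟨0, 0, 0, 0, 0, .zr, .zr⟩).A = some [0] := by
  decide +kernel

end Pool.Agent.TH32
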