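import Pool.Agent.TH32.H.Fast

set_option autoImplicit false

namespace Pool.Agent.TH32

open CT PT

set_option maxRecDepth 100000 in
/-- certificate for block 4 (Ld0R1), tree A -/
def t04A : PT :=
  (b (b (b (b (b (t [0, 1] (b (t [0, 3] (b (t [0, 1] (b (t [0, 1, 2] (t [0, 1] (t [0, 1, 2, 8] (t
  [0, 3] (b (b (f [0, 3] (b (t [0, 5, 11] (t [0, 5] (b (l (n 3 3 (n 2 6 (n 2 4 e (n 2 2 (n 6 6 (n 5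
  5 e (n 5 4 (n 4 1 (n 1 5 e (n 1 1 e e)) e) e)) e) e)) e) e)) (l (n 2 6 (n 6 6 (n 2 4 e (n 5 2 e (n
  2 3 (n 5 4 (n 3 3 (n 4 1 (n 1 5 (n 2 2 e e) (n 2 1 (n 1 1 (n 2 2 e e) e) e)) e) e) e) e))) e)
  e))))) (t [0, 5, 11] (t [0, 5] (b (l (n 2 6 (n 2 4 e (n 6 6 (n 5 2 e (n 2 3 e (n 5 4 (n 3 2 e (n 3
  3 (n 1 4 (n 4 2 e (n 4 4 e e)) (n 1 2 e (n 1 5 e e))) e)) e))) e)) e)) (l (n 2 6 (n 6 6 (n 2 4 e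
  (n 5 2 e (n 2 3 e (n 5 4 (n 3 2 e (n 3 3 e (n 4 1 (n 1 2 e (n 1 3 e (n 1 5 e (n 1 1 e e)))) (n 4 2
  e e)))) e)))) e) e))))))) (f [0, 3] (b (t [0, 5, 11] (t [0, 5] (b (l (n 2 6 e (n 3 2 (n 6 4 (n 5 6
  (n 1 4 e (n 2 4 (n 1 6 e (n 3 1 (n 5 1 e (n 2 1 (n 3 1 (n 4 4 e e) e) e)) e)) e)) e) e) (n 3 3 (n
  6 4 e (n 6 6 (n 5 4 (n 1 4 e (n 1 2 e (n 1 5 (n 1 2 e e) e))) (n 5 5 (n 1 2 e (n 1 2 e (n 1 4 (n 2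
  4 e e) e))) e)) e)) e)))) (l (n 2 6 e (n 4 6 (n 6 5 (n 5 4 (n 6 3 (n 1 3 e (n 2 3 (n 1 4 e (n 3 3
  (n 6 6 e (n 1 5 (n 2 1 (n 6 6 e e) e) (n 6 1 e (n 2 1 e (n 2 5 e e))))) e)) e)) e) e) e) (n 2 3 e
  e))))))) (t [0, 5, 11] (t [0, 5] (b (l (n 2 3 e (n 2 6 (n 2 4 e (n 1 4 (n 5 4 e (n 3 5 (n 6 3 (n 3
  2 (n 6 2 e (n 5 2 (n 5 3 e (n 2 4 (n 6 3 e (n 6 6 e e)) e)) (n 1 5 e (n 2 3 (n 3 5 (n 6 2 e (n 6 3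
  e e)) e) (n 6 3 e (n 6 6 e e)))))) (n 1 5 e (n 3 1 (n 5 2 e (n 5 3 e (n 6 2 e (n 6 6 e (n 6 6 e
  e))))) e))) e) e)) (n 5 3 (n 5 6 e (n 1 3 e (n 1 5 e (n 2 5 (n 5 4 (n 6 1 e (n 1 2 (n 3 1 (n 6 2 e
  (n 6 6 e e)) e) (n 1 1 (n 6 6 (n 3 2 e (n 3 3 e e)) e) e))) e) e)))) (n 6 3 (n 3 2 (n 2 5 (n 5 4
  (n 6 2 e (n 1 3 (n 2 3 (n 3 5 (n 1 6 (n 6 2 e (n 6 3 e e)) e) e) (n 6 1 e (n 6 3 e e))) (n 6 1 (n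
  1 2 (n 6 3 e (n 6 6 e e)) e) (n 1 3 (n 6 3 e e) e)))) e) e) (n 4 5 e (n 3 4 (n 1 3 (n 2 5 (n 5 3 e
  (n 6 2 e (n 6 6 e (n 6 6 e e)))) e) (n 1 2 (n 2 5 (n 6 1 e (n 6 2 e (n 6 6 e e))) e) (n 6 1 e (n 1
  2 (n 6 2 e (n 6 6 e e)) (n 1 1 (n 6 6 e e) e))))) e))) e)))) (n 6 4 (n 5 6 (n 4 2 (n 1 6 e (n 1 3
  e (n 4 1 (n 5 1 e (n 1 2 e (n 3 1 (n 3 2 e (n 4 1 e e)) e))) e))) e) e) (n 1 3 (n 5 6 e (n 5 4 (n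
  3 6 (n 1 6 e e) e) e)) (n 5 6 e (n 5 4 (n 6 3 (n 1 4 e (n 5 1 e (n 2 1 (n 3 1 (n 3 2 e (n 3 3 e
  e)) e) e))) e) e))))))) (l (n 1 3 (n 5 6 (n 6 4 (n 2 6 e (n 3 2 (n 5 3 e (n 1 2 (n 2 4 e (n 5 4 e
  (n 2 5 (n 1 5 e (n 5 6 (n 1 2 (n 6 2 (n 3 2 (n 5 2 e (n 5 6 e (n 1 5 e e))) (n 3 6 (n 5 6 e (n 1 5
  e e)) (n 3 1 (n 1 5 e e) e))) e) e) (n 5 2 (n 1 2 (n 3 2 (n 6 2 e (n 1 6 e e)) (n 3 1 (n 1 6 e e)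
  e)) (n 3 2 (n 6 2 e (n 5 1 (n 1 5 e e) e)) (n 5 1 (n 1 5 e e) e))) (n 1 5 e (n 1 2 e (n 1 2 e
  e)))))) (n 3 5 e (n 3 2 e (n 6 5 (n 1 5 (n 2 5 (n 3 2 e (n 3 3 e e)) e) e) e)))))) e)) e)) e) e)
  (n 1 4 (n 4 5 (n 5 6 (n 4 6 (n 2 4 e (n 4 6 (n 6 1 (n 6 2 (n 5 2 (n 5 1 (n 3 2 (n 4 3 (n 2 1 e (n
  4 2 e (n 4 1 e (n 5 1 e (n 5 2 e (n 3 5 (n 4 2 e (n 4 4 e e)) e)))))) (n 2 4 e (n 1 4 (n 3 4 e (n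
  3 2 e (n 3 2 e (n 5 2 e e)))) (n 2 1 e (n 3 2 e (n 3 1 e (n 5 1 e (n 5 2 e (n 3 2 e (n 3 3 e
  e)))))))))) e) (n 4 2 (n 3 2 e (n 4 3 (n 5 3 e (n 2 5 (n 3 5 (n 4 5 e (n 4 2 e e)) (n 3 2 (n 4 2 e
  e) e)) (n 1 2 (n 2 3 (n 2 5 (n 3 5 (n 4 5 e (n 4 4 e e)) (n 3 3 (n 4 4 e e) e)) (n 2 2 (n 3 3 (n 4
  4 e e) e) e)) e) (n 3 5 (n 4 5 e (n 4 4 e e)) (n 3 3 (n 4 4 e e) e))))) (n 3 4 e (n 3 5 e (n 1 2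
  (n 2 5 e e) e))))) e)) e) e) e) (n 5 2 (n 5 1 (n 3 2 (n 6 3 (n 2 1 e (n 6 2 e (n 6 1 e (n 5 1 e (n
  5 2 e (n 3 5 (n 6 2 e (n 6 6 e e)) e)))))) (n 2 6 e (n 1 6 (n 3 6 e (n 3 2 e (n 3 2 e (n 5 2 e
  e)))) (n 2 1 e (n 3 2 e (n 3 1 e (n 5 1 e (n 5 2 e (n 3 2 e (n 3 3 e e)))))))))) e) (n 6 2 (n 3 2
  e (n 6 3 (n 5 3 e (n 2 5 (n 3 5 (n 6 5 e (n 6 2 e e)) (n 3 2 (n 6 2 e e) e)) (n 1 2 (n 2 3 (n 2 5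
  (n 3 5 (n 6 5 e (n 6 6 e e)) (n 3 3 (n 6 6 e e) e)) (n 2 2 (n 3 3 (n 6 6 e e) e) e)) e) (n 3 5 (n
  6 5 e (n 6 6 e e)) (n 3 3 (n 6 6 e e) e))))) (n 3 5 e (n 3 6 e (n 1 2 (n 2 5 e e) e))))) e)) e)))
  e) e) e) e))))))))) (b (f [0, 3] (b (t [0, 2, 11] (t [0, 2] (b (l (n 3 3 (n 1 4 e (n 2 4 e (n 6 4
  (n 2 2 (n 1 4 e (n 5 6 e e)) e) (n 2 2 (n 6 6 (n 5 5 e (n 5 4 (n 1 1 e e) e)) e) e)))) e)) (l (n 1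
  3 e (n 1 4 e (n 2 4 e (n 2 3 (n 6 4 (n 5 6 (n 2 1 (n 4 1 (n 3 3 (n 2 2 e e) e) e) e) e) (n 5 6 e
  (n 5 4 (n 3 3 (n 6 2 (n 2 2 (n 6 6 e e) (n 2 1 e e)) e) e) e))) e)))))))) (t [0, 2, 11] (t [0, 2]
  (b (l (n 1 3 e (n 1 4 e (n 5 6 (n 6 4 (n 2 6 e (n 5 2 (n 2 1 (n 2 4 (n 4 5 (n 5 3 e (n 3 5 e (n 3
  3 e e))) e) (n 2 3 (n 3 5 (n 2 5 (n 3 5 e (n 3 3 e e)) (n 2 2 (n 3 3 e e) e)) e) (n 3 2 e (n 3 5 e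
  (n 3 3 e e))))) e) (n 4 2 (n 2 3 e (n 5 5 (n 3 2 e (n 3 3 e e)) e)) e))) e) e)))) (l (n 1 3 e (n 1
  4 e (n 5 6 (n 6 4 (n 2 6 e (n 5 2 (n 2 1 (n 2 4 (n 4 5 (n 5 3 e (n 3 5 e (n 3 3 e e))) e) (n 3 2
  (n 3 2 e (n 3 5 e e)) (n 5 3 e (n 2 5 (n 3 5 e e) e)))) e) (n 4 2 (n 2 3 e (n 3 2 e (n 5 5 (n 3 3
  e e) e))) e))) e) e))))))))) (f [0, 3] (b (t [0, 5, 11] (t [0, 5] (b (l (n 1 4 e (n 1 3 e (n 2 3 e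
  (n 2 4 (n 6 2 (n 5 6 (n 1 2 (n 2 5 (n 3 5 (n 4 4 (n 2 2 (n 3 3 e e) e) e) e) e) e) e) e) e))))) (l
  (n 1 4 e (n 1 3 e (n 2 3 e (n 2 4 (n 6 2 (n 5 6 (n 1 2 e (n 3 1 e (n 3 5 (n 3 3 e (n 4 4 e e))
  e))) e) (n 3 6 e (n 3 1 e (n 4 4 (n 5 6 e (n 5 2 (n 5 3 (n 3 6 e e) e) e)) e)))) e)))))))) (t [0,
  5, 11] (t [0, 5] (b (l (n 1 3 e (n 1 4 e (n 2 6 e (n 6 4 (n 5 6 (n 2 3 e (n 1 2 (n 5 2 e (n 3 5 (n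
  4 1 (n 3 1 e (n 2 3 e e)) (n 2 4 e (n 3 2 e e))) e)) (n 4 2 (n 3 1 e (n 5 3 e (n 1 2 (n 2 3 e e)
  (n 1 1 e e)))) e))) e) (n 5 6 e (n 5 4 (n 3 2 (n 2 1 (n 3 1 e (n 6 3 (n 3 5 (n 1 2 (n 2 3 e e) (n
  1 6 e e)) e) (n 1 2 e (n 6 1 (n 1 3 e (n 1 1 e e)) e)))) (n 3 6 e (n 5 2 e (n 3 5 (n 3 1 e (n 2 3
  e e)) e)))) (n 6 3 e (n 3 6 (n 6 2 (n 2 1 (n 6 1 e (n 2 6 e (n 2 2 e e))) (n 1 6 (n 2 5 e (n 3 2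
  (n 2 3 e e) e)) e)) e) e))) e))))))) (l (n 1 3 e (n 1 4 e (n 2 6 e (n 5 6 (n 6 4 (n 5 4 (n 3 2 (n
  2 4 e (n 1 4 e (n 2 1 (n 3 1 e (n 1 2 e (n 5 3 e (n 1 1 e e)))) e))) e) (n 3 2 (n 2 1 (n 3 1 e (n
  1 2 e (n 1 5 e (n 4 3 (n 3 5 e e) e)))) e) (n 5 3 e (n 2 5 (n 2 1 e (n 3 5 e (n 3 2 e e))) (n 1 5
  (n 3 5 e (n 1 2 (n 2 3 e (n 2 4 e (n 2 5 e e))) e)) (n 2 1 e (n 2 3 e (n 4 2 (n 2 5 e e) e))))))))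
  e) e)))))))))))))))) (t [0, 2] (b (t [0, 1, 3, 9] (t [0, 4] (b (b (b (t [0, 1] (t [0, 6, 12] (t
  [0, 6] (b (l (n 2 2 (n 5 5 (n 6 6 (n 3 3 (n 1 4 e (n 1 1 e e)) e) e) e) e)) (l (n 2 3 (n 1 4 (n 5
  2 e e) (n 3 3 (n 2 6 (n 5 2 (n 2 1 (n 6 6 (n 1 5 (n 2 4 (n 1 1 (n 2 2 (n 5 5 e e) e) e) e) e) e)
  e) e) e) e)) e)))))) (t [0, 5] (t [0, 6, 12] (t [0, 6] (b (l (n 3 3 (n 2 6 (n 5 2 (n 6 6 (n 5 4 (n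
  1 4 e (n 2 4 (n 1 5 (n 1 1 (n 2 2 (n 5 5 e e) e) e) e) e)) e) e) e) e) e)) (l (n 2 6 (n 2 3 e (n 6
  6 (n 4 2 e (n 5 3 (n 1 2 e (n 1 3 e (n 4 1 (n 1 5 (n 3 4 (n 1 1 (n 3 3 (n 5 5 e e) e) e) e) e)
  e))) (n 5 2 (n 1 2 e (n 4 1 (n 1 5 (n 3 3 e e) (n 3 1 (n 1 1 (n 3 3 e e) e) e)) e)) e))) e))
  e))))))) (b (t [0, 1] (t [0, 6, 12] (t [0, 6] (f [0, 2, 3, 6, 11] (l (n 2 3 (n 3 3 (n 2 6 e (n 5 6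
  (n 1 4 e (n 1 6 e (n 1 2 e (n 5 1 e (n 2 1 (n 6 4 e e) e))))) e)) e) e)))))) (t [0, 5] (t [0, 6,
  12] (t [0, 6] (b (l (n 3 2 (n 2 4 (n 6 2 (n 5 6 (n 1 4 e (n 6 1 (n 2 1 (n 3 1 (n 1 5 (n 2 1 (n 3 1
  (n 2 2 (n 3 3 e e) e) e) e) e) e) e) e)) e) e) e) e)) (l (n 1 4 (n 2 6 e (n 5 6 (n 3 5 (n 5 4 e (n
  1 6 e (n 1 2 e (n 5 1 (n 5 2 e (n 3 2 e (n 3 3 e e))) e)))) e) e)) (n 2 3 e (n 4 2 e (n 3 5 (n 3 6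
  (n 6 2 (n 5 6 (n 3 2 e (n 3 3 e (n 1 2 (n 5 2 e e) (n 1 3 e (n 1 1 e e))))) e) e) e) (n 1 3 e (n 6
  2 e (n 6 5 (n 1 5 e (n 6 1 e (n 3 1 (n 5 2 e (n 5 5 e e)) e))) (n 3 6 e (n 4 6 e (n 1 5 (n 1 3 e
  e) e))))))))))))))))) (b (b (t [0, 1] (t [0, 2, 12] (t [0, 2] (b (l (n 2 2 (n 6 6 (n 3 3 (n 1 4 e
  (n 5 5 (n 1 1 e e) e)) e) e) e)) (l (n 2 3 (n 3 3 (n 1 4 e (n 1 2 e (n 2 6 (n 5 2 (n 6 6 (n 2 4 (n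
  2 2 (n 5 5 e e) e) e) e) e) (n 5 6 (n 2 1 (n 6 4 e e) e) e)))) e) e)))))) (t [0, 5] (t [0, 2, 12]
  (t [0, 2] (b (l (n 3 3 (n 1 4 e (n 2 4 (n 6 2 (n 5 6 (n 2 1 (n 2 2 (n 1 1 e (n 5 5 (n 6 6 e e) e))
  e) e) e) e) e)) e)) (l (n 1 3 e (n 1 4 e (n 2 3 e (n 4 2 e (n 6 2 (n 5 6 (n 2 1 (n 3 1 (n 3 3 e e)
  e) e) e) (n 3 6 (n 6 6 (n 5 3 (n 3 3 (n 5 5 e e) (n 4 3 e e)) (n 5 2 (n 3 3 e e) e)) e) (n 3 1 (n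
  5 6 (n 6 4 e e) (n 5 2 e e)) e))))))))))))) (b (t [0, 1] (t [0, 6, 12] (t [0, 6] (f [0, 3] (l (n 2
  3 (n 3 3 (n 1 4 e (n 1 2 e (n 2 6 e (n 5 6 (n 2 1 e (n 5 2 e (n 6 4 e e))) e)))) e) e)))))) (t [0,
  5] (t [0, 6, 12] (t [0, 6] (b (l (n 1 4 e (n 1 3 e (n 2 3 e (n 4 2 e (n 6 2 (n 5 6 (n 1 2 (n 2 5
  (n 3 5 (n 2 2 (n 3 3 e e) e) e) e) e) e) e)))))) (l (n 1 4 e (n 1 3 e (n 2 3 e (n 4 2 e (n 6 2 (n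
  5 6 (n 1 2 e (n 3 1 e (n 3 5 (n 3 3 e e) e))) e) (n 3 6 e (n 3 1 e (n 5 6 (n 5 3 e (n 6 4 e e)) (n
  5 2 (n 5 3 (n 3 6 e e) e) e))))))))))))))))))) (t [0, 3, 9] (t [0, 4] (b (b (t [0, 3] (t [0, 3] (t
  [0, 5, 11] (t [0, 5] (b (l (n 2 2 (n 5 5 (n 6 6 (n 1 3 e (n 4 1 (n 1 1 (n 3 3 e e) e) e)) e) e)
  e)) (l (n 3 2 e (n 5 2 (n 5 6 (n 1 3 e (n 1 4 e (n 2 1 (n 1 5 (n 2 6 (n 2 4 (n 6 4 (n 6 6 (n 1 1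
  (n 2 2 (n 5 5 e e) e) e) e) e) e) e) e) e))) e) e)))))))) (t [0, 3] (t [0, 3] (t [0, 5, 11] (t [0,
  5] (f [0, 1, 2, 5, 10] (l (n 3 2 e (n 2 6 e (n 5 6 (n 1 3 e (n 1 4 e (n 1 6 e (n 1 2 e (n 5 1 e (n
  2 1 (n 6 4 e e) e)))))) e)))))))))) (b (t [0, 3] (t [0, 3] (t [0, 1, 11] (t [0, 1] (b (l (n 2 2 (n
  6 6 (n 1 3 e (n 1 4 e (n 5 5 (n 3 3 e e) e))) e) e)) (l (n 1 3 e (n 3 2 e (n 1 4 e (n 2 6 (n 5 2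
  (n 6 6 (n 2 4 (n 2 2 (n 5 5 e e) e) e) e) e) (n 5 6 (n 2 1 (n 6 4 e e) e) e))))))))))) (t [0, 3]
  (t [0, 3] (t [0, 5, 11] (t [0, 5] (f [0, 2] (l (n 1 3 e (n 3 2 e (n 1 4 e (n 2 6 e (n 5 6 (n 2 1 e
  (n 5 2 e (n 6 4 e e))) e))))))))))))))))))) z)) (t [0, 3] (t [0, 2] (t [0, 2] (b (t [0, 1, 3] (t
  [0, 1] (t [0, 1, 2, 3, 7] (f [0, 2] (b (f [0, 2] (b (t [0, 4, 5, 9] (t [0, 5] (b (l (n 3 3 (n 5 6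
  (n 2 4 e (n 2 2 (n 5 4 (n 1 4 e (n 6 4 e (n 5 6 e (n 6 6 e (n 1 5 e (n 1 6 e (n 1 1 e e))))))) (n
  5 5 (n 6 6 e (n 4 6 e (n 1 4 e (n 1 6 e (n 1 1 e e))))) e)) e)) e) e)) (l (n 2 4 e (n 2 3 (n 5 6
  (n 5 2 (n 6 4 e e) (n 5 4 (n 6 4 e (n 3 3 (n 4 1 (n 5 6 e (n 2 1 (n 2 2 e (n 1 5 e (n 1 6 e (n 1 1
  e e)))) e)) e) e)) e)) e) e)))))) (t [0, 4, 5, 9] (t [0, 5] (b (l (n 2 4 e (n 2 3 e (n 5 6 (n 5 3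
  (n 6 4 e e) (n 3 2 e (n 5 4 (n 4 1 (n 6 4 e (n 3 3 (n 5 6 e (n 6 2 e (n 1 5 e (n 1 6 e (n 1 2 e (n
  1 2 e (n 1 1 e e))))))) e)) e) (n 5 2 (n 3 3 (n 6 4 (n 6 2 e (n 1 4 e (n 1 5 e (n 1 6 e (n 2 1 (n
  1 2 e e) e))))) e) e) e)))) e)))) (l (n 5 6 (n 2 4 e (n 2 3 e (n 5 3 (n 6 4 e e) (n 3 2 e (n 5 4
  (n 4 1 (n 6 4 e (n 5 6 e (n 6 2 e (n 3 3 e (n 1 3 e (n 1 5 e (n 1 6 e (n 1 2 e (n 1 2 e (n 1 1 e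
  e)))))))))) e) (n 5 2 (n 6 4 (n 6 2 e (n 3 3 e (n 1 3 e (n 1 4 e (n 1 5 e (n 1 6 e (n 2 1 (n 1 2 e
  e) e))))))) e) e)))))) e))))))) (t [0, 1] (f [0, 2] (b (t [0, 2, 4, 9] (t [0, 2] (b (l (n 3 3 (n 1
  4 e (n 5 6 (n 1 1 e (n 2 4 e (n 2 2 (n 6 4 (n 5 4 e (n 5 6 (n 5 5 e e) e)) e) e))) e)) e)) (l (n 1
  3 e (n 1 4 e (n 5 6 (n 3 3 e (n 2 4 e (n 6 4 (n 5 2 e (n 2 3 e (n 2 2 (n 5 4 e (n 6 5 e e)) e)))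
  e))) e))))))) (t [0, 2, 4, 9] (t [0, 2] (b (l (n 1 3 e (n 1 4 e (n 2 4 e (n 2 3 e (n 3 2 e (n 3 3
  (n 5 6 (n 6 4 (n 5 4 e (n 5 2 e (n 5 2 e (n 5 6 (n 5 5 e e) e)))) e) e) e))))))) (l (n 1 3 e (n 1
  4 e (n 2 4 e (n 5 6 (n 6 4 (n 5 2 e (n 2 3 e (n 5 4 e (n 3 2 e (n 6 5 e (n 3 3 e e)))))) e)
  e)))))))))))))))) (t [0, 3] (b (t [0, 1, 3, 4, 8] (f [0, 3] (b (b (t [0, 1] (t [0, 5, 6, 10] (t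
  [0, 6] (b (l (n 2 2 (n 5 5 (n 3 3 (n 1 4 e (n 6 4 (n 1 1 (n 6 6 e e) e) e)) e) e) e)) (l (n 2 3 (n
  3 3 (n 5 6 (n 5 2 (n 1 2 e (n 4 1 (n 1 5 (n 6 4 (n 6 2 e (n 1 1 (n 2 2 (n 5 5 e e) e) e)) e) e)
  e)) e) e) e) e)))))) (t [0, 4] (t [0, 5, 6, 10] (t [0, 6] (b (l (n 3 3 (n 6 2 e (n 2 4 (n 5 2 (n 1
  2 e (n 4 1 (n 4 6 (n 5 6 e (n 1 5 e (n 1 6 e e))) (n 5 1 (n 1 1 (n 2 2 (n 5 5 e e) e) e) e)) e))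
  e) e)) e)) (l (n 2 3 e (n 5 6 (n 4 2 e (n 5 3 (n 6 2 e (n 1 4 e (n 1 2 e (n 3 1 (n 6 4 (n 6 3 e (n
  5 1 (n 1 1 (n 3 3 (n 5 5 e e) e) e) e)) e) e)))) (n 5 2 (n 6 2 e (n 1 2 e (n 4 1 (n 1 5 (n 3 3 e
  (n 1 6 (n 4 6 (n 6 5 e e) e) e)) (n 1 3 (n 4 6 (n 6 5 (n 1 1 (n 3 3 e e) e) e) (n 1 1 (n 3 3 e e)
  e)) e)) e))) e))) e)))))))) (t [0, 1] (b (t [0, 1] (t [0, 2, 5, 10] (t [0, 2] (b (l (n 2 2 (n 5 5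
  (n 3 3 (n 1 4 e (n 6 4 (n 1 1 e (n 6 6 e e)) e)) e) e) e)) (l (n 2 3 (n 3 3 (n 1 2 e (n 1 4 e (n 5
  6 (n 5 2 (n 6 4 (n 6 2 e (n 2 2 (n 5 5 e e) e)) e) e) e))) e) e)))))) (t [0, 4] (t [0, 2, 5, 10]
  (t [0, 2] (b (l (n 3 3 (n 1 4 e (n 2 4 (n 6 2 e (n 5 2 (n 1 1 e (n 5 6 (n 4 6 e (n 2 2 (n 5 5 e e)
  e)) e)) e)) e)) e)) (l (n 1 3 e (n 1 4 e (n 2 3 e (n 6 5 (n 6 2 e (n 6 3 e e)) (n 5 3 (n 4 6 e (n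
  6 2 e (n 3 6 (n 3 3 (n 5 5 e e) e) e))) (n 4 2 e (n 5 2 (n 2 6 (n 3 3 e (n 4 6 (n 6 5 e e) e)) e)
  e))))))))))))))))) (t [0, 3, 4, 8] (f [0, 3] (b (t [0, 2] (t [0, 2] (t [0, 4, 5, 9] (t [0, 5] (b
  (l (n 2 2 (n 5 5 (n 1 3 e (n 4 1 (n 6 4 (n 1 1 (n 3 3 e (n 6 6 e e)) e) e) e)) e) e)) (l (n 3 2 e
  (n 5 2 (n 5 6 (n 1 2 e (n 1 3 e (n 4 1 (n 1 5 (n 6 4 (n 6 2 e (n 1 1 (n 2 2 (n 5 5 e e) e) e)) e)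
  e) e))) e) e)))))))) (t [0, 1] (t [0, 2] (t [0, 2] (t [0, 1, 4, 9] (t [0, 1] (b (l (n 2 2 (n 5 5
  (n 1 3 e (n 1 4 e (n 6 4 (n 3 3 e (n 6 6 e e)) e))) e) e)) (l (n 1 3 e (n 3 2 e (n 1 4 e (n 6 2 e
  (n 5 2 (n 4 2 e (n 6 4 (n 2 2 (n 5 5 e e) e) e)) e))))))))))))))))))))))) z) (b (t [0, 1] (f [0,
  2, 4] (f [0, 2] (t [0, 1] (t [0, 1] (b (t [0, 1, 1] (t [0, 1] (t [0, 1, 1] (f [0, 3, 5] (b (f [0,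
  2] (b (t [0, 3] (t [0, 3] (b (l (n 3 3 (n 2 4 e (n 2 2 (n 5 6 (n 5 4 e (n 5 5 e (n 6 4 (n 1 4 e (n
  1 6 e e)) e))) e) e)) e)) (l (n 2 4 e (n 2 3 (n 3 3 (n 5 6 (n 5 2 e (n 5 4 e (n 6 4 (n 2 2 e (n 1
  2 e (n 1 4 e (n 1 6 e e)))) e))) e) e) e)))))) (t [0, 1] (t [0, 1] (b (l (n 2 4 e (n 5 6 (n 5 2 e
  (n 2 3 e (n 5 4 e (n 3 2 e (n 3 3 (n 6 4 (n 1 2 e (n 1 4 e (n 1 6 e e))) e) e))))) e))) (l (n 2 4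
  e (n 5 6 (n 5 2 e (n 2 3 e (n 5 4 e (n 3 2 e (n 6 4 (n 3 3 e (n 1 2 e (n 1 3 e (n 1 4 e (n 1 6 e
  e))))) e))))) e)))))))) (t [0, 1] (f [0, 2] (b (t [0, 2] (t [0, 2] (b (l (n 3 3 (n 2 4 e (n 2 2 (n
  5 6 (n 1 4 e (n 1 1 e (n 5 4 e (n 6 4 (n 5 5 e e) e)))) e) e)) e)) (l (n 2 4 e (n 2 3 (n 3 3 (n 5
  6 (n 1 2 e (n 1 4 e (n 5 2 e (n 5 4 e (n 6 4 (n 2 2 e e) e))))) e) e) e)))))) (t [0, 1, 2] (t [0,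
  1, 2] (b (l (n 2 4 e (n 5 6 (n 5 2 e (n 2 3 e (n 5 4 e (n 1 3 e (n 3 2 e (n 1 4 e (n 6 4 (n 3 3 e
  e) e))))))) e))) (l (n 2 4 e (n 5 6 (n 5 2 e (n 2 3 e (n 5 4 e (n 1 3 e (n 3 2 e (n 1 4 e (n 6 4
  (n 3 3 e e) e))))))) e)))))))))))))) (t [0, 2] (b (t [0, 1, 3] (f [0, 4, 6] (b (b (t [0, 1] (t [0,
  5] (t [0, 5] (b (l (n 2 2 (n 3 3 (n 5 6 (n 1 4 e (n 6 4 (n 1 1 (n 5 5 e e) e) e)) e) e) e)) (l (n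
  2 3 (n 5 6 (n 3 3 (n 1 4 e (n 5 2 e (n 1 2 (n 6 4 (n 1 1 (n 2 2 e e) e) e) e))) e) e) e)))))) (t
  [0, 4] (t [0, 1] (t [0, 5] (b (l (n 3 3 (n 2 4 (n 1 4 e (n 5 6 (n 5 2 e (n 1 2 (n 1 6 (n 2 6 (n 6
  4 (n 1 1 (n 2 2 e e) e) e) e) e) e)) e)) e) e)) (l (n 2 3 e (n 4 2 e (n 1 4 e (n 5 6 (n 5 2 e (n 5
  3 e (n 3 1 (n 3 3 e (n 6 2 (n 1 2 e (n 1 6 e e)) (n 6 4 (n 1 2 e (n 1 1 e e)) e))) (n 6 2 e (n 6 4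
  e e))))) e)))))))))) (t [0, 1] (b (t [0, 1] (t [0, 2] (t [0, 2] (b (l (n 2 2 (n 3 3 (n 1 4 e (n 5
  6 (n 6 4 (n 1 1 e (n 5 5 e e)) e) e)) e) e)) (l (n 2 3 (n 5 6 (n 3 3 (n 1 4 e (n 1 2 e (n 5 2 e (n
  6 4 (n 2 2 e e) e)))) e) e) e)))))) (t [0, 4] (t [0, 2] (t [0, 1, 2] (b (l (n 3 3 (n 1 4 e (n 2 4
  (n 5 6 (n 5 2 e (n 1 1 e (n 2 2 e (n 6 2 e (n 6 4 e e))))) e) e)) e)) (l (n 2 3 e (n 1 4 e (n 4 2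
  e (n 5 6 (n 1 3 e (n 5 2 e (n 5 3 e (n 3 3 e (n 6 2 e (n 6 4 e e)))))) e)))))))))))))) (t [0, 3]
  (f [0, 4, 6] (b (t [0, 2] (t [0, 2] (t [0, 4] (t [0, 4] (b (l (n 2 2 (n 5 6 (n 1 3 e (n 4 1 (n 6 4
  (n 1 1 (n 3 3 e (n 5 5 e e)) e) e) e)) e) e)) (l (n 3 2 e (n 5 6 (n 5 2 e (n 1 3 e (n 1 4 e (n 1 2
  (n 6 4 (n 1 1 (n 2 2 e e) e) e) e)))) e)))))))) (t [0, 1] (t [0, 2] (t [0, 2] (t [0, 1] (t [0, 1]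
  (b (l (n 2 2 (n 5 6 (n 1 3 e (n 1 4 e (n 6 4 (n 3 3 e (n 5 5 e e)) e))) e) e)) (l (n 1 3 e (n 3 2
  e (n 1 4 e (n 5 6 (n 5 2 e (n 6 4 (n 2 2 e e) e)) e)))))))))))))))))))))) z)) z) (b (b (b (t [0,
  1] (t [0, 2] (b (b (t [0, 1] (b (b (t [0, 2] (t [0, 1, 8] (t [0, 4, 8] (b (f [0, 5, 9] (f [0, 3]
  (b (t [0, 5] (t [0, 1, 3] (b (l (n 5 6 e (n 2 3 e (n 2 4 (n 4 4 (n 6 2 (n 1 2 e (n 1 3 e (n 6 1 e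
  (n 2 1 (n 3 1 (n 2 5 (n 5 3 e e) e) e) e)))) (n 6 6 (n 3 1 (n 3 1 (n 3 5 e (n 1 2 (n 3 2 (n 5 2 e
  e) e) e)) e) e) e)) e) e)))) (l (n 5 6 e (n 3 2 (n 6 2 e (n 2 4 e (n 2 2 (n 3 6 e (n 3 1 (n 3 1 (n
  3 5 e (n 1 4 (n 3 4 (n 5 4 e (n 5 6 e e)) (n 3 6 (n 5 6 e e) e)) (n 1 6 (n 3 6 (n 5 6 e e) e) e)))
  e) e)) e))) e)))))) (t [0, 5] (b (b (l (n 5 6 e (n 1 3 (n 6 3 e (n 2 3 e (n 4 6 (n 2 4 e (n 6 2 (n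
  1 6 (n 1 2 (n 3 6 e (n 2 6 (n 2 3 (n 6 6 e (n 1 5 (n 3 2 (n 2 5 (n 5 3 e e) e) (n 3 1 (n 5 2 e e)
  e)) (n 3 1 e (n 3 2 e (n 3 5 e e))))) e) e)) (n 1 6 (n 6 3 (n 5 2 (n 3 2 e (n 3 5 e e)) e) e) (n 1
  2 (n 2 5 (n 3 2 (n 5 1 e e) e) (n 3 2 e (n 3 5 e e))) e))) (n 6 2 e (n 2 1 e (n 1 2 (n 3 2 (n 2 5
  (n 6 2 (n 3 5 (n 5 1 e (n 5 1 e e)) e) e) (n 6 2 e (n 6 5 e e))) e) e)))) e)) e))) (n 6 4 (n 2 6 e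
  (n 1 4 e (n 2 1 (n 6 2 e (n 2 3 e (n 4 2 (n 3 2 e (n 1 6 (n 3 5 (n 5 4 e (n 5 2 e (n 5 2 e e))) e)
  e)) e))) e))) (n 2 4 e (n 2 3 e (n 3 6 (n 3 2 e (n 6 2 (n 1 4 (n 5 2 (n 3 2 e (n 3 5 e e)) e) e)
  e)) (n 6 2 (n 1 4 (n 1 3 e (n 2 1 (n 2 3 (n 3 5 (n 5 6 e (n 2 5 (n 5 2 e e) e)) e) e) e)) e) (n 1
  4 (n 6 3 (n 3 1 (n 5 2 (n 6 2 e (n 6 5 e e)) (n 6 5 (n 5 3 (n 6 2 e (n 6 6 e e)) e) (n 5 2 (n 6 2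
  e e) e))) e) (n 3 2 (n 6 2 (n 2 5 (n 5 6 e (n 3 5 (n 5 3 e e) e)) e) e) e)) e))))))))) (l (n 5 6 e
  (n 2 3 e (n 2 4 e (n 6 4 e (n 6 3 (n 1 3 e (n 3 1 (n 2 1 (n 6 2 e (n 1 4 (n 6 2 e (n 6 6 e (n 3 5
  (n 2 3 (n 5 2 (n 3 4 e (n 3 6 e (n 3 3 e (n 3 3 e e)))) e) (n 5 2 e (n 5 3 e e))) (n 3 2 (n 5 2 e
  (n 5 4 e (n 5 6 e e))) (n 3 4 (n 5 4 e (n 5 6 e e)) (n 3 6 (n 5 6 e e) e)))))) (n 1 6 (n 3 6 (n 5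
  2 (n 1 2 (n 3 2 (n 6 2 e (n 6 5 e e)) (n 3 5 (n 6 5 e e) e)) (n 1 5 (n 3 5 (n 6 5 e e) e) e)) (n 3
  5 e (n 1 2 (n 3 2 (n 5 2 (n 6 2 e e) e) e) e))) e) e))) e) e)) (n 3 2 e (n 1 2 (n 2 6 (n 6 1 (n 3
  1 e (n 1 5 e e)) e) (n 2 6 (n 3 1 e (n 3 2 e (n 1 5 (n 5 2 e e) e))) e)) (n 6 2 (n 3 2 e (n 2 5 e
  (n 1 2 e (n 1 3 e (n 1 4 e (n 1 5 e e)))))) e)))))))))) (b (l (n 5 6 e (n 2 4 e (n 6 4 (n 1 3 e (n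
  4 1 (n 2 3 e (n 1 3 e e)) e)) (n 2 3 e (n 3 6 (n 3 1 e (n 2 3 (n 6 2 (n 1 2 (n 6 2 (n 2 5 (n 6 3
  (n 1 5 (n 5 6 e e) e) e) e) e) e) e) e)) (n 1 3 e (n 1 3 e (n 6 2 e (n 1 2 (n 2 5 (n 1 6 (n 5 3 (n
  1 3 (n 2 3 (n 3 4 (n 5 4 e (n 5 6 e e)) (n 3 6 (n 5 6 e e) e)) (n 5 2 e (n 5 4 e (n 5 6 e e)))) (n
  1 5 (n 5 2 e (n 5 4 e (n 5 6 e e))) e)) (n 5 1 (n 1 3 (n 2 3 (n 3 4 e (n 5 3 (n 3 6 e e) e)) e) e)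
  e)) e) e) e)))))))))) (l (n 5 6 e (n 2 4 e (n 6 4 (n 1 3 e (n 1 4 e (n 2 3 e (n 6 1 e (n 3 1 (n 4
  1 (n 3 2 e (n 5 2 (n 2 1 (n 1 5 e e) e) (n 2 5 (n 1 2 (n 5 3 e (n 5 4 e e)) e) (n 1 2 e (n 1 5 e
  e))))) e) e))))) (n 2 3 e (n 3 6 (n 3 2 e (n 1 2 (n 6 2 (n 5 2 (n 2 6 (n 6 3 (n 6 5 (n 1 3 (n 2 3
  e e) e) e) (n 5 3 e (n 6 5 e e))) e) (n 6 2 (n 1 3 (n 1 5 e (n 6 3 e e)) (n 1 5 (n 5 3 e e) e))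
  e)) e) e)) (n 1 3 e (n 1 3 e (n 1 2 (n 2 5 (n 6 1 (n 1 4 (n 3 4 (n 1 3 (n 3 5 (n 2 3 (n 5 6 e (n 1
  5 (n 5 1 e e) e)) e) (n 2 3 e (n 2 5 e e))) e) e) e) (n 2 6 (n 1 6 e (n 3 6 (n 1 5 (n 5 6 e (n 5 3
  e (n 5 3 e e))) e) (n 2 3 (n 3 4 (n 1 5 (n 2 5 (n 5 3 e (n 5 6 e (n 5 6 e (n 5 5 e e)))) e) e) e)
  (n 1 5 (n 5 3 e (n 5 6 e (n 5 6 e (n 5 5 e e)))) e)))) (n 3 4 (n 5 3 (n 3 2 (n 2 5 e e) e) (n 2 3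
  (n 5 1 e e) e)) (n 3 6 (n 2 3 (n 1 5 (n 5 2 e (n 5 3 e (n 5 4 e e))) e) (n 4 5 (n 2 4 (n 5 1 e (n
  5 3 e (n 5 5 e e))) e) (n 2 4 e (n 2 5 e e)))) e)))) e) e))))))))))))))) (b (f [0, 4] (b (t [0, 2]
  (t [0, 2] (b (l (n 3 3 (n 1 4 e (n 5 6 e (n 2 6 e (n 1 2 e (n 2 4 (n 4 6 (n 6 6 (n 5 2 e e) e) e)
  e))))) e)) (l (n 1 3 e (n 1 4 e (n 5 6 e (n 2 6 e (n 2 1 (n 2 4 (n 4 6 (n 3 6 (n 6 6 (n 5 2 (n 3 3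
  e e) e) e) e) e) (n 3 2 e (n 3 6 (n 6 6 (n 5 2 e (n 5 4 e e)) e) e))) e))))))))) (t [0, 2] (t [0,
  2] (b (l (n 1 3 e (n 5 6 e (n 1 4 e (n 2 6 e (n 2 1 (n 6 4 (n 2 4 e (n 3 2 (n 3 2 e (n 3 5 (n 5 4
  (n 3 3 e e) (n 3 3 (n 5 2 e (n 5 2 e e)) e)) e)) e)) (n 3 2 (n 3 2 e (n 3 6 (n 3 5 (n 6 6 (n 5 2 e
  (n 5 2 e e)) e) (n 6 6 e e)) e)) (n 6 3 e (n 2 6 (n 3 6 (n 5 2 (n 6 6 e e) e) e) e)))) e)))))) (l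
  (n 1 3 e (n 1 4 e (n 5 6 e (n 2 6 e (n 2 1 (n 3 2 (n 6 4 (n 2 4 e (n 3 2 e (n 3 3 e (n 3 5 (n 5 4
  e (n 5 2 e (n 5 2 e (n 5 5 e e)))) e)))) (n 3 2 e (n 3 6 e (n 3 5 (n 5 6 e (n 5 2 e (n 5 2 e e)))
  e)))) (n 6 4 e (n 6 3 e (n 2 6 (n 3 6 e (n 5 2 e e)) (n 5 2 e (n 5 6 e e)))))) e))))))))))) (f [0,
  4] (b (t [0, 6] (t [0, 1, 4] (b (l (n 1 4 e (n 1 3 e (n 2 3 e (n 2 4 (n 6 2 (n 1 2 (n 5 6 e (n 2 6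
  (n 3 6 (n 4 4 (n 2 5 (n 5 1 (n 2 2 (n 3 3 e e) e) (n 3 5 e e)) e) e) e) e)) e) e) e))))) (l (n 1 4
  e (n 1 3 e (n 2 3 e (n 2 4 (n 5 6 e (n 6 2 (n 1 2 e (n 4 4 (n 3 1 e (n 3 6 (n 5 1 (n 3 3 e e) (n 3
  3 e (n 5 2 e (n 5 3 e e)))) e)) e)) (n 3 6 e (n 3 1 e (n 4 4 (n 2 3 (n 3 6 (n 1 5 (n 5 2 e (n 5 3
  e e)) e) e) (n 5 1 e (n 5 3 e e))) e))))) e)))))))) (t [0, 6] (b (b (l (n 1 3 e (n 1 4 e (n 5 6 e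
  (n 2 6 e (n 6 4 (n 2 1 e (n 6 2 e (n 4 1 (n 3 2 (n 3 1 e (n 2 3 (n 3 5 (n 4 5 (n 1 5 (n 5 1 e (n 5
  2 e (n 5 2 e e))) e) e) e) e)) (n 1 3 e (n 3 1 (n 1 2 (n 2 5 (n 4 5 (n 1 5 (n 5 1 e (n 5 3 e (n 5
  3 e e))) e) e) e) e) (n 3 3 (n 2 5 (n 5 4 e (n 5 1 e (n 5 1 e (n 5 5 e e)))) e) e)))) (n 2 3 e (n
  4 2 (n 3 2 e (n 1 5 (n 3 5 (n 5 4 e (n 5 2 e (n 5 2 e (n 5 5 e e)))) e) e)) e))))) (n 3 2 (n 3 6 e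
  (n 2 1 (n 1 3 (n 3 4 (n 1 2 (n 2 3 (n 3 5 (n 5 6 e (n 1 5 (n 1 5 (n 2 5 (n 5 2 e e) e) e) e)) e)
  e) (n 1 6 (n 3 5 (n 5 6 e (n 1 5 (n 1 5 (n 5 2 e (n 5 2 e e)) e) e)) e) e)) e) (n 6 1 e (n 3 2 (n
  2 2 (n 1 5 (n 5 6 e (n 5 3 e (n 5 3 e e))) e) e) (n 3 6 (n 1 5 (n 5 6 e (n 2 5 (n 5 2 e (n 5 3 e
  (n 5 3 e e))) e)) e) e)))) (n 4 3 e (n 2 4 (n 3 1 e (n 2 3 (n 3 5 (n 5 6 e (n 1 5 (n 5 1 e (n 5 2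
  e (n 5 2 e e))) e)) e) e)) e)))) (n 2 6 (n 2 1 e (n 6 3 (n 3 2 (n 3 2 (n 2 5 (n 6 2 (n 1 5 (n 5 3
  e (n 5 3 e e)) e) e) (n 6 2 e (n 6 5 e e))) e) e) (n 6 3 (n 5 2 (n 3 2 e (n 3 5 e e)) (n 5 1 (n 3
  2 e (n 3 3 e e)) e)) e))) (n 6 3 e (n 1 6 (n 1 2 (n 2 4 (n 3 6 (n 2 5 (n 5 6 e (n 1 5 (n 1 5 (n 5
  3 e (n 5 3 e e)) e) e)) e) e) e) (n 3 6 (n 1 5 (n 5 6 e (n 2 5 (n 5 2 e (n 5 3 e (n 5 3 e e))) e))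
  e) e)) e)))))))))) (l (n 1 3 e (n 1 4 e (n 5 6 e (n 6 2 (n 6 4 (n 2 3 e (n 2 1 (n 2 4 e (n 3 1 e
  (n 6 3 e (n 1 2 e (n 1 1 e (n 1 5 (n 3 5 (n 5 4 e (n 5 2 e (n 5 2 e (n 5 5 e (n 5 5 e e))))) e)
  e)))))) (n 4 1 e (n 2 4 e e)))) (n 2 3 (n 2 6 (n 3 6 (n 6 3 (n 2 1 e (n 3 2 e (n 2 2 e (n 5 1 e (n
  5 2 e e))))) e) (n 2 3 e (n 2 1 (n 3 5 (n 5 2 (n 3 1 e (n 2 2 (n 5 5 e e) e)) e) (n 2 2 e (n 3 1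
  (n 1 5 e e) e))) (n 3 2 (n 2 6 (n 1 5 (n 2 5 (n 5 3 e (n 5 3 e e)) e) e) e) (n 1 5 (n 5 3 e (n 5 2
  e (n 5 2 e e))) e))))) (n 6 3 e (n 2 1 (n 1 6 (n 2 6 (n 3 6 e (n 1 5 (n 3 5 (n 2 5 (n 5 2 e (n 5 6
  e (n 5 6 e e))) e) e) e)) (n 1 5 (n 2 5 (n 5 3 e (n 5 6 e (n 5 6 e e))) e) e)) (n 3 1 e (n 1 5 (n
  5 2 e (n 5 3 e (n 5 6 e e))) e))) (n 2 4 (n 1 6 (n 3 6 e (n 2 5 (n 3 5 (n 1 5 (n 5 1 e (n 5 6 e (n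
  5 6 e (n 5 5 e e)))) e) e) e)) (n 1 5 (n 2 5 (n 5 3 e (n 5 6 e (n 5 6 e (n 5 5 e e)))) e) e))
  e)))) (n 3 6 e (n 1 2 e (n 3 1 (n 6 1 e (n 3 2 e (n 3 6 e (n 1 5 (n 3 5 (n 2 5 (n 5 2 e (n 5 6 e
  (n 5 6 e (n 5 5 e (n 5 5 e e))))) e) e) e)))) (n 3 4 (n 1 2 e (n 6 1 (n 1 5 (n 3 5 (n 2 5 (n 5 2 e
  (n 5 6 e (n 5 6 e (n 5 5 e e)))) e) e) e) e)) e)))))) e)))))) (b (l (n 1 3 e (n 1 4 e (n 5 6 e (n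
  2 4 e (n 4 1 (n 2 3 e (n 6 3 (n 3 1 (n 3 2 e (n 1 2 (n 5 2 (n 2 6 (n 6 5 e e) e) (n 2 5 (n 6 2 (n
  3 5 (n 4 5 (n 5 1 e (n 5 1 e e)) e) e) e) (n 6 2 e (n 6 5 e e)))) e)) (n 6 2 (n 6 3 e (n 1 2 e (n
  6 1 (n 5 2 e (n 3 5 (n 1 5 (n 2 5 (n 3 5 (n 5 4 e (n 5 6 e (n 5 6 e (n 5 5 e e)))) e) e) e) e))
  e))) (n 6 3 (n 3 2 (n 3 5 (n 1 2 (n 2 6 (n 3 5 (n 4 5 (n 5 6 e (n 1 5 (n 1 5 (n 5 2 e (n 5 2 e e))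
  e) e)) e) e) e) (n 1 5 (n 3 5 (n 4 5 (n 5 6 e (n 5 2 e (n 5 2 e (n 5 5 e e)))) e) e) e)) e) e)
  e))) e)) (n 2 3 e (n 6 3 (n 6 3 e (n 3 2 e (n 4 6 (n 5 2 (n 2 6 (n 6 5 e e) e) (n 6 2 (n 1 5 (n 2
  5 (n 5 3 e (n 5 4 e (n 5 6 e e))) e) e) e)) e))) e)))))))) (l (n 1 3 e (n 5 6 e (n 2 6 e (n 1 4 e
  (n 6 3 (n 2 4 e (n 1 4 (n 4 6 (n 6 2 (n 3 6 (n 2 5 (n 3 2 (n 3 2 (n 4 2 e (n 1 5 (n 2 5 (n 5 3 e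
  (n 5 4 e (n 5 6 e e))) e) e)) (n 1 5 (n 2 5 (n 5 3 e (n 5 4 e (n 5 6 e e))) e) e)) (n 6 3 e (n 1 5
  (n 2 5 (n 4 5 (n 5 6 e (n 5 3 e (n 5 3 e (n 5 5 e e)))) e) e) e))) e) e) e) e) (n 3 2 (n 2 6 (n 3
  2 (n 3 1 e (n 5 3 (n 3 6 (n 6 5 e e) e) (n 3 5 (n 6 3 (n 2 5 (n 5 4 e (n 5 1 e (n 5 1 e e))) e) e)
  (n 6 3 e (n 6 5 e e))))) e) (n 3 1 (n 3 2 e (n 1 2 (n 2 5 (n 3 6 (n 3 3 e (n 2 5 (n 4 5 (n 5 6 e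
  (n 1 5 (n 5 1 e (n 5 3 e (n 5 3 e (n 5 5 e (n 5 5 e e))))) e)) e) e)) e) e) e)) (n 5 2 e (n 3 5 (n
  3 6 (n 3 5 (n 1 2 (n 3 2 e (n 5 1 e (n 5 4 e (n 5 6 e e)))) (n 6 1 e (n 2 5 (n 4 5 (n 5 6 e (n 5 1
  e (n 5 1 e (n 5 5 e (n 5 5 e e))))) e) e))) (n 1 2 (n 3 2 (n 2 5 e e) e) (n 6 1 e e))) e) e))))
  e))) (n 2 4 (n 2 1 e (n 2 3 e (n 6 2 (n 4 6 (n 2 5 (n 3 6 e (n 2 6 (n 1 5 (n 3 5 (n 4 5 (n 2 5 (n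
  5 2 e (n 5 6 e (n 5 6 e (n 5 5 e e)))) e) e) e) e) e)) e) e) e))) (n 3 2 e (n 4 1 e (n 4 3 e (n 6
  4 (n 4 5 (n 3 6 e (n 4 2 (n 1 5 (n 2 5 (n 3 5 (n 5 4 e (n 5 6 e (n 5 6 e (n 5 5 e (n 5 5 e e)))))
  e) e) e) (n 4 6 (n 1 5 (n 2 5 (n 3 5 (n 4 5 (n 5 4 e (n 5 6 e (n 5 6 e (n 5 5 e (n 5 5 e e))))) e)
  e) e) e) e))) e) e))))))))))))))))))))) z) (b (b (t [0, 1, 2, 9] (t [0, 5, 9] (b (f [0, 6, 10] (b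
  (t [0, 1] (t [0, 6] (t [0, 4] (f [0, 2, 4, 7, 11] (l (n 2 3 (n 6 2 (n 5 6 e (n 3 3 (n 1 4 e (n 2 1
  (n 1 6 (n 2 1 (n 2 5 e e) e) e) e)) e)) e) e)))))) (t [0, 5] (t [0, 4, 11] (t [0, 4] (b (l (n 3 2
  (n 5 6 e (n 2 4 (n 2 6 (n 6 6 (n 1 4 e (n 3 1 (n 1 2 (n 3 1 (n 3 5 e e) e) e) e)) e) (n 1 4 e (n 1
  2 e (n 1 3 e (n 6 1 e (n 2 1 (n 3 1 (n 2 5 (n 5 3 e e) e) e) e)))))) e)) e)) (l (n 5 6 e (n 2 3 e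
  (n 6 2 e (n 4 2 e (n 6 3 (n 1 4 e (n 3 1 (n 3 1 (n 1 2 (n 3 6 (n 3 5 e e) (n 3 2 (n 6 6 e (n 5 3 e
  (n 5 6 e e))) e)) (n 1 6 (n 3 6 (n 3 5 e e) e) e)) e) e)) e)))))))))))) (b (b (t [0, 1] (t [0, 2]
  (t [0, 2] (f [0, 8, 12] (l (n 1 3 e (n 1 4 e (n 2 3 (n 5 6 e (n 2 6 e (n 2 1 (n 5 2 (n 3 3 e e) e)
  e))) e)))))))) (t [0, 6] (t [0, 2] (t [0, 2] (b (l (n 3 3 (n 1 4 e (n 5 6 e (n 2 4 (n 2 6 e (n 1 2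
  e (n 5 2 e e))) e))) e)) (l (n 1 3 e (n 1 4 e (n 5 6 e (n 2 6 e (n 2 1 (n 3 6 (n 4 2 e (n 6 4 (n 5
  2 (n 3 3 e e) e) e)) (n 2 3 e (n 4 2 e (n 5 2 e (n 5 3 e e))))) e))))))))))) (b (t [0, 1] (t [0,
  7] (t [0, 5] (f [0, 3] (l (n 1 3 e (n 1 4 e (n 2 3 (n 2 1 e (n 2 6 e (n 5 6 e (n 6 2 e (n 3 3 (n 5
  1 e (n 5 2 e e)) e))))) e)))))))) (t [0, 6] (t [0, 5, 12] (t [0, 5] (b (l (n 1 4 e (n 1 3 e (n 5 6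
  e (n 2 3 e (n 4 2 e (n 6 2 (n 1 2 (n 2 6 (n 3 6 (n 2 5 (n 3 5 (n 5 1 (n 2 2 (n 3 3 e e) e) e) e)
  e) e) e) e) e))))))) (l (n 1 4 e (n 1 3 e (n 5 6 e (n 2 3 e (n 4 2 e (n 6 2 (n 1 2 e (n 3 1 e (n 3
  6 (n 3 5 (n 5 1 (n 3 3 e e) (n 5 2 (n 3 3 e e) e)) e) e))) (n 3 6 e (n 3 1 e (n 2 3 (n 3 6 (n 1 5
  (n 5 2 e (n 5 3 e e)) e) e) (n 5 1 e (n 5 3 e e))))))))))))))))))))) (t [0, 4] (t [0, 5, 9] (b (f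
  [0, 6, 10] (t [0, 2] (t [0, 2] (t [0, 5] (t [0, 3] (f [0, 1, 3, 6, 10] (l (n 3 2 e (n 6 2 (n 5 6 e
  (n 1 3 e (n 1 4 e (n 2 1 (n 1 6 (n 2 1 (n 2 5 e e) e) e) e)))) e))))))))) (b (t [0, 3] (t [0, 3]
  (t [0, 1] (t [0, 1] (f [0, 7, 11] (l (n 1 3 e (n 1 4 e (n 3 2 e (n 5 6 e (n 2 6 e (n 2 1 (n 5 2 e
  e) e)))))))))))) (t [0, 3] (t [0, 3] (t [0, 6] (t [0, 4] (f [0, 2] (l (n 1 3 e (n 1 4 e (n 3 2 e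
  (n 5 6 e (n 2 6 e (n 2 1 e (n 6 2 e (n 5 1 e (n 5 2 e e)))))))))))))))))))) z))) z) (t [0, 2] (t
  [0, 2] (b (b (t [0, 2] (t [0, 0, 1, 2, 2] (t [0, 5] (b (b (f [0, 4] (b (t [0, 0, 4] (t [0, 0, 2,
  2, 4] (b (l (n 3 3 (n 5 6 e (n 2 6 (n 2 4 e (n 2 2 (n 6 6 (n 1 4 e (n 1 1 e e)) e) e)) e)) e)) (l
  (n 5 6 e (n 2 6 (n 2 4 e (n 3 2 (n 2 2 (n 3 3 e (n 6 6 (n 1 3 e (n 1 4 e (n 1 1 e e))) e)) e) e))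
  e)))))) (t [0, 0, 4] (t [0, 1, 2, 2] (b (l (n 5 6 e (n 2 6 (n 2 4 e (n 2 3 e (n 3 2 e (n 3 3 (n 6
  6 (n 1 2 e (n 1 4 e (n 1 1 e e))) e) e)))) e))) (l (n 5 6 e (n 2 6 (n 2 4 e (n 2 3 e (n 3 2 e (n 3
  3 e (n 6 6 (n 1 2 e (n 1 3 e (n 1 4 e (n 1 1 e e)))) e))))) e)))))))) (f [0, 4] (b (t [0, 0, 4] (t
  [0, 1, 4] (b (l (n 5 2 e (n 2 6 e (n 6 4 (n 3 2 (n 1 4 e (n 2 4 (n 1 3 e (n 6 1 e (n 4 4 (n 2 1 (n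
  3 1 e e) e) e))) e)) e) (n 3 2 e (n 3 3 (n 6 6 (n 1 2 e (n 1 2 e (n 1 4 (n 2 4 e e) e))) e)
  e)))))) (l (n 5 6 e (n 2 6 e (n 6 4 (n 3 2 e e) (n 6 3 (n 3 1 (n 3 2 e (n 3 3 (n 5 2 e (n 1 6 (n 1
  2 e e) (n 1 4 (n 2 1 (n 6 6 e e) (n 6 2 e e)) e))) e)) e) e)))))))) (t [0, 0, 4] (b (b (l (n 5 6 e
  (n 2 6 e (n 6 4 (n 5 2 e (n 1 3 e (n 1 4 e (n 3 2 (n 2 4 e (n 6 1 e (n 1 3 e (n 4 1 (n 3 2 e (n 2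
  1 e e)) e)))) e)))) (n 6 3 (n 1 3 e (n 2 1 (n 5 2 e (n 3 2 (n 6 2 (n 1 4 (n 2 4 (n 3 4 (n 3 2 e e)
  e) e) e) (n 1 6 (n 1 2 (n 6 2 (n 3 4 e (n 3 6 e e)) (n 6 6 (n 3 2 e (n 3 4 e (n 3 3 e e))) e)) (n
  6 6 (n 1 1 (n 3 4 e (n 3 3 e e)) e) e)) (n 1 4 (n 3 4 (n 6 2 e (n 6 6 e e)) e) e))) e)) e)) (n 5 2
  e (n 3 6 e (n 3 2 e (n 1 2 (n 2 6 (n 3 1 e (n 3 2 e e)) e) (n 1 4 (n 3 2 e (n 3 3 e e)) (n 3 2 (n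
  1 3 e (n 1 6 e e)) (n 3 3 (n 1 2 e (n 1 6 e (n 1 1 e e))) e)))))))))))) (l (n 5 6 e (n 2 6 e (n 6
  4 (n 3 2 (n 2 4 e e) e) (n 3 6 (n 5 2 e (n 3 2 e (n 3 6 e (n 3 2 e (n 1 2 (n 6 2 e e) (n 1 2 e (n
  1 3 e (n 1 4 e (n 1 6 e e))))))))) (n 1 3 e (n 5 2 e (n 1 2 e (n 2 3 e (n 6 2 e (n 6 2 e (n 6 1 (n
  6 6 e (n 1 2 (n 3 2 e (n 3 4 e e)) (n 1 4 (n 3 4 e e) e))) (n 2 3 (n 3 4 e (n 3 6 e (n 3 3 e e)))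
  e)))))))))))))) (b (l (n 5 6 e (n 2 4 e (n 6 4 (n 1 4 e (n 3 1 (n 2 3 e (n 1 3 e e)) e)) (n 2 3 e
  (n 3 6 (n 3 1 e (n 2 3 (n 6 2 (n 5 2 e (n 6 3 (n 1 2 (n 6 2 e e) e) e)) e) e)) (n 1 3 e (n 1 3 e
  (n 6 2 e (n 1 6 (n 5 2 e (n 5 3 e (n 1 2 (n 1 3 (n 2 3 (n 3 4 e (n 3 6 e e)) e) e) e)))
  e)))))))))) (l (n 5 6 e (n 2 6 e (n 6 4 (n 1 3 e (n 1 4 e (n 5 2 e (n 2 4 e (n 3 2 (n 6 1 e (n 3 1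
  (n 4 1 (n 3 2 e (n 1 2 e e)) e) e)) e))))) (n 6 3 (n 3 1 (n 5 2 e (n 3 2 (n 6 2 (n 3 1 (n 3 4 (n 3
  2 e (n 1 6 e (n 2 1 e (n 1 4 e e)))) (n 1 6 (n 3 6 (n 3 2 (n 2 4 e e) e) e) e)) e) (n 1 3 e (n 2 1
  e (n 6 1 (n 3 2 e (n 3 4 e (n 3 6 e e))) e)))) e)) e) (n 5 2 e (n 3 2 e (n 2 1 e (n 3 6 e (n 6 2
  (n 1 3 (n 3 6 e e) e) e)))))))))))))))) (b (f [0, 4] (b (t [0, 3] (t [0, 2] (b (l (n 3 3 (n 1 4 e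
  (n 2 4 e (n 5 6 e (n 2 2 (n 6 4 (n 1 4 e (n 5 4 e e)) (n 1 1 e (n 6 6 e e))) e)))) e)) (l (n 1 3 e
  (n 1 4 e (n 5 2 e (n 6 2 (n 6 4 (n 2 4 e (n 2 3 (n 2 1 (n 4 1 (n 3 3 (n 2 2 e e) e) e) e) e)) (n 6
  3 (n 2 3 (n 3 3 (n 2 2 (n 6 6 e e) (n 2 1 e e)) e) e) e)) e)))))))) (t [0, 3] (t [0, 2] (b (l (n 1
  3 e (n 5 6 e (n 1 4 e (n 2 6 (n 2 4 e (n 2 3 e (n 3 2 e (n 3 3 (n 6 6 e e) e)))) (n 6 4 (n 2 1 (n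
  5 2 e (n 2 4 e (n 3 2 (n 3 2 e (n 3 3 e e)) e))) e) (n 2 1 (n 3 6 (n 5 2 e (n 3 2 e (n 3 6 (n 6 6
  e e) e))) (n 5 2 e (n 2 3 e (n 3 2 (n 2 6 (n 6 6 e e) e) e)))) e))))))) (l (n 1 3 e (n 1 4 e (n 5
  2 e (n 2 6 (n 6 6 (n 2 4 e (n 2 3 e (n 3 2 e (n 3 3 e e)))) e) (n 6 4 (n 2 1 (n 4 2 (n 2 3 e (n 3
  2 e (n 3 3 e e))) e) e) (n 3 6 (n 3 2 e (n 3 6 e (n 2 1 e e))) (n 2 1 (n 2 3 e (n 3 2 (n 6 2 e e)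
  e)) e))))))))))))) (f [0, 4] (b (t [0, 3] (t [0, 1, 4] (b (l (n 1 4 e (n 1 3 e (n 5 2 e (n 2 6 e
  (n 3 2 (n 6 4 (n 2 4 (n 1 2 (n 4 4 (n 2 6 (n 3 3 (n 2 2 e e) (n 6 3 e e)) e) e) e) e) e) e))))))
  (l (n 1 4 e (n 1 3 e (n 5 2 e (n 2 6 e (n 6 4 (n 3 2 (n 2 4 (n 1 2 e (n 4 4 (n 3 1 e (n 3 6 (n 3 3
  e e) e)) e)) e) e) (n 3 2 e (n 6 3 (n 2 1 e (n 3 3 (n 4 2 (n 2 6 e e) e) e)) e))))))))))) (t [0,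
  3] (b (b (l (n 1 3 e (n 1 4 e (n 5 2 e (n 2 6 e (n 6 4 (n 2 3 e (n 1 2 (n 4 1 (n 6 3 e (n 2 6 (n 3
  1 e (n 2 3 e e)) e)) (n 6 3 e (n 2 6 (n 2 4 e (n 3 2 e e)) e))) (n 4 2 (n 3 1 e (n 6 3 e (n 1 2 (n
  2 3 e e) (n 1 1 e e)))) e))) (n 3 6 (n 3 2 e (n 2 1 e (n 6 3 (n 3 2 e (n 3 3 e e)) e))) (n 2 3 e
  (n 3 1 (n 6 2 (n 2 3 (n 1 2 (n 2 4 (n 3 2 e (n 3 6 e e)) e) (n 6 1 e (n 3 6 e (n 3 3 e e)))) e) (n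
  1 2 (n 3 2 (n 6 2 e e) e) e)) (n 6 2 (n 4 3 e (n 2 4 (n 2 1 (n 1 2 e (n 1 6 e e)) (n 2 3 e e)) e))
  (n 6 2 (n 1 2 (n 4 3 (n 3 6 e e) e) e) e))))))))))) (l (n 1 3 e (n 1 4 e (n 5 2 e (n 2 6 e (n 6 4
  (n 3 2 (n 2 4 e (n 1 4 e (n 2 1 (n 3 1 e (n 6 3 e (n 1 2 e (n 1 1 e e)))) e))) e) (n 3 6 (n 3 2 e
  (n 2 1 e (n 3 6 e (n 3 2 e e)))) (n 2 3 e (n 3 1 (n 6 2 (n 2 3 (n 1 2 (n 2 4 (n 3 2 e (n 3 6 e e))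
  e) (n 6 1 e (n 3 6 e (n 3 3 e e)))) e) (n 1 2 (n 3 2 (n 6 2 e e) e) e)) (n 6 2 (n 4 3 e (n 1 2 e
  (n 2 4 (n 1 2 e (n 6 1 e e)) e))) (n 3 4 (n 1 2 (n 6 2 e e) e) (n 6 2 (n 6 3 e (n 1 2 e e)) (n 6 3
  (n 3 2 e e) e)))))))))))))) (b (l (n 1 3 e (n 1 4 e (n 5 2 e (n 2 3 e (n 2 4 e (n 3 6 e (n 1 3 (n
  6 3 e (n 4 6 (n 1 2 (n 2 3 (n 1 6 (n 6 2 e e) e) e) (n 6 2 e e)) e)) (n 2 3 (n 4 1 (n 1 2 (n 6 2 e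
  e) e) (n 6 4 e (n 6 2 e e))) e))))))))) (l (n 1 3 e (n 1 4 e (n 5 2 e (n 2 6 e (n 6 3 (n 2 4 e (n
  1 4 (n 6 2 (n 3 6 (n 3 2 (n 3 2 e (n 4 6 e e)) (n 6 3 e (n 4 3 e (n 4 6 e e)))) e) (n 3 2 (n 4 6 e
  (n 3 2 (n 2 4 (n 4 3 e e) e) e)) e)) (n 3 2 (n 3 2 (n 6 2 e (n 3 1 (n 3 1 e (n 3 6 e e)) (n 3 6 (n
  1 6 (n 6 3 e e) e) (n 3 2 e e)))) e) e))) (n 4 6 (n 2 3 e e) (n 2 4 e (n 3 2 e (n 4 1 e (n 4 3 e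
  (n 6 4 (n 4 2 e e) e)))))))))))))))))))))) z) (b (b (t [0, 1, 5] (t [0, 6] (b (b (b (t [0, 1] (t
  [0, 8] (t [0, 5] (b (l (n 2 2 (n 6 6 (n 3 3 (n 1 4 e (n 5 5 e (n 1 1 e e))) e) e) e)) (l (n 2 3 (n
  6 2 (n 5 6 e (n 2 2 (n 3 3 (n 1 4 e (n 1 6 (n 1 1 (n 6 6 e e) e) e)) e) e)) e) e)))))) (t [0, 6]
  (t [0, 0, 1, 5] (t [0, 5] (b (l (n 3 3 (n 5 6 e (n 2 6 (n 2 4 (n 1 4 (n 6 4 e e) (n 1 2 (n 6 6 (n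
  1 1 (n 2 2 e e) e) e) e)) e) e)) e)) (l (n 5 6 e (n 2 6 (n 2 3 e (n 4 2 e (n 1 4 (n 6 4 e e) (n 3
  3 e (n 6 6 (n 1 2 e (n 1 3 e (n 1 1 e e))) e))))) e)))))))) (b (t [0, 1] (t [0, 2, 5] (t [0, 5] (f
  [0, 2, 3, 5] (l (n 2 3 (n 2 6 e (n 5 6 e (n 3 3 (n 1 4 e (n 1 2 e (n 5 2 e (n 1 6 (n 1 2 e e)
  e)))) e))) e)))))) (t [0, 6] (t [0, 0, 1, 5] (t [0, 5] (b (l (n 3 2 (n 5 6 e (n 2 4 (n 2 6 (n 6 6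
  (n 1 3 e (n 3 5 (n 3 3 e (n 1 4 e (n 2 1 e (n 3 1 e e)))) e)) e) (n 1 4 e (n 1 2 e (n 1 3 e (n 6 1
  e (n 5 2 e (n 3 5 (n 2 1 (n 3 1 e e) e) e))))))) e)) e)) (l (n 5 6 e (n 2 3 e (n 6 2 e (n 4 2 e (n
  3 6 e (n 1 4 e (n 1 3 e (n 5 3 e (n 1 6 (n 1 3 e e) (n 1 2 (n 3 1 (n 6 6 e e) (n 6 3 e e))
  e))))))))))))))))) (b (b (t [0, 1] (t [0, 3] (t [0, 2] (b (l (n 2 2 (n 6 6 (n 3 3 (n 1 4 e (n 5 5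
  e (n 1 1 e e))) e) e) e)) (l (n 1 3 e (n 1 4 e (n 5 2 e (n 2 3 (n 3 3 (n 6 2 (n 2 2 (n 6 6 e e) (n
  2 1 e e)) e) e) e))))))))) (t [0, 6] (t [0, 3] (t [0, 2] (b (l (n 3 3 (n 1 4 e (n 2 4 (n 5 2 e (n
  6 2 (n 2 2 (n 1 1 e (n 6 6 e e)) (n 1 2 e e)) e)) e)) e)) (l (n 1 3 e (n 1 4 e (n 5 2 e (n 2 6 (n
  6 6 (n 2 3 e (n 4 2 e (n 3 3 e e))) e) (n 2 1 (n 3 2 (n 4 2 e (n 6 4 (n 3 3 e e) e)) (n 6 3 e (n 4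
  6 e e))) e))))))))))) (b (t [0, 1] (t [0, 3] (t [0, 5] (f [0, 3] (l (n 1 3 e (n 2 3 (n 1 4 e (n 5
  2 e (n 2 6 e (n 2 1 e (n 6 2 e (n 3 3 e e)))))) e))))))) (t [0, 6] (t [0, 3] (t [0, 5] (b (l (n 1
  4 e (n 1 3 e (n 5 2 e (n 2 6 e (n 3 2 (n 4 2 e (n 1 2 (n 6 4 (n 2 6 (n 3 3 (n 2 2 e e) (n 6 3 e
  e)) e) e) e)) e)))))) (l (n 1 4 e (n 1 3 e (n 5 2 e (n 2 6 e (n 3 2 (n 4 2 e (n 6 4 (n 1 2 e (n 3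
  1 e (n 3 6 (n 3 3 e e) e))) e)) (n 6 3 e (n 4 6 e (n 2 1 e (n 3 2 (n 2 6 e e) e)))))))))))))))))))
  (t [0, 5] (t [0, 6] (b (b (t [0, 3] (t [0, 3] (t [0, 7] (t [0, 4] (b (l (n 2 2 (n 6 6 (n 1 3 e (n
  4 1 (n 5 5 e (n 1 1 (n 3 3 e e) e)) e)) e) e)) (l (n 3 2 e (n 6 2 (n 5 6 e (n 2 2 (n 1 3 e (n 1 4
  e (n 1 6 (n 1 1 (n 6 6 e e) e) e))) e)) e)))))))) (t [0, 3] (t [0, 3] (t [0, 1, 4] (t [0, 4] (f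
  [0, 1, 2, 4] (l (n 3 2 e (n 2 6 e (n 5 6 e (n 1 3 e (n 1 4 e (n 1 2 e (n 5 2 e (n 1 6 (n 1 2 e e)
  e))))))))))))))) (b (t [0, 3] (t [0, 3] (t [0, 2] (t [0, 1] (b (l (n 2 2 (n 6 6 (n 1 3 e (n 1 4 e
  (n 5 5 e (n 3 3 e e)))) e) e)) (l (n 1 3 e (n 1 4 e (n 5 2 e (n 3 2 e (n 6 2 (n 2 2 (n 6 6 e e) (n
  2 1 e e)) e))))))))))) (t [0, 3] (t [0, 3] (t [0, 2] (t [0, 4] (f [0, 2] (l (n 1 3 e (n 3 2 e (n 1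
  4 e (n 5 2 e (n 2 6 e (n 2 1 e (n 6 2 e e)))))))))))))))))) z))))))) z) (b (t [0, 1] (f [0, 2] (f
  [0, 2, 4] (t [0, 1] (t [0, 1] (b (t [0, 1, 1] (t [0, 1] (t [0, 1, 1] (f [0, 3] (b (f [0, 2] (b (t
  [0, 3] (t [0, 3] (b (l (n 3 3 (n 2 4 e (n 5 6 e (n 2 2 (n 6 4 e (n 6 6 e (n 1 4 e (n 1 1 e e))))
  e))) e)) (l (n 5 6 e (n 2 4 e (n 2 3 (n 3 3 (n 6 2 e (n 6 4 e (n 2 2 e (n 1 2 e (n 1 4 e (n 1 1 e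
  e)))))) e) e))))))) (t [0, 1] (t [0, 1] (b (l (n 5 6 e (n 6 2 e (n 2 4 e (n 2 3 e (n 3 2 e (n 3 3
  (n 1 2 e (n 1 4 e (n 1 1 e e))) e))))))) (l (n 5 6 e (n 6 2 e (n 2 4 e (n 2 3 e (n 3 1 (n 3 2 e (n
  3 3 e (n 1 4 e (n 1 1 e e)))) (n 1 2 (n 3 2 e e) e)))))))))))) (t [0, 1] (f [0, 2] (b (t [0, 2] (t
  [0, 2] (b (l (n 3 3 (n 5 6 e (n 6 2 e (n 2 4 e (n 2 2 (n 1 4 e (n 1 1 e e)) e)))) e)) (l (n 5 6 e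
  (n 2 4 e (n 3 2 (n 2 2 (n 1 3 e (n 1 4 e (n 6 3 e (n 6 4 e (n 3 3 e e))))) e) e))))))) (t [0, 1,
  2] (t [0, 1, 2] (b (l (n 2 4 e (n 5 6 e (n 6 2 e (n 2 3 e (n 6 4 e (n 1 3 e (n 3 2 e (n 1 4 e (n 3
  3 e e)))))))))) (l (n 5 6 e (n 2 4 e (n 6 2 e (n 2 3 e (n 6 4 e (n 1 3 e (n 3 2 e (n 1 4 e (n 3 3
  e e))))))))))))))))))))) (t [0, 2] (b (t [0, 1, 3] (f [0, 4] (b (b (t [0, 1] (t [0, 5] (t [0, 5]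
  (b (l (n 2 2 (n 5 6 e (n 3 3 (n 1 4 e (n 1 1 (n 6 6 e e) e)) e)) e)) (l (n 2 3 (n 5 6 e (n 3 3 (n
  1 4 e (n 6 2 e (n 1 2 (n 1 1 (n 2 2 e e) e) e))) e)) e)))))) (t [0, 4] (t [0, 1] (t [0, 5] (b (l
  (n 3 3 (n 5 6 e (n 2 4 (n 1 4 e (n 6 2 e (n 1 2 (n 1 1 (n 2 2 e e) e) e))) e)) e)) (l (n 2 3 e (n
  5 6 e (n 4 2 e (n 1 4 e (n 6 2 e (n 6 3 e (n 3 3 e (n 1 2 e (n 1 3 e (n 1 1 e e)))))))))))))))) (t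
  [0, 1] (b (t [0, 1] (t [0, 2] (t [0, 2] (b (l (n 2 2 (n 5 6 e (n 3 3 (n 1 4 e (n 1 1 e (n 6 6 e
  e))) e)) e)) (l (n 2 3 (n 5 6 e (n 3 3 (n 1 4 e (n 1 2 e (n 6 2 e (n 2 2 e e)))) e)) e)))))) (t
  [0, 4] (t [0, 2] (t [0, 1, 2] (b (l (n 3 3 (n 5 6 e (n 1 4 e (n 2 4 (n 6 2 e (n 1 1 e (n 2 2 e
  e))) e))) e)) (l (n 2 3 e (n 5 6 e (n 1 4 e (n 4 2 e (n 1 3 e (n 6 2 e (n 6 3 e (n 3 3 e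
  e)))))))))))))))))) (t [0, 3] (f [0, 4] (b (t [0, 2] (t [0, 2] (t [0, 4] (t [0, 4] (b (l (n 2 2 (n
  5 6 e (n 1 3 e (n 1 4 (n 3 3 e (n 4 4 (n 6 6 e e) e)) e))) e)) (l (n 3 2 e (n 5 6 e (n 6 2 e (n 1
  3 e (n 1 4 e (n 1 2 (n 1 1 (n 2 2 e e) e) e)))))))))))) (t [0, 1] (t [0, 2] (t [0, 2] (t [0, 1] (t
  [0, 1] (b (l (n 2 2 (n 5 6 e (n 1 3 e (n 1 4 e (n 3 3 e (n 6 6 e e))))) e)) (l (n 5 6 e (n 1 3 e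
  (n 3 2 e (n 1 4 e (n 6 2 e (n 2 2 e e)))))))))))))))))))))))) z)) z)) z)

set_option maxRecDepth 100000 in
theorem f04A : chkQ 6 2 10897286400000 t04A
    (blks.getD 4 ⟨0, 0, 0, 0, 0, .zr, .zr⟩).A = some [-6453615168000, -681080400000, 0] := by
  decide +kernel

end Pool.Agent.TH32
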