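import Pool.Agent.TH32.H.Fast

set_option autoImplicit false

namespace Pool.Agent.TH32

open CT PT

set_option maxRecDepth 100000 in
/-- certificate for block 5 (Ld0R2), tree A -/
def t05A : PT :=
  (b (b (b (t [0, 1] (b (t [0, 1] (b (t [0, 1] (b (t [0, 1, 2] (t [0, 1] (t [0, 1, 2] (t [0, 3] (b
  (b (f [0, 3] (b (t [0, 5] (t [0, 5] (b (l (n 3 3 (n 2 4 e (n 2 2 (n 5 5 (n 1 4 e (n 1 1 e e)) e)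
  e)) e)) (l (n 2 4 e (n 2 3 (n 5 2 (n 2 2 (n 3 3 (n 1 4 e (n 5 1 (n 1 1 (n 5 5 e e) e) e)) e) e) e)
  e)))))) (t [0, 5] (t [0, 5] (b (l (n 2 5 e (n 4 2 (n 2 2 (n 5 3 e (n 3 5 e (n 3 3 (n 1 4 (n 4 5 e
  e) (n 1 5 e (n 1 1 e e))) e))) e) e))) (l (n 2 4 e (n 2 5 (n 2 3 e (n 5 5 (n 3 2 e (n 1 4 (n 4 2
  (n 3 3 e e) e) (n 1 2 (n 3 3 e e) (n 3 1 (n 1 1 (n 3 3 e e) e) e)))) e)) e)))))))) (f [0, 3] (b (t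
  [0, 5] (t [0, 5] (f [0, 1, 2, 3, 5] (l (n 2 4 e (n 2 3 (n 2 5 e (n 3 3 (n 1 4 e (n 1 2 e (n 1 5 (n
  1 2 e e) e))) e)) e)))))) (t [0, 5] (t [0, 5] (b (l (n 2 4 e (n 2 5 e (n 5 3 (n 3 2 (n 1 4 e (n 1
  3 e (n 5 1 e (n 1 2 (n 2 2 (n 3 3 (n 5 1 e (n 5 5 e e)) e) e) (n 1 2 (n 5 2 (n 3 1 e (n 3 3 e e))
  e) e))))) e) (n 3 5 e (n 3 2 e (n 1 4 (n 5 4 e (n 2 5 (n 3 2 e (n 3 3 e e)) e)) (n 1 2 (n 2 5 (n 3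
  1 e (n 3 2 e e)) e) (n 3 2 (n 1 3 e (n 1 5 e e)) (n 3 3 (n 1 2 e (n 1 5 e (n 1 1 e e)))
  e)))))))))) (l (n 2 4 e (n 2 5 e (n 3 5 (n 1 4 (n 3 5 e (n 5 4 e (n 3 2 e (n 3 2 e (n 5 2 e e)))))
  (n 3 5 e (n 3 2 e (n 1 2 (n 5 2 e (n 3 1 e (n 2 3 e e))) (n 3 2 e (n 1 2 e (n 1 3 e (n 1 5 e
  e)))))))) (n 2 3 e (n 5 2 e (n 1 4 e (n 1 3 e (n 1 2 e (n 1 3 e (n 5 1 e (n 3 5 (n 1 2 (n 3 2 (n 5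
  2 e e) e) e) e)))))))))))))))))) (b (f [0, 3] (b (t [0, 2] (t [0, 2] (b (l (n 3 3 (n 1 4 e (n 2 4
  e (n 2 2 (n 5 5 (n 1 1 e e) e) e))) e)) (l (n 1 3 e (n 1 4 e (n 2 4 e (n 2 3 (n 2 5 (n 5 5 (n 3 3
  (n 2 2 e e) e) e) (n 2 1 (n 3 3 e e) e)) e)))))))) (t [0, 2] (t [0, 2] (b (l (n 1 3 e (n 2 5 e (n
  2 1 (n 4 2 (n 5 3 (n 2 3 e (n 3 2 (n 5 2 e (n 5 5 e e)) (n 3 3 (n 5 5 e e) e))) (n 3 2 e (n 3 5 (n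
  5 5 (n 1 1 (n 2 2 e e) e) e) e))) e) e)))) (l (n 1 3 e (n 2 5 e (n 2 1 (n 4 2 (n 3 5 (n 3 2 e (n 5
  3 (n 2 2 (n 1 1 e (n 5 5 e e)) e) e)) (n 2 3 e (n 2 2 e (n 3 2 (n 5 2 e e) e)))) e) e))))))))) (f
  [0, 3] (b (t [0, 5] (t [0, 5] (f [0, 1, 2, 3, 5] (l (n 1 3 e (n 1 4 e (n 2 4 e (n 2 3 (n 2 5 e (n
  2 1 e (n 5 2 e (n 3 3 e e)))) e)))))))) (t [0, 5] (t [0, 5] (b (l (n 1 3 e (n 1 4 e (n 2 4 e (n 2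
  5 e (n 3 2 (n 2 1 (n 3 1 e (n 5 3 e (n 1 2 e (n 5 1 (n 1 3 e (n 1 1 e e)) e)))) (n 3 5 e e)) (n 5
  3 e (n 3 5 (n 5 2 (n 1 5 (n 2 1 (n 2 2 (n 5 5 e e) e) (n 3 2 (n 2 3 e e) e)) e) e) e)))))))) (l (n
  1 3 e (n 1 4 e (n 2 4 e (n 2 5 e (n 3 2 (n 2 1 (n 3 1 e (n 1 2 e (n 1 5 e (n 5 3 e e)))) e) (n 5 3
  e (n 2 1 e (n 1 5 (n 3 5 e (n 1 2 (n 2 3 e (n 5 2 (n 2 5 e e) e)) e)) (n 3 2 (n 2 5 e e)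
  e))))))))))))))))))))) (t [0, 2] (b (t [0, 1, 3] (t [0, 4] (b (b (b (t [0, 1] (t [0, 6] (t [0, 6]
  (f [0, 7] (l (n 2 3 (n 5 2 (n 3 3 (n 1 2 e (n 4 1 (n 2 4 e (n 2 2 (n 1 5 e e) e)) e)) e) e)
  e)))))) (t [0, 5] (t [0, 6] (t [0, 6] (f [0, 5, 7] (l (n 2 3 e (n 4 2 e (n 5 3 (n 1 2 e (n 3 4 e
  (n 3 3 (n 1 4 e (n 1 4 e (n 1 5 e e))) e))) e))))))))) (b (t [0, 1] (t [0, 6] (t [0, 6] (l (n 2 3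
  (n 5 2 (n 3 3 (n 1 2 e (n 2 4 e (n 4 1 (n 1 5 (n 2 1 (n 2 2 e e) e) e) e))) e) e) e))))) (t [0, 5]
  (t [0, 6] (t [0, 6] (f [0, 5] (l (n 2 3 e (n 4 2 e (n 5 3 (n 1 2 e (n 1 3 e (n 3 4 e (n 4 1 (n 1 5
  (n 3 1 (n 3 3 e e) e) e) e)))) e)))))))))) (b (b (t [0, 1] (t [0, 2] (t [0, 2] (f [0, 7] (l (n 1 3
  e (n 2 3 (n 2 5 e (n 2 1 (n 4 2 (n 3 3 (n 1 1 (n 2 2 e e) e) e) e) e)) e))))))) (t [0, 5] (t [0,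
  2] (t [0, 2] (f [0, 5, 7] (l (n 1 3 e (n 1 4 e (n 2 4 e (n 3 2 e (n 5 2 (n 4 3 e (n 2 1 e (n 2 2 e
  e))) e))))))))))) (b (t [0, 1] (t [0, 6] (t [0, 6] (f [0, 3] (l (n 1 3 e (n 2 3 (n 2 5 e (n 2 1 e
  (n 1 4 e (n 5 2 e (n 3 3 e e))))) e))))))) (t [0, 5] (t [0, 6] (t [0, 6] (f [0, 3, 5] (l (n 1 3 e
  (n 1 4 e (n 2 4 e (n 3 2 e (n 2 5 e (n 4 3 e (n 2 1 e (n 5 2 e e)))))))))))))))))) (t [0, 3] (t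
  [0, 4] (b (b (t [0, 3] (t [0, 3] (t [0, 5] (t [0, 5] (f [0, 6] (l (n 3 2 e (n 5 2 (n 1 3 e (n 1 2
  e (n 4 1 (n 2 4 e (n 2 2 (n 1 5 e e) e)) e))) e)))))))) (t [0, 3] (t [0, 3] (t [0, 5] (t [0, 5] (l
  (n 3 2 e (n 2 5 e (n 1 3 e (n 1 2 e (n 1 2 e (n 2 4 e (n 5 1 e (n 2 5 e e)))))))))))))) (b (t [0,
  3] (t [0, 3] (t [0, 1] (t [0, 1] (f [0, 6] (l (n 1 3 e (n 3 2 e (n 2 5 e (n 1 4 e (n 4 2 (n 2 1 e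
  (n 2 2 e e)) e))))))))))) (t [0, 3] (t [0, 3] (t [0, 5] (t [0, 5] (f [0, 2] (l (n 1 3 e (n 3 2 e
  (n 2 5 e (n 2 1 e (n 1 4 e (n 5 2 e e)))))))))))))))))))) z)) (t [0, 3] (t [0, 2] (t [0, 2] (b (t
  [0, 1, 3] (t [0, 1] (t [0, 1, 2, 3] (f [0, 2] (b (f [0, 2] (b (t [0, 4, 5] (t [0, 5] (b (l (n 3 3
  (n 2 4 e (n 2 2 (n 5 5 e (n 5 4 (n 4 1 (n 1 5 e (n 1 1 e e)) e) e)) e)) e)) (l (n 2 4 e (n 2 3 (n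
  5 2 e (n 3 3 (n 5 4 (n 4 1 (n 2 2 e (n 1 2 e (n 1 5 e (n 1 1 e e)))) e) e) e)) e)))))) (t [0, 4,
  5] (t [0, 5] (b (l (n 2 4 e (n 5 2 e (n 2 3 e (n 3 2 e (n 5 4 (n 3 3 (n 1 4 (n 4 2 e (n 4 4 e e))
  (n 1 2 e (n 1 5 e e))) e) e)))))) (l (n 2 4 e (n 5 2 e (n 2 3 e (n 3 2 e (n 5 4 (n 3 3 e (n 4 1 (n
  1 2 e (n 1 3 e (n 1 5 e (n 1 1 e e)))) (n 4 2 e e))) e))))))))))) (t [0, 1] (f [0, 2] (b (t [0, 2,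
  4] (t [0, 2] (b (l (n 3 3 (n 1 4 e (n 2 4 e (n 2 2 (n 1 1 e (n 5 5 e (n 5 4 e e))) e))) e)) (l (n
  2 4 e (n 2 3 (n 5 2 e (n 3 3 (n 1 4 e (n 1 2 e (n 5 4 (n 2 2 e e) e))) e)) e)))))) (t [0, 2, 4] (t
  [0, 2] (b (l (n 2 4 e (n 1 3 e (n 1 4 e (n 5 2 e (n 2 3 e (n 3 2 e (n 5 4 (n 3 3 e e) e)))))))) (l
  (n 2 4 e (n 1 3 e (n 1 4 e (n 5 2 e (n 2 3 e (n 3 2 e (n 5 4 (n 3 3 e e) e))))))))))))))))))) (t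
  [0, 3] (b (t [0, 1, 3, 4] (f [0, 3] (b (b (t [0, 1] (t [0, 5, 6] (t [0, 6] (b (l (n 2 2 (n 3 3 (n
  5 5 (n 1 4 e (n 1 1 e e)) e) e) e)) (l (n 2 3 (n 5 2 (n 3 3 (n 1 2 e (n 4 1 (n 1 5 (n 2 4 (n 1 1
  (n 2 2 (n 5 5 e e) e) e) e) e) e)) e) e) e)))))) (t [0, 4] (t [0, 5, 6] (t [0, 6] (b (l (n 3 3 (n
  2 4 (n 5 2 (n 1 2 e (n 4 1 (n 1 5 (n 1 1 (n 2 2 (n 5 5 e e) e) e) e) e)) e) e) e)) (l (n 2 3 e (n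
  4 2 e (n 1 4 (n 5 3 e (n 5 2 e e)) (n 1 2 (n 5 3 e (n 2 5 (n 5 1 (n 3 3 e e) e) e)) (n 3 5 (n 1 3
  (n 5 2 (n 1 1 (n 3 3 e e) e) (n 5 5 (n 1 1 (n 3 3 e e) e) e)) e) (n 1 3 e (n 4 3 e (n 1 5 e
  e)))))))))))))) (t [0, 1] (b (t [0, 1] (t [0, 2, 5] (t [0, 2] (b (l (n 2 2 (n 3 3 (n 1 4 e (n 1 1
  e (n 5 5 e e))) e) e)) (l (n 1 3 e (n 2 3 (n 1 4 e (n 5 2 (n 2 4 (n 3 3 (n 2 2 (n 5 5 e e) e) e)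
  e) e)) e))))))) (t [0, 4] (t [0, 2, 5] (t [0, 2] (b (l (n 3 3 (n 2 4 (n 1 2 e (n 1 4 e (n 5 2 (n 2
  2 (n 5 5 e e) e) e))) e) e)) (l (n 1 3 e (n 1 4 e (n 2 3 e (n 4 2 e (n 3 5 (n 3 3 e (n 5 2 e (n 5
  5 e e))) (n 4 3 e e)))))))))))))))) (t [0, 3, 4] (f [0, 3] (b (t [0, 2] (t [0, 2] (t [0, 4, 5] (t
  [0, 5] (b (l (n 2 2 (n 5 5 (n 1 3 e (n 1 4 (n 3 3 e (n 4 4 e e)) e)) e) e)) (l (n 3 2 e (n 5 2 (n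
  1 2 e (n 1 3 e (n 4 1 (n 1 5 (n 2 4 (n 1 1 (n 2 2 (n 5 5 e e) e) e) e) e) e))) e)))))))) (t [0, 1]
  (t [0, 2] (t [0, 2] (t [0, 1, 4] (t [0, 1] (b (l (n 2 2 (n 1 3 e (n 1 4 e (n 3 3 e (n 5 5 e e))))
  e)) (l (n 1 3 e (n 3 2 e (n 1 4 e (n 5 2 (n 2 2 (n 5 5 e e) (n 4 2 e e)) e))))))))))))))))))))))
  z) (b (t [0, 1] (f [0, 2] (f [0, 2] (t [0, 1] (t [0, 1] (b (t [0, 1, 1] (t [0, 1] (t [0, 1, 1] (f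
  [0, 3] (b (f [0, 2] (b (t [0, 3] (t [0, 3] (b (l (n 3 3 (n 5 2 e (n 2 4 e (n 2 2 (n 1 4 e (n 1 1 e
  e)) e))) e)) (l (n 2 4 e (n 2 3 (n 3 3 (n 5 2 e (n 5 4 e (n 2 2 e (n 1 2 e (n 1 4 e (n 1 1 e
  e)))))) e) e)))))) (t [0, 1] (t [0, 1] (b (l (n 5 2 e (n 2 4 e (n 2 3 e (n 3 2 e (n 3 3 (n 1 2 e
  (n 1 4 e (n 1 1 e e))) e)))))) (l (n 5 2 e (n 2 4 e (n 2 3 e (n 3 1 (n 3 2 e (n 3 3 e (n 1 4 e (n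
  1 1 e e)))) (n 1 2 (n 3 2 e e) e))))))))))) (t [0, 1] (f [0, 2] (b (t [0, 2] (t [0, 2] (b (l (n 3
  3 (n 5 2 e (n 2 4 e (n 2 2 (n 1 4 e (n 1 1 e e)) e))) e)) (l (n 2 4 e (n 3 2 (n 2 2 (n 1 3 e (n 1
  4 e (n 5 3 e (n 5 4 e (n 3 3 e e))))) e) e)))))) (t [0, 1, 2] (t [0, 1, 2] (b (l (n 2 4 e (n 5 2 e
  (n 2 3 e (n 5 4 e (n 1 3 e (n 3 2 e (n 1 4 e (n 3 3 e e))))))))) (l (n 2 4 e (n 5 2 e (n 2 3 e (n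
  5 4 e (n 1 3 e (n 3 2 e (n 1 4 e (n 3 3 e e)))))))))))))))))))) (t [0, 2] (b (t [0, 1, 3] (f [0,
  4] (b (b (t [0, 1] (t [0, 5] (t [0, 5] (b (l (n 2 2 (n 3 3 (n 1 4 e (n 1 1 (n 5 5 e e) e)) e) e))
  (l (n 2 3 (n 3 3 (n 1 4 e (n 5 2 e (n 1 2 (n 1 1 (n 2 2 e e) e) e))) e) e)))))) (t [0, 4] (t [0,
  1] (t [0, 5] (b (l (n 3 3 (n 2 4 (n 1 4 e (n 5 2 e (n 1 2 (n 1 1 (n 2 2 e e) e) e))) e) e)) (l (n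
  2 3 e (n 4 2 e (n 1 4 e (n 5 2 e (n 5 3 e (n 3 3 e (n 1 2 e (n 1 3 e (n 1 1 e e))))))))))))))) (t
  [0, 1] (b (t [0, 1] (t [0, 2] (t [0, 2] (b (l (n 2 2 (n 3 3 (n 1 4 e (n 1 1 e (n 5 5 e e))) e) e))
  (l (n 2 3 (n 3 3 (n 1 4 e (n 1 2 e (n 5 2 e (n 2 2 e e)))) e) e)))))) (t [0, 4] (t [0, 2] (t [0,
  1, 2] (b (l (n 3 3 (n 1 4 e (n 2 4 (n 5 2 e (n 1 1 e (n 2 2 e e))) e)) e)) (l (n 2 3 e (n 1 4 e (n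
  4 2 e (n 1 3 e (n 5 2 e (n 5 3 e (n 3 3 e e))))))))))))))))) (t [0, 3] (f [0, 4] (b (t [0, 2] (t
  [0, 2] (t [0, 4] (t [0, 4] (b (l (n 2 2 (n 1 3 e (n 1 4 (n 3 3 e (n 4 4 (n 5 5 e e) e)) e)) e)) (l
  (n 3 2 e (n 5 2 e (n 1 3 e (n 1 4 e (n 1 2 (n 1 1 (n 2 2 e e) e) e))))))))))) (t [0, 1] (t [0, 2]
  (t [0, 2] (t [0, 1] (t [0, 1] (b (l (n 2 2 (n 1 3 e (n 1 4 e (n 3 3 e (n 5 5 e e)))) e)) (l (n 1 3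
  e (n 3 2 e (n 1 4 e (n 5 2 e (n 2 2 e e))))))))))))))))))))))) z)) z)

set_option maxRecDepth 100000 in
theorem f05A : chkQ 5 1 10897286400000 t05A
    (blks.getD 5 ⟨0, 0, 0, 0, 0, .zr, .zr⟩).A = some [2270268000000, 681080400000, 0] := by
  decide +kernel

end Pool.Agent.TH32
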