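import Pool.Agent.TH32.H.Fast

set_option autoImplicit false

namespace Pool.Agent.TH32

open CT PT

set_option maxRecDepth 100000 in
/-- certificate for block 5 (Ld0R2), tree B -/
def t05B : PT :=
  (b (b (b (t [0, 1] (b (t [0, 1] (b (t [0, 1] (b (t [0, 1, 2] (t [0, 1] (t [0, 1, 2] (t [0, 3] (b
  (b (f [0, 3] (b (t [0, 5] (t [0, 5] (b (l (n 2 4 e (n 2 3 (n 5 2 (n 2 2 (n 3 3 (n 1 4 e (n 5 1 (n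
  1 1 (n 5 5 e e) e) e)) e) e) e) e))) z))) (t [0, 5] (t [0, 5] (b (l (n 2 4 e (n 2 5 (n 2 3 e (n 5
  5 (n 3 2 e (n 1 4 (n 4 2 (n 3 3 e e) e) (n 1 2 (n 3 3 e e) (n 3 1 (n 1 1 (n 3 3 e e) e) e)))) e))
  e))) z))))) (f [0, 3] (b (t [0, 5] (t [0, 5] (t [0, 1, 2, 3, 5] (l (n 2 4 e (n 2 3 (n 2 5 e (n 3 3
  (n 1 4 e (n 1 2 e (n 1 5 (n 1 2 e e) e))) e)) e)))))) (t [0, 5] (t [0, 5] (b (l (n 2 4 e (n 2 5 e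
  (n 3 5 (n 1 4 (n 3 5 e (n 5 4 e (n 3 2 e (n 3 2 e (n 5 2 e e))))) (n 3 5 e (n 3 2 e (n 1 2 (n 5 2
  e (n 3 1 e (n 2 3 e e))) (n 3 2 e (n 1 2 e (n 1 3 e (n 1 5 e e)))))))) (n 2 3 e (n 5 2 e (n 1 4 e
  (n 1 3 e (n 1 2 e (n 1 3 e (n 5 1 e (n 3 5 (n 1 2 (n 3 2 (n 5 2 e e) e) e) e)))))))))))) z))))))
  (b (f [0, 3] (b (t [0, 2] (t [0, 2] (b (l (n 1 3 e (n 1 4 e (n 2 4 e (n 2 3 (n 2 5 (n 5 5 (n 3 3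
  (n 2 2 e e) e) e) (n 2 1 (n 3 3 e e) e)) e))))) z))) (t [0, 2] (t [0, 2] (b (l (n 1 3 e (n 2 5 e
  (n 2 1 (n 4 2 (n 3 5 (n 3 2 e (n 5 3 (n 2 2 (n 1 1 e (n 5 5 e e)) e) e)) (n 2 3 e (n 2 2 e (n 3 2
  (n 5 2 e e) e)))) e) e)))) z))))) (f [0, 3] (b (t [0, 5] (t [0, 5] (t [0, 1, 2, 3, 5] (l (n 1 3 e
  (n 1 4 e (n 2 4 e (n 2 3 (n 2 5 e (n 2 1 e (n 5 2 e (n 3 3 e e)))) e)))))))) (t [0, 5] (t [0, 5]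
  (b (l (n 1 3 e (n 1 4 e (n 2 4 e (n 2 5 e (n 3 2 (n 2 1 (n 3 1 e (n 1 2 e (n 1 5 e (n 5 3 e e))))
  e) (n 5 3 e (n 2 1 e (n 1 5 (n 3 5 e (n 1 2 (n 2 3 e (n 5 2 (n 2 5 e e) e)) e)) (n 3 2 (n 2 5 e e)
  e)))))))))) z))))))))))) (t [0, 2] (b (t [0, 1, 3] (t [0, 4] (b (b (b (t [0, 1] (t [0, 6] (t [0,
  6] (t [0, 7] (l (n 2 3 (n 5 2 (n 3 3 (n 1 2 e (n 4 1 (n 2 4 e (n 2 2 (n 1 5 e e) e)) e)) e) e)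
  e)))))) (t [0, 5] (t [0, 6] (t [0, 6] (t [0, 5, 7] (l (n 2 3 e (n 4 2 e (n 5 3 (n 1 2 e (n 3 4 e
  (n 3 3 (n 1 4 e (n 1 4 e (n 1 5 e e))) e))) e))))))))) (b (t [0, 1] (t [0, 6] (t [0, 6] (l (n 2 3
  (n 5 2 (n 3 3 (n 1 2 e (n 2 4 e (n 4 1 (n 1 5 (n 2 1 (n 2 2 e e) e) e) e))) e) e) e))))) (t [0, 5]
  (t [0, 6] (t [0, 6] (t [0, 5] (l (n 2 3 e (n 4 2 e (n 5 3 (n 1 2 e (n 1 3 e (n 3 4 e (n 4 1 (n 1 5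
  (n 3 1 (n 3 3 e e) e) e) e)))) e)))))))))) (b (b (t [0, 1] (t [0, 2] (t [0, 2] (t [0, 7] (l (n 1 3
  e (n 2 3 (n 2 5 e (n 2 1 (n 4 2 (n 3 3 (n 1 1 (n 2 2 e e) e) e) e) e)) e))))))) (t [0, 5] (t [0,
  2] (t [0, 2] (t [0, 5, 7] (l (n 1 3 e (n 1 4 e (n 2 4 e (n 3 2 e (n 5 2 (n 4 3 e (n 2 1 e (n 2 2 e
  e))) e))))))))))) (b (t [0, 1] (t [0, 6] (t [0, 6] (t [0, 3] (l (n 1 3 e (n 2 3 (n 2 5 e (n 2 1 e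
  (n 1 4 e (n 5 2 e (n 3 3 e e))))) e))))))) (t [0, 5] (t [0, 6] (t [0, 6] (t [0, 3, 5] (l (n 1 3 e
  (n 1 4 e (n 2 4 e (n 3 2 e (n 2 5 e (n 4 3 e (n 2 1 e (n 5 2 e e)))))))))))))))))) (t [0, 3] (t
  [0, 4] (b (b (t [0, 3] (t [0, 3] (t [0, 5] (t [0, 5] (t [0, 6] (l (n 3 2 e (n 5 2 (n 1 3 e (n 1 2
  e (n 4 1 (n 2 4 e (n 2 2 (n 1 5 e e) e)) e))) e)))))))) (t [0, 3] (t [0, 3] (t [0, 5] (t [0, 5] (l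
  (n 3 2 e (n 2 5 e (n 1 3 e (n 1 2 e (n 1 2 e (n 2 4 e (n 5 1 e (n 2 5 e e)))))))))))))) (b (t [0,
  3] (t [0, 3] (t [0, 1] (t [0, 1] (t [0, 6] (l (n 1 3 e (n 3 2 e (n 2 5 e (n 1 4 e (n 4 2 (n 2 1 e
  (n 2 2 e e)) e))))))))))) (t [0, 3] (t [0, 3] (t [0, 5] (t [0, 5] (t [0, 2] (l (n 1 3 e (n 3 2 e
  (n 2 5 e (n 2 1 e (n 1 4 e (n 5 2 e e)))))))))))))))))))) z)) (t [0, 3] (t [0, 2] (t [0, 2] (b (t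
  [0, 1, 3] (t [0, 1] (t [0, 1, 2, 3] (f [0, 2] (b (f [0, 2] (b (t [0, 4, 5] (t [0, 5] (b (l (n 2 4
  e (n 2 3 (n 5 2 e (n 3 3 (n 5 4 (n 4 1 (n 2 2 e (n 1 2 e (n 1 5 e (n 1 1 e e)))) e) e) e)) e)))
  z))) (t [0, 4, 5] (t [0, 5] (b (l (n 2 4 e (n 5 2 e (n 2 3 e (n 3 2 e (n 5 4 (n 3 3 e (n 4 1 (n 1
  2 e (n 1 3 e (n 1 5 e (n 1 1 e e)))) (n 4 2 e e))) e)))))) z))))) (t [0, 1] (f [0, 2] (b (t [0, 2,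
  4] (t [0, 2] (b (l (n 2 4 e (n 2 3 (n 5 2 e (n 3 3 (n 1 4 e (n 1 2 e (n 5 4 (n 2 2 e e) e))) e))
  e))) z))) (t [0, 2, 4] (t [0, 2] (b (l (n 2 4 e (n 1 3 e (n 1 4 e (n 5 2 e (n 2 3 e (n 3 2 e (n 5
  4 (n 3 3 e e) e)))))))) z))))))))))) (t [0, 3] (b (t [0, 1, 3, 4] (f [0, 3] (b (b (t [0, 1] (t [0,
  5, 6] (t [0, 6] (b (l (n 2 3 (n 5 2 (n 3 3 (n 1 2 e (n 4 1 (n 1 5 (n 2 4 (n 1 1 (n 2 2 (n 5 5 e e)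
  e) e) e) e) e)) e) e) e)) z)))) (t [0, 4] (t [0, 5, 6] (t [0, 6] (b (l (n 2 3 e (n 4 2 e (n 1 4 (n
  5 3 e (n 5 2 e e)) (n 1 2 (n 5 3 e (n 2 5 (n 5 1 (n 3 3 e e) e) e)) (n 3 5 (n 1 3 (n 5 2 (n 1 1 (n
  3 3 e e) e) (n 5 5 (n 1 1 (n 3 3 e e) e) e)) e) (n 1 3 e (n 4 3 e (n 1 5 e e))))))))) z))))) (t
  [0, 1] (b (t [0, 1] (t [0, 2, 5] (t [0, 2] (b (l (n 1 3 e (n 2 3 (n 1 4 e (n 5 2 (n 2 4 (n 3 3 (n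
  2 2 (n 5 5 e e) e) e) e) e)) e))) z)))) (t [0, 4] (t [0, 2, 5] (t [0, 2] (b (l (n 1 3 e (n 1 4 e
  (n 2 3 e (n 4 2 e (n 3 5 (n 3 3 e (n 5 2 e (n 5 5 e e))) (n 4 3 e e))))))) z))))))))) (t [0, 3, 4]
  (f [0, 3] (b (t [0, 2] (t [0, 2] (t [0, 4, 5] (t [0, 5] (b (l (n 3 2 e (n 5 2 (n 1 2 e (n 1 3 e (n
  4 1 (n 1 5 (n 2 4 (n 1 1 (n 2 2 (n 5 5 e e) e) e) e) e) e))) e))) z))))) (t [0, 1] (t [0, 2] (t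
  [0, 2] (t [0, 1, 4] (t [0, 1] (b (l (n 1 3 e (n 3 2 e (n 1 4 e (n 5 2 (n 2 2 (n 5 5 e e) (n 4 2 e
  e)) e))))) z))))))))))))))))) z) (b (t [0, 1] (f [0, 2] (f [0, 2] (t [0, 1] (t [0, 1] (b (t [0, 1,
  1] (t [0, 1] (t [0, 1, 1] (f [0, 3] (b (f [0, 2] (b (t [0, 3] (t [0, 3] (b (l (n 2 4 e (n 2 3 (n 3
  3 (n 5 2 e (n 5 4 e (n 2 2 e (n 1 2 e (n 1 4 e (n 1 1 e e)))))) e) e))) z))) (t [0, 1] (t [0, 1]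
  (b (l (n 5 2 e (n 2 4 e (n 2 3 e (n 3 1 (n 3 2 e (n 3 3 e (n 1 4 e (n 1 1 e e)))) (n 1 2 (n 3 2 e
  e) e)))))) z))))) (t [0, 1] (f [0, 2] (b (t [0, 2] (t [0, 2] (b (l (n 2 4 e (n 3 2 (n 2 2 (n 1 3 e
  (n 1 4 e (n 5 3 e (n 5 4 e (n 3 3 e e))))) e) e))) z))) (t [0, 1, 2] (t [0, 1, 2] (b (l (n 2 4 e
  (n 5 2 e (n 2 3 e (n 5 4 e (n 1 3 e (n 3 2 e (n 1 4 e (n 3 3 e e))))))))) z))))))))))) (t [0, 2]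
  (b (t [0, 1, 3] (f [0, 4] (b (b (t [0, 1] (t [0, 5] (t [0, 5] (b (l (n 2 3 (n 3 3 (n 1 4 e (n 5 2
  e (n 1 2 (n 1 1 (n 2 2 e e) e) e))) e) e)) z)))) (t [0, 4] (t [0, 1] (t [0, 5] (b (l (n 2 3 e (n 4
  2 e (n 1 4 e (n 5 2 e (n 5 3 e (n 3 3 e (n 1 2 e (n 1 3 e (n 1 1 e e)))))))))) z))))) (t [0, 1] (b
  (t [0, 1] (t [0, 2] (t [0, 2] (b (l (n 2 3 (n 3 3 (n 1 4 e (n 1 2 e (n 5 2 e (n 2 2 e e)))) e) e))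
  z)))) (t [0, 4] (t [0, 2] (t [0, 1, 2] (b (l (n 2 3 e (n 1 4 e (n 4 2 e (n 1 3 e (n 5 2 e (n 5 3 e
  (n 3 3 e e)))))))) z))))))))) (t [0, 3] (f [0, 4] (b (t [0, 2] (t [0, 2] (t [0, 4] (t [0, 4] (b (l
  (n 3 2 e (n 5 2 e (n 1 3 e (n 1 4 e (n 1 2 (n 1 1 (n 2 2 e e) e) e)))))) z))))) (t [0, 1] (t [0,
  2] (t [0, 2] (t [0, 1] (t [0, 1] (b (l (n 1 3 e (n 3 2 e (n 1 4 e (n 5 2 e (n 2 2 e e))))))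
  z))))))))))))))))) z)) z)

set_option maxRecDepth 100000 in
theorem f05B : chkQ 5 2 10897286400000 t05B
    (blks.getD 5 ⟨0, 0, 0, 0, 0, .zr, .zr⟩).B = some [-1078377300000, -170270100000, 0] := by
  decide +kernel

end Pool.Agent.TH32
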