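import Pool.Agent.TH32.H.Fast

set_option autoImplicit false

namespace Pool.Agent.TH32

open CT PT

set_option maxRecDepth 100000 in
/-- certificate for block 6 (Ld0R3), tree A -/
def t06A : PT :=
  (b (b (b (t [0, 1] (b (t [0, 1] (b (t [0, 1] (b (t [0, 1, 2] (t [0, 1] (b (t [0, 4] (b (f [0, 5]
  (f [0, 3] (b (b (t [0, 1] (f [0, 1, 2, 3, 7] (l (n 2 4 e (n 2 3 (n 5 2 (n 3 3 (n 1 4 e (n 2 1 (n 1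
  5 (n 2 1 (n 2 6 e e) e) e) e)) e) e) e))))) (t [0, 6] (t [0, 1, 2] (l (n 2 3 e (n 2 4 (n 5 3 (n 4
  4 (n 1 2 e (n 3 1 (n 3 1 e (n 3 6 (n 1 5 (n 3 2 (n 6 1 e e) e) e) e)) e)) e) e) e)))))) (b (t [0,
  1] (b (l (n 2 4 e (n 1 4 (n 5 2 (n 5 3 e (n 3 5 e (n 4 5 (n 2 5 (n 2 3 (n 2 6 e (n 3 2 e (n 3 6 e
  e))) e) e) e))) e) (n 2 3 e (n 5 3 (n 1 3 e (n 5 1 e (n 2 1 (n 3 1 (n 3 6 (n 6 2 (n 1 2 (n 3 2 (n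
  5 2 e (n 5 6 e e)) (n 3 6 (n 5 6 e e) e)) (n 1 6 (n 3 6 (n 5 6 e e) e) e)) e) (n 1 2 (n 3 2 (n 5 2
  (n 6 2 e e) e) e) e)) e) e))) (n 3 2 e (n 2 5 e (n 2 1 (n 6 2 (n 3 2 (n 1 3 e (n 1 5 e (n 1 1 e
  e))) (n 3 6 (n 1 2 e (n 1 3 e (n 1 5 e (n 1 1 e e)))) e)) e) (n 6 2 (n 5 2 e (n 6 5 (n 3 1 e (n 3
  2 e (n 3 6 e e))) e)) (n 5 2 e (n 6 1 (n 3 1 e (n 3 2 e (n 3 6 e e))) e))))))))))) (l (n 2 4 e (n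
  1 4 (n 5 2 (n 5 3 e (n 3 5 e (n 4 5 (n 2 5 (n 3 2 e (n 2 3 (n 2 6 e e) e)) e) e))) e) (n 2 3 e (n
  5 3 (n 1 3 e (n 5 1 e (n 2 1 (n 3 1 (n 6 2 (n 1 2 (n 3 2 (n 5 2 e (n 5 6 e e)) (n 3 6 (n 5 6 e e)
  e)) (n 1 6 (n 3 6 (n 5 6 e e) e) e)) (n 3 6 e (n 1 2 (n 3 2 (n 5 2 (n 6 2 e e) e) e) e))) e) e)))
  (n 3 2 e (n 5 2 (n 3 2 e (n 2 1 (n 2 6 e (n 1 2 e (n 1 3 e (n 1 5 e (n 1 6 e e))))) (n 2 5 (n 1 6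
  (n 6 2 e e) e) e))) e))))))))) (t [0, 6] (b (l (n 2 3 e (n 2 4 e (n 3 5 (n 3 2 e (n 5 2 (n 1 4 (n
  5 4 e (n 5 2 (n 2 6 (n 5 3 (n 6 5 e e) e) e) e)) (n 1 2 (n 5 2 (n 2 6 (n 1 3 (n 5 3 (n 1 6 (n 6 5
  e e) e) e) e) e) e) e)) e)) (n 1 3 e (n 1 3 e (n 1 4 (n 6 2 e (n 4 3 (n 4 6 (n 5 2 (n 2 4 (n 3 5
  (n 6 3 e e) e) e) (n 3 2 (n 6 3 e e) (n 3 5 (n 6 2 e (n 6 3 e e)) e))) e) e)) (n 5 2 e (n 1 2 (n 2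
  6 (n 1 5 (n 1 3 (n 2 3 (n 3 5 (n 2 6 (n 3 6 (n 6 1 e (n 6 1 e e)) e) e) e) (n 3 6 (n 6 1 e (n 6 1
  e e)) e)) (n 6 1 e (n 6 3 e (n 6 3 e e)))) e) e) e))))))))) (l (n 2 3 e (n 2 4 e (n 1 4 (n 5 3 e
  (n 3 2 e (n 2 5 e (n 5 4 e (n 2 5 e (n 2 6 (n 3 5 (n 6 3 e (n 6 5 e e)) e) e)))))) (n 5 3 (n 3 1
  (n 3 1 (n 5 2 (n 1 5 (n 2 6 (n 5 6 (n 3 5 (n 3 2 e (n 1 6 (n 6 2 e (n 6 3 e e)) e)) e) e) e) e) (n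
  1 2 (n 2 6 (n 1 5 e (n 3 5 (n 1 6 (n 5 6 (n 6 3 e (n 6 3 e e)) e) e) (n 3 2 (n 1 6 (n 3 6 (n 6 5 e
  (n 6 5 e (n 6 6 e e))) e) e) e))) e) e)) (n 6 2 e (n 3 6 (n 2 3 e (n 5 2 (n 1 5 (n 3 4 (n 1 2 e (n
  6 1 e (n 6 2 e e))) e) e) e)) e))) e) (n 3 2 e (n 2 5 e (n 2 1 e (n 5 2 (n 2 6 (n 1 3 (n 3 5 (n 1
  6 (n 6 3 e (n 6 5 e e)) e) e) (n 1 6 (n 6 3 e (n 6 5 e (n 6 6 e e))) e)) e) e))))))))))))))) (b (f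
  [0, 4] (b (t [0, 2] (t [0, 2] (f [0, 1, 7] (l (n 1 3 e (n 1 4 e (n 2 4 e (n 2 3 (n 2 5 e (n 2 1 (n
  3 3 (n 6 2 e e) e) e)) e)))))))) (t [0, 2] (t [0, 2] (b (l (n 1 3 e (n 1 4 e (n 2 4 e (n 2 5 e (n
  2 1 (n 3 2 (n 3 2 e (n 3 5 (n 5 5 (n 3 6 (n 6 2 e (n 6 2 e e)) e) e) e)) (n 5 3 e (n 2 5 (n 3 5 (n
  6 2 (n 5 5 e e) e) e) e))) e)))))) (l (n 1 3 e (n 1 4 e (n 2 4 e (n 2 5 e (n 2 1 (n 3 2 (n 3 2 e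
  (n 3 5 e (n 3 6 (n 5 6 (n 6 2 e (n 6 2 e (n 6 6 e e))) e) e))) (n 5 3 e (n 3 5 (n 2 5 e (n 6 2 e
  (n 6 5 e e))) (n 6 2 e e)))) e))))))))))) (f [0, 4] (b (b (t [0, 1] (f [0, 1, 2, 3, 4] (l (n 1 3 e
  (n 1 4 e (n 2 4 e (n 2 3 (n 2 5 e (n 2 1 e (n 5 2 e (n 3 3 (n 6 1 e (n 6 2 e e)) e)))) e))))))) (t
  [0, 7] (t [0, 0, 1, 2, 4] (l (n 1 3 e (n 1 4 e (n 2 4 e (n 2 3 (n 2 5 e (n 2 1 e (n 5 2 (n 2 6 (n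
  3 3 (n 2 4 (n 6 1 e (n 6 5 e e)) e) e) e) e))) e)))))))) (b (t [0, 1] (b (l (n 1 3 e (n 1 4 e (n 2
  4 e (n 2 3 e (n 3 5 (n 3 2 e (n 2 5 e (n 1 2 (n 6 2 (n 3 2 e (n 3 6 e e)) (n 6 1 (n 3 2 e (n 3 3 e
  e)) e)) e))) (n 1 3 (n 5 2 e (n 1 2 (n 5 2 (n 3 5 (n 2 6 (n 5 6 (n 1 6 (n 1 6 (n 6 3 e (n 6 3 e
  e)) e) e) e) e) e) e) e)) (n 5 2 (n 2 1 (n 5 1 e (n 3 2 (n 2 2 (n 1 6 (n 6 5 e (n 6 3 e (n 6 3 e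
  e))) e) e) (n 3 5 (n 1 6 (n 5 6 (n 2 6 (n 6 2 e (n 6 3 e (n 6 3 e (n 6 6 e e)))) e) e) e) e))) e)
  (n 2 1 e (n 3 2 (n 2 6 (n 5 2 (n 6 1 e (n 6 3 e (n 6 3 e e))) e) (n 5 2 e (n 5 6 e e)))
  e)))))))))) (l (n 1 3 e (n 1 4 e (n 2 4 e (n 2 3 e (n 3 5 (n 3 2 e (n 2 5 e (n 1 2 (n 3 2 e (n 3 3
  e (n 6 1 e (n 6 2 e e)))) e))) (n 3 1 (n 1 2 (n 5 2 e (n 3 1 (n 5 1 e (n 2 5 (n 1 6 (n 2 6 (n 6 3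
  e (n 6 3 e e)) e) e) e)) (n 3 2 (n 2 5 (n 2 6 (n 1 6 (n 6 1 e (n 6 3 e (n 6 3 e e))) e) e) e) (n 3
  6 (n 1 6 (n 6 1 e (n 6 2 e (n 6 2 e (n 6 6 e e)))) e) e)))) e) (n 5 2 e (n 5 3 e (n 1 2 (n 3 2 (n
  2 5 (n 2 6 (n 1 6 (n 6 1 e (n 6 3 e (n 6 3 e e))) e) e) e) (n 3 6 (n 1 6 (n 6 1 e (n 6 2 e (n 6 2
  e (n 6 6 e e)))) e) e)) (n 1 6 (n 6 3 e (n 6 2 e (n 6 2 e (n 6 6 e e)))) e))))))))))))) (t [0, 7]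
  (b (l (n 2 5 e (n 5 3 (n 1 3 e (n 2 4 e (n 4 1 (n 3 2 (n 3 1 (n 3 2 e (n 1 2 (n 2 6 (n 2 5 (n 3 6
  (n 2 6 (n 6 1 (n 3 5 (n 1 5 (n 1 5 (n 6 5 (n 5 6 e e) e) e) e) e) (n 6 1 (n 3 5 (n 1 5 (n 1 5 (n 6
  5 (n 5 6 e e) e) e) e) e) e)) (n 3 5 (n 1 5 (n 5 1 e e) e) e)) (n 3 5 (n 5 6 e (n 1 5 (n 5 1 e e)
  e)) e)) (n 2 6 (n 3 6 (n 5 6 (n 6 1 e (n 6 1 e (n 6 6 e e))) e) e) e)) e) e)) (n 6 2 e (n 3 6 (n 1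
  2 (n 3 4 (n 2 3 (n 1 5 e (n 6 1 e (n 6 5 e e))) e) e) (n 3 4 (n 1 5 (n 5 2 (n 1 6 (n 6 2 e (n 6 5
  e e)) e) e) (n 1 6 (n 6 2 e (n 6 5 e (n 6 6 e e))) e)) e)) e))) e) e))) (n 2 4 e e)))) (l (n 1 3 e
  (n 1 4 e (n 2 4 e (n 2 3 e (n 3 2 e (n 2 5 (n 5 3 (n 2 3 e (n 1 3 (n 6 3 (n 3 5 (n 5 6 e e) e) (n
  3 6 (n 5 3 (n 2 6 (n 6 1 e (n 6 1 e e)) e) e) (n 5 3 e (n 5 6 e e)))) e)) e) (n 1 2 (n 5 3 e (n 6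
  1 e (n 6 3 e (n 2 6 (n 2 6 (n 1 6 (n 2 5 (n 6 2 e (n 6 3 e (n 6 5 e e))) (n 2 4 (n 6 3 e (n 6 5 e
  (n 6 6 e e))) e)) (n 2 4 e (n 2 5 e e))) e) e)))) (n 5 3 e (n 1 2 (n 6 2 e (n 3 6 (n 2 6 (n 3 6 (n
  6 5 e (n 6 1 e (n 6 1 e (n 6 6 e e)))) e) e) e)) (n 6 3 (n 3 1 (n 1 6 e e) e) (n 3 6 (n 1 3 (n 6 5
  e (n 6 2 e (n 6 2 e (n 6 6 e e)))) e) (n 1 3 e (n 1 6 e e)))))))))))))))))))))) z))) (t [0, 2] (b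
  (b (t [0, 5] (b (f [0, 6] (b (t [0, 1] (t [0, 1, 3] (t [0, 1, 3] (l (n 2 3 (n 5 2 (n 3 3 (n 2 1 (n
  2 1 (n 2 4 e (n 2 5 (n 2 6 e (n 1 5 e e)) e)) e) e) e) e) e))))) (t [0, 5] (b (t [0, 1] (f [0, 6]
  (l (n 2 3 e (n 4 2 e (n 5 3 (n 1 2 e (n 3 1 (n 3 1 (n 3 4 e (n 3 5 (n 3 6 e (n 1 5 e e)) e)) e)
  e)) e)))))) (t [0, 7] (t [0, 1, 6] (l (n 2 3 e (n 4 2 e (n 5 3 (n 1 2 e (n 3 1 (n 3 1 e (n 1 4 e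
  (n 3 6 (n 1 5 (n 3 2 (n 6 1 e e) e) e) e))) e)) e)))))))))) (b (b (t [0, 1] (t [0, 2] (t [0, 2] (f
  [0, 8] (l (n 1 3 e (n 2 3 (n 2 5 e (n 2 1 (n 2 4 e (n 3 3 (n 6 2 e e) e)) e)) e))))))) (t [0, 6]
  (t [0, 2] (t [0, 2] (f [0, 6, 8] (l (n 1 3 e (n 1 4 e (n 2 4 e (n 3 2 e (n 2 5 e (n 2 1 (n 4 3 e
  (n 6 2 e e)) e)))))))))))) (b (t [0, 1] (t [0, 1, 4] (t [0, 1, 4] (f [0, 3] (l (n 1 3 e (n 2 3 (n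
  2 5 e (n 2 1 e (n 1 4 e (n 5 2 e (n 3 3 (n 6 1 e (n 6 2 e e)) e))))) e))))))) (t [0, 6] (b (t [0,
  1] (f [0, 4, 7] (l (n 1 3 e (n 1 4 e (n 2 4 e (n 3 2 e (n 2 5 e (n 2 1 e (n 5 2 e (n 4 3 e (n 6 1
  e (n 6 2 e e))))))))))))) (t [0, 8] (t [0, 0, 1, 4, 7] (l (n 2 3 e (n 4 2 e (n 5 3 (n 1 2 e (n 3 1
  (n 3 1 e (n 1 4 e (n 3 6 (n 3 2 (n 1 5 e (n 6 1 e (n 6 5 e e))) e) e))) e)) e)))))))))))) z) (b (t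
  [0, 5] (b (f [0, 6] (t [0, 3] (t [0, 3] (t [0, 2] (t [0, 2] (l (n 3 2 e (n 5 2 (n 1 3 e (n 2 1 (n
  2 1 (n 2 4 e (n 2 5 (n 2 6 e (n 1 5 e e)) e)) e) e)) e)))))))) (b (t [0, 4] (t [0, 4] (t [0, 1] (t
  [0, 1] (f [0, 7] (l (n 1 3 e (n 3 2 e (n 2 5 e (n 2 1 (n 2 4 e (n 6 2 e e)) e)))))))))) (t [0, 4]
  (t [0, 4] (t [0, 3] (t [0, 3] (f [0, 2] (l (n 1 3 e (n 3 2 e (n 2 5 e (n 2 1 e (n 1 4 e (n 5 2 e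
  (n 6 1 e (n 6 2 e e))))))))))))))))) z))))) z)) (t [0, 3] (t [0, 2] (t [0, 2] (b (t [0, 1, 3] (t
  [0, 1] (b (b (b (b (f [0, 5] (b (t [0, 2, 8] (t [0, 8] (b (l (n 3 3 (n 2 4 e (n 2 2 (n 5 5 (n 1 4
  e (n 1 1 e e)) e) e)) e)) (l (n 2 4 e (n 2 5 (n 3 2 (n 2 2 (n 5 5 (n 1 4 e (n 1 3 (n 1 1 (n 3 3 e
  e) e) e)) e) e) e) e)))))) (t [0, 2, 8] (t [0, 8] (b (l (n 2 4 e (n 2 5 (n 2 3 e (n 5 5 (n 3 2 e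
  (n 3 3 (n 1 4 (n 4 2 e e) (n 1 2 e (n 1 1 e e))) e)) e)) e))) (l (n 2 4 e (n 2 5 (n 2 3 e (n 5 5
  (n 1 4 (n 3 2 e (n 4 2 (n 3 3 e e) e)) (n 3 2 e (n 3 3 e (n 1 2 e (n 1 3 e (n 1 1 e e)))))) e))
  e)))))))) (f [0, 5] (b (b (t [0, 1, 3] (f [0, 1, 2, 3, 4] (l (n 2 4 e (n 2 5 e (n 5 3 (n 1 3 e (n
  3 2 e (n 1 4 e (n 3 3 (n 5 1 e (n 2 1 (n 6 2 e e) e)) e)))) e)))))) (t [0, 9] (t [0, 1, 2] (l (n 2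
  4 e (n 2 5 e (n 5 3 (n 3 2 e (n 3 3 (n 1 2 e (n 1 4 e (n 6 2 e (n 1 2 (n 1 5 (n 2 4 e e) e) e))))
  e)) e))))))) (b (t [0, 1, 3] (b (l (n 2 4 e (n 2 3 e (n 5 3 (n 1 3 e (n 1 4 e (n 3 1 (n 2 1 (n 5 2
  e (n 6 2 e (n 3 6 (n 5 2 (n 1 5 (n 3 5 e e) e) (n 5 5 (n 1 2 (n 3 2 e (n 3 3 e e)) (n 1 1 (n 3 3 e
  e) e)) e)) e))) e) e))) (n 3 2 e (n 2 5 e (n 6 2 e (n 1 4 (n 5 4 e (n 2 5 (n 3 2 e (n 3 3 e e))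
  e)) (n 1 2 (n 2 5 (n 3 1 e (n 3 2 e e)) e) (n 3 2 (n 1 3 e (n 1 5 e e)) (n 3 3 (n 1 2 e (n 1 5 e
  (n 1 1 e e))) e))))))))))) (l (n 2 4 e (n 2 5 e (n 5 3 (n 6 2 e (n 3 2 (n 5 2 e (n 1 3 e (n 1 4 e
  (n 3 1 (n 2 1 (n 1 5 (n 3 5 (n 1 2 (n 3 2 (n 5 2 e (n 5 5 e e)) (n 3 3 (n 5 5 e e) e)) (n 1 1 (n 3
  3 (n 5 5 e e) e) e)) e) e) e) e)))) e)) (n 1 4 (n 3 5 e (n 5 4 e (n 3 2 e (n 6 2 e (n 2 5 (n 3 2 e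
  (n 3 3 e e)) e))))) (n 6 2 e (n 3 5 e (n 3 2 e (n 1 2 (n 3 1 e (n 3 2 e (n 2 5 e e))) (n 3 2 e (n
  3 1 (n 3 3 e (n 1 2 e (n 1 5 e (n 1 1 e e)))) e))))))))))))) (t [0, 9] (b (l (n 2 4 e (n 1 4 (n 2
  5 e (n 3 5 (n 3 2 e (n 6 2 e (n 5 3 (n 5 4 e (n 5 2 (n 5 3 e e) e)) e))) e)) (n 2 5 e (n 5 3 (n 3
  1 (n 1 5 (n 6 2 e (n 3 2 (n 3 1 (n 1 2 (n 5 2 (n 3 2 e (n 1 3 e e)) (n 3 1 (n 1 5 e e) e)) e) (n 3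
  4 (n 3 2 (n 5 2 (n 2 1 e e) e) e) e)) e)) e) e) (n 6 2 e (n 3 1 e (n 3 2 e (n 3 5 e (n 5 3 (n 2 1
  e (n 5 2 e e)) e)))))))))) (l (n 2 4 e (n 2 5 e (n 5 3 (n 1 3 e (n 4 1 (n 6 2 e (n 3 2 (n 5 2 (n 1
  5 (n 3 2 e (n 1 3 e (n 2 1 e (n 2 4 e e)))) e) (n 1 3 e (n 2 1 e (n 5 1 (n 3 2 e (n 3 5 e e))
  e)))) e)) e)) (n 4 1 (n 3 2 e (n 6 2 e (n 1 2 (n 3 5 e (n 5 2 (n 1 3 (n 5 3 e e) e) e)) e))) (n 3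
  5 e (n 5 4 e (n 3 2 e (n 6 2 e (n 5 2 (n 5 3 e e) e)))))))))))))))) (b (f [0, 5] (b (t [0, 2] (t
  [0, 3] (b (l (n 3 3 (n 1 4 e (n 2 4 e (n 2 2 (n 5 5 (n 1 1 e e) e) e))) e)) (l (n 1 3 e (n 2 4 e
  (n 1 4 e (n 2 3 (n 3 3 (n 2 5 (n 5 5 (n 2 2 e e) e) (n 2 1 (n 6 2 e e) e)) e) e)))))))) (t [0, 2]
  (t [0, 3] (b (l (n 1 3 e (n 2 4 e (n 1 4 e (n 5 2 (n 5 3 (n 2 6 (n 2 3 e (n 3 1 (n 2 1 (n 3 2 (n 5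
  2 e (n 5 5 e e)) (n 3 3 (n 5 5 e e) e)) e) e)) e) (n 3 2 e (n 3 5 (n 2 6 (n 5 5 (n 2 1 e (n 2 2 e
  e)) e) e) e))) e))))) (l (n 1 3 e (n 1 4 e (n 2 4 e (n 2 3 e (n 3 5 (n 3 2 e (n 5 2 (n 6 2 e (n 2
  1 (n 3 3 e e) e)) (n 5 5 (n 3 3 e e) e))) (n 1 3 e (n 2 1 (n 6 2 e (n 6 3 e (n 3 2 (n 5 2 e e)
  e))) e))))))))))))) (f [0, 5] (b (b (t [0, 4] (f [0, 1, 2, 3, 4] (l (n 1 3 e (n 2 4 e (n 1 4 e (n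
  2 3 (n 2 5 e (n 3 3 (n 6 2 e (n 2 1 e (n 5 2 e e))) e)) e))))))) (t [0, 4] (t [0, 0, 1, 2, 4] (l
  (n 1 3 e (n 1 4 e (n 2 4 e (n 2 3 (n 2 5 e (n 6 2 e (n 2 1 e (n 5 2 (n 3 3 (n 2 4 e e) e) e))))
  e)))))))) (b (t [0, 4] (b (l (n 1 3 e (n 1 4 e (n 2 5 e (n 2 4 e (n 6 2 e (n 3 5 (n 3 2 e (n 2 1 e
  (n 5 3 (n 3 2 e (n 3 3 e e)) e))) (n 2 1 e (n 5 2 e (n 1 3 (n 3 2 (n 1 2 (n 3 2 (n 5 2 e e) e) e)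
  e) (n 3 1 (n 1 5 (n 5 2 e (n 5 5 e e)) e) (n 3 2 (n 5 2 e e) e)))))))))))) (l (n 1 3 e (n 1 4 e (n
  2 4 e (n 2 3 e (n 3 5 (n 3 2 e (n 5 2 (n 6 2 e (n 2 1 e (n 3 2 e (n 3 3 e e)))) e)) (n 3 1 (n 6 2
  e (n 6 3 e (n 1 2 (n 5 2 e (n 3 1 (n 5 1 e (n 2 5 e e)) (n 3 2 (n 2 5 e e) e))) e))) (n 5 2 e (n 5
  3 e (n 6 1 e (n 6 2 e (n 6 3 e (n 1 2 (n 3 2 (n 2 5 e e) e) e))))))))))))))) (t [0, 4] (b (l (n 2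
  5 e (n 4 2 (n 1 3 e (n 1 4 e (n 5 3 (n 2 6 (n 2 3 e (n 3 2 e (n 3 1 (n 2 1 (n 1 2 (n 5 2 e e) e)
  (n 5 2 (n 2 4 e e) (n 5 1 e (n 5 2 e e)))) (n 5 3 (n 2 4 (n 3 4 e e) e) (n 2 5 (n 5 2 e e) (n 2 4
  e e)))))) e) e))) e))) (l (n 2 5 e (n 4 2 (n 1 3 e (n 1 4 e (n 5 3 (n 2 6 (n 2 3 e (n 3 2 (n 5 2 e
  (n 3 1 (n 3 1 e (n 3 5 e e)) (n 3 5 (n 1 5 (n 5 3 e e) e) (n 3 2 e (n 3 4 e e))))) e)) e) (n 2 3 e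
  e)))) e)))))))))) (b (f [0, 4] (b (t [0, 3, 7] (t [0, 7] (b (l (n 3 3 (n 2 4 e (n 2 2 (n 5 5 e (n
  5 4 (n 4 1 (n 1 5 e (n 1 1 e e)) e) e)) e)) e)) (l (n 2 4 e (n 5 2 e (n 3 2 (n 2 2 (n 5 4 (n 4 1
  (n 3 3 e (n 1 3 e (n 1 5 e (n 1 1 e e)))) e) e) e) e))))))) (t [0, 3, 7] (t [0, 7] (b (l (n 2 4 e
  (n 5 2 e (n 2 3 e (n 3 2 e (n 5 4 (n 3 3 (n 1 4 (n 4 2 e (n 4 4 e e)) (n 1 2 e (n 1 5 e e))) e)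
  e)))))) (l (n 2 4 e (n 5 2 e (n 2 3 e (n 3 2 e (n 5 4 (n 3 3 e (n 4 1 (n 1 2 e (n 1 3 e (n 1 5 e
  (n 1 1 e e)))) (n 4 2 e e))) e))))))))))) (t [0, 1] (f [0, 4] (b (t [0, 2, 3] (t [0, 2] (b (l (n 3
  3 (n 2 4 e (n 2 2 (n 1 4 e (n 1 1 e (n 5 5 e (n 5 4 e e)))) e)) e)) (l (n 2 4 e (n 5 2 e (n 3 2 (n
  1 4 e (n 2 2 (n 1 3 e (n 5 4 (n 3 3 e e) e)) e)) e))))))) (t [0, 2, 3] (t [0, 2] (b (l (n 2 4 e (n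
  5 2 e (n 2 3 e (n 1 4 e (n 1 3 e (n 3 2 e (n 5 4 (n 3 3 e e) e)))))))) (l (n 2 4 e (n 5 2 e (n 2 3
  e (n 1 4 e (n 1 3 e (n 3 2 e (n 5 4 (n 3 3 e e) e)))))))))))))))) z))) (t [0, 3] (b (b (b (b (b (b
  (t [0, 1] (t [0, 1, 5] (t [0, 9] (f [0, 4] (l (n 2 3 (n 5 2 (n 3 3 (n 1 2 e (n 2 4 e (n 2 2 (n 4 1
  (n 1 5 e e) e) e))) e) e) e)))))) (t [0, 7] (t [0, 2, 9] (t [0, 9] (f [0, 4, 7] (l (n 2 5 e (n 2 4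
  (n 4 4 (n 3 5 e (n 1 3 e (n 1 2 e (n 2 3 e (n 1 5 e e))))) e) e)))))))) (b (t [0, 1] (t [0, 1, 5]
  (t [0, 1, 2, 5] (l (n 2 3 (n 2 5 e (n 3 3 (n 1 2 e (n 1 2 e (n 2 4 e (n 6 2 e (n 5 1 e (n 2 5 e
  e)))))) e)) e))))) (t [0, 7] (b (t [0, 1, 3] (f [0, 8] (l (n 2 5 e (n 2 4 e (n 3 5 e (n 1 3 e (n 3
  2 e (n 1 4 e (n 4 3 e (n 1 5 (n 1 2 e (n 6 2 e e)) e))))))))))) (t [0, 10] (t [0, 1, 8] (l (n 2 5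
  e (n 2 4 e (n 3 5 e (n 1 3 e (n 3 2 e (n 1 4 e (n 4 3 e (n 6 2 e (n 1 2 (n 1 5 (n 2 4 e e) e)
  e)))))))))))))))) (b (b (t [0, 1] (t [0, 2] (t [0, 3] (f [0, 4] (l (n 1 3 e (n 2 3 (n 2 5 e (n 3 3
  (n 2 1 (n 4 2 (n 2 6 (n 1 1 (n 2 2 e e) e) e) e) e) e)) e))))))) (t [0, 7] (t [0, 2] (t [0, 3] (f
  [0, 4, 7] (l (n 1 3 e (n 1 4 e (n 2 4 e (n 3 2 e (n 5 2 (n 4 3 e (n 2 6 (n 2 1 e (n 2 2 e e)) e))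
  e))))))))))) (b (t [0, 1] (t [0, 1, 5] (t [0, 3] (f [0, 3] (l (n 1 3 e (n 2 3 (n 2 5 e (n 3 3 (n 2
  1 e (n 1 4 e (n 5 2 e (n 6 1 e (n 6 2 e e))))) e)) e))))))) (t [0, 7] (b (t [0, 4] (f [0, 4, 8] (l
  (n 1 3 e (n 1 4 e (n 2 4 e (n 3 2 e (n 5 2 (n 4 3 e (n 2 6 (n 2 1 e (n 2 5 (n 2 2 e e) e)) e))
  e)))))))) (t [0, 4] (t [0, 0, 1, 4, 8] (l (n 2 3 e (n 4 2 e (n 3 5 e (n 1 3 e (n 1 3 e (n 1 2 (n 3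
  4 e (n 6 3 e (n 3 2 e (n 5 3 e e)))) e)))))))))))))) (b (b (t [0, 1] (t [0, 3, 8] (t [0, 8] (b (l
  (n 2 2 (n 3 3 (n 5 5 (n 1 4 e (n 1 1 e e)) e) e) e)) (l (n 2 3 (n 3 3 (n 1 4 (n 5 2 e e) (n 2 5 (n
  5 5 (n 1 2 (n 1 1 (n 2 2 e e) e) e) e) (n 4 2 e (n 1 2 e (n 1 5 e e))))) e) e)))))) (t [0, 6] (t
  [0, 3, 8] (t [0, 8] (b (l (n 3 3 (n 2 4 (n 5 2 (n 1 2 e (n 4 1 (n 1 5 (n 1 1 (n 2 2 (n 5 5 e e) e)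
  e) e) e)) e) e) e)) (l (n 2 3 e (n 4 2 e (n 1 4 (n 5 3 e (n 5 2 e e)) (n 3 5 (n 1 2 (n 5 2 e (n 5
  1 (n 3 3 e e) e)) (n 1 3 (n 5 2 (n 1 1 (n 3 3 e e) e) (n 5 5 (n 1 1 (n 3 3 e e) e) e)) e)) (n 4 3
  e (n 1 3 e (n 1 2 e (n 1 5 e e)))))))))))))) (t [0, 1] (b (t [0, 1] (t [0, 2, 3] (t [0, 2] (b (l
  (n 2 2 (n 3 3 (n 1 4 e (n 1 1 e (n 5 5 e e))) e) e)) (l (n 2 3 (n 3 3 (n 1 4 e (n 1 2 e (n 5 2 (n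
  2 4 (n 2 2 (n 5 5 e e) e) e) e))) e) e)))))) (t [0, 6] (t [0, 2, 3] (t [0, 2] (b (l (n 3 3 (n 2 4
  (n 1 2 e (n 1 4 e (n 5 2 (n 2 2 (n 5 5 e e) e) e))) e) e)) (l (n 1 3 e (n 2 3 e (n 1 4 e (n 4 2 e
  (n 5 3 (n 3 3 (n 5 5 e e) (n 4 3 e e)) (n 5 2 (n 3 3 e e) e))))))))))))))) z) (b (b (b (b (t [0,
  5] (t [0, 5] (t [0, 4] (t [0, 8] (f [0, 3] (l (n 3 2 e (n 5 2 (n 1 3 e (n 1 2 e (n 2 4 e (n 2 2 (n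
  4 1 (n 1 5 e e) e) e)))) e)))))))) (t [0, 5] (t [0, 5] (t [0, 4] (t [0, 1, 4] (l (n 3 2 e (n 2 5 e
  (n 1 2 e (n 2 4 e (n 1 3 e (n 1 4 e (n 6 2 e (n 1 5 (n 1 2 e e) e)))))))))))))) (b (t [0, 5] (t
  [0, 5] (t [0, 1] (t [0, 2] (f [0, 3] (l (n 1 3 e (n 3 2 e (n 2 5 e (n 1 4 e (n 4 2 (n 2 6 (n 2 1 e
  (n 2 2 e e)) e) e))))))))))) (t [0, 5] (t [0, 5] (t [0, 4] (t [0, 2] (f [0, 2] (l (n 1 3 e (n 3 2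
  e (n 2 5 e (n 2 1 e (n 1 4 e (n 5 2 e (n 6 1 e (n 6 2 e e)))))))))))))))) (b (t [0, 4] (t [0, 4]
  (t [0, 2, 7] (t [0, 7] (b (l (n 2 2 (n 5 5 (n 1 3 e (n 1 4 (n 3 3 e (n 4 4 e e)) e)) e) e)) (l (n
  3 2 e (n 5 2 (n 2 4 (n 1 3 e (n 1 2 e (n 2 1 (n 4 1 (n 5 1 (n 1 1 (n 2 2 (n 5 5 e e) e) e) e) e)
  e))) e) e)))))))) (t [0, 1] (t [0, 4] (t [0, 4] (t [0, 1, 2] (t [0, 1] (b (l (n 2 2 (n 1 3 e (n 1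
  4 e (n 3 3 e (n 5 5 e e)))) e)) (l (n 1 3 e (n 3 2 e (n 1 4 e (n 5 2 (n 2 2 (n 5 5 e e) (n 4 2 e
  e)) e))))))))))))) z))))))))) z) (b (t [0, 1] (f [0, 2] (f [0, 2] (t [0, 1] (t [0, 1] (b (t [0, 1,
  1] (t [0, 1] (t [0, 1, 1] (f [0, 3] (b (f [0, 2] (b (t [0, 3] (t [0, 3] (b (l (n 3 3 (n 5 2 e (n 2
  4 e (n 2 2 (n 1 4 e (n 1 1 e e)) e))) e)) (l (n 2 4 e (n 2 3 (n 3 3 (n 5 2 e (n 5 4 e (n 2 2 e (n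
  1 2 e (n 1 4 e (n 1 1 e e)))))) e) e)))))) (t [0, 1] (t [0, 1] (b (l (n 5 2 e (n 2 4 e (n 2 3 e (n
  3 2 e (n 3 3 (n 1 2 e (n 1 4 e (n 1 1 e e))) e)))))) (l (n 5 2 e (n 2 4 e (n 2 3 e (n 3 1 (n 3 2 e
  (n 3 3 e (n 1 4 e (n 1 1 e e)))) (n 1 2 (n 3 2 e e) e))))))))))) (t [0, 1] (f [0, 2] (b (t [0, 2]
  (t [0, 2] (b (l (n 3 3 (n 5 2 e (n 2 4 e (n 2 2 (n 1 4 e (n 1 1 e e)) e))) e)) (l (n 2 4 e (n 3 2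
  (n 2 2 (n 1 3 e (n 1 4 e (n 5 3 e (n 5 4 e (n 3 3 e e))))) e) e)))))) (t [0, 1, 2] (t [0, 1, 2] (b
  (l (n 2 4 e (n 5 2 e (n 2 3 e (n 5 4 e (n 1 3 e (n 3 2 e (n 1 4 e (n 3 3 e e))))))))) (l (n 2 4 e
  (n 5 2 e (n 2 3 e (n 5 4 e (n 1 3 e (n 3 2 e (n 1 4 e (n 3 3 e e)))))))))))))))))))) (t [0, 2] (b
  (t [0, 1, 3] (f [0, 4] (b (b (t [0, 1] (t [0, 5] (t [0, 5] (b (l (n 2 2 (n 3 3 (n 1 4 e (n 1 1 (n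
  5 5 e e) e)) e) e)) (l (n 2 3 (n 3 3 (n 1 4 e (n 5 2 e (n 1 2 (n 1 1 (n 2 2 e e) e) e))) e)
  e)))))) (t [0, 4] (t [0, 1] (t [0, 5] (b (l (n 3 3 (n 2 4 (n 1 4 e (n 5 2 e (n 1 2 (n 1 1 (n 2 2 e
  e) e) e))) e) e)) (l (n 2 3 e (n 4 2 e (n 1 4 e (n 5 2 e (n 5 3 e (n 3 3 e (n 1 2 e (n 1 3 e (n 1
  1 e e))))))))))))))) (t [0, 1] (b (t [0, 1] (t [0, 2] (t [0, 2] (b (l (n 2 2 (n 3 3 (n 1 4 e (n 1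
  1 e (n 5 5 e e))) e) e)) (l (n 2 3 (n 3 3 (n 1 4 e (n 1 2 e (n 5 2 e (n 2 2 e e)))) e) e)))))) (t
  [0, 4] (t [0, 2] (t [0, 1, 2] (b (l (n 3 3 (n 1 4 e (n 2 4 (n 5 2 e (n 1 1 e (n 2 2 e e))) e)) e))
  (l (n 2 3 e (n 1 4 e (n 4 2 e (n 1 3 e (n 5 2 e (n 5 3 e (n 3 3 e e))))))))))))))))) (t [0, 3] (f
  [0, 4] (b (t [0, 2] (t [0, 2] (t [0, 4] (t [0, 4] (b (l (n 2 2 (n 1 3 e (n 1 4 (n 3 3 e (n 4 4 (n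
  5 5 e e) e)) e)) e)) (l (n 3 2 e (n 5 2 e (n 1 3 e (n 1 4 e (n 1 2 (n 1 1 (n 2 2 e e) e)
  e))))))))))) (t [0, 1] (t [0, 2] (t [0, 2] (t [0, 1] (t [0, 1] (b (l (n 2 2 (n 1 3 e (n 1 4 e (n 3
  3 e (n 5 5 e e)))) e)) (l (n 1 3 e (n 3 2 e (n 1 4 e (n 5 2 e (n 2 2 e e)))))))))))))))))))))))
  z)) z)

set_option maxRecDepth 100000 in
theorem f06A : chkQ 6 2 10897286400000 t06A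
    (blks.getD 6 ⟨0, 0, 0, 0, 0, .zr, .zr⟩).A = some [2270268000000, 681080400000, 0] := by
  decide +kernel

end Pool.Agent.TH32
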