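import Pool.Agent.TH32.H.Fast

set_option autoImplicit false

namespace Pool.Agent.TH32

open CT PT

set_option maxRecDepth 100000 in
/-- certificate for block 7 (Ld0R4), tree A -/
def t07A : PT :=
  (b (b (b (t [0, 1] (b (t [0, 1] (b (t [0, 1] (b (t [0, 1, 2] (t [0, 1] (t [0, 1, 2] (b (b (b (f
  [0, 4] (b (t [0, 6] (t [0, 6] (f [0, 1, 4] (l (n 2 4 e (n 2 3 (n 5 2 (n 3 3 (n 1 4 e (n 2 1 (n 1 5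
  (n 2 1 (n 2 6 e (n 2 2 e e)) e) e) e)) e) e) e)))))) (t [0, 6] (t [0, 6] (b (l (n 2 4 e (n 1 4 (n
  2 5 e (n 5 3 e (n 3 2 e (n 3 5 e (n 5 4 e (n 2 6 (n 2 5 (n 3 3 (n 6 6 e e) e) e) e)))))) (n 2 3 e
  (n 5 3 (n 1 3 e (n 5 1 e (n 2 1 (n 3 3 (n 2 6 (n 6 6 (n 1 1 (n 5 5 e e) e) e) e) e) e))) (n 3 2 e
  (n 2 5 e (n 2 6 (n 3 3 (n 6 6 (n 1 2 (n 2 5 e e) (n 1 5 e (n 1 1 e e))) e) e) e)))))))) (l (n 2 4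
  e (n 1 4 (n 5 2 (n 5 3 e (n 3 2 e (n 3 5 e (n 4 5 (n 2 5 (n 2 6 e (n 2 2 e e)) e) e)))) e) (n 2 5
  e (n 3 5 (n 2 6 (n 3 2 e (n 3 5 e (n 1 2 (n 5 2 e (n 6 6 e e)) (n 6 6 (n 1 3 e (n 1 5 e e)) e))))
  e) (n 1 3 e (n 2 6 (n 1 5 (n 1 2 e (n 2 3 e (n 6 6 e e))) e) e)))))))))))) (f [0, 4] (b (t [0, 6]
  (t [0, 6] (f [0, 1, 2, 3, 6] (l (n 2 4 e (n 2 3 (n 5 2 (n 3 3 (n 1 4 e (n 2 1 (n 1 5 (n 2 1 (n 2 6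
  e (n 2 2 e e)) e) e) e)) e) e) e)))))) (t [0, 6] (t [0, 6] (b (l (n 2 4 e (n 1 4 (n 2 5 e (n 5 3 e
  (n 3 5 e (n 5 4 e (n 3 2 e (n 2 5 (n 2 6 e (n 3 2 e (n 3 3 e e))) e)))))) (n 2 3 e (n 3 5 (n 3 2 e
  (n 2 5 e (n 6 2 (n 1 6 (n 5 2 e (n 5 6 e (n 3 2 e (n 3 3 e e)))) (n 1 2 (n 5 2 e (n 3 1 e (n 3 2 e
  e))) (n 3 1 (n 1 5 (n 3 2 e (n 3 3 e e)) e) (n 1 2 (n 3 2 e e) e)))) e))) (n 1 3 e (n 1 5 (n 1 2 e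
  (n 6 2 (n 1 2 (n 1 3 e (n 5 2 e e)) e) e)) e))))))) (l (n 2 4 e (n 1 4 (n 5 2 (n 5 3 e (n 3 2 e (n
  2 6 e (n 3 5 e (n 5 4 e (n 2 3 (n 2 2 e (n 5 2 e (n 6 5 e e))) e)))))) e) (n 2 3 e (n 3 5 (n 3 2 e
  (n 5 2 (n 1 2 (n 5 2 e (n 1 6 (n 2 6 e (n 3 2 e (n 3 3 e e))) (n 3 1 e (n 3 2 e e)))) (n 2 6 e (n
  3 1 (n 1 5 (n 3 2 e (n 3 3 e e)) e) (n 1 2 (n 3 2 e e) e)))) e)) (n 1 3 e (n 1 5 (n 1 2 e (n 1 3 e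
  (n 6 2 (n 1 2 (n 3 2 (n 2 5 e e) e) e) (n 3 6 e e)))) e))))))))))))) (b (f [0, 4] (b (t [0, 6] (t
  [0, 6] (f [0, 1, 4] (l (n 1 3 e (n 1 4 e (n 2 4 e (n 2 3 (n 2 5 e (n 3 3 (n 6 2 (n 2 1 (n 1 6 (n 6
  5 e e) e) (n 2 2 (n 5 6 e e) e)) e) e)) e)))))))) (t [0, 6] (t [0, 6] (b (l (n 1 3 e (n 1 4 e (n 2
  4 e (n 2 3 e (n 3 2 e (n 3 3 (n 5 2 (n 1 2 e (n 2 1 (n 5 6 (n 6 2 e (n 6 2 e e)) (n 5 1 e e)) e))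
  (n 5 2 (n 6 2 (n 2 1 e (n 2 2 e e)) e) e)) e))))))) (l (n 1 3 e (n 1 4 e (n 2 4 e (n 2 3 e (n 3 5
  (n 3 2 e (n 5 2 (n 3 3 e (n 6 2 (n 2 1 e (n 2 2 e e)) e)) e)) (n 5 2 (n 1 2 e (n 3 1 (n 3 2 e (n 5
  6 (n 6 3 e (n 6 2 e (n 6 2 e e))) (n 5 1 e e))) e)) (n 6 2 (n 3 1 (n 2 1 e e) e) (n 3 1 (n 6 3 e
  e) (n 5 3 e (n 3 6 (n 6 1 e (n 6 6 e e)) e)))))))))))))))) (f [0, 4] (b (t [0, 6] (t [0, 6] (f [0,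
  1, 2, 3, 6] (l (n 1 3 e (n 1 4 e (n 2 4 e (n 2 3 (n 2 5 e (n 2 1 e (n 5 2 e (n 2 6 e (n 3 3 e
  e))))) e)))))))) (t [0, 6] (t [0, 6] (b (l (n 1 3 e (n 1 4 e (n 2 4 e (n 2 3 e (n 3 2 e (n 5 2 (n
  5 6 (n 2 1 (n 1 2 e e) e) (n 1 2 e (n 2 1 (n 1 5 (n 3 1 (n 3 3 (n 5 5 e e) e) e) e) e))) (n 2 5 e
  (n 6 2 (n 1 2 (n 3 1 (n 2 2 (n 3 3 e e) e) (n 5 3 (n 3 5 e e) e)) e) e))))))))) (l (n 1 3 e (n 1 4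
  e (n 2 4 e (n 2 3 e (n 3 5 (n 3 2 e (n 5 2 (n 2 6 e (n 2 1 e (n 3 2 e (n 3 3 e e)))) e)) (n 6 2 (n
  2 1 (n 3 1 e (n 5 6 e (n 5 2 (n 2 1 (n 5 3 e e) e) (n 2 3 (n 3 5 e e) e)))) (n 5 6 e (n 5 2 e (n 5
  1 e (n 3 5 (n 3 2 (n 2 5 e e) e) (n 2 5 (n 3 1 e e) e)))))) (n 3 1 e (n 5 2 e (n 5 3 e (n 3 6 e
  e)))))))))))))))))) (b (f [0, 3] (b (t [0, 5] (t [0, 5] (b (l (n 3 3 (n 2 4 e (n 2 2 (n 5 5 (n 1 4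
  e (n 1 1 e e)) e) e)) e)) (l (n 2 4 e (n 2 3 (n 5 2 (n 3 3 (n 1 4 e (n 2 1 (n 1 5 (n 2 1 (n 2 6 (n
  1 1 (n 2 2 (n 5 5 e e) e) e) e) e) e) e)) e) e) e)))))) (t [0, 5] (t [0, 5] (b (l (n 2 4 e (n 1 4
  (n 5 2 (n 5 3 e (n 3 2 e (n 5 3 (n 4 5 (n 2 5 (n 2 6 (n 3 3 e e) e) e) e) e))) e) (n 2 3 e (n 3 5
  (n 3 2 e (n 5 2 (n 6 2 e (n 3 3 (n 1 2 (n 5 2 e e) (n 1 5 e e)) e)) (n 5 5 (n 3 3 (n 1 2 e (n 1 1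
  e e)) e) e))) (n 3 1 (n 1 2 e (n 5 2 (n 1 1 e e) e)) e)))))) (l (n 2 4 e (n 5 2 (n 5 3 (n 1 3 e (n
  4 1 (n 1 5 (n 2 1 (n 2 6 (n 3 2 (n 2 2 e (n 1 1 (n 3 3 (n 5 5 e e) e) e)) e) e) e) e) e)) (n 1 4
  (n 3 2 e (n 3 5 e (n 4 5 (n 2 5 (n 2 6 e e) e) e))) (n 3 2 e (n 3 5 e (n 2 6 (n 2 1 (n 1 3 e (n 1
  5 e (n 1 1 e e))) (n 2 5 e e)) e))))) e)))))))) (t [0, 1] (f [0, 3] (b (t [0, 5] (t [0, 5] (b (l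
  (n 3 3 (n 1 4 e (n 2 4 e (n 2 2 (n 5 5 (n 1 1 e e) e) e))) e)) (l (n 2 4 e (n 1 3 e (n 1 4 e (n 2
  3 (n 3 3 (n 5 2 (n 2 6 (n 5 2 (n 2 2 (n 5 5 e e) (n 2 1 e e)) e) e) e) e) e)))))))) (t [0, 5] (t
  [0, 5] (b (l (n 1 3 e (n 1 4 e (n 2 4 e (n 2 3 e (n 3 2 e (n 3 3 (n 5 2 (n 6 5 e (n 1 2 e (n 2 1
  (n 6 2 e (n 2 6 e e)) e))) (n 5 2 (n 6 2 e e) (n 5 5 e e))) e))))))) (l (n 1 3 e (n 1 4 e (n 2 4 e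
  (n 5 2 (n 2 6 (n 5 3 (n 2 3 e (n 5 2 (n 3 2 e (n 1 3 e (n 3 3 e (n 2 1 (n 2 1 e e) e)))) (n 3 1 (n
  3 3 (n 5 5 e e) e) (n 3 5 e e)))) (n 3 2 e (n 3 5 e e))) e) e)))))))))))))))) (t [0, 2] (b (t [0,
  1, 3] (b (b (b (b (t [0, 1] (t [0, 7] (t [0, 7] (f [0, 4] (l (n 2 3 (n 5 2 (n 3 3 (n 1 2 e (n 2 4
  e (n 4 1 (n 1 5 (n 2 1 (n 2 6 e (n 2 2 e e)) e) e) e))) e) e) e)))))) (t [0, 6] (t [0, 7] (t [0,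
  7] (f [0, 4, 6] (l (n 2 4 e (n 3 2 e (n 5 2 (n 1 3 e (n 1 4 e (n 4 3 e (n 2 1 (n 1 5 (n 2 1 (n 2 6
  e (n 2 2 e e)) e) e) e)))) e))))))))) (b (t [0, 1] (t [0, 7] (t [0, 7] (l (n 2 3 (n 2 5 e (n 3 3
  (n 1 2 e (n 2 4 e (n 1 4 e (n 1 5 (n 1 2 e (n 2 6 e e)) e)))) e)) e))))) (t [0, 6] (t [0, 7] (t
  [0, 7] (f [0, 6] (l (n 2 4 e (n 3 2 e (n 5 2 (n 1 3 e (n 1 4 e (n 4 3 e (n 2 1 (n 1 5 (n 2 1 (n 2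
  6 e (n 2 2 e e)) e) e) e)))) e)))))))))) (b (b (t [0, 1] (t [0, 7] (t [0, 7] (f [0, 4] (l (n 1 3 e
  (n 2 3 (n 2 5 e (n 1 4 e (n 2 4 e (n 3 3 (n 6 2 (n 2 1 (n 1 6 (n 6 5 e e) e) (n 2 2 (n 5 6 e e)
  e)) e) e)))) e))))))) (t [0, 6] (t [0, 7] (t [0, 7] (f [0, 4, 6] (l (n 1 3 e (n 1 4 e (n 2 4 e (n
  3 2 e (n 2 5 e (n 4 3 e (n 6 2 (n 2 1 (n 1 6 (n 6 5 e e) e) (n 2 2 (n 5 6 e e) e)) e)))))))))))))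
  (b (t [0, 1] (t [0, 7] (t [0, 7] (f [0, 3] (l (n 1 3 e (n 2 3 (n 2 5 e (n 2 1 e (n 1 4 e (n 5 2 e
  (n 2 6 e (n 3 3 e e)))))) e))))))) (t [0, 6] (t [0, 7] (t [0, 7] (f [0, 3, 6] (l (n 2 3 e (n 4 2 e
  (n 1 2 e (n 1 3 e (n 3 5 e (n 3 1 e (n 1 4 e (n 5 3 e (n 3 6 e e))))))))))))))))) (b (b (t [0, 1]
  (t [0, 6] (t [0, 6] (f [0, 7] (l (n 2 3 (n 5 2 (n 3 3 (n 1 2 e (n 2 4 e (n 4 1 (n 1 5 (n 2 1 (n 2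
  6 e e) e) e) e))) e) e) e)))))) (t [0, 5] (t [0, 6] (t [0, 6] (f [0, 5, 7] (l (n 2 3 e (n 4 2 e (n
  5 3 (n 1 2 e (n 1 3 e (n 3 4 e (n 4 1 (n 1 5 (n 3 1 (n 3 6 e e) e) e) e)))) e))))))))) (t [0, 1]
  (b (t [0, 1] (t [0, 6] (t [0, 6] (f [0, 7] (l (n 1 3 e (n 2 3 (n 1 4 e (n 2 5 e (n 4 2 (n 2 6 (n 3
  3 (n 2 1 e (n 2 5 e e)) e) e) e))) e))))))) (t [0, 5] (t [0, 6] (t [0, 6] (f [0, 5, 7] (l (n 1 3 e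
  (n 1 4 e (n 2 3 e (n 4 2 e (n 3 5 e (n 4 3 (n 3 6 (n 3 1 e (n 3 5 e e)) e) e)))))))))))))))) (t
  [0, 3] (b (b (b (t [0, 4] (t [0, 4] (t [0, 6] (t [0, 6] (f [0, 3] (l (n 3 2 e (n 5 2 (n 1 3 e (n 1
  2 e (n 2 4 e (n 4 1 (n 1 5 (n 2 1 (n 2 6 e (n 2 2 e e)) e) e) e)))) e)))))))) (t [0, 4] (t [0, 4]
  (t [0, 6] (t [0, 6] (l (n 3 2 e (n 2 5 e (n 1 2 e (n 2 4 e (n 1 3 e (n 1 4 e (n 2 6 e (n 1 5 (n 1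
  2 e (n 1 6 e e)) e)))))))))))))) (b (t [0, 4] (t [0, 4] (t [0, 6] (t [0, 6] (f [0, 3] (l (n 1 3 e
  (n 3 2 e (n 2 5 e (n 1 4 e (n 2 4 e (n 6 2 (n 2 1 (n 1 6 (n 6 5 e e) e) (n 2 2 (n 5 6 e e) e))
  e)))))))))))) (t [0, 4] (t [0, 4] (t [0, 6] (t [0, 6] (f [0, 2] (l (n 1 3 e (n 3 2 e (n 2 5 e (n 2
  1 e (n 1 4 e (n 5 2 e (n 2 6 e e))))))))))))))) (b (t [0, 3] (t [0, 3] (t [0, 5] (t [0, 5] (f [0,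
  6] (l (n 3 2 e (n 5 2 (n 1 3 e (n 1 2 e (n 2 4 e (n 4 1 (n 1 5 (n 2 1 (n 2 6 e e) e) e) e))))
  e)))))))) (t [0, 1] (t [0, 3] (t [0, 3] (t [0, 5] (t [0, 5] (f [0, 6] (l (n 1 3 e (n 3 2 e (n 1 4
  e (n 2 5 e (n 4 2 (n 2 6 (n 2 1 e (n 2 5 e e)) e) e))))))))))))))))))) z)) (t [0, 3] (t [0, 2] (t
  [0, 2] (b (t [0, 1, 3] (t [0, 1] (t [0, 1, 2, 3] (f [0, 2] (b (f [0, 2] (b (t [0, 4, 5] (t [0, 5]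
  (b (l (n 3 3 (n 2 4 e (n 2 2 (n 5 5 e (n 5 4 (n 4 1 (n 1 5 e (n 1 1 e e)) e) e)) e)) e)) (l (n 2 4
  e (n 2 3 (n 5 2 e (n 3 3 (n 5 4 (n 4 1 (n 2 2 e (n 1 2 e (n 1 5 e (n 1 1 e e)))) e) e) e)) e))))))
  (t [0, 4, 5] (t [0, 5] (b (l (n 2 4 e (n 5 2 e (n 2 3 e (n 3 2 e (n 5 4 (n 3 3 (n 1 4 (n 4 2 e (n
  4 4 e e)) (n 1 2 e (n 1 5 e e))) e) e)))))) (l (n 2 4 e (n 5 2 e (n 2 3 e (n 3 2 e (n 5 4 (n 3 3 e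
  (n 4 1 (n 1 2 e (n 1 3 e (n 1 5 e (n 1 1 e e)))) (n 4 2 e e))) e))))))))))) (t [0, 1] (f [0, 2] (b
  (t [0, 2, 4] (t [0, 2] (b (l (n 3 3 (n 1 4 e (n 2 4 e (n 2 2 (n 1 1 e (n 5 5 e (n 5 4 e e))) e)))
  e)) (l (n 2 4 e (n 2 3 (n 5 2 e (n 3 3 (n 1 4 e (n 1 2 e (n 5 4 (n 2 2 e e) e))) e)) e)))))) (t
  [0, 2, 4] (t [0, 2] (b (l (n 2 4 e (n 1 3 e (n 1 4 e (n 5 2 e (n 2 3 e (n 3 2 e (n 5 4 (n 3 3 e e)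
  e)))))))) (l (n 2 4 e (n 1 3 e (n 1 4 e (n 5 2 e (n 2 3 e (n 3 2 e (n 5 4 (n 3 3 e e)
  e))))))))))))))))))) (t [0, 3] (b (t [0, 1, 3, 4] (f [0, 3] (b (b (t [0, 1] (t [0, 5, 6] (t [0, 6]
  (b (l (n 2 2 (n 3 3 (n 5 5 (n 1 4 e (n 1 1 e e)) e) e) e)) (l (n 2 3 (n 5 2 (n 3 3 (n 1 2 e (n 4 1
  (n 1 5 (n 2 4 (n 1 1 (n 2 2 (n 5 5 e e) e) e) e) e) e)) e) e) e)))))) (t [0, 4] (t [0, 5, 6] (t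
  [0, 6] (b (l (n 3 3 (n 2 4 (n 5 2 (n 1 2 e (n 4 1 (n 1 5 (n 1 1 (n 2 2 (n 5 5 e e) e) e) e) e)) e)
  e) e)) (l (n 2 3 e (n 4 2 e (n 1 4 (n 5 3 e (n 5 2 e e)) (n 1 2 (n 5 3 e (n 2 5 (n 5 1 (n 3 3 e e)
  e) e)) (n 3 5 (n 1 3 (n 5 2 (n 1 1 (n 3 3 e e) e) (n 5 5 (n 1 1 (n 3 3 e e) e) e)) e) (n 1 3 e (n
  4 3 e (n 1 5 e e)))))))))))))) (t [0, 1] (b (t [0, 1] (t [0, 2, 5] (t [0, 2] (b (l (n 2 2 (n 3 3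
  (n 1 4 e (n 1 1 e (n 5 5 e e))) e) e)) (l (n 1 3 e (n 2 3 (n 1 4 e (n 5 2 (n 2 4 (n 3 3 (n 2 2 (n
  5 5 e e) e) e) e) e)) e))))))) (t [0, 4] (t [0, 2, 5] (t [0, 2] (b (l (n 3 3 (n 2 4 (n 1 2 e (n 1
  4 e (n 5 2 (n 2 2 (n 5 5 e e) e) e))) e) e)) (l (n 1 3 e (n 1 4 e (n 2 3 e (n 4 2 e (n 3 5 (n 3 3
  e (n 5 2 e (n 5 5 e e))) (n 4 3 e e)))))))))))))))) (t [0, 3, 4] (f [0, 3] (b (t [0, 2] (t [0, 2]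
  (t [0, 4, 5] (t [0, 5] (b (l (n 2 2 (n 5 5 (n 1 3 e (n 1 4 (n 3 3 e (n 4 4 e e)) e)) e) e)) (l (n
  3 2 e (n 5 2 (n 1 2 e (n 1 3 e (n 4 1 (n 1 5 (n 2 4 (n 1 1 (n 2 2 (n 5 5 e e) e) e) e) e) e)))
  e)))))))) (t [0, 1] (t [0, 2] (t [0, 2] (t [0, 1, 4] (t [0, 1] (b (l (n 2 2 (n 1 3 e (n 1 4 e (n 3
  3 e (n 5 5 e e)))) e)) (l (n 1 3 e (n 3 2 e (n 1 4 e (n 5 2 (n 2 2 (n 5 5 e e) (n 4 2 e e))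
  e)))))))))))))))))))))) z) (b (t [0, 1] (f [0, 2] (f [0, 2] (t [0, 1] (t [0, 1] (b (t [0, 1, 1] (t
  [0, 1] (t [0, 1, 1] (f [0, 3] (b (f [0, 2] (b (t [0, 3] (t [0, 3] (b (l (n 3 3 (n 5 2 e (n 2 4 e
  (n 2 2 (n 1 4 e (n 1 1 e e)) e))) e)) (l (n 2 4 e (n 2 3 (n 3 3 (n 5 2 e (n 5 4 e (n 2 2 e (n 1 2
  e (n 1 4 e (n 1 1 e e)))))) e) e)))))) (t [0, 1] (t [0, 1] (b (l (n 5 2 e (n 2 4 e (n 2 3 e (n 3 2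
  e (n 3 3 (n 1 2 e (n 1 4 e (n 1 1 e e))) e)))))) (l (n 5 2 e (n 2 4 e (n 2 3 e (n 3 1 (n 3 2 e (n
  3 3 e (n 1 4 e (n 1 1 e e)))) (n 1 2 (n 3 2 e e) e))))))))))) (t [0, 1] (f [0, 2] (b (t [0, 2] (t
  [0, 2] (b (l (n 3 3 (n 5 2 e (n 2 4 e (n 2 2 (n 1 4 e (n 1 1 e e)) e))) e)) (l (n 2 4 e (n 3 2 (n
  2 2 (n 1 3 e (n 1 4 e (n 5 3 e (n 5 4 e (n 3 3 e e))))) e) e)))))) (t [0, 1, 2] (t [0, 1, 2] (b (l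
  (n 2 4 e (n 5 2 e (n 2 3 e (n 5 4 e (n 1 3 e (n 3 2 e (n 1 4 e (n 3 3 e e))))))))) (l (n 2 4 e (n
  5 2 e (n 2 3 e (n 5 4 e (n 1 3 e (n 3 2 e (n 1 4 e (n 3 3 e e)))))))))))))))))))) (t [0, 2] (b (t
  [0, 1, 3] (f [0, 4] (b (b (t [0, 1] (t [0, 5] (t [0, 5] (b (l (n 2 2 (n 3 3 (n 1 4 e (n 1 1 (n 5 5
  e e) e)) e) e)) (l (n 2 3 (n 3 3 (n 1 4 e (n 5 2 e (n 1 2 (n 1 1 (n 2 2 e e) e) e))) e) e)))))) (t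
  [0, 4] (t [0, 1] (t [0, 5] (b (l (n 3 3 (n 2 4 (n 1 4 e (n 5 2 e (n 1 2 (n 1 1 (n 2 2 e e) e) e)))
  e) e)) (l (n 2 3 e (n 4 2 e (n 1 4 e (n 5 2 e (n 5 3 e (n 3 3 e (n 1 2 e (n 1 3 e (n 1 1 e
  e))))))))))))))) (t [0, 1] (b (t [0, 1] (t [0, 2] (t [0, 2] (b (l (n 2 2 (n 3 3 (n 1 4 e (n 1 1 e
  (n 5 5 e e))) e) e)) (l (n 2 3 (n 3 3 (n 1 4 e (n 1 2 e (n 5 2 e (n 2 2 e e)))) e) e)))))) (t [0,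
  4] (t [0, 2] (t [0, 1, 2] (b (l (n 3 3 (n 1 4 e (n 2 4 (n 5 2 e (n 1 1 e (n 2 2 e e))) e)) e)) (l
  (n 2 3 e (n 1 4 e (n 4 2 e (n 1 3 e (n 5 2 e (n 5 3 e (n 3 3 e e))))))))))))))))) (t [0, 3] (f [0,
  4] (b (t [0, 2] (t [0, 2] (t [0, 4] (t [0, 4] (b (l (n 2 2 (n 1 3 e (n 1 4 (n 3 3 e (n 4 4 (n 5 5
  e e) e)) e)) e)) (l (n 3 2 e (n 5 2 e (n 1 3 e (n 1 4 e (n 1 2 (n 1 1 (n 2 2 e e) e) e)))))))))))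
  (t [0, 1] (t [0, 2] (t [0, 2] (t [0, 1] (t [0, 1] (b (l (n 2 2 (n 1 3 e (n 1 4 e (n 3 3 e (n 5 5 e
  e)))) e)) (l (n 1 3 e (n 3 2 e (n 1 4 e (n 5 2 e (n 2 2 e e))))))))))))))))))))))) z)) z)

set_option maxRecDepth 100000 in
theorem f07A : chkQ 6 2 10897286400000 t07A
    (blks.getD 7 ⟨0, 0, 0, 0, 0, .zr, .zr⟩).A = some [2270268000000, 681080400000, 0] := by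
  decide +kernel

end Pool.Agent.TH32
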