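import Pool.Agent.TH32.H.Fast

set_option autoImplicit false

namespace Pool.Agent.TH32

open CT PT

set_option maxRecDepth 100000 in
/-- certificate for block 7 (Ld0R4), tree B -/
def t07B : PT :=
  (b (b (b (t [0, 1] (b (t [0, 1] (b (t [0, 1] (b (t [0, 1, 2] (t [0, 1] (t [0, 1, 2] (b (b (b (f
  [0, 4] (b (t [0, 6] (t [0, 6] (t [0, 1, 4] (l (n 2 4 e (n 2 3 (n 5 2 (n 3 3 (n 1 4 e (n 2 1 (n 1 5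
  (n 2 1 (n 2 6 e (n 2 2 e e)) e) e) e)) e) e) e)))))) (t [0, 6] (t [0, 6] (b (l (n 2 4 e (n 1 4 (n
  5 2 (n 5 3 e (n 3 2 e (n 3 5 e (n 4 5 (n 2 5 (n 2 6 e (n 2 2 e e)) e) e)))) e) (n 2 5 e (n 3 5 (n
  2 6 (n 3 2 e (n 3 5 e (n 1 2 (n 5 2 e (n 6 6 e e)) (n 6 6 (n 1 3 e (n 1 5 e e)) e)))) e) (n 1 3 e
  (n 2 6 (n 1 5 (n 1 2 e (n 2 3 e (n 6 6 e e))) e) e))))))) z))))) (f [0, 4] (b (t [0, 6] (t [0, 6]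
  (t [0, 1, 2, 3, 6] (l (n 2 4 e (n 2 3 (n 5 2 (n 3 3 (n 1 4 e (n 2 1 (n 1 5 (n 2 1 (n 2 6 e (n 2 2
  e e)) e) e) e)) e) e) e)))))) (t [0, 6] (t [0, 6] (b (l (n 2 4 e (n 1 4 (n 5 2 (n 5 3 e (n 3 2 e
  (n 2 6 e (n 3 5 e (n 5 4 e (n 2 3 (n 2 2 e (n 5 2 e (n 6 5 e e))) e)))))) e) (n 2 3 e (n 3 5 (n 3
  2 e (n 5 2 (n 1 2 (n 5 2 e (n 1 6 (n 2 6 e (n 3 2 e (n 3 3 e e))) (n 3 1 e (n 3 2 e e)))) (n 2 6 e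
  (n 3 1 (n 1 5 (n 3 2 e (n 3 3 e e)) e) (n 1 2 (n 3 2 e e) e)))) e)) (n 1 3 e (n 1 5 (n 1 2 e (n 1
  3 e (n 6 2 (n 1 2 (n 3 2 (n 2 5 e e) e) e) (n 3 6 e e)))) e))))))) z)))))) (b (f [0, 4] (b (t [0,
  6] (t [0, 6] (t [0, 1, 4] (l (n 1 3 e (n 1 4 e (n 2 4 e (n 2 3 (n 2 5 e (n 3 3 (n 6 2 (n 2 1 (n 1
  6 (n 6 5 e e) e) (n 2 2 (n 5 6 e e) e)) e) e)) e)))))))) (t [0, 6] (t [0, 6] (b (l (n 1 3 e (n 1 4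
  e (n 2 4 e (n 2 3 e (n 3 5 (n 3 2 e (n 5 2 (n 3 3 e (n 6 2 (n 2 1 e (n 2 2 e e)) e)) e)) (n 5 2 (n
  1 2 e (n 3 1 (n 3 2 e (n 5 6 (n 6 3 e (n 6 2 e (n 6 2 e e))) (n 5 1 e e))) e)) (n 6 2 (n 3 1 (n 2
  1 e e) e) (n 3 1 (n 6 3 e e) (n 5 3 e (n 3 6 (n 6 1 e (n 6 6 e e)) e))))))))))) z))))) (f [0, 4]
  (b (t [0, 6] (t [0, 6] (t [0, 1, 2, 3, 6] (l (n 1 3 e (n 1 4 e (n 2 4 e (n 2 3 (n 2 5 e (n 2 1 e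
  (n 5 2 e (n 2 6 e (n 3 3 e e))))) e)))))))) (t [0, 6] (t [0, 6] (b (l (n 1 3 e (n 1 4 e (n 2 4 e
  (n 2 3 e (n 3 5 (n 3 2 e (n 5 2 (n 2 6 e (n 2 1 e (n 3 2 e (n 3 3 e e)))) e)) (n 6 2 (n 2 1 (n 3 1
  e (n 5 6 e (n 5 2 (n 2 1 (n 5 3 e e) e) (n 2 3 (n 3 5 e e) e)))) (n 5 6 e (n 5 2 e (n 5 1 e (n 3 5
  (n 3 2 (n 2 5 e e) e) (n 2 5 (n 3 1 e e) e)))))) (n 3 1 e (n 5 2 e (n 5 3 e (n 3 6 e e)))))))))))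
  z))))))) (b (f [0, 3] (b (t [0, 5] (t [0, 5] (b (l (n 2 4 e (n 2 3 (n 5 2 (n 3 3 (n 1 4 e (n 2 1
  (n 1 5 (n 2 1 (n 2 6 (n 1 1 (n 2 2 (n 5 5 e e) e) e) e) e) e) e)) e) e) e))) z))) (t [0, 5] (t [0,
  5] (b (l (n 2 4 e (n 5 2 (n 5 3 (n 1 3 e (n 4 1 (n 1 5 (n 2 1 (n 2 6 (n 3 2 (n 2 2 e (n 1 1 (n 3 3
  (n 5 5 e e) e) e)) e) e) e) e) e)) (n 1 4 (n 3 2 e (n 3 5 e (n 4 5 (n 2 5 (n 2 6 e e) e) e))) (n 3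
  2 e (n 3 5 e (n 2 6 (n 2 1 (n 1 3 e (n 1 5 e (n 1 1 e e))) (n 2 5 e e)) e))))) e))) z))))) (t [0,
  1] (f [0, 3] (b (t [0, 5] (t [0, 5] (b (l (n 2 4 e (n 1 3 e (n 1 4 e (n 2 3 (n 3 3 (n 5 2 (n 2 6
  (n 5 2 (n 2 2 (n 5 5 e e) (n 2 1 e e)) e) e) e) e) e))))) z))) (t [0, 5] (t [0, 5] (b (l (n 1 3 e
  (n 1 4 e (n 2 4 e (n 5 2 (n 2 6 (n 5 3 (n 2 3 e (n 5 2 (n 3 2 e (n 1 3 e (n 3 3 e (n 2 1 (n 2 1 e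
  e) e)))) (n 3 1 (n 3 3 (n 5 5 e e) e) (n 3 5 e e)))) (n 3 2 e (n 3 5 e e))) e) e))))) z)))))))))))
  (t [0, 2] (b (t [0, 1, 3] (b (b (b (b (t [0, 1] (t [0, 7] (t [0, 7] (t [0, 4] (l (n 2 3 (n 5 2 (n
  3 3 (n 1 2 e (n 2 4 e (n 4 1 (n 1 5 (n 2 1 (n 2 6 e (n 2 2 e e)) e) e) e))) e) e) e)))))) (t [0,
  6] (t [0, 7] (t [0, 7] (t [0, 4, 6] (l (n 2 4 e (n 3 2 e (n 5 2 (n 1 3 e (n 1 4 e (n 4 3 e (n 2 1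
  (n 1 5 (n 2 1 (n 2 6 e (n 2 2 e e)) e) e) e)))) e))))))))) (b (t [0, 1] (t [0, 7] (t [0, 7] (l (n
  2 3 (n 2 5 e (n 3 3 (n 1 2 e (n 2 4 e (n 1 4 e (n 1 5 (n 1 2 e (n 2 6 e e)) e)))) e)) e))))) (t
  [0, 6] (t [0, 7] (t [0, 7] (t [0, 6] (l (n 2 4 e (n 3 2 e (n 5 2 (n 1 3 e (n 1 4 e (n 4 3 e (n 2 1
  (n 1 5 (n 2 1 (n 2 6 e (n 2 2 e e)) e) e) e)))) e)))))))))) (b (b (t [0, 1] (t [0, 7] (t [0, 7] (t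
  [0, 4] (l (n 1 3 e (n 2 3 (n 2 5 e (n 1 4 e (n 2 4 e (n 3 3 (n 6 2 (n 2 1 (n 1 6 (n 6 5 e e) e) (n
  2 2 (n 5 6 e e) e)) e) e)))) e))))))) (t [0, 6] (t [0, 7] (t [0, 7] (t [0, 4, 6] (l (n 1 3 e (n 1
  4 e (n 2 4 e (n 3 2 e (n 2 5 e (n 4 3 e (n 6 2 (n 2 1 (n 1 6 (n 6 5 e e) e) (n 2 2 (n 5 6 e e) e))
  e))))))))))))) (b (t [0, 1] (t [0, 7] (t [0, 7] (t [0, 3] (l (n 1 3 e (n 2 3 (n 2 5 e (n 2 1 e (n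
  1 4 e (n 5 2 e (n 2 6 e (n 3 3 e e)))))) e))))))) (t [0, 6] (t [0, 7] (t [0, 7] (t [0, 3, 6] (l (n
  2 3 e (n 4 2 e (n 1 2 e (n 1 3 e (n 3 5 e (n 3 1 e (n 1 4 e (n 5 3 e (n 3 6 e e)))))))))))))))))
  (b (b (t [0, 1] (t [0, 6] (t [0, 6] (t [0, 7] (l (n 2 3 (n 5 2 (n 3 3 (n 1 2 e (n 2 4 e (n 4 1 (n
  1 5 (n 2 1 (n 2 6 e e) e) e) e))) e) e) e)))))) (t [0, 5] (t [0, 6] (t [0, 6] (t [0, 5, 7] (l (n 2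
  3 e (n 4 2 e (n 5 3 (n 1 2 e (n 1 3 e (n 3 4 e (n 4 1 (n 1 5 (n 3 1 (n 3 6 e e) e) e) e))))
  e))))))))) (t [0, 1] (b (t [0, 1] (t [0, 6] (t [0, 6] (t [0, 7] (l (n 1 3 e (n 2 3 (n 1 4 e (n 2 5
  e (n 4 2 (n 2 6 (n 3 3 (n 2 1 e (n 2 5 e e)) e) e) e))) e))))))) (t [0, 5] (t [0, 6] (t [0, 6] (t
  [0, 5, 7] (l (n 1 3 e (n 1 4 e (n 2 3 e (n 4 2 e (n 3 5 e (n 4 3 (n 3 6 (n 3 1 e (n 3 5 e e)) e)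
  e)))))))))))))))) (t [0, 3] (b (b (b (t [0, 4] (t [0, 4] (t [0, 6] (t [0, 6] (t [0, 3] (l (n 3 2 e
  (n 5 2 (n 1 3 e (n 1 2 e (n 2 4 e (n 4 1 (n 1 5 (n 2 1 (n 2 6 e (n 2 2 e e)) e) e) e)))) e))))))))
  (t [0, 4] (t [0, 4] (t [0, 6] (t [0, 6] (l (n 3 2 e (n 2 5 e (n 1 2 e (n 2 4 e (n 1 3 e (n 1 4 e
  (n 2 6 e (n 1 5 (n 1 2 e (n 1 6 e e)) e)))))))))))))) (b (t [0, 4] (t [0, 4] (t [0, 6] (t [0, 6]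
  (t [0, 3] (l (n 1 3 e (n 3 2 e (n 2 5 e (n 1 4 e (n 2 4 e (n 6 2 (n 2 1 (n 1 6 (n 6 5 e e) e) (n 2
  2 (n 5 6 e e) e)) e)))))))))))) (t [0, 4] (t [0, 4] (t [0, 6] (t [0, 6] (t [0, 2] (l (n 1 3 e (n 3
  2 e (n 2 5 e (n 2 1 e (n 1 4 e (n 5 2 e (n 2 6 e e))))))))))))))) (b (t [0, 3] (t [0, 3] (t [0, 5]
  (t [0, 5] (t [0, 6] (l (n 3 2 e (n 5 2 (n 1 3 e (n 1 2 e (n 2 4 e (n 4 1 (n 1 5 (n 2 1 (n 2 6 e e)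
  e) e) e)))) e)))))))) (t [0, 1] (t [0, 3] (t [0, 3] (t [0, 5] (t [0, 5] (t [0, 6] (l (n 1 3 e (n 3
  2 e (n 1 4 e (n 2 5 e (n 4 2 (n 2 6 (n 2 1 e (n 2 5 e e)) e) e))))))))))))))))))) z)) (t [0, 3] (t
  [0, 2] (t [0, 2] (b (t [0, 1, 3] (t [0, 1] (t [0, 1, 2, 3] (f [0, 2] (b (f [0, 2] (b (t [0, 4, 5]
  (t [0, 5] (b (l (n 2 4 e (n 2 3 (n 5 2 e (n 3 3 (n 5 4 (n 4 1 (n 2 2 e (n 1 2 e (n 1 5 e (n 1 1 e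
  e)))) e) e) e)) e))) z))) (t [0, 4, 5] (t [0, 5] (b (l (n 2 4 e (n 5 2 e (n 2 3 e (n 3 2 e (n 5 4
  (n 3 3 e (n 4 1 (n 1 2 e (n 1 3 e (n 1 5 e (n 1 1 e e)))) (n 4 2 e e))) e)))))) z))))) (t [0, 1]
  (f [0, 2] (b (t [0, 2, 4] (t [0, 2] (b (l (n 2 4 e (n 2 3 (n 5 2 e (n 3 3 (n 1 4 e (n 1 2 e (n 5 4
  (n 2 2 e e) e))) e)) e))) z))) (t [0, 2, 4] (t [0, 2] (b (l (n 2 4 e (n 1 3 e (n 1 4 e (n 5 2 e (n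
  2 3 e (n 3 2 e (n 5 4 (n 3 3 e e) e)))))))) z))))))))))) (t [0, 3] (b (t [0, 1, 3, 4] (f [0, 3] (b
  (b (t [0, 1] (t [0, 5, 6] (t [0, 6] (b (l (n 2 3 (n 5 2 (n 3 3 (n 1 2 e (n 4 1 (n 1 5 (n 2 4 (n 1
  1 (n 2 2 (n 5 5 e e) e) e) e) e) e)) e) e) e)) z)))) (t [0, 4] (t [0, 5, 6] (t [0, 6] (b (l (n 2 3
  e (n 4 2 e (n 1 4 (n 5 3 e (n 5 2 e e)) (n 1 2 (n 5 3 e (n 2 5 (n 5 1 (n 3 3 e e) e) e)) (n 3 5 (n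
  1 3 (n 5 2 (n 1 1 (n 3 3 e e) e) (n 5 5 (n 1 1 (n 3 3 e e) e) e)) e) (n 1 3 e (n 4 3 e (n 1 5 e
  e))))))))) z))))) (t [0, 1] (b (t [0, 1] (t [0, 2, 5] (t [0, 2] (b (l (n 1 3 e (n 2 3 (n 1 4 e (n
  5 2 (n 2 4 (n 3 3 (n 2 2 (n 5 5 e e) e) e) e) e)) e))) z)))) (t [0, 4] (t [0, 2, 5] (t [0, 2] (b
  (l (n 1 3 e (n 1 4 e (n 2 3 e (n 4 2 e (n 3 5 (n 3 3 e (n 5 2 e (n 5 5 e e))) (n 4 3 e e)))))))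
  z))))))))) (t [0, 3, 4] (f [0, 3] (b (t [0, 2] (t [0, 2] (t [0, 4, 5] (t [0, 5] (b (l (n 3 2 e (n
  5 2 (n 1 2 e (n 1 3 e (n 4 1 (n 1 5 (n 2 4 (n 1 1 (n 2 2 (n 5 5 e e) e) e) e) e) e))) e))) z)))))
  (t [0, 1] (t [0, 2] (t [0, 2] (t [0, 1, 4] (t [0, 1] (b (l (n 1 3 e (n 3 2 e (n 1 4 e (n 5 2 (n 2
  2 (n 5 5 e e) (n 4 2 e e)) e))))) z))))))))))))))))) z) (b (t [0, 1] (f [0, 2] (f [0, 2] (t [0, 1]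
  (t [0, 1] (b (t [0, 1, 1] (t [0, 1] (t [0, 1, 1] (f [0, 3] (b (f [0, 2] (b (t [0, 3] (t [0, 3] (b
  (l (n 2 4 e (n 2 3 (n 3 3 (n 5 2 e (n 5 4 e (n 2 2 e (n 1 2 e (n 1 4 e (n 1 1 e e)))))) e) e)))
  z))) (t [0, 1] (t [0, 1] (b (l (n 5 2 e (n 2 4 e (n 2 3 e (n 3 1 (n 3 2 e (n 3 3 e (n 1 4 e (n 1 1
  e e)))) (n 1 2 (n 3 2 e e) e)))))) z))))) (t [0, 1] (f [0, 2] (b (t [0, 2] (t [0, 2] (b (l (n 2 4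
  e (n 3 2 (n 2 2 (n 1 3 e (n 1 4 e (n 5 3 e (n 5 4 e (n 3 3 e e))))) e) e))) z))) (t [0, 1, 2] (t
  [0, 1, 2] (b (l (n 2 4 e (n 5 2 e (n 2 3 e (n 5 4 e (n 1 3 e (n 3 2 e (n 1 4 e (n 3 3 e e)))))))))
  z))))))))))) (t [0, 2] (b (t [0, 1, 3] (f [0, 4] (b (b (t [0, 1] (t [0, 5] (t [0, 5] (b (l (n 2 3
  (n 3 3 (n 1 4 e (n 5 2 e (n 1 2 (n 1 1 (n 2 2 e e) e) e))) e) e)) z)))) (t [0, 4] (t [0, 1] (t [0,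
  5] (b (l (n 2 3 e (n 4 2 e (n 1 4 e (n 5 2 e (n 5 3 e (n 3 3 e (n 1 2 e (n 1 3 e (n 1 1 e
  e)))))))))) z))))) (t [0, 1] (b (t [0, 1] (t [0, 2] (t [0, 2] (b (l (n 2 3 (n 3 3 (n 1 4 e (n 1 2
  e (n 5 2 e (n 2 2 e e)))) e) e)) z)))) (t [0, 4] (t [0, 2] (t [0, 1, 2] (b (l (n 2 3 e (n 1 4 e (n
  4 2 e (n 1 3 e (n 5 2 e (n 5 3 e (n 3 3 e e)))))))) z))))))))) (t [0, 3] (f [0, 4] (b (t [0, 2] (t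
  [0, 2] (t [0, 4] (t [0, 4] (b (l (n 3 2 e (n 5 2 e (n 1 3 e (n 1 4 e (n 1 2 (n 1 1 (n 2 2 e e) e)
  e)))))) z))))) (t [0, 1] (t [0, 2] (t [0, 2] (t [0, 1] (t [0, 1] (b (l (n 1 3 e (n 3 2 e (n 1 4 e
  (n 5 2 e (n 2 2 e e)))))) z))))))))))))))))) z)) z)

set_option maxRecDepth 100000 in
theorem f07B : chkQ 6 3 10897286400000 t07B
    (blks.getD 7 ⟨0, 0, 0, 0, 0, .zr, .zr⟩).B = some [-1078377300000, -170270100000, 0] := by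
  decide +kernel

end Pool.Agent.TH32
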