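import Pool.Agent.TH32.H.Fast

set_option autoImplicit false

namespace Pool.Agent.TH32

open CT PT

set_option maxRecDepth 100000 in
/-- certificate for block 8 (Le0R1), tree B -/
def t08B : PT :=
  (b (b (b (b (b (t [0, 1] (b (t [0, 1] (b (t [0, 1] (b (b (t [0, 2] (t [0, 1] (t [0, 6] (b (b (b (t
  [0, 1] (t [0, 0, 2, 6, 8] (t [0, 0, 2, 6, 8] (t [0, 3, 8, 9] (l (n 2 3 (n 2 5 (n 6 2 (n 3 3 (n 1 4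
  e (n 2 2 (n 5 5 (n 6 1 e (n 4 6 e e)) e) e)) e) e) e) e)))))) (f [0, 1] (t [0, 0, 2, 6, 8] (t [0,
  0, 2, 6, 8] (b (l (n 5 6 (n 2 5 (n 2 3 e (n 5 5 (n 6 6 (n 3 2 e (n 1 4 (n 4 2 (n 1 2 (n 3 3 e e)
  (n 3 3 e (n 1 3 e (n 1 4 e e)))) e) (n 1 2 (n 3 3 e (n 4 2 e (n 4 3 e e))) (n 3 1 e (n 4 3 e
  e))))) e) e)) e) e)) z))))) (b (t [0, 1] (t [0, 1, 4] (t [0, 1, 4] (t [0, 3, 8] (l (n 1 4 (n 2 3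
  (n 2 5 e e) e) (n 5 6 (n 3 2 (n 2 2 (n 3 5 e (n 1 3 e (n 5 1 e (n 4 5 (n 6 4 (n 6 3 (n 1 3 e e) (n
  6 6 e e)) e) e)))) e) e) e))))))) (f [0, 1] (b (t [0, 1] (b (l (n 1 3 (n 5 6 (n 6 4 (n 2 5 e (n 5
  3 e (n 1 5 (n 1 2 (n 3 5 e (n 5 4 e (n 2 5 (n 3 2 e (n 3 1 e (n 3 2 e (n 6 1 e (n 6 2 e e)))))
  e))) (n 4 5 (n 1 4 (n 3 4 e (n 3 5 e (n 3 2 e (n 6 2 e (n 6 6 e e))))) (n 6 2 (n 1 5 (n 3 5 e (n 3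
  2 e (n 6 3 e e))) (n 1 2 (n 3 2 e (n 6 3 e e)) (n 1 6 (n 6 3 e e) e))) (n 6 6 (n 1 5 (n 3 5 e (n 3
  2 e e)) (n 1 2 (n 3 2 e e) e)) e))) (n 1 5 (n 1 4 e (n 3 5 e (n 3 2 e (n 3 3 e (n 6 2 e (n 6 6 e
  e)))))) (n 1 4 (n 4 5 (n 6 2 (n 1 2 (n 3 2 e (n 3 6 e e)) (n 1 6 (n 3 6 e e) e)) (n 1 2 (n 6 6 (n
  3 2 e (n 3 3 e e)) e) (n 6 6 (n 1 1 (n 3 3 e e) e) e))) e) (n 1 2 (n 6 2 (n 3 2 (n 4 2 e (n 6 4 e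
  e)) (n 3 6 (n 6 4 e e) e)) (n 6 1 (n 3 2 (n 4 2 e e) e) e)) (n 6 2 e (n 6 6 e e))))))) (n 5 4 e (n
  2 5 (n 1 2 (n 6 2 (n 1 2 (n 3 2 (n 4 2 (n 5 2 e (n 6 5 e e)) (n 4 6 (n 6 5 e e) e)) (n 3 6 (n 4 6
  (n 6 5 e e) e) e)) (n 1 6 (n 3 6 (n 4 6 (n 6 5 e e) e) e) e)) (n 1 2 (n 6 1 (n 3 2 (n 4 2 (n 5 2 e
  e) e) e) e) (n 6 1 e (n 6 2 e e)))) e) e))))) e) e) e)) z)) z)))) (b (b (t [0, 1] (t [0, 1, 4] (t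
  [0, 1, 4] (b (l (n 1 3 e (n 2 3 (n 3 3 (n 2 5 (n 6 2 (n 2 2 (n 5 5 (n 6 6 e (n 4 1 e (n 4 6 e e)))
  e) e) e) (n 2 1 (n 6 4 (n 1 4 e (n 5 6 (n 6 2 e (n 6 6 e e)) e)) (n 5 6 e (n 5 4 (n 4 2 e (n 4 4 e
  e)) e))) e)) e) e))) z)))) (f [0, 1] (b (t [0, 1] (b (l (n 1 3 e (n 1 4 (n 5 6 (n 5 2 (n 5 4 (n 4
  4 (n 2 6 (n 3 2 (n 3 5 e (n 6 6 (n 1 2 e (n 3 1 (n 2 3 (n 5 5 (n 2 2 e e) (n 5 1 e e)) e) e)) e))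
  (n 5 3 e (n 5 2 (n 6 6 (n 5 5 e (n 2 1 (n 5 1 e e) e)) e) (n 6 6 (n 3 5 e (n 2 1 e (n 2 2 e e)))
  e)))) e) e) (n 2 6 (n 3 2 (n 3 4 e (n 1 3 e (n 6 6 (n 2 1 (n 3 2 e (n 5 3 (n 4 1 e (n 4 4 e e))
  e)) e) e))) (n 6 6 (n 5 3 (n 4 3 e (n 2 4 (n 3 4 (n 5 4 e (n 2 1 e (n 2 2 e e))) (n 2 1 e (n 2 2 e
  e))) (n 2 1 (n 4 1 e e) e))) (n 2 4 (n 3 4 e (n 5 3 (n 2 1 e (n 2 2 e e)) e)) (n 3 5 (n 2 1 (n 5 2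
  (n 4 1 (n 1 1 (n 4 4 e e) e) e) e) e) (n 1 2 e (n 4 1 e (n 4 4 e e)))))) e)) (n 6 1 (n 3 5 (n 3 2
  e (n 3 4 e (n 3 5 e (n 6 3 (n 2 1 e e) e)))) (n 2 5 (n 3 4 (n 3 4 (n 5 4 e (n 6 5 (n 2 1 e e) e))
  (n 2 1 (n 3 6 (n 6 5 e e) e) e)) (n 2 1 (n 6 3 (n 2 3 e e) (n 3 6 (n 4 6 (n 6 5 e e) e) e)) e))
  e)) e))) e) e) (n 2 3 e (n 3 6 (n 3 2 e (n 5 2 (n 4 3 e (n 2 4 (n 6 4 (n 3 3 e (n 6 2 (n 2 1 (n 5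
  1 e (n 5 4 e e)) e) (n 5 6 (n 6 6 e e) (n 5 1 e (n 5 4 e e))))) e) e)) (n 3 5 (n 5 6 (n 5 2 (n 4 2
  (n 6 4 (n 3 3 e (n 2 1 e (n 2 2 e e))) e) (n 3 3 e (n 6 2 e (n 6 6 e e)))) (n 6 6 (n 5 5 (n 3 3 e
  e) e) e)) e) (n 4 3 e (n 2 4 (n 6 2 e (n 4 6 e (n 6 6 e e))) (n 6 4 (n 2 1 e e) e)))))) (n 1 3 (n
  5 6 (n 5 2 e (n 3 5 (n 6 4 (n 2 4 (n 3 4 e e) e) e) e)) e) (n 5 6 (n 6 4 (n 5 2 (n 2 1 (n 3 2 (n 6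
  2 e (n 5 1 e (n 5 4 e e))) (n 5 1 e (n 5 4 e e))) e) (n 2 1 e (n 2 4 e e))) e) e))))))) z)) z)))
  (b (t [0, 1] (t [0, 1, 4] (t [0, 1, 4] (t [0, 3] (l (n 1 3 e (n 2 3 (n 3 3 (n 2 1 e (n 2 6 (n 2 5
  e (n 6 4 (n 5 4 e (n 4 2 e (n 6 1 e (n 6 6 e e)))) e)) (n 5 6 (n 5 4 e (n 5 2 e (n 6 4 e e))) e)))
  e) e))))))) (f [0, 1] (b (t [0, 1] (b (l (n 1 3 e (n 1 4 (n 5 6 (n 5 2 (n 5 3 (n 2 3 e (n 4 5 (n 3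
  6 (n 5 2 (n 1 5 (n 6 2 e (n 4 2 e (n 6 1 (n 4 2 e (n 3 4 (n 3 5 (n 5 5 (n 2 2 (n 3 3 e e) e) (n 4
  5 e e)) e) (n 5 4 (n 1 3 (n 3 2 e e) e) e))) (n 4 2 e (n 5 4 (n 5 6 e (n 2 3 (n 3 4 e (n 3 5 e e))
  e)) e))))) (n 6 2 e (n 6 5 (n 2 1 (n 3 1 e (n 1 2 (n 4 3 (n 4 2 e (n 5 3 e e)) (n 3 3 e (n 2 4 e
  (n 2 3 e e)))) (n 4 3 (n 5 3 e (n 3 3 (n 4 4 e e) e)) (n 3 3 e e)))) (n 4 2 e (n 4 1 e (n 3 4 (n 4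
  2 (n 3 2 e e) (n 2 2 (n 3 3 e e) e)) (n 4 2 e (n 1 3 (n 3 5 e e) e)))))) e))) (n 3 1 (n 2 1 e (n 6
  1 (n 3 2 (n 4 2 (n 5 2 e (n 5 5 e e)) (n 4 4 (n 5 5 e e) e)) (n 3 3 (n 4 4 (n 5 5 e e) e) e)) (n 4
  6 e (n 6 2 (n 3 2 (n 4 2 (n 5 2 e e) e) e) (n 6 6 e e))))) (n 4 3 e (n 4 2 (n 6 4 (n 1 2 (n 3 2 (n
  2 5 e e) e) e) e) (n 6 2 e (n 6 6 e e)))))) (n 5 2 e (n 5 3 e (n 1 2 (n 4 6 (n 6 1 (n 3 2 (n 4 2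
  (n 2 5 e e) e) e) e) (n 2 3 e (n 4 2 (n 5 2 (n 2 6 e e) e) e))) (n 6 1 (n 3 1 e e) (n 2 6 (n 6 4 e
  e) e)))))) e)) (n 4 6 (n 3 2 e (n 4 2 (n 2 1 (n 6 2 (n 5 3 (n 4 1 e (n 3 4 e (n 4 4 e e))) e) e)
  (n 6 1 (n 3 5 e (n 2 3 (n 4 3 (n 2 2 (n 4 4 e e) e) e) e)) e)) e)) (n 3 2 e (n 4 3 (n 6 2 (n 3 5
  (n 2 1 (n 5 4 (n 6 1 e (n 4 6 e (n 6 6 e e))) e) (n 4 5 e (n 2 4 (n 6 4 (n 2 2 (n 6 6 e e) e) e)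
  e))) (n 2 1 (n 6 1 e (n 6 6 e (n 3 6 (n 4 6 e e) e))) (n 2 3 (n 6 3 (n 2 2 (n 6 6 e e) e) (n 4 6 e
  e)) (n 4 2 e (n 6 4 e e))))) e) (n 5 3 (n 4 5 (n 6 2 (n 2 1 (n 6 1 e (n 3 6 e (n 6 6 e e))) (n 3 2
  e (n 6 3 (n 2 2 (n 6 6 e e) e) e))) e) e) e))))) e) e) (n 2 3 e (n 3 6 (n 3 2 e (n 5 2 (n 4 2 e (n
  2 6 (n 2 4 (n 3 4 (n 5 1 e (n 5 4 e (n 6 4 (n 3 5 e (n 3 3 e e)) e))) e) e) (n 1 2 e (n 6 4 (n 3 4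
  (n 1 5 (n 5 4 e (n 3 5 e (n 5 5 e e))) e) e) e)))) (n 3 5 (n 2 5 e (n 5 6 (n 1 2 (n 2 4 e (n 6 4
  (n 3 2 e (n 3 3 e e)) e)) e) e)) (n 3 4 (n 1 2 (n 2 4 e (n 4 6 e (n 3 2 (n 5 2 e e) e))) e) e))))
  (n 5 6 (n 3 1 (n 6 4 (n 1 2 (n 5 2 e (n 2 4 e (n 3 1 (n 5 1 (n 6 1 e (n 2 6 e e)) (n 5 2 (n 2 6 e
  e) e)) (n 3 2 (n 5 2 (n 2 6 e e) e) e)))) e) e) (n 5 2 e (n 5 3 e (n 2 4 (n 4 6 (n 6 2 e e) (n 3 4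
  e e)) (n 6 4 (n 1 2 (n 3 2 (n 2 5 e e) e) e) e))))) e)))))) z)) z)))))))) z) (b (f [0, 2] (t [0,
  1] (t [0, 6] (b (b (t [0, 4] (t [0, 4] (t [0, 3] (t [0, 3] (t [0, 2, 7, 8] (l (n 2 5 (n 5 5 (n 3 2
  e (n 6 2 (n 1 3 e (n 2 2 (n 1 6 (n 1 4 e e) e) e)) e)) e) e))))))) (t [0, 4] (t [0, 4] (t [0, 3]
  (t [0, 3] (t [0, 1, 2, 3, 11] (l (n 3 2 e (n 2 5 e (n 1 3 e (n 5 6 (n 1 2 e (n 6 2 (n 1 5 (n 1 4 e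
  (n 1 2 e (n 6 4 e e))) e) (n 6 6 (n 1 5 (n 1 4 e (n 4 2 e e)) e) e))) e))))))))))) (b (t [0, 4] (t
  [0, 4] (t [0, 3] (t [0, 3] (b (l (n 1 3 e (n 3 2 e (n 2 5 (n 6 2 (n 2 2 (n 5 5 (n 6 6 e (n 4 1 e
  (n 4 6 e e))) e) e) e) (n 2 1 (n 6 4 (n 1 4 e (n 5 6 (n 6 2 e (n 6 6 e e)) e)) (n 5 6 e (n 5 4 (n
  4 2 e (n 4 4 e e)) e))) e))))) z))))) (t [0, 4] (t [0, 4] (t [0, 3] (t [0, 3] (t [0, 1, 2, 3, 11]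
  (l (n 1 3 e (n 3 2 e (n 2 5 e (n 2 1 e (n 6 5 (n 6 4 e (n 6 2 e (n 5 5 e e))) (n 4 6 e (n 5 4 e (n
  5 2 e (n 6 1 e (n 6 2 e e))))))))))))))))))))) z))) z)) (f [0, 1] (t [0, 2, 3] (t [0, 2, 3] (b (t
  [0, 1, 3] (t [0, 1] (t [0, 1, 3] (t [0, 4] (b (b (b (t [0, 1] (t [0, 6] (t [0, 6] (t [0, 3, 5, 6,
  7, 7, 10] (l (n 2 3 (n 3 3 (n 2 5 (n 5 5 (n 6 2 e (n 1 2 (n 1 4 e (n 4 6 e e)) e)) e) e) e)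
  e)))))) (f [0, 1] (t [0, 6] (t [0, 6] (b (l (n 6 5 (n 6 2 e e) (n 2 5 (n 2 3 e (n 3 2 e (n 5 5 (n
  1 3 (n 4 2 (n 4 6 e (n 1 1 (n 3 3 e e) e)) (n 1 4 e (n 2 6 (n 6 4 e e) e))) (n 1 2 (n 4 6 e (n 3 4
  (n 3 3 e (n 2 4 (n 1 4 (n 4 1 (n 6 1 e e) e) (n 6 4 e (n 6 1 e (n 6 1 e e)))) (n 2 6 (n 6 1 e (n 6
  1 e e)) e))) (n 2 6 (n 3 6 (n 6 1 e (n 6 1 e e)) e) e))) e)) e))) e))) z))))) (b (t [0, 1] (t [0,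
  6] (t [0, 6] (t [0, 2, 3, 5, 6, 10] (l (n 6 2 e (n 2 3 (n 2 5 e (n 3 3 (n 1 2 e (n 1 5 (n 1 4 e (n
  4 2 e (n 4 6 e e))) e)) e)) e))))))) (f [0, 1] (t [0, 6] (t [0, 6] (b (l (n 2 3 e (n 5 6 (n 5 2 e
  (n 3 5 e (n 5 2 e (n 1 3 (n 2 3 e (n 4 2 (n 6 4 (n 5 5 e (n 6 1 e (n 6 3 e e))) e) e)) (n 6 4 (n 1
  2 (n 5 5 e (n 6 3 e (n 6 2 (n 6 6 e (n 2 3 (n 1 3 (n 1 3 e (n 4 1 e e)) (n 3 4 (n 4 1 e (n 4 1 e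
  e)) e)) (n 2 4 (n 1 4 (n 4 1 e e) e) e))) (n 1 3 (n 1 3 e (n 1 4 e (n 6 1 e e))) (n 3 4 (n 1 4 (n
  4 1 (n 6 1 e e) e) (n 6 4 e (n 6 1 e (n 6 1 e e)))) (n 3 6 (n 6 1 e (n 6 1 e e)) e)))))) (n 1 5 (n
  6 3 e (n 6 6 e (n 1 3 (n 2 3 (n 2 3 e (n 4 2 (n 6 2 (n 1 1 (n 5 5 e e) e) e) e)) (n 3 4 (n 4 2 (n
  4 6 (n 6 2 (n 1 1 (n 5 5 e e) e) (n 6 2 (n 1 1 (n 5 5 e e) e) e)) (n 1 1 (n 5 5 e e) e)) (n 4 2 (n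
  6 2 (n 1 1 (n 5 5 e e) e) e) e)) (n 6 3 (n 1 1 (n 5 5 e e) e) (n 6 2 (n 1 1 (n 5 5 e e) e) (n 6 2
  (n 1 1 (n 5 5 e e) e) e))))) (n 1 4 (n 2 4 (n 4 2 (n 6 2 e e) e) (n 6 4 e (n 6 2 e (n 6 2 e e))))
  (n 1 6 (n 6 2 e (n 6 2 e e)) e))))) e)) e))))) e))) z)))))) (b (b (t [0, 1] (t [0, 6] (t [0, 6] (b
  (l (n 1 3 e (n 2 3 (n 2 5 (n 5 5 (n 6 2 e (n 3 3 (n 4 1 (n 4 6 e (n 2 2 e e)) (n 2 4 e (n 1 6 (n 6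
  4 e e) e))) e)) e) (n 6 5 e (n 2 1 (n 3 3 (n 4 6 e (n 6 2 e (n 1 4 (n 5 4 e (n 5 6 e e)) (n 1 6 (n
  5 6 e e) e)))) e) e))) e))) z)))) (f [0, 1] (t [0, 6] (t [0, 6] (b (l (n 1 3 e (n 6 2 e (n 5 2 (n
  2 3 (n 5 3 e (n 4 2 e (n 2 5 (n 5 3 (n 3 3 e (n 6 4 (n 3 3 e (n 1 4 (n 2 1 (n 4 3 (n 6 3 e (n 6 5
  e (n 6 5 e e))) (n 4 5 (n 4 6 (n 6 5 e (n 6 5 e e)) e) (n 4 5 (n 6 5 e e) e))) (n 2 2 (n 4 3 (n 6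
  3 e (n 6 5 e (n 6 5 e e))) (n 4 5 (n 4 6 (n 6 5 e (n 6 5 e e)) e) (n 4 5 (n 6 5 e e) e))) e)) (n 2
  4 (n 1 6 (n 6 3 e (n 6 5 e (n 6 5 e (n 6 6 e e)))) e) (n 6 1 (n 2 1 e (n 2 6 e e)) (n 6 3 (n 2 1 e
  (n 2 2 e e)) (n 6 5 (n 2 1 e (n 2 2 e e)) (n 6 5 (n 2 1 e (n 2 2 e e)) e))))))) e)) e) (n 2 1 (n 1
  4 (n 3 4 e (n 1 6 (n 5 1 (n 6 4 e e) e) (n 5 1 e (n 5 6 e e)))) (n 5 4 (n 6 4 (n 2 2 (n 3 3 e e)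
  e) (n 5 6 e (n 2 2 (n 3 3 e e) e))) (n 5 1 (n 6 4 (n 2 2 (n 3 3 e e) e) e) e))) e)))) (n 3 2 e (n
  1 3 e (n 3 5 e (n 4 3 e (n 4 5 e (n 1 4 (n 4 5 (n 4 6 (n 1 2 e (n 1 2 e (n 6 1 e e))) (n 2 1 (n 2
  1 (n 1 1 (n 4 4 e e) e) e) e)) e) (n 4 6 e (n 4 2 e (n 2 4 e e)))))))))) e)))) z))))) (b (t [0, 1]
  (t [0, 6] (t [0, 6] (t [0, 2, 3, 5, 6, 10] (l (n 1 3 e (n 6 2 e (n 2 3 (n 2 5 e (n 2 1 e (n 4 1 e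
  (n 5 4 e (n 3 3 (n 4 2 e (n 4 6 e e)) e))))) e)))))))) (f [0, 1] (t [0, 6] (t [0, 6] (b (l (n 1 3
  e (n 6 2 e (n 2 5 e (n 3 2 (n 3 2 e (n 3 4 (n 5 3 (n 4 6 e (n 4 2 e (n 4 2 e (n 1 2 e (n 1 2 e (n
  5 1 (n 3 1 e (n 5 3 e (n 3 3 e (n 5 4 e (n 6 5 e e))))) e)))))) e) e)) (n 5 3 e (n 2 1 e (n 4 1 e
  (n 3 5 (n 1 5 e (n 4 2 e (n 5 2 (n 3 2 (n 3 2 e (n 4 3 (n 4 6 e e) e)) (n 4 2 (n 4 6 e e) (n 6 2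
  (n 3 4 (n 4 3 e e) e) (n 4 3 (n 4 6 e e) (n 3 6 (n 3 4 e (n 6 4 e e)) (n 3 4 (n 4 6 e e) e))))))
  (n 4 3 (n 4 6 e e) (n 5 4 (n 3 4 e (n 3 6 (n 5 6 (n 6 4 e (n 6 4 e e)) e) e)) (n 3 6 (n 6 4 e e)
  e)))))) (n 4 2 e (n 3 2 (n 5 2 (n 2 5 (n 4 5 (n 4 6 e e) e) e) (n 4 2 (n 4 6 e e) (n 6 2 (n 4 5 e
  (n 4 5 e e)) (n 4 5 (n 4 6 e e) (n 5 6 (n 4 5 (n 6 4 e e) e) (n 4 5 e (n 4 6 e e))))))) (n 4 3 (n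
  4 6 e e) (n 6 3 (n 5 4 (n 4 5 e e) e) (n 4 5 (n 4 6 e e) (n 5 6 (n 5 4 e (n 6 4 e e)) (n 5 4 (n 4
  6 e e) e)))))))))))))))) z))))))))))) (t [0, 3] (f [0, 1] (t [0, 3] (t [0, 4] (b (b (t [0, 3] (t
  [0, 3] (t [0, 5] (t [0, 5] (t [0, 2, 4, 5, 6, 6, 9] (l (n 3 2 e (n 5 2 (n 5 6 (n 2 2 (n 1 3 e (n 1
  5 (n 1 4 e (n 6 4 (n 6 6 e e) e)) e)) e) e) e)))))))) (t [0, 3] (t [0, 3] (t [0, 5] (t [0, 5] (t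
  [0, 1, 2, 4, 5, 9] (l (n 3 2 e (n 2 5 e (n 5 6 (n 1 2 e (n 1 3 e (n 1 5 (n 1 4 e (n 6 4 (n 6 2 e
  (n 6 6 e e)) e)) e))) e)))))))))) (b (t [0, 3] (t [0, 3] (t [0, 5] (t [0, 5] (b (l (n 1 3 e (n 3 2
  e (n 6 5 (n 6 2 e e) (n 2 5 (n 5 5 (n 4 1 (n 4 6 e (n 2 2 e e)) (n 2 4 e (n 1 6 (n 6 4 e e) e)))
  e) (n 2 1 (n 4 6 e (n 6 2 e (n 1 4 (n 5 4 e (n 5 6 e e)) (n 1 6 (n 5 6 e e) e)))) e)))))) z)))))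
  (t [0, 3] (t [0, 3] (t [0, 5] (t [0, 5] (t [0, 1, 2, 4, 5, 9] (l (n 1 3 e (n 3 2 e (n 2 5 e (n 6 5
  e (n 6 2 e (n 2 1 e (n 4 1 e (n 5 4 e (n 4 2 e (n 4 6 e e)))))))))))))))))))))))))))) z) (b (t [0,
  1] (f [0, 2, 4] (f [0, 2, 4] (t [0, 1] (t [0, 1] (b (t [0, 1, 2] (t [0, 1] (t [0, 1, 2] (f [0, 3]
  (b (b (t [0, 1] (t [0, 4] (t [0, 4] (t [0, 2, 4] (l (n 2 3 (n 3 3 (n 5 6 (n 5 2 e (n 1 2 (n 1 4 e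
  (n 6 4 e e)) e)) e) e) e)))))) (f [0, 1] (t [0, 4] (t [0, 4] (b (l (n 5 6 (n 5 2 e (n 2 3 e (n 3 2
  e (n 1 3 (n 4 2 (n 6 4 (n 1 1 (n 3 3 e e) e) e) (n 1 4 e (n 6 2 e (n 6 4 e e)))) (n 1 2 (n 6 4 (n
  3 4 (n 3 3 e (n 2 4 (n 4 1 (n 4 6 (n 6 1 e (n 6 1 e e)) e) (n 4 1 (n 6 1 e e) e)) (n 6 2 e (n 6 1
  e (n 6 1 e e))))) (n 2 6 (n 6 3 e (n 6 1 e (n 6 1 e e))) e)) e) e))))) e)) z))))) (t [0, 1] (b (t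
  [0, 1] (t [0, 4] (t [0, 4] (b (l (n 2 3 (n 3 3 (n 5 6 (n 5 2 e (n 2 2 e (n 1 4 e (n 6 4 (n 1 2 (n
  4 2 (n 6 2 e e) e) e) e)))) e) e) e)) z)))) (f [0, 1] (t [0, 4] (t [0, 4] (b (l (n 5 6 (n 5 2 e (n
  2 3 e (n 1 3 e (n 3 2 e (n 6 4 (n 3 4 (n 3 3 e (n 4 1 (n 6 1 e (n 6 2 e (n 6 2 e e))) (n 4 2 (n 4
  6 (n 6 2 e (n 6 2 e e)) e) (n 4 2 (n 6 2 e e) e)))) (n 1 6 (n 6 3 e (n 6 2 e (n 6 2 e (n 6 6 e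
  e)))) e)) e))))) e)) z))))))))))) (t [0, 2] (f [0, 1] (t [0, 2] (f [0, 3] (b (t [0, 2] (t [0, 2]
  (t [0, 3] (t [0, 3] (t [0, 1, 3] (l (n 3 2 e (n 5 6 (n 5 2 e (n 1 3 e (n 1 2 (n 1 4 e (n 6 4 e e))
  e))) e)))))))) (t [0, 1] (t [0, 2] (t [0, 2] (t [0, 3] (t [0, 3] (b (l (n 1 3 e (n 3 2 e (n 5 6 (n
  5 2 e (n 4 1 (n 6 4 (n 2 2 e e) e) (n 2 4 e (n 6 1 e (n 6 4 e e))))) e)))) z))))))))))))))))) z))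
  z) (b (b (b (t [0, 1] (t [0, 2] (t [0, 2] (b (t [0, 1] (b (t [0, 1, 2] (t [0, 1] (t [0, 1, 2] (b
  (b (b (b (t [0, 1] (t [0, 6] (t [0, 6] (t [0, 3, 4, 4, 6, 10, 10] (l (n 5 6 e (n 2 3 (n 6 2 (n 3 3
  (n 1 2 e (n 6 1 e (n 4 1 (n 2 1 (n 2 5 e (n 2 2 e e)) e) e))) e) e) e))))))) (f [0, 1] (t [0, 6]
  (t [0, 6] (b (l (n 2 5 (n 6 2 (n 6 3 (n 1 3 e (n 6 1 e (n 2 1 (n 2 3 e (n 4 1 (n 5 5 e e) e)) e)))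
  (n 3 2 e (n 3 6 e (n 2 1 (n 5 5 (n 2 2 e (n 1 4 (n 4 6 (n 1 3 e (n 1 4 e (n 1 6 e e))) e) (n 1 3
  (n 4 3 e (n 4 6 e e)) (n 1 6 (n 4 6 e e) e)))) e) (n 6 4 e (n 2 6 (n 5 5 e e) e)))))) e) e))
  z))))) (b (t [0, 1] (t [0, 6] (t [0, 6] (t [0, 2, 3, 6, 10, 10] (l (n 2 3 (n 3 3 (n 5 6 e (n 2 6 e
  (n 1 2 e (n 2 5 e (n 1 6 (n 1 4 e (n 1 2 e (n 1 5 e e))) e))))) e) e)))))) (f [0, 1] (t [0, 6] (t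
  [0, 6] (b (l (n 5 6 e (n 6 2 (n 6 3 (n 1 3 e (n 6 1 e (n 2 1 (n 4 1 (n 2 3 e (n 2 5 (n 3 5 e e) (n
  1 2 (n 3 2 (n 4 2 (n 6 2 e e) e) e) e))) e) e))) (n 3 6 e (n 2 3 (n 1 2 (n 1 5 (n 4 6 (n 2 6 (n 2
  5 e (n 3 2 e (n 2 2 e e))) e) e) (n 4 6 (n 2 6 (n 3 1 e (n 2 3 (n 1 1 (n 2 2 e e) e) e)) e) e)) (n
  2 5 e (n 3 2 e (n 4 1 (n 2 1 (n 1 3 (n 2 2 e (n 4 3 e (n 4 6 e e))) (n 2 2 e (n 1 6 (n 4 6 e e)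
  e))) (n 4 2 e (n 4 3 e (n 4 6 e e)))) (n 4 6 (n 2 2 e (n 1 2 e (n 1 3 e (n 4 1 (n 1 6 e e) e))))
  e))))) e))) e))) z)))))) (b (b (t [0, 1] (t [0, 6] (t [0, 6] (t [0, 4, 10] (l (n 1 3 e (n 2 3 (n 5
  6 e (n 6 2 (n 6 4 (n 2 1 (n 4 1 (n 2 5 e (n 3 3 e e)) e) e) (n 3 3 (n 2 5 e (n 2 1 (n 1 5 (n 5 6 e
  e) e) (n 2 2 (n 6 5 e e) e))) e)) e)) e))))))) (f [0, 1] (t [0, 6] (t [0, 6] (b (l (n 1 3 e (n 5 6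
  e (n 2 6 e (n 3 6 (n 3 2 e (n 3 6 e (n 5 2 (n 1 4 (n 3 4 (n 4 6 (n 2 1 e (n 2 2 e e)) (n 4 6 (n 2
  1 e (n 2 2 e e)) e)) (n 2 1 e (n 2 2 e e))) (n 2 1 e (n 2 4 e (n 2 2 e e)))) e))) (n 1 4 (n 6 2 e
  (n 4 6 (n 2 3 e (n 5 2 (n 2 1 (n 3 1 e e) e) (n 3 5 (n 5 5 e e) (n 3 1 e e)))) e)) (n 6 2 (n 2 1
  (n 2 3 (n 6 3 e (n 3 5 (n 5 6 (n 6 1 e (n 6 4 e e)) (n 5 2 e e)) (n 1 3 (n 3 4 (n 6 4 e e) e) (n 6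
  1 e (n 6 4 e e))))) (n 3 2 e (n 5 6 (n 6 1 e (n 6 4 e (n 6 6 e e))) (n 3 5 (n 5 2 e (n 5 2 e e))
  e)))) e) (n 2 3 e (n 5 2 (n 2 1 (n 3 1 e (n 3 4 e e)) (n 2 4 (n 3 4 e e) e)) (n 5 3 (n 3 1 e (n 3
  4 e (n 3 3 e e))) e)))))))))) z))))) (b (t [0, 1] (t [0, 6] (t [0, 6] (t [0, 2, 3, 6, 10, 10] (l
  (n 1 3 e (n 2 3 (n 5 6 e (n 2 6 e (n 6 4 (n 1 2 e e) (n 2 5 e (n 2 1 e (n 3 3 (n 6 2 e (n 6 5 e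
  e)) e)))))) e))))))) (f [0, 1] (t [0, 6] (t [0, 6] (b (l (n 1 3 e (n 5 6 e (n 2 3 e (n 3 6 (n 3 2
  e (n 2 6 e (n 2 5 e (n 1 2 (n 3 4 (n 1 4 (n 3 2 e (n 3 3 e (n 6 4 (n 4 6 e e) e))) (n 3 2 e (n 3 3
  e e))) (n 3 2 (n 4 2 e e) e)) e)))) (n 6 4 (n 1 2 e (n 1 3 e e)) (n 5 2 (n 2 1 (n 3 1 e (n 6 5 e
  (n 6 2 (n 6 3 e (n 2 1 e (n 2 4 e e))) (n 2 3 (n 3 6 e e) e)))) (n 6 5 e (n 6 2 e (n 4 1 (n 1 6 (n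
  6 3 (n 2 6 (n 3 1 e e) e) (n 2 3 e (n 2 6 e e))) e) (n 2 6 (n 2 3 (n 3 6 e e) e) (n 2 4 (n 3 6 e
  e) e)))))) (n 3 5 e (n 3 1 e (n 6 2 e (n 6 3 e (n 6 5 e e)))))))))))) z))))))) (b (b (t [0, 1] (t
  [0, 5] (t [0, 5] (t [0, 2, 6, 7] (l (n 5 6 e (n 2 3 (n 6 2 (n 3 3 (n 1 2 e (n 6 1 e (n 4 1 (n 2 1
  (n 2 5 e e) e) e))) e) e) e))))))) (f [0, 1] (t [0, 5] (t [0, 5] (b (l (n 5 6 e (n 2 3 e (n 6 3 (n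
  1 3 e (n 5 2 e (n 6 1 e (n 1 2 e (n 4 1 (n 3 1 (n 3 5 e e) e) e))))) (n 3 2 e (n 6 2 (n 1 2 (n 4 6
  (n 2 6 (n 3 3 e (n 1 5 (n 2 5 e e) e)) e) e) (n 2 5 (n 4 1 (n 3 1 (n 3 3 e (n 1 6 (n 4 6 e e) e))
  (n 4 3 e (n 4 6 e e))) (n 4 6 (n 4 1 (n 3 3 e (n 1 3 e (n 1 6 e e))) (n 3 3 e e)) e)) e)) e))))))
  z))))) (t [0, 1] (b (t [0, 1] (t [0, 5] (t [0, 5] (b (l (n 1 3 e (n 2 3 (n 5 6 e (n 6 2 (n 6 4 (n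
  4 1 (n 2 1 (n 2 5 (n 3 3 (n 2 2 (n 6 6 e e) e) e) e) e) e) (n 2 5 (n 3 3 (n 1 2 (n 2 6 e (n 2 2 e
  e)) e) e) e)) e)) e))) z)))) (f [0, 1] (t [0, 5] (t [0, 5] (b (l (n 1 3 e (n 1 4 (n 5 6 e (n 2 3 e
  (n 6 3 (n 6 2 e (n 4 6 (n 3 6 (n 2 5 (n 3 5 (n 5 5 e (n 3 3 (n 4 4 (n 6 6 e e) e) e)) e) e) e) e))
  (n 3 2 e (n 6 2 (n 4 6 (n 2 5 (n 3 3 e e) e) (n 2 5 (n 4 3 (n 3 3 (n 4 4 e e) e) (n 4 6 (n 3 3 e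
  e) e)) e)) e))))) (n 5 2 e (n 2 3 e (n 6 3 (n 6 2 (n 2 1 (n 3 1 (n 3 2 e (n 3 3 e e)) e) e) (n 6 3
  (n 3 3 (n 6 6 e e) (n 3 1 e e)) e)) (n 3 2 e (n 6 2 (n 3 3 e e) e)))))))) z))))))))))) (t [0, 2]
  (f [0, 1] (t [0, 2] (b (b (b (t [0, 4] (t [0, 4] (t [0, 5] (t [0, 5] (t [0, 2, 3, 3, 5, 9, 9] (l
  (n 1 3 (n 5 6 e (n 6 2 (n 3 6 (n 1 2 e (n 6 1 (n 6 4 e (n 2 6 (n 2 5 e (n 2 2 e e)) e)) e)) e) e))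
  e))))))) (t [0, 4] (t [0, 4] (t [0, 5] (t [0, 5] (t [0, 1, 2, 5, 9, 9] (l (n 1 3 (n 2 5 e (n 5 6 e
  (n 3 6 (n 1 2 e (n 1 5 e (n 1 6 e (n 6 4 e (n 6 2 e (n 6 5 e e)))))) e))) e)))))))) (b (t [0, 4]
  (t [0, 4] (t [0, 5] (t [0, 5] (t [0, 3, 9] (l (n 1 3 e (n 3 2 e (n 5 2 (n 5 6 e (n 6 4 (n 1 2 e (n
  4 1 (n 5 1 e e) e)) (n 2 1 (n 1 5 (n 5 6 e e) e) (n 2 2 (n 6 5 e e) e)))) e))))))))) (t [0, 4] (t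
  [0, 4] (t [0, 5] (t [0, 5] (t [0, 1, 2, 5, 9, 9] (l (n 1 3 e (n 3 2 e (n 2 5 e (n 5 6 e (n 2 1 e
  (n 6 4 e (n 6 2 e (n 6 5 e e)))))))))))))))) (b (t [0, 3] (t [0, 3] (t [0, 4] (t [0, 4] (t [0, 1,
  5, 6] (l (n 5 6 e (n 1 3 (n 6 2 (n 3 6 (n 2 5 (n 1 2 e (n 6 1 (n 6 4 e (n 2 6 e e)) e)) e) e) e)
  e)))))))) (t [0, 1] (t [0, 3] (t [0, 3] (t [0, 4] (t [0, 4] (b (l (n 1 3 e (n 3 2 e (n 5 6 e (n 6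
  2 (n 4 1 (n 2 5 (n 6 2 (n 2 2 (n 6 6 e e) (n 1 2 e e)) e) e) (n 6 4 e (n 2 5 (n 2 6 e e) e)))
  e))))) z))))))))))))) z)))) z) (b (t [0, 1] (f [0, 2] (f [0, 2] (t [0, 1] (t [0, 1] (b (t [0, 1,
  2] (t [0, 1] (t [0, 1, 2] (f [0, 3, 5] (b (b (t [0, 1] (t [0, 4] (t [0, 4] (t [0, 2, 4] (l (n 2 3
  (n 5 6 e (n 3 3 (n 6 2 e (n 1 2 (n 1 4 e e) e)) e)) e)))))) (f [0, 1] (t [0, 4] (t [0, 4] (b (l (n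
  5 6 e (n 6 2 e (n 2 3 e (n 3 2 e (n 1 2 (n 2 4 (n 3 3 e (n 1 4 (n 4 1 e e) e)) (n 3 3 e e)) (n 1 3
  (n 4 2 (n 1 1 (n 3 3 e e) e) (n 4 2 (n 1 1 (n 3 3 e e) e) (n 1 4 e e))) e))))))) z))))) (t [0, 1]
  (b (t [0, 1] (t [0, 4] (t [0, 4] (b (l (n 2 3 (n 5 6 e (n 3 3 (n 6 2 e (n 1 4 e (n 2 1 (n 2 2 e e)
  (n 4 2 e e)))) e)) e)) z)))) (f [0, 1] (t [0, 4] (t [0, 4] (b (l (n 5 6 e (n 6 2 e (n 2 3 e (n 1 3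
  e (n 3 2 e (n 3 4 (n 3 3 e (n 1 4 (n 4 2 e (n 4 2 e (n 4 4 e e))) e)) e))))))) z))))))))))) (t [0,
  2] (f [0, 1] (t [0, 2] (f [0, 3, 5] (b (t [0, 2] (t [0, 2] (t [0, 3] (t [0, 3] (t [0, 1, 3] (l (n
  5 6 e (n 3 2 e (n 6 2 e (n 1 3 e (n 1 2 (n 1 4 e e) e))))))))))) (t [0, 1] (t [0, 2] (t [0, 2] (t
  [0, 3] (t [0, 3] (b (l (n 5 6 e (n 1 3 e (n 3 2 e (n 6 2 e (n 4 1 (n 2 2 e e) (n 2 4 e e)))))))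
  z))))))))))))))))) z)) z)) z)

set_option maxRecDepth 100000 in
theorem f08B : chkQ 6 3 10897286400000 t08B
    (blks.getD 8 ⟨0, 0, 0, 0, 0, .zr, .zr⟩).B = some [548648100000, 113513400000] := by
  decide +kernel

end Pool.Agent.TH32
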