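import Pool.Agent.TH32.H.Fast

set_option autoImplicit false

namespace Pool.Agent.TH32

open CT PT

set_option maxRecDepth 100000 in
/-- certificate for block 9 (Le0R2), tree B -/
def t09B : PT :=
  (b (b (b (t [0, 1] (b (t [0, 1] (b (t [0, 1] (b (b (t [0, 2] (t [0, 1] (t [0, 4] (b (f [0, 5] (b
  (t [0, 1] (t [0, 1, 3] (t [0, 1, 3] (t [0, 2, 7] (l (n 2 3 (n 5 2 (n 3 3 (n 2 1 (n 1 5 (n 2 1 (n 2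
  4 e e) e) e) e) e) e) e)))))) (f [0, 1] (b (t [0, 1] (b (l (n 2 3 e (n 5 3 (n 1 3 e (n 5 1 e (n 2
  1 (n 3 1 (n 4 2 (n 1 2 (n 3 2 (n 5 2 e (n 5 4 e e)) (n 3 4 (n 5 4 e e) e)) (n 1 4 (n 3 4 (n 5 4 e
  e) e) e)) (n 3 4 e (n 1 2 (n 3 2 (n 4 2 (n 5 2 e e) e) e) e))) e) e))) (n 3 2 e (n 2 5 e (n 3 2 e
  (n 3 3 e (n 1 2 (n 2 5 (n 1 4 (n 4 2 e e) e) e) (n 1 2 (n 2 4 (n 4 1 e e) e) (n 4 2 (n 1 3 e (n 1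
  5 e (n 1 1 e e))) e)))))))))) z)) z)))) (b (b (t [0, 1] (t [0, 2] (t [0, 2] (t [0, 7] (l (n 1 3 e
  (n 2 3 (n 2 5 e (n 2 1 (n 4 2 (n 3 3 e e) e) e)) e))))))) (f [0, 1] (t [0, 2] (t [0, 2] (b (l (n 1
  3 e (n 2 5 e (n 2 1 (n 3 2 (n 3 2 e (n 3 5 e (n 3 4 (n 4 5 e (n 2 4 (n 4 2 e (n 4 4 e e)) e)) e)))
  (n 5 3 e (n 4 2 (n 2 5 (n 3 5 (n 4 5 e e) e) e) e))) e)))) z))))) (b (t [0, 1] (t [0, 1, 4] (t [0,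
  1, 4] (t [0, 3] (l (n 1 3 e (n 2 3 (n 2 5 e (n 2 1 e (n 5 2 e (n 3 3 (n 4 1 e (n 4 2 e e)) e))))
  e))))))) (f [0, 1] (b (t [0, 1] (b (l (n 2 3 e (n 3 5 (n 1 3 e (n 3 2 e (n 5 2 (n 4 2 (n 2 1 (n 4
  1 e (n 3 4 e (n 3 3 e e))) (n 3 2 e (n 3 4 e e))) e) e))) (n 1 3 e (n 1 3 e (n 1 2 e (n 5 1 e (n 3
  2 (n 1 2 e (n 2 4 (n 4 3 (n 2 5 (n 3 5 (n 3 5 (n 4 5 (n 5 4 e e) e) e) e) e) (n 4 3 (n 2 5 (n 3 5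
  (n 3 5 (n 4 5 (n 5 4 e e) e) e) e) e) e)) (n 2 5 (n 4 5 (n 5 3 e (n 5 3 e e)) e) e))) (n 4 3 (n 3
  5 (n 4 5 (n 5 2 e (n 5 2 e e)) e) e) (n 4 2 (n 3 5 (n 2 5 (n 2 5 (n 5 4 e (n 5 4 e e)) e) e) e) (n
  4 2 (n 3 5 (n 2 5 (n 2 5 (n 5 4 e (n 5 4 e e)) e) e) e) e))))))))))) z)) z)))))))) z) (b (f [0, 2]
  (t [0, 1] (t [0, 4] (b (f [0, 5] (t [0, 3] (t [0, 3] (t [0, 2] (t [0, 2] (t [0, 1, 6] (l (n 3 2 e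
  (n 5 2 (n 1 3 e (n 2 1 (n 1 5 (n 2 1 (n 2 4 e e) e) e) e)) e))))))))) (b (t [0, 4] (t [0, 4] (t
  [0, 1] (t [0, 1] (t [0, 6] (l (n 1 3 e (n 3 2 e (n 2 5 e (n 2 1 (n 4 2 e e) e)))))))))) (t [0, 4]
  (t [0, 4] (t [0, 3] (t [0, 3] (t [0, 2] (l (n 1 3 e (n 3 2 e (n 2 5 e (n 2 1 e (n 5 2 e (n 4 1 e
  (n 4 2 e e)))))))))))))))))) z))) z)) (f [0, 1] (t [0, 2, 3] (t [0, 2, 3] (b (t [0, 1, 3] (t [0,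
  1] (t [0, 1, 3] (t [0, 4] (b (b (b (t [0, 1] (t [0, 6] (t [0, 6] (t [0, 3, 6, 7] (l (n 2 5 (n 2 3
  (n 3 3 (n 5 5 (n 1 2 (n 1 4 e e) e) e) e) e) e)))))) (f [0, 1] (t [0, 6] (t [0, 6] (b (l (n 2 5 (n
  2 3 e (n 3 2 e (n 5 5 (n 1 2 (n 2 4 (n 3 3 e (n 1 4 (n 4 1 e e) e)) (n 3 3 e e)) (n 1 3 (n 4 2 (n
  1 1 (n 3 3 e e) e) (n 4 2 (n 1 1 (n 3 3 e e) e) (n 1 4 e e))) e)) e))) e)) z))))) (b (t [0, 1] (t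
  [0, 6] (t [0, 6] (t [0, 2, 3, 5, 6] (l (n 2 3 (n 2 5 e (n 3 3 (n 1 2 e (n 1 5 (n 1 4 e (n 4 2 e
  e)) e)) e)) e)))))) (f [0, 1] (t [0, 6] (t [0, 6] (b (l (n 2 3 e (n 3 5 (n 3 2 e (n 5 2 (n 4 2 e
  (n 3 2 e (n 3 3 e (n 1 2 (n 5 2 e (n 5 4 e e)) (n 1 4 (n 5 4 e (n 1 2 e (n 1 3 e (n 1 4 e (n 1 5 e
  e))))) (n 1 2 (n 2 4 (n 4 3 e (n 4 5 e e)) e) (n 3 1 (n 1 5 (n 4 5 e e) e) (n 4 3 e (n 4 5 e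
  e))))))))) e)) (n 5 2 e (n 1 3 e (n 1 4 e (n 4 2 e (n 5 4 e (n 4 3 e (n 1 5 (n 1 2 (n 3 2 (n 4 2
  (n 2 5 e e) e) e) e) e)))))))))) z)))))) (b (b (t [0, 1] (t [0, 6] (t [0, 6] (b (l (n 1 3 e (n 2 3
  (n 2 5 (n 5 5 (n 3 3 (n 2 2 e (n 4 1 e (n 4 2 e e))) e) e) (n 2 1 (n 4 2 e (n 3 3 (n 1 4 (n 5 4 e
  e) e) e)) e)) e))) z)))) (f [0, 1] (t [0, 6] (t [0, 6] (b (l (n 3 1 (n 2 5 (n 2 3 e (n 3 2 e (n 5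
  5 (n 1 1 e (n 3 4 (n 3 3 e (n 1 4 (n 4 2 e (n 4 2 e (n 4 4 e e))) e)) e)) e))) (n 1 2 e (n 4 2 e
  (n 3 5 (n 3 5 e (n 3 2 e (n 1 4 (n 2 4 (n 3 4 (n 4 5 e (n 4 5 e e)) e) e) e))) (n 2 3 e (n 3 2 (n
  5 2 e (n 1 4 (n 2 4 (n 4 5 e e) e) e)) (n 1 4 (n 5 4 e e) e))))))) e)) z))))) (b (t [0, 1] (t [0,
  6] (t [0, 6] (t [0, 2, 3, 5, 6] (l (n 1 3 e (n 2 3 (n 2 5 e (n 4 2 e (n 2 1 e (n 5 2 e (n 5 4 e (n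
  3 3 e e)))))) e))))))) (f [0, 1] (t [0, 6] (t [0, 6] (b (l (n 1 3 e (n 2 3 e (n 5 2 (n 1 2 e (n 4
  2 e (n 3 4 (n 3 1 e (n 1 2 e (n 5 1 (n 5 3 e (n 4 5 (n 3 3 e e) e)) e))) e))) (n 3 5 e (n 3 1 e (n
  4 1 e (n 4 3 e (n 5 2 (n 2 1 (n 1 1 e (n 2 3 (n 5 3 (n 5 3 e (n 4 5 e e)) (n 3 4 (n 4 5 e (n 4 5 e
  e)) e)) (n 2 4 (n 5 4 (n 4 5 e e) e) e))) e) (n 5 3 (n 2 3 (n 3 2 (n 4 2 e e) e) (n 4 3 e (n 4 2 e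
  (n 4 2 e e)))) (n 4 5 e (n 2 4 (n 4 2 e e) e)))))))))))) z))))))))))) (t [0, 3] (f [0, 1] (t [0,
  3] (t [0, 4] (b (b (t [0, 3] (t [0, 3] (t [0, 5] (t [0, 5] (t [0, 2, 5, 6] (l (n 2 5 (n 3 2 e (n 5
  5 (n 1 3 e (n 1 2 (n 1 4 e e) e)) e)) e))))))) (t [0, 3] (t [0, 3] (t [0, 5] (t [0, 5] (t [0, 1,
  2, 4, 5] (l (n 3 2 e (n 2 5 e (n 1 2 e (n 1 3 e (n 1 5 (n 1 4 e (n 4 2 e e)) e)))))))))))) (b (t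
  [0, 3] (t [0, 3] (t [0, 5] (t [0, 5] (b (l (n 1 3 e (n 3 2 e (n 2 5 (n 5 5 (n 4 1 (n 2 2 e e) (n 2
  4 e e)) e) (n 2 1 (n 4 2 e (n 1 4 (n 5 4 e e) e)) e))))) z))))) (t [0, 3] (t [0, 3] (t [0, 5] (t
  [0, 5] (t [0, 1, 2, 4, 5] (l (n 1 3 e (n 3 2 e (n 2 5 e (n 4 2 e (n 2 1 e (n 5 2 e (n 5 4 e
  e))))))))))))))))))))))))) z) (b (t [0, 1] (f [0, 2] (f [0, 2] (t [0, 1] (t [0, 1] (b (t [0, 1, 2]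
  (t [0, 1] (t [0, 1, 2] (f [0, 3] (b (b (t [0, 1] (t [0, 4] (t [0, 4] (t [0, 2, 4] (l (n 2 3 (n 3 3
  (n 5 2 e (n 1 2 (n 1 4 e e) e)) e) e)))))) (f [0, 1] (t [0, 4] (t [0, 4] (b (l (n 5 2 e (n 2 3 e
  (n 3 2 e (n 1 2 (n 2 4 (n 3 3 e (n 1 4 (n 4 1 e e) e)) (n 3 3 e e)) (n 1 3 (n 4 2 (n 1 1 (n 3 3 e
  e) e) (n 4 2 (n 1 1 (n 3 3 e e) e) (n 1 4 e e))) e)))))) z))))) (t [0, 1] (b (t [0, 1] (t [0, 4]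
  (t [0, 4] (b (l (n 1 3 e (n 2 3 (n 5 2 e (n 3 3 (n 2 2 e (n 4 1 e (n 4 2 e e))) e)) e))) z)))) (f
  [0, 1] (t [0, 4] (t [0, 4] (b (l (n 5 2 e (n 2 3 e (n 1 3 e (n 3 2 e (n 3 4 (n 3 3 e (n 1 4 (n 4 2
  e (n 4 2 e (n 4 4 e e))) e)) e)))))) z))))))))))) (t [0, 2] (f [0, 1] (t [0, 2] (f [0, 3] (b (t
  [0, 2] (t [0, 2] (t [0, 3] (t [0, 3] (t [0, 1, 3] (l (n 3 2 e (n 5 2 e (n 1 3 e (n 1 2 (n 1 4 e e)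
  e)))))))))) (t [0, 1] (t [0, 2] (t [0, 2] (t [0, 3] (t [0, 3] (b (l (n 1 3 e (n 3 2 e (n 5 2 e (n
  4 1 (n 2 2 e e) (n 2 4 e e)))))) z))))))))))))))))) z)) z)

set_option maxRecDepth 100000 in
theorem f09B : chkQ 5 2 10897286400000 t09B
    (blks.getD 9 ⟨0, 0, 0, 0, 0, .zr, .zr⟩).B = some [-94594500000, -113513400000] := by
  decide +kernel

end Pool.Agent.TH32
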