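import Pool.Agent.TH32.H.Fast

set_option autoImplicit false

namespace Pool.Agent.TH32

open CT PT

set_option maxRecDepth 100000 in
/-- certificate for block 10 (Le0R3), tree B -/
def t10B : PT :=
  (b (b (b (t [0, 1] (b (t [0, 1] (b (t [0, 1] (b (b (t [0, 2] (b (t [0, 5] (b (f [0, 6] (b (t [0,
  1] (t [0, 1, 3] (t [0, 1, 3] (t [0, 1, 2, 3, 7] (l (n 3 2 (n 2 2 (n 3 5 e (n 1 3 e (n 1 5 (n 1 3 e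
  (n 3 4 e (n 6 3 e e))) e))) e) e)))))) (f [0, 1] (b (t [0, 1] (b (l (n 2 3 e (n 5 3 (n 1 3 e (n 3
  1 (n 2 1 (n 5 2 e (n 3 4 (n 4 2 (n 6 2 (n 5 2 e (n 2 1 (n 2 2 e (n 5 4 e (n 6 5 (n 1 4 (n 3 4 e (n
  3 5 e (n 3 6 e e))) (n 1 5 (n 3 5 e (n 3 6 e e)) (n 1 6 (n 3 6 e e) e))) e))) (n 5 4 e (n 6 5 (n 2
  3 (n 3 4 e (n 3 5 e (n 3 6 e (n 3 3 e e)))) e) e)))) e) e) (n 5 1 e (n 3 5 (n 4 5 (n 3 2 (n 1 2 (n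
  4 2 (n 5 2 e (n 1 6 (n 2 6 (n 4 6 (n 3 6 (n 6 3 e e) e) e) e) e)) (n 1 6 (n 2 6 (n 3 6 (n 6 3 e e)
  e) e) e)) (n 2 6 (n 3 6 (n 6 3 e e) e) e)) (n 3 6 (n 6 2 e (n 6 2 e e)) e)) e) e)))) e) e)) (n 3 2
  e (n 5 2 (n 2 1 (n 3 2 e (n 2 4 e (n 2 6 e (n 1 2 e (n 1 3 e (n 1 4 e (n 1 5 e (n 1 6 e e))))))))
  (n 2 5 (n 1 4 (n 3 2 e (n 2 4 e (n 3 1 e (n 6 2 e e)))) (n 3 1 e (n 3 2 e (n 3 4 e (n 1 6 (n 6 2 e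
  e) e))))) e)) e))))) z)) z)))) (b (b (t [0, 1] (t [0, 2] (t [0, 2] (t [0, 8] (l (n 1 3 e (n 2 3 (n
  2 5 e (n 2 1 (n 3 3 (n 2 4 e (n 6 2 e e)) e) e)) e))))))) (f [0, 1] (t [0, 2] (t [0, 2] (b (l (n 1
  3 e (n 2 5 e (n 2 1 (n 3 2 (n 3 2 e (n 3 4 (n 3 5 e (n 2 4 (n 4 2 (n 6 2 e e) e) (n 6 4 e (n 6 2 e
  (n 6 2 e e))))) (n 3 5 (n 5 4 (n 3 6 (n 6 2 e (n 6 2 e e)) e) e) (n 3 6 (n 6 5 e (n 6 2 e (n 6 2 e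
  e))) e)))) (n 5 3 e (n 2 5 (n 2 4 e (n 3 5 e (n 6 2 e e))) (n 2 4 (n 4 5 (n 6 5 e e) e) (n 6 2 e
  (n 6 5 e e)))))) e)))) z))))) (b (t [0, 1] (t [0, 1, 4] (t [0, 1, 4] (t [0, 3] (l (n 1 3 e (n 2 3
  (n 2 5 e (n 2 1 e (n 5 2 e (n 3 3 (n 1 4 (n 4 2 (n 6 2 e e) e) (n 6 1 e (n 6 2 e e))) e))))
  e))))))) (f [0, 1] (b (t [0, 1] (b (l (n 2 3 e (n 3 5 (n 1 3 e (n 3 2 e (n 2 5 e (n 4 2 (n 1 2 (n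
  3 2 e (n 3 4 e (n 1 6 (n 6 2 e e) e))) (n 4 1 e (n 6 2 (n 3 4 e (n 3 3 e e)) e))) e)))) (n 1 3 e
  (n 1 3 e (n 1 2 e (n 5 1 e (n 3 2 (n 1 2 e (n 2 4 (n 3 4 (n 4 3 (n 3 5 (n 3 5 (n 6 3 (n 2 5 (n 4 5
  (n 5 4 e e) e) e) e) (n 6 3 e (n 6 5 e e))) (n 6 3 e (n 6 5 e e))) e) (n 4 5 (n 4 5 (n 5 2 (n 6 4
  e (n 6 3 e (n 6 3 e e))) (n 5 3 (n 4 6 (n 3 6 (n 6 3 e (n 6 5 e (n 6 5 e e))) e) e) (n 5 3 (n 4 6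
  (n 3 6 (n 6 3 e (n 6 5 e (n 6 5 e e))) e) e) e))) (n 4 6 (n 6 5 e (n 6 3 e (n 6 3 e (n 6 6 e e))))
  e)) (n 4 6 (n 6 5 e (n 6 3 e (n 6 3 e (n 6 6 e e)))) e))) (n 2 5 (n 3 5 (n 5 3 (n 2 6 (n 3 6 (n 3
  6 (n 6 5 e (n 6 5 e e)) e) e) e) (n 5 4 (n 2 6 (n 6 3 e (n 6 3 e e)) e) e)) (n 2 6 (n 3 6 (n 6 3 e
  (n 6 5 e (n 6 5 e (n 6 6 e e)))) e) e)) (n 2 6 (n 6 5 e (n 6 3 e (n 6 3 e e))) e)))) (n 3 4 (n 4 2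
  (n 4 5 (n 4 5 (n 2 5 (n 5 2 (n 4 6 (n 2 6 (n 2 6 (n 6 5 e (n 6 5 e e)) e) e) e) (n 5 3 (n 4 6 (n 6
  2 e (n 6 2 e e)) e) e)) (n 4 6 (n 2 6 (n 6 2 e (n 6 5 e (n 6 5 e (n 6 6 e e)))) e) e)) (n 4 6 (n 6
  5 e (n 6 2 e (n 6 2 e e))) e)) (n 4 6 (n 6 5 e (n 6 2 e (n 6 2 e e))) e)) (n 4 2 (n 2 5 (n 2 5 (n
  6 2 (n 3 5 (n 5 4 e (n 5 4 e e)) e) e) (n 6 2 e (n 6 5 e e))) (n 6 2 e (n 6 5 e e))) e)) (n 3 5 (n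
  5 4 (n 6 3 e (n 6 2 e (n 6 2 e e))) (n 5 2 (n 3 6 (n 2 6 (n 6 2 e (n 6 5 e (n 6 5 e e))) e) e) (n
  5 2 (n 3 6 (n 2 6 (n 6 2 e (n 6 5 e (n 6 5 e e))) e) e) e))) (n 3 6 (n 6 5 e (n 6 2 e (n 6 2 e (n
  6 6 e e)))) e))))))))))) z)) z)))))) z)) z) (b (f [0, 2] (b (t [0, 5] (b (f [0, 6] (t [0, 4] (t
  [0, 4] (t [0, 2] (t [0, 2] (t [0, 1, 2, 6] (l (n 1 3 (n 3 5 (n 3 2 (n 1 2 e (n 2 5 e (n 5 2 e (n 2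
  4 e (n 6 2 e e))))) e) e) e)))))))) (b (t [0, 5] (t [0, 5] (t [0, 1] (t [0, 1] (t [0, 7] (l (n 1 3
  e (n 3 2 e (n 2 5 e (n 2 1 (n 2 4 e (n 6 2 e e)) e)))))))))) (t [0, 5] (t [0, 5] (t [0, 3] (t [0,
  3] (t [0, 3, 7] (l (n 1 3 e (n 3 2 e (n 2 5 e (n 2 1 e (n 5 2 e (n 1 4 (n 4 2 (n 6 2 e e) e) (n 6
  1 e (n 6 2 e e))))))))))))))))) z)) z))) z)) (b (t [0, 3] (t [0, 3] (b (t [0, 1, 4] (t [0, 1] (b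
  (t [0, 3] (b (f [0, 4] (b (t [0, 1] (t [0, 1, 3] (t [0, 7] (t [0, 2, 7] (l (n 2 3 (n 5 2 (n 3 3 (n
  2 1 (n 1 5 (n 2 1 (n 2 4 e (n 2 6 e e)) e) e) e) e) e) e)))))) (f [0, 1] (b (t [0, 8] (b (l (n 2 3
  e (n 5 3 (n 1 3 e (n 5 1 e (n 2 1 (n 3 1 (n 3 4 (n 4 2 (n 2 6 (n 1 2 (n 3 2 (n 5 2 e (n 5 4 e e))
  (n 3 4 (n 5 4 e e) e)) (n 1 4 (n 3 4 (n 5 4 e e) e) e)) e) e) (n 6 2 e (n 3 6 (n 1 2 (n 3 2 (n 4 2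
  (n 5 2 e e) e) e) e) e))) e) e))) (n 3 2 e (n 5 2 (n 3 2 e (n 2 4 e (n 2 6 (n 1 4 (n 4 5 (n 2 5 e
  e) e) (n 2 1 (n 1 2 e (n 1 3 e (n 1 4 e (n 1 5 e e)))) (n 2 5 e e))) e))) e))))) z)) z)))) (b (b
  (t [0, 1] (t [0, 2] (t [0, 8] (t [0, 6] (l (n 1 3 e (n 2 3 (n 2 5 e (n 2 1 (n 4 2 (n 3 3 (n 2 6 e
  e) e) e) e)) e))))))) (f [0, 1] (t [0, 2] (t [0, 8] (b (l (n 1 3 e (n 2 5 e (n 3 5 (n 3 5 e (n 3 2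
  e (n 4 2 (n 2 6 (n 2 1 (n 4 1 e e) e) e) e))) (n 2 1 (n 2 3 e (n 4 3 (n 6 2 e (n 3 6 (n 3 2 (n 4 2
  (n 5 2 e e) e) e) e)) (n 4 2 (n 3 4 (n 5 2 e (n 4 5 (n 2 6 e e) e)) (n 2 6 (n 3 2 (n 2 5 e e) e)
  e)) e))) e))))) z))))) (b (t [0, 1] (t [0, 1, 4] (t [0, 8] (t [0, 3] (l (n 1 3 e (n 2 3 (n 2 5 e
  (n 3 3 (n 4 2 (n 4 1 (n 2 6 (n 2 1 e (n 5 2 e e)) e) (n 5 4 e (n 2 5 (n 2 6 e e) e))) e) e))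
  e))))))) (f [0, 1] (b (t [0, 9] (b (l (n 5 2 (n 5 3 (n 3 1 (n 2 1 (n 2 4 e (n 3 4 (n 3 4 (n 5 1 e
  (n 1 2 e (n 1 4 e (n 2 6 (n 2 5 (n 4 5 (n 3 5 (n 3 5 e e) e) e) e) e)))) (n 5 1 e (n 2 6 (n 3 2 (n
  2 1 (n 1 1 e (n 2 5 (n 3 5 (n 3 5 (n 4 5 (n 5 4 e e) e) e) e) e)) e) (n 3 5 (n 2 5 (n 2 5 (n 5 4 e
  (n 5 4 e e)) e) e) e)) e))) (n 5 1 e (n 2 6 (n 2 3 e (n 3 2 (n 4 2 (n 2 1 (n 1 1 e (n 2 5 (n 3 5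
  (n 3 5 (n 4 5 (n 5 4 e e) e) e) e) e)) e) (n 4 5 (n 2 5 (n 2 5 (n 5 3 e (n 5 3 e e)) e) e) e)) (n
  3 5 (n 4 5 (n 5 2 e (n 5 2 e e)) e) e))) e)))) e) e) (n 1 3 e (n 3 2 e (n 3 5 (n 2 1 e e) (n 2 4 e
  (n 2 6 (n 2 1 (n 4 1 e (n 3 4 e e)) (n 3 2 e (n 4 3 e e))) e)))))) e)) z)) z)))))) z))) (t [0, 4]
  (f [0, 1] (b (t [0, 3] (b (f [0, 4] (t [0, 3] (t [0, 3] (t [0, 2] (t [0, 6] (t [0, 1, 6] (l (n 3 2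
  e (n 5 2 (n 1 3 e (n 2 1 (n 1 5 (n 2 1 (n 2 4 e (n 2 6 e e)) e) e) e)) e))))))))) (b (t [0, 4] (t
  [0, 4] (t [0, 1] (t [0, 7] (t [0, 5] (l (n 1 3 e (n 3 2 e (n 2 5 e (n 2 1 (n 4 2 (n 2 6 e e) e)
  e)))))))))) (t [0, 4] (t [0, 4] (t [0, 3] (t [0, 7] (t [0, 2] (l (n 1 3 e (n 3 2 e (n 2 5 e (n 4 2
  (n 2 6 (n 4 1 (n 2 1 e (n 5 2 e e)) (n 5 4 e (n 2 5 e e))) e) e))))))))))))) z)))))) (t [0, 3, 4]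
  (t [0, 3, 4] (b (t [0, 1, 4] (t [0, 1] (t [0, 1, 4] (t [0, 5] (b (b (b (t [0, 1] (t [0, 7] (t [0,
  7] (t [0, 3, 7, 8] (l (n 2 5 (n 2 3 (n 3 3 (n 5 5 (n 1 2 (n 1 4 e e) e) e) e) e) e)))))) (f [0, 1]
  (t [0, 7] (t [0, 7] (b (l (n 2 5 (n 2 3 e (n 3 2 e (n 5 5 (n 1 2 (n 2 4 (n 3 3 e (n 1 4 (n 4 1 e
  e) e)) (n 3 3 e e)) (n 1 3 (n 4 2 (n 1 1 (n 3 3 e e) e) (n 4 2 (n 1 1 (n 3 3 e e) e) (n 1 4 e e)))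
  e)) e))) e)) z))))) (b (t [0, 1] (t [0, 7] (t [0, 7] (t [0, 2, 3, 5, 7] (l (n 2 3 (n 2 5 e (n 4 2
  e (n 3 3 (n 1 2 e (n 1 5 (n 1 2 e (n 1 4 e e)) e)) e))) e)))))) (f [0, 1] (t [0, 7] (t [0, 7] (b
  (l (n 2 5 e (n 4 2 e (n 3 5 (n 3 5 e (n 3 2 e (n 3 2 e (n 1 2 (n 5 2 e (n 5 4 e e)) (n 1 5 (n 5 4
  (n 1 4 (n 1 4 e e) e) e) (n 1 2 (n 1 4 (n 5 4 (n 4 5 e e) e) e) (n 1 3 (n 1 4 (n 2 4 (n 4 5 e (n 4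
  5 e e)) e) e) e))))))) (n 2 3 e (n 5 2 e (n 1 2 e (n 1 3 e (n 1 5 (n 1 3 e (n 1 4 e (n 1 2 (n 3 2
  (n 4 2 (n 2 5 e e) e) e) e))) e))))))))) z)))))) (b (b (t [0, 1] (t [0, 7] (t [0, 7] (b (l (n 1 3
  e (n 2 3 (n 2 5 (n 5 5 (n 3 3 (n 2 2 e (n 4 1 e (n 4 2 e e))) e) e) (n 4 2 e (n 2 1 (n 3 3 (n 1 4
  (n 5 4 e e) e) e) e))) e))) z)))) (f [0, 1] (t [0, 7] (t [0, 7] (b (l (n 1 3 e (n 4 1 (n 2 5 (n 2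
  3 e (n 3 2 e (n 3 3 e (n 5 5 e e)))) (n 4 2 e (n 3 2 (n 3 2 e (n 3 5 e e)) (n 5 3 e (n 2 5 (n 3 5
  e e) e))))) (n 2 5 (n 2 3 e (n 3 2 e (n 5 5 (n 4 2 (n 3 3 e e) (n 3 3 e (n 4 2 e (n 4 3 e e))))
  e))) (n 2 1 (n 3 5 (n 3 5 e (n 3 2 e (n 2 4 (n 3 4 (n 4 5 e (n 4 5 e e)) e) e))) (n 2 3 e (n 5 2
  (n 3 2 e (n 5 4 e e)) (n 2 4 (n 4 5 e e) e)))) e))))) z))))) (b (t [0, 1] (t [0, 7] (t [0, 7] (t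
  [0, 2, 3, 5, 7] (l (n 1 3 e (n 2 3 (n 2 5 e (n 4 2 e (n 2 1 e (n 3 3 (n 5 2 e (n 5 4 e e)) e))))
  e))))))) (f [0, 1] (t [0, 7] (t [0, 7] (b (l (n 1 3 e (n 5 2 (n 2 4 (n 2 3 (n 5 3 e (n 2 1 e (n 2
  2 e (n 3 5 (n 5 1 (n 1 1 e (n 5 2 (n 3 2 (n 3 2 e (n 4 3 e e)) (n 2 4 (n 4 3 e (n 4 3 e e)) e)) (n
  5 4 (n 3 4 (n 4 3 e e) e) e))) e) (n 3 2 (n 5 2 (n 2 5 (n 4 5 e e) e) (n 4 2 e (n 4 5 e (n 4 5 e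
  e)))) (n 3 4 (n 4 5 e (n 4 5 e e)) e)))))) (n 2 1 (n 3 1 e (n 1 2 e (n 1 5 e (n 5 3 e (n 5 4 e
  e))))) e)) e) e))) z))))))))))) (t [0, 4] (f [0, 1] (t [0, 4] (t [0, 5] (b (b (t [0, 3] (t [0, 3]
  (t [0, 6] (t [0, 6] (t [0, 2, 6, 7] (l (n 2 5 (n 3 2 e (n 5 5 (n 1 3 e (n 1 2 (n 1 4 e e) e)) e))
  e))))))) (t [0, 3] (t [0, 3] (t [0, 6] (t [0, 6] (t [0, 1, 2, 4, 6] (l (n 3 2 e (n 2 5 e (n 4 2 e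
  (n 1 3 e (n 1 2 e (n 1 5 (n 1 2 e (n 1 4 e e)) e))))))))))))) (b (t [0, 3] (t [0, 3] (t [0, 6] (t
  [0, 6] (b (l (n 1 3 e (n 3 2 e (n 2 5 (n 5 5 (n 2 2 e (n 1 4 (n 4 2 e (n 4 4 e e)) e)) e) (n 4 2 e
  (n 2 1 (n 1 4 (n 5 4 e e) e) e)))))) z))))) (t [0, 3] (t [0, 3] (t [0, 6] (t [0, 6] (t [0, 1, 2,
  4, 6] (l (n 1 3 e (n 3 2 e (n 2 5 e (n 4 2 e (n 2 1 e (n 5 2 e (n 5 4 e e)))))))))))))))))))))))))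
  z) (b (t [0, 1] (f [0, 2] (f [0, 2] (t [0, 1] (t [0, 1] (b (t [0, 1, 2] (t [0, 1] (t [0, 1, 2] (f
  [0, 3] (b (b (t [0, 1] (t [0, 4] (t [0, 4] (t [0, 2, 4] (l (n 2 3 (n 3 3 (n 5 2 e (n 1 2 (n 1 4 e
  e) e)) e) e)))))) (f [0, 1] (t [0, 4] (t [0, 4] (b (l (n 5 2 e (n 2 3 e (n 3 2 e (n 1 2 (n 2 4 (n
  3 3 e (n 1 4 (n 4 1 e e) e)) (n 3 3 e e)) (n 1 3 (n 4 2 (n 1 1 (n 3 3 e e) e) (n 4 2 (n 1 1 (n 3 3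
  e e) e) (n 1 4 e e))) e)))))) z))))) (t [0, 1] (b (t [0, 1] (t [0, 4] (t [0, 4] (b (l (n 1 3 e (n
  2 3 (n 5 2 e (n 3 3 (n 2 2 e (n 4 1 e (n 4 2 e e))) e)) e))) z)))) (f [0, 1] (t [0, 4] (t [0, 4]
  (b (l (n 5 2 e (n 2 3 e (n 1 3 e (n 3 2 e (n 3 4 (n 3 3 e (n 1 4 (n 4 2 e (n 4 2 e (n 4 4 e e)))
  e)) e)))))) z))))))))))) (t [0, 2] (f [0, 1] (t [0, 2] (f [0, 3] (b (t [0, 2] (t [0, 2] (t [0, 3]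
  (t [0, 3] (t [0, 1, 3] (l (n 3 2 e (n 5 2 e (n 1 3 e (n 1 2 (n 1 4 e e) e)))))))))) (t [0, 1] (t
  [0, 2] (t [0, 2] (t [0, 3] (t [0, 3] (b (l (n 1 3 e (n 3 2 e (n 5 2 e (n 4 1 (n 2 2 e e) (n 2 4 e
  e)))))) z))))))))))))))))) z)) z)

set_option maxRecDepth 100000 in
theorem f10B : chkQ 6 3 10897286400000 t10B
    (blks.getD 10 ⟨0, 0, 0, 0, 0, .zr, .zr⟩).B = some [-94594500000, -113513400000] := by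
  decide +kernel

end Pool.Agent.TH32
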