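import Pool.Agent.TH32.H.Fast

set_option autoImplicit false

namespace Pool.Agent.TH32

open CT PT

set_option maxRecDepth 100000 in
/-- certificate for block 11 (Le0R4), tree A -/
def t11A : PT :=
  (b (b (b (t [0, 1] (b (b (b (t [0, 1] (b (b (t [0, 2] (t [0, 1] (t [0, 4] (b (f [0, 5] (b (t [0,
  1] (t [0, 1, 3] (t [0, 1, 3] (f [0, 1, 2, 3, 6] (l (n 2 3 (n 2 5 e (n 3 3 (n 1 2 e (n 1 5 (n 1 2 e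
  (n 2 4 e (n 6 2 e e))) e)) e)) e)))))) (f [0, 1] (b (b (b (l (n 2 3 e (n 5 3 (n 1 3 e (n 3 1 (n 2
  1 (n 5 2 e (n 3 4 (n 2 4 e (n 6 2 (n 2 5 (n 2 1 (n 1 5 (n 3 5 (n 1 4 (n 3 4 (n 5 4 e (n 5 6 e (n 5
  5 e e))) (n 3 6 (n 5 6 e (n 5 5 e e)) (n 3 3 (n 5 5 e e) e))) (n 1 6 (n 3 6 (n 5 6 e (n 5 5 e e))
  (n 3 3 (n 5 5 e e) e)) (n 1 1 (n 3 3 (n 5 5 e e) e) e))) e) e) (n 3 2 (n 5 4 e (n 5 6 e (n 5 5 e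
  e))) (n 3 5 (n 3 4 (n 5 4 e (n 5 6 e (n 5 5 e e))) (n 3 6 (n 5 6 e (n 5 5 e e)) (n 3 3 (n 5 5 e e)
  e))) e))) (n 1 5 (n 3 5 e e) e)) e)) (n 5 3 e (n 3 2 (n 5 2 (n 1 5 (n 4 5 (n 1 6 (n 2 6 (n 4 6 (n
  5 6 (n 3 6 (n 6 3 e e) e) e) e) e) e) e) e) e) e)))) e) e)) (n 3 2 e (n 2 5 e (n 2 1 (n 2 4 e (n 6
  2 (n 1 5 (n 2 3 (n 3 4 e (n 3 6 e (n 3 3 e e))) e) (n 2 3 (n 1 2 (n 3 4 e (n 3 6 e (n 3 3 e e)))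
  (n 1 3 (n 1 4 (n 3 4 e (n 3 6 e (n 3 3 e e))) (n 1 6 (n 3 6 e (n 3 3 e e)) (n 1 1 (n 3 3 e e) e)))
  e)) (n 1 3 e (n 1 1 e e)))) e)) (n 5 2 e (n 1 4 (n 4 2 (n 6 2 (n 1 3 (n 2 3 (n 3 4 e (n 3 6 e (n 3
  3 e e))) e) e) e) e) (n 1 3 (n 6 1 (n 3 2 e (n 3 4 e (n 3 3 e (n 3 3 e e)))) (n 6 2 (n 2 3 (n 3 4
  e (n 3 6 e (n 3 3 e (n 3 3 e e)))) e) e)) (n 1 6 (n 6 2 e (n 6 3 e (n 6 6 e e))) e)))))))))) (l (n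
  2 3 e (n 5 2 e (n 3 5 e (n 5 2 e (n 1 3 (n 2 1 e (n 3 2 (n 3 2 (n 1 4 (n 3 4 e (n 6 3 (n 5 5 e e)
  e)) (n 1 6 (n 6 3 (n 5 5 e e) e) (n 5 5 e e))) e) e)) (n 3 1 (n 3 4 e (n 5 5 e (n 6 3 (n 1 2 (n 3
  2 (n 4 2 (n 6 2 e (n 6 5 e e)) (n 4 5 (n 6 5 e e) e)) (n 3 5 (n 4 5 (n 6 5 e e) e) e)) (n 1 5 (n 3
  5 (n 4 5 (n 6 5 e e) e) e) e)) e))) (n 2 3 e (n 1 4 (n 4 3 (n 5 5 e (n 6 3 (n 1 2 e (n 1 3 e (n 1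
  4 e (n 5 1 (n 1 6 e e) e)))) e)) e) (n 5 4 (n 5 5 e (n 4 2 (n 1 3 (n 3 6 (n 6 1 e (n 6 1 e e)) e)
  (n 1 2 (n 1 6 (n 6 3 e (n 6 3 e (n 6 6 e e))) e) e)) (n 1 3 (n 4 3 (n 3 6 (n 4 6 (n 6 1 e (n 6 1 e
  e)) e) e) e) e))) (n 1 3 (n 3 6 (n 6 1 e (n 6 1 e e)) e) (n 1 2 (n 1 6 (n 6 3 e (n 6 3 e (n 6 6 e
  e))) e) (n 1 5 (n 1 6 (n 2 6 (n 6 3 e (n 6 3 e (n 6 6 e (n 6 6 e e)))) e) e) e)))))))))))))) (b (l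
  (n 2 5 e (n 5 3 (n 3 1 (n 1 2 (n 2 6 (n 3 1 (n 5 1 e (n 3 4 (n 2 5 (n 1 5 (n 4 1 (n 1 3 (n 1 6 e
  (n 2 3 (n 3 4 e (n 3 5 e e)) e)) (n 1 6 (n 6 3 e e) e)) e) e) e) (n 2 5 (n 2 4 (n 3 5 (n 3 1 (n 1
  5 (n 1 4 (n 4 5 (n 1 6 (n 3 6 (n 6 3 e e) e) e) e) (n 1 6 (n 4 6 (n 6 3 e (n 6 3 e e)) e) e)) e)
  (n 4 5 (n 3 6 (n 6 1 e (n 6 1 e e)) e) e)) e) (n 1 5 (n 2 3 (n 3 1 (n 1 6 (n 2 6 (n 3 6 (n 6 3 e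
  e) e) e) e) (n 3 5 (n 2 6 (n 3 6 (n 6 1 e (n 6 1 e e)) e) e) e)) (n 1 6 (n 6 3 e e) e)) e)) e)))
  e) e) e) e) (n 3 1 e (n 3 2 e (n 3 5 e (n 2 1 e (n 5 2 (n 2 6 (n 5 3 (n 1 4 (n 4 5 (n 6 5 e e) e)
  (n 6 1 e (n 6 5 e e))) e) e) e)))))))) (l (n 2 3 e (n 5 3 (n 3 1 (n 3 1 (n 1 2 (n 2 6 (n 1 4 (n 3
  4 e (n 5 1 e (n 2 5 (n 1 5 e (n 2 3 (n 3 5 (n 4 5 (n 2 6 (n 6 3 e e) e) e) e) (n 6 3 (n 4 2 e (n 4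
  5 e e)) e))) (n 3 5 (n 4 5 (n 6 3 (n 3 2 (n 4 2 (n 2 6 e e) e) e) e) e) e)))) (n 5 1 e (n 4 5 (n 5
  2 (n 3 5 (n 3 2 e (n 1 6 (n 6 2 e (n 6 3 e e)) e)) e) (n 4 5 (n 5 1 (n 1 6 (n 3 5 (n 5 6 (n 3 6 (n
  6 3 e e) e) e) (n 2 3 (n 3 4 (n 2 6 (n 3 6 (n 6 5 e (n 6 5 e e)) e) e) e) (n 3 6 (n 6 5 e (n 6 5 e
  e)) e))) (n 2 3 (n 3 4 e (n 3 5 e e)) e)) e) (n 3 2 (n 1 6 (n 6 3 e e) e) (n 3 5 (n 1 6 (n 6 2 e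
  (n 6 3 e e)) e) e)))) e))) e) e) e) e) (n 3 2 e (n 2 5 e (n 2 1 e (n 5 2 (n 2 6 (n 1 4 (n 4 5 (n 6
  5 (n 1 3 (n 4 3 (n 5 3 (n 3 6 e e) e) e) e) e) e) (n 1 3 (n 3 5 (n 1 6 (n 6 3 e (n 6 5 e e)) e) (n
  3 4 (n 6 1 e (n 6 5 e e)) e)) (n 1 6 (n 6 3 e (n 6 5 e (n 6 6 e e))) e))) e) e))))))))) (f [0, 1]
  (b (l (n 1 3 (n 3 5 (n 2 3 e (n 2 5 e (n 1 5 (n 3 5 (n 1 2 e e) (n 6 2 (n 4 2 (n 1 2 (n 6 3 (n 2 5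
  (n 5 4 (n 2 3 (n 3 5 e (n 4 3 (n 1 4 (n 2 4 e (n 2 3 (n 3 5 e e) e)) (n 1 3 (n 2 3 (n 3 5 e e) e)
  e)) e)) e) e) e) e) (n 1 4 (n 4 5 e (n 3 6 e (n 2 4 e (n 4 3 (n 5 3 (n 1 3 (n 2 3 (n 3 5 e (n 3 3
  e e)) e) e) e) e)))) e)) e) e)) (n 5 1 e (n 2 1 e (n 1 4 (n 5 2 (n 4 5 (n 6 2 (n 6 3 (n 1 2 (n 2 4
  (n 1 2 (n 2 3 (n 4 3 (n 3 5 e e) e) e) (n 4 1 (n 5 1 e (n 3 5 e e)) (n 4 3 (n 3 5 e e) e))) e) (n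
  4 1 (n 5 1 e (n 2 5 (n 3 5 e e) e)) (n 4 2 (n 2 5 (n 3 5 e e) e) (n 3 4 e (n 3 5 e e))))) (n 1 6
  (n 1 2 e (n 6 1 e e)) (n 2 6 (n 4 1 (n 1 5 e e) e) (n 1 2 (n 2 4 (n 2 1 (n 4 1 (n 1 5 e e) e) e)
  e) (n 4 1 (n 5 1 e (n 2 5 e e)) (n 4 2 (n 2 5 e e) e)))))) e) e) e) (n 6 2 (n 5 2 (n 2 4 (n 6 2 (n
  5 1 e (n 2 5 (n 3 5 (n 4 5 e e) e) e)) (n 6 3 (n 1 5 (n 3 5 (n 4 5 e e) e) e) (n 1 6 (n 4 6 (n 1 6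
  (n 6 4 e e) e) (n 4 5 e e)) (n 1 5 (n 4 5 e e) e)))) e) e) e))))))) e) e)) z)))))) (b (b (t [0, 1]
  (t [0, 2] (t [0, 2] (f [0, 7] (l (n 1 3 e (n 2 3 (n 2 5 e (n 2 1 (n 2 4 e (n 3 3 (n 6 2 e e) e))
  e)) e))))))) (f [0, 1] (t [0, 2] (t [0, 2] (b (l (n 1 3 e (n 2 5 e (n 2 1 (n 3 2 (n 3 4 (n 3 2 e
  (n 2 4 e (n 3 5 (n 6 2 (n 5 5 e e) e) e))) (n 4 5 (n 2 3 (n 3 5 (n 5 5 (n 3 6 (n 2 6 (n 6 2 e e)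
  e) e) e) e) e) (n 2 3 e (n 2 4 (n 4 4 (n 2 6 (n 6 3 e (n 6 3 e e)) e) e) e)))) (n 5 3 e (n 2 5 (n
  2 4 e (n 3 5 (n 6 2 (n 5 5 e e) e) e)) e))) e)))) (l (n 1 3 e (n 2 5 e (n 2 1 (n 3 2 (n 3 4 (n 3 2
  e (n 2 4 e (n 3 5 e (n 6 2 e e)))) (n 4 5 (n 3 2 e (n 5 3 (n 3 6 (n 5 6 (n 6 2 e (n 6 2 e e)) e)
  e) e)) (n 3 2 (n 2 4 (n 2 6 (n 3 6 (n 6 3 e e) e) e) e) (n 3 6 (n 6 2 e (n 6 2 e e)) e)))) (n 5 3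
  e (n 2 4 e (n 2 5 (n 3 5 (n 5 4 (n 6 2 e e) e) (n 6 2 e e)) (n 6 2 e (n 6 5 e e)))))) e)))))))))
  (b (t [0, 1] (t [0, 1, 4] (t [0, 1, 4] (f [0, 3] (l (n 1 3 e (n 2 3 (n 2 5 e (n 3 3 (n 2 1 e (n 5
  2 e (n 1 4 (n 4 2 (n 6 2 e e) e) (n 6 1 e (n 6 2 e e))))) e)) e))))))) (f [0, 1] (b (b (b (l (n 2
  5 e (n 5 3 (n 1 3 e (n 2 1 (n 3 2 (n 2 4 (n 3 4 e (n 3 2 (n 4 2 (n 6 3 (n 2 5 (n 5 1 (n 2 1 e (n 5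
  2 e (n 5 5 e e))) (n 1 2 (n 3 5 (n 3 5 (n 4 5 (n 4 5 (n 6 5 (n 5 6 e e) e) e) e) e) e) e)) e) e)
  e) e)) (n 5 4 (n 5 1 e (n 3 2 e (n 3 6 (n 3 4 e (n 6 2 (n 3 5 e (n 3 3 e e)) (n 6 2 (n 3 5 e (n 3
  3 e e)) e))) (n 3 4 (n 4 6 (n 6 5 e (n 6 6 e e)) e) (n 3 5 (n 6 5 e e) e))))) (n 5 2 (n 3 2 e (n 1
  5 (n 3 5 (n 1 6 (n 5 6 (n 2 6 (n 2 6 (n 6 3 e (n 6 3 e e)) e) e) e) e) (n 3 4 (n 1 6 (n 3 6 (n 2 6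
  (n 6 2 e (n 6 5 e (n 6 5 e e))) e) e) e) e)) (n 1 4 (n 3 4 (n 5 6 (n 6 2 (n 3 3 (n 4 4 e e) e) (n
  6 2 (n 3 3 (n 4 4 e e) e) (n 3 6 e e))) (n 3 3 (n 4 4 e e) e)) e) e))) (n 1 5 (n 3 6 (n 3 5 e (n 6
  2 (n 1 2 (n 2 3 (n 3 4 (n 5 4 e (n 5 6 e e)) (n 3 6 (n 5 6 e e) e)) (n 5 2 e (n 5 4 e (n 5 6 e
  e)))) (n 4 1 (n 1 6 (n 3 6 (n 5 6 e e) e) e) (n 3 4 (n 5 4 e (n 5 6 e e)) (n 3 6 (n 5 6 e e) e))))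
  e)) (n 1 2 (n 3 5 (n 3 2 (n 6 2 (n 5 6 e e) (n 6 4 (n 5 2 e (n 5 6 e e)) e)) (n 3 4 (n 6 4 (n 5 6
  e e) e) e)) (n 2 3 (n 3 4 (n 5 4 (n 6 4 e e) e) e) (n 5 2 (n 6 2 e (n 6 4 e e)) (n 5 4 (n 6 4 e e)
  e)))) (n 1 4 (n 3 4 (n 6 4 (n 3 5 (n 5 6 e e) e) e) e) e))) (n 4 1 (n 2 6 (n 1 2 (n 3 2 (n 6 3 (n
  5 2 e (n 5 5 e e)) e) (n 3 3 (n 5 5 (n 6 2 e (n 6 6 e e)) e) e)) e) (n 1 2 (n 3 2 (n 5 2 e (n 5 6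
  e (n 5 5 e e))) (n 3 6 (n 5 6 e (n 5 5 e e)) (n 3 3 (n 5 5 e e) e))) (n 1 6 (n 3 6 (n 5 6 e (n 5 5
  e e)) (n 3 3 (n 5 5 e e) e)) e))) (n 5 4 (n 3 6 (n 3 2 (n 2 6 (n 6 3 e e) e) (n 6 2 (n 3 4 e (n 3
  3 e e)) e)) (n 3 2 (n 6 2 e (n 6 4 e e)) (n 3 4 (n 6 4 e e) e))) (n 6 2 (n 3 2 (n 5 2 e (n 5 6 e
  e)) (n 3 6 (n 5 6 e e) e)) (n 3 6 e (n 3 2 (n 5 2 (n 6 2 e e) e) e))))))))) e) e)) (n 3 2 e (n 1 2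
  e (n 2 4 e (n 1 3 e (n 3 5 e (n 1 2 (n 1 6 (n 3 2 (n 2 6 (n 6 3 e e) e) (n 3 4 (n 6 2 e e) e)) (n
  3 2 e (n 3 4 e e))) (n 6 2 (n 4 1 e (n 3 4 e (n 3 3 e e))) e)))))))))) (l (n 2 5 e (n 1 2 (n 1 3 e
  e) (n 3 5 (n 3 1 e (n 1 2 e (n 2 4 e (n 1 5 e (n 2 3 (n 3 4 (n 6 2 e e) e) (n 6 2 e (n 6 3 e
  e))))))) (n 1 3 e (n 2 4 e (n 5 1 e (n 3 2 (n 3 2 (n 1 2 e (n 4 1 (n 2 5 (n 3 5 (n 3 5 (n 5 4 (n 2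
  6 (n 3 6 (n 6 3 e e) e) e) e) (n 2 6 (n 3 6 (n 6 3 e (n 6 5 e (n 6 5 e e))) e) e)) (n 2 6 (n 3 6
  (n 6 3 e (n 6 5 e (n 6 5 e e))) e) e)) (n 2 6 (n 5 6 (n 6 3 e (n 6 3 e e)) e) e)) e)) (n 3 4 (n 4
  1 (n 3 5 (n 3 5 (n 2 5 (n 5 2 (n 3 6 (n 2 6 (n 2 6 (n 6 5 e (n 6 5 e e)) e) e) e) (n 5 4 (n 3 6 (n
  6 2 e (n 6 2 e e)) e) e)) (n 3 6 (n 2 6 (n 6 2 e (n 6 5 e (n 6 5 e (n 6 6 e e)))) e) e)) (n 3 6 (n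
  6 5 e (n 6 2 e (n 6 2 e e))) e)) (n 3 6 (n 6 5 e (n 6 2 e (n 6 2 e e))) e)) e) (n 3 6 (n 4 5 (n 4
  5 (n 5 3 (n 6 4 e (n 6 2 e (n 6 2 e e))) (n 5 2 (n 4 6 (n 2 6 (n 6 2 e (n 6 5 e (n 6 5 e e))) e)
  e) (n 5 2 (n 4 6 (n 2 6 (n 6 2 e (n 6 5 e (n 6 5 e e))) e) e) e))) (n 4 6 (n 6 5 e (n 6 2 e (n 6 2
  e (n 6 6 e e)))) e)) (n 4 6 (n 6 5 e (n 6 2 e (n 6 2 e (n 6 6 e e)))) e)) (n 3 5 (n 5 6 e (n 2 5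
  (n 5 2 e (n 5 4 e (n 5 4 e e))) e)) e)))) (n 4 3 e (n 4 2 (n 4 6 (n 2 5 (n 6 2 (n 3 5 (n 5 4 e (n
  5 4 e e)) e) e) (n 6 2 e (n 6 5 e e))) (n 2 5 (n 3 5 (n 4 5 (n 5 4 e (n 5 6 e (n 5 6 e (n 5 5 e
  e)))) e) e) e)) (n 6 2 (n 3 4 (n 4 1 (n 1 1 e (n 4 5 (n 2 5 (n 2 5 (n 3 5 (n 5 3 e (n 5 6 e (n 5 6
  e e))) e) e) e) e)) e) (n 3 5 (n 2 5 (n 2 5 (n 4 5 (n 5 4 e (n 5 6 e (n 5 6 e (n 5 5 e e)))) e) e)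
  e) e)) e)))))))))))) (b (l (n 2 5 e (n 5 3 (n 1 3 e (n 2 1 e (n 2 6 (n 4 1 (n 3 1 (n 3 1 e (n 3 4
  e (n 2 3 (n 2 5 (n 3 6 (n 3 5 (n 4 6 (n 2 6 (n 1 5 (n 5 1 (n 1 6 (n 6 1 e (n 6 5 e (n 6 5 e e)))
  e) (n 5 4 (n 6 1 e (n 6 1 e (n 6 6 e e))) (n 5 4 (n 6 1 e (n 6 1 e (n 6 6 e e))) e))) (n 1 6 (n 6
  1 e (n 6 5 e (n 6 5 e (n 6 6 e (n 6 6 e e))))) e)) (n 1 5 (n 5 1 e (n 5 4 e (n 5 4 e e))) e)) (n 1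
  5 (n 1 5 (n 4 5 (n 5 4 e (n 5 6 e (n 5 6 e (n 5 5 e (n 5 5 e e))))) e) e) e)) (n 2 6 (n 6 4 e (n 6
  1 e (n 6 1 e e))) e)) (n 3 5 (n 5 6 e (n 1 5 (n 5 1 e (n 5 4 e (n 5 4 e e))) e)) e)) (n 2 6 (n 3 6
  (n 4 6 (n 6 5 e (n 6 1 e (n 6 1 e (n 6 6 e e)))) e) e) e)) e))) (n 3 4 (n 3 2 (n 4 1 (n 1 5 (n 1 6
  (n 2 1 (n 6 4 (n 3 5 (n 4 5 (n 4 5 (n 6 5 (n 5 6 e e) e) e) e) e) e) e) (n 2 1 (n 3 5 (n 4 5 (n 5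
  4 e e) e) e) (n 2 6 (n 3 5 (n 4 5 (n 5 4 e e) e) e) e))) (n 2 1 (n 1 6 (n 2 6 (n 6 4 e (n 6 5 e
  e)) e) e) (n 2 5 (n 1 6 (n 2 6 (n 6 4 e (n 6 5 e e)) e) e) e))) e) (n 4 1 (n 4 6 (n 1 5 (n 6 1 (n
  2 5 (n 3 5 (n 5 4 e (n 5 4 e e)) e) e) e) (n 6 1 e (n 6 5 e e))) (n 1 5 (n 2 5 (n 3 5 (n 4 5 (n 5
  4 e (n 5 6 e (n 5 6 e (n 5 5 e e)))) e) e) e) e)) (n 4 3 (n 6 1 (n 2 5 (n 3 5 (n 1 5 (n 1 5 (n 4 5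
  (n 5 4 e (n 5 6 e (n 5 6 e e))) e) e) e) e) e) e) e))) e)) e) e))) e))) (l (n 1 3 e (n 2 5 e (n 5
  3 (n 2 1 e (n 5 2 (n 2 6 (n 3 1 (n 1 4 (n 3 4 (n 4 5 (n 3 1 e (n 3 2 e (n 4 3 (n 5 3 e (n 6 3 e (n
  6 5 e e))) (n 6 5 e e)))) e) (n 4 1 (n 1 3 (n 3 2 e (n 5 3 e (n 1 6 (n 2 6 (n 5 6 (n 6 3 e (n 6 3
  e (n 6 6 e (n 6 6 e e)))) e) e) e))) e) (n 2 3 (n 5 3 e (n 4 5 (n 2 6 (n 4 6 (n 5 6 (n 6 3 e (n 6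
  3 e (n 6 6 e e))) e) e) e) e)) (n 4 2 e (n 5 4 e (n 3 6 (n 6 4 e (n 6 5 e (n 6 6 e e))) e)))))) (n
  3 1 e (n 3 2 e (n 3 4 e (n 5 3 e (n 2 6 (n 4 6 (n 5 6 (n 1 6 (n 1 6 (n 6 3 e (n 6 3 e (n 6 6 e (n
  6 6 e (n 6 6 e (n 6 6 e e)))))) e) e) e) e) e)))))) (n 3 5 (n 1 4 (n 4 3 (n 2 1 (n 5 3 e (n 1 5 (n
  4 5 (n 1 6 (n 4 6 (n 5 6 (n 6 3 e (n 6 3 e e)) e) e) e) e) e)) (n 3 2 (n 4 2 (n 3 2 (n 4 2 e (n 3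
  6 (n 6 5 e e) e)) (n 2 6 (n 6 3 e (n 6 5 e e)) e)) (n 5 4 e (n 3 6 (n 6 4 e (n 6 5 e e)) e))) (n 5
  3 e (n 4 5 (n 2 6 (n 4 6 (n 5 6 (n 6 3 e (n 6 3 e (n 6 6 e e))) e) e) e) e)))) (n 5 4 e (n 2 1 (n
  6 5 (n 4 1 (n 5 1 (n 1 6 (n 3 6 e e) e) (n 3 5 e (n 3 6 e e))) (n 3 4 e (n 5 3 (n 3 6 e e) e))) e)
  (n 3 2 (n 3 2 e (n 6 5 e e)) (n 6 5 (n 4 3 (n 5 3 (n 3 6 e e) e) e) e))))) (n 2 4 (n 5 1 e (n 5 3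
  e (n 4 5 (n 4 6 (n 5 6 (n 1 6 (n 1 6 (n 6 3 e (n 6 3 e (n 6 6 e (n 6 6 e e)))) e) e) e) e) e))) (n
  2 1 (n 5 1 e (n 3 5 (n 2 6 (n 5 6 (n 1 6 (n 1 6 (n 6 3 e (n 6 3 e (n 6 6 e e))) e) e) e) e) e)) (n
  3 2 (n 3 2 e (n 1 6 (n 2 6 (n 6 3 e (n 6 5 e (n 6 6 e e))) e) e)) (n 5 3 e (n 1 6 (n 2 6 (n 5 6 (n
  6 3 e (n 6 3 e (n 6 6 e (n 6 6 e e)))) e) e) e)))))) e)) e) e)) (n 2 3 e e))))))) (f [0, 1] (b (l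
  (n 2 5 e (n 5 3 (n 3 1 (n 2 1 e (n 3 1 (n 6 2 (n 3 4 (n 1 5 (n 1 4 e (n 3 2 (n 2 4 (n 3 5 e (n 5 2
  e (n 5 6 e (n 1 3 (n 4 3 e (n 5 4 e e)) (n 1 5 (n 5 4 e e) e))))) e) (n 3 6 (n 5 6 e (n 2 6 (n 3 5
  e (n 6 3 e e)) (n 1 2 (n 2 4 (n 1 5 (n 2 5 (n 5 3 e e) e) e) e) (n 2 5 (n 5 3 e e) e)))) (n 2 5 (n
  1 2 (n 2 4 (n 3 4 (n 5 3 e (n 5 6 e e)) e) e) (n 3 1 (n 5 3 e (n 5 6 e e)) (n 3 4 (n 5 1 e (n 5 3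
  e (n 5 6 e e))) e))) (n 1 2 (n 4 2 e (n 3 4 (n 5 4 e e) e)) (n 1 3 (n 3 4 (n 5 4 e e) e) (n 5 1 e
  (n 5 4 e e)))))))) (n 3 2 e (n 3 1 e (n 3 6 e (n 5 4 (n 4 1 (n 5 2 e (n 3 5 e e)) e) (n 4 2 (n 2 5
  (n 3 5 e e) e) (n 3 4 e (n 3 5 e e)))))))) (n 3 1 (n 2 4 (n 4 6 (n 1 5 (n 5 6 e (n 2 6 (n 4 5 (n 3
  5 (n 3 5 e (n 6 3 e e)) (n 5 6 (n 6 3 e (n 6 3 e e)) e)) (n 4 6 (n 3 6 (n 6 3 e e) e) e)) (n 1 2 e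
  (n 2 5 (n 4 5 (n 3 5 (n 5 3 e e) e) e) e)))) e) (n 1 4 e (n 5 1 e (n 2 1 (n 2 5 (n 5 6 e (n 3 5 (n
  3 5 (n 4 5 (n 5 4 e e) e) e) e)) e) e)))) e) (n 3 6 (n 6 4 e (n 2 4 (n 5 2 e (n 6 5 (n 3 5 (n 4 5
  (n 1 5 (n 5 1 (n 6 1 e e) e) (n 6 5 e (n 6 1 e (n 6 1 e e)))) (n 4 6 (n 6 1 e (n 6 1 e e)) e)) (n
  3 6 (n 4 6 (n 6 1 e (n 6 1 e e)) e) e)) e)) e)) e))) e) e)) e) (n 2 1 e (n 1 3 e e)))))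
  z)))))))))) z) (b (f [0, 2] (t [0, 1] (t [0, 4] (b (f [0, 5] (t [0, 3] (t [0, 3] (t [0, 2] (t [0,
  2] (f [0, 1, 2, 5] (l (n 3 2 e (n 2 5 e (n 1 3 e (n 1 2 e (n 1 5 (n 1 2 e (n 2 4 e (n 6 2 e e)))
  e)))))))))))) (b (t [0, 4] (t [0, 4] (t [0, 1] (t [0, 1] (f [0, 6] (l (n 1 3 e (n 3 2 e (n 2 5 e
  (n 2 1 (n 2 4 e (n 6 2 e e)) e)))))))))) (t [0, 4] (t [0, 4] (t [0, 3] (t [0, 3] (f [0, 3, 6] (l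
  (n 1 3 e (n 3 2 e (n 2 5 e (n 2 1 e (n 5 2 e (n 1 4 (n 4 2 (n 6 2 e e) e) (n 6 1 e (n 6 2 e
  e))))))))))))))))))) z))) z) (t [0, 3] (t [0, 3] (b (b (t [0, 2] (t [0, 1, 4] (t [0, 4] (b (f [0,
  5] (b (t [0, 1] (t [0, 7] (t [0, 1, 3] (f [0, 2, 7] (l (n 2 3 (n 5 2 (n 3 3 (n 2 1 (n 1 5 (n 2 1
  (n 2 4 e (n 2 6 e e)) e) e) e) e) e) e)))))) (f [0, 1] (t [0, 7] (b (b (l (n 2 3 e (n 5 3 (n 1 3 e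
  (n 5 1 e (n 2 1 (n 3 1 (n 3 4 (n 4 2 (n 2 6 (n 1 2 (n 3 2 (n 5 2 e (n 5 4 e e)) (n 3 4 (n 5 4 e e)
  e)) (n 1 4 (n 3 4 (n 5 4 e e) e) e)) e) e) (n 6 2 e (n 3 6 (n 1 2 (n 3 2 (n 4 2 (n 5 2 e e) e) e)
  e) e))) e) e))) (n 3 2 e (n 2 5 e (n 4 2 (n 2 6 (n 1 4 (n 4 5 (n 2 5 (n 1 3 (n 3 2 e (n 3 4 e e))
  e) e) e) (n 2 1 (n 3 2 (n 1 3 e (n 1 5 e e)) (n 3 4 (n 1 2 e (n 1 3 e (n 1 5 e e))) e)) (n 2 5 (n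
  3 1 e (n 3 2 e (n 3 4 e e))) e))) e) e)))))) (l (n 2 3 e (n 5 3 (n 1 3 e (n 5 1 e (n 2 1 (n 3 1 (n
  3 4 (n 4 2 (n 2 6 (n 1 2 (n 3 2 (n 5 2 e (n 5 4 e e)) (n 3 4 (n 5 4 e e) e)) (n 1 4 (n 3 4 (n 5 4
  e e) e) e)) e) e) (n 6 2 e (n 3 6 (n 1 2 (n 3 2 (n 4 2 (n 5 2 e e) e) e) e) e))) e) e))) (n 3 2 e
  (n 5 2 (n 3 2 e (n 2 4 e (n 2 6 (n 1 4 (n 4 5 (n 2 5 e e) e) (n 2 1 (n 1 2 e (n 1 3 e (n 1 4 e (n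
  1 5 e e)))) (n 2 5 e e))) e))) e)))))) (b (l (n 2 3 e (n 3 5 (n 3 1 e (n 2 3 (n 5 2 (n 5 3 (n 4 2
  (n 1 4 (n 5 4 e (n 2 6 (n 2 5 e e) e)) (n 2 6 (n 2 1 e (n 5 2 e e)) e)) e) e) e) e)) (n 1 3 e (n 1
  3 e (n 5 2 e (n 1 5 (n 4 3 (n 6 2 e (n 3 6 (n 1 2 (n 1 3 (n 2 3 (n 3 5 (n 4 5 e e) e) (n 4 2 e (n
  4 5 e e))) (n 1 4 (n 4 2 e (n 4 5 e e)) e)) e) e)) (n 4 2 (n 1 4 e (n 2 6 (n 2 1 e (n 1 3 (n 2 3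
  (n 3 4 e (n 3 5 e e)) e) e)) e)) e)) e))))))) (l (n 2 5 e (n 5 3 (n 3 1 (n 1 5 (n 3 2 (n 3 1 (n 3
  4 (n 1 4 e (n 4 2 (n 2 6 (n 2 1 e (n 5 2 (n 3 2 (n 3 2 e e) (n 1 3 (n 3 4 e e) e)) (n 1 3 (n 3 4
  (n 5 4 e e) e) (n 1 5 (n 5 4 e (n 5 5 e e)) e)))) e) e)) (n 6 2 e (n 3 6 (n 2 5 e (n 1 2 (n 3 2 (n
  4 2 (n 3 2 (n 2 4 e e) e) (n 1 4 e e)) (n 1 3 e (n 4 1 e e))) (n 1 5 (n 3 2 (n 4 2 e e) e) e)))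
  e))) e) e) e) e) (n 3 2 e (n 3 5 e (n 1 2 (n 1 4 (n 4 2 (n 4 5 (n 2 6 (n 2 5 e (n 1 3 (n 4 3 (n 3
  5 e e) e) e)) e) e) e) (n 6 1 e (n 2 6 (n 2 5 e (n 1 3 (n 3 4 e (n 3 5 e e)) e)) e)))
  e)))))))))))) (b (b (t [0, 1] (t [0, 8] (t [0, 2] (f [0, 7] (l (n 1 3 e (n 2 3 (n 2 5 e (n 2 1 (n
  4 2 (n 3 3 (n 2 6 e e) e) e) e)) e))))))) (f [0, 1] (t [0, 8] (t [0, 2] (b (l (n 1 3 e (n 2 3 e (n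
  3 2 e (n 3 3 (n 5 2 (n 1 2 e (n 5 4 (n 4 2 (n 6 4 e (n 2 6 (n 2 6 (n 2 1 (n 4 1 (n 5 1 e e) e) e)
  e) e)) (n 2 1 (n 4 2 (n 2 6 (n 5 1 e e) e) e) e)) (n 6 5 e (n 1 2 e (n 4 1 (n 5 1 (n 6 2 e (n 2 6
  e e)) e) e))))) (n 5 2 (n 2 1 (n 4 2 (n 2 6 e e) e) e) e)) e))))) (l (n 1 3 e (n 2 5 e (n 3 5 (n 3
  5 e (n 3 2 e (n 4 2 (n 2 6 (n 2 1 (n 4 1 e e) e) e) e))) (n 2 1 (n 2 3 e (n 4 3 (n 6 2 e (n 3 6 (n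
  3 2 (n 4 2 (n 5 2 e e) e) e) e)) (n 4 2 (n 3 4 (n 5 2 e (n 4 5 (n 2 6 e e) e)) (n 2 6 (n 3 2 (n 2
  5 e e) e) e)) e))) e)))))))))) (b (t [0, 1] (t [0, 8] (t [0, 1, 4] (f [0, 3] (l (n 1 3 e (n 2 3 (n
  2 5 e (n 3 3 (n 4 2 (n 4 1 (n 2 6 (n 2 1 e (n 5 2 e e)) e) (n 5 4 e (n 2 5 (n 2 6 e e) e))) e) e))
  e))))))) (f [0, 1] (t [0, 8] (b (b (l (n 2 3 e (n 3 5 (n 1 3 e (n 3 2 e (n 5 2 (n 4 2 (n 2 6 (n 2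
  1 (n 4 1 e (n 3 4 e (n 3 3 e e))) (n 3 2 e (n 3 4 e e))) e) e) e))) (n 1 3 e (n 1 3 e (n 1 2 e (n
  4 2 (n 3 2 (n 2 5 (n 2 1 (n 5 4 (n 5 1 e (n 6 2 e (n 4 4 (n 3 6 (n 3 6 e e) e) e))) (n 1 4 (n 6 2
  e (n 3 6 (n 3 6 (n 1 5 (n 2 5 (n 3 5 (n 5 3 e e) e) e) e) e) e)) e)) (n 4 5 (n 6 1 e (n 6 2 e (n 3
  6 (n 3 6 (n 1 5 (n 5 3 e (n 5 3 e e)) e) e) e))) e)) e) (n 4 3 e (n 5 4 (n 5 1 e (n 6 3 e (n 4 4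
  (n 6 2 e (n 2 6 e e)) e))) (n 1 4 (n 6 3 e (n 6 2 e (n 2 6 (n 1 5 (n 2 5 (n 5 2 e (n 5 3 e (n 5 3
  e e))) e) e) e))) e)))) (n 4 3 (n 3 6 (n 3 2 (n 4 2 (n 2 5 (n 1 2 (n 5 1 (n 2 2 (n 5 5 e e) e) (n
  3 5 (n 3 5 (n 4 5 (n 5 4 e e) e) e) e)) e) e) e) e) e) e)))))))) (l (n 5 2 (n 5 3 (n 3 1 (n 2 1 (n
  2 4 e (n 3 4 (n 3 4 (n 5 1 e (n 1 2 e (n 1 4 e (n 2 6 (n 2 5 (n 4 5 (n 3 5 (n 3 5 e e) e) e) e)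
  e)))) (n 5 1 e (n 2 6 (n 3 2 (n 2 1 (n 1 1 e (n 2 5 (n 3 5 (n 3 5 (n 4 5 (n 5 4 e e) e) e) e) e))
  e) (n 3 5 (n 2 5 (n 2 5 (n 5 4 e (n 5 4 e e)) e) e) e)) e))) (n 5 1 e (n 2 6 (n 2 3 e (n 3 2 (n 4
  2 (n 2 1 (n 1 1 e (n 2 5 (n 3 5 (n 3 5 (n 4 5 (n 5 4 e e) e) e) e) e)) e) (n 4 5 (n 2 5 (n 2 5 (n
  5 3 e (n 5 3 e e)) e) e) e)) (n 3 5 (n 4 5 (n 5 2 e (n 5 2 e e)) e) e))) e)))) e) e) (n 1 3 e (n 3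
  2 e (n 3 5 (n 2 1 e e) (n 2 4 e (n 2 6 (n 2 1 (n 4 1 e (n 3 4 e e)) (n 3 2 e (n 4 3 e e))) e))))))
  e))) (b (l (n 2 3 e (n 5 3 (n 3 1 (n 3 1 (n 3 2 e (n 4 2 (n 1 2 (n 6 3 e (n 4 6 (n 1 6 (n 1 6 (n 2
  6 (n 2 6 (n 2 5 (n 3 5 (n 4 5 (n 1 5 (n 5 1 e e) e) e) e) e) e) e) e) e) e)) (n 6 3 e (n 4 6 (n 4
  1 e (n 2 6 (n 2 6 (n 3 5 (n 4 5 (n 1 5 (n 5 1 e (n 5 2 e (n 5 2 e e))) e) e) e) e) e)) e))) (n 3 4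
  (n 1 2 (n 1 4 e (n 6 1 e (n 2 6 (n 2 5 (n 3 5 (n 1 5 (n 5 1 e (n 5 4 e (n 5 4 e e))) e) e) e) e)))
  e) (n 6 2 e (n 1 2 (n 3 6 (n 2 5 (n 3 5 (n 4 5 (n 5 1 e (n 5 1 e e)) e) e) e) e) e))))) e) e) e)))
  (l (n 2 3 e (n 5 3 (n 1 3 e (n 3 1 (n 3 4 (n 2 1 e (n 4 1 (n 5 4 (n 3 1 e (n 2 3 (n 3 4 e (n 5 3 e
  (n 6 1 e (n 2 6 e e)))) e)) (n 3 1 (n 1 5 (n 5 2 e (n 6 1 e (n 2 6 (n 3 6 (n 3 2 (n 3 2 e (n 3 5 e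
  e)) (n 2 5 (n 3 5 (n 5 3 e e) e) e)) e) e))) e) (n 6 2 e (n 3 2 (n 1 6 (n 2 5 (n 3 2 (n 1 2 (n 2 1
  (n 5 1 e e) e) (n 2 5 (n 5 1 e (n 5 1 e (n 5 5 e e))) e)) (n 3 5 (n 5 1 e (n 5 1 e e)) e)) e) e)
  (n 4 3 e (n 1 6 (n 2 5 (n 3 5 (n 5 1 e (n 5 1 e e)) e) e) e)))))) e)) (n 6 2 e (n 3 6 (n 2 1 e (n
  5 1 (n 3 1 (n 1 4 (n 4 2 e (n 5 4 e e)) e) (n 2 3 (n 5 3 e (n 4 5 e e)) (n 4 2 e (n 5 4 e e)))) (n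
  3 2 (n 4 2 (n 3 5 (n 5 4 (n 3 2 (n 2 5 e e) e) e) (n 2 5 e e)) (n 1 4 e (n 2 5 (n 5 3 e (n 5 4 e
  e)) e))) (n 1 3 e (n 4 1 (n 2 5 (n 5 3 e (n 5 4 e e)) e) e))))) e))) (n 4 1 (n 3 3 (n 1 2 (n 6 2 e
  (n 2 4 e (n 1 6 (n 1 6 (n 5 1 (n 5 2 e e) (n 4 5 e (n 1 2 (n 2 5 e e) e))) e) e))) e) e) e))) (n 1
  3 e (n 2 3 e e))))))))))))))) z) (b (f [0, 2] (t [0, 5] (t [0, 4] (b (f [0, 5] (t [0, 3] (t [0, 3]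
  (t [0, 6] (t [0, 2] (f [0, 1, 6] (l (n 3 2 e (n 5 2 (n 1 3 e (n 2 1 (n 1 5 (n 2 1 (n 2 4 e (n 2 6
  e e)) e) e) e)) e))))))))) (b (t [0, 4] (t [0, 4] (t [0, 7] (t [0, 1] (f [0, 6] (l (n 1 3 e (n 3 2
  e (n 2 5 e (n 2 1 (n 4 2 (n 2 6 e e) e) e)))))))))) (t [0, 4] (t [0, 4] (t [0, 7] (t [0, 3] (f [0,
  2] (l (n 1 3 e (n 3 2 e (n 2 5 e (n 4 2 (n 2 6 (n 4 1 (n 2 1 e (n 5 2 e e)) (n 5 4 e (n 2 5 e e)))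
  e) e))))))))))))))) z))))) (f [0, 1] (t [0, 2, 3] (t [0, 2, 3] (b (t [0, 1, 3] (t [0, 1] (t [0, 1,
  3] (t [0, 4] (b (b (b (t [0, 1] (t [0, 6] (t [0, 6] (f [0, 3, 6, 7] (l (n 2 5 (n 2 3 (n 3 3 (n 5 5
  (n 1 2 (n 1 4 e e) e) e) e) e) e)))))) (f [0, 1] (t [0, 6] (t [0, 6] (b (l (n 2 5 (n 2 3 e (n 3 2
  e (n 3 3 (n 5 5 (n 1 4 (n 4 2 (n 1 2 e (n 1 4 e e)) e) (n 1 2 (n 4 2 e e) e)) e) e))) e)) (l (n 2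
  5 (n 2 3 e (n 3 2 e (n 5 5 (n 1 2 (n 2 4 (n 3 3 e (n 1 4 (n 4 1 e e) e)) (n 3 3 e e)) (n 1 3 (n 4
  2 (n 1 1 (n 3 3 e e) e) (n 4 2 (n 1 1 (n 3 3 e e) e) (n 1 4 e e))) e)) e))) e))))))) (b (t [0, 1]
  (t [0, 6] (t [0, 6] (f [0, 2, 3, 5, 6] (l (n 2 3 (n 2 5 e (n 3 3 (n 1 2 e (n 1 5 (n 1 4 e (n 4 2 e
  e)) e)) e)) e)))))) (f [0, 1] (t [0, 6] (t [0, 6] (b (l (n 2 3 e (n 5 3 (n 1 3 e (n 5 1 e (n 4 1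
  (n 4 2 e (n 1 2 (n 4 2 (n 3 4 (n 5 2 e e) e) e) e)) e))) (n 3 2 e (n 2 5 e (n 4 2 e (n 1 2 (n 5 2
  e (n 4 5 (n 3 1 e (n 3 2 e e)) e)) (n 1 5 (n 5 4 (n 1 4 (n 4 1 (n 3 2 e (n 3 3 e e)) e) (n 3 2 e
  (n 3 3 e e))) (n 3 2 e (n 3 3 e e))) (n 3 2 (n 1 3 (n 1 4 (n 4 5 e (n 4 5 e e)) e) e) (n 3 3 (n 1
  4 (n 4 5 (n 1 2 e (n 1 1 e e)) (n 4 5 (n 1 2 e (n 1 1 e e)) e)) (n 1 2 (n 4 2 e e) e)) e))))))))))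
  (l (n 2 3 e (n 3 5 (n 3 2 e (n 5 2 (n 4 2 e (n 3 2 e (n 3 3 e (n 1 2 (n 5 2 e (n 5 4 e e)) (n 1 4
  (n 5 4 e (n 1 2 e (n 1 3 e (n 1 4 e (n 1 5 e e))))) (n 1 2 (n 2 4 (n 4 3 e (n 4 5 e e)) e) (n 3 1
  (n 1 5 (n 4 5 e e) e) (n 4 3 e (n 4 5 e e))))))))) e)) (n 5 2 e (n 1 3 e (n 1 4 e (n 4 2 e (n 5 4
  e (n 4 3 e (n 1 5 (n 1 2 (n 3 2 (n 4 2 (n 2 5 e e) e) e) e) e)))))))))))))))) (b (b (t [0, 1] (t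
  [0, 6] (t [0, 6] (b (l (n 2 2 (n 3 3 (n 5 5 (n 1 4 e e) e) e) e)) (l (n 1 3 e (n 2 3 (n 2 5 (n 5 5
  (n 3 3 (n 2 2 e (n 4 1 e (n 4 2 e e))) e) e) (n 2 1 (n 4 2 e (n 3 3 (n 1 4 (n 5 4 e e) e) e)) e))
  e))))))) (f [0, 1] (t [0, 6] (t [0, 6] (b (l (n 1 3 e (n 2 3 e (n 3 2 e (n 3 3 (n 5 2 (n 4 5 e (n
  1 4 e (n 4 2 e (n 2 4 (n 5 1 e (n 5 4 e e)) e)))) (n 5 2 (n 4 1 (n 4 2 e e) (n 2 1 (n 2 4 (n 5 4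
  (n 4 5 e e) e) e) e)) (n 5 4 (n 4 1 (n 5 5 e e) (n 5 5 (n 4 2 e (n 4 2 e e)) e)) e))) e))))) (l (n
  3 1 (n 2 5 (n 2 3 e (n 3 2 e (n 5 5 (n 1 1 e (n 3 4 (n 3 3 e (n 1 4 (n 4 2 e (n 4 2 e (n 4 4 e
  e))) e)) e)) e))) (n 1 2 e (n 4 2 e (n 3 5 (n 3 5 e (n 3 2 e (n 1 4 (n 2 4 (n 3 4 (n 4 5 e (n 4 5
  e e)) e) e) e))) (n 2 3 e (n 3 2 (n 5 2 e (n 1 4 (n 2 4 (n 4 5 e e) e) e)) (n 1 4 (n 5 4 e e)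
  e))))))) e))))))) (b (t [0, 1] (t [0, 6] (t [0, 6] (f [0, 2, 3, 5, 6] (l (n 1 3 e (n 2 3 (n 2 5 e
  (n 4 2 e (n 2 1 e (n 5 2 e (n 5 4 e (n 3 3 e e)))))) e))))))) (f [0, 1] (t [0, 6] (t [0, 6] (b (l
  (n 2 3 e (n 1 3 e (n 3 2 e (n 5 2 (n 2 1 (n 4 5 e (n 4 2 e (n 2 4 (n 1 2 e (n 1 5 (n 1 4 e (n 3 4
  (n 3 3 (n 5 5 e e) e) e)) e)) e))) (n 4 5 e (n 1 4 e e))) (n 5 2 (n 4 2 e (n 1 2 (n 1 4 (n 3 1 (n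
  4 5 (n 2 2 (n 3 3 e e) e) (n 5 4 e (n 2 2 (n 3 3 e e) e))) (n 4 5 (n 4 3 e e) (n 5 3 (n 5 4 e (n 3
  4 e e)) (n 3 4 (n 4 5 e e) e)))) (n 3 4 (n 2 2 (n 3 3 e e) e) e)) e)) e)))))) (l (n 1 3 e (n 2 3 e
  (n 5 2 (n 1 2 e (n 4 2 e (n 3 4 (n 3 1 e (n 1 2 e (n 5 1 (n 5 3 e (n 4 5 (n 3 3 e e) e)) e))) e)))
  (n 3 5 e (n 3 1 e (n 4 1 e (n 4 3 e (n 5 2 (n 2 1 (n 1 1 e (n 2 3 (n 5 3 (n 5 3 e (n 4 5 e e)) (n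
  3 4 (n 4 5 e (n 4 5 e e)) e)) (n 2 4 (n 5 4 (n 4 5 e e) e) e))) e) (n 5 3 (n 2 3 (n 3 2 (n 4 2 e
  e) e) (n 4 3 e (n 4 2 e (n 4 2 e e)))) (n 4 5 e (n 2 4 (n 4 2 e e) e))))))))))))))))))))))) (t [0,
  3] (f [0, 1] (t [0, 3] (t [0, 4] (b (b (t [0, 3] (t [0, 3] (t [0, 5] (t [0, 5] (f [0, 2, 5, 6] (l
  (n 2 5 (n 3 2 e (n 5 5 (n 1 3 e (n 1 2 (n 1 4 e e) e)) e)) e))))))) (t [0, 3] (t [0, 3] (t [0, 5]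
  (t [0, 5] (f [0, 1, 2, 4, 5] (l (n 3 2 e (n 2 5 e (n 1 2 e (n 1 3 e (n 1 5 (n 1 4 e (n 4 2 e e))
  e)))))))))))) (b (t [0, 3] (t [0, 3] (t [0, 5] (t [0, 5] (b (l (n 2 2 (n 1 3 e (n 5 5 (n 4 1 (n 3
  3 e e) e) e)) e)) (l (n 1 3 e (n 3 2 e (n 2 5 (n 5 5 (n 4 1 (n 2 2 e e) (n 2 4 e e)) e) (n 2 1 (n
  4 2 e (n 1 4 (n 5 4 e e) e)) e)))))))))) (t [0, 3] (t [0, 3] (t [0, 5] (t [0, 5] (f [0, 1, 2, 4,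
  5] (l (n 1 3 e (n 3 2 e (n 2 5 e (n 4 2 e (n 2 1 e (n 5 2 e (n 5 4 e e))))))))))))))))))))))))) z)
  (b (t [0, 1] (f [0, 2] (f [0, 2] (t [0, 1] (t [0, 1] (b (t [0, 1, 2] (t [0, 1] (t [0, 1, 2] (f [0,
  3] (b (b (t [0, 1] (t [0, 4] (t [0, 4] (f [0, 2, 4] (l (n 2 3 (n 3 3 (n 5 2 e (n 1 2 (n 1 4 e e)
  e)) e) e)))))) (f [0, 1] (t [0, 4] (t [0, 4] (b (l (n 5 2 e (n 2 3 e (n 3 2 e (n 3 3 (n 4 2 (n 1 2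
  e (n 1 4 e e)) (n 1 4 e (n 1 2 (n 4 2 e e) e))) e))))) (l (n 5 2 e (n 2 3 e (n 3 2 e (n 1 2 (n 2 4
  (n 3 3 e (n 1 4 (n 4 1 e e) e)) (n 3 3 e e)) (n 1 3 (n 4 2 (n 1 1 (n 3 3 e e) e) (n 4 2 (n 1 1 (n
  3 3 e e) e) (n 1 4 e e))) e))))))))))) (t [0, 1] (b (t [0, 1] (t [0, 4] (t [0, 4] (b (l (n 2 2 (n
  3 3 (n 1 4 e (n 5 5 e e)) e) e)) (l (n 1 3 e (n 2 3 (n 5 2 e (n 3 3 (n 2 2 e (n 4 1 e (n 4 2 e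
  e))) e)) e))))))) (f [0, 1] (t [0, 4] (t [0, 4] (b (l (n 5 2 e (n 2 3 e (n 1 3 e (n 3 2 e (n 3 3
  (n 1 4 (n 4 2 e (n 4 2 e (n 4 4 e e))) e) e)))))) (l (n 5 2 e (n 2 3 e (n 1 3 e (n 3 2 e (n 3 4 (n
  3 3 e (n 1 4 (n 4 2 e (n 4 2 e (n 4 4 e e))) e)) e))))))))))))))))) (t [0, 2] (f [0, 1] (t [0, 2]
  (f [0, 3] (b (t [0, 2] (t [0, 2] (t [0, 3] (t [0, 3] (f [0, 1, 3] (l (n 3 2 e (n 5 2 e (n 1 3 e (n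
  1 2 (n 1 4 e e) e)))))))))) (t [0, 1] (t [0, 2] (t [0, 2] (t [0, 3] (t [0, 3] (b (l (n 2 2 (n 1 3
  e (n 4 1 (n 3 3 e (n 5 5 e e)) e)) e)) (l (n 1 3 e (n 3 2 e (n 5 2 e (n 4 1 (n 2 2 e e) (n 2 4 e
  e))))))))))))))))))))))) z)) z)

set_option maxRecDepth 100000 in
theorem f11A : chkQ 6 2 10897286400000 t11A
    (blks.getD 11 ⟨0, 0, 0, 0, 0, .zr, .zr⟩).A = some [605404800000, 454053600000] := by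
  decide +kernel

end Pool.Agent.TH32
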