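import Pool.Agent.TH32.H.Fast

set_option autoImplicit false

namespace Pool.Agent.TH32

open CT PT

set_option maxRecDepth 100000 in
/-- certificate for block 12 (Ld1R1), tree B -/
def t12B : PT :=
  (b (b (b (b (b (t [0, 1] (b (t [0, 1] (b (t [0, 1] (b (b (t [0, 2] (t [0, 1] (t [0, 4] (b (b (f
  [0, 4] (b (t [0, 1, 4] (t [0, 1, 4] (b (l (n 1 5 (n 2 4 e (n 2 3 (n 7 2 e (n 7 4 e e)) e)) (n 4 2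
  (n 7 4 (n 2 2 e e) (n 6 4 (n 2 3 e (n 2 2 (n 3 7 (n 1 3 e (n 4 1 (n 1 6 (n 7 7 (n 5 3 e (n 4 5 (n
  3 3 e e) e)) e) e) e)) e) e)) (n 2 3 e (n 2 2 (n 3 7 (n 7 7 (n 3 1 (n 6 3 (n 1 4 (n 3 5 (n 3 3 (n
  6 6 e e) e) e) (n 1 1 (n 3 5 (n 3 3 (n 6 6 e e) e) e) e)) e) (n 6 3 e (n 6 1 (n 1 5 e e) e))) e)
  e) e)))) e))) z))) (t [0, 2, 8] (t [0, 2, 8] (b (l (n 1 5 (n 2 4 e (n 6 4 e (n 7 4 e (n 2 3 e (n 6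
  3 e (n 7 3 e (n 3 2 e (n 7 2 (n 2 2 (n 6 7 (n 5 6 (n 3 3 e (n 1 7 (n 7 5 e e) e)) e) e) e)
  e)))))))) (n 2 4 e (n 7 4 e (n 6 4 (n 1 3 e (n 4 1 (n 5 7 e (n 2 7 (n 2 3 e (n 3 2 e (n 1 6 (n 4 5
  (n 3 3 e (n 7 7 e e)) e) e))) e)) e)) (n 2 7 (n 2 3 e (n 6 3 (n 3 1 (n 7 7 (n 5 2 e (n 3 5 (n 3 2
  (n 6 1 (n 2 6 (n 6 6 e (n 6 6 e (n 1 4 e (n 1 1 e e)))) e) (n 1 2 (n 6 2 e e) e)) (n 1 4 (n 3 3 (n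
  6 6 e e) e) (n 6 6 (n 1 1 (n 3 3 e e) e) (n 1 6 e (n 1 1 e e))))) e)) e) e) (n 7 7 (n 3 2 e (n 6 2
  (n 2 5 (n 3 3 e (n 1 2 e (n 1 3 e (n 1 4 e (n 1 6 e e))))) e) e)) e))) e)))))) z))))) (f [0, 4] (b
  (t [0, 1, 4] (t [0, 1, 4] (b (l (n 1 5 (n 2 7 e (n 4 7 (n 7 3 e e) e)) (n 2 3 e (n 2 4 (n 4 4 (n 7
  2 e (n 6 2 (n 1 2 e (n 3 1 (n 3 7 e (n 1 6 (n 1 3 e (n 5 2 e (n 7 5 (n 7 7 e e) e))) e)) e)) (n 3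
  7 e (n 1 3 e (n 1 3 e (n 6 7 (n 7 1 (n 7 5 (n 6 1 (n 1 2 (n 3 2 (n 6 6 (n 7 7 e e) e) e) e) (n 3 2
  e (n 3 6 e e))) e) e) e)))))) e) e)))) z))) (b (b (b (l (n 1 5 (n 6 3 e (n 2 7 e (n 3 7 (n 7 6 e
  (n 6 4 e (n 3 6 e (n 6 5 e (n 2 6 (n 3 7 e (n 3 2 e (n 3 2 e (n 1 7 (n 7 5 e e) e)))) e))))) e)))
  (n 2 7 e (n 7 4 (n 6 7 (n 3 2 (n 2 4 e e) e) e) (n 6 4 (n 1 3 e (n 1 4 e (n 2 1 (n 3 2 e (n 5 7 e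
  (n 7 3 e (n 3 7 e (n 4 5 (n 3 3 e (n 6 1 e (n 2 6 e e))) e))))) e))) (n 6 7 (n 3 6 (n 1 2 (n 3 1 e
  (n 7 5 (n 3 6 e (n 6 2 e (n 3 7 e (n 2 3 (n 1 3 (n 2 3 e e) e) e)))) e)) (n 3 2 e (n 7 5 (n 3 6 e
  (n 3 7 e (n 2 3 (n 1 2 e (n 1 3 e (n 1 4 e (n 6 1 (n 1 7 e e) e)))) e))) e))) (n 1 3 e (n 1 2 e (n
  2 3 (n 7 5 (n 3 7 (n 6 7 (n 3 7 e (n 6 1 (n 1 4 (n 2 4 (n 6 6 (n 7 7 e e) e) e) e) (n 2 4 e (n 2 6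
  e e)))) (n 1 4 (n 2 4 (n 7 7 e e) (n 7 7 e (n 2 6 e (n 2 7 e e)))) (n 1 6 (n 7 7 e (n 2 6 e (n 2 7
  e e))) (n 7 1 e (n 2 7 e e))))) e) e) (n 6 2 e (n 6 7 e (n 7 5 (n 6 2 e (n 1 2 (n 2 3 (n 3 4 e (n
  3 6 e (n 3 7 e e))) e) (n 1 4 (n 3 4 e (n 6 3 (n 3 7 e e) e)) (n 6 1 (n 1 7 (n 3 7 e e) e) (n 3 6
  e (n 3 7 e e)))))) e))))))) e)))))) z) z) z)))) (b (f [0, 4] (b (t [0, 2] (t [0, 2] (b (l (n 1 5 e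
  (n 1 3 e (n 1 4 e (n 2 4 e (n 7 4 (n 6 7 (n 4 1 (n 2 1 (n 3 2 (n 2 2 (n 7 5 (n 3 3 e e) e) e) e)
  e) e) e) (n 2 3 (n 2 7 (n 3 3 (n 7 7 (n 6 2 (n 5 4 e (n 2 5 (n 2 2 (n 6 6 e e) e) e)) (n 6 4 (n 4
  5 (n 2 2 e e) e) e)) e) e) (n 2 1 (n 3 3 (n 6 4 (n 5 4 e (n 7 5 e e)) (n 6 7 (n 7 5 e e) e)) e)
  e)) e))))))) z))) (t [0, 2] (t [0, 2] (b (l (n 1 5 e (n 1 3 e (n 1 4 e (n 6 7 (n 7 5 (n 2 6 (n 2 4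
  e (n 2 3 e (n 3 2 e (n 3 3 e (n 6 6 (n 7 7 e e) e))))) (n 6 4 (n 4 2 (n 7 4 (n 4 1 (n 2 1 (n 2 3 e
  (n 3 2 e (n 3 3 e e))) e) e) (n 2 3 e (n 3 7 (n 3 2 e (n 7 2 (n 2 1 (n 3 3 e e) e) (n 3 3 e (n 7 7
  e e)))) (n 1 3 e (n 2 1 (n 3 2 (n 7 2 e e) e) e))))) e) (n 3 6 (n 3 2 e (n 3 6 e (n 7 2 (n 2 1 e
  e) (n 7 7 e e)))) (n 2 3 e (n 7 3 (n 1 3 e (n 2 1 (n 3 2 (n 6 2 (n 7 2 e e) e) e) e)) (n 7 2 (n 2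
  1 (n 3 2 (n 6 2 e (n 7 6 e e)) (n 3 7 (n 7 6 e e) e)) e) (n 3 2 (n 6 2 e (n 7 7 e e)) (n 7 7 e
  e)))))))) e) e))))) z))))) (f [0, 4] (b (t [0, 1, 4] (t [0, 1, 4] (b (l (n 1 5 e (n 1 4 e (n 1 3 e
  (n 2 3 e (n 2 4 (n 7 2 (n 6 7 (n 1 2 e (n 3 1 e (n 3 6 (n 4 4 (n 7 5 (n 3 3 e e) e) e) e))) e) (n
  3 7 e (n 3 1 e (n 4 4 (n 6 2 (n 6 3 e (n 5 2 e (n 7 5 e e))) (n 6 7 (n 7 5 (n 2 3 (n 3 6 e e) e)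
  e) e)) e)))) e)))))) z))) (b (b (b (l (n 1 5 e (n 1 3 e (n 1 4 e (n 2 7 e (n 7 4 (n 4 2 (n 6 7 (n
  4 1 (n 2 1 e (n 6 2 e (n 3 2 e (n 1 3 e (n 3 1 e (n 7 5 (n 3 3 e e) e)))))) (n 2 3 e e)) e) e) (n
  6 7 (n 2 1 e (n 6 2 e (n 3 2 e (n 3 7 (n 3 7 e (n 5 3 e (n 3 1 e (n 3 6 e (n 2 3 (n 5 4 e (n 7 5
  (n 7 5 e e) e)) e))))) (n 3 1 (n 3 1 (n 5 7 e (n 7 1 e (n 6 7 (n 2 7 (n 4 5 e e) e) e))) (n 5 7 e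
  (n 4 5 (n 3 6 (n 6 7 (n 2 7 e e) e) (n 2 3 e (n 2 7 e e))) e))) (n 6 3 (n 2 3 e (n 5 4 e (n 7 5 (n
  1 2 (n 3 2 (n 6 2 (n 2 7 e e) e) e) e) e))) (n 1 6 (n 5 7 e (n 4 5 (n 3 6 (n 6 7 (n 2 7 e e) e) (n
  2 3 e (n 2 7 e e))) e)) (n 5 4 e (n 7 5 (n 1 2 (n 2 3 e (n 2 7 e e)) e) e))))))))) (n 6 4 (n 7 2
  (n 2 1 (n 3 7 e (n 2 3 (n 7 3 e (n 1 7 (n 4 5 (n 2 7 (n 3 7 e e) e) e) (n 3 1 e (n 4 5 e e)))) (n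
  7 1 e (n 3 2 e (n 3 7 e (n 4 5 e e)))))) (n 2 6 (n 3 2 e (n 3 7 e (n 4 5 (n 1 3 (n 7 3 e (n 1 7 (n
  3 7 e e) e)) (n 3 1 e (n 7 3 e e))) e))) e)) (n 3 2 e (n 3 7 (n 2 1 e (n 3 7 e (n 3 2 e (n 4 5 e
  e)))) (n 2 3 e (n 4 5 (n 1 2 (n 3 2 (n 2 7 e e) e) (n 3 1 e e)) e))))) e)))))))) z) z) z))))))))
  z) (b (b (t [0, 1, 2] (t [0, 5] (b (b (b (t [0, 1] (t [0, 5] (t [0, 5] (b (l (n 2 3 (n 7 2 (n 6 7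
  (n 2 2 (n 3 3 (n 1 4 e (n 1 5 e (n 7 1 (n 1 6 (n 7 5 (n 1 1 (n 6 6 (n 7 7 e e) e) e) e) e) e))) e)
  e) e) e) e)) z)))) (t [0, 6] (t [0, 5] (t [0, 5] (b (l (n 1 5 (n 2 3 e (n 6 3 e (n 4 2 e (n 6 2 e
  e)))) (n 2 7 (n 7 7 (n 2 3 e (n 1 4 (n 6 3 e (n 6 2 (n 4 6 (n 1 2 e (n 6 1 (n 2 5 (n 3 3 e e) e)
  e)) e) e)) (n 4 2 e (n 6 3 (n 3 1 (n 1 6 (n 5 2 e (n 3 5 (n 1 1 (n 3 3 (n 6 6 e e) e) e) e)) e) e)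
  (n 6 2 (n 1 3 (n 2 5 (n 1 1 (n 3 3 e e) e) e) e) e))))) e) e))) z))))) (b (t [0, 1] (t [0, 5] (t
  [0, 5] (t [0, 2, 3, 7] (l (n 2 3 (n 2 7 e (n 6 7 (n 3 3 (n 1 4 e (n 1 5 e (n 1 2 e (n 1 7 e (n 6 1
  e (n 2 1 (n 7 5 e e) e)))))) e) e)) e)))))) (t [0, 6] (t [0, 5] (t [0, 5] (b (l (n 1 5 (n 2 3 e (n
  6 3 e (n 4 2 e (n 6 2 e e)))) (n 2 3 e (n 4 2 e (n 7 2 e (n 1 4 (n 3 7 e e) (n 6 2 (n 1 3 e (n 3 7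
  e (n 1 2 e (n 6 1 e (n 3 1 (n 5 2 e (n 7 5 (n 7 7 e e) e)) e))))) (n 3 7 e (n 6 7 (n 1 3 e (n 1 7
  e (n 3 1 (n 7 5 (n 6 1 (n 1 2 (n 3 2 (n 6 6 (n 7 7 e e) e) e) e) (n 3 2 e (n 3 6 e e))) e) e)))
  e))))))))) z)))))) (b (b (t [0, 1] (t [0, 2] (t [0, 2] (b (l (n 2 3 (n 3 3 (n 1 4 e (n 1 5 e (n 1
  2 e (n 2 7 (n 6 2 (n 7 7 (n 2 5 (n 2 2 (n 6 6 e e) e) e) e) e) (n 2 1 (n 6 7 (n 7 5 e e) e) e)))))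
  e) e)) z)))) (t [0, 6] (t [0, 2] (t [0, 2] (b (l (n 1 3 e (n 1 4 e (n 1 5 e (n 3 3 e (n 6 7 (n 7 5
  (n 2 6 (n 2 3 e (n 2 4 (n 2 2 e (n 6 6 (n 7 7 e e) e)) e)) (n 6 3 (n 7 2 (n 2 1 (n 2 3 (n 7 3 e (n
  4 7 e e)) (n 4 2 e (n 7 4 e e))) e) (n 2 3 e (n 4 2 e (n 7 7 e e)))) (n 4 2 e (n 6 4 (n 7 2 (n 2 1
  e e) (n 7 7 e e)) e)))) e) e)))))) z))))) (b (t [0, 1] (t [0, 5] (t [0, 5] (t [0, 3] (l (n 2 3 (n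
  3 3 (n 1 4 e (n 1 5 e (n 1 2 e (n 2 7 e (n 6 7 (n 2 1 e (n 6 2 e (n 7 5 e e))) e))))) e) e))))))
  (t [0, 6] (t [0, 5] (t [0, 5] (b (l (n 1 4 e (n 1 5 e (n 1 3 e (n 2 3 e (n 4 2 e (n 7 2 (n 1 2 e
  (n 6 7 (n 3 1 e (n 3 6 (n 7 5 (n 3 3 e e) e) e)) e)) (n 3 7 e (n 3 1 e (n 6 2 (n 6 3 e (n 5 2 e (n
  7 5 e e))) (n 6 7 (n 7 5 (n 2 3 (n 3 6 e e) e) e) e))))))))))) z))))))))) (t [0, 2] (t [0, 5] (b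
  (b (t [0, 3] (t [0, 3] (t [0, 4] (t [0, 4] (b (l (n 3 2 e (n 7 2 (n 6 7 (n 2 2 (n 1 3 e (n 1 4 e
  (n 1 5 e (n 7 1 (n 1 6 (n 7 5 (n 1 1 (n 6 6 (n 7 7 e e) e) e) e) e) e)))) e) e) e))) z))))) (t [0,
  3] (t [0, 3] (t [0, 4] (t [0, 4] (t [0, 1, 2, 6] (l (n 3 2 e (n 2 7 e (n 6 7 (n 1 3 e (n 1 4 e (n
  1 5 e (n 1 2 e (n 1 7 e (n 6 1 e (n 2 1 (n 7 5 e e) e))))))) e)))))))))) (b (t [0, 3] (t [0, 3] (t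
  [0, 1] (t [0, 1] (b (l (n 1 3 e (n 3 2 e (n 1 4 e (n 1 5 e (n 2 7 (n 6 2 (n 7 7 (n 2 5 (n 2 2 (n 6
  6 e e) e) e) e) e) (n 2 1 (n 6 7 (n 7 5 e e) e) e))))))) z))))) (t [0, 3] (t [0, 3] (t [0, 4] (t
  [0, 4] (t [0, 2] (l (n 1 3 e (n 1 4 e (n 1 5 e (n 3 2 e (n 2 7 e (n 6 7 (n 2 1 e (n 6 2 e (n 7 5 e
  e))) e))))))))))))))))) z))) z)) (f [0, 1] (t [0, 2, 3] (t [0, 2, 3] (b (t [0, 1, 3] (t [0, 1] (t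
  [0, 1, 3] (f [0, 2] (b (f [0, 2] (b (t [0, 5] (t [0, 5] (b (l (n 6 7 (n 1 5 (n 2 4 e (n 6 4 e (n 2
  3 (n 6 2 e e) e))) (n 7 5 (n 2 4 e (n 2 3 (n 3 3 (n 6 2 (n 1 2 e (n 4 1 (n 7 2 e (n 7 4 e (n 6 1
  (n 1 1 (n 2 2 (n 6 6 e e) e) e) e))) e)) (n 6 4 (n 4 1 (n 7 4 e (n 1 6 (n 2 2 e e) (n 2 1 (n 1 1
  (n 2 2 e e) e) e))) e) e)) e) e)) e)) e)) z))) (t [0, 5] (t [0, 5] (b (l (n 2 4 e (n 6 7 (n 6 4 (n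
  2 3 e (n 1 3 e (n 1 4 e (n 5 1 (n 3 2 e (n 1 6 (n 7 5 (n 7 3 e (n 3 3 e (n 7 4 e (n 7 2 e (n 7 2 e
  e))))) e) e)) e)))) (n 2 3 e (n 6 3 (n 1 3 e (n 5 1 (n 3 2 (n 6 2 e (n 7 5 (n 6 6 e (n 7 2 e (n 7
  3 e (n 3 7 (n 1 2 e (n 1 4 e (n 1 6 e (n 1 1 e e)))) e)))) e)) (n 7 5 (n 7 3 e (n 7 2 e (n 7 2 e
  (n 1 4 (n 3 3 (n 6 6 e e) e) (n 6 1 (n 1 1 (n 3 3 (n 6 6 e e) e) e) e))))) e)) e)) (n 3 2 e (n 6 2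
  (n 1 5 (n 5 6 (n 3 3 e (n 7 1 (n 7 2 e e) (n 5 7 e (n 1 2 (n 2 7 e e) e)))) e) (n 7 5 (n 7 2 e (n
  3 1 (n 3 3 e (n 1 2 e (n 1 4 e (n 1 6 e e)))) e)) e)) e))))) e))) z))))) (t [0, 1] (f [0, 2] (b (t
  [0, 2] (t [0, 2] (b (l (n 1 3 e (n 1 4 e (n 1 5 e (n 6 7 (n 2 4 e (n 2 3 (n 7 5 (n 6 2 (n 3 3 (n 7
  2 e (n 7 4 e (n 2 2 (n 6 6 e e) e))) e) (n 6 4 (n 7 4 e (n 3 3 (n 2 2 e e) e)) e)) e) e)) e)))))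
  z))) (t [0, 2] (t [0, 2] (b (l (n 1 3 e (n 1 4 e (n 1 5 e (n 6 7 (n 7 5 (n 2 4 e (n 2 3 e (n 3 2 e
  (n 6 3 (n 7 3 e (n 7 4 e (n 7 2 e (n 7 2 e (n 3 3 (n 6 6 e e) e))))) (n 6 4 (n 3 3 e (n 7 4 e (n 7
  2 e (n 7 2 e e)))) (n 3 3 e (n 6 2 (n 7 6 e (n 7 2 e (n 2 7 e e))) (n 6 2 (n 7 2 e e) e)))))))) e)
  e))))) z))))))))))) (t [0, 3] (b (t [0, 1, 4] (f [0, 3] (b (b (t [0, 1] (t [0, 6] (t [0, 6] (b (l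
  (n 2 3 (n 3 3 (n 6 2 (n 6 7 (n 1 2 e (n 1 4 e (n 5 1 (n 1 6 (n 7 5 (n 7 2 e (n 1 1 (n 2 2 (n 6 6 e
  e) e) e)) e) e) e))) e) e) e) e)) z)))) (t [0, 4] (t [0, 6] (t [0, 6] (b (l (n 2 3 e (n 4 2 e (n 6
  7 (n 6 2 (n 1 5 e (n 7 5 (n 1 2 e (n 1 3 e (n 4 1 (n 7 2 e (n 7 3 e (n 1 6 (n 3 3 e e) e))) e)))
  e)) (n 6 3 (n 1 5 e (n 1 3 e (n 4 1 (n 7 5 (n 7 3 e (n 1 2 (n 3 3 (n 6 6 e e) e) (n 6 1 (n 1 1 (n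
  3 3 (n 6 6 e e) e) e) e))) e) e))) e)) e)))) z))))) (t [0, 1] (b (t [0, 1] (t [0, 2] (t [0, 2] (b
  (l (n 1 3 e (n 2 3 (n 1 4 e (n 1 5 e (n 7 2 e (n 6 2 (n 5 2 e (n 7 5 (n 3 3 (n 2 2 (n 6 6 e e) e)
  e) e)) e)))) e))) z)))) (t [0, 4] (t [0, 2] (t [0, 2] (b (l (n 2 3 e (n 1 4 e (n 4 2 e (n 1 3 e (n
  1 5 e (n 6 7 (n 6 2 (n 7 5 (n 7 2 e (n 7 3 e (n 3 3 e e))) e) (n 6 3 (n 7 5 (n 3 7 (n 7 7 e (n 3 3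
  (n 6 6 e e) e)) e) e) e)) e))))))) z))))))))) (t [0, 4] (f [0, 3] (b (t [0, 2] (t [0, 2] (t [0, 5]
  (t [0, 5] (b (l (n 3 2 e (n 6 2 (n 6 7 (n 1 2 e (n 1 3 e (n 1 4 e (n 5 1 (n 1 6 (n 7 5 (n 7 2 e (n
  1 1 (n 2 2 (n 6 6 e e) e) e)) e) e) e)))) e) e))) z))))) (t [0, 1] (t [0, 2] (t [0, 2] (t [0, 1]
  (t [0, 1] (b (l (n 1 3 e (n 3 2 e (n 1 4 e (n 1 5 e (n 7 2 e (n 6 2 (n 5 2 e (n 7 5 (n 2 2 (n 6 6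
  e e) e) e)) e))))))) z))))))))))))))))) z) (b (t [0, 1] (f [0, 2, 4] (f [0, 2, 4] (t [0, 1] (t [0,
  1] (b (t [0, 1, 2] (t [0, 1] (t [0, 1, 2] (f [0, 3, 5] (b (f [0, 2] (b (t [0, 4] (t [0, 4] (b (l
  (n 2 4 e (n 2 3 (n 6 7 (n 3 3 (n 1 5 e (n 7 5 (n 6 2 e (n 6 4 e (n 2 2 e (n 1 2 e (n 1 4 e (n 1 1
  e e)))))) e)) e) e) e))) z))) (t [0, 4] (t [0, 4] (b (l (n 2 4 e (n 6 7 (n 6 2 e (n 2 3 e (n 3 2 e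
  (n 6 4 e (n 3 3 e (n 1 5 (n 5 2 (n 1 7 (n 7 5 e e) e) e) (n 7 5 (n 1 2 e (n 1 3 e (n 1 4 e (n 1 1
  e e)))) e))))))) e))) z))))) (t [0, 1] (f [0, 2] (b (t [0, 2] (t [0, 2] (b (l (n 2 4 e (n 2 3 (n 6
  7 (n 3 3 (n 1 5 e (n 7 5 (n 1 2 e (n 1 4 e (n 6 2 e (n 6 4 e (n 2 2 e e))))) e)) e) e) e))) z)))
  (t [0, 1, 2] (t [0, 1, 2] (b (l (n 2 4 e (n 2 3 e (n 1 5 e (n 6 7 (n 1 3 e (n 3 2 e (n 1 4 e (n 7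
  5 (n 6 3 e (n 3 3 e (n 6 4 e (n 6 2 e (n 6 2 e e))))) e)))) e))))) z))))))))))) (t [0, 2] (b (t
  [0, 1, 3] (f [0, 4, 6] (b (b (t [0, 1] (t [0, 5] (t [0, 5] (b (l (n 2 3 (n 6 7 (n 3 3 (n 6 2 e (n
  1 4 e (n 1 5 e (n 1 2 (n 7 5 (n 1 1 (n 2 2 e e) e) e) e)))) e) e) e)) z)))) (t [0, 4] (t [0, 5] (t
  [0, 5] (b (l (n 2 3 e (n 4 2 e (n 6 7 (n 1 4 e (n 1 5 e (n 7 5 (n 6 2 e (n 6 3 e (n 3 3 e (n 1 2 e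
  (n 1 3 e (n 1 1 e e)))))) e))) e)))) z))))) (t [0, 1] (b (t [0, 1] (t [0, 2] (t [0, 2] (b (l (n 2
  3 (n 6 7 (n 3 3 (n 6 2 e (n 1 4 e (n 1 5 e (n 1 2 e (n 7 5 (n 2 2 e e) e))))) e) e) e)) z)))) (t
  [0, 4] (t [0, 2] (t [0, 1, 2] (b (l (n 2 3 e (n 1 4 e (n 4 2 e (n 1 5 e (n 6 7 (n 1 3 e (n 7 5 (n
  6 2 e (n 6 3 e (n 3 3 e e))) e)) e)))))) z))))))))) (t [0, 3] (f [0, 4, 6] (b (t [0, 2] (t [0, 2]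
  (t [0, 4] (t [0, 4] (b (l (n 3 2 e (n 6 7 (n 6 2 e (n 1 3 e (n 1 4 e (n 1 5 e (n 1 2 (n 7 5 (n 1 1
  (n 2 2 e e) e) e) e))))) e))) z))))) (t [0, 1] (t [0, 2] (t [0, 2] (t [0, 1] (t [0, 1] (b (l (n 3
  2 e (n 6 7 (n 6 2 e (n 1 3 e (n 1 4 e (n 1 5 e (n 1 2 e (n 7 5 (n 2 2 e e) e)))))) e)))
  z))))))))))))))))) z)) z) (b (b (b (t [0, 1] (t [0, 2] (t [0, 2] (b (t [0, 1] (b (t [0, 1, 2] (t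
  [0, 1] (t [0, 1, 2] (t [0, 4] (b (b (f [0, 3] (b (t [0, 5] (t [0, 5] (b (l (n 6 7 e (n 1 5 (n 2 7
  (n 2 4 e (n 2 3 (n 7 3 e e) e)) e) (n 2 7 (n 2 4 e (n 3 2 (n 2 2 (n 3 3 e (n 7 7 (n 1 3 e (n 1 4 e
  (n 1 1 e e))) e)) e) e)) e)))) z))) (t [0, 5] (t [0, 5] (b (l (n 6 7 e (n 1 5 (n 2 7 (n 2 4 e (n 2
  3 e (n 7 7 (n 3 2 e (n 5 2 (n 3 3 e e) e)) e))) e) (n 2 7 (n 2 4 e (n 2 3 e (n 3 2 e (n 3 3 e (n 7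
  7 (n 1 2 e (n 1 3 e (n 1 4 e (n 1 1 e e)))) e))))) e)))) z))))) (f [0, 3] (b (t [0, 5] (t [0, 5]
  (b (l (n 6 7 e (n 1 5 (n 2 7 e (n 4 7 (n 7 3 e e) e)) (n 2 3 e (n 7 2 e (n 2 4 (n 3 7 e (n 4 4 (n
  1 3 e (n 1 7 (n 1 3 e e) (n 1 2 (n 3 1 (n 7 7 e e) (n 7 3 e e)) e))) e)) e)))))) z))) (t [0, 5] (t
  [0, 5] (b (l (n 6 7 e (n 1 5 (n 2 7 e (n 7 4 e (n 3 7 (n 3 7 e (n 7 5 e (n 3 2 e (n 3 2 e (n 7 2 e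
  e))))) e))) (n 2 3 e (n 2 4 e (n 7 4 e (n 3 7 (n 3 2 e (n 7 2 (n 1 2 (n 7 2 e (n 3 1 e (n 3 2 e
  e))) (n 3 2 e (n 3 1 (n 3 3 e (n 1 2 e (n 1 4 e (n 1 7 e e)))) e))) e)) (n 1 3 e (n 7 2 e (n 1 2 e
  (n 7 2 e (n 7 7 e (n 1 3 e (n 1 2 (n 2 3 (n 3 4 e (n 3 7 e (n 3 3 e e))) e) (n 1 4 (n 3 4 e (n 3 7
  e e)) (n 1 7 (n 3 7 e e) e)))))))))))))))) z)))))) (b (f [0, 3] (b (t [0, 2] (t [0, 2] (b (l (n 1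
  3 e (n 1 4 e (n 1 5 e (n 6 7 e (n 2 4 e (n 2 3 (n 7 4 (n 2 1 (n 4 1 (n 3 3 (n 2 2 e e) e) e) e) (n
  2 7 (n 3 3 (n 2 2 e (n 7 7 e e)) e) (n 2 1 (n 3 3 e e) e))) e))))))) z))) (t [0, 2] (t [0, 2] (b
  (l (n 1 3 e (n 1 4 e (n 1 5 e (n 6 7 e (n 2 7 (n 2 4 e (n 2 3 e (n 3 2 e (n 3 3 e (n 7 7 e e)))))
  (n 7 4 (n 2 1 (n 4 2 (n 2 3 e (n 3 2 e (n 3 3 e e))) e) e) (n 3 7 (n 3 2 e (n 3 7 e (n 2 1 e e)))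
  (n 2 1 (n 2 3 e (n 3 2 (n 7 2 e e) e)) e))))))))) z))))) (f [0, 3] (b (t [0, 5] (t [0, 5] (b (l (n
  1 4 e (n 1 5 e (n 1 3 e (n 6 7 e (n 2 3 e (n 2 4 (n 7 2 (n 1 2 e (n 3 1 e (n 3 7 (n 3 3 e (n 4 4 e
  e)) e))) (n 3 7 e (n 3 1 e (n 4 4 (n 2 3 (n 3 7 e e) e) e)))) e))))))) z))) (t [0, 5] (t [0, 5] (b
  (l (n 1 5 e (n 6 7 e (n 1 3 e (n 1 4 e (n 3 2 (n 2 7 (n 2 4 e (n 3 7 e (n 3 1 e (n 2 7 (n 2 2 e (n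
  3 4 e (n 3 7 e (n 2 3 (n 3 2 e e) e)))) (n 1 2 e (n 2 3 (n 3 4 e (n 7 3 (n 3 7 e e) e)) e)))))) (n
  2 4 (n 7 4 e (n 1 2 e (n 3 1 e (n 1 7 e (n 3 3 e (n 4 3 (n 3 7 e e) e)))))) (n 1 4 e (n 2 1 (n 3 1
  e (n 1 2 e (n 1 7 e (n 7 3 e e)))) e)))) e)))))) z))))))))))) (t [0, 2] (b (t [0, 1, 3] (t [0, 5]
  (b (b (b (t [0, 1] (t [0, 6] (t [0, 6] (b (l (n 2 3 (n 7 2 (n 6 7 e (n 2 2 (n 3 3 (n 1 4 e (n 1 5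
  e (n 1 7 (n 1 1 (n 7 7 e e) e) e))) e) e)) e) e)) z)))) (t [0, 5] (t [0, 6] (t [0, 6] (b (l (n 6 7
  e (n 2 3 e (n 7 3 e (n 4 2 e (n 7 2 (n 2 2 (n 1 4 e (n 1 5 e (n 1 7 (n 3 3 e e) (n 3 1 (n 1 1 (n 3
  3 e e) e) e)))) e) e)))))) z))))) (b (t [0, 1] (t [0, 6] (t [0, 6] (t [0, 2, 3, 6] (l (n 2 3 (n 2
  7 e (n 6 7 e (n 3 3 (n 1 4 e (n 1 5 e (n 1 2 e (n 1 7 (n 1 2 e e) e)))) e))) e)))))) (t [0, 5] (t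
  [0, 6] (t [0, 6] (b (l (n 6 7 e (n 2 3 e (n 4 2 e (n 7 2 e (n 3 7 e (n 1 4 e (n 1 5 e (n 1 3 e (n
  1 7 (n 1 3 e e) (n 1 2 (n 3 1 (n 7 7 e e) (n 7 3 e e)) e))))))))))) z)))))) (b (b (t [0, 1] (t [0,
  2] (t [0, 2] (b (l (n 2 3 (n 3 3 (n 1 4 e (n 1 5 e (n 1 2 e (n 6 7 e (n 7 2 (n 2 2 (n 7 7 e e) (n
  2 1 e e)) e))))) e) e)) z)))) (t [0, 5] (t [0, 2] (t [0, 2] (b (l (n 1 3 e (n 1 4 e (n 1 5 e (n 6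
  7 e (n 2 3 e (n 4 2 e (n 3 7 (n 3 3 e (n 7 2 (n 2 1 e e) (n 7 7 e e))) (n 1 2 e (n 3 1 e
  e)))))))))) z))))) (b (t [0, 1] (t [0, 6] (t [0, 6] (t [0, 3] (l (n 2 3 (n 7 2 (n 6 7 e (n 3 3 (n
  1 4 e (n 1 5 e (n 1 2 e (n 7 1 (n 2 1 e (n 2 7 (n 2 2 e e) e)) e)))) e)) e) e)))))) (t [0, 5] (t
  [0, 6] (t [0, 6] (b (l (n 1 4 e (n 1 5 e (n 1 3 e (n 6 7 e (n 2 3 e (n 4 2 e (n 7 2 (n 1 2 e (n 3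
  1 e (n 3 7 (n 3 3 e e) e))) (n 3 7 e (n 3 1 e (n 2 3 (n 3 7 e e) e))))))))))) z))))))))) (t [0, 3]
  (t [0, 5] (b (b (t [0, 3] (t [0, 3] (t [0, 5] (t [0, 5] (b (l (n 3 2 e (n 7 2 (n 6 7 e (n 2 2 (n 1
  3 e (n 1 4 e (n 1 5 e (n 1 7 (n 1 1 (n 7 7 e e) e) e)))) e)) e))) z))))) (t [0, 3] (t [0, 3] (t
  [0, 5] (t [0, 5] (t [0, 1, 2, 5] (l (n 3 2 e (n 2 7 e (n 6 7 e (n 1 3 e (n 1 4 e (n 1 5 e (n 1 2 e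
  (n 1 7 (n 1 2 e e) e))))))))))))))) (b (t [0, 3] (t [0, 3] (t [0, 1] (t [0, 1] (b (l (n 1 3 e (n 3
  2 e (n 1 4 e (n 1 5 e (n 6 7 e (n 7 2 (n 2 2 (n 7 7 e e) (n 2 1 e e)) e))))))) z))))) (t [0, 3] (t
  [0, 3] (t [0, 5] (t [0, 5] (t [0, 2] (l (n 3 2 e (n 7 2 (n 6 7 e (n 1 3 e (n 1 4 e (n 1 5 e (n 1 2
  e (n 7 1 (n 2 1 e (n 2 7 (n 2 2 e e) e)) e)))))) e)))))))))))))))) z)))) z) (b (t [0, 1] (f [0, 2]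
  (f [0, 2] (t [0, 1] (t [0, 1] (b (t [0, 1, 2] (t [0, 1] (t [0, 1, 2] (f [0, 3] (b (f [0, 2] (b (t
  [0, 4] (t [0, 4] (b (l (n 6 7 e (n 2 4 e (n 2 3 (n 3 3 (n 1 5 e (n 7 2 e (n 7 4 e (n 2 2 e (n 1 2
  e (n 1 4 e (n 1 1 e e))))))) e) e)))) z))) (t [0, 4] (t [0, 4] (b (l (n 6 7 e (n 7 2 e (n 2 4 e (n
  2 3 e (n 3 2 e (n 3 3 e (n 1 5 (n 5 2 e e) (n 1 2 e (n 1 3 e (n 1 4 e (n 1 1 e e))))))))))))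
  z))))) (t [0, 1] (f [0, 2] (b (t [0, 2] (t [0, 2] (b (l (n 6 7 e (n 2 4 e (n 2 3 (n 3 3 (n 1 5 e
  (n 1 2 e (n 1 4 e (n 7 2 e (n 7 4 e (n 2 2 e e)))))) e) e)))) z))) (t [0, 1, 2] (t [0, 1, 2] (b (l
  (n 6 7 e (n 2 4 e (n 1 5 e (n 7 2 e (n 2 3 e (n 7 4 e (n 1 3 e (n 3 2 e (n 1 4 e (n 3 3 e
  e))))))))))) z))))))))))) (t [0, 2] (b (t [0, 1, 3] (f [0, 4] (b (b (t [0, 1] (t [0, 5] (t [0, 5]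
  (b (l (n 2 3 (n 6 7 e (n 3 3 (n 7 2 e (n 1 4 e (n 1 5 e (n 1 2 (n 1 1 (n 2 2 e e) e) e)))) e)) e))
  z)))) (t [0, 4] (t [0, 5] (t [0, 5] (b (l (n 2 3 e (n 4 2 e (n 6 7 e (n 1 4 e (n 1 5 e (n 7 2 e (n
  7 3 e (n 3 3 e (n 1 2 e (n 1 3 e (n 1 1 e e)))))))))))) z))))) (t [0, 1] (b (t [0, 1] (t [0, 2] (t
  [0, 2] (b (l (n 2 3 (n 6 7 e (n 3 3 (n 7 2 e (n 1 4 e (n 1 5 e (n 1 2 e (n 2 2 e e))))) e)) e))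
  z)))) (t [0, 4] (t [0, 2] (t [0, 1, 2] (b (l (n 2 3 e (n 6 7 e (n 1 4 e (n 4 2 e (n 1 5 e (n 1 3 e
  (n 7 2 e (n 7 3 e (n 3 3 e e)))))))))) z))))))))) (t [0, 3] (f [0, 4] (b (t [0, 2] (t [0, 2] (t
  [0, 4] (t [0, 4] (b (l (n 3 2 e (n 6 7 e (n 7 2 e (n 1 3 e (n 1 4 e (n 1 5 e (n 1 2 (n 1 1 (n 2 2
  e e) e) e)))))))) z))))) (t [0, 1] (t [0, 2] (t [0, 2] (t [0, 1] (t [0, 1] (b (l (n 3 2 e (n 6 7 e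
  (n 7 2 e (n 1 3 e (n 1 4 e (n 1 5 e (n 1 2 e (n 2 2 e e))))))))) z))))))))))))))))) z)) z)) z)

set_option maxRecDepth 100000 in
theorem f12B : chkQ 7 4 10897286400000 t12B
    (blks.getD 12 ⟨0, 0, 0, 0, 0, .zr, .zr⟩).B = some [-245188944000] := by
  decide +kernel

end Pool.Agent.TH32
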