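import Pool.Agent.TH32.H.Fast

set_option autoImplicit false

namespace Pool.Agent.TH32

open CT PT

set_option maxRecDepth 100000 in
/-- certificate for block 13 (Ld1R2), tree A -/
def t13A : PT :=
  (b (b (b (t [0, 1] (b (t [0, 1] (b (t [0, 1] (b (b (t [0, 2] (t [0, 1] (t [0, 4] (b (b (f [0, 4]
  (b (t [0, 1, 4] (t [0, 1, 4] (b (l (n 3 3 (n 2 6 e (n 6 4 (n 1 4 e (n 2 5 (n 1 2 e (n 4 2 (n 5 5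
  (n 2 2 (n 1 6 e e) e) e) e)) e)) e)) e)) (l (n 3 1 (n 2 6 e (n 6 4 (n 1 4 e (n 1 5 e (n 2 5 (n 2 4
  (n 3 3 e e) (n 3 2 e (n 3 3 (n 1 6 (n 5 5 e e) e) e))) e))) (n 2 5 (n 3 6 e (n 2 3 (n 5 5 (n 3 3
  (n 1 2 (n 6 2 e e) (n 1 4 e (n 1 1 e e))) e) e) e)) e))) (n 2 6 e (n 6 4 e (n 6 3 e (n 2 5 (n 1 6
  e (n 6 2 e (n 1 2 (n 5 5 (n 2 2 e e) e) e))) e))))))))) (t [0, 2, 8] (t [0, 2, 8] (b (l (n 2 4 e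
  (n 6 4 (n 2 5 (n 2 3 e (n 1 3 e (n 1 3 e (n 1 4 e (n 5 1 (n 4 5 (n 2 1 (n 3 2 e (n 1 6 (n 3 3 (n 5
  5 e e) e) e)) e) e) e))))) e) (n 2 6 e (n 2 5 (n 5 5 (n 3 6 (n 3 2 e (n 6 3 (n 3 3 (n 1 2 (n 6 2 e
  e) (n 1 2 e (n 1 4 e (n 1 6 e e)))) e) e)) (n 1 3 e (n 1 2 e (n 2 3 e (n 3 2 (n 6 2 (n 2 2 (n 1 4
  e (n 1 6 e e)) e) e) e))))) e) e))))) (l (n 1 3 (n 6 3 e (n 2 3 e (n 4 6 (n 2 4 e (n 6 2 (n 1 6 (n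
  2 5 (n 1 2 (n 5 5 (n 3 2 e (n 3 6 e (n 6 2 e e))) e) (n 5 5 (n 1 6 (n 3 6 e e) e) e)) e) (n 6 5 e
  (n 2 5 (n 2 1 e (n 5 5 e e)) e))) e)) e))) (n 2 4 e (n 6 4 (n 2 5 (n 1 4 e (n 4 5 (n 4 1 (n 5 5 (n
  2 1 (n 2 3 e (n 3 2 e (n 1 6 (n 3 3 e e) e))) e) e) e) e)) e) (n 2 6 e (n 3 6 (n 3 2 e (n 5 2 (n 3
  6 e (n 2 2 (n 1 4 e (n 1 5 e e)) e)) e)) (n 2 5 (n 2 3 e (n 6 2 (n 1 3 e (n 3 2 e (n 5 5 (n 2 1 (n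
  1 4 e (n 1 6 e e)) e) e))) (n 5 5 (n 1 3 (n 3 6 e e) (n 1 2 e (n 1 4 e e))) e))) e)))))))))))) (f
  [0, 4] (b (t [0, 1, 4] (t [0, 1, 4] (b (l (n 2 6 e (n 6 4 (n 1 4 e (n 3 2 (n 2 4 (n 3 1 (n 1 2 e
  (n 5 2 (n 4 4 (n 1 6 (n 3 1 (n 2 6 (n 2 2 (n 3 3 e e) e) e) e) e) e) e)) e) e) e)) (n 3 2 e e))))
  (l (n 2 6 e (n 6 4 (n 1 4 e (n 3 2 (n 2 4 (n 2 5 (n 3 1 (n 1 2 e (n 3 1 (n 3 5 e (n 4 4 (n 5 5 e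
  (n 6 1 e (n 3 6 e e))) e)) e)) e) e) e) e)) (n 6 3 (n 1 3 e (n 3 2 e (n 3 3 (n 2 1 (n 2 5 e (n 4 1
  (n 1 6 (n 2 6 e e) e) (n 2 4 e (n 2 6 e e)))) e) e))) e))))))) (b (b (b (l (n 2 6 e (n 6 4 (n 1 3
  e (n 1 4 e (n 2 1 (n 2 5 e (n 5 4 (n 6 2 e (n 3 2 (n 4 2 (n 3 2 e (n 1 6 e e)) e) e)) (n 3 2 (n 6
  3 e (n 3 2 e (n 3 5 e (n 1 6 (n 2 6 e e) e)))) (n 3 5 (n 6 1 e (n 2 6 (n 3 5 (n 5 2 e e) (n 3 3 e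
  e)) e)) e)))) e))) (n 6 3 (n 1 3 e (n 2 1 (n 3 2 (n 2 5 (n 3 5 e (n 5 2 (n 6 2 (n 4 3 (n 1 6 (n 3
  6 (n 3 2 (n 2 4 e e) e) e) e) (n 2 3 (n 1 4 e (n 1 6 e e)) e)) (n 6 6 (n 1 2 (n 3 2 e (n 3 4 e e))
  (n 1 4 (n 3 4 e e) e)) e)) (n 6 1 (n 1 4 (n 3 4 (n 5 5 (n 6 6 e e) e) e) e) e))) (n 6 2 (n 3 4 (n
  3 2 e (n 3 5 e (n 1 4 (n 2 4 e e) e))) e) (n 6 5 (n 1 4 (n 3 4 (n 3 5 e e) (n 3 6 (n 3 5 (n 5 4 e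
  e) e) e)) (n 1 6 (n 3 6 (n 3 5 e e) e) e)) (n 1 4 (n 3 4 (n 6 2 e (n 6 6 e e)) (n 6 2 (n 3 5 e (n
  3 6 e e)) (n 6 6 (n 3 2 e (n 3 5 e (n 3 3 e e))) e))) (n 1 6 (n 1 2 (n 6 2 (n 3 5 e (n 3 6 e e))
  (n 6 6 (n 3 2 e (n 3 5 e (n 3 3 e e))) e)) (n 6 6 (n 1 1 (n 3 5 e (n 3 3 e e)) e) e)) (n 1 5 (n 3
  5 (n 6 2 e (n 6 6 e e)) e) e)))))) e) e)) (n 3 2 e (n 3 6 e (n 2 1 (n 5 2 (n 3 2 (n 1 4 (n 2 2 (n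
  3 3 e e) e) (n 1 5 (n 2 2 (n 3 3 e e) e) (n 1 6 (n 2 2 (n 3 3 e e) e) (n 3 1 (n 1 1 (n 2 2 (n 3 3
  e e) e) (n 1 1 (n 2 2 (n 3 3 e e) e) e)) e)))) e) e) (n 6 2 e (n 5 1 (n 3 1 e (n 3 2 e e)) (n 2 5
  e (n 3 2 e (n 3 3 e e)))))))))))) (l (n 2 6 e (n 6 4 (n 1 3 e (n 1 4 e (n 2 1 (n 2 5 e (n 4 5 (n 3
  2 e (n 5 3 e (n 3 5 e (n 3 3 e (n 6 1 e (n 2 6 e e)))))) (n 3 2 (n 2 4 e e) e))) e))) (n 3 6 (n 3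
  2 e (n 1 2 (n 6 2 e (n 1 5 (n 3 2 e (n 2 5 e (n 3 6 e (n 3 2 e e)))) (n 3 6 e (n 3 2 e (n 3 1 e (n
  2 3 e e)))))) (n 2 5 e (n 3 6 e (n 3 2 e (n 1 2 e (n 1 3 e (n 1 4 e (n 1 5 e (n 1 6 e e))))))))))
  (n 1 3 e (n 1 2 e (n 2 3 e (n 5 2 (n 6 2 e (n 6 5 e (n 2 6 (n 1 2 (n 2 3 (n 3 4 e (n 3 5 e (n 3 6
  e e))) e) (n 1 4 (n 3 4 e (n 5 3 (n 3 6 e e) e)) (n 5 1 (n 1 6 (n 3 6 e e) e) (n 3 5 e (n 3 6 e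
  e))))) e))) (n 3 5 e (n 4 1 (n 6 2 (n 5 2 e (n 1 6 (n 3 6 e e) e)) (n 1 2 (n 3 2 e (n 3 6 e e)) (n
  1 6 (n 3 6 e e) e))) (n 5 2 (n 3 6 (n 6 2 (n 3 2 e e) e) (n 6 2 e (n 3 4 e e))) (n 3 4 e (n 3 6 e
  e)))))))))))))) (b (l (n 6 3 (n 2 6 e (n 1 3 e (n 2 1 (n 1 4 (n 2 4 e (n 5 2 (n 1 5 (n 3 2 (n 6 2
  e (n 5 6 (n 5 4 (n 4 1 (n 2 6 (n 4 2 (n 2 3 (n 3 4 e (n 5 3 (n 3 6 e e) e)) e) e) e) e) (n 2 6 (n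
  2 3 (n 3 4 e (n 3 5 e (n 3 6 e e))) e) e)) e)) (n 5 3 e (n 6 5 (n 5 3 (n 5 4 (n 4 6 (n 4 2 (n 2 6
  e e) e) e) (n 2 6 e e)) e) (n 4 5 (n 2 4 e (n 5 2 (n 2 6 e e) e)) e)))) (n 2 6 (n 2 1 e (n 3 2 (n
  4 5 (n 3 2 (n 6 2 e (n 2 4 (n 4 3 e e) e)) (n 4 2 e e)) e) e)) e)) e)) e) e))) (n 2 3 e (n 2 6 e
  (n 6 4 (n 4 1 (n 4 2 (n 1 5 e (n 4 5 (n 3 1 e (n 2 3 (n 2 5 e (n 1 2 (n 4 2 (n 2 5 (n 2 6 e e) e)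
  e) e)) e)) (n 3 1 e (n 1 2 (n 2 5 (n 2 3 (n 1 3 (n 4 1 (n 4 5 e e) e) e) e) e) (n 4 1 e (n 2 3 (n
  4 2 (n 4 5 e e) e) e)))))) e) e) (n 3 2 e (n 2 1 e (n 1 5 (n 6 2 (n 3 6 e (n 5 6 (n 2 4 (n 6 3 (n
  1 2 (n 2 5 e e) e) e) e) e)) e) (n 6 2 (n 3 6 e (n 2 4 (n 2 5 (n 3 1 e (n 6 3 e e)) e) e))
  e))))))))) (l (n 6 3 (n 2 6 e (n 1 3 e (n 2 1 (n 1 4 (n 2 4 e (n 5 2 (n 1 5 (n 2 3 (n 3 5 (n 4 5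
  (n 3 4 (n 6 4 (n 2 6 (n 2 4 e (n 5 2 e e)) e) (n 5 6 e (n 2 4 (n 2 5 e e) (n 2 6 (n 2 5 (n 5 4 e
  e) e) e)))) (n 3 5 (n 5 6 e (n 2 6 (n 2 5 e e) e)) e)) e) e) (n 6 2 e (n 4 5 (n 6 4 (n 3 6 (n 3 4
  e (n 5 3 e e)) e) (n 5 6 (n 6 2 (n 3 4 e (n 5 3 (n 3 6 e e) e)) e) (n 3 4 (n 3 5 e e) (n 3 6 (n 3
  5 (n 5 4 e e) e) e)))) (n 1 4 e (n 4 2 (n 6 5 (n 3 6 (n 3 5 e e) e) (n 2 6 (n 6 4 (n 2 3 (n 3 5 e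
  (n 3 6 e e)) e) e) (n 3 5 e (n 3 6 e e)))) e))))) (n 2 6 (n 2 1 e (n 3 2 (n 4 5 (n 3 2 (n 6 2 (n 2
  4 (n 3 4 (n 4 6 e e) e) e) e) e) e) e)) e)) e)) e) e))) (n 2 3 e (n 2 6 e (n 6 4 (n 1 4 e (n 2 5 e
  (n 4 2 (n 5 1 (n 1 2 (n 3 1 e (n 3 5 e (n 4 5 (n 2 3 (n 1 3 e (n 2 5 (n 2 6 e e) e)) e) e))) (n 4
  1 e (n 4 5 (n 3 2 e (n 3 4 e (n 5 3 (n 1 3 (n 3 2 e e) (n 1 4 e (n 5 1 (n 1 6 e e) e))) e))) e)))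
  e) (n 5 1 (n 4 5 (n 1 2 (n 3 5 e (n 2 5 (n 1 3 e (n 1 2 e (n 5 1 (n 1 6 e e) e))) e)) e) e) e))))
  (n 3 2 e (n 2 1 e (n 2 5 (n 5 1 (n 6 2 (n 3 6 e (n 1 2 e (n 2 4 (n 3 1 e e) e))) e) e) (n 3 6 e (n
  6 5 (n 1 5 e (n 6 2 e (n 3 1 (n 4 2 e (n 5 4 e e)) e))) (n 6 2 (n 2 4 (n 2 5 (n 1 3 (n 3 6 e e) e)
  e) e) e))))))))))))) (f [0, 1] (b (l (n 2 6 e (n 6 3 (n 1 3 e (n 1 4 e (n 2 4 e (n 5 1 (n 3 2 (n 3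
  1 (n 5 2 (n 2 1 e (n 4 5 (n 5 2 e (n 1 6 (n 6 2 (n 3 6 e e) (n 6 4 (n 3 2 e (n 3 6 (n 3 4 e (n 5 3
  e e)) e)) (n 6 5 (n 3 2 e (n 3 4 (n 5 3 e e) (n 3 6 (n 5 3 e (n 5 4 e e)) e))) (n 1 6 e (n 3 2 (n
  2 6 e e) (n 3 4 e (n 3 5 e (n 3 6 e e)))))))) e)) e)) e) (n 5 3 e (n 2 5 e (n 3 5 (n 6 5 (n 1 6 (n
  1 2 e (n 1 4 (n 5 1 (n 4 5 e (n 6 4 (n 3 4 (n 4 2 (n 4 3 e e) e) e) e)) e) (n 5 1 e (n 5 4 e e))))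
  e) e) e)))) e) e)))) (n 6 4 (n 1 4 e (n 2 4 e (n 1 2 (n 3 1 e (n 5 1 (n 3 2 e (n 4 5 (n 2 5 (n 2 6
  e (n 1 2 e (n 3 1 e e))) e) e)) e)) e))) (n 2 5 e (n 1 5 (n 5 6 (n 3 1 e (n 6 2 (n 3 5 e (n 3 5 e
  (n 6 3 (n 6 3 (n 2 3 (n 2 4 e (n 6 2 e (n 3 6 (n 1 2 (n 5 2 e (n 4 5 e e)) (n 1 4 (n 4 5 e e) e))
  e))) e) e) e))) e)) e) (n 2 6 e (n 1 2 (n 3 1 e (n 3 5 e (n 2 5 (n 2 4 e (n 3 4 e (n 3 6 e (n 3 6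
  e (n 1 3 (n 3 6 (n 1 2 (n 2 3 e e) e) e) (n 2 3 e e)))))) e))) e)))))))) z)))))) (b (f [0, 4] (b
  (t [0, 2] (t [0, 2] (b (l (n 3 3 (n 1 4 e (n 2 4 e (n 2 2 (n 6 4 (n 1 4 e (n 4 5 (n 1 5 e (n 5 5 e
  e)) e)) e) e))) e)) (l (n 1 3 e (n 1 4 e (n 2 6 e (n 2 1 (n 2 4 (n 5 2 (n 6 4 (n 3 3 e e) (n 3 6 e
  (n 3 3 (n 1 1 (n 2 2 e e) e) e))) e) (n 3 2 e (n 6 3 (n 3 3 (n 2 5 (n 5 4 e (n 1 5 e (n 5 5 e e)))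
  e) e) e))) e)))))))) (t [0, 2] (t [0, 2] (b (l (n 1 3 e (n 1 4 e (n 2 6 e (n 2 1 (n 6 4 (n 2 4 e
  (n 3 2 (n 3 2 e (n 3 3 (n 4 5 (n 5 2 e (n 5 2 e (n 1 5 e (n 5 5 e e)))) e) e)) e)) (n 3 2 (n 3 5
  (n 3 2 e (n 5 2 (n 3 6 (n 6 6 (n 1 1 (n 2 2 e e) e) e) e) e)) (n 2 3 (n 3 6 (n 5 6 (n 6 6 e e) e)
  e) (n 5 2 e (n 5 6 (n 6 6 e e) e)))) (n 6 3 e (n 2 6 (n 5 2 (n 3 6 (n 6 6 (n 1 1 (n 2 2 e e) e) e)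
  e) e) e)))) e))))) (l (n 1 3 e (n 1 4 e (n 1 5 e (n 2 6 e (n 6 4 (n 4 2 (n 4 5 (n 2 3 e (n 3 5 (n
  3 2 e (n 5 2 (n 2 1 (n 3 3 e e) e) (n 3 3 e (n 5 5 e e)))) (n 1 3 e (n 2 1 (n 3 2 (n 5 2 e e) e)
  e)))) (n 4 1 (n 2 1 (n 2 3 e (n 3 2 e (n 3 3 e e))) e) e)) e) (n 3 6 (n 3 2 e (n 3 6 e (n 5 2 (n 2
  1 e (n 2 2 e e)) e))) (n 2 3 e (n 3 5 (n 5 2 (n 2 1 (n 3 2 (n 6 2 e (n 5 6 e e)) (n 3 5 (n 5 6 e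
  e) e)) e) (n 3 2 (n 6 2 e (n 5 5 e e)) (n 5 5 e e))) (n 1 3 e (n 2 1 (n 3 2 (n 5 2 (n 2 6 e e) e)
  e) e)))))))))))))))) (f [0, 4] (b (t [0, 1, 4] (t [0, 1, 4] (b (l (n 1 4 e (n 1 3 e (n 1 5 e (n 2
  6 e (n 4 6 (n 2 3 e e) (n 2 5 e (n 5 4 (n 3 2 (n 2 4 (n 1 2 (n 2 6 (n 3 6 (n 4 4 (n 2 2 (n 3 3 e
  e) e) e) e) e) e) e) e) (n 3 2 e e))))))))) (l (n 1 4 e (n 1 3 e (n 2 6 e (n 6 4 (n 3 2 (n 2 4 (n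
  1 2 e (n 3 1 e (n 1 5 (n 5 2 (n 3 6 (n 4 4 (n 3 3 e e) e) e) e) (n 3 6 (n 4 4 (n 3 3 e e) e) e))))
  e) e) (n 3 2 e (n 2 1 e (n 1 5 e (n 6 3 (n 4 2 (n 2 6 (n 3 3 e e) e) (n 3 3 e e)) e)))))))))))) (b
  (b (b (l (n 6 3 (n 2 6 e (n 1 3 e (n 1 4 e (n 2 1 (n 2 4 e (n 5 2 (n 6 1 e (n 3 5 (n 1 5 (n 2 6 (n
  4 6 e (n 3 5 (n 5 6 e e) (n 3 2 e e))) (n 3 2 e (n 5 3 (n 3 6 e (n 3 3 e e)) e))) (n 1 2 (n 2 6 (n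
  3 2 (n 1 6 (n 4 6 e e) e) e) (n 2 3 (n 3 6 e (n 3 3 e e)) e)) e)) (n 2 3 e (n 3 2 (n 1 2 (n 2 6 (n
  5 2 (n 1 6 (n 4 6 (n 3 6 (n 6 3 e e) e) e) e) e) (n 2 5 (n 5 6 e (n 5 5 e e)) e)) e) e)))) (n 3 2
  (n 6 1 e (n 4 5 e (n 4 6 e (n 1 2 (n 3 2 (n 2 6 e e) (n 3 3 e e)) (n 1 1 (n 3 3 e e) e))))) e)))
  e)))) (n 2 3 e (n 2 6 e (n 1 2 (n 6 4 e (n 1 3 e e)) (n 1 4 (n 4 6 (n 1 2 (n 2 3 (n 1 5 e (n 1 3 e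
  (n 3 6 e (n 4 1 e e)))) e) (n 6 1 e (n 2 5 e (n 2 3 e (n 3 6 e (n 4 2 e e)))))) e) (n 4 2 (n 3 1 e
  (n 4 5 (n 1 2 (n 2 3 (n 1 5 e (n 1 3 e (n 6 3 e e))) e) (n 2 5 e (n 2 3 e (n 1 6 (n 6 3 e (n 6 6 e
  e)) e)))) (n 2 3 (n 4 3 e (n 1 6 (n 6 3 e e) (n 1 2 e e))) (n 1 2 e (n 6 1 (n 1 3 e (n 1 1 e e))
  e))))) (n 6 4 e (n 3 1 e (n 2 5 e (n 2 3 e (n 1 6 (n 6 3 e e) (n 1 1 e e))))))))))))) (l (n 6 3 (n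
  2 6 e (n 1 3 e (n 1 4 e (n 2 1 (n 6 1 e (n 2 4 e (n 5 2 (n 3 5 (n 1 5 (n 3 2 e (n 3 5 e (n 2 6 (n
  4 6 e e) e))) (n 1 2 (n 3 2 e (n 1 6 (n 2 6 (n 4 6 e e) e) e)) (n 2 6 (n 4 6 e e) e))) (n 2 6 (n 2
  3 e (n 4 6 e (n 1 2 (n 3 2 (n 5 2 e e) e) e))) (n 3 2 (n 1 2 (n 3 2 (n 5 2 e (n 6 5 e e)) (n 3 6
  (n 6 5 e e) e)) (n 1 6 (n 3 6 (n 6 5 e e) e) e)) (n 6 3 e (n 1 6 (n 2 6 (n 3 6 (n 6 5 e e) e) e)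
  e))))) (n 3 2 (n 4 5 e (n 1 2 (n 3 2 e (n 4 6 e (n 3 3 e e))) (n 4 6 e (n 1 1 (n 3 3 e e) e))))
  e)))) e)))) (n 2 3 e (n 6 2 (n 2 1 (n 1 4 (n 2 1 (n 1 6 e e) e) (n 2 4 (n 6 4 e (n 2 5 e (n 3 1 e
  (n 1 6 e (n 1 1 e (n 2 3 e (n 2 2 e e))))))) (n 3 1 e (n 1 2 e (n 1 6 e (n 4 5 (n 2 5 e (n 2 3 e
  e)) (n 2 3 (n 4 3 e e) e))))))) e) e))))) (b (l (n 6 3 (n 2 6 e (n 1 3 e (n 2 1 (n 2 4 e (n 1 4 (n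
  5 2 (n 3 5 (n 3 5 e (n 2 3 (n 4 5 (n 1 6 (n 2 6 e e) e) (n 2 6 (n 2 4 e (n 1 6 e e)) (n 2 4 (n 4 6
  e e) e))) e)) (n 2 3 e (n 5 2 (n 2 3 (n 4 5 (n 1 6 (n 3 6 (n 4 6 (n 5 6 (n 2 6 (n 6 2 e e) e) e)
  e) e) e) e) e) (n 4 2 (n 1 6 (n 2 6 (n 3 6 (n 6 4 e e) e) e) e) e)))) (n 1 5 e (n 3 2 (n 3 2 e (n
  4 2 (n 1 6 e e) e)) e))) e)) e))) (n 2 3 e (n 2 4 e e)))) (l (n 6 3 (n 2 6 e (n 1 3 e (n 2 1 (n 2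
  4 e (n 1 4 (n 2 5 (n 1 5 e (n 3 2 (n 4 2 (n 6 1 (n 3 2 (n 6 2 e (n 4 6 e e)) (n 4 3 e (n 6 4 e
  e))) e) e) e)) (n 4 5 (n 3 2 (n 3 4 (n 6 2 e (n 1 6 (n 3 6 e (n 1 4 (n 6 4 e (n 5 6 e e)) (n 1 5
  (n 5 6 e e) e))) (n 6 4 e (n 5 6 e e)))) (n 3 5 (n 6 2 e (n 1 6 (n 3 6 (n 6 4 (n 1 5 (n 3 5 (n 5 6
  e e) e) e) e) (n 1 5 (n 5 6 e e) e)) (n 5 6 e e))) (n 2 3 e (n 6 2 e (n 1 6 (n 4 6 (n 6 5 e (n 6 3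
  e (n 6 3 e e))) e) e))))) (n 3 5 (n 4 3 (n 2 5 (n 5 3 e (n 6 1 (n 6 5 e e) (n 2 6 e (n 1 5 (n 5 6
  e e) e)))) e) (n 2 4 (n 1 6 (n 6 2 (n 1 4 (n 6 4 e (n 5 6 e e)) (n 1 5 (n 5 6 e e) e)) e) (n 6 4 e
  (n 5 6 e e))) (n 5 2 e (n 6 1 (n 6 5 e e) (n 2 6 (n 6 4 (n 1 5 (n 2 5 (n 5 6 e e) e) e) e) (n 1 5
  (n 5 6 e e) e)))))) e)) e)) e)) e))) (n 2 3 e (n 2 4 e (n 4 6 (n 3 2 e (n 1 2 e e)) (n 1 4 e (n 3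
  2 e (n 1 2 e (n 1 4 (n 1 5 e (n 4 2 (n 4 5 (n 1 3 e (n 1 6 e e)) e) e)) e))))))))))) (f [0, 1] (b
  (l (n 6 3 (n 2 6 e (n 1 3 e (n 2 1 e (n 1 4 e (n 1 5 e (n 3 5 (n 3 5 (n 6 1 e e) (n 6 1 (n 3 1 e
  (n 3 6 (n 3 2 e (n 1 4 (n 4 3 e (n 4 5 e (n 4 5 (n 2 4 (n 4 6 e e) e) e))) e)) e)) e)) (n 3 1 (n 3
  1 (n 5 1 (n 5 4 e (n 6 1 e (n 5 6 (n 2 5 (n 4 6 (n 3 6 (n 6 3 e e) e) e) e) (n 2 6 e e)))) e) e)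
  e))))))) (n 2 3 e (n 6 2 (n 2 1 e (n 1 4 e (n 1 3 e e))) e)))) z)))))))))) z) (b (b (t [0, 1, 2]
  (t [0, 5] (b (b (b (t [0, 1] (t [0, 5] (t [0, 5] (f [0, 8] (l (n 2 3 (n 6 2 (n 3 3 (n 1 4 e (n 1 2
  e (n 2 5 e (n 2 2 (n 5 1 (n 1 6 e e) e) e)))) e) e) e)))))) (t [0, 6] (t [0, 5] (t [0, 5] (b (l (n
  3 3 (n 2 4 (n 2 6 e (n 1 4 e (n 1 5 e (n 2 5 (n 1 2 e (n 1 6 (n 5 5 e e) e)) e)))) e) e)) (l (n 2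
  3 e (n 6 3 (n 1 4 e (n 4 2 e (n 3 5 (n 2 5 (n 1 3 e (n 2 1 (n 3 1 (n 5 5 (n 6 1 (n 1 1 (n 3 3 (n 6
  6 e e) e) e) e) e) e) e)) e) e))) (n 4 2 e (n 6 2 (n 1 4 e (n 2 5 e (n 2 2 (n 1 5 e (n 1 5 e (n 1
  6 (n 3 3 e e) (n 3 1 (n 1 1 (n 3 3 e e) e) e)))) e))) e)))))))))) (b (t [0, 1] (t [0, 5] (t [0, 5]
  (l (n 2 3 (n 6 2 (n 3 3 (n 1 4 e (n 2 1 (n 2 1 (n 2 5 e (n 2 2 e (n 6 1 e (n 2 6 e e)))) e) e)) e)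
  e) e))))) (t [0, 6] (t [0, 5] (t [0, 5] (b (l (n 2 3 e (n 6 2 (n 6 4 (n 4 2 e (n 1 2 e (n 5 2 (n 1
  4 e (n 1 3 e (n 5 1 (n 2 1 (n 1 6 (n 3 1 (n 2 2 (n 3 3 e e) (n 6 2 e e)) e) e) e) e))) e))) e)
  e))) (l (n 2 3 e (n 6 3 (n 1 4 e (n 4 2 e (n 1 5 e (n 3 1 (n 2 5 (n 3 5 e (n 1 6 (n 1 3 e e) e))
  (n 1 2 e (n 3 1 (n 6 2 e (n 1 6 (n 6 3 (n 3 3 (n 1 1 (n 6 6 e e) e) e) e) e)) e))) e)))) (n 4 2 e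
  (n 6 2 (n 1 4 e (n 1 2 e (n 2 5 e (n 5 1 (n 2 1 (n 3 2 e (n 2 2 e (n 1 3 e (n 1 6 e (n 1 1 e
  e))))) e) e)))) e))))))))))) (b (b (t [0, 1] (t [0, 2] (t [0, 2] (f [0, 8] (l (n 1 3 e (n 2 3 (n 1
  4 e (n 2 6 e (n 2 1 (n 3 3 (n 5 2 (n 1 1 (n 2 2 e e) e) e) e) e))) e))))))) (t [0, 6] (t [0, 2] (t
  [0, 2] (b (l (n 3 3 (n 1 4 e (n 2 4 (n 2 6 e (n 1 2 e (n 5 2 (n 1 1 (n 2 2 e e) e) e))) e)) e)) (l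
  (n 1 3 e (n 1 4 e (n 2 6 e (n 2 1 (n 3 6 (n 4 2 e (n 5 2 (n 6 4 (n 3 3 e (n 1 1 (n 2 2 e e) e)) e)
  e)) (n 2 3 e (n 4 2 e (n 5 2 e (n 3 5 (n 1 5 e (n 5 5 e e)) e))))) e)))))))))) (b (t [0, 1] (t [0,
  5] (t [0, 5] (f [0, 3] (l (n 1 3 e (n 2 3 (n 1 4 e (n 2 6 e (n 2 1 e (n 1 5 e (n 6 2 e (n 3 3 e
  e)))))) e))))))) (t [0, 6] (t [0, 5] (t [0, 5] (b (l (n 1 4 e (n 6 2 (n 3 6 (n 2 4 (n 6 4 (n 1 2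
  (n 1 5 e (n 1 3 e (n 2 6 (n 2 2 (n 3 3 e e) e) e))) e) e) e) (n 1 2 e e)) e))) (l (n 1 4 e (n 1 3
  e (n 2 3 e (n 4 2 e (n 6 2 (n 1 5 e (n 2 5 (n 3 5 e (n 3 1 e (n 6 3 e e))) (n 1 2 e (n 3 1 e (n 3
  6 (n 3 3 e e) e))))) (n 3 6 e (n 3 1 e (n 1 5 e (n 2 3 (n 3 6 e e) e))))))))))))))))))) (t [0, 2]
  (t [0, 5] (b (b (t [0, 3] (t [0, 3] (t [0, 4] (t [0, 4] (f [0, 7] (l (n 3 2 e (n 6 2 (n 1 3 e (n 1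
  4 e (n 1 2 e (n 2 5 e (n 2 2 (n 5 1 (n 1 6 e e) e) e))))) e)))))))) (t [0, 3] (t [0, 3] (t [0, 4]
  (t [0, 4] (l (n 3 2 e (n 6 2 (n 1 3 e (n 1 4 e (n 2 1 (n 2 1 (n 2 5 e (n 2 2 e (n 6 1 e (n 2 6 e
  e)))) e) e))) e)))))))) (b (t [0, 3] (t [0, 3] (t [0, 1] (t [0, 1] (f [0, 7] (l (n 1 3 e (n 3 2 e
  (n 1 4 e (n 2 6 e (n 2 1 (n 5 2 (n 1 1 (n 2 2 e e) e) e) e))))))))))) (t [0, 3] (t [0, 3] (t [0,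
  4] (t [0, 4] (f [0, 2] (l (n 1 3 e (n 3 2 e (n 1 4 e (n 2 6 e (n 2 1 e (n 1 5 e (n 6 2 e
  e)))))))))))))))))) z))) z)) (f [0, 1] (t [0, 2, 3] (t [0, 2, 3] (b (t [0, 1, 3] (t [0, 1] (t [0,
  1, 3] (f [0, 2] (b (f [0, 2] (b (t [0, 5] (t [0, 5] (b (l (n 3 3 (n 2 4 e (n 2 2 (n 6 4 (n 1 4 e
  (n 1 5 e (n 5 4 e (n 1 6 e e)))) (n 6 6 (n 1 5 e (n 1 4 e (n 1 1 e e))) e)) e)) e)) (l (n 1 5 (n 2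
  4 e (n 6 4 e (n 2 3 (n 6 2 e e) e))) (n 2 4 e (n 2 3 (n 3 3 (n 6 4 (n 1 2 e (n 4 1 (n 1 6 (n 5 2 e
  (n 4 5 (n 2 2 e e) e)) e) e)) (n 6 2 (n 2 1 (n 2 5 (n 1 4 (n 2 2 (n 6 6 e e) e) (n 6 1 (n 1 1 (n 2
  2 (n 6 6 e e) e) e) e)) e) e) e)) e) e))))))) (t [0, 5] (t [0, 5] (b (l (n 2 4 e (n 2 3 e (n 6 4
  (n 1 3 e (n 1 4 e (n 5 1 (n 3 2 e (n 3 3 (n 5 4 e (n 1 6 (n 5 2 e (n 5 2 e e)) e)) e)) e))) (n 6 3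
  (n 1 3 e (n 5 1 (n 3 2 (n 6 2 e (n 6 6 (n 5 2 e (n 3 5 (n 3 5 (n 1 2 e (n 1 4 e (n 1 1 e e))) e)
  e)) e)) (n 6 6 (n 3 3 (n 5 2 e (n 5 2 e (n 1 4 e (n 1 1 e e)))) e) e)) e)) (n 3 2 e (n 6 2 (n 3 3
  (n 1 5 (n 5 6 (n 1 2 (n 2 5 e e) e) e) (n 2 5 (n 1 2 e (n 1 4 e (n 1 6 e e))) e)) e) e))))))) (l
  (n 2 4 e (n 2 3 e (n 6 4 (n 1 3 e (n 3 2 e (n 1 4 e (n 5 1 (n 1 6 (n 5 3 e (n 5 4 e (n 3 3 e (n 5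
  2 e (n 2 5 e e))))) e) e)))) (n 1 5 (n 6 3 e (n 3 2 e (n 6 2 (n 5 6 (n 3 3 e (n 1 2 (n 2 5 e e)
  e)) e) e))) (n 3 6 (n 3 2 e (n 3 3 e (n 6 2 (n 5 2 e (n 1 2 e (n 1 3 e (n 1 4 e (n 1 6 e e))))) (n
  6 6 (n 1 2 e (n 1 3 e (n 1 4 e (n 1 1 e e)))) e)))) (n 1 3 e (n 5 3 e (n 5 2 e (n 3 2 (n 1 6 (n 1
  2 (n 6 2 e e) e) (n 6 2 e (n 1 4 e e))) (n 1 4 e (n 1 6 e e))))))))))))))))) (t [0, 1] (f [0, 2]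
  (b (t [0, 2] (t [0, 2] (b (l (n 3 3 (n 1 4 e (n 1 5 e (n 1 1 e (n 2 4 e (n 2 2 (n 6 4 (n 5 4 e e)
  (n 6 6 e e)) e))))) e)) (l (n 1 3 e (n 1 4 e (n 1 5 e (n 3 3 e (n 2 4 e (n 6 4 (n 2 3 e (n 2 2 (n
  5 3 e (n 5 4 e e)) e)) (n 2 3 e (n 2 2 (n 6 3 (n 5 3 e e) (n 6 6 e e)) e)))))))))))) (t [0, 2] (t
  [0, 2] (b (l (n 1 3 e (n 1 4 e (n 1 5 e (n 2 4 e (n 2 3 e (n 3 2 e (n 3 3 (n 6 4 (n 5 4 e (n 5 2 e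
  (n 5 2 e e))) (n 6 2 (n 5 6 e (n 5 2 e (n 2 5 e e))) (n 6 2 (n 5 2 e e) (n 6 6 e e)))) e))))))))
  (l (n 1 3 e (n 1 4 e (n 1 5 e (n 2 4 e (n 3 2 (n 6 4 (n 5 3 e (n 3 2 e (n 2 2 e (n 5 2 e (n 4 5 e
  e))))) (n 3 6 (n 3 2 e (n 6 2 (n 2 5 (n 2 2 (n 6 6 e e) e) e) e)) (n 5 2 e (n 3 5 (n 2 2 e (n 3 2
  (n 6 2 e e) e)) e)))) e))))))))))))))))) (t [0, 3] (b (t [0, 1, 4] (f [0, 3] (b (b (t [0, 1] (t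
  [0, 6] (t [0, 6] (b (l (n 2 2 (n 3 3 (n 6 6 (n 1 4 e (n 1 5 e (n 1 1 e e))) e) e) e)) (l (n 2 3 (n
  6 2 (n 3 3 (n 1 5 e (n 1 2 e (n 4 1 (n 1 6 (n 2 5 (n 1 1 (n 2 2 (n 6 6 e e) e) e) e) e) e))) e) e)
  e)))))) (t [0, 4] (t [0, 6] (t [0, 6] (b (l (n 3 3 (n 2 4 (n 6 2 (n 1 2 e (n 1 4 e (n 5 1 (n 1 6
  (n 2 5 (n 1 1 (n 2 2 (n 6 6 e e) e) e) e) e) e))) e) e) e)) (l (n 2 3 e (n 4 2 e (n 6 2 (n 1 2 e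
  (n 1 3 e (n 1 4 e (n 5 1 (n 1 6 (n 5 2 e (n 3 5 (n 3 3 e e) e)) e) e)))) (n 6 3 (n 1 3 e (n 1 4 e
  (n 5 1 (n 3 5 (n 1 2 (n 3 3 (n 6 6 e e) e) (n 6 1 (n 1 1 (n 3 3 (n 6 6 e e) e) e) e)) e) e)))
  e)))))))))) (t [0, 1] (b (t [0, 1] (t [0, 2] (t [0, 2] (b (l (n 2 2 (n 3 3 (n 1 4 e (n 1 5 e (n 1
  1 e (n 6 6 e e)))) e) e)) (l (n 2 3 (n 6 2 (n 3 3 (n 1 2 e (n 1 4 e (n 1 5 e (n 2 5 (n 6 1 (n 2 2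
  (n 6 6 e e) e) e) e)))) e) e) e)))))) (t [0, 4] (t [0, 2] (t [0, 2] (b (l (n 3 3 (n 1 4 e (n 1 5 e
  (n 2 4 (n 6 2 (n 2 5 (n 1 1 e (n 2 2 (n 6 6 e e) e)) e) e) e))) e)) (l (n 1 3 e (n 1 4 e (n 1 5 e
  (n 2 3 e (n 4 2 e (n 3 6 (n 3 3 e (n 6 2 (n 5 2 e e) (n 6 6 e e))) (n 5 2 e (n 5 3 e
  e)))))))))))))))))) (t [0, 4] (f [0, 3] (b (t [0, 2] (t [0, 2] (t [0, 5] (t [0, 5] (b (l (n 2 2 (n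
  6 6 (n 1 3 e (n 1 4 e (n 1 5 (n 3 3 e (n 5 5 e e)) e))) e) e)) (l (n 3 2 e (n 6 2 (n 1 5 e (n 2 5
  (n 1 2 e (n 1 3 e (n 4 1 (n 6 1 (n 1 1 (n 2 2 (n 6 6 e e) e) e) e) e))) e)) e)))))))) (t [0, 1] (t
  [0, 2] (t [0, 2] (t [0, 1] (t [0, 1] (b (l (n 2 2 (n 6 6 (n 1 3 e (n 1 4 e (n 1 5 e (n 3 3 e e))))
  e) e)) (l (n 1 3 e (n 3 2 e (n 6 2 (n 1 4 e (n 1 5 e (n 2 5 (n 2 2 (n 6 6 e e) e) e)))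
  e))))))))))))))))))))) z) (b (t [0, 1] (f [0, 2] (f [0, 2] (t [0, 1] (t [0, 1] (b (t [0, 1, 2] (t
  [0, 1] (t [0, 1, 2] (f [0, 3] (b (f [0, 2] (b (t [0, 4] (t [0, 4] (b (l (n 3 3 (n 2 4 e (n 2 2 (n
  1 5 e (n 6 4 e (n 6 6 e (n 1 4 e (n 1 1 e e))))) e)) e)) (l (n 2 4 e (n 2 3 (n 3 3 (n 1 5 e (n 6 2
  e (n 6 4 e (n 2 2 e (n 1 2 e (n 1 4 e (n 1 1 e e))))))) e) e)))))) (t [0, 4] (t [0, 4] (b (l (n 6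
  2 e (n 2 4 e (n 2 3 e (n 3 2 e (n 3 3 (n 1 5 (n 5 2 e e) (n 1 2 e (n 1 4 e (n 1 1 e e)))) e))))))
  (l (n 6 2 e (n 2 4 e (n 2 3 e (n 3 2 e (n 3 3 e (n 1 5 (n 5 2 e e) (n 1 2 e (n 1 3 e (n 1 4 e (n 1
  1 e e)))))))))))))))) (t [0, 1] (f [0, 2] (b (t [0, 2] (t [0, 2] (b (l (n 3 3 (n 1 4 e (n 1 5 e (n
  6 2 e (n 2 4 e (n 2 2 (n 1 1 e e) e))))) e)) (l (n 2 4 e (n 2 3 (n 3 3 (n 1 5 e (n 1 2 e (n 1 4 e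
  (n 6 2 e (n 6 4 e (n 2 2 e e)))))) e) e)))))) (t [0, 1, 2] (t [0, 1, 2] (b (l (n 2 4 e (n 1 5 e (n
  6 2 e (n 2 3 e (n 6 4 e (n 1 3 e (n 3 2 e (n 1 4 e (n 3 3 e e)))))))))) (l (n 2 4 e (n 1 5 e (n 6
  2 e (n 2 3 e (n 6 4 e (n 1 3 e (n 3 2 e (n 1 4 e (n 3 3 e e))))))))))))))))))))) (t [0, 2] (b (t
  [0, 1, 3] (f [0, 4] (b (b (t [0, 1] (t [0, 5] (t [0, 5] (b (l (n 2 2 (n 3 3 (n 1 4 e (n 1 5 e (n 1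
  1 (n 6 6 e e) e))) e) e)) (l (n 2 3 (n 3 3 (n 6 2 e (n 1 4 e (n 1 5 e (n 1 2 (n 1 1 (n 2 2 e e) e)
  e)))) e) e)))))) (t [0, 4] (t [0, 5] (t [0, 5] (b (l (n 3 3 (n 2 4 (n 6 2 e (n 1 4 e (n 1 5 e (n 1
  2 (n 1 1 (n 2 2 e e) e) e)))) e) e)) (l (n 2 3 e (n 4 2 e (n 1 4 e (n 1 5 e (n 6 2 e (n 6 3 e (n 3
  3 e (n 1 2 e (n 1 3 e (n 1 1 e e)))))))))))))))) (t [0, 1] (b (t [0, 1] (t [0, 2] (t [0, 2] (b (l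
  (n 2 2 (n 3 3 (n 1 4 e (n 1 5 e (n 1 1 e (n 6 6 e e)))) e) e)) (l (n 2 3 (n 3 3 (n 6 2 e (n 1 4 e
  (n 1 5 e (n 1 2 e (n 2 2 e e))))) e) e)))))) (t [0, 4] (t [0, 2] (t [0, 1, 2] (b (l (n 3 3 (n 2 4
  (n 6 2 e (n 1 4 e (n 1 5 e (n 1 2 e (n 2 2 e e))))) e) e)) (l (n 6 2 e (n 2 3 e (n 1 4 e (n 4 2 e
  (n 1 5 e (n 1 3 e (n 3 3 e e))))))))))))))))) (t [0, 3] (f [0, 4] (b (t [0, 2] (t [0, 2] (t [0, 4]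
  (t [0, 4] (b (l (n 2 2 (n 1 3 e (n 1 4 e (n 1 5 (n 3 3 e (n 5 5 (n 6 6 e e) e)) e))) e)) (l (n 3 2
  e (n 6 2 e (n 1 3 e (n 1 4 e (n 1 5 e (n 1 2 (n 1 1 (n 2 2 e e) e) e)))))))))))) (t [0, 1] (t [0,
  2] (t [0, 2] (t [0, 1] (t [0, 1] (b (l (n 2 2 (n 1 3 e (n 1 4 e (n 1 5 e (n 3 3 e (n 6 6 e e)))))
  e)) (l (n 1 3 e (n 3 2 e (n 1 4 e (n 1 5 e (n 6 2 e (n 2 2 e e)))))))))))))))))))))))) z)) z)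

set_option maxRecDepth 100000 in
theorem f13A : chkQ 6 2 10897286400000 t13A
    (blks.getD 13 ⟨0, 0, 0, 0, 0, .zr, .zr⟩).A = some [3417510096000] := by
  decide +kernel

end Pool.Agent.TH32
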