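import Pool.Agent.TH32.H.Fast

set_option autoImplicit false

namespace Pool.Agent.TH32

open CT PT

set_option maxRecDepth 100000 in
/-- certificate for block 13 (Ld1R2), tree B -/
def t13B : PT :=
  (b (b (b (t [0, 1] (b (t [0, 1] (b (t [0, 1] (b (b (t [0, 2] (t [0, 1] (t [0, 4] (b (b (f [0, 4]
  (b (t [0, 1, 4] (t [0, 1, 4] (b (l (n 3 1 (n 2 6 e (n 6 4 (n 1 4 e (n 1 5 e (n 2 5 (n 2 4 (n 3 3 e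
  e) (n 3 2 e (n 3 3 (n 1 6 (n 5 5 e e) e) e))) e))) (n 2 5 (n 3 6 e (n 2 3 (n 5 5 (n 3 3 (n 1 2 (n
  6 2 e e) (n 1 4 e (n 1 1 e e))) e) e) e)) e))) (n 2 6 e (n 6 4 e (n 6 3 e (n 2 5 (n 1 6 e (n 6 2 e
  (n 1 2 (n 5 5 (n 2 2 e e) e) e))) e)))))) z))) (t [0, 2, 8] (t [0, 2, 8] (b (l (n 1 3 (n 6 3 e (n
  2 3 e (n 4 6 (n 2 4 e (n 6 2 (n 1 6 (n 2 5 (n 1 2 (n 5 5 (n 3 2 e (n 3 6 e (n 6 2 e e))) e) (n 5 5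
  (n 1 6 (n 3 6 e e) e) e)) e) (n 6 5 e (n 2 5 (n 2 1 e (n 5 5 e e)) e))) e)) e))) (n 2 4 e (n 6 4
  (n 2 5 (n 1 4 e (n 4 5 (n 4 1 (n 5 5 (n 2 1 (n 2 3 e (n 3 2 e (n 1 6 (n 3 3 e e) e))) e) e) e) e))
  e) (n 2 6 e (n 3 6 (n 3 2 e (n 5 2 (n 3 6 e (n 2 2 (n 1 4 e (n 1 5 e e)) e)) e)) (n 2 5 (n 2 3 e
  (n 6 2 (n 1 3 e (n 3 2 e (n 5 5 (n 2 1 (n 1 4 e (n 1 6 e e)) e) e))) (n 5 5 (n 1 3 (n 3 6 e e) (n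
  1 2 e (n 1 4 e e))) e))) e))))))) z))))) (f [0, 4] (b (t [0, 1, 4] (t [0, 1, 4] (b (l (n 2 6 e (n
  6 4 (n 1 4 e (n 3 2 (n 2 4 (n 2 5 (n 3 1 (n 1 2 e (n 3 1 (n 3 5 e (n 4 4 (n 5 5 e (n 6 1 e (n 3 6
  e e))) e)) e)) e) e) e) e)) (n 6 3 (n 1 3 e (n 3 2 e (n 3 3 (n 2 1 (n 2 5 e (n 4 1 (n 1 6 (n 2 6 e
  e) e) (n 2 4 e (n 2 6 e e)))) e) e))) e)))) z))) (b (b (b (l (n 2 6 e (n 6 4 (n 1 3 e (n 1 4 e (n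
  2 1 (n 2 5 e (n 4 5 (n 3 2 e (n 5 3 e (n 3 5 e (n 3 3 e (n 6 1 e (n 2 6 e e)))))) (n 3 2 (n 2 4 e
  e) e))) e))) (n 3 6 (n 3 2 e (n 1 2 (n 6 2 e (n 1 5 (n 3 2 e (n 2 5 e (n 3 6 e (n 3 2 e e)))) (n 3
  6 e (n 3 2 e (n 3 1 e (n 2 3 e e)))))) (n 2 5 e (n 3 6 e (n 3 2 e (n 1 2 e (n 1 3 e (n 1 4 e (n 1
  5 e (n 1 6 e e)))))))))) (n 1 3 e (n 1 2 e (n 2 3 e (n 5 2 (n 6 2 e (n 6 5 e (n 2 6 (n 1 2 (n 2 3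
  (n 3 4 e (n 3 5 e (n 3 6 e e))) e) (n 1 4 (n 3 4 e (n 5 3 (n 3 6 e e) e)) (n 5 1 (n 1 6 (n 3 6 e
  e) e) (n 3 5 e (n 3 6 e e))))) e))) (n 3 5 e (n 4 1 (n 6 2 (n 5 2 e (n 1 6 (n 3 6 e e) e)) (n 1 2
  (n 3 2 e (n 3 6 e e)) (n 1 6 (n 3 6 e e) e))) (n 5 2 (n 3 6 (n 6 2 (n 3 2 e e) e) (n 6 2 e (n 3 4
  e e))) (n 3 4 e (n 3 6 e e))))))))))))) z) z) z)))) (b (f [0, 4] (b (t [0, 2] (t [0, 2] (b (l (n 1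
  3 e (n 1 4 e (n 2 6 e (n 2 1 (n 2 4 (n 5 2 (n 6 4 (n 3 3 e e) (n 3 6 e (n 3 3 (n 1 1 (n 2 2 e e)
  e) e))) e) (n 3 2 e (n 6 3 (n 3 3 (n 2 5 (n 5 4 e (n 1 5 e (n 5 5 e e))) e) e) e))) e))))) z))) (t
  [0, 2] (t [0, 2] (b (l (n 1 3 e (n 1 4 e (n 1 5 e (n 2 6 e (n 6 4 (n 4 2 (n 4 5 (n 2 3 e (n 3 5 (n
  3 2 e (n 5 2 (n 2 1 (n 3 3 e e) e) (n 3 3 e (n 5 5 e e)))) (n 1 3 e (n 2 1 (n 3 2 (n 5 2 e e) e)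
  e)))) (n 4 1 (n 2 1 (n 2 3 e (n 3 2 e (n 3 3 e e))) e) e)) e) (n 3 6 (n 3 2 e (n 3 6 e (n 5 2 (n 2
  1 e (n 2 2 e e)) e))) (n 2 3 e (n 3 5 (n 5 2 (n 2 1 (n 3 2 (n 6 2 e (n 5 6 e e)) (n 3 5 (n 5 6 e
  e) e)) e) (n 3 2 (n 6 2 e (n 5 5 e e)) (n 5 5 e e))) (n 1 3 e (n 2 1 (n 3 2 (n 5 2 (n 2 6 e e) e)
  e) e))))))))))) z))))) (f [0, 4] (b (t [0, 1, 4] (t [0, 1, 4] (b (l (n 1 4 e (n 1 3 e (n 2 6 e (n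
  6 4 (n 3 2 (n 2 4 (n 1 2 e (n 3 1 e (n 1 5 (n 5 2 (n 3 6 (n 4 4 (n 3 3 e e) e) e) e) (n 3 6 (n 4 4
  (n 3 3 e e) e) e)))) e) e) (n 3 2 e (n 2 1 e (n 1 5 e (n 6 3 (n 4 2 (n 2 6 (n 3 3 e e) e) (n 3 3 e
  e)) e))))))))) z))) (b (b (b (l (n 6 3 (n 2 6 e (n 1 3 e (n 1 4 e (n 2 1 (n 6 1 e (n 2 4 e (n 5 2
  (n 3 5 (n 1 5 (n 3 2 e (n 3 5 e (n 2 6 (n 4 6 e e) e))) (n 1 2 (n 3 2 e (n 1 6 (n 2 6 (n 4 6 e e)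
  e) e)) (n 2 6 (n 4 6 e e) e))) (n 2 6 (n 2 3 e (n 4 6 e (n 1 2 (n 3 2 (n 5 2 e e) e) e))) (n 3 2
  (n 1 2 (n 3 2 (n 5 2 e (n 6 5 e e)) (n 3 6 (n 6 5 e e) e)) (n 1 6 (n 3 6 (n 6 5 e e) e) e)) (n 6 3
  e (n 1 6 (n 2 6 (n 3 6 (n 6 5 e e) e) e) e))))) (n 3 2 (n 4 5 e (n 1 2 (n 3 2 e (n 4 6 e (n 3 3 e
  e))) (n 4 6 e (n 1 1 (n 3 3 e e) e)))) e)))) e)))) (n 2 3 e (n 6 2 (n 2 1 (n 1 4 (n 2 1 (n 1 6 e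
  e) e) (n 2 4 (n 6 4 e (n 2 5 e (n 3 1 e (n 1 6 e (n 1 1 e (n 2 3 e (n 2 2 e e))))))) (n 3 1 e (n 1
  2 e (n 1 6 e (n 4 5 (n 2 5 e (n 2 3 e e)) (n 2 3 (n 4 3 e e) e))))))) e) e)))) z) z) z)))))))) z)
  (b (b (t [0, 1, 2] (t [0, 5] (b (b (b (t [0, 1] (t [0, 5] (t [0, 5] (t [0, 8] (l (n 2 3 (n 6 2 (n
  3 3 (n 1 4 e (n 1 2 e (n 2 5 e (n 2 2 (n 5 1 (n 1 6 e e) e) e)))) e) e) e)))))) (t [0, 6] (t [0,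
  5] (t [0, 5] (b (l (n 2 3 e (n 6 3 (n 1 4 e (n 4 2 e (n 3 5 (n 2 5 (n 1 3 e (n 2 1 (n 3 1 (n 5 5
  (n 6 1 (n 1 1 (n 3 3 (n 6 6 e e) e) e) e) e) e) e)) e) e))) (n 4 2 e (n 6 2 (n 1 4 e (n 2 5 e (n 2
  2 (n 1 5 e (n 1 5 e (n 1 6 (n 3 3 e e) (n 3 1 (n 1 1 (n 3 3 e e) e) e)))) e))) e))))) z))))) (b (t
  [0, 1] (t [0, 5] (t [0, 5] (l (n 2 3 (n 6 2 (n 3 3 (n 1 4 e (n 2 1 (n 2 1 (n 2 5 e (n 2 2 e (n 6 1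
  e (n 2 6 e e)))) e) e)) e) e) e))))) (t [0, 6] (t [0, 5] (t [0, 5] (b (l (n 2 3 e (n 6 3 (n 1 4 e
  (n 4 2 e (n 1 5 e (n 3 1 (n 2 5 (n 3 5 e (n 1 6 (n 1 3 e e) e)) (n 1 2 e (n 3 1 (n 6 2 e (n 1 6 (n
  6 3 (n 3 3 (n 1 1 (n 6 6 e e) e) e) e) e)) e))) e)))) (n 4 2 e (n 6 2 (n 1 4 e (n 1 2 e (n 2 5 e
  (n 5 1 (n 2 1 (n 3 2 e (n 2 2 e (n 1 3 e (n 1 6 e (n 1 1 e e))))) e) e)))) e))))) z)))))) (b (b (t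
  [0, 1] (t [0, 2] (t [0, 2] (t [0, 8] (l (n 1 3 e (n 2 3 (n 1 4 e (n 2 6 e (n 2 1 (n 3 3 (n 5 2 (n
  1 1 (n 2 2 e e) e) e) e) e))) e))))))) (t [0, 6] (t [0, 2] (t [0, 2] (b (l (n 1 3 e (n 1 4 e (n 2
  6 e (n 2 1 (n 3 6 (n 4 2 e (n 5 2 (n 6 4 (n 3 3 e (n 1 1 (n 2 2 e e) e)) e) e)) (n 2 3 e (n 4 2 e
  (n 5 2 e (n 3 5 (n 1 5 e (n 5 5 e e)) e))))) e))))) z))))) (b (t [0, 1] (t [0, 5] (t [0, 5] (t [0,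
  3] (l (n 1 3 e (n 2 3 (n 1 4 e (n 2 6 e (n 2 1 e (n 1 5 e (n 6 2 e (n 3 3 e e)))))) e))))))) (t
  [0, 6] (t [0, 5] (t [0, 5] (b (l (n 1 4 e (n 1 3 e (n 2 3 e (n 4 2 e (n 6 2 (n 1 5 e (n 2 5 (n 3 5
  e (n 3 1 e (n 6 3 e e))) (n 1 2 e (n 3 1 e (n 3 6 (n 3 3 e e) e))))) (n 3 6 e (n 3 1 e (n 1 5 e (n
  2 3 (n 3 6 e e) e)))))))))) z))))))))) (t [0, 2] (t [0, 5] (b (b (t [0, 3] (t [0, 3] (t [0, 4] (t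
  [0, 4] (t [0, 7] (l (n 3 2 e (n 6 2 (n 1 3 e (n 1 4 e (n 1 2 e (n 2 5 e (n 2 2 (n 5 1 (n 1 6 e e)
  e) e))))) e)))))))) (t [0, 3] (t [0, 3] (t [0, 4] (t [0, 4] (l (n 3 2 e (n 6 2 (n 1 3 e (n 1 4 e
  (n 2 1 (n 2 1 (n 2 5 e (n 2 2 e (n 6 1 e (n 2 6 e e)))) e) e))) e)))))))) (b (t [0, 3] (t [0, 3]
  (t [0, 1] (t [0, 1] (t [0, 7] (l (n 1 3 e (n 3 2 e (n 1 4 e (n 2 6 e (n 2 1 (n 5 2 (n 1 1 (n 2 2 e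
  e) e) e) e))))))))))) (t [0, 3] (t [0, 3] (t [0, 4] (t [0, 4] (t [0, 2] (l (n 1 3 e (n 3 2 e (n 1
  4 e (n 2 6 e (n 2 1 e (n 1 5 e (n 6 2 e e)))))))))))))))))) z))) z)) (f [0, 1] (t [0, 2, 3] (t [0,
  2, 3] (b (t [0, 1, 3] (t [0, 1] (t [0, 1, 3] (f [0, 2] (b (f [0, 2] (b (t [0, 5] (t [0, 5] (b (l
  (n 1 5 (n 2 4 e (n 6 4 e (n 2 3 (n 6 2 e e) e))) (n 2 4 e (n 2 3 (n 3 3 (n 6 4 (n 1 2 e (n 4 1 (n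
  1 6 (n 5 2 e (n 4 5 (n 2 2 e e) e)) e) e)) (n 6 2 (n 2 1 (n 2 5 (n 1 4 (n 2 2 (n 6 6 e e) e) (n 6
  1 (n 1 1 (n 2 2 (n 6 6 e e) e) e) e)) e) e) e)) e) e)))) z))) (t [0, 5] (t [0, 5] (b (l (n 2 4 e
  (n 2 3 e (n 6 4 (n 1 3 e (n 3 2 e (n 1 4 e (n 5 1 (n 1 6 (n 5 3 e (n 5 4 e (n 3 3 e (n 5 2 e (n 2
  5 e e))))) e) e)))) (n 1 5 (n 6 3 e (n 3 2 e (n 6 2 (n 5 6 (n 3 3 e (n 1 2 (n 2 5 e e) e)) e) e)))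
  (n 3 6 (n 3 2 e (n 3 3 e (n 6 2 (n 5 2 e (n 1 2 e (n 1 3 e (n 1 4 e (n 1 6 e e))))) (n 6 6 (n 1 2
  e (n 1 3 e (n 1 4 e (n 1 1 e e)))) e)))) (n 1 3 e (n 5 3 e (n 5 2 e (n 3 2 (n 1 6 (n 1 2 (n 6 2 e
  e) e) (n 6 2 e (n 1 4 e e))) (n 1 4 e (n 1 6 e e)))))))))))) z))))) (t [0, 1] (f [0, 2] (b (t [0,
  2] (t [0, 2] (b (l (n 1 3 e (n 1 4 e (n 1 5 e (n 3 3 e (n 2 4 e (n 6 4 (n 2 3 e (n 2 2 (n 5 3 e (n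
  5 4 e e)) e)) (n 2 3 e (n 2 2 (n 6 3 (n 5 3 e e) (n 6 6 e e)) e))))))))) z))) (t [0, 2] (t [0, 2]
  (b (l (n 1 3 e (n 1 4 e (n 1 5 e (n 2 4 e (n 3 2 (n 6 4 (n 5 3 e (n 3 2 e (n 2 2 e (n 5 2 e (n 4 5
  e e))))) (n 3 6 (n 3 2 e (n 6 2 (n 2 5 (n 2 2 (n 6 6 e e) e) e) e)) (n 5 2 e (n 3 5 (n 2 2 e (n 3
  2 (n 6 2 e e) e)) e)))) e)))))) z))))))))))) (t [0, 3] (b (t [0, 1, 4] (f [0, 3] (b (b (t [0, 1]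
  (t [0, 6] (t [0, 6] (b (l (n 2 3 (n 6 2 (n 3 3 (n 1 5 e (n 1 2 e (n 4 1 (n 1 6 (n 2 5 (n 1 1 (n 2
  2 (n 6 6 e e) e) e) e) e) e))) e) e) e)) z)))) (t [0, 4] (t [0, 6] (t [0, 6] (b (l (n 2 3 e (n 4 2
  e (n 6 2 (n 1 2 e (n 1 3 e (n 1 4 e (n 5 1 (n 1 6 (n 5 2 e (n 3 5 (n 3 3 e e) e)) e) e)))) (n 6 3
  (n 1 3 e (n 1 4 e (n 5 1 (n 3 5 (n 1 2 (n 3 3 (n 6 6 e e) e) (n 6 1 (n 1 1 (n 3 3 (n 6 6 e e) e)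
  e) e)) e) e))) e))))) z))))) (t [0, 1] (b (t [0, 1] (t [0, 2] (t [0, 2] (b (l (n 2 3 (n 6 2 (n 3 3
  (n 1 2 e (n 1 4 e (n 1 5 e (n 2 5 (n 6 1 (n 2 2 (n 6 6 e e) e) e) e)))) e) e) e)) z)))) (t [0, 4]
  (t [0, 2] (t [0, 2] (b (l (n 1 3 e (n 1 4 e (n 1 5 e (n 2 3 e (n 4 2 e (n 3 6 (n 3 3 e (n 6 2 (n 5
  2 e e) (n 6 6 e e))) (n 5 2 e (n 5 3 e e))))))))) z))))))))) (t [0, 4] (f [0, 3] (b (t [0, 2] (t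
  [0, 2] (t [0, 5] (t [0, 5] (b (l (n 3 2 e (n 6 2 (n 1 5 e (n 2 5 (n 1 2 e (n 1 3 e (n 4 1 (n 6 1
  (n 1 1 (n 2 2 (n 6 6 e e) e) e) e) e))) e)) e))) z))))) (t [0, 1] (t [0, 2] (t [0, 2] (t [0, 1] (t
  [0, 1] (b (l (n 1 3 e (n 3 2 e (n 6 2 (n 1 4 e (n 1 5 e (n 2 5 (n 2 2 (n 6 6 e e) e) e))) e))))
  z))))))))))))))))) z) (b (t [0, 1] (f [0, 2] (f [0, 2] (t [0, 1] (t [0, 1] (b (t [0, 1, 2] (t [0,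
  1] (t [0, 1, 2] (f [0, 3] (b (f [0, 2] (b (t [0, 4] (t [0, 4] (b (l (n 2 4 e (n 2 3 (n 3 3 (n 1 5
  e (n 6 2 e (n 6 4 e (n 2 2 e (n 1 2 e (n 1 4 e (n 1 1 e e))))))) e) e))) z))) (t [0, 4] (t [0, 4]
  (b (l (n 6 2 e (n 2 4 e (n 2 3 e (n 3 2 e (n 3 3 e (n 1 5 (n 5 2 e e) (n 1 2 e (n 1 3 e (n 1 4 e
  (n 1 1 e e))))))))))) z))))) (t [0, 1] (f [0, 2] (b (t [0, 2] (t [0, 2] (b (l (n 2 4 e (n 2 3 (n 3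
  3 (n 1 5 e (n 1 2 e (n 1 4 e (n 6 2 e (n 6 4 e (n 2 2 e e)))))) e) e))) z))) (t [0, 1, 2] (t [0,
  1, 2] (b (l (n 2 4 e (n 1 5 e (n 6 2 e (n 2 3 e (n 6 4 e (n 1 3 e (n 3 2 e (n 1 4 e (n 3 3 e
  e)))))))))) z))))))))))) (t [0, 2] (b (t [0, 1, 3] (f [0, 4] (b (b (t [0, 1] (t [0, 5] (t [0, 5]
  (b (l (n 2 3 (n 3 3 (n 6 2 e (n 1 4 e (n 1 5 e (n 1 2 (n 1 1 (n 2 2 e e) e) e)))) e) e)) z)))) (t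
  [0, 4] (t [0, 5] (t [0, 5] (b (l (n 2 3 e (n 4 2 e (n 1 4 e (n 1 5 e (n 6 2 e (n 6 3 e (n 3 3 e (n
  1 2 e (n 1 3 e (n 1 1 e e))))))))))) z))))) (t [0, 1] (b (t [0, 1] (t [0, 2] (t [0, 2] (b (l (n 2
  3 (n 3 3 (n 6 2 e (n 1 4 e (n 1 5 e (n 1 2 e (n 2 2 e e))))) e) e)) z)))) (t [0, 4] (t [0, 2] (t
  [0, 1, 2] (b (l (n 6 2 e (n 2 3 e (n 1 4 e (n 4 2 e (n 1 5 e (n 1 3 e (n 3 3 e e))))))))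
  z))))))))) (t [0, 3] (f [0, 4] (b (t [0, 2] (t [0, 2] (t [0, 4] (t [0, 4] (b (l (n 3 2 e (n 6 2 e
  (n 1 3 e (n 1 4 e (n 1 5 e (n 1 2 (n 1 1 (n 2 2 e e) e) e))))))) z))))) (t [0, 1] (t [0, 2] (t [0,
  2] (t [0, 1] (t [0, 1] (b (l (n 1 3 e (n 3 2 e (n 1 4 e (n 1 5 e (n 6 2 e (n 2 2 e e)))))))
  z))))))))))))))))) z)) z)

set_option maxRecDepth 100000 in
theorem f13B : chkQ 6 3 10897286400000 t13B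
    (blks.getD 13 ⟨0, 0, 0, 0, 0, .zr, .zr⟩).B = some [-2918051136000] := by
  decide +kernel

end Pool.Agent.TH32
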