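import Pool.Agent.TH32.H.Fast

set_option autoImplicit false

namespace Pool.Agent.TH32

open CT PT

set_option maxRecDepth 100000 in
/-- certificate for block 15 (Ld1R4), tree B -/
def t15B : PT :=
  (b (b (b (b (t [0, 1] (b (t [0, 1] (b (t [0, 1] (b (b (t [0, 2] (t [0, 1, 8] (t [0, 4] (b (b (f
  [0, 4, 10] (b (t [0, 1, 4, 11] (t [0, 1, 4] (b (l (n 1 3 (n 3 6 (n 2 3 e (n 6 4 e (n 4 2 (n 2 1 (n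
  2 6 e (n 2 7 e (n 6 2 e (n 5 2 (n 1 1 (n 4 7 e (n 2 2 e e)) e) e)))) e) e))) e) (n 2 6 e (n 6 4 (n
  1 4 e (n 4 7 (n 4 2 (n 2 3 (n 2 7 e (n 3 3 (n 2 5 (n 2 1 (n 5 5 (n 6 7 e (n 1 6 e (n 1 7 e e))) e)
  e) e) e)) e) e) (n 2 7 e (n 5 1 (n 2 5 (n 2 4 (n 3 3 e e) (n 3 2 e (n 3 3 (n 1 6 (n 5 5 e e) e)
  e))) e) e)))) (n 3 6 e (n 2 3 (n 2 5 e (n 2 7 (n 3 3 (n 7 7 (n 4 2 e (n 1 5 (n 5 6 e e) (n 1 2 e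
  (n 1 4 e e)))) e) e) e)) e)))))) z))) (t [0, 2, 8, 11] (t [0, 2, 8] (b (l (n 1 3 (n 3 6 (n 2 3 e
  (n 6 4 e (n 4 2 (n 4 7 e (n 2 6 e (n 1 2 (n 1 6 (n 3 2 e (n 1 5 (n 3 6 e (n 2 5 e (n 2 7 (n 6 5 e
  (n 7 7 e e)) e))) (n 2 7 (n 3 6 e (n 1 7 (n 7 7 e e) e)) e))) (n 6 5 e (n 7 1 e (n 2 7 (n 6 7 (n 7
  7 (n 1 2 (n 3 2 e e) e) e) e) e)))) (n 6 2 (n 2 7 (n 6 1 e (n 1 5 (n 5 6 (n 6 7 (n 7 7 e e) e) e)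
  (n 7 1 e (n 6 7 (n 7 7 e e) e)))) (n 6 5 e e)) (n 1 6 (n 2 5 e (n 2 7 (n 7 7 (n 1 6 (n 3 6 e e) e)
  e) e)) (n 2 1 e (n 1 5 (n 5 2 (n 2 7 (n 7 7 e e) e) e) (n 7 1 e (n 2 7 (n 7 7 e e) e))))))))) e)))
  e) (n 2 4 e (n 4 7 e (n 1 7 (n 6 4 e (n 2 6 e (n 3 6 (n 3 2 e (n 3 7 (n 3 6 e (n 5 2 (n 2 2 (n 7 6
  e e) e) e)) (n 5 2 (n 2 2 (n 3 6 (n 6 7 e e) e) e) e))) (n 6 7 e (n 5 6 (n 2 5 (n 2 3 e (n 5 5 e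
  e)) e) e))))) (n 6 4 (n 2 5 (n 1 4 e (n 4 5 (n 4 1 (n 5 5 (n 2 1 (n 2 3 e (n 3 2 e (n 1 6 (n 3 3 e
  e) e))) e) e) e) e)) e) (n 2 6 e (n 3 6 (n 3 2 e (n 5 2 (n 3 6 e (n 2 2 (n 1 4 e (n 1 5 e e)) e))
  e)) (n 2 5 (n 2 3 e (n 6 2 (n 1 3 e (n 3 2 e (n 5 5 (n 2 1 (n 1 4 e (n 1 6 e e)) e) e))) (n 5 5 (n
  1 3 (n 3 6 e e) (n 1 2 e (n 1 4 e e))) e))) e))))))))) z))))) (f [0, 4, 10] (b (t [0, 1, 4, 11] (t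
  [0, 1, 4] (b (l (n 2 6 e (n 6 4 (n 1 3 e (n 1 4 e (n 7 2 (n 4 7 (n 2 3 (n 7 3 (n 2 5 e (n 5 1 (n 2
  1 (n 3 3 (n 2 2 e (n 6 1 e (n 2 6 (n 1 7 (n 2 7 (n 7 6 e e) e) e) e))) e) e) e)) e) e) (n 2 5 e (n
  3 2 e (n 5 4 e (n 5 3 (n 1 4 e (n 5 1 (n 2 1 (n 3 3 (n 1 6 (n 2 6 (n 2 2 e e) e) e) e) e) e))
  e))))) e))) (n 3 6 e (n 2 3 (n 3 3 (n 1 2 e (n 2 7 e (n 1 2 e (n 2 5 e (n 4 7 e (n 1 4 (n 2 4 e (n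
  6 2 (n 2 7 e e) e)) (n 6 1 (n 1 7 (n 2 7 e e) e) (n 2 6 e (n 2 7 e e))))))))) e) e))))) z))) (b (b
  (b (l (n 6 3 (n 2 6 e (n 1 3 e (n 1 4 e (n 4 7 e (n 2 7 e (n 2 1 (n 2 5 e (n 4 5 (n 3 2 (n 6 2 e
  (n 6 5 e (n 6 2 e (n 1 2 (n 2 3 (n 3 5 e (n 3 6 e (n 3 3 e e))) e) (n 1 5 (n 3 5 e (n 3 6 e e)) (n
  1 6 (n 3 6 e e) e)))))) (n 5 3 e (n 3 5 (n 6 5 e (n 1 5 (n 2 5 (n 6 6 e e) (n 6 2 e e)) (n 6 1 e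
  (n 2 6 e e)))) (n 6 1 e (n 2 6 e e))))) (n 3 2 (n 6 2 e (n 2 4 e (n 1 6 (n 3 6 (n 1 2 (n 3 2 (n 6
  2 e (n 6 6 e e)) (n 3 3 (n 6 6 e e) e)) (n 1 1 (n 3 3 (n 6 6 e e) e) e)) e) e))) e))) e)))))) (n 2
  3 e (n 2 6 e (n 4 6 (n 3 6 e (n 4 7 e (n 2 3 (n 1 2 (n 2 7 (n 1 5 e (n 1 7 e (n 3 1 e (n 3 3 e
  e)))) (n 6 2 e (n 1 5 (n 2 5 e (n 3 2 e (n 3 3 e e))) (n 3 1 e (n 3 2 e e))))) (n 2 5 e (n 2 7 e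
  (n 3 2 e (n 3 1 (n 3 3 e (n 1 2 e (n 1 4 e (n 1 5 e (n 1 6 e (n 1 7 e e)))))) e))))) e))) (n 1 4 e
  (n 7 4 (n 2 7 e (n 1 2 e (n 2 5 e (n 4 5 (n 3 2 e (n 3 5 e (n 3 2 e (n 3 1 (n 3 3 e (n 1 2 e (n 1
  5 e (n 1 6 e (n 1 1 e e))))) e)))) (n 4 2 (n 3 2 e (n 3 4 e (n 3 2 e (n 1 2 e (n 1 3 e (n 1 6 e (n
  1 1 e e))))))) e))))) (n 2 4 e (n 3 2 e (n 1 2 (n 2 7 (n 1 5 e (n 1 7 e (n 6 2 e (n 7 6 (n 3 1 e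
  (n 3 3 e e)) e)))) e) (n 2 5 e (n 2 7 e (n 3 2 e (n 3 3 e (n 6 7 e (n 1 2 e (n 1 3 e (n 1 5 e (n 1
  6 e (n 1 7 e (n 1 1 e e))))))))))))))))))))) z) z) z)))) (b (f [0, 4, 10] (b (t [0, 2, 11] (t [0,
  2] (b (l (n 1 3 e (n 1 4 e (n 1 5 e (n 3 3 e (n 4 7 e (n 2 7 e (n 2 6 e (n 6 4 (n 2 4 e (n 5 4 (n
  4 1 (n 2 1 (n 3 2 (n 2 2 e e) e) e) e) (n 2 3 (n 5 2 (n 3 3 (n 2 1 e (n 2 2 e e)) e) e) e))) (n 6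
  3 (n 2 3 (n 3 3 (n 5 2 (n 2 1 e (n 2 2 e e)) e) e) e) e)))))))))) z))) (t [0, 2, 11] (t [0, 2] (b
  (l (n 1 3 e (n 1 4 e (n 1 5 e (n 4 7 e (n 2 7 e (n 2 6 e (n 6 4 (n 4 2 (n 4 5 (n 2 3 e (n 3 5 (n 3
  2 e (n 5 2 (n 2 1 (n 3 3 e e) e) (n 3 3 e (n 5 5 e e)))) (n 1 3 e (n 2 1 (n 3 2 (n 5 2 e e) e)
  e)))) (n 4 1 (n 2 1 (n 2 3 e (n 3 2 e (n 3 3 e e))) e) e)) e) (n 3 6 (n 3 2 e (n 3 6 e (n 5 2 (n 2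
  1 e (n 2 2 e e)) e))) (n 2 3 e (n 3 5 (n 5 2 (n 2 1 (n 3 2 (n 6 2 e (n 5 6 e e)) (n 3 5 (n 5 6 e
  e) e)) e) (n 3 2 (n 6 2 e (n 5 5 e e)) (n 5 5 e e))) (n 1 3 e (n 2 1 (n 3 2 (n 5 2 (n 2 6 e e) e)
  e) e))))))))))))) z))))) (f [0, 4, 10] (b (t [0, 1, 4, 11] (t [0, 1, 4] (b (l (n 1 4 e (n 1 3 e (n
  1 5 e (n 4 7 e (n 2 7 e (n 2 5 e (n 4 5 (n 2 3 (n 2 6 e (n 5 3 (n 2 1 e (n 6 2 e (n 3 3 e e))) e))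
  e) (n 2 3 e (n 2 4 (n 6 2 (n 1 2 e (n 3 1 e (n 3 6 (n 4 4 (n 3 3 e e) e) e))) (n 3 6 e (n 3 1 e (n
  4 4 (n 2 3 (n 3 6 e e) e) e)))) e)))))))))) z))) (b (b (b (l (n 1 3 e (n 1 4 e (n 1 5 e (n 4 7 e
  (n 2 7 e (n 2 6 e (n 2 5 e (n 4 5 (n 3 6 (n 3 2 e (n 2 1 e (n 3 5 e (n 3 6 e (n 2 3 e e))))) (n 2
  1 e (n 6 2 e (n 3 1 (n 3 1 (n 6 1 e (n 5 6 (n 2 6 e e) e)) (n 3 5 (n 5 6 (n 2 6 e e) e) (n 2 3 e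
  (n 2 6 e e)))) (n 5 3 (n 2 3 e (n 1 2 (n 3 2 (n 5 2 (n 2 6 e e) e) e) e)) (n 1 5 (n 3 5 (n 5 6 (n
  2 6 e e) e) (n 2 3 e (n 2 6 e e))) (n 1 2 (n 2 3 e (n 2 6 e e)) e))))))) (n 2 1 e (n 4 1 (n 3 6 (n
  3 2 e (n 3 1 e (n 3 6 e (n 2 3 e e)))) (n 6 2 e (n 1 3 (n 2 3 e (n 1 2 (n 3 2 (n 6 2 e e) e) e))
  (n 3 1 (n 6 1 e (n 2 6 e e)) (n 3 2 (n 2 6 e e) e))))) (n 6 2 e (n 6 4 (n 4 2 (n 3 4 e (n 2 3 (n 2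
  3 e (n 3 2 e (n 3 3 e e))) e)) (n 3 2 (n 2 4 e e) e)) (n 3 2 e (n 3 6 (n 3 6 e (n 3 2 e e)) (n 2 3
  e (n 3 2 (n 6 2 e e) e))))))))))))))))) z) z) z)))))))) z) (b (b (t [0, 1, 2, 9] (t [0, 5] (b (b
  (b (t [0, 1] (t [0, 5, 12] (t [0, 5] (t [0, 8] (l (n 2 3 (n 6 2 (n 3 3 (n 1 4 e (n 1 2 e (n 2 7 e
  (n 2 5 e (n 2 2 (n 5 1 (n 4 7 e (n 1 6 e e)) e) e))))) e) e) e)))))) (t [0, 6] (t [0, 5, 12] (t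
  [0, 5] (b (l (n 3 1 (n 1 4 (n 6 4 e (n 2 4 e (n 2 6 e (n 3 6 (n 1 2 e (n 2 7 e (n 1 6 e (n 2 5 (n
  6 2 (n 3 2 e (n 5 5 e e)) (n 5 5 (n 3 3 e e) e)) e)))) (n 3 2 (n 1 2 e (n 2 7 (n 3 7 e (n 6 3 e (n
  5 3 (n 1 7 (n 7 4 (n 3 3 e e) e) (n 3 3 e e)) e))) (n 2 5 (n 3 5 (n 6 2 e (n 3 6 (n 5 5 e e) e))
  e) e))) (n 2 7 e (n 6 2 e (n 5 2 (n 4 3 e (n 2 2 (n 1 7 (n 3 7 (n 7 4 e e) e) e) e)) e)))))))) (n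
  4 7 e (n 2 7 e (n 2 6 e (n 2 5 (n 5 5 (n 3 2 (n 4 2 e (n 6 4 (n 1 2 (n 6 2 e (n 3 6 (n 3 3 e e)
  e)) (n 1 3 (n 3 3 (n 1 1 e e) (n 6 3 e e)) e)) e)) (n 6 3 (n 1 2 (n 6 2 e (n 3 7 e e)) (n 3 7 (n 1
  1 e e) e)) (n 4 6 e (n 1 2 (n 3 2 (n 2 6 e e) e) (n 1 1 e e))))) e) e))))) (n 6 3 e (n 2 3 e (n 6
  4 e (n 2 4 e (n 1 2 e (n 2 6 e (n 2 7 e (n 6 2 e (n 5 2 (n 4 1 e (n 1 7 (n 7 4 (n 2 2 e e) e) (n 2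
  2 e e))) e))))))))))) z))))) (b (t [0, 1] (t [0, 5, 12] (t [0, 5] (l (n 2 3 (n 6 2 (n 3 3 (n 1 4 e
  (n 1 2 e (n 2 7 e (n 2 5 e (n 5 1 (n 1 6 (n 2 1 (n 4 7 e (n 2 2 e e)) e) e) e))))) e) e) e))))) (t
  [0, 6] (t [0, 5, 12] (t [0, 5] (b (l (n 2 3 e (n 6 3 (n 4 2 e (n 1 2 e (n 2 7 (n 1 4 e (n 1 3 e (n
  3 7 e (n 3 1 (n 3 5 e (n 7 4 (n 6 1 e (n 3 6 e e)) e)) e)))) (n 1 4 e (n 1 3 e (n 2 5 (n 3 1 (n 3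
  5 e (n 2 1 (n 6 1 e (n 3 6 e e)) e)) e) (n 1 5 e (n 6 1 e (n 2 1 (n 1 3 (n 3 5 (n 3 3 (n 1 1 (n 6
  6 e e) e) e) e) e) e))))))))) (n 4 2 e (n 6 2 (n 1 2 e (n 2 7 e (n 2 5 e (n 1 4 e (n 5 1 (n 2 1 (n
  3 2 e (n 2 2 e (n 1 3 e (n 1 6 e (n 1 1 e e))))) e) e))))) e))))) z)))))) (b (b (t [0, 1] (t [0,
  2, 12] (t [0, 2] (t [0, 8] (l (n 1 3 e (n 2 3 (n 1 4 e (n 2 6 e (n 2 7 e (n 2 1 (n 5 2 (n 4 7 e (n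
  3 3 (n 1 1 (n 2 2 e e) e) e)) e) e)))) e))))))) (t [0, 6] (t [0, 2, 12] (t [0, 2] (b (l (n 1 3 e
  (n 1 4 e (n 1 5 e (n 3 3 e (n 4 7 e (n 2 7 e (n 2 6 e (n 6 3 (n 3 2 (n 2 4 (n 2 5 (n 5 3 (n 3 1 e
  (n 3 3 e e)) e) (n 2 1 (n 3 1 e e) e)) e) (n 7 3 e (n 5 2 (n 2 1 e (n 2 2 e e)) e))) (n 4 2 e (n 6
  4 (n 5 2 (n 2 1 e (n 2 2 e e)) e) e))))))))))) z))))) (b (t [0, 1] (t [0, 5, 12] (t [0, 5] (t [0,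
  3] (l (n 1 3 e (n 2 3 (n 1 4 e (n 2 6 e (n 2 1 e (n 1 5 e (n 2 7 e (n 6 2 e (n 4 7 e (n 3 3 e
  e)))))))) e))))))) (t [0, 6] (t [0, 5, 12] (t [0, 5] (b (l (n 1 4 e (n 1 3 e (n 1 5 e (n 4 7 e (n
  2 7 e (n 2 6 e (n 3 6 (n 4 2 e (n 6 4 (n 2 5 e (n 2 1 e (n 3 2 e (n 3 3 e e)))) e)) (n 2 3 (n 2 5
  e (n 3 7 (n 2 1 e (n 6 2 e e)) e)) (n 4 2 e (n 5 2 (n 2 1 (n 3 1 e (n 6 3 e e)) (n 6 2 e (n 3 6 e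
  e))) (n 3 5 e (n 3 1 e (n 6 3 e e)))))))))))))) z))))))))) (t [0, 2, 9] (t [0, 5] (b (b (t [0, 3]
  (t [0, 3] (t [0, 4, 11] (t [0, 4] (t [0, 7] (l (n 3 2 e (n 6 2 (n 1 3 e (n 1 4 e (n 1 2 e (n 2 7 e
  (n 2 5 e (n 2 2 (n 5 1 (n 4 7 e (n 1 6 e e)) e) e)))))) e)))))))) (t [0, 3] (t [0, 3] (t [0, 4,
  11] (t [0, 4] (l (n 3 2 e (n 6 2 (n 1 3 e (n 1 4 e (n 1 2 e (n 2 7 e (n 2 5 e (n 5 1 (n 1 6 (n 2 1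
  (n 4 7 e (n 2 2 e e)) e) e) e)))))) e)))))))) (b (t [0, 3] (t [0, 3] (t [0, 1, 11] (t [0, 1] (t
  [0, 7] (l (n 1 3 e (n 1 4 e (n 3 2 e (n 2 6 e (n 2 7 e (n 2 1 (n 5 2 (n 4 7 e (n 1 1 (n 2 2 e e)
  e)) e) e)))))))))))) (t [0, 3] (t [0, 3] (t [0, 4, 11] (t [0, 4] (t [0, 2] (l (n 1 3 e (n 3 2 e (n
  1 4 e (n 2 6 e (n 2 1 e (n 1 5 e (n 2 7 e (n 6 2 e (n 4 7 e e)))))))))))))))))))) z))) z)) (b (t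
  [0, 3] (t [0, 3] (b (t [0, 1, 4] (t [0, 1] (t [0, 1, 3, 4, 7, 7] (f [0, 3] (b (f [0, 2, 8] (b (t
  [0, 5, 6, 9] (t [0, 6] (b (l (n 1 5 (n 4 6 (n 2 4 e (n 2 3 (n 6 2 e e) e)) e) (n 2 6 e (n 3 6 (n 6
  4 (n 1 4 e (n 2 4 (n 4 4 (n 5 2 (n 2 7 (n 5 7 (n 6 7 e (n 1 6 (n 3 3 e e) (n 3 3 e (n 1 3 e (n 1 7
  e e))))) (n 3 3 e (n 1 3 e (n 1 6 e e)))) e) e) e) e)) e) (n 1 3 e (n 1 4 e (n 2 4 e (n 2 3 (n 4 7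
  e (n 5 2 e (n 5 4 e (n 1 6 (n 5 7 (n 3 3 e e) e) e)))) e)))))))) z))) (t [0, 5, 6, 9] (t [0, 6] (b
  (l (n 1 5 (n 2 4 e (n 4 6 (n 6 2 (n 6 3 e (n 3 2 e (n 3 6 e (n 4 7 e (n 6 5 e (n 1 2 (n 5 2 (n 2 7
  e e) e) e)))))) e) e)) (n 2 4 e (n 6 4 (n 2 3 e (n 1 3 e (n 4 1 (n 3 2 e (n 5 3 (n 4 7 (n 6 7 e (n
  1 6 (n 7 3 e (n 2 7 (n 7 2 e (n 3 3 (n 5 5 e e) e)) e)) (n 3 7 (n 7 2 e (n 7 2 e (n 1 7 (n 3 3 (n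
  5 5 e e) e) (n 1 2 (n 3 3 (n 5 5 e e) e) (n 1 2 (n 3 3 (n 5 5 e e) e) (n 3 1 e e)))))) e))) e) (n
  4 7 (n 5 2 (n 3 3 e (n 6 7 e (n 1 6 (n 7 5 e (n 2 7 (n 2 7 e e) e)) (n 7 5 e (n 2 7 (n 2 7 (n 1 5
  e (n 7 1 (n 2 1 (n 1 2 e e) e) e)) e) e))))) (n 2 5 (n 5 4 (n 6 7 e (n 3 3 e (n 1 6 e (n 1 7 e
  e)))) e) (n 3 3 e (n 6 7 e (n 1 7 (n 1 2 (n 7 2 e e) e) (n 7 2 e (n 1 6 e e))))))) (n 5 4 e (n 1 6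
  (n 5 2 e (n 2 5 (n 5 7 (n 3 3 e e) e) e)) e))))) e))) (n 2 3 e (n 3 6 (n 3 2 e (n 6 2 (n 5 2 (n 4
  7 e (n 2 7 (n 3 3 e (n 1 3 e (n 1 4 e (n 1 5 e (n 1 6 e (n 7 1 (n 2 1 (n 1 2 e e) e) e)))))) e))
  e) e)) (n 1 3 e (n 3 2 (n 6 2 e (n 5 3 (n 4 7 e (n 7 2 e (n 1 4 (n 5 7 (n 3 7 (n 3 7 e e) e) e) (n
  1 6 (n 5 7 (n 3 7 (n 3 7 e e) e) e) (n 1 2 (n 5 7 (n 3 7 (n 3 7 e e) e) e) (n 1 2 (n 5 7 (n 3 7 (n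
  3 7 e e) e) e) (n 5 7 (n 3 7 (n 3 7 (n 5 1 (n 7 1 (n 3 1 (n 1 3 e e) e) e) e) e) e) e))))))) (n 4
  7 e (n 3 5 (n 5 2 (n 2 7 (n 1 4 e (n 1 5 e (n 1 6 e (n 7 1 (n 2 1 (n 1 2 e e) e) e)))) e) e) (n 7
  2 e (n 1 7 (n 1 3 (n 3 7 e e) e) (n 3 7 (n 1 4 e (n 1 6 e (n 1 2 e (n 1 2 e e)))) e))))))) (n 5 2
  (n 1 4 (n 1 7 (n 4 7 e (n 1 3 (n 7 3 e (n 7 5 e (n 2 7 (n 2 7 e e) e))) (n 1 5 (n 7 5 e (n 2 7 (n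
  2 7 e e) e)) (n 1 2 (n 1 7 (n 2 7 (n 2 7 e e) e) e) (n 2 1 e (n 2 7 e e)))))) (n 7 3 e (n 7 5 e (n
  2 7 (n 2 7 e e) e)))) (n 4 7 e (n 1 6 (n 7 3 e (n 7 5 e (n 2 7 (n 2 7 e e) e))) e))) (n 4 7 e (n 5
  2 (n 7 2 e (n 3 7 (n 1 2 e (n 1 3 e (n 1 4 e (n 6 1 (n 1 7 e e) e)))) e)) (n 5 3 (n 1 7 (n 1 3 (n
  3 7 e e) e) (n 3 7 (n 1 4 e (n 1 6 e e)) e)) e)))))))))))) z))))) (t [0, 1] (f [0, 2, 8] (b (t [0,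
  2, 5, 9] (t [0, 2] (b (l (n 1 3 e (n 1 4 e (n 1 5 e (n 2 4 e (n 2 3 (n 2 6 (n 6 4 (n 5 4 (n 4 7 (n
  3 3 (n 5 7 (n 6 7 e (n 2 2 e e)) (n 2 2 e e)) e) e) e) e) (n 4 7 e (n 5 2 e (n 5 4 e (n 5 7 (n 3 3
  e e) e))))) e)))))) z))) (t [0, 2, 5, 9] (t [0, 2] (b (l (n 1 3 e (n 1 4 e (n 1 5 e (n 2 4 e (n 2
  6 (n 2 3 e (n 3 2 e (n 6 4 (n 4 7 (n 6 7 e (n 5 4 (n 3 3 e e) e)) (n 5 4 e (n 5 7 (n 3 3 e e) e)))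
  e))) (n 4 7 e (n 3 6 (n 3 2 e (n 3 6 e (n 5 2 e (n 5 4 e (n 5 7 e e))))) (n 5 2 e (n 2 3 e (n 5 4
  e (n 5 7 (n 3 2 (n 6 2 e e) e) e)))))))))))) z))))))))))) (t [0, 4] (b (t [0, 1, 4, 5, 8] (f [0,
  4] (b (b (t [0, 1] (t [0, 6, 7, 10] (t [0, 7] (t [0, 5] (l (n 2 3 (n 2 6 e (n 3 3 (n 1 2 e (n 5 2
  (n 1 4 e (n 1 5 e (n 4 7 e (n 1 6 (n 2 7 e e) e)))) e)) e)) e)))))) (t [0, 4] (t [0, 6, 7, 10] (t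
  [0, 7] (b (l (n 1 5 (n 2 3 e (n 3 6 (n 4 2 e (n 6 2 e e)) e)) (n 2 3 e (n 3 6 (n 4 2 e (n 6 2 (n 1
  2 e (n 1 4 e (n 5 2 (n 2 7 (n 3 1 (n 3 3 e (n 6 7 (n 1 6 (n 4 7 (n 7 5 e e) e) e) (n 1 6 e (n 1 7
  e e)))) (n 4 7 (n 5 7 (n 7 6 e e) e) e)) e) e))) e)) (n 1 3 e (n 1 4 e (n 5 3 (n 1 6 (n 4 7 e (n 7
  2 e (n 3 7 e e))) e) (n 4 2 e (n 5 2 (n 2 7 (n 1 6 (n 4 7 (n 7 5 e e) e) e) e) e))))))))) z)))))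
  (t [0, 1] (b (t [0, 1] (t [0, 2, 6, 10] (t [0, 2] (t [0, 5] (l (n 2 3 (n 6 2 (n 3 3 (n 1 2 e (n 2
  5 e (n 1 4 e (n 1 5 e (n 4 7 e (n 2 7 (n 6 1 e e) e)))))) e) e) e)))))) (t [0, 4] (t [0, 2, 6, 10]
  (t [0, 2] (b (l (n 1 3 e (n 1 4 e (n 1 5 e (n 2 3 e (n 4 2 e (n 3 6 (n 6 2 (n 5 2 (n 2 7 (n 3 3 e
  (n 4 7 (n 5 7 (n 7 6 e e) e) e)) e) e) e) (n 5 3 (n 7 2 e (n 4 7 e (n 3 7 e e))) (n 5 2 (n 2 7 (n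
  4 7 (n 7 5 e e) e) e) e))))))))) z))))))))) (t [0, 4, 5, 8] (f [0, 4] (b (t [0, 2] (t [0, 2] (t
  [0, 5, 6, 9] (t [0, 6] (t [0, 4] (l (n 3 2 e (n 2 6 e (n 1 2 e (n 5 2 (n 1 4 e (n 1 3 e (n 1 5 e
  (n 4 7 e (n 1 6 (n 2 7 e e) e))))) e)))))))))) (t [0, 1] (t [0, 2] (t [0, 2] (t [0, 1, 5, 9] (t
  [0, 1] (t [0, 4] (l (n 1 3 e (n 3 2 e (n 2 6 e (n 5 2 (n 1 4 e (n 1 5 e (n 4 7 e (n 2 7 e e))))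
  e))))))))))))))))))) (t [0, 3, 4] (t [0, 3, 4, 6] (b (t [0, 1, 4] (t [0, 1] (t [0, 1, 4] (f [0, 2]
  (b (f [0, 2, 8] (b (t [0, 6] (t [0, 6] (b (l (n 1 5 (n 6 2 (n 6 4 e (n 6 3 e e)) e) (n 6 2 (n 2 5
  (n 6 4 (n 2 4 e (n 1 3 e (n 2 3 (n 4 1 (n 1 6 (n 3 3 (n 2 2 e (n 1 7 (n 4 7 (n 6 7 e e) e) e)) e)
  e) e) e))) (n 6 3 (n 3 1 (n 2 3 (n 4 7 e (n 3 3 (n 6 1 (n 1 4 (n 2 2 (n 6 6 e e) e) (n 1 7 (n 2 2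
  (n 6 6 e e) e) (n 1 1 (n 2 2 (n 6 6 e e) e) e))) e) e)) e) e) e)) e) e))) z))) (t [0, 6] (t [0, 6]
  (b (l (n 1 5 (n 2 4 e (n 6 4 e (n 6 2 (n 6 3 e (n 3 2 e (n 3 6 e (n 5 6 (n 4 7 e (n 1 2 (n 2 5 e
  e) e)) e)))) e))) (n 2 4 e (n 6 4 (n 5 2 e (n 4 5 (n 2 3 e (n 1 3 e (n 3 2 e (n 4 1 (n 6 7 (n 4 7
  e (n 1 6 (n 3 3 e e) e)) (n 3 3 e (n 1 6 e (n 1 7 e e)))) e)))) e)) (n 6 2 (n 2 5 (n 6 3 (n 2 3 e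
  (n 3 1 (n 4 7 e (n 3 2 (n 6 2 e (n 6 6 e (n 1 2 e (n 1 4 e (n 1 6 e (n 1 7 e (n 1 1 e e))))))) (n
  1 4 (n 3 3 (n 6 6 e e) e) (n 1 7 (n 3 3 (n 6 6 e e) e) (n 6 6 (n 1 1 (n 3 3 e e) e) (n 1 6 e (n 1
  1 e e))))))) e)) (n 3 2 e (n 3 6 e (n 4 7 e (n 1 2 e (n 1 3 e (n 1 4 e (n 1 6 e (n 1 7 e
  e))))))))) e) e))))) z))))) (t [0, 1] (f [0, 2, 8] (b (t [0, 2] (t [0, 2] (b (l (n 1 3 e (n 1 4 e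
  (n 1 5 e (n 2 4 e (n 2 3 (n 6 2 (n 5 2 e (n 4 5 (n 3 3 (n 4 7 e (n 2 2 (n 6 6 e e) e)) e) e)) (n 6
  4 (n 4 5 (n 3 3 (n 2 2 e (n 4 7 (n 6 7 e e) e)) e) e) e)) e)))))) z))) (t [0, 2] (t [0, 2] (b (l
  (n 1 3 e (n 1 4 e (n 1 5 e (n 2 4 e (n 6 4 (n 5 2 e (n 4 5 (n 2 3 e (n 3 2 e (n 3 3 e (n 4 7 (n 6
  7 e e) e)))) e)) (n 4 7 e (n 6 2 (n 2 5 (n 2 3 (n 6 3 e (n 2 6 (n 3 6 e (n 3 3 e e)) (n 2 2 (n 3 3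
  e e) e))) (n 3 2 e (n 3 6 e e))) e) e)))))))) z))))))))))) (t [0, 4] (b (t [0, 1, 5, 8] (f [0, 3]
  (b (b (t [0, 1] (t [0, 7] (t [0, 7] (b (l (n 2 3 (n 6 2 (n 2 5 (n 3 3 (n 1 4 e (n 4 7 e (n 1 5 e
  (n 2 1 (n 2 1 (n 6 1 (n 1 1 (n 2 2 (n 6 6 e e) e) e) e) e) e)))) e) e) e) e)) z)))) (t [0, 4] (t
  [0, 7, 10] (t [0, 7] (b (l (n 2 3 e (n 6 3 (n 4 2 e (n 2 5 (n 1 3 e (n 1 4 e (n 1 5 e (n 5 3 e (n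
  2 1 (n 2 1 (n 1 6 (n 7 2 (n 1 1 (n 3 3 (n 6 6 e e) e) e) (n 7 4 (n 4 4 e (n 1 1 (n 3 3 (n 6 6 e e)
  e) e)) e)) e) e) e))))) e)) (n 4 2 e (n 6 2 (n 1 2 e (n 1 4 e (n 5 1 (n 2 5 (n 1 6 (n 3 3 e (n 1 7
  (n 2 7 (n 4 7 (n 7 6 e e) e) e) e)) (n 1 3 (n 2 7 (n 7 4 (n 1 1 (n 3 3 e e) e) (n 6 7 e (n 1 1 (n
  3 3 e e) e))) (n 1 1 (n 3 3 e e) e)) e)) e) e))) e))))) z))))) (t [0, 1] (b (t [0, 1] (t [0, 2] (t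
  [0, 2] (b (l (n 2 3 (n 6 2 (n 3 3 (n 1 2 e (n 1 4 e (n 1 5 e (n 2 5 (n 4 7 e (n 6 1 (n 2 2 (n 6 6
  e e) e) e)) e)))) e) e) e)) z)))) (t [0, 4] (t [0, 2] (t [0, 2] (b (l (n 1 3 e (n 1 4 e (n 1 5 e
  (n 2 3 e (n 4 2 e (n 6 2 (n 5 2 e (n 3 5 (n 3 3 e (n 2 7 (n 4 7 (n 7 6 e e) e) e)) e)) (n 6 3 (n 3
  5 (n 2 7 (n 7 4 (n 3 3 (n 6 6 e e) e) e) (n 3 3 (n 6 6 e e) e)) e) e)))))))) z))))))))) (t [0, 5]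
  (f [0, 3] (b (t [0, 2] (t [0, 2] (t [0, 6] (t [0, 6] (b (l (n 3 2 e (n 6 2 (n 1 5 e (n 2 5 (n 1 4
  e (n 1 2 e (n 3 1 (n 4 7 e (n 6 1 (n 1 1 (n 2 2 (n 6 6 e e) e) e) e)) e))) e)) e))) z))))) (t [0,
  1] (t [0, 2] (t [0, 2] (t [0, 1] (t [0, 1] (b (l (n 3 2 e (n 6 2 (n 1 5 e (n 2 5 (n 1 4 e (n 1 2 e
  (n 1 3 e (n 4 7 e (n 6 6 (n 2 2 e e) (n 1 6 e e)))))) e)) e))) z))))))))))))))))) z) (b (t [0, 1]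
  (f [0, 2] (f [0, 2] (t [0, 1] (t [0, 1] (b (t [0, 1, 2] (t [0, 1] (t [0, 1, 2] (f [0, 3] (b (f [0,
  2, 6] (b (t [0, 4] (t [0, 4] (b (l (n 2 4 e (n 2 3 (n 3 3 (n 1 5 e (n 6 2 e (n 6 4 e (n 4 7 e (n 2
  2 e (n 1 2 e (n 1 4 e (n 1 7 e (n 1 1 e e))))))))) e) e))) z))) (t [0, 4] (t [0, 4] (b (l (n 6 2 e
  (n 2 4 e (n 2 3 e (n 3 2 e (n 4 7 e (n 3 3 e (n 1 5 (n 5 2 e e) (n 1 2 e (n 1 3 e (n 1 4 e (n 1 7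
  e (n 1 1 e e))))))))))))) z))))) (t [0, 1] (f [0, 2, 6] (b (t [0, 2] (t [0, 2] (b (l (n 2 4 e (n 2
  3 (n 3 3 (n 1 5 e (n 1 2 e (n 1 4 e (n 6 2 e (n 6 4 e (n 4 7 e (n 2 2 e e))))))) e) e))) z))) (t
  [0, 1, 2] (t [0, 1, 2] (b (l (n 2 4 e (n 1 5 e (n 6 2 e (n 2 3 e (n 6 4 e (n 1 3 e (n 3 2 e (n 1 4
  e (n 4 7 e (n 3 3 e e))))))))))) z))))))))))) (t [0, 2] (b (t [0, 1, 3, 6] (f [0, 4] (b (b (t [0,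
  1] (t [0, 5] (t [0, 5] (b (l (n 2 3 (n 3 3 (n 6 2 e (n 1 4 e (n 1 5 e (n 4 7 e (n 1 2 (n 1 1 (n 2
  2 e e) e) e))))) e) e)) z)))) (t [0, 4] (t [0, 5, 8] (t [0, 5] (b (l (n 2 3 e (n 4 2 e (n 1 4 e (n
  1 5 e (n 6 2 e (n 6 3 e (n 3 3 e (n 1 3 (n 2 7 (n 7 4 e e) e) (n 4 7 (n 7 2 (n 1 2 e (n 1 7 e e))
  e) (n 1 2 e (n 1 1 e e)))))))))))) z))))) (t [0, 1] (b (t [0, 1] (t [0, 2] (t [0, 2] (b (l (n 2 3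
  (n 3 3 (n 6 2 e (n 1 4 e (n 1 5 e (n 1 2 e (n 4 7 e (n 2 2 e e)))))) e) e)) z)))) (t [0, 4] (t [0,
  2] (t [0, 1, 2] (b (l (n 6 2 e (n 2 3 e (n 1 4 e (n 4 2 e (n 1 5 e (n 1 3 e (n 3 3 e (n 2 7 (n 7 4
  e e) e))))))))) z))))))))) (t [0, 3] (f [0, 4] (b (t [0, 2] (t [0, 2] (t [0, 4] (t [0, 4] (b (l (n
  3 2 e (n 6 2 e (n 1 3 e (n 1 4 e (n 1 5 e (n 4 7 e (n 1 2 (n 1 1 (n 2 2 e e) e) e)))))))) z)))))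
  (t [0, 1] (t [0, 2] (t [0, 2] (t [0, 1] (t [0, 1] (b (l (n 1 3 e (n 3 2 e (n 1 4 e (n 1 5 e (n 4 7
  e (n 6 2 e (n 2 2 e e)))))))) z))))))))))))))))) z)) z) z)

set_option maxRecDepth 100000 in
theorem f15B : chkQ 7 4 10897286400000 t15B
    (blks.getD 15 ⟨0, 0, 0, 0, 0, .zr, .zr⟩).B = some [-3546915372000, -170270100000, 0] := by
  decide +kernel

end Pool.Agent.TH32
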