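import Pool.Agent.TH32.H.Fast

set_option autoImplicit false

namespace Pool.Agent.TH32

open CT PT

set_option maxRecDepth 100000 in
/-- certificate for block 16 (Ld1R5), tree B -/
def t16B : PT :=
  (b (b (b (t [0, 1] (b (t [0, 1] (b (t [0, 1] (b (b (t [0, 2] (t [0, 1] (t [0, 4] (b (b (f [0, 4]
  (b (t [0, 1, 4] (t [0, 1, 4] (t [0, 1, 7] (l (n 2 4 e (n 2 3 (n 6 2 (n 3 3 (n 1 4 e (n 2 5 e (n 2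
  2 (n 1 5 e (n 1 5 e (n 1 6 e e))) e))) e) e) e)))))) (t [0, 2, 8] (t [0, 2, 8] (b (l (n 2 4 e (n 1
  4 (n 6 2 (n 6 3 e (n 3 2 e (n 2 5 e (n 3 6 e (n 6 4 e (n 2 2 (n 5 6 e e) e)))))) e) (n 2 6 e (n 2
  5 (n 5 5 (n 3 6 (n 3 2 e (n 3 6 e (n 1 2 (n 6 2 e e) (n 1 2 e (n 1 3 e (n 1 6 e e)))))) (n 1 3 e
  (n 1 2 e (n 2 3 e (n 6 2 (n 3 2 e (n 1 6 e e)) (n 1 2 e (n 1 6 e e))))))) e) e))))) z))))) (f [0,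
  4] (b (t [0, 1, 4] (t [0, 1, 4] (t [0, 1] (l (n 2 4 e (n 2 3 (n 6 2 (n 3 3 (n 1 4 e (n 2 1 (n 2 1
  (n 2 5 e (n 2 2 e (n 6 1 e (n 2 6 e e)))) e) e)) e) e) e)))))) (b (t [0, 1] (b (l (n 2 4 e (n 1 4
  (n 6 2 (n 6 3 e (n 4 6 (n 3 6 e (n 2 6 (n 2 3 (n 2 5 e (n 3 4 e (n 2 3 (n 2 2 e e) e))) e) e)) e))
  e) (n 2 3 e (n 3 6 (n 3 2 e (n 6 2 (n 1 2 (n 6 2 e (n 1 5 (n 2 5 e (n 3 2 e (n 3 3 e e))) (n 3 1 e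
  (n 3 2 e e)))) (n 2 5 e (n 3 1 (n 3 2 e (n 3 3 e (n 1 5 e (n 1 6 e e)))) (n 1 2 (n 3 2 e e) e))))
  e)) (n 1 3 e (n 1 3 e (n 1 2 e (n 5 2 (n 6 2 e (n 6 5 e (n 1 5 (n 3 6 (n 3 2 (n 2 6 e e) e) (n 2 6
  (n 3 5 e e) e)) (n 1 6 (n 6 2 (n 2 1 (n 3 6 e e) e) (n 3 2 e (n 3 6 e e))) e)))) (n 3 5 e (n 6 2
  (n 5 2 e (n 6 1 e (n 3 6 e e))) (n 2 1 (n 1 6 (n 3 6 e e) e) (n 3 2 e (n 3 6 e e)))))))))))))) z))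
  z)))) (b (f [0, 4] (b (t [0, 2] (t [0, 2] (t [0, 1, 7] (l (n 1 3 e (n 1 4 e (n 2 4 e (n 2 3 (n 2 6
  e (n 2 1 (n 5 2 (n 3 3 (n 1 1 (n 2 2 e e) e) e) e) e)) e)))))))) (t [0, 2] (t [0, 2] (b (l (n 1 3
  e (n 1 4 e (n 2 4 e (n 2 6 e (n 2 1 (n 3 2 (n 3 5 (n 3 2 e (n 5 2 (n 3 6 e (n 1 1 (n 2 2 e e) e))
  e)) (n 3 2 (n 5 2 e (n 6 5 e e)) (n 3 6 (n 6 5 e e) e))) (n 6 3 e (n 2 6 (n 5 2 (n 3 6 e (n 1 1 (n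
  2 2 e e) e)) e) (n 2 5 (n 5 6 e (n 1 5 e (n 5 5 e e))) e)))) e)))))) z))))) (f [0, 4] (b (t [0, 1,
  4] (t [0, 1, 4] (t [0, 1, 3] (l (n 1 3 e (n 1 4 e (n 2 4 e (n 2 3 (n 2 6 e (n 2 1 e (n 1 5 e (n 6
  2 e (n 3 3 e e))))) e)))))))) (b (t [0, 1] (b (l (n 1 3 e (n 1 4 e (n 2 4 e (n 2 6 e (n 2 1 e (n 1
  5 e (n 3 6 (n 3 2 e (n 3 1 e (n 3 5 e (n 3 6 e (n 3 2 e e))))) (n 6 2 e (n 3 1 (n 3 1 (n 6 1 e (n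
  6 5 e (n 2 6 e e))) (n 3 5 (n 6 5 e (n 2 6 e e)) (n 3 2 (n 2 6 e e) e))) (n 3 5 (n 1 5 (n 3 5 (n 5
  6 (n 2 6 e e) e) (n 2 3 e (n 2 6 e e))) (n 1 2 (n 2 3 e (n 2 6 e e)) e)) (n 2 3 e (n 1 2 (n 2 3 e
  (n 5 2 (n 2 6 e e) e)) e))))))))))))) z)) z)))))))) z) (b (b (t [0, 1, 2] (t [0, 5] (b (b (b (t
  [0, 1] (t [0, 5] (t [0, 5] (t [0, 8] (l (n 2 3 (n 6 2 (n 3 3 (n 2 1 (n 2 1 (n 2 4 e (n 2 5 e (n 2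
  2 (n 1 6 e e) e))) e) e) e) e) e)))))) (t [0, 6] (t [0, 5] (t [0, 5] (t [0, 6, 8] (l (n 2 3 e (n 4
  2 e (n 6 3 (n 1 2 e (n 3 1 (n 3 1 (n 3 4 e (n 3 5 e (n 3 3 (n 1 6 e e) e))) e) e)) e))))))))) (b
  (t [0, 1] (t [0, 5] (t [0, 5] (l (n 2 3 (n 6 2 (n 3 3 (n 2 1 (n 2 1 (n 2 4 e (n 2 5 e (n 2 2 e (n
  6 1 e (n 2 6 e e))))) e) e) e) e) e))))) (t [0, 6] (t [0, 5] (t [0, 5] (t [0, 6] (l (n 2 3 e (n 4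
  2 e (n 6 3 (n 1 2 e (n 3 1 (n 3 1 (n 3 4 e (n 3 5 e (n 3 3 e (n 6 1 e (n 3 6 e e))))) e) e))
  e)))))))))) (b (b (t [0, 1] (t [0, 2] (t [0, 2] (t [0, 8] (l (n 1 3 e (n 2 3 (n 2 6 e (n 2 1 (n 2
  4 e (n 5 2 (n 3 3 (n 1 1 (n 2 2 e e) e) e) e)) e)) e))))))) (t [0, 6] (t [0, 2] (t [0, 2] (t [0,
  6, 8] (l (n 1 3 e (n 1 5 e (n 1 4 e (n 2 4 e (n 3 2 e (n 2 6 e (n 4 3 e (n 5 2 (n 2 1 e (n 2 2 e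
  e)) e)))))))))))))) (b (t [0, 1] (t [0, 5] (t [0, 5] (t [0, 3] (l (n 1 3 e (n 2 3 (n 2 6 e (n 2 1
  e (n 1 4 e (n 1 5 e (n 6 2 e (n 3 3 e e)))))) e))))))) (t [0, 6] (t [0, 5] (t [0, 5] (t [0, 3, 6]
  (l (n 1 3 e (n 1 5 e (n 1 4 e (n 2 4 e (n 3 2 e (n 2 6 e (n 4 3 e (n 2 5 e (n 2 1 e (n 6 2 e
  e)))))))))))))))))))) (t [0, 2] (t [0, 5] (b (b (t [0, 3] (t [0, 3] (t [0, 4] (t [0, 4] (t [0, 7]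
  (l (n 3 2 e (n 6 2 (n 1 3 e (n 2 1 (n 2 1 (n 2 4 e (n 2 5 e (n 2 2 (n 1 6 e e) e))) e) e))
  e)))))))) (t [0, 3] (t [0, 3] (t [0, 4] (t [0, 4] (l (n 3 2 e (n 6 2 (n 1 3 e (n 2 1 (n 2 1 (n 2 4
  e (n 2 5 e (n 2 2 e (n 6 1 e (n 2 6 e e))))) e) e)) e)))))))) (b (t [0, 3] (t [0, 3] (t [0, 1] (t
  [0, 1] (t [0, 7] (l (n 1 3 e (n 3 2 e (n 2 6 e (n 2 1 (n 2 4 e (n 5 2 (n 1 1 (n 2 2 e e) e) e))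
  e)))))))))) (t [0, 3] (t [0, 3] (t [0, 4] (t [0, 4] (t [0, 2] (l (n 1 3 e (n 3 2 e (n 2 6 e (n 2 1
  e (n 6 2 e (n 1 4 e (n 1 5 e e)))))))))))))))))) z))) z)) (b (t [0, 3] (t [0, 3] (b (t [0, 1, 4]
  (t [0, 1] (t [0, 1, 3, 4] (f [0, 3] (b (f [0, 2] (b (t [0, 5, 6] (t [0, 6] (b (l (n 2 4 e (n 2 3
  (n 3 3 (n 2 6 (n 6 4 (n 1 4 e (n 1 5 e (n 5 4 (n 2 2 e (n 1 2 e (n 1 6 e e))) e))) e) (n 1 2 e (n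
  1 4 e (n 1 5 e (n 5 2 e (n 1 6 (n 5 4 e e) e)))))) e) e))) z))) (t [0, 5, 6] (t [0, 6] (b (l (n 4
  2 (n 2 6 (n 2 3 e (n 3 2 e (n 4 6 e (n 1 4 (n 2 4 e (n 2 5 e (n 1 5 (n 5 4 e e) e))) (n 5 4 (n 1 5
  (n 2 5 e e) (n 1 3 (n 2 2 e e) (n 1 2 (n 1 1 (n 2 2 e e) e) (n 1 6 (n 2 2 e e) e)))) e))))) (n 6 3
  (n 1 5 e (n 2 5 (n 2 3 e (n 1 3 e (n 4 1 (n 5 4 (n 6 2 (n 3 2 e (n 1 6 (n 3 3 e e) e)) (n 1 2 (n 3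
  3 (n 6 6 e e) e) (n 6 6 (n 1 1 (n 3 3 e e) e) (n 1 6 e (n 1 1 e e))))) e) e))) e)) (n 3 2 e (n 3 6
  e (n 1 5 (n 6 5 e (n 4 6 (n 1 2 (n 2 5 (n 5 4 e e) e) (n 4 1 e (n 5 4 e e))) e)) (n 2 5 (n 1 4 (n
  4 6 (n 1 5 (n 5 4 e e) e) e) (n 5 4 (n 1 2 e (n 1 3 e (n 1 6 e e))) e)) e)))))) e)) z))))) (t [0,
  1] (f [0, 2] (b (t [0, 2, 5] (t [0, 2] (b (l (n 1 3 e (n 1 4 e (n 1 5 e (n 2 4 e (n 2 3 (n 2 6 (n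
  6 4 (n 5 4 (n 3 3 (n 2 2 e e) e) e) e) (n 5 2 e (n 5 4 (n 3 3 e e) e))) e)))))) z))) (t [0, 2, 5]
  (t [0, 2] (b (l (n 1 3 e (n 1 4 e (n 1 5 e (n 2 4 e (n 3 2 (n 3 6 (n 3 2 e (n 2 6 (n 6 4 (n 5 4 (n
  2 2 e e) e) e) (n 5 2 e (n 5 4 e e)))) (n 5 2 e (n 3 5 (n 5 4 (n 2 2 e (n 3 2 (n 6 2 e e) e)) e)
  e))) e)))))) z))))))))))) (t [0, 4] (b (t [0, 1, 4, 5] (f [0, 4] (b (b (t [0, 1] (t [0, 6, 7] (t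
  [0, 7] (t [0, 5] (l (n 2 3 (n 2 6 e (n 3 3 (n 1 2 e (n 5 2 (n 1 4 e (n 1 5 e (n 1 6 (n 2 4 e e)
  e))) e)) e)) e)))))) (t [0, 4] (t [0, 6, 7] (t [0, 7] (b (l (n 2 3 e (n 3 6 (n 4 2 e (n 6 2 (n 1 2
  e (n 5 2 (n 1 4 e (n 1 5 e (n 3 3 e (n 1 3 e (n 1 6 e e))))) e)) e)) (n 1 4 e (n 4 2 e (n 1 3 e (n
  1 5 e (n 1 6 (n 5 3 (n 3 4 e e) (n 5 2 e e)) e)))))))) z))))) (t [0, 1] (b (t [0, 1] (t [0, 2, 6]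
  (t [0, 2] (t [0, 5] (l (n 2 3 (n 6 2 (n 3 3 (n 1 2 e (n 2 5 e (n 1 4 e (n 1 5 e (n 2 4 (n 6 1 e e)
  e))))) e) e) e)))))) (t [0, 4] (t [0, 2, 6] (t [0, 2] (b (l (n 1 3 e (n 1 4 e (n 1 5 e (n 2 3 e (n
  4 2 e (n 3 6 (n 6 2 (n 5 2 (n 3 3 e e) e) e) (n 5 3 (n 3 4 e e) (n 5 2 e e))))))))) z))))))))) (t
  [0, 4, 5] (f [0, 4] (b (t [0, 2] (t [0, 2] (t [0, 5, 6] (t [0, 6] (t [0, 4] (l (n 3 2 e (n 6 2 (n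
  1 2 e (n 2 5 e (n 1 3 e (n 1 4 e (n 5 1 (n 1 6 (n 2 4 e e) e) e))))) e)))))))) (t [0, 1] (t [0, 2]
  (t [0, 2] (t [0, 1, 5] (t [0, 1] (t [0, 4] (l (n 1 3 e (n 3 2 e (n 2 6 e (n 5 2 (n 1 4 e (n 1 5 e
  (n 2 4 e e))) e))))))))))))))))))) (t [0, 3, 4] (t [0, 3, 4] (b (t [0, 1, 4] (t [0, 1] (t [0, 1,
  4] (f [0, 2] (b (f [0, 2] (b (t [0, 6] (t [0, 6] (b (l (n 2 4 e (n 2 3 (n 6 2 (n 3 3 (n 1 5 e (n 5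
  2 e (n 1 2 e (n 4 1 (n 1 6 (n 4 5 (n 1 1 (n 2 2 (n 6 6 e e) e) e) e) e) e)))) e) (n 6 4 (n 3 3 (n
  1 4 e (n 5 1 (n 4 5 (n 1 6 (n 2 2 e e) (n 2 1 (n 1 1 (n 2 2 e e) e) e)) e) e)) e) e)) e))) z))) (t
  [0, 6] (t [0, 6] (b (l (n 2 4 e (n 1 5 (n 6 4 e (n 6 2 (n 6 3 e (n 3 2 e (n 3 6 e (n 5 6 (n 1 2 (n
  2 5 e e) e) e)))) e)) (n 6 4 (n 5 2 e (n 2 3 e (n 1 3 e (n 4 1 (n 3 2 e (n 1 6 (n 4 5 (n 3 3 e e)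
  e) e)) e)))) (n 6 2 (n 2 5 (n 6 3 (n 2 3 e (n 3 1 (n 3 2 (n 6 1 (n 2 6 (n 6 6 e (n 6 6 e (n 1 4 e
  (n 1 1 e e)))) e) (n 1 2 (n 6 2 e e) e)) (n 1 4 (n 3 3 (n 6 6 e e) e) (n 6 6 (n 1 1 (n 3 3 e e) e)
  (n 1 6 e (n 1 1 e e))))) e)) (n 3 2 e (n 3 6 e (n 1 2 e (n 1 3 e (n 1 4 e (n 1 6 e e))))))) e)
  e))))) z))))) (t [0, 1] (f [0, 2] (b (t [0, 2] (t [0, 2] (b (l (n 1 3 e (n 1 4 e (n 1 5 e (n 2 4 e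
  (n 2 3 (n 6 2 (n 5 2 e (n 4 5 (n 3 3 (n 2 2 (n 6 6 e e) e) e) e)) (n 6 4 (n 4 5 (n 3 3 (n 2 2 e e)
  e) e) e)) e)))))) z))) (t [0, 2] (t [0, 2] (b (l (n 1 3 e (n 1 4 e (n 1 5 e (n 6 2 (n 2 5 (n 2 3
  (n 6 4 e (n 3 6 (n 2 6 (n 3 6 e (n 2 2 (n 6 6 e e) e)) (n 6 6 e e)) e)) (n 2 4 (n 6 4 e (n 3 6 e
  (n 3 3 e e))) (n 3 2 e (n 3 6 e e)))) e) e))))) z))))))))))) (t [0, 4] (b (t [0, 1, 5] (f [0, 3]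
  (b (b (t [0, 1] (t [0, 7] (t [0, 7] (b (l (n 2 3 (n 6 2 (n 2 5 (n 3 3 (n 1 4 e (n 1 5 e (n 2 1 (n
  2 1 (n 6 1 (n 1 1 (n 2 2 (n 6 6 e e) e) e) e) e) e))) e) e) e) e)) z)))) (t [0, 4] (t [0, 7] (t
  [0, 7] (b (l (n 2 3 e (n 4 2 e (n 6 3 (n 1 5 e (n 5 3 e (n 2 5 (n 1 2 e (n 1 3 e (n 4 1 (n 6 1 (n
  1 1 (n 3 3 (n 6 6 e e) e) e) e) e))) e))) (n 6 2 (n 1 5 e (n 1 2 e (n 4 1 (n 2 5 (n 1 6 (n 3 3 e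
  e) (n 3 1 (n 1 1 (n 3 3 e e) e) e)) e) e))) e))))) z))))) (t [0, 1] (b (t [0, 1] (t [0, 2] (t [0,
  2] (b (l (n 2 3 (n 6 2 (n 3 3 (n 1 2 e (n 1 4 e (n 1 5 e (n 2 5 (n 6 1 (n 2 2 (n 6 6 e e) e) e)
  e)))) e) e) e)) z)))) (t [0, 4] (t [0, 2] (t [0, 2] (b (l (n 1 3 e (n 1 4 e (n 2 3 e (n 4 2 e (n 1
  5 e (n 6 3 (n 5 3 e (n 2 5 (n 3 3 (n 6 6 e e) e) e)) (n 6 2 (n 2 5 (n 3 3 e e) e) e))))))))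
  z))))))))) (t [0, 5] (f [0, 3] (b (t [0, 2] (t [0, 2] (t [0, 6] (t [0, 6] (b (l (n 3 2 e (n 6 2 (n
  1 5 e (n 2 5 (n 1 2 e (n 1 3 e (n 4 1 (n 6 1 (n 1 1 (n 2 2 (n 6 6 e e) e) e) e) e))) e)) e)))
  z))))) (t [0, 1] (t [0, 2] (t [0, 2] (t [0, 1] (t [0, 1] (b (l (n 3 2 e (n 6 2 (n 1 5 e (n 2 5 (n
  1 2 e (n 1 3 e (n 1 4 e (n 6 6 (n 2 2 e e) (n 1 6 e e))))) e)) e))) z))))))))))))))))) z) (b (t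
  [0, 1] (f [0, 2] (f [0, 2] (t [0, 1] (t [0, 1] (b (t [0, 1, 2] (t [0, 1] (t [0, 1, 2] (f [0, 3] (b
  (f [0, 2] (b (t [0, 4] (t [0, 4] (b (l (n 2 4 e (n 2 3 (n 3 3 (n 1 5 e (n 6 2 e (n 6 4 e (n 2 2 e
  (n 1 2 e (n 1 4 e (n 1 1 e e))))))) e) e))) z))) (t [0, 4] (t [0, 4] (b (l (n 6 2 e (n 2 4 e (n 2
  3 e (n 3 2 e (n 3 3 e (n 1 5 (n 5 2 e e) (n 1 2 e (n 1 3 e (n 1 4 e (n 1 1 e e))))))))))) z)))))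
  (t [0, 1] (f [0, 2] (b (t [0, 2] (t [0, 2] (b (l (n 2 4 e (n 2 3 (n 3 3 (n 1 5 e (n 1 2 e (n 1 4 e
  (n 6 2 e (n 6 4 e (n 2 2 e e)))))) e) e))) z))) (t [0, 1, 2] (t [0, 1, 2] (b (l (n 2 4 e (n 1 5 e
  (n 6 2 e (n 2 3 e (n 6 4 e (n 1 3 e (n 3 2 e (n 1 4 e (n 3 3 e e)))))))))) z))))))))))) (t [0, 2]
  (b (t [0, 1, 3] (f [0, 4] (b (b (t [0, 1] (t [0, 5] (t [0, 5] (b (l (n 2 3 (n 3 3 (n 6 2 e (n 1 4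
  e (n 1 5 e (n 1 2 (n 1 1 (n 2 2 e e) e) e)))) e) e)) z)))) (t [0, 4] (t [0, 5] (t [0, 5] (b (l (n
  2 3 e (n 4 2 e (n 1 4 e (n 1 5 e (n 6 2 e (n 6 3 e (n 3 3 e (n 1 2 e (n 1 3 e (n 1 1 e
  e))))))))))) z))))) (t [0, 1] (b (t [0, 1] (t [0, 2] (t [0, 2] (b (l (n 2 3 (n 3 3 (n 6 2 e (n 1 4
  e (n 1 5 e (n 1 2 e (n 2 2 e e))))) e) e)) z)))) (t [0, 4] (t [0, 2] (t [0, 1, 2] (b (l (n 6 2 e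
  (n 2 3 e (n 1 4 e (n 4 2 e (n 1 5 e (n 1 3 e (n 3 3 e e)))))))) z))))))))) (t [0, 3] (f [0, 4] (b
  (t [0, 2] (t [0, 2] (t [0, 4] (t [0, 4] (b (l (n 3 2 e (n 6 2 e (n 1 3 e (n 1 4 e (n 1 5 e (n 1 2
  (n 1 1 (n 2 2 e e) e) e))))))) z))))) (t [0, 1] (t [0, 2] (t [0, 2] (t [0, 1] (t [0, 1] (b (l (n 1
  3 e (n 3 2 e (n 1 4 e (n 1 5 e (n 6 2 e (n 2 2 e e))))))) z))))))))))))))))) z)) z)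

set_option maxRecDepth 100000 in
theorem f16B : chkQ 6 3 10897286400000 t16B
    (blks.getD 16 ⟨0, 0, 0, 0, 0, .zr, .zr⟩).B = some [1418917500000, 170270100000, 0] := by
  decide +kernel

end Pool.Agent.TH32
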