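import Pool.Agent.TH32.H.Fast

set_option autoImplicit false

namespace Pool.Agent.TH32

open CT PT

set_option maxRecDepth 100000 in
/-- certificate for block 17 (Ld1R6), tree B -/
def t17B : PT :=
  (b (b (b (t [0, 1] (b (t [0, 1] (b (t [0, 1] (b (b (t [0, 2] (b (t [0, 5] (b (f [0, 6] (f [0, 4]
  (b (b (t [0, 1] (t [0, 2] (l (n 6 3 (n 2 6 e (n 1 3 e (n 2 1 (n 2 4 e (n 3 2 e (n 3 3 (n 2 5 e (n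
  6 1 e (n 2 6 (n 7 2 e e) e))) e))) e))) (n 2 3 e (n 2 4 e e)))))) z) (b (t [0, 1] (b (l (n 6 3 (n
  2 6 e (n 4 2 (n 1 4 e (n 3 1 (n 2 1 (n 2 3 e (n 5 2 (n 6 2 e (n 6 5 e (n 2 6 (n 3 2 (n 1 5 (n 2 7
  (n 3 7 (n 3 7 e e) e) e) (n 1 2 (n 1 7 (n 2 7 (n 3 7 (n 3 7 e e) e) e) e) (n 1 6 (n 2 7 (n 3 7 (n
  3 7 e e) e) e) e))) (n 3 5 (n 1 5 (n 3 7 (n 2 7 (n 7 2 e e) e) e) (n 1 6 (n 3 7 (n 2 7 (n 7 2 e e)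
  e) e) e)) (n 1 6 (n 3 6 (n 3 7 (n 5 7 (n 7 2 e (n 7 2 e e)) e) e) e) e))) e))) (n 3 5 e (n 6 2 (n
  5 2 e (n 3 6 (n 3 7 e (n 1 6 e e)) e)) (n 3 2 (n 3 7 e (n 1 2 e (n 1 6 e e))) (n 1 6 (n 3 6 (n 2 7
  (n 7 3 e e) e) e) e)))))) e) e)) e)) (n 2 3 e (n 2 4 e (n 1 4 (n 6 2 (n 3 6 e (n 4 6 (n 2 6 (n 2 3
  (n 2 5 e (n 3 2 e (n 2 7 e e))) e) e) e)) e) (n 3 2 e (n 6 2 (n 2 1 (n 2 5 e (n 3 2 e (n 2 7 e (n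
  1 2 e (n 1 3 e (n 1 5 e (n 1 6 e (n 1 7 e e)))))))) (n 2 6 (n 1 5 (n 5 2 (n 3 2 e (n 2 7 e e)) e)
  (n 3 1 e (n 3 2 e (n 1 7 (n 7 2 e e) e)))) e)) e))))))) z)) z)))) (b (f [0, 5] (b (t [0, 2] (t [0,
  2] (t [0, 1, 8] (l (n 1 3 e (n 1 4 e (n 2 4 e (n 2 3 (n 2 6 e (n 2 1 (n 3 3 (n 2 5 e (n 7 2 e e))
  e) e)) e)))))))) (t [0, 2] (t [0, 2] (b (l (n 1 3 e (n 1 4 e (n 2 4 e (n 2 6 e (n 2 1 (n 3 2 (n 3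
  5 (n 3 2 e (n 2 5 e (n 3 6 e (n 7 2 e e)))) (n 5 6 (n 3 2 e (n 6 3 (n 3 7 (n 6 7 (n 7 2 e (n 7 2 e
  e)) e) e) e)) (n 3 2 (n 2 5 (n 2 7 (n 3 7 (n 7 3 e e) e) e) e) (n 3 7 (n 7 2 e (n 7 2 e e)) e))))
  (n 6 3 e (n 2 5 e (n 2 6 (n 3 6 (n 6 5 (n 7 2 e e) e) (n 7 2 e e)) (n 7 2 e (n 7 6 e e))))))
  e)))))) z))))) (f [0, 5] (b (b (t [0, 1] (t [0, 2, 4] (l (n 1 3 e (n 1 4 e (n 2 4 e (n 2 3 (n 3 3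
  (n 2 6 e (n 2 1 e (n 6 2 e (n 1 5 e (n 7 1 e (n 7 2 e e)))))) e) e))))))) z) (b (t [0, 1] (b (l (n
  6 3 (n 2 6 e (n 1 3 e (n 2 1 (n 2 4 e (n 3 2 (n 3 5 (n 6 1 e (n 1 2 (n 3 2 e (n 2 5 (n 1 5 e (n 1
  6 e (n 3 3 e (n 7 1 e (n 7 6 e e))))) (n 3 3 e (n 1 6 (n 2 7 (n 2 6 e (n 7 1 e e)) (n 2 6 (n 6 7 e
  e) e)) (n 1 7 (n 7 2 e (n 7 6 e e)) e))))) (n 2 5 e (n 6 2 (n 2 7 (n 7 6 (n 2 2 e (n 1 1 (n 3 3 e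
  e) e)) e) (n 1 1 (n 3 3 e e) e)) e)))) (n 6 2 (n 6 1 e (n 3 2 (n 5 2 e (n 5 6 e (n 1 7 (n 2 7 (n 6
  7 (n 7 3 e (n 7 3 e e)) e) e) e))) (n 3 6 (n 5 6 e (n 1 7 (n 6 7 (n 2 7 (n 7 2 e (n 7 3 e (n 7 3 e
  e))) e) e) e)) (n 1 7 (n 3 7 (n 2 7 (n 7 2 e (n 7 6 e (n 7 6 e (n 7 7 e e)))) e) e) e)))) (n 1 6
  (n 3 2 (n 3 6 e (n 1 2 (n 5 2 e (n 1 7 (n 2 7 (n 3 7 (n 7 3 e (n 7 6 e (n 7 6 e e))) e) e) e)) (n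
  2 7 (n 3 7 (n 7 3 e (n 7 6 e (n 7 6 e e))) e) e))) (n 3 6 (n 6 2 (n 3 7 (n 2 7 (n 2 7 (n 7 6 e (n
  7 6 e e)) e) e) e) e) (n 3 7 (n 7 6 e (n 7 2 e (n 7 2 e e))) e))) (n 2 1 e (n 3 2 (n 5 2 (n 6 2 e
  (n 1 7 (n 2 7 (n 5 7 (n 7 3 e (n 7 3 e e)) e) e) e)) (n 1 7 (n 2 7 (n 7 3 e (n 7 3 e e)) e) e)) (n
  1 7 (n 7 3 e (n 7 2 e (n 7 2 e e))) e)))))) e)) e))) (n 2 3 e (n 1 4 e (n 2 4 e (n 1 5 e (n 1 3 e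
  (n 3 2 e (n 2 6 e (n 2 5 e (n 2 1 e (n 3 2 e (n 3 3 e (n 7 1 e (n 7 2 e e))))))))))))))) z))
  z)))))) z)) z) (b (b (b (t [0, 6] (b (f [0, 7] (b (t [0, 1] (t [0, 1, 3] (t [0, 1, 3] (l (n 2 3 (n
  3 3 (n 6 2 (n 2 1 (n 2 1 (n 2 4 e (n 2 5 e (n 2 6 (n 2 7 e (n 1 6 e e)) e))) e) e) e) e) e))))) (t
  [0, 6] (b (t [0, 1] (t [0, 7] (l (n 2 3 e (n 4 2 e (n 6 3 (n 1 2 e (n 3 1 (n 3 1 (n 3 4 e (n 3 5 e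
  (n 3 6 (n 3 7 e (n 1 6 e e)) e))) e) e)) e)))))) z)))) (b (b (t [0, 1] (t [0, 2] (t [0, 2] (t [0,
  9] (l (n 1 3 e (n 2 3 (n 2 6 e (n 2 1 (n 2 4 e (n 2 5 e (n 3 3 (n 7 2 e e) e))) e)) e))))))) (t
  [0, 7] (t [0, 2] (t [0, 2] (t [0, 7, 9] (l (n 1 3 e (n 1 5 e (n 1 4 e (n 2 4 e (n 3 2 e (n 4 3 e
  (n 2 6 e (n 2 5 e (n 2 1 (n 7 2 e e) e))))))))))))))) (b (t [0, 1] (t [0, 1, 4] (t [0, 1, 4] (t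
  [0, 3] (l (n 1 3 e (n 2 3 (n 2 6 e (n 2 1 e (n 6 2 e (n 1 4 e (n 1 5 e (n 3 3 (n 7 1 e (n 7 2 e
  e)) e)))))) e))))))) (t [0, 7] (b (t [0, 1] (t [0, 4, 8] (l (n 2 3 e (n 4 2 e (n 6 3 (n 1 2 e (n 3
  1 (n 3 1 (n 3 4 e (n 3 5 e (n 6 1 e (n 3 7 e (n 3 6 (n 7 6 e e) e))))) e) e)) e)))))) z)))))) z)
  (b (t [0, 6] (b (f [0, 7] (t [0, 3] (t [0, 3] (t [0, 2] (t [0, 2] (l (n 3 2 e (n 6 2 (n 1 3 e (n 2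
  1 (n 2 1 (n 2 4 e (n 2 5 e (n 2 6 (n 2 7 e (n 1 6 e e)) e))) e) e)) e)))))))) (b (t [0, 4] (t [0,
  4] (t [0, 1] (t [0, 1] (t [0, 8] (l (n 1 3 e (n 3 2 e (n 2 6 e (n 2 1 (n 2 4 e (n 2 5 e (n 7 2 e
  e))) e)))))))))) (t [0, 4] (t [0, 4] (t [0, 3] (t [0, 3] (t [0, 2] (l (n 1 3 e (n 3 2 e (n 2 6 e
  (n 2 1 e (n 6 2 e (n 1 4 e (n 1 5 e (n 7 1 e (n 7 2 e e)))))))))))))))))) z)) z))) z)) (b (t [0,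
  3] (t [0, 3] (b (t [0, 1, 4] (t [0, 1] (b (b (b (b (f [0, 5] (b (t [0, 2, 9] (t [0, 9] (t [0, 1,
  4] (l (n 2 4 e (n 2 3 (n 2 6 e (n 2 5 (n 5 5 (n 3 3 (n 1 2 e (n 1 2 e (n 1 4 e (n 1 6 e e)))) e)
  e) e)) e)))))) (t [0, 2, 9] (t [0, 9] (b (l (n 2 4 e (n 2 6 e (n 2 5 (n 5 5 (n 3 6 (n 3 2 e (n 3 6
  e (n 1 4 (n 6 2 e (n 6 4 e e)) (n 1 2 (n 6 2 e e) (n 1 2 e (n 1 3 e (n 1 6 e e))))))) (n 1 3 e (n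
  1 2 e (n 2 3 e (n 1 4 e (n 6 2 (n 3 2 e (n 1 6 e e)) (n 1 2 e (n 1 6 e e)))))))) e) e)))) z)))))
  (f [0, 5] (b (b (t [0, 1, 3] (t [0, 2] (l (n 2 4 e (n 1 4 (n 6 2 (n 6 3 e e) e) (n 2 3 (n 2 6 e (n
  3 3 (n 1 2 e (n 1 2 e (n 2 5 e (n 7 2 e (n 6 1 e (n 2 6 e e)))))) e)) e)))))) z) (b (t [0, 1, 3]
  (b (l (n 2 4 e (n 6 2 (n 2 5 e (n 6 3 (n 1 3 e (n 1 5 e (n 3 5 (n 4 1 (n 3 5 (n 6 5 e (n 2 7 (n 6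
  2 e (n 2 2 e (n 1 6 (n 1 2 e e) (n 6 2 e (n 1 2 e (n 1 5 e (n 1 1 e e))))))) e)) (n 2 7 (n 1 6 (n
  2 1 (n 1 2 (n 3 2 (n 2 6 (n 6 6 e (n 1 1 (n 2 2 (n 3 3 e e) e) e)) e) (n 1 1 (n 2 2 e e) e)) (n 2
  2 e e)) e) e) e)) e) (n 4 1 (n 1 6 (n 2 1 (n 2 7 (n 2 3 e (n 1 2 (n 3 2 (n 5 2 (n 6 2 e e) e) e)
  e)) e) e) e) e)))) (n 1 4 (n 3 6 e (n 3 5 e (n 3 2 e (n 6 4 e (n 5 6 (n 2 3 (n 2 6 (n 2 7 (n 2 2 e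
  e) e) e) e) e))))) (n 3 5 e (n 3 6 e (n 3 2 e (n 2 7 (n 2 3 (n 1 5 (n 5 6 (n 2 6 (n 2 2 e e) e) e)
  (n 2 1 (n 2 2 e (n 1 2 e (n 1 3 e (n 1 5 e (n 1 6 e (n 1 1 e e)))))) (n 2 6 e e))) e) e)))))))
  e))) z)) z)))) (b (f [0, 5] (b (t [0, 2] (t [0, 3] (t [0, 1, 4] (l (n 1 3 e (n 2 6 e (n 4 2 (n 1 4
  e (n 1 5 e (n 2 5 e (n 2 7 (n 3 5 e (n 6 3 (n 2 3 (n 3 3 (n 2 1 e (n 2 2 e e)) e) e) e)) e))))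
  e))))))) (t [0, 2] (t [0, 3] (b (l (n 1 3 e (n 2 4 e (n 6 2 (n 1 4 e (n 1 5 e (n 2 5 e (n 2 7 (n 3
  5 (n 3 2 e (n 3 5 e (n 6 3 (n 2 1 e (n 2 2 e e)) e))) (n 6 3 (n 2 3 e (n 3 1 (n 2 1 (n 3 2 (n 5 2
  (n 6 2 e e) e) e) e) e)) (n 3 6 (n 5 2 e (n 6 5 (n 2 1 e (n 2 2 e e)) e)) (n 3 2 (n 2 5 (n 2 1 (n
  3 1 e (n 3 3 e e)) (n 2 2 (n 3 3 e e) e)) e) (n 2 1 e (n 2 2 e e)))))) e)))) e)))) z))))) (f [0,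
  5] (b (b (t [0, 4] (t [0, 2, 4] (l (n 2 6 e (n 4 2 (n 6 3 (n 1 3 e (n 2 3 (n 4 1 (n 3 3 (n 2 1 (n
  2 5 e (n 6 1 e (n 2 7 (n 2 6 e (n 2 2 e e)) e))) e) e) e) e)) e) e))))) z) (b (t [0, 4] (b (l (n 2
  6 e (n 6 3 (n 1 3 e (n 2 1 (n 2 4 e (n 5 2 (n 3 5 (n 6 1 e (n 1 5 (n 3 2 e (n 3 5 e (n 2 7 (n 2 6
  e (n 2 2 e e)) e))) (n 2 7 (n 1 2 (n 2 6 (n 3 2 e (n 1 6 e (n 1 1 e e))) (n 3 2 e (n 3 6 e (n 1 1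
  (n 2 2 e e) e)))) (n 2 6 e (n 2 2 e e))) e))) (n 6 1 e (n 2 7 (n 2 3 e (n 1 2 (n 3 2 (n 5 2 e (n 1
  6 (n 2 6 (n 3 6 (n 3 6 e e) e) e) e)) (n 1 6 (n 3 6 (n 2 6 (n 6 2 e e) e) e) e)) (n 2 6 (n 3 6 e
  e) e))) e))) e)) e)) (n 4 2 (n 1 4 e (n 1 2 e (n 3 1 e (n 1 2 e (n 2 5 e (n 6 1 (n 2 7 (n 2 3 e (n
  3 3 e e)) e) e)))))) e)))) z)) z))))) (b (f [0, 4] (b (t [0, 3, 8] (t [0, 8] (b (l (n 2 4 e (n 2 3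
  (n 3 3 (n 2 6 (n 6 4 (n 1 4 e (n 1 5 e (n 5 4 (n 2 2 e (n 1 2 e (n 1 6 e e))) e))) e) (n 1 2 e (n
  1 4 e (n 1 5 e (n 5 2 e (n 1 6 (n 5 4 e e) e)))))) e) e))) z))) (t [0, 3, 8] (t [0, 8] (b (l (n 2
  4 e (n 6 2 (n 2 5 (n 6 3 (n 1 3 e (n 1 2 e (n 2 3 e (n 4 1 (n 5 1 (n 5 4 (n 6 2 (n 3 2 e (n 1 6 (n
  3 3 e e) e)) (n 1 2 (n 3 3 (n 6 6 e e) e) (n 6 6 (n 1 1 (n 3 3 e e) e) (n 1 6 e (n 1 1 e e))))) e)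
  e) e)))) (n 3 2 e (n 3 6 e (n 1 4 (n 6 2 e (n 4 6 (n 5 6 (n 1 5 (n 5 4 e e) e) e) e)) (n 5 4 (n 1
  5 (n 2 6 (n 5 6 e e) e) (n 2 1 (n 1 2 e (n 1 3 e (n 1 6 e e))) (n 2 6 e e))) e))))) e) (n 2 3 e (n
  4 6 e (n 3 2 e (n 1 4 (n 3 3 e (n 2 4 e (n 5 2 (n 1 5 (n 5 4 e e) e) e))) (n 5 4 (n 3 3 e (n 1 5
  (n 5 2 e e) (n 1 2 e (n 1 3 e (n 1 6 e (n 1 1 e e)))))) e)))))))) z))))) (t [0, 1] (f [0, 4] (b (t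
  [0, 2, 3] (t [0, 2] (b (l (n 2 4 e (n 2 3 (n 3 3 (n 1 5 e (n 1 2 e (n 1 4 e (n 2 6 (n 6 4 (n 5 4
  (n 2 2 e e) e) e) (n 5 2 e (n 5 4 e e)))))) e) e))) z))) (t [0, 2, 3] (t [0, 2] (b (l (n 2 4 e (n
  1 3 e (n 1 4 e (n 1 5 e (n 6 2 (n 2 5 (n 2 3 (n 6 3 e (n 5 4 (n 2 6 (n 3 6 e (n 3 3 e e)) (n 2 2
  (n 3 3 e e) e)) e)) (n 3 2 e (n 3 6 e (n 5 4 e e)))) e) (n 2 3 e (n 4 6 e (n 3 2 e (n 5 4 (n 3 3 e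
  e) e)))))))))) z)))))))) z))) (t [0, 4] (b (b (b (b (b (b (t [0, 1] (t [0, 1, 5] (t [0, 10] (t [0,
  4] (l (n 2 3 (n 6 2 (n 3 3 (n 1 2 e (n 2 5 e (n 2 4 e (n 2 2 (n 1 4 e (n 5 1 (n 1 6 e e) e)) e))))
  e) e) e)))))) (t [0, 7] (t [0, 2, 10] (t [0, 10] (t [0, 4, 7] (l (n 2 6 e (n 2 5 e (n 3 6 (n 4 2 e
  e) (n 2 4 (n 4 4 (n 1 3 e (n 3 5 e (n 1 5 e (n 1 2 e (n 2 3 e (n 1 6 e e)))))) e) e)))))))))) (b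
  (t [0, 1] (t [0, 1, 5] (t [0, 1, 2, 5] (l (n 2 3 (n 2 6 e (n 1 2 e (n 2 5 e (n 2 4 e (n 3 3 (n 1 4
  e (n 1 5 e (n 7 2 e (n 1 6 (n 1 2 e e) e)))) e))))) e))))) (t [0, 7] (b (t [0, 1, 3] (t [0, 8] (l
  (n 2 6 e (n 4 2 (n 6 3 (n 1 3 e (n 3 2 e (n 4 1 (n 4 3 e (n 2 1 (n 2 5 e (n 2 7 (n 2 2 e (n 6 1 e
  (n 2 6 e e))) e)) e)) e))) e) e))))) z)))) (b (b (t [0, 1] (t [0, 2] (t [0, 3] (t [0, 4] (l (n 2 3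
  (n 6 2 (n 3 3 (n 2 1 (n 2 1 (n 2 5 e (n 2 4 e (n 6 1 (n 2 7 (n 1 1 (n 2 2 e e) e) e) e))) e) e) e)
  e) e)))))) (t [0, 7] (t [0, 2] (t [0, 3] (t [0, 4, 7] (l (n 1 3 e (n 1 4 e (n 1 5 e (n 2 6 e (n 3
  6 (n 2 4 e e) (n 2 4 e (n 3 2 e (n 5 2 (n 4 3 e (n 2 7 (n 2 1 e (n 2 2 e e)) e)) e))))))))))))))
  (b (t [0, 1] (t [0, 1, 5] (t [0, 3] (t [0, 3] (l (n 2 3 (n 2 6 e (n 3 3 (n 1 2 e (n 1 2 e (n 2 5 e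
  (n 6 1 e (n 2 4 e (n 7 2 e (n 2 6 e e))))))) e)) e)))))) (t [0, 7] (b (t [0, 4] (t [0, 4, 8] (l (n
  2 6 e (n 6 3 (n 1 3 e (n 2 1 (n 4 2 (n 3 2 e (n 2 5 e (n 4 3 e (n 6 1 e (n 2 7 (n 2 6 e (n 2 2 e
  e)) e))))) e) e)) (n 2 4 e e)))))) z))))) (b (b (t [0, 1] (t [0, 3, 9] (t [0, 9] (t [0, 7] (l (n 2
  3 (n 6 2 (n 3 3 (n 1 2 e (n 2 5 e (n 1 5 e (n 4 1 (n 2 4 (n 1 6 e e) e) e)))) e) e) e)))))) (t [0,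
  6] (t [0, 3, 9] (t [0, 9] (b (l (n 1 5 (n 2 6 e (n 3 6 (n 4 6 e e) e)) (n 1 4 (n 6 2 (n 6 3 e (n 4
  6 (n 1 2 e (n 6 1 (n 2 5 e (n 3 3 e e)) e)) e)) e) (n 2 3 e (n 4 2 e (n 3 6 (n 6 2 (n 5 2 (n 1 3
  (n 1 1 (n 3 3 e e) e) e) e) e) (n 1 3 e (n 1 6 (n 5 3 (n 3 4 e e) (n 5 2 e e)) e)))))))) z))))) (t
  [0, 1] (b (t [0, 1] (t [0, 2, 3] (t [0, 2] (t [0, 7] (l (n 2 3 (n 6 2 (n 3 3 (n 1 2 e (n 2 5 e (n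
  1 5 e (n 1 4 e (n 2 4 (n 6 1 e e) e))))) e) e) e)))))) (t [0, 6] (t [0, 2, 3] (t [0, 2] (b (l (n 1
  3 e (n 1 4 e (n 2 3 e (n 4 2 e (n 1 5 e (n 3 6 (n 6 2 (n 5 2 (n 3 3 e e) e) e) (n 5 3 (n 3 4 e e)
  (n 5 2 e e))))))))) z)))))))) z) (b (b (b (b (t [0, 5] (t [0, 5] (t [0, 4] (t [0, 9] (t [0, 3] (l
  (n 3 2 e (n 6 2 (n 1 2 e (n 2 5 e (n 2 4 e (n 2 2 (n 1 3 e (n 1 4 e (n 5 1 (n 1 6 e e) e))) e))))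
  e)))))))) (t [0, 5] (t [0, 5] (t [0, 4] (t [0, 1, 4] (l (n 3 2 e (n 2 6 e (n 1 2 e (n 2 5 e (n 2 4
  e (n 1 3 e (n 1 4 e (n 1 5 e (n 7 2 e (n 1 6 (n 1 2 e e) e)))))))))))))))) (b (t [0, 5] (t [0, 5]
  (t [0, 1] (t [0, 2] (t [0, 3] (l (n 1 3 e (n 3 2 e (n 2 6 e (n 2 1 (n 2 5 e (n 4 2 (n 2 7 (n 1 1
  (n 2 2 e e) e) e) e)) e)))))))))) (t [0, 5] (t [0, 5] (t [0, 4] (t [0, 2] (t [0, 2] (l (n 1 3 e (n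
  3 2 e (n 2 6 e (n 2 5 e (n 1 5 e (n 2 1 e (n 1 4 e (n 6 2 e (n 7 1 e (n 7 2 e e))))))))))))))))))
  (b (t [0, 4] (t [0, 4] (t [0, 2, 8] (t [0, 8] (t [0, 6] (l (n 3 2 e (n 6 2 (n 1 3 e (n 1 2 e (n 2
  5 e (n 1 5 e (n 4 1 (n 2 4 (n 1 6 e e) e) e))))) e)))))))) (t [0, 1] (t [0, 4] (t [0, 4] (t [0, 1,
  2] (t [0, 1] (t [0, 6] (l (n 1 3 e (n 3 2 e (n 2 6 e (n 5 2 (n 1 5 e (n 1 4 e (n 2 4 e e)))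
  e))))))))))))) z)))))) (t [0, 3, 4] (t [0, 3, 4] (b (t [0, 1, 4] (t [0, 1] (t [0, 1, 4] (f [0, 2]
  (b (f [0, 2] (b (t [0, 6] (t [0, 6] (b (l (n 4 2 (n 2 6 (n 2 3 e (n 2 2 (n 6 4 (n 1 4 e (n 5 1 (n
  4 5 (n 1 6 (n 3 3 e e) (n 3 1 (n 1 1 (n 3 3 e e) e) e)) e) e)) e) e)) (n 6 3 (n 2 3 (n 2 5 (n 3 3
  (n 1 5 e (n 5 4 e (n 1 4 e (n 2 1 (n 2 1 (n 6 1 (n 1 1 (n 2 2 (n 6 6 e e) e) e) e) e) e)))) e) e)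
  e) e)) e)) z))) (t [0, 6] (t [0, 6] (b (l (n 2 4 e (n 1 5 (n 6 4 e (n 6 2 (n 6 3 e (n 3 2 e (n 3 6
  e (n 5 6 (n 1 2 (n 2 5 e e) e) e)))) e)) (n 6 4 (n 5 2 e (n 2 3 e (n 1 3 e (n 4 1 (n 3 2 e (n 1 6
  (n 4 5 (n 3 3 e e) e) e)) e)))) (n 6 2 (n 2 5 (n 6 3 (n 2 3 e (n 3 1 (n 3 2 (n 6 1 (n 2 6 (n 6 6 e
  (n 6 6 e (n 1 4 e (n 1 1 e e)))) e) (n 1 2 (n 6 2 e e) e)) (n 1 4 (n 3 3 (n 6 6 e e) e) (n 6 6 (n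
  1 1 (n 3 3 e e) e) (n 1 6 e (n 1 1 e e))))) e)) (n 3 2 e (n 3 6 e (n 1 2 e (n 1 3 e (n 1 4 e (n 1
  6 e e))))))) e) e))))) z))))) (t [0, 1] (f [0, 2] (b (t [0, 2] (t [0, 2] (b (l (n 1 3 e (n 1 4 e
  (n 1 5 e (n 2 4 e (n 2 3 (n 6 2 (n 5 2 e (n 4 5 (n 3 3 (n 2 2 (n 6 6 e e) e) e) e)) (n 6 4 (n 4 5
  (n 3 3 (n 2 2 e e) e) e) e)) e)))))) z))) (t [0, 2] (t [0, 2] (b (l (n 1 3 e (n 1 4 e (n 1 5 e (n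
  6 2 (n 2 5 (n 2 3 (n 6 4 e (n 3 6 (n 2 6 (n 3 6 e (n 2 2 (n 6 6 e e) e)) (n 6 6 e e)) e)) (n 2 4
  (n 6 4 e (n 3 6 e (n 3 3 e e))) (n 3 2 e (n 3 6 e e)))) e) e))))) z))))))))))) (t [0, 4] (b (t [0,
  1, 5] (f [0, 3] (b (b (t [0, 1] (t [0, 7] (t [0, 7] (b (l (n 2 3 (n 6 2 (n 2 5 (n 3 3 (n 1 4 e (n
  1 5 e (n 2 1 (n 2 1 (n 6 1 (n 1 1 (n 2 2 (n 6 6 e e) e) e) e) e) e))) e) e) e) e)) z)))) (t [0, 4]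
  (t [0, 7] (t [0, 7] (b (l (n 1 5 (n 3 6 (n 2 3 e (n 4 2 e (n 6 2 e (n 6 4 e e)))) e) (n 2 3 e (n 4
  2 e (n 6 3 (n 5 3 e (n 1 2 e (n 1 3 e (n 4 1 (n 1 6 (n 2 5 (n 1 1 (n 3 3 (n 6 6 e e) e) e) e) e)
  e)))) (n 6 2 (n 1 2 e (n 4 1 (n 2 5 (n 1 6 (n 3 3 e e) (n 3 1 (n 1 1 (n 3 3 e e) e) e)) e) e))
  e)))))) z))))) (t [0, 1] (b (t [0, 1] (t [0, 2] (t [0, 2] (b (l (n 2 3 (n 6 2 (n 3 3 (n 1 2 e (n 1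
  4 e (n 1 5 e (n 2 5 (n 6 1 (n 2 2 (n 6 6 e e) e) e) e)))) e) e) e)) z)))) (t [0, 4] (t [0, 2] (t
  [0, 2] (b (l (n 1 3 e (n 1 4 e (n 2 3 e (n 4 2 e (n 1 5 e (n 6 3 (n 5 3 e (n 2 5 (n 3 3 (n 6 6 e
  e) e) e)) (n 6 2 (n 2 5 (n 3 3 e e) e) e)))))))) z))))))))) (t [0, 5] (f [0, 3] (b (t [0, 2] (t
  [0, 2] (t [0, 6] (t [0, 6] (b (l (n 3 2 e (n 6 2 (n 1 5 e (n 2 5 (n 1 2 e (n 1 3 e (n 4 1 (n 6 1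
  (n 1 1 (n 2 2 (n 6 6 e e) e) e) e) e))) e)) e))) z))))) (t [0, 1] (t [0, 2] (t [0, 2] (t [0, 1] (t
  [0, 1] (b (l (n 3 2 e (n 6 2 (n 1 5 e (n 2 5 (n 1 2 e (n 1 3 e (n 1 4 e (n 6 6 (n 2 2 e e) (n 1 6
  e e))))) e)) e))) z))))))))))))))))) z) (b (t [0, 1] (f [0, 2] (f [0, 2] (t [0, 1] (t [0, 1] (b (t
  [0, 1, 2] (t [0, 1] (t [0, 1, 2] (f [0, 3] (b (f [0, 2] (b (t [0, 4] (t [0, 4] (b (l (n 2 4 e (n 2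
  3 (n 3 3 (n 1 5 e (n 6 2 e (n 6 4 e (n 2 2 e (n 1 2 e (n 1 4 e (n 1 1 e e))))))) e) e))) z))) (t
  [0, 4] (t [0, 4] (b (l (n 6 2 e (n 2 4 e (n 2 3 e (n 3 2 e (n 3 3 e (n 1 5 (n 5 2 e e) (n 1 2 e (n
  1 3 e (n 1 4 e (n 1 1 e e))))))))))) z))))) (t [0, 1] (f [0, 2] (b (t [0, 2] (t [0, 2] (b (l (n 2
  4 e (n 2 3 (n 3 3 (n 1 5 e (n 1 2 e (n 1 4 e (n 6 2 e (n 6 4 e (n 2 2 e e)))))) e) e))) z))) (t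
  [0, 1, 2] (t [0, 1, 2] (b (l (n 2 4 e (n 1 5 e (n 6 2 e (n 2 3 e (n 6 4 e (n 1 3 e (n 3 2 e (n 1 4
  e (n 3 3 e e)))))))))) z))))))))))) (t [0, 2] (b (t [0, 1, 3] (f [0, 4] (b (b (t [0, 1] (t [0, 5]
  (t [0, 5] (b (l (n 2 3 (n 3 3 (n 6 2 e (n 1 4 e (n 1 5 e (n 1 2 (n 1 1 (n 2 2 e e) e) e)))) e) e))
  z)))) (t [0, 4] (t [0, 5] (t [0, 5] (b (l (n 2 3 e (n 4 2 e (n 1 4 e (n 1 5 e (n 6 2 e (n 6 3 e (n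
  3 3 e (n 1 2 e (n 1 3 e (n 1 1 e e))))))))))) z))))) (t [0, 1] (b (t [0, 1] (t [0, 2] (t [0, 2] (b
  (l (n 2 3 (n 3 3 (n 6 2 e (n 1 4 e (n 1 5 e (n 1 2 e (n 2 2 e e))))) e) e)) z)))) (t [0, 4] (t [0,
  2] (t [0, 1, 2] (b (l (n 6 2 e (n 2 3 e (n 1 4 e (n 4 2 e (n 1 5 e (n 1 3 e (n 3 3 e e))))))))
  z))))))))) (t [0, 3] (f [0, 4] (b (t [0, 2] (t [0, 2] (t [0, 4] (t [0, 4] (b (l (n 3 2 e (n 6 2 e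
  (n 1 3 e (n 1 4 e (n 1 5 e (n 1 2 (n 1 1 (n 2 2 e e) e) e))))))) z))))) (t [0, 1] (t [0, 2] (t [0,
  2] (t [0, 1] (t [0, 1] (b (l (n 1 3 e (n 3 2 e (n 1 4 e (n 1 5 e (n 6 2 e (n 2 2 e e)))))))
  z))))))))))))))))) z)) z)

set_option maxRecDepth 100000 in
theorem f17B : chkQ 7 4 10897286400000 t17B
    (blks.getD 17 ⟨0, 0, 0, 0, 0, .zr, .zr⟩).B = some [1418917500000, 170270100000, 0] := by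
  decide +kernel

end Pool.Agent.TH32
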