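import Pool.Agent.TH32.H.Fast

set_option autoImplicit false

namespace Pool.Agent.TH32

open CT PT

set_option maxRecDepth 100000 in
/-- certificate for block 19 (Le1R1), tree B -/
def t19B : PT :=
  (b (b (b (b (b (t [0, 1] (b (t [0, 1] (b (t [0, 1] (b (b (t [0, 2] (t [0, 1] (t [0, 4] (b (b (b (t
  [0, 1] (t [0, 1, 4] (t [0, 1, 4] (t [0, 3, 8, 9] (l (n 2 3 (n 7 2 (n 6 7 (n 2 2 (n 3 3 (n 1 5 e (n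
  1 7 e (n 6 1 e (n 4 1 (n 7 5 e e) e)))) e) e) e) e) e)))))) (f [0, 1] (t [0, 2, 8] (t [0, 2, 8] (b
  (l (n 1 5 (n 2 3 e (n 6 3 e (n 7 3 e (n 3 2 e (n 7 2 (n 6 7 (n 6 4 e (n 5 6 (n 2 2 (n 3 3 e (n 1 7
  (n 7 5 e e) e)) e) e)) e) e))))) (n 2 3 e (n 7 3 e (n 6 3 (n 1 4 e (n 3 1 (n 5 3 e (n 2 7 (n 7 7
  (n 2 5 (n 3 2 (n 6 1 e (n 6 2 (n 1 2 e (n 4 6 e e)) (n 4 2 e (n 4 6 e e)))) (n 6 1 e (n 4 6 e e)))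
  e) e) e)) e)) (n 2 7 (n 6 2 (n 7 7 (n 3 6 e (n 3 2 e (n 2 5 (n 1 4 (n 4 6 (n 1 2 e (n 1 3 e (n 4 1
  (n 1 6 e e) e))) e) (n 1 2 (n 2 4 (n 4 3 e (n 4 6 e e)) e) (n 3 1 (n 1 6 (n 4 6 e e) e) (n 4 3 e
  (n 4 6 e e))))) e))) e) e) e)))))) z))))) (b (t [0, 1] (t [0, 1, 4] (t [0, 1, 4] (t [0, 2, 3, 6]
  (l (n 2 3 (n 3 3 (n 2 7 e (n 6 7 (n 1 5 e (n 1 2 e (n 1 4 e (n 7 1 (n 7 5 (n 6 1 e (n 1 2 e (n 4 6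
  e e))) e) e)))) e)) e) e)))))) (f [0, 1] (b (t [0, 1] (b (l (n 1 5 (n 2 7 e (n 6 7 (n 6 3 e (n 3 6
  e (n 6 4 e (n 6 5 e (n 2 6 (n 3 7 e (n 3 2 e (n 3 2 e (n 1 7 (n 7 5 e e) e)))) e))))) e)) (n 1 4
  (n 2 7 e (n 6 7 (n 6 3 e (n 4 6 (n 7 5 (n 3 4 e (n 3 6 e (n 6 2 e (n 3 7 e (n 3 2 e (n 2 3 (n 1 3
  e (n 1 4 e (n 1 6 e (n 1 7 e (n 1 2 e (n 2 1 (n 1 2 e e) e)))))) e)))))) e) e)) e)) (n 2 3 e (n 7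
  3 (n 1 3 e (n 3 1 (n 6 7 (n 7 1 (n 2 1 (n 6 2 e (n 7 5 (n 6 1 e (n 6 2 (n 3 6 (n 4 6 (n 1 2 (n 7 2
  e e) e) e) e) (n 3 2 (n 4 2 e (n 4 6 e e)) (n 3 6 (n 4 6 e e) e)))) e)) e) e) e) e)) (n 2 7 e (n 6
  3 (n 1 3 e (n 2 1 (n 6 2 e (n 5 3 e (n 7 5 (n 3 7 (n 6 7 e (n 6 1 (n 6 2 e (n 6 6 e (n 1 7 (n 4 7
  e e) e))) (n 1 2 (n 4 6 (n 4 2 (n 6 2 e e) e) (n 6 2 e (n 4 7 e e))) (n 4 6 e (n 4 7 e e))))) (n 6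
  1 e (n 6 2 (n 4 6 (n 1 2 (n 3 2 e e) e) e) (n 4 2 e (n 4 6 e e))))) e))) e)) (n 6 7 (n 1 2 (n 2 6
  (n 3 1 e (n 7 5 (n 3 6 e (n 3 7 e (n 3 2 e (n 2 3 (n 2 3 (n 3 4 (n 1 3 (n 4 6 e (n 4 7 e (n 2 4 (n
  4 2 e (n 4 2 e e)) e))) e) (n 1 3 e (n 1 4 e e))) e) e)))) e)) e) (n 3 2 e (n 7 5 (n 3 6 e (n 3 7
  e (n 3 2 e (n 1 2 (n 2 4 (n 4 3 e (n 4 6 e (n 4 7 e e))) e) (n 1 3 (n 3 4 (n 4 6 e (n 4 7 e e)) e)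
  (n 6 1 (n 1 7 (n 4 7 e e) e) (n 4 6 e (n 4 7 e e)))))))) e))) e)))))))) z)) z)))) (b (b (t [0, 1]
  (t [0, 1, 4] (t [0, 1, 4] (b (l (n 1 5 e (n 1 3 e (n 2 3 (n 2 7 (n 6 2 (n 3 3 (n 7 7 (n 2 5 (n 4 1
  (n 2 2 (n 6 6 e e) e) (n 6 4 e e)) e) e) e) e) (n 6 7 (n 2 1 (n 3 3 (n 7 5 (n 1 4 (n 6 4 e e) e)
  e) e) e) e)) e)))) z)))) (f [0, 1] (b (t [0, 1] (b (l (n 1 5 e (n 1 3 e (n 4 1 (n 7 2 (n 7 3 (n 6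
  7 (n 2 6 (n 2 3 e (n 7 5 (n 3 1 (n 2 1 (n 3 3 (n 6 6 (n 7 7 e e) e) e) (n 2 4 (n 4 4 e (n 3 3 (n 6
  6 (n 7 7 e e) e) e)) e)) (n 4 2 e (n 3 4 e e))) e)) (n 1 2 e (n 7 5 (n 3 2 (n 3 2 (n 7 2 e (n 7 7
  e (n 6 1 e (n 6 4 e e)))) (n 6 1 (n 3 3 (n 7 7 e e) e) (n 6 4 (n 3 3 (n 7 7 e e) e) e))) (n 6 3 e
  (n 1 3 (n 3 4 (n 6 4 e e) e) (n 6 1 e (n 6 4 e e))))) e))) e) (n 6 3 (n 6 2 (n 2 1 (n 5 3 e (n 3 2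
  e (n 3 7 e (n 7 5 (n 6 1 e (n 6 4 e e)) e)))) e) (n 3 7 (n 6 7 e (n 5 7 e (n 3 5 (n 3 5 (n 2 1 e
  (n 2 4 e e)) e) e))) (n 5 3 e (n 5 7 e (n 7 5 (n 2 1 e (n 2 4 e e)) e))))) (n 3 2 e (n 3 7 e (n 6
  7 (n 7 5 (n 2 1 e (n 2 4 e e)) e) e))))) e) (n 7 2 (n 6 7 (n 6 4 e (n 3 4 (n 7 5 (n 3 2 e (n 3 4 e
  (n 6 3 (n 2 6 (n 7 3 (n 2 1 e (n 2 2 e e)) e) e) e))) e) (n 6 3 (n 2 6 (n 7 5 (n 7 3 (n 2 3 e (n 2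
  1 (n 3 1 e e) e)) (n 3 7 (n 4 7 (n 6 7 e (n 2 1 e (n 2 2 e e))) (n 2 1 e (n 2 2 e e))) (n 2 1 e (n
  2 2 e e)))) e) e) (n 2 3 (n 3 6 (n 4 6 e (n 7 4 (n 7 5 (n 2 1 e (n 2 2 e e)) e) e)) (n 7 5 (n 7 3
  (n 2 1 e (n 2 2 e e)) (n 4 7 e (n 2 1 e (n 2 2 e e)))) e)) (n 4 2 e (n 4 6 e (n 2 6 (n 7 4 (n 7 5
  (n 2 1 (n 3 1 e e) e) e) e) e))))))) e) e))))) z)) z))) (b (t [0, 1] (t [0, 1, 4] (t [0, 1, 4] (t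
  [0, 2, 3, 6] (l (n 1 5 e (n 1 3 e (n 2 3 (n 2 7 e (n 6 7 (n 2 1 e (n 6 4 e (n 6 2 e (n 3 3 (n 7 5
  e e) e)))) e)) e)))))))) (f [0, 1] (b (t [0, 1] (b (l (n 1 5 e (n 1 3 e (n 1 4 (n 7 2 (n 7 3 (n 6
  7 (n 4 6 (n 2 6 (n 2 3 e (n 2 1 (n 3 1 e (n 7 5 e e)) (n 7 5 (n 3 2 (n 4 2 (n 6 2 (n 7 2 e (n 7 7
  e e)) (n 6 6 (n 7 7 e e) e)) (n 4 4 (n 6 6 (n 7 7 e e) e) e)) (n 3 3 (n 4 4 (n 6 6 (n 7 7 e e) e)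
  e) e)) e))) e) e) e) (n 6 7 (n 4 6 (n 2 6 (n 5 3 e (n 3 4 e (n 6 3 (n 7 3 (n 2 3 (n 2 3 (n 2 1 e
  (n 3 2 e (n 7 5 (n 2 2 e e) e))) e) e) e) e))) e) e) (n 6 3 (n 4 7 (n 2 6 (n 6 4 (n 3 5 (n 3 4 e
  (n 2 1 e (n 3 7 e (n 2 3 (n 2 2 e e) e)))) e) (n 6 7 (n 3 5 (n 2 1 e (n 3 7 e (n 2 3 (n 2 2 e e)
  e))) e) (n 3 5 (n 2 1 e (n 2 3 (n 2 2 e e) (n 6 2 e e))) e))) (n 2 7 (n 3 5 (n 3 4 e (n 3 7 e (n 6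
  1 (n 2 3 (n 2 3 (n 2 1 e (n 3 2 e (n 3 3 e e))) e) e) (n 3 2 e (n 3 2 e (n 2 3 (n 6 3 e e) e))))))
  e) e)) (n 4 6 (n 2 6 (n 3 5 (n 3 7 (n 4 7 (n 6 7 e (n 2 1 e (n 6 2 e (n 2 2 e e)))) (n 2 1 e (n 4
  2 (n 2 6 (n 6 6 e (n 2 2 (n 4 4 e e) e)) e) (n 2 2 e e)))) (n 2 1 e (n 2 2 e (n 3 2 (n 4 2 (n 6 2
  e (n 6 6 e e)) (n 4 4 (n 6 6 e e) e)) (n 3 3 (n 4 4 (n 6 6 e e) e) e))))) e) e) e)) e))) e) (n 6 7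
  (n 2 6 e (n 3 6 (n 3 2 e (n 6 3 (n 7 2 (n 2 1 e (n 2 4 e (n 7 5 (n 3 2 e (n 3 3 e e)) e))) e) e))
  (n 7 2 (n 7 5 (n 6 2 (n 2 1 (n 2 3 (n 7 3 (n 6 3 e (n 6 1 (n 3 1 e (n 4 3 e e)) (n 4 6 (n 2 6 (n 3
  6 (n 7 6 e e) e) e) (n 3 4 e e)))) (n 6 1 e (n 6 4 e (n 2 7 (n 3 7 e (n 3 6 e e)) (n 2 6 (n 3 6 e
  e) e))))) (n 2 3 (n 7 3 (n 6 1 e (n 6 4 e (n 3 6 e (n 3 3 e e)))) e) e)) e) (n 7 3 (n 2 3 e (n 2 1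
  (n 3 1 e (n 4 3 e e)) (n 4 2 (n 3 2 (n 6 2 (n 2 7 e e) e) e) (n 3 4 e e)))) (n 2 1 e (n 2 4 e (n 3
  7 (n 6 7 e (n 2 6 e e)) (n 3 2 (n 2 6 e e) e)))))) e) e))) e))))) z)) z)))))))) z) (b (f [0, 2] (t
  [0, 1] (t [0, 4] (b (b (t [0, 4] (t [0, 4] (t [0, 3] (t [0, 3] (t [0, 2, 7, 8] (l (n 3 2 e (n 7 2
  (n 6 7 (n 2 2 (n 1 3 e (n 1 5 e (n 1 7 e (n 6 1 e (n 4 1 (n 7 5 e e) e))))) e) e) e)))))))) (t [0,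
  4] (t [0, 4] (t [0, 3] (t [0, 3] (t [0, 1, 2, 5] (l (n 3 2 e (n 2 7 e (n 6 7 (n 1 3 e (n 1 5 e (n
  1 2 e (n 1 4 e (n 7 1 (n 7 5 (n 6 1 e (n 1 2 e (n 4 6 e e))) e) e))))) e)))))))))) (b (t [0, 4] (t
  [0, 4] (t [0, 3] (t [0, 3] (b (l (n 1 3 e (n 1 5 e (n 3 2 e (n 7 2 (n 6 7 (n 6 4 (n 2 1 (n 4 1 (n
  7 5 (n 2 2 (n 6 6 (n 7 7 e e) e) e) e) e) e) (n 2 1 (n 7 5 e e) (n 2 2 (n 7 5 e e) e))) e) e)))))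
  z))))) (t [0, 4] (t [0, 4] (t [0, 3] (t [0, 3] (t [0, 1, 2, 5] (l (n 1 3 e (n 1 5 e (n 3 2 e (n 2
  7 e (n 6 7 (n 2 1 e (n 6 4 e (n 6 2 e (n 7 5 e e)))) e)))))))))))))))) z))) z)) (f [0, 1] (t [0,
  2, 3] (t [0, 2, 3] (b (t [0, 1, 3] (t [0, 1] (t [0, 1, 3] (f [0, 2] (b (b (t [0, 1] (t [0, 5] (t
  [0, 5] (t [0, 2, 5, 6] (l (n 2 3 (n 3 3 (n 6 2 (n 6 7 (n 1 2 e (n 1 5 e (n 6 1 e (n 4 1 (n 7 5 (n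
  7 2 e e) e) e)))) e) e) e) e)))))) (f [0, 1] (t [0, 5] (t [0, 5] (b (l (n 6 7 (n 2 3 e (n 6 3 (n 1
  3 e (n 5 1 (n 7 5 (n 7 2 e (n 7 3 e (n 3 2 (n 6 2 e (n 6 6 e (n 1 4 e (n 1 2 (n 4 2 e (n 4 6 e e))
  (n 1 6 (n 4 6 e e) e))))) (n 1 6 (n 1 4 e e) e)))) e) e)) (n 3 2 e (n 6 2 (n 1 5 (n 6 4 e (n 5 6
  (n 3 3 e (n 7 1 (n 7 2 e e) (n 5 7 e (n 1 2 (n 2 7 e e) e)))) e)) (n 7 5 (n 7 2 e (n 3 3 e (n 1 6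
  (n 6 4 (n 1 4 (n 4 1 e e) e) e) (n 1 2 (n 1 4 (n 4 6 e (n 4 6 e e)) e) (n 1 3 (n 1 4 (n 2 4 (n 4 6
  e (n 4 6 e (n 4 4 e e))) e) e) e))))) e)) e)))) e)) z))))) (t [0, 1] (b (t [0, 1] (t [0, 5] (t [0,
  5] (b (l (n 2 3 (n 3 3 (n 1 2 e (n 1 5 e (n 6 7 (n 6 2 (n 7 5 (n 7 2 e (n 6 4 (n 4 1 (n 2 2 (n 6 6
  e e) e) e) e)) e) e) e))) e) e)) z)))) (f [0, 1] (t [0, 5] (t [0, 5] (b (l (n 1 3 e (n 1 5 e (n 6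
  7 (n 7 5 (n 3 2 (n 3 6 (n 3 2 e (n 6 2 (n 7 2 e (n 1 4 (n 4 3 (n 2 2 (n 6 6 e e) e) (n 2 4 (n 6 4
  (n 6 6 (n 2 2 e (n 4 4 e e)) (n 4 6 e (n 4 4 e e))) e) e)) (n 2 2 (n 6 6 e e) e))) e)) (n 7 2 e (n
  7 3 e (n 2 3 (n 2 2 e (n 1 4 (n 4 6 e e) e)) (n 6 4 (n 6 2 e (n 4 1 e e)) (n 4 2 (n 2 6 e e)
  e)))))) e) e) e)))) z))))))))))) (t [0, 3] (f [0, 1] (t [0, 3] (f [0, 2] (b (t [0, 2] (t [0, 2] (t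
  [0, 4] (t [0, 4] (t [0, 1, 4, 5] (l (n 3 2 e (n 6 2 (n 7 6 e (n 1 2 e (n 1 3 e (n 1 5 e (n 5 7 e
  (n 6 1 e (n 2 7 (n 4 1 e e) e))))))) e)))))))) (t [0, 1] (t [0, 2] (t [0, 2] (t [0, 4] (t [0, 4]
  (b (l (n 1 3 e (n 3 2 e (n 1 5 e (n 6 2 (n 6 7 (n 7 5 (n 7 2 e (n 4 1 (n 2 2 (n 6 6 e e) e) (n 6 4
  e e))) e) e) e))))) z))))))))))))))))) z) (b (t [0, 1] (f [0, 2, 4] (f [0, 2, 4] (t [0, 1] (t [0,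
  1] (b (t [0, 1, 2] (t [0, 1] (t [0, 1, 2] (f [0, 3, 5] (b (b (t [0, 1] (t [0, 4] (t [0, 4] (t [0,
  2, 4] (l (n 2 3 (n 6 7 (n 3 3 (n 6 2 e (n 1 5 e (n 1 2 (n 1 4 e (n 7 5 e e)) e))) e) e) e)))))) (f
  [0, 1] (t [0, 4] (t [0, 4] (b (l (n 6 7 (n 6 2 e (n 2 3 e (n 3 2 e (n 1 5 (n 3 3 e (n 2 4 e (n 5 2
  (n 1 7 (n 7 5 e e) e) e))) (n 7 5 (n 1 2 (n 2 4 (n 3 3 e (n 1 4 (n 4 1 e e) e)) (n 3 3 e e)) (n 1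
  3 (n 4 2 (n 1 1 (n 3 3 e e) e) (n 4 2 (n 1 1 (n 3 3 e e) e) (n 1 4 e e))) e)) e))))) e)) z))))) (t
  [0, 1] (b (t [0, 1] (t [0, 4] (t [0, 4] (b (l (n 2 3 (n 6 7 (n 3 3 (n 1 5 e (n 6 2 e (n 7 5 (n 1 4
  e (n 2 1 (n 2 2 e e) (n 4 2 e e))) e))) e) e) e)) z)))) (f [0, 1] (t [0, 4] (t [0, 4] (b (l (n 6 7
  (n 1 5 e (n 6 2 e (n 2 3 e (n 7 5 (n 1 3 e (n 3 2 e (n 3 3 e (n 1 4 (n 4 3 e (n 4 2 e (n 4 2 e (n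
  4 4 e e)))) e)))) e)))) e)) z))))))))))) (t [0, 2] (f [0, 1] (t [0, 2] (f [0, 3, 5] (b (t [0, 2]
  (t [0, 2] (t [0, 3] (t [0, 3] (t [0, 1, 3] (l (n 3 2 e (n 6 7 (n 6 2 e (n 1 3 e (n 1 5 e (n 1 2 (n
  1 4 e (n 7 5 e e)) e)))) e)))))))) (t [0, 1] (t [0, 2] (t [0, 2] (t [0, 3] (t [0, 3] (b (l (n 1 3
  e (n 3 2 e (n 1 5 e (n 6 7 (n 6 2 e (n 7 5 (n 2 2 e (n 4 1 e (n 4 2 e e))) e)) e)))))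
  z))))))))))))))))) z)) z) (b (b (b (t [0, 1] (t [0, 2] (t [0, 2] (b (t [0, 1] (b (t [0, 1, 2] (t
  [0, 1] (t [0, 1, 2] (t [0, 4] (b (b (b (t [0, 1] (t [0, 5] (t [0, 5] (t [0, 3, 6, 7] (l (n 2 3 (n
  7 2 (n 6 7 e (n 2 2 (n 3 3 (n 1 5 e (n 1 7 (n 1 4 e e) e)) e) e)) e) e)))))) (f [0, 1] (t [0, 5]
  (t [0, 5] (b (l (n 6 7 e (n 2 3 e (n 7 3 e (n 1 5 (n 3 2 e (n 7 2 (n 7 4 e (n 5 7 (n 2 2 (n 3 3 e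
  e) e) e)) e)) (n 2 7 (n 7 7 (n 3 2 e (n 1 4 (n 4 2 (n 3 1 (n 1 2 (n 3 3 e e) (n 1 4 (n 3 3 e e)
  e)) e) e) (n 1 2 (n 4 2 (n 3 3 e e) (n 3 4 e e)) (n 3 1 e (n 4 3 e e))))) e) e)))))) z))))) (b (t
  [0, 1] (t [0, 5] (t [0, 5] (t [0, 2, 3, 5] (l (n 2 3 (n 2 7 e (n 6 7 e (n 3 3 (n 1 5 e (n 1 2 e (n
  1 7 (n 1 4 e (n 1 2 e e)) e))) e))) e)))))) (f [0, 1] (t [0, 5] (t [0, 5] (b (l (n 6 7 e (n 1 5 (n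
  2 7 e (n 7 3 e (n 3 7 e (n 3 2 e (n 7 4 e (n 7 5 e (n 2 7 (n 3 2 e (n 3 3 e e)) e))))))) (n 2 3 e
  (n 7 3 (n 1 3 e (n 7 1 e (n 1 2 e (n 4 1 (n 1 2 (n 3 1 (n 4 2 (n 7 2 e e) e) e) (n 3 1 e (n 3 2 e
  e))) e)))) (n 3 2 e (n 2 7 e (n 7 4 (n 1 2 e (n 3 2 e (n 4 1 (n 3 1 (n 3 3 e (n 1 2 (n 4 2 e (n 4
  7 e (n 4 4 e e))) (n 1 7 (n 4 7 e (n 4 4 e e)) (n 1 1 (n 4 4 e e) e)))) (n 4 2 e (n 4 3 e (n 4 7 e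
  (n 4 4 e e))))) e))) (n 3 2 e (n 3 3 e (n 1 2 (n 2 7 e e) (n 1 2 e (n 1 3 e (n 1 4 e (n 1 7 e (n 1
  1 e e)))))))))))))))) z)))))) (b (b (t [0, 1] (t [0, 5] (t [0, 5] (b (l (n 6 7 e (n 1 3 e (n 1 5 e
  (n 2 3 (n 7 2 (n 2 1 (n 3 3 (n 4 1 (n 2 2 (n 7 7 e e) e) (n 7 4 e e)) e) (n 7 4 e (n 2 2 (n 3 3 e
  e) e))) e) e))))) z)))) (f [0, 1] (t [0, 5] (t [0, 5] (b (l (n 1 3 e (n 1 5 e (n 6 7 e (n 2 3 e (n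
  3 7 (n 3 2 e (n 7 2 (n 1 4 (n 2 1 (n 3 4 (n 7 4 (n 4 7 (n 3 3 e e) e) (n 3 3 e e)) e) e) (n 2 1 (n
  3 3 e e) (n 2 4 (n 3 3 e e) e))) (n 7 7 (n 1 4 (n 3 4 (n 3 3 e (n 4 2 e (n 4 2 e (n 4 4 e e)))) e)
  (n 3 3 e e)) e))) (n 7 2 (n 3 2 e (n 1 4 e (n 1 3 e (n 1 2 e (n 2 1 (n 7 1 e (n 7 4 e e)) e)))))
  (n 7 4 (n 1 4 e (n 3 1 (n 1 2 (n 2 4 e e) e) e)) (n 1 3 e (n 2 1 e e)))))))))) z))))) (b (t [0, 1]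
  (t [0, 5] (t [0, 5] (t [0, 2, 3, 5] (l (n 6 7 e (n 1 3 e (n 1 5 e (n 2 3 (n 2 7 e (n 2 1 e (n 7 4
  e (n 7 2 e (n 3 3 e e))))) e))))))))) (f [0, 1] (t [0, 5] (t [0, 5] (b (l (n 1 5 e (n 1 3 e (n 6 7
  e (n 2 3 e (n 7 2 (n 3 7 e (n 1 2 e (n 1 4 e (n 3 1 (n 2 3 (n 7 1 e (n 7 4 e (n 3 7 e (n 3 3 e
  e)))) e) e)))) (n 3 7 e (n 3 1 e (n 7 2 (n 1 2 e (n 7 4 (n 7 4 (n 2 4 e (n 3 2 e e)) (n 2 3 (n 3 7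
  e e) e)) (n 2 3 (n 3 4 e (n 7 3 (n 3 7 e e) e)) e))) (n 7 4 (n 2 4 (n 4 2 (n 3 2 e e) e) (n 3 4 e
  (n 3 2 e (n 3 2 e e)))) (n 3 7 e (n 2 3 (n 3 2 e e) e)))))))))))) z))))))))))) (t [0, 2] (f [0, 1]
  (t [0, 2] (t [0, 4] (b (b (t [0, 3] (t [0, 3] (t [0, 4] (t [0, 4] (t [0, 2, 5, 6] (l (n 6 7 e (n 3
  2 e (n 7 2 (n 2 2 (n 1 3 e (n 1 5 e (n 1 7 (n 1 4 e e) e))) e) e))))))))) (t [0, 3] (t [0, 3] (t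
  [0, 4] (t [0, 4] (t [0, 1, 2, 4] (l (n 6 7 e (n 3 2 e (n 2 7 e (n 1 3 e (n 1 5 e (n 1 2 e (n 1 7
  (n 1 4 e (n 1 2 e e)) e)))))))))))))) (b (t [0, 3] (t [0, 3] (t [0, 4] (t [0, 4] (b (l (n 6 7 e (n
  1 3 e (n 1 5 e (n 3 2 e (n 7 2 (n 7 4 (n 2 1 (n 4 1 (n 2 2 (n 7 7 e e) e) e) e) (n 2 1 e (n 2 2 e
  e))) e)))))) z))))) (t [0, 3] (t [0, 3] (t [0, 4] (t [0, 4] (t [0, 1, 2, 4] (l (n 6 7 e (n 1 3 e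
  (n 1 5 e (n 3 2 e (n 2 7 e (n 2 1 e (n 7 4 e (n 7 2 e e)))))))))))))))))))))) z)))) z) (b (t [0,
  1] (f [0, 2] (f [0, 2] (t [0, 1] (t [0, 1] (b (t [0, 1, 2] (t [0, 1] (t [0, 1, 2] (f [0, 3] (b (b
  (t [0, 1] (t [0, 4] (t [0, 4] (t [0, 2, 4] (l (n 2 3 (n 6 7 e (n 3 3 (n 7 2 e (n 1 5 e (n 1 2 (n 1
  4 e e) e))) e)) e)))))) (f [0, 1] (t [0, 4] (t [0, 4] (b (l (n 6 7 e (n 7 2 e (n 2 3 e (n 3 2 e (n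
  1 5 (n 3 3 e (n 2 4 e (n 5 2 e e))) (n 1 2 (n 2 4 (n 3 3 e (n 1 4 (n 4 1 e e) e)) (n 3 3 e e)) (n
  1 3 (n 4 2 (n 1 1 (n 3 3 e e) e) (n 4 2 (n 1 1 (n 3 3 e e) e) (n 1 4 e e))) e)))))))) z))))) (t
  [0, 1] (b (t [0, 1] (t [0, 4] (t [0, 4] (b (l (n 2 3 (n 6 7 e (n 3 3 (n 1 5 e (n 7 2 e (n 1 4 e (n
  2 1 (n 2 2 e e) (n 4 2 e e))))) e)) e)) z)))) (f [0, 1] (t [0, 4] (t [0, 4] (b (l (n 6 7 e (n 7 2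
  e (n 2 3 e (n 1 5 e (n 1 3 e (n 3 2 e (n 3 4 (n 3 3 e (n 1 4 (n 4 2 e (n 4 2 e (n 4 4 e e))) e))
  e)))))))) z))))))))))) (t [0, 2] (f [0, 1] (t [0, 2] (f [0, 3] (b (t [0, 2] (t [0, 2] (t [0, 3] (t
  [0, 3] (t [0, 1, 3] (l (n 3 2 e (n 6 7 e (n 7 2 e (n 1 3 e (n 1 5 e (n 1 2 (n 1 4 e e)
  e)))))))))))) (t [0, 1] (t [0, 2] (t [0, 2] (t [0, 3] (t [0, 3] (b (l (n 3 2 e (n 6 7 e (n 1 3 e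
  (n 1 5 e (n 7 2 e (n 1 4 e (n 2 1 (n 2 2 e e) (n 4 2 e e))))))))) z))))))))))))))))) z)) z)) z)

set_option maxRecDepth 100000 in
theorem f19B : chkQ 7 4 10897286400000 t19B
    (blks.getD 19 ⟨0, 0, 0, 0, 0, .zr, .zr⟩).B = some [0] := by
  decide +kernel

end Pool.Agent.TH32
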