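import Pool.Agent.TH32.H.Fast

set_option autoImplicit false

namespace Pool.Agent.TH32

open CT PT

set_option maxRecDepth 100000 in
/-- certificate for block 20 (Le1R2), tree A -/
def t20A : PT :=
  (b (b (b (t [0, 1] (b (t [0, 1] (b (t [0, 1] (b (b (t [0, 2] (t [0, 1] (t [0, 4] (b (b (b (t [0,
  1] (t [0, 1, 4] (t [0, 1, 4] (f [0, 7] (l (n 2 3 (n 6 2 (n 3 3 (n 2 5 e (n 2 2 (n 1 5 e (n 1 4 e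
  (n 1 5 e (n 6 1 e (n 4 6 e e))))) e)) e) e) e)))))) (f [0, 1] (t [0, 2, 8] (t [0, 2, 8] (b (l (n 2
  3 e (n 6 3 (n 2 5 (n 3 5 (n 1 3 e (n 5 5 (n 1 4 e (n 3 1 (n 2 1 (n 3 2 (n 6 2 e (n 6 6 (n 1 2 (n 4
  2 e e) e) e)) (n 6 1 e e)) e) e)) e)) e) e) (n 3 2 e (n 2 6 e (n 2 5 (n 5 5 (n 1 2 (n 6 4 e (n 2 6
  (n 3 3 e e) e)) (n 3 3 (n 1 4 (n 4 6 (n 1 2 e (n 1 4 e (n 1 6 e e))) e) (n 1 2 (n 4 2 e (n 4 6 e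
  e)) (n 1 6 (n 4 6 e e) e))) e)) e) e)))))) (l (n 1 4 (n 6 2 (n 6 3 e (n 3 2 e (n 2 5 e (n 2 2 (n 3
  6 e (n 6 4 e (n 5 6 (n 1 3 e (n 1 4 e (n 1 6 e (n 1 5 e (n 1 5 e (n 1 5 e e)))))) e))) e)))) e) (n
  2 6 e (n 3 6 (n 2 5 (n 5 5 (n 3 2 e (n 3 6 e (n 1 2 (n 6 2 e (n 1 4 (n 3 4 (n 4 6 e (n 4 2 e (n 4
  2 e (n 4 2 e e)))) e) e)) (n 1 2 (n 2 4 (n 4 3 e (n 4 6 e e)) e) (n 3 1 (n 1 6 (n 4 6 e e) e) (n 4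
  3 e (n 4 6 e e))))))) e) e) (n 1 5 e (n 1 3 e (n 2 5 (n 2 3 e (n 3 2 (n 6 2 e (n 2 1 (n 5 5 (n 1 6
  (n 4 6 e e) e) e) (n 5 5 (n 4 2 e (n 4 6 e e)) e))) (n 5 5 (n 6 1 e (n 4 6 e e)) e)))
  e)))))))))))) (b (t [0, 1] (t [0, 1, 4] (t [0, 1, 4] (l (n 2 3 (n 6 2 (n 3 3 (n 1 2 e (n 2 5 e (n
  1 5 e (n 4 1 (n 6 1 e (n 2 1 (n 4 6 (n 2 2 e e) e) e)) e)))) e) e) e))))) (f [0, 1] (b (t [0, 1]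
  (b (l (n 2 3 e (n 6 3 (n 1 3 e (n 1 4 e (n 5 1 (n 3 5 (n 2 5 e (n 1 2 e (n 6 2 e (n 3 5 (n 6 5 e
  (n 6 1 (n 1 5 (n 4 5 (n 6 2 e (n 6 6 e e)) e) e) (n 1 2 (n 6 2 (n 4 5 e (n 4 6 e e)) e) e))) (n 6
  1 e (n 6 2 (n 4 6 (n 1 2 (n 3 2 e e) e) e) e)))))) (n 1 3 e (n 2 1 (n 6 2 e (n 5 2 (n 6 2 (n 6 1 e
  (n 3 6 (n 4 6 e e) e)) e) e)) e))) e))) (n 2 6 e (n 6 4 (n 1 4 e (n 2 1 (n 3 2 e (n 2 5 e (n 3 6 e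
  (n 1 5 (n 3 4 (n 3 2 (n 4 5 e (n 4 6 e (n 4 4 e e))) (n 3 3 (n 4 5 e (n 4 6 e (n 4 4 e e))) e)) (n
  3 2 (n 4 2 e e) e)) (n 1 6 (n 4 3 (n 3 2 (n 4 2 e (n 4 4 e e)) (n 3 3 (n 4 4 e e) e)) (n 4 6 (n 3
  2 e (n 3 3 e e)) e)) (n 1 3 (n 4 3 (n 1 2 (n 3 2 (n 4 2 e (n 4 4 e e)) (n 3 3 (n 4 4 e e) e)) (n 1
  1 (n 3 3 (n 4 4 e e) e) e)) e) e)))))) e)) (n 2 5 e (n 1 5 (n 2 6 (n 3 6 e (n 6 5 e (n 3 1 e (n 3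
  4 e (n 3 5 e (n 2 3 (n 3 2 (n 2 2 e e) (n 3 2 e e)) e)))))) e) (n 1 2 (n 2 6 (n 3 1 e (n 3 4 e (n
  3 5 e (n 3 6 e (n 2 3 (n 2 3 (n 3 1 e (n 3 2 e e)) e) e))))) e) (n 3 2 e (n 3 4 e (n 3 5 e (n 3 6
  e (n 1 4 (n 3 2 e (n 3 3 e e)) (n 3 1 (n 3 2 (n 1 5 e (n 1 6 e (n 1 1 e e))) (n 3 3 (n 1 5 e (n 1
  6 e (n 1 1 e e))) e)) (n 1 2 (n 3 2 e e) e))))))))))))))) (l (n 6 2 (n 6 3 (n 1 3 e (n 4 1 (n 2 1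
  (n 2 3 e (n 2 5 (n 3 5 e (n 5 2 (n 6 3 e (n 6 2 (n 3 2 e (n 6 1 e (n 4 6 e e))) (n 2 1 (n 1 6 (n 4
  6 e e) e) (n 4 2 e (n 4 6 e e))))) (n 6 1 e (n 6 3 e (n 4 6 e e))))) (n 6 2 e (n 6 3 e (n 3 5 (n 6
  5 e (n 1 5 (n 4 6 (n 4 2 (n 6 2 e e) e) (n 6 2 e (n 4 5 e e))) (n 1 6 (n 6 2 (n 1 2 e (n 4 6 e e))
  (n 4 2 e (n 4 6 e e))) e))) (n 1 6 (n 6 2 (n 4 6 (n 1 2 (n 3 2 e e) e) e) (n 4 2 e (n 4 6 e e)))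
  e)))))) e) e)) (n 3 6 e (n 6 4 (n 4 1 (n 2 1 (n 2 3 (n 2 5 e (n 3 2 e (n 2 1 (n 2 2 e (n 1 3 (n 4
  3 e (n 4 5 e (n 4 6 e (n 4 4 e e)))) (n 1 5 (n 4 5 e (n 4 6 e (n 4 4 e e))) (n 1 6 (n 4 6 e (n 4 4
  e e)) (n 1 1 (n 4 4 e e) e))))) (n 2 4 (n 4 3 e (n 4 5 e (n 4 6 e (n 4 4 e (n 4 4 e e))))) e))))
  e) e) e) (n 2 3 (n 2 1 (n 2 5 e (n 3 2 e (n 2 2 e (n 1 2 e (n 1 3 e (n 1 4 e (n 1 5 e (n 1 6 e (n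
  1 1 e e))))))))) (n 2 6 (n 1 5 (n 2 5 e (n 3 2 e (n 3 3 e e))) (n 3 1 e (n 3 2 e e))) e)) e))))
  e)))) (f [0, 1] (b (l (n 2 6 e (n 6 3 (n 1 3 e (n 1 4 e (n 5 1 (n 2 5 e (n 1 2 (n 6 1 e (n 3 5 (n
  6 5 (n 3 5 e (n 1 3 e (n 2 3 (n 4 6 e e) e))) (n 1 3 e (n 6 1 (n 3 2 (n 2 5 (n 2 6 (n 4 5 e (n 6 4
  (n 2 4 (n 4 2 e e) e) e)) e) e) (n 4 5 e (n 4 6 e e))) e))) (n 1 3 e (n 2 5 (n 1 2 e (n 3 1 (n 5 1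
  (n 6 1 (n 4 6 e e) e) e) e)) e)))) e)) e))) (n 6 4 (n 1 4 e (n 2 1 e (n 3 1 e (n 5 1 (n 3 6 e (n 3
  1 (n 3 2 e (n 2 5 (n 3 4 (n 4 5 e (n 4 6 e (n 4 2 e (n 4 2 e e)))) e) e)) e)) e)))) (n 2 5 e (n 1
  5 (n 5 6 (n 6 2 (n 3 1 e (n 3 4 e (n 3 5 e (n 3 5 e (n 6 3 (n 6 3 (n 6 3 e (n 2 3 (n 1 2 (n 2 5 e
  e) e) e)) e) e))))) e) e) (n 2 6 e (n 1 2 (n 3 1 e (n 3 4 e (n 3 5 e (n 2 5 (n 3 6 e (n 3 6 e (n 1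
  3 (n 3 6 (n 1 2 (n 2 3 e e) e) e) (n 2 3 e e)))) e)))) e)))))))) z)))))) (b (b (t [0, 1] (t [0, 1,
  4] (t [0, 1, 4] (f [0, 7] (l (n 2 3 (n 6 2 (n 3 3 (n 1 2 e (n 2 1 (n 2 5 e (n 4 1 (n 6 1 e (n 4 6
  (n 2 6 e (n 6 6 e e)) e)) e)) e)) e) e) e)))))) (f [0, 1] (b (t [0, 1] (b (l (n 1 3 e (n 1 4 (n 5
  1 (n 1 1 e (n 2 6 e (n 3 6 (n 3 2 e (n 3 4 (n 4 6 (n 5 2 (n 4 3 (n 3 6 (n 6 6 (n 2 1 e (n 2 2 e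
  e)) e) e) e) e) e) (n 5 2 (n 6 3 e (n 4 6 (n 6 6 (n 2 1 e (n 2 2 e e)) e) e)) e))) (n 2 6 e e))))
  e) (n 2 6 e (n 6 2 (n 2 1 (n 3 6 e (n 2 3 e (n 2 3 (n 3 3 (n 2 5 (n 5 2 (n 6 1 e (n 6 4 e e)) (n 5
  6 (n 1 5 (n 5 4 (n 6 4 e (n 6 6 e e)) e) (n 6 1 e (n 6 4 e (n 6 6 e e)))) e)) (n 6 1 e (n 6 4 e
  e))) e) e))) e) (n 3 2 e (n 3 6 (n 5 2 (n 1 5 (n 5 4 (n 3 6 (n 6 6 (n 2 4 e (n 2 2 e e)) e) e) e)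
  (n 3 6 (n 6 6 (n 2 1 e (n 2 4 e (n 2 2 e e))) e) e)) e) e))))))) (l (n 6 2 (n 6 3 (n 1 3 e (n 4 1
  (n 2 1 (n 2 5 e (n 3 5 (n 6 2 (n 3 2 e (n 3 5 e (n 6 1 e (n 6 4 e e)))) (n 6 5 (n 3 5 e (n 1 6 (n
  4 6 e (n 2 4 e (n 2 2 e e))) (n 2 1 e (n 2 4 e e)))) (n 1 5 (n 4 5 e (n 4 6 e (n 2 4 e (n 2 2 e
  e)))) (n 1 6 (n 4 6 e (n 2 4 e (n 2 2 e e))) (n 2 1 e (n 2 4 e e)))))) (n 2 3 e (n 6 2 (n 3 2 (n 5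
  2 e (n 6 1 e (n 6 4 e e))) (n 6 1 e (n 6 4 e e))) (n 1 6 (n 6 4 (n 2 4 e e) e) (n 2 1 e (n 2 4 e
  e))))))) e) e)) (n 4 6 (n 1 5 e (n 1 3 e (n 3 2 e (n 2 5 e (n 4 3 (n 3 6 e (n 2 1 e (n 2 2 e e)))
  e))))) (n 1 4 e (n 2 1 (n 3 2 e (n 2 5 e (n 1 3 (n 4 3 e (n 1 6 (n 3 6 e (n 4 5 e (n 2 4 e (n 2 2
  e e)))) (n 4 5 e (n 2 4 e (n 2 2 e e))))) (n 3 6 e (n 1 5 (n 4 5 e (n 2 4 e (n 2 2 e e))) (n 2 1 e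
  (n 2 4 e e))))))) e)))) e)))) (f [0, 1] (f [0, 1, 1, 11] z))))) (b (t [0, 1] (t [0, 1, 4] (t [0,
  1, 4] (f [0, 3] (l (n 1 3 e (n 2 3 (n 2 6 e (n 2 1 e (n 1 5 e (n 6 4 e (n 6 2 e (n 3 3 e e))))))
  e))))))) (f [0, 1] (b (t [0, 1] (b (l (n 2 6 e (n 6 3 (n 1 3 e (n 1 4 e (n 2 1 (n 3 2 (n 2 5 (n 3
  2 (n 6 1 e (n 6 4 e (n 3 5 e (n 3 6 e (n 1 2 (n 4 2 (n 2 6 e (n 2 2 e e)) e) e))))) e) (n 3 5 (n 6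
  1 e (n 1 5 (n 6 4 e (n 2 6 (n 3 6 e (n 4 5 (n 5 6 e e) (n 4 2 e e))) (n 4 2 e (n 5 4 (n 4 6 e (n 4
  4 e e)) e)))) (n 6 2 (n 6 4 e (n 2 1 (n 1 6 e (n 1 1 e e)) e)) (n 4 2 (n 1 2 (n 3 6 (n 4 6 e e) e)
  e) e)))) (n 6 2 (n 3 2 e (n 6 1 e (n 6 4 e (n 3 6 e (n 3 3 e e))))) (n 1 2 (n 4 2 (n 3 2 (n 3 6 (n
  6 1 (n 2 2 (n 3 3 (n 6 6 e e) e) e) (n 4 6 (n 6 5 e e) e)) e) e) e) e)))) e) e))) (n 1 2 (n 1 3 e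
  e) (n 5 2 (n 3 1 e (n 1 4 (n 1 5 (n 2 3 e e) (n 1 6 (n 2 3 e e) (n 4 6 (n 2 1 (n 1 1 (n 2 3 e (n 2
  2 e e)) e) (n 2 3 (n 1 3 e e) e)) e))) (n 1 5 (n 4 5 (n 2 3 e e) (n 4 6 (n 2 3 e (n 2 2 e e)) (n 2
  4 e (n 2 3 (n 4 3 e e) (n 2 2 e e))))) (n 1 6 (n 4 6 (n 2 3 e (n 2 2 e e)) (n 2 4 e (n 2 3 (n 4 3
  e e) (n 2 2 e e)))) (n 2 1 e (n 2 3 (n 1 3 e (n 4 2 e e)) (n 2 4 (n 4 3 e (n 4 4 e e)) e)))))))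
  e))))) (l (n 6 2 (n 6 3 (n 1 3 e (n 4 1 (n 2 1 (n 2 3 e (n 3 5 (n 5 2 (n 6 1 e (n 1 5 (n 3 5 (n 6
  4 e (n 4 2 e (n 5 4 (n 2 6 e (n 2 2 e e)) e))) (n 6 4 e (n 2 3 (n 2 6 e (n 2 2 e e)) (n 4 2 e (n 2
  6 (n 3 6 e e) e))))) (n 2 6 (n 4 6 e (n 2 4 e (n 2 1 (n 2 2 e e) (n 3 2 (n 6 2 e e) e)))) (n 6 4 e
  (n 1 2 (n 3 2 e (n 3 6 e e)) (n 1 6 (n 3 6 e e) e)))))) e) (n 6 2 (n 6 1 e (n 6 4 e (n 3 2 (n 5 2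
  e (n 5 6 e e)) (n 3 6 (n 5 6 e e) e)))) (n 6 1 (n 1 2 (n 2 4 e (n 3 2 (n 5 2 (n 6 2 e e) e) e)) e)
  (n 4 6 (n 3 2 (n 3 6 e (n 1 2 (n 4 2 (n 2 5 e e) e) e)) (n 2 6 (n 6 3 e e) e)) (n 2 4 e (n 1 2 (n
  3 2 (n 5 2 (n 2 6 e e) e) e) e))))))) e) e)) (n 1 2 e (n 2 5 e (n 4 1 (n 3 1 e (n 3 4 e (n 1 5 (n
  4 2 e (n 4 5 e (n 6 4 (n 2 3 e (n 2 2 e e)) e))) (n 1 6 (n 4 2 e (n 6 4 (n 2 3 e (n 2 2 e e)) e))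
  (n 2 1 (n 2 3 e (n 2 2 e e)) (n 4 2 e (n 1 3 (n 2 3 e e) e))))))) (n 4 6 (n 3 2 e (n 1 3 e (n 3 4
  e (n 2 1 e (n 3 5 e (n 6 3 (n 2 3 (n 2 2 e e) e) e)))))) e))))) e)))) (f [0, 1] (b (l (n 2 6 e (n
  6 3 (n 1 3 e (n 1 4 e (n 2 1 e (n 5 1 (n 3 5 (n 3 5 (n 6 4 (n 1 6 (n 6 5 e e) e) (n 1 6 e (n 4 1 e
  (n 4 5 e (n 6 4 e (n 5 2 (n 2 4 (n 5 4 (n 3 2 (n 2 3 e e) e) e) e) (n 2 4 e e))))))) (n 3 1 (n 6 1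
  e (n 1 4 e (n 3 6 (n 4 6 e (n 2 3 e (n 6 2 e (n 5 2 (n 2 5 e e) e)))) (n 2 6 e e)))) e)) (n 1 3 e
  (n 2 5 (n 3 1 (n 5 1 (n 6 1 e (n 1 4 e (n 2 1 (n 4 6 (n 5 6 (n 3 6 (n 6 3 e e) e) e) e) e))) e) e)
  e))) e)))) (n 6 4 (n 1 4 e (n 2 1 e (n 3 4 (n 3 1 e (n 3 6 e (n 3 2 e e))) (n 3 1 (n 4 1 e (n 1 5
  e (n 4 6 e (n 2 5 (n 4 3 (n 2 4 (n 1 1 e e) e) e) e)))) e)))) (n 1 2 (n 1 3 e e) e)))))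
  z)))))))))) z) (b (f [0, 2] (t [0, 1] (t [0, 4] (b (b (t [0, 4] (t [0, 4] (t [0, 3] (t [0, 3] (f
  [0, 6] (l (n 3 2 e (n 6 2 (n 2 5 e (n 2 2 (n 1 3 e (n 1 5 e (n 1 4 e (n 1 5 e (n 6 1 e (n 4 6 e
  e)))))) e)) e)))))))) (t [0, 4] (t [0, 4] (t [0, 3] (t [0, 3] (l (n 3 2 e (n 2 6 e (n 1 3 e (n 1 2
  e (n 1 4 e (n 1 2 e (n 2 5 e (n 6 1 e (n 6 2 e (n 4 6 e e)))))))))))))))) (b (t [0, 4] (t [0, 4]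
  (t [0, 3] (t [0, 3] (f [0, 6] (l (n 1 3 e (n 3 2 e (n 2 6 e (n 2 1 (n 1 4 (n 6 4 e (n 2 5 (n 5 5
  (n 1 1 e e) e) e)) (n 5 2 e e)) e)))))))))) (t [0, 4] (t [0, 4] (t [0, 3] (t [0, 3] (f [0, 2] (l
  (n 1 3 e (n 3 2 e (n 2 6 e (n 2 1 e (n 1 5 e (n 6 4 e (n 6 2 e e)))))))))))))))))) z))) z)) (f [0,
  1] (t [0, 2, 3] (t [0, 2, 3] (b (t [0, 1, 3] (t [0, 1] (t [0, 1, 3] (f [0, 2] (b (b (t [0, 1] (t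
  [0, 5] (t [0, 5] (f [0, 2, 5, 6] (l (n 2 3 (n 6 2 (n 3 3 (n 1 2 e (n 1 5 e (n 6 1 e (n 2 5 (n 4 1
  e e) e)))) e) e) e)))))) (f [0, 1] (t [0, 5] (t [0, 5] (b (l (n 3 2 (n 3 2 (n 2 2 (n 1 5 (n 6 3 e
  (n 3 6 e (n 6 4 e (n 5 6 (n 1 3 (n 3 5 e e) e) e)))) (n 6 3 (n 1 3 e (n 6 5 (n 6 1 e (n 4 1 (n 3 5
  (n 3 5 e e) e) e)) e)) (n 3 6 e (n 3 5 (n 1 3 (n 1 4 (n 4 6 e e) e) (n 1 6 (n 3 4 (n 4 6 e (n 1 4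
  (n 4 1 e e) e)) e) e)) e)))) e) e) e)) (l (n 2 3 e (n 6 3 (n 1 3 e (n 1 5 e (n 3 2 (n 6 2 e (n 6 6
  e (n 5 2 e (n 3 5 (n 3 5 (n 1 2 (n 4 1 e e) (n 1 6 (n 4 1 e (n 4 2 e e)) e)) e) e)))) (n 6 1 e (n
  4 1 (n 5 3 e (n 5 2 e (n 2 5 e e))) e))))) (n 3 2 e (n 6 2 (n 1 5 (n 6 4 e (n 5 6 (n 1 2 (n 2 5 (n
  3 3 e e) e) (n 3 3 e e)) e)) (n 2 5 (n 3 3 e (n 1 6 (n 6 4 (n 1 4 (n 4 1 e e) e) e) (n 1 2 (n 1 4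
  (n 4 6 e (n 4 6 e e)) e) (n 1 3 (n 1 4 (n 2 4 (n 4 6 e (n 4 6 e (n 4 4 e e))) e) e) e)))) e))
  e)))))))))) (t [0, 1] (b (t [0, 1] (t [0, 5] (t [0, 5] (b (l (n 2 2 (n 3 3 (n 1 5 e (n 6 6 (n 1 4
  e e) e)) e) e)) (l (n 1 3 e (n 2 3 (n 1 5 e (n 6 2 (n 2 5 (n 3 3 (n 4 1 (n 2 2 (n 6 6 e e) e) (n 6
  4 e e)) e) e) e)) e))))))) (f [0, 1] (t [0, 5] (t [0, 5] (b (l (n 1 3 e (n 1 5 e (n 2 3 e (n 3 2 e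
  (n 3 3 (n 6 2 (n 5 6 e (n 5 2 e (n 2 5 (n 1 4 (n 4 6 e e) e) e))) (n 6 2 (n 5 2 e (n 1 4 (n 2 4 (n
  4 6 e (n 4 6 e e)) e) e)) (n 6 6 (n 1 4 (n 4 2 e (n 4 2 e (n 4 4 e e))) e) e))) e)))))) (l (n 1 3
  e (n 1 5 e (n 3 2 (n 3 6 (n 3 2 e (n 6 2 (n 2 5 (n 1 4 (n 4 3 (n 2 2 (n 6 6 e e) e) (n 2 4 (n 6 4
  (n 6 6 (n 2 2 e (n 4 4 e e)) (n 4 6 e (n 4 4 e e))) e) e)) (n 2 2 (n 6 6 e e) e)) e) e)) (n 5 2 e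
  (n 3 5 (n 2 3 (n 2 2 e (n 1 4 (n 4 6 e e) e)) (n 6 4 (n 6 2 e (n 4 1 e e)) (n 4 2 (n 2 6 e e) e)))
  e))) e))))))))))))))) (t [0, 3] (f [0, 1] (t [0, 3] (f [0, 2] (b (t [0, 2] (t [0, 2] (t [0, 4] (t
  [0, 4] (f [0, 1, 4, 5] (l (n 3 2 e (n 6 2 (n 1 5 e (n 2 5 (n 1 2 e (n 1 3 e (n 6 1 e (n 4 1 e
  e)))) e)) e)))))))) (t [0, 1] (t [0, 2] (t [0, 2] (t [0, 4] (t [0, 4] (b (l (n 2 2 (n 6 6 (n 1 3 e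
  (n 1 5 e (n 4 1 (n 3 3 e e) e))) e) e)) (l (n 1 3 e (n 3 2 e (n 1 5 e (n 6 2 (n 2 5 (n 4 1 (n 2 2
  (n 6 6 e e) e) (n 6 4 e e)) e) e)))))))))))))))))))))) z) (b (t [0, 1] (f [0, 2] (f [0, 2] (t [0,
  1] (t [0, 1] (b (t [0, 1, 2] (t [0, 1] (t [0, 1, 2] (f [0, 3] (b (b (t [0, 1] (t [0, 4] (t [0, 4]
  (f [0, 2, 4] (l (n 2 3 (n 3 3 (n 6 2 e (n 1 5 e (n 1 2 (n 1 4 e e) e))) e) e)))))) (f [0, 1] (t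
  [0, 4] (t [0, 4] (b (l (n 6 2 e (n 2 3 e (n 3 2 e (n 1 5 (n 3 3 (n 2 4 e (n 5 2 e e)) e) (n 3 3 (n
  4 2 (n 1 2 e (n 1 4 e e)) (n 1 4 e (n 1 2 (n 4 2 e e) e))) e)))))) (l (n 6 2 e (n 2 3 e (n 3 2 e
  (n 1 5 (n 3 3 e (n 2 4 e (n 5 2 e e))) (n 1 2 (n 2 4 (n 3 3 e (n 1 4 (n 4 1 e e) e)) (n 3 3 e e))
  (n 1 3 (n 4 2 (n 1 1 (n 3 3 e e) e) (n 4 2 (n 1 1 (n 3 3 e e) e) (n 1 4 e e))) e)))))))))))) (t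
  [0, 1] (b (t [0, 1] (t [0, 4] (t [0, 4] (b (l (n 2 2 (n 3 3 (n 1 5 e (n 1 4 e (n 6 6 e e))) e) e))
  (l (n 2 3 (n 3 3 (n 1 5 e (n 6 2 e (n 1 4 e (n 2 1 (n 2 2 e e) (n 4 2 e e))))) e) e)))))) (f [0,
  1] (t [0, 4] (t [0, 4] (b (l (n 6 2 e (n 2 3 e (n 1 5 e (n 1 3 e (n 3 2 e (n 3 3 (n 1 4 (n 4 2 e
  (n 4 2 e (n 4 4 e e))) e) e))))))) (l (n 6 2 e (n 2 3 e (n 1 5 e (n 1 3 e (n 3 2 e (n 3 4 (n 3 3 e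
  (n 1 4 (n 4 2 e (n 4 2 e (n 4 4 e e))) e)) e)))))))))))))))))) (t [0, 2] (f [0, 1] (t [0, 2] (f
  [0, 3] (b (t [0, 2] (t [0, 2] (t [0, 3] (t [0, 3] (f [0, 1, 3] (l (n 3 2 e (n 6 2 e (n 1 3 e (n 1
  5 e (n 1 2 (n 1 4 e e) e))))))))))) (t [0, 1] (t [0, 2] (t [0, 2] (t [0, 3] (t [0, 3] (b (l (n 2 2
  (n 1 3 e (n 1 5 e (n 4 1 (n 3 3 e (n 6 6 e e)) e))) e)) (l (n 1 3 e (n 3 2 e (n 1 5 e (n 6 2 e (n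
  2 2 e (n 4 1 e (n 4 2 e e))))))))))))))))))))))))) z)) z)

set_option maxRecDepth 100000 in
theorem f20A : chkQ 6 2 10897286400000 t20A
    (blks.getD 20 ⟨0, 0, 0, 0, 0, .zr, .zr⟩).A = some [908107200000] := by
  decide +kernel

end Pool.Agent.TH32
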