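import Pool.Agent.TH32.H.Fast

set_option autoImplicit false

namespace Pool.Agent.TH32

open CT PT

set_option maxRecDepth 100000 in
/-- certificate for block 21 (Le1R3), tree B -/
def t21B : PT :=
  (b (b (b (t [0, 1] (b (t [0, 1] (b (t [0, 1] (b (b (t [0, 2] (t [0, 1] (b (b (b (b (t [0, 1] (t
  [0, 1, 5] (t [0, 1, 5] (t [0, 4] (l (n 2 3 (n 6 2 (n 3 3 (n 1 2 e (n 4 1 (n 2 1 (n 2 5 e (n 6 2 e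
  (n 2 7 e (n 2 2 (n 1 6 (n 4 6 e e) e) e)))) e) e)) e) e) e)))))) (f [0, 1] (b (t [0, 1] (b (l (n 6
  2 (n 6 3 (n 1 3 e (n 4 1 (n 2 1 (n 2 5 e (n 6 2 e (n 3 5 (n 2 7 e (n 3 5 (n 6 5 e (n 1 5 (n 2 2 (n
  4 5 e (n 4 6 e e)) e) (n 2 2 (n 1 6 (n 4 6 e e) e) e))) (n 2 2 (n 1 6 (n 4 6 e e) e) e))) (n 2 7 e
  (n 1 6 (n 2 2 (n 3 7 (n 4 6 e e) e) e) e))))) e) e)) (n 4 6 (n 3 2 e (n 2 5 e (n 1 5 (n 3 6 e (n 4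
  3 (n 6 2 e (n 5 6 (n 2 7 e (n 2 2 e e)) e)) e)) (n 3 6 e (n 4 3 (n 2 1 (n 2 7 e (n 2 2 (n 1 3 e (n
  1 4 e (n 1 5 e (n 1 6 e e)))) e)) (n 6 2 e (n 1 7 (n 2 7 (n 7 7 e e) e) e))) e))))) (n 1 4 e (n 2
  1 (n 3 2 e (n 2 5 e (n 3 6 e (n 2 7 e (n 2 2 (n 1 3 (n 4 3 e (n 4 5 e (n 4 6 e e))) (n 1 5 (n 4 5
  e (n 4 6 e e)) (n 1 6 (n 4 6 e e) e))) e))))) e)))) e)) z)) z))) (b (t [0, 1] (t [0, 1, 5] (t [0,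
  1, 5] (l (n 2 3 (n 6 2 (n 3 3 (n 1 2 e (n 4 1 (n 2 1 (n 2 5 e (n 6 2 e (n 2 7 e (n 2 2 e (n 1 6 (n
  4 6 e e) e))))) e) e)) e) e) e))))) (f [0, 1] (b (t [0, 1] (b (l (n 2 6 e (n 6 3 (n 1 3 e (n 1 4 e
  (n 2 1 (n 5 2 (n 6 2 e (n 3 5 (n 2 7 e (n 6 5 (n 3 5 e (n 2 3 (n 2 2 e (n 1 6 (n 4 6 e e) e)) e))
  (n 2 6 (n 2 1 (n 1 5 (n 2 2 e (n 4 5 e (n 4 6 e e))) (n 2 2 e (n 1 6 (n 4 6 e e) e))) (n 4 2 e (n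
  4 5 e (n 4 6 e e)))) (n 3 2 e (n 1 5 (n 4 5 e (n 4 6 e e)) (n 1 6 (n 4 6 e e) e)))))) (n 2 3 e (n
  1 6 (n 4 6 (n 2 7 (n 3 7 e e) (n 1 2 (n 3 2 (n 4 2 (n 5 2 (n 2 6 e e) e) e) e) e)) e) e)))) e)
  e))) (n 3 6 e (n 3 2 e (n 6 4 (n 1 4 e (n 2 1 (n 2 5 e (n 7 2 (n 3 2 e (n 2 1 (n 2 2 e (n 1 3 (n 4
  3 e (n 4 5 e (n 4 6 e (n 4 4 e e)))) (n 1 5 (n 4 5 e (n 4 6 e (n 4 4 e e))) (n 1 6 (n 4 6 e (n 4 4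
  e e)) (n 1 1 (n 4 4 e e) e))))) (n 2 4 (n 4 3 e (n 4 5 e (n 4 6 e (n 4 4 e (n 4 4 e e))))) e)))
  e)) e)) (n 2 5 e (n 1 5 (n 6 2 e (n 5 6 (n 2 7 e (n 3 2 e (n 3 3 e e))) e)) (n 1 2 (n 2 6 (n 1 7
  (n 2 7 e (n 3 2 e (n 3 3 e e))) (n 3 1 e (n 3 2 e e))) e) (n 7 2 (n 3 2 e (n 2 2 e (n 1 2 e (n 1 3
  e (n 1 4 e (n 1 5 e (n 1 6 e (n 1 1 e e)))))))) e)))))))))) z)) z)))) (b (b (t [0, 1] (t [0, 1, 5]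
  (t [0, 1, 5] (t [0, 4] (l (n 2 3 (n 6 2 (n 3 3 (n 1 2 e (n 2 1 (n 2 5 e (n 4 1 (n 1 6 (n 2 7 e (n
  6 4 e (n 6 7 e (n 2 6 e (n 6 6 e e))))) (n 2 7 e e)) e)) e)) e) e) e)))))) (f [0, 1] (b (t [0, 1]
  (b (l (n 6 2 (n 6 3 (n 1 3 e (n 4 1 (n 2 1 (n 2 3 e (n 3 5 (n 5 2 (n 6 2 (n 3 2 e (n 3 5 e (n 6 7
  (n 2 7 e e) (n 6 1 e (n 6 4 e e))))) (n 2 7 e (n 6 5 (n 3 5 e (n 1 6 (n 4 6 e (n 2 4 e (n 2 2 e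
  e))) (n 2 1 e (n 2 4 e e)))) (n 1 5 (n 4 5 e (n 4 6 e (n 2 4 e (n 2 2 e e)))) (n 1 6 (n 4 6 e (n 2
  4 e (n 2 2 e e))) (n 2 1 e (n 2 4 e e))))))) e) (n 6 2 (n 3 2 (n 5 2 e (n 6 7 (n 2 7 (n 3 7 (n 7 3
  e e) e) e) (n 6 1 e (n 6 4 e e)))) (n 6 7 (n 3 7 (n 7 2 e (n 7 2 e e)) e) (n 6 1 e (n 6 4 e e))))
  (n 2 7 (n 7 3 (n 1 6 (n 4 6 (n 6 7 e (n 3 6 e (n 6 6 e e))) e) e) e) (n 1 6 (n 6 4 (n 2 4 e e) e)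
  (n 2 1 e (n 2 4 e e))))))) e) e)) (n 4 6 (n 1 3 e (n 3 2 e (n 2 5 e (n 1 5 e (n 2 7 e (n 3 4 e (n
  6 3 (n 2 1 e (n 2 2 e e)) e))))))) (n 1 4 e (n 2 1 (n 2 5 e (n 3 2 e (n 2 7 e (n 1 3 (n 4 3 e (n 1
  5 (n 3 5 e (n 3 6 e (n 2 4 e (n 2 2 e e)))) (n 1 6 (n 3 6 e (n 2 4 e (n 2 2 e e))) (n 2 4 e (n 2 2
  e e))))) (n 3 5 e (n 3 6 e (n 2 1 e (n 2 4 e e)))))))) e)))) e)) z)) z))) (b (t [0, 1] (t [0, 1,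
  5] (t [0, 1, 5] (t [0, 3] (l (n 1 3 e (n 2 3 (n 2 6 e (n 1 2 (n 1 5 e (n 6 4 e (n 2 6 (n 2 7 e (n
  3 3 (n 2 2 e e) e)) e))) e)) e))))))) (f [0, 1] (b (t [0, 1] (b (l (n 1 3 e (n 2 6 e (n 3 6 (n 1 4
  (n 6 4 (n 3 4 e (n 2 3 (n 2 5 e (n 1 5 e (n 2 7 e (n 2 1 e (n 3 6 (n 4 6 e (n 4 2 e e)) (n 3 2 (n
  4 2 e e) e)))))) e)) (n 3 2 e (n 2 5 e (n 7 2 (n 1 5 e (n 3 4 e (n 2 1 e (n 3 6 e (n 2 3 (n 2 2 e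
  e) e))))) e)))) (n 3 2 e (n 2 5 e (n 5 1 (n 6 3 (n 2 7 e (n 2 1 e (n 4 2 (n 3 2 e (n 3 3 e e))
  e))) e) (n 4 5 e (n 2 7 e (n 2 4 e (n 3 6 e (n 3 2 e e))))))))) (n 6 4 (n 1 2 e e) (n 5 1 (n 2 5 e
  (n 1 1 e (n 5 3 (n 3 2 (n 3 1 (n 2 1 e (n 6 2 e (n 2 7 e (n 3 1 (n 4 1 (n 5 1 (n 6 1 e (n 2 6 e
  e)) (n 5 2 (n 2 6 e e) e)) (n 4 2 (n 5 2 (n 2 6 e e) e) e)) (n 3 2 (n 4 2 (n 5 2 (n 2 6 e e) e) e)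
  e))))) (n 6 2 e (n 3 6 (n 2 7 (n 3 7 e e) (n 1 2 (n 2 3 e (n 4 2 (n 5 2 (n 2 6 e e) e) e)) e))
  e))) e) (n 4 5 (n 6 2 (n 2 1 (n 6 7 e (n 6 1 e (n 3 2 e (n 3 5 e (n 6 3 e e))))) e) (n 2 7 e (n 2
  1 e (n 3 5 (n 6 5 e (n 2 6 e e)) (n 3 2 (n 2 6 e e) e))))) (n 2 1 e (n 6 2 e (n 2 7 e (n 3 1 (n 4
  1 (n 6 1 e (n 2 6 e e)) (n 4 2 (n 2 6 e e) e)) (n 3 2 (n 4 2 (n 2 6 e e) e) e))))))))) e)))))) z))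
  z))))) (b (b (t [0, 1] (t [0, 1, 4] (t [0, 1, 4] (t [0, 7] (l (n 2 3 (n 6 2 (n 3 3 (n 1 2 e (n 4 1
  (n 2 1 (n 2 5 e (n 2 7 (n 6 1 e (n 2 6 (n 4 6 e e) e)) e)) e) e)) e) e) e)))))) (f [0, 1] (b (t
  [0, 1] (b (l (n 6 2 (n 6 3 (n 1 3 e (n 4 1 (n 2 1 (n 2 5 e (n 6 2 e (n 3 5 (n 2 7 (n 6 5 (n 3 5 e
  (n 1 6 (n 4 6 e e) e)) (n 1 5 (n 4 5 e (n 4 6 e e)) (n 1 6 (n 4 6 e e) e))) e) (n 2 7 (n 2 3 e (n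
  1 6 (n 4 6 e e) e)) e)))) e) e)) (n 1 4 (n 4 6 (n 2 6 (n 2 5 e (n 2 7 (n 3 4 e (n 3 6 e (n 3 5 e
  (n 5 3 (n 3 2 e (n 2 3 (n 1 3 e (n 1 4 e (n 1 6 e (n 1 2 e (n 1 2 e (n 5 1 (n 5 1 (n 1 5 e e) e)
  e)))))) e)) e)))) e)) e) e) (n 3 2 e (n 3 6 e (n 2 1 (n 2 5 e (n 2 7 (n 1 3 (n 4 3 e (n 4 5 e (n 4
  6 e e))) (n 1 5 (n 4 5 e (n 4 6 e e)) (n 1 6 (n 4 6 e e) e))) e)) (n 2 6 (n 2 5 (n 5 1 (n 1 7 (n 3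
  4 (n 4 5 e (n 4 6 e (n 2 4 (n 4 2 e (n 4 2 e e)) e))) e) e) e) (n 7 1 e (n 2 7 (n 3 4 (n 4 6 e (n
  2 4 (n 2 4 (n 4 5 e (n 4 5 e (n 4 5 e (n 4 4 e (n 4 4 e e))))) e) e)) e) e))) e)))))) e)) z)) z)))
  (t [0, 1] (b (t [0, 1] (t [0, 1, 4] (t [0, 1, 4] (t [0, 7] (l (n 2 3 (n 6 2 (n 3 3 (n 1 2 e (n 4 1
  (n 2 1 (n 2 5 e (n 2 7 (n 1 6 (n 2 6 (n 6 4 e e) e) e) e)) e) e)) e) e) e)))))) (f [0, 1] (b (t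
  [0, 1] (b (l (n 6 2 (n 6 3 (n 1 3 e (n 4 1 (n 2 1 (n 2 3 e (n 3 5 (n 5 2 (n 6 2 (n 3 2 e (n 3 5 e
  (n 2 7 (n 6 7 e e) e))) (n 2 7 (n 6 5 (n 3 5 e (n 1 6 (n 4 6 e e) e)) (n 1 5 (n 4 5 e (n 4 6 e e))
  (n 1 6 (n 4 6 e e) e))) e)) e) (n 6 2 (n 7 6 e (n 2 7 (n 3 7 (n 3 2 (n 5 2 e e) e) e) e)) (n 7 2 e
  (n 3 7 (n 1 6 (n 3 6 (n 6 4 e e) e) e) e))))) e) e)) (n 4 6 (n 1 5 e (n 1 3 e (n 3 2 e (n 2 5 e (n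
  3 4 e (n 6 3 (n 2 7 e e) e)))))) (n 1 4 e (n 2 1 (n 3 2 e (n 2 5 e (n 1 5 (n 4 3 e (n 3 6 e (n 4 5
  e (n 2 7 e e)))) (n 3 6 e (n 1 3 (n 2 7 (n 4 3 e (n 4 6 e e)) e) (n 2 7 (n 1 6 (n 4 6 e e) e)
  e)))))) e)))) e)) z)) z)))))))) z) (b (f [0, 2] (t [0, 1] (b (b (b (t [0, 5] (t [0, 5] (t [0, 4]
  (t [0, 4] (t [0, 3] (l (n 3 2 e (n 6 2 (n 1 3 e (n 1 2 e (n 4 1 (n 2 1 (n 2 5 e (n 6 2 e (n 2 7 e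
  (n 2 2 (n 1 6 (n 4 6 e e) e) e)))) e) e))) e)))))))) (t [0, 5] (t [0, 5] (t [0, 4] (t [0, 4] (l (n
  2 6 e (n 3 6 e (n 1 3 e (n 3 2 e (n 1 4 e (n 1 2 e (n 2 5 e (n 6 1 e (n 6 2 e (n 2 7 e (n 4 6 e
  e))))))))))))))))) (b (t [0, 5] (t [0, 5] (t [0, 4] (t [0, 4] (t [0, 3] (l (n 1 3 e (n 3 2 e (n 2
  6 e (n 1 5 e (n 2 5 e (n 6 4 (n 1 2 e (n 4 1 (n 7 2 e e) e)) (n 1 2 (n 2 6 (n 2 7 (n 7 1 e e) (n 2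
  2 e e)) e) (n 7 2 e e)))))))))))))) (t [0, 5] (t [0, 5] (t [0, 4] (t [0, 4] (t [0, 2] (l (n 1 3 e
  (n 3 2 e (n 2 6 e (n 6 4 (n 1 2 e e) (n 2 1 e (n 1 5 e (n 6 2 e (n 2 7 e e)))))))))))))))) (b (t
  [0, 4] (t [0, 4] (t [0, 3] (t [0, 3] (t [0, 6] (l (n 3 2 e (n 6 2 (n 1 3 e (n 1 2 e (n 4 1 (n 2 1
  (n 2 5 e (n 2 7 (n 6 1 e (n 2 6 (n 4 6 e e) e)) e)) e) e))) e)))))))) (t [0, 1] (t [0, 4] (t [0,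
  4] (t [0, 3] (t [0, 3] (t [0, 6] (l (n 3 2 e (n 6 2 (n 1 3 e (n 1 2 e (n 4 1 (n 2 1 (n 2 5 e (n 2
  7 (n 1 6 (n 2 6 (n 6 4 e e) e) e) e)) e) e))) e))))))))))))) z))) z)) (f [0, 1] (t [0, 2, 3] (t
  [0, 2, 3] (b (t [0, 1, 3] (t [0, 1] (t [0, 1, 3] (f [0, 2] (b (b (t [0, 1] (t [0, 5] (t [0, 5] (t
  [0, 2, 5, 6] (l (n 2 3 (n 6 2 (n 3 3 (n 1 2 e (n 1 5 e (n 6 1 e (n 2 5 (n 4 1 e e) e)))) e) e)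
  e)))))) (f [0, 1] (t [0, 5] (t [0, 5] (b (l (n 2 3 e (n 6 3 (n 1 3 e (n 1 5 e (n 3 2 (n 6 2 e (n 6
  6 e (n 5 2 e (n 3 5 (n 3 5 (n 1 2 (n 4 1 e e) (n 1 6 (n 4 1 e (n 4 2 e e)) e)) e) e)))) (n 6 1 e
  (n 4 1 (n 5 3 e (n 5 2 e (n 2 5 e e))) e))))) (n 3 2 e (n 6 2 (n 1 5 (n 6 4 e (n 5 6 (n 1 2 (n 2 5
  (n 3 3 e e) e) (n 3 3 e e)) e)) (n 2 5 (n 3 3 e (n 1 6 (n 6 4 (n 1 4 (n 4 1 e e) e) e) (n 1 2 (n 1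
  4 (n 4 6 e (n 4 6 e e)) e) (n 1 3 (n 1 4 (n 2 4 (n 4 6 e (n 4 6 e (n 4 4 e e))) e) e) e)))) e))
  e))))) z))))) (t [0, 1] (b (t [0, 1] (t [0, 5] (t [0, 5] (b (l (n 1 3 e (n 2 3 (n 1 5 e (n 6 2 (n
  2 5 (n 3 3 (n 4 1 (n 2 2 (n 6 6 e e) e) (n 6 4 e e)) e) e) e)) e))) z)))) (f [0, 1] (t [0, 5] (t
  [0, 5] (b (l (n 1 3 e (n 1 5 e (n 3 2 (n 3 6 (n 3 2 e (n 6 2 (n 2 5 (n 1 4 (n 4 3 (n 2 2 (n 6 6 e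
  e) e) (n 2 4 (n 6 4 (n 6 6 (n 2 2 e (n 4 4 e e)) (n 4 6 e (n 4 4 e e))) e) e)) (n 2 2 (n 6 6 e e)
  e)) e) e)) (n 5 2 e (n 3 5 (n 2 3 (n 2 2 e (n 1 4 (n 4 6 e e) e)) (n 6 4 (n 6 2 e (n 4 1 e e)) (n
  4 2 (n 2 6 e e) e))) e))) e)))) z))))))))))) (t [0, 3] (f [0, 1] (t [0, 3] (f [0, 2] (b (t [0, 2]
  (t [0, 2] (t [0, 4] (t [0, 4] (t [0, 1, 4, 5] (l (n 3 2 e (n 6 2 (n 1 5 e (n 2 5 (n 1 2 e (n 1 3 e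
  (n 6 1 e (n 4 1 e e)))) e)) e)))))))) (t [0, 1] (t [0, 2] (t [0, 2] (t [0, 4] (t [0, 4] (b (l (n 1
  3 e (n 3 2 e (n 1 5 e (n 6 2 (n 2 5 (n 4 1 (n 2 2 (n 6 6 e e) e) (n 6 4 e e)) e) e)))))
  z))))))))))))))))) z) (b (t [0, 1] (f [0, 2] (f [0, 2] (t [0, 1] (t [0, 1] (b (t [0, 1, 2] (t [0,
  1] (t [0, 1, 2] (f [0, 3] (b (b (t [0, 1] (t [0, 4] (t [0, 4] (t [0, 2, 4] (l (n 2 3 (n 3 3 (n 6 2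
  e (n 1 5 e (n 1 2 (n 1 4 e e) e))) e) e)))))) (f [0, 1] (t [0, 4] (t [0, 4] (b (l (n 6 2 e (n 2 3
  e (n 3 2 e (n 1 5 (n 3 3 e (n 2 4 e (n 5 2 e e))) (n 1 2 (n 2 4 (n 3 3 e (n 1 4 (n 4 1 e e) e)) (n
  3 3 e e)) (n 1 3 (n 4 2 (n 1 1 (n 3 3 e e) e) (n 4 2 (n 1 1 (n 3 3 e e) e) (n 1 4 e e))) e)))))))
  z))))) (t [0, 1] (b (t [0, 1] (t [0, 4] (t [0, 4] (b (l (n 2 3 (n 3 3 (n 1 5 e (n 6 2 e (n 1 4 e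
  (n 2 1 (n 2 2 e e) (n 4 2 e e))))) e) e)) z)))) (f [0, 1] (t [0, 4] (t [0, 4] (b (l (n 6 2 e (n 2
  3 e (n 1 5 e (n 1 3 e (n 3 2 e (n 3 4 (n 3 3 e (n 1 4 (n 4 2 e (n 4 2 e (n 4 4 e e))) e)) e)))))))
  z))))))))))) (t [0, 2] (f [0, 1] (t [0, 2] (f [0, 3] (b (t [0, 2] (t [0, 2] (t [0, 3] (t [0, 3] (t
  [0, 1, 3] (l (n 3 2 e (n 6 2 e (n 1 3 e (n 1 5 e (n 1 2 (n 1 4 e e) e))))))))))) (t [0, 1] (t [0,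
  2] (t [0, 2] (t [0, 3] (t [0, 3] (b (l (n 1 3 e (n 3 2 e (n 1 5 e (n 6 2 e (n 2 2 e (n 4 1 e (n 4
  2 e e)))))))) z))))))))))))))))) z)) z)

set_option maxRecDepth 100000 in
theorem f21B : chkQ 7 4 10897286400000 t21B
    (blks.getD 21 ⟨0, 0, 0, 0, 0, .zr, .zr⟩).B = some [-227026800000] := by
  decide +kernel

end Pool.Agent.TH32
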