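import Pool.Agent.TH32.H.Fast

set_option autoImplicit false

namespace Pool.Agent.TH32

open CT PT

set_option maxRecDepth 100000 in
/-- certificate for block 23 (Le1R5), tree A -/
def t23A : PT :=
  (b (b (b (t [0, 1] (b (t [0, 1] (b (t [0, 1] (b (b (t [0, 2] (t [0, 1] (t [0, 4] (b (f [0, 5] (b
  (t [0, 1] (t [0, 1, 3] (t [0, 1, 3] (l (n 2 3 (n 6 2 (n 3 3 (n 2 1 (n 2 1 (n 2 5 e (n 2 6 (n 2 4 e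
  (n 1 6 e e)) e)) e) e) e) e) e))))) (f [0, 1] (b (t [0, 1] (b (l (n 2 3 e (n 3 6 (n 3 2 e (n 6 2
  (n 1 2 (n 6 2 e (n 1 5 (n 2 5 e (n 4 2 (n 3 2 e (n 3 4 e e)) e)) (n 1 4 (n 3 2 (n 2 4 (n 4 3 e e)
  e) (n 4 2 (n 3 1 e e) e)) (n 3 1 e (n 3 2 e (n 3 4 e e)))))) (n 2 5 e (n 4 2 (n 3 2 (n 1 3 e (n 5
  1 (n 1 6 e e) e)) (n 3 4 (n 1 2 e (n 1 3 e (n 5 1 (n 1 6 e e) e))) e)) e))) e)) (n 1 3 e (n 1 3 e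
  (n 1 2 e (n 5 2 (n 6 2 e (n 3 4 (n 4 2 (n 5 6 (n 2 6 (n 6 4 (n 2 1 (n 5 1 (n 1 6 (n 3 6 e e) e) (n
  3 5 e (n 3 6 e e))) (n 2 3 (n 3 5 e (n 3 6 e e)) e)) e) (n 5 1 (n 1 6 (n 3 6 e e) e) (n 3 5 e (n 3
  6 e e)))) (n 1 6 (n 3 6 (n 5 3 e e) e) e)) e) (n 6 5 (n 6 1 e (n 3 6 (n 4 6 (n 5 3 e (n 5 4 e (n 5
  5 e e))) e) e)) (n 2 6 e (n 5 1 (n 1 6 (n 3 6 (n 4 6 e e) e) e) (n 3 5 (n 4 5 e (n 4 6 e e)) (n 3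
  6 (n 4 6 e e) e))))))) (n 3 5 e (n 4 3 (n 5 2 (n 6 2 (n 6 1 e (n 3 6 (n 4 6 (n 2 3 e (n 2 4 e e))
  e) e)) e) e) e))))))))) (l (n 2 3 e (n 3 6 (n 3 2 e (n 6 2 (n 1 2 (n 6 2 e (n 5 1 (n 3 1 e (n 2 3
  (n 1 4 (n 2 4 e e) e) e)) (n 2 5 e (n 3 2 e (n 2 4 e e))))) (n 5 2 (n 3 2 e (n 1 2 (n 2 4 (n 1 4 e
  e) e) (n 2 4 e (n 1 3 e (n 5 1 (n 1 6 e e) e))))) e)) e)) (n 1 3 e (n 1 3 e (n 1 2 e (n 5 2 (n 6 2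
  e (n 6 5 e (n 2 6 (n 3 4 (n 4 2 (n 1 2 (n 2 3 (n 3 4 e (n 5 3 (n 3 6 e e) e)) e) (n 4 1 (n 5 1 (n
  1 6 (n 3 6 e e) e) (n 3 5 e (n 3 6 e e))) (n 3 4 e (n 5 3 (n 3 6 e e) e)))) e) (n 2 1 (n 5 1 (n 1
  6 (n 3 6 (n 4 6 e e) e) e) (n 3 5 (n 4 5 e (n 4 6 e e)) (n 3 6 (n 4 6 e e) e))) (n 2 3 (n 3 5 (n 4
  5 e (n 4 6 e e)) (n 3 6 (n 4 6 e e) e)) (n 4 2 e (n 4 5 e (n 4 6 e e)))))) e))) (n 3 5 e (n 5 2 (n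
  6 2 e (n 2 1 (n 1 6 (n 3 6 (n 4 3 e e) e) e) (n 4 3 (n 3 2 (n 4 2 e (n 4 6 e e)) (n 3 6 (n 4 6 e
  e) e)) e))) (n 6 1 e (n 3 6 (n 4 3 e e) e))))))))))))) (f [0, 1] (b (l (n 2 6 e (n 6 3 (n 1 3 e (n
  2 1 e (n 3 1 (n 5 1 (n 6 1 (n 3 1 e e) (n 3 4 (n 1 4 e (n 3 2 (n 6 5 e (n 2 6 (n 4 2 (n 2 1 (n 6 1
  (n 2 3 (n 3 5 (n 2 3 e (n 2 5 e e)) (n 3 4 (n 2 5 e (n 2 2 e e)) (n 3 6 (n 2 5 e (n 2 2 e e)) e)))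
  (n 2 5 (n 3 5 e e) e)) e) e) (n 3 6 (n 3 1 (n 6 1 e (n 6 4 e e)) (n 3 4 (n 6 4 e e) e)) (n 3 2 (n
  6 1 e (n 6 4 e e)) (n 3 5 (n 6 1 e (n 6 4 e e)) e)))) e)) (n 6 5 (n 2 6 (n 3 6 (n 5 3 e e) e) e)
  (n 1 6 (n 6 4 (n 1 2 (n 2 5 (n 3 5 e (n 3 6 e e)) (n 2 6 (n 3 6 e e) e)) (n 3 1 e (n 3 5 e (n 3 6
  e e)))) e) (n 2 5 (n 3 5 e (n 3 6 e e)) (n 2 6 (n 3 6 e e) e)))))) (n 6 5 (n 3 6 (n 4 6 (n 3 2 (n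
  2 4 (n 5 4 e e) e) (n 5 3 e (n 5 4 e e))) e) e) (n 1 6 e (n 2 4 (n 2 5 (n 3 5 (n 4 5 e (n 4 6 e
  e)) (n 3 6 (n 4 6 e e) e)) (n 2 6 (n 3 6 (n 4 6 e e) e) e)) (n 2 5 (n 3 2 (n 2 6 (n 4 5 e (n 6 4
  (n 2 4 (n 4 2 e e) e) e)) e) (n 5 3 (n 3 6 (n 4 6 e e) e) (n 4 5 e (n 4 6 e e)))) e)))))) (n 3 5 e
  (n 3 4 e (n 5 1 (n 6 1 (n 6 3 e (n 4 6 (n 3 2 (n 2 4 (n 1 4 e e) e) (n 1 3 e (n 1 4 e e))) e)) e)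
  e)))) e))) (n 3 6 e (n 3 2 e (n 2 1 e (n 6 2 (n 1 5 (n 6 5 e (n 2 6 (n 2 4 (n 4 6 (n 4 3 (n 3 6 e
  e) e) e) (n 3 6 (n 1 2 (n 2 5 e e) e) e)) e)) (n 1 4 (n 4 6 (n 1 2 (n 4 2 (n 2 6 (n 3 6 (n 2 5 e
  (n 2 2 e e)) e) e) (n 3 4 e (n 3 6 e e))) (n 1 3 (n 3 4 e (n 3 6 e e)) e)) e) (n 2 4 (n 1 3 (n 3 4
  e (n 3 6 e e)) e) (n 2 5 (n 1 2 (n 2 6 (n 3 6 e e) e) (n 3 1 e (n 3 6 e e))) e)))) e)))))))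
  z)))))) (b (b (t [0, 1] (t [0, 2] (t [0, 2] (f [0, 7] (l (n 1 3 e (n 2 3 (n 2 6 e (n 2 1 (n 2 5 e
  (n 4 2 (n 3 3 e e) e)) e)) e))))))) (f [0, 1] (t [0, 2] (t [0, 2] (b (l (n 1 3 e (n 2 6 e (n 2 1
  (n 3 2 (n 2 5 (n 3 5 e (n 4 3 (n 3 2 (n 2 4 (n 4 6 (n 5 6 (n 6 6 e e) e) e) (n 5 2 e (n 5 6 (n 6 6
  e e) e))) (n 6 3 e (n 4 6 (n 5 6 (n 6 6 e e) e) e))) e)) (n 3 2 e (n 3 6 e (n 3 5 (n 5 5 (n 3 4 (n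
  2 4 (n 4 2 e (n 4 6 e (n 4 4 e e))) e) e) e) e)))) (n 6 3 e (n 2 5 e (n 6 2 e (n 4 2 (n 3 6 (n 5 6
  (n 6 6 e e) e) e) e))))) e)))) (l (n 1 3 e (n 2 6 e (n 2 1 (n 3 2 (n 2 5 (n 3 5 e (n 4 3 (n 3 2 (n
  4 2 (n 5 2 e (n 6 5 e e)) (n 4 6 (n 6 5 e e) e)) (n 3 6 (n 4 6 (n 6 5 e e) e) e)) e)) (n 3 2 e (n
  3 6 e (n 3 4 (n 3 5 e (n 2 4 (n 4 2 e (n 4 6 e (n 4 4 e e))) e)) (n 3 5 (n 5 4 e e) e))))) (n 6 3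
  e (n 2 5 e (n 2 6 (n 4 2 (n 3 6 (n 6 5 e e) e) e) (n 4 2 e (n 4 6 e e)))))) e))))))))) (b (t [0,
  1] (t [0, 1, 4] (t [0, 1, 4] (f [0, 3] (l (n 1 3 e (n 2 3 (n 2 6 e (n 2 1 e (n 1 5 e (n 6 2 e (n 3
  3 (n 4 1 e (n 4 2 e e)) e))))) e))))))) (f [0, 1] (b (t [0, 1] (b (l (n 2 3 e (n 3 6 (n 1 3 e (n 3
  2 e (n 2 6 e (n 4 2 (n 1 2 (n 1 5 e (n 3 2 e (n 3 4 e e))) (n 5 2 (n 4 1 e (n 3 4 e (n 3 3 e e)))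
  e)) e)))) (n 1 3 e (n 1 3 e (n 1 2 e (n 3 2 (n 2 6 (n 1 2 (n 1 5 (n 3 5 (n 5 3 (n 4 3 (n 6 3 (n 2
  2 (n 6 6 e e) e) (n 4 6 e e)) (n 2 4 e (n 6 3 e e))) e) (n 4 5 (n 6 6 (n 2 2 e e) (n 4 6 (n 5 6 (n
  6 3 e (n 6 3 e e)) e) e)) (n 3 4 (n 4 3 (n 6 5 (n 2 2 (n 6 6 e e) e) (n 3 6 (n 3 6 (n 6 4 e (n 6 4
  e e)) e) e)) (n 4 2 (n 6 5 (n 2 2 (n 4 4 (n 6 6 e e) e) e) (n 6 3 e (n 6 3 e e))) e)) (n 6 5 (n 2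
  2 (n 6 6 e e) e) (n 3 6 (n 6 3 e (n 6 4 e (n 6 4 e (n 6 6 e e)))) e))))) (n 1 4 (n 3 4 (n 4 3 (n 6
  1 (n 2 2 (n 6 6 e e) e) (n 3 6 (n 3 6 (n 4 6 (n 6 4 e e) e) e) e)) (n 4 2 (n 6 1 (n 2 2 (n 4 4 (n
  6 6 e e) e) e) (n 3 6 (n 6 3 e e) e)) e)) (n 6 1 (n 2 2 (n 6 6 e e) e) (n 3 6 (n 6 3 e (n 6 4 e (n
  6 4 e e))) e))) (n 6 6 (n 2 2 e e) (n 1 6 (n 4 6 (n 6 3 e (n 6 3 e e)) e) e)))) e) e) e))))))) (l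
  (n 2 3 e (n 3 6 (n 1 3 e (n 3 2 e (n 2 6 e (n 4 2 (n 1 2 (n 1 5 e (n 3 2 e (n 3 4 e e))) (n 5 2 (n
  4 1 e (n 3 4 e (n 3 3 e e))) e)) e)))) (n 1 3 e (n 1 3 e (n 1 2 e (n 6 1 e (n 3 2 (n 1 2 e (n 2 5
  (n 3 5 (n 4 3 (n 5 3 (n 3 6 (n 4 6 e e) e) e) e) (n 4 5 (n 4 6 (n 5 6 (n 6 3 e (n 6 3 e e)) e) e)
  (n 4 3 (n 5 6 (n 3 6 (n 3 6 (n 6 4 e (n 6 4 e e)) e) e) e) (n 4 3 (n 5 6 (n 3 6 (n 3 6 (n 6 4 e (n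
  6 4 e e)) e) e) e) e)))) (n 2 4 (n 4 3 (n 2 6 (n 3 6 (n 3 6 (n 4 6 (n 6 4 e e) e) e) e) e) (n 4 3
  (n 2 6 (n 3 6 (n 3 6 (n 4 6 (n 6 4 e e) e) e) e) e) e)) (n 2 6 (n 4 6 (n 6 3 e (n 6 3 e e)) e)
  e)))) (n 3 5 (n 5 2 (n 4 5 (n 4 6 (n 5 6 (n 2 6 (n 6 2 e e) e) e) e) (n 2 4 (n 4 2 (n 5 6 (n 2 6
  (n 2 6 (n 4 6 (n 6 4 e e) e) e) e) e) e) (n 5 6 (n 2 6 (n 6 2 e (n 6 4 e (n 6 4 e e))) e) e))) (n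
  4 2 (n 5 2 (n 2 6 (n 4 6 e e) e) e) e)) (n 4 3 (n 3 6 (n 4 6 (n 6 2 e (n 6 2 e e)) e) e) (n 4 2 (n
  3 6 (n 2 6 (n 2 6 (n 6 4 e (n 6 4 e e)) e) e) e) (n 4 2 (n 3 6 (n 2 6 (n 2 6 (n 6 4 e (n 6 4 e e))
  e) e) e) e)))))))))))))) (f [0, 1] (b (l (n 2 3 e (n 6 3 (n 1 3 e (n 3 1 (n 2 1 e (n 3 1 (n 6 1 e
  (n 6 2 e (n 2 5 (n 1 4 (n 3 5 (n 3 5 e (n 4 3 (n 4 6 (n 3 2 e (n 3 2 e (n 6 3 e e))) (n 2 3 (n 3 2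
  (n 4 2 e e) e) e)) e)) (n 5 4 (n 2 3 (n 3 4 (n 4 3 (n 5 6 (n 3 6 (n 3 6 (n 4 6 (n 4 6 e e) e) e)
  e) e) (n 4 2 (n 5 6 (n 3 6 (n 3 6 e e) e) e) e)) (n 5 6 (n 3 6 (n 3 6 (n 6 4 e (n 6 4 e e)) e) e)
  e)) (n 4 3 (n 2 3 (n 5 6 e (n 5 2 e (n 5 2 e e))) e) e)) (n 3 2 (n 5 2 (n 5 4 (n 6 4 (n 2 4 (n 2 4
  (n 2 3 e (n 2 2 e (n 2 2 e e))) e) e) e) e) (n 2 4 (n 6 4 e (n 6 5 e e)) (n 2 5 (n 6 5 e e) e)))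
  (n 4 6 (n 5 6 (n 6 3 e (n 6 3 e (n 6 6 e e))) e) e)))) (n 3 5 (n 3 5 e (n 3 2 e (n 3 2 e (n 6 3 e
  e)))) (n 3 2 (n 5 2 e (n 2 5 (n 6 5 e e) e)) (n 5 6 (n 6 3 e (n 6 3 e e)) e)))) (n 2 4 (n 3 5 e (n
  1 4 (n 4 5 (n 3 2 (n 3 2 e (n 3 6 e e)) (n 2 6 (n 3 6 (n 6 3 e e) e) e)) (n 3 4 (n 4 3 (n 2 3 (n 3
  6 (n 4 6 (n 2 6 (n 3 6 (n 4 6 e (n 4 4 e e)) (n 3 3 (n 4 4 e e) e)) (n 2 2 (n 3 3 (n 4 4 e e) e)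
  e)) e) e) e) e) (n 3 2 (n 2 3 (n 3 6 (n 4 6 (n 6 4 e e) e) e) (n 2 4 (n 2 6 (n 4 6 (n 4 6 e e) e)
  e) (n 2 2 (n 4 6 e (n 4 4 e e)) e))) (n 2 6 (n 3 6 (n 3 6 (n 6 4 e (n 6 4 e (n 6 6 e e))) e) e)
  e)))) (n 3 2 (n 3 2 e (n 3 6 e e)) (n 2 6 (n 3 6 (n 6 3 e e) e) e)))) e)))) (n 3 3 (n 2 5 (n 2 6
  (n 6 6 e (n 1 5 (n 5 1 (n 4 1 (n 4 6 (n 1 2 e (n 2 1 (n 6 1 e e) e)) (n 2 1 (n 1 2 (n 2 4 e e) e)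
  e)) e) e) (n 4 5 (n 1 2 (n 2 5 (n 2 4 (n 6 4 e (n 6 5 e e)) (n 2 5 (n 6 5 e e) e)) (n 4 5 e (n 6 4
  (n 2 4 (n 2 4 (n 2 1 e (n 2 2 e e)) e) e) e))) (n 4 6 (n 5 6 (n 6 1 e (n 6 1 e (n 6 6 e (n 6 6 e
  e)))) e) e)) (n 2 1 (n 1 4 (n 4 1 (n 5 6 (n 1 6 (n 1 6 (n 6 4 e (n 6 4 e e)) e) e) e) (n 4 2 (n 5
  6 (n 6 1 e (n 6 1 e e)) e) e)) (n 5 6 (n 1 6 (n 1 6 (n 6 4 e (n 6 4 e (n 6 6 e (n 6 6 e e)))) e)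
  e) e)) (n 4 1 (n 2 1 (n 5 6 e (n 2 5 (n 2 5 e e) e)) e) e))))) e) (n 2 4 (n 6 5 e (n 2 6 (n 6 6 e
  (n 1 5 e (n 4 5 (n 1 2 (n 2 1 (n 6 1 e e) e) (n 2 6 (n 6 1 e (n 6 1 e (n 6 6 e e))) e)) (n 4 1 (n
  1 2 (n 2 1 (n 1 6 (n 4 6 (n 6 4 e e) e) e) (n 2 4 (n 2 6 (n 4 6 (n 4 6 e e) e) e) e)) (n 2 6 (n 1
  6 (n 1 6 (n 6 4 e (n 6 4 e (n 6 6 e e))) e) e) e)) (n 4 1 (n 2 1 (n 2 6 (n 1 6 (n 1 6 (n 4 6 (n 6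
  4 e e) e) e) e) e) e) e))))) e)) e)) e))) e)) (n 3 2 e (n 1 2 e e))))) z)))))))))) z) (b (f [0, 2]
  (t [0, 1] (t [0, 4] (b (f [0, 5] (t [0, 3] (t [0, 3] (t [0, 2] (t [0, 2] (l (n 3 2 e (n 6 2 (n 1 3
  e (n 2 1 (n 2 1 (n 2 5 e (n 2 6 (n 2 4 e (n 1 6 e e)) e)) e) e)) e)))))))) (b (t [0, 4] (t [0, 4]
  (t [0, 1] (t [0, 1] (f [0, 6] (l (n 1 3 e (n 3 2 e (n 2 6 e (n 2 1 (n 2 5 e (n 4 2 e e))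
  e)))))))))) (t [0, 4] (t [0, 4] (t [0, 3] (t [0, 3] (f [0, 2] (l (n 1 3 e (n 3 2 e (n 2 6 e (n 2 1
  e (n 1 5 e (n 6 2 e (n 4 1 e (n 4 2 e e))))))))))))))))))) z))) z)) (f [0, 1] (t [0, 2, 3] (t [0,
  2, 3] (b (t [0, 1, 3] (t [0, 1] (t [0, 1, 3] (b (b (b (b (t [0, 1] (t [0, 7] (t [0, 7] (f [0, 4]
  (l (n 2 3 (n 2 6 e (n 2 5 (n 3 3 (n 5 5 (n 1 2 e (n 1 2 e (n 1 6 (n 1 4 e e) e))) e) e) e))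
  e)))))) (f [0, 1] (t [0, 7] (t [0, 7] (b (l (n 2 6 e (n 2 5 (n 5 5 (n 6 3 (n 1 2 e (n 6 2 (n 3 2
  (n 1 3 e (n 3 2 e (n 6 1 e (n 4 1 (n 3 3 e e) e)))) e) (n 3 3 (n 6 6 (n 1 4 e (n 1 2 (n 4 2 e e)
  e)) e) e))) (n 3 2 e (n 3 6 e (n 1 2 (n 3 3 (n 6 2 e (n 4 6 e e)) e) (n 3 3 (n 1 4 (n 1 6 (n 1 4
  (n 4 6 e e) e) (n 4 6 (n 1 2 e (n 1 1 e e)) e)) (n 1 2 (n 4 2 e (n 4 6 e e)) (n 1 6 (n 4 6 e e)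
  e))) e))))) e) e))) (l (n 2 6 e (n 2 5 (n 5 5 (n 3 6 (n 3 2 e (n 3 6 e (n 1 2 (n 6 2 e (n 6 4 e
  e)) (n 1 2 (n 1 4 (n 6 4 e e) e) (n 1 6 (n 2 4 (n 6 4 (n 1 4 (n 4 1 e e) e) e) e) (n 1 3 (n 1 4 (n
  2 4 (n 4 6 e (n 4 6 e e)) e) e) e)))))) (n 1 2 e (n 2 3 e (n 1 3 e (n 6 2 (n 3 2 e (n 1 6 (n 1 4 e
  e) e)) (n 1 2 (n 1 4 e e) (n 1 6 (n 1 4 (n 4 2 e e) e) e))))))) e) e)))))))) (b (t [0, 1] (t [0,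
  7] (t [0, 7] (l (n 2 3 (n 2 6 e (n 3 3 (n 1 2 e (n 2 5 e (n 1 5 e (n 1 6 (n 1 4 e (n 4 2 e e))
  e)))) e)) e))))) (f [0, 1] (t [0, 7] (t [0, 7] (b (l (n 2 6 e (n 6 3 (n 1 3 e (n 1 5 e (n 6 1 e (n
  4 1 (n 3 2 (n 3 5 (n 2 5 e (n 4 2 e (n 1 5 (n 3 5 (n 4 5 (n 5 6 (n 6 2 e (n 6 6 e e)) e) (n 4 2 (n
  6 2 e e) e)) (n 3 2 (n 4 2 (n 6 2 e e) e) e)) (n 1 2 (n 3 2 (n 4 2 (n 6 2 e e) e) e) e)))) (n 2 4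
  (n 4 3 e (n 2 1 e (n 3 2 (n 4 2 (n 5 2 (n 6 2 e e) e) e) e))) e)) e) e)))) (n 2 5 e (n 3 5 e (n 3
  6 e (n 3 2 e (n 1 5 (n 6 4 e (n 4 2 e (n 5 6 (n 3 2 e (n 3 3 e e)) e))) (n 4 2 e (n 1 2 (n 6 2 e
  (n 4 6 (n 1 3 (n 3 2 e (n 3 3 e e)) e) e)) (n 1 6 (n 6 4 (n 3 2 (n 1 4 (n 4 1 e e) e) (n 3 3 (n 1
  4 (n 4 1 e e) e) e)) (n 3 2 e (n 3 3 e e))) (n 1 5 (n 1 4 (n 3 2 (n 4 6 e (n 4 6 e e)) (n 3 3 (n 4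
  6 e (n 4 6 e e)) e)) (n 3 2 e (n 3 3 e e))) (n 1 3 (n 4 5 (n 1 2 (n 3 2 e (n 3 3 e e)) (n 1 1 (n 3
  3 e e) e)) (n 1 4 (n 1 2 (n 3 2 (n 4 6 e (n 4 6 e e)) (n 3 3 (n 4 6 e (n 4 6 e e)) e)) (n 1 1 (n 3
  3 (n 4 6 e (n 4 6 e e)) e) e)) (n 1 2 (n 3 2 (n 4 2 e e) e) e))) e))))))))))))) (l (n 2 6 e (n 3 6
  (n 3 2 e (n 2 5 e (n 3 6 e (n 3 2 e (n 1 5 (n 6 4 e (n 4 2 e (n 6 5 e e))) (n 4 2 e (n 1 2 (n 6 2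
  e (n 6 4 e e)) (n 1 6 (n 6 4 (n 1 4 (n 1 4 e e) e) e) (n 1 2 (n 1 4 (n 6 4 (n 4 6 e e) e) e) (n 1
  3 (n 1 4 (n 2 4 (n 4 6 e (n 4 6 e e)) e) e) (n 1 5 (n 1 4 (n 2 4 (n 3 4 (n 4 6 e (n 4 6 e (n 4 4 e
  e))) e) e) e) e))))))))))) (n 1 3 e (n 2 5 e (n 3 2 (n 6 5 e (n 6 2 e (n 2 6 (n 2 4 (n 1 2 e (n 1
  5 e (n 3 4 (n 4 4 e (n 1 2 (n 1 3 e (n 4 1 e e)) (n 5 1 (n 1 6 (n 1 3 (n 2 3 (n 3 5 (n 4 5 e e) e)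
  (n 4 2 e (n 4 5 e e))) (n 1 4 (n 4 2 e (n 4 5 e e)) e)) e) (n 1 3 (n 3 2 (n 4 2 e e) e) (n 4 1 e
  (n 4 2 e e)))))) e))) e) e))) (n 1 5 e (n 5 3 e (n 3 5 (n 6 5 e (n 1 5 (n 1 4 e (n 4 2 e e)) (n 1
  6 (n 4 1 (n 4 2 e e) (n 5 4 e (n 1 2 (n 2 4 e e) e))) e))) (n 1 6 (n 1 4 e (n 4 2 e e))
  e)))))))))))))))) (b (b (t [0, 1] (t [0, 7] (t [0, 7] (f [0, 4] (l (n 1 3 e (n 2 3 (n 2 6 e (n 2 1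
  (n 5 2 (n 2 4 (n 3 3 (n 6 4 (n 1 4 e e) (n 1 1 (n 2 2 e e) e)) e) e) e) e)) e))))))) (f [0, 1] (t
  [0, 7] (t [0, 7] (b (l (n 1 3 e (n 2 3 e (n 1 5 e (n 3 2 e (n 3 3 (n 6 2 (n 5 2 (n 4 6 e (n 1 4 e
  (n 5 4 (n 2 4 (n 2 4 (n 6 1 e (n 6 4 e e)) e) e) e))) (n 5 2 (n 6 4 (n 4 1 (n 2 4 (n 6 1 e (n 6 4
  e e)) e) e) e) (n 6 4 (n 6 5 e (n 4 1 (n 6 1 e (n 6 4 e e)) e)) (n 6 5 (n 5 4 (n 4 1 e (n 4 4 e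
  e)) e) e)))) (n 6 2 (n 4 1 (n 5 2 (n 2 4 e e) e) (n 2 5 (n 2 4 (n 5 5 (n 6 4 (n 4 6 e e) e) e) (n
  5 5 e e)) (n 2 1 (n 2 4 (n 4 5 e (n 6 4 (n 4 6 e e) e)) e) e))) e)) e)))))) (l (n 1 3 e (n 1 5 e
  (n 2 6 e (n 3 2 (n 3 2 e (n 3 6 e (n 5 3 (n 4 6 e (n 1 4 e (n 4 3 e (n 2 4 (n 2 4 (n 6 1 e (n 6 4
  e e)) e) e)))) (n 5 2 (n 4 6 e (n 1 4 e (n 5 4 (n 2 4 (n 2 4 (n 6 1 e (n 6 4 e e)) e) e) e))) (n 5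
  2 (n 6 4 (n 4 1 (n 2 4 (n 6 1 e (n 6 4 e e)) e) e) e) (n 6 4 (n 6 5 e (n 4 1 (n 6 1 e (n 6 4 e e))
  e)) (n 6 5 (n 5 4 (n 4 1 e (n 4 4 e e)) e) e))))))) (n 6 3 e (n 2 6 (n 3 6 e (n 4 2 (n 2 5 (n 5 4
  (n 4 1 e (n 4 4 e e)) e) e) (n 5 2 (n 4 1 (n 2 1 e (n 2 4 e e)) (n 3 4 (n 4 6 (n 2 1 e (n 2 2 e
  e)) (n 6 4 e (n 2 1 e (n 2 2 e e)))) (n 2 1 e (n 2 2 e e)))) e))) (n 5 2 (n 4 6 e (n 6 1 (n 1 4 (n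
  2 1 (n 3 4 (n 4 6 e e) e) e) (n 2 4 e e)) e)) (n 4 6 (n 6 5 (n 5 4 (n 4 1 e (n 4 4 e e)) e) e) (n
  5 6 (n 4 1 (n 6 1 e (n 6 4 e e)) (n 3 4 e (n 6 1 e (n 6 6 e e)))) e))))))))))))))) (b (t [0, 1] (t
  [0, 7] (t [0, 7] (f [0, 3] (l (n 1 3 e (n 2 3 (n 2 6 e (n 1 5 e (n 2 5 e (n 3 3 (n 2 1 e (n 4 1 e
  (n 6 4 e (n 4 2 e e)))) e)))) e))))))) (f [0, 1] (t [0, 7] (t [0, 7] (b (l (n 2 6 e (n 3 2 (n 1 3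
  e (n 1 5 e (n 5 2 (n 2 4 (n 3 4 (n 3 6 e (n 2 1 (n 3 1 (n 6 1 e (n 2 3 (n 5 3 (n 1 4 e (n 3 6 e (n
  3 3 e e))) e) e)) e) e)) e) e) (n 3 5 e (n 2 5 (n 3 4 (n 3 6 (n 6 5 (n 3 1 e (n 5 3 (n 1 4 (n 4 6
  (n 3 3 (n 5 5 e e) e) e) (n 3 3 (n 5 5 e e) e)) e)) e) (n 6 1 e (n 5 6 (n 1 3 e (n 4 1 e e)) e)))
  e) (n 3 4 (n 3 1 e (n 6 1 (n 1 2 (n 6 3 e (n 2 3 (n 4 6 (n 2 2 (n 3 3 e e) e) e) e)) e) (n 3 6 e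
  (n 1 3 e (n 2 3 (n 4 1 e e) e))))) e)))))) (n 6 3 e (n 1 2 e (n 5 2 (n 1 5 e (n 1 3 e (n 3 6 (n 6
  5 e (n 2 6 e (n 4 6 e (n 1 6 (n 2 4 (n 1 4 (n 2 2 (n 6 6 e (n 4 5 e (n 3 4 (n 4 3 e e) e))) (n 5 2
  (n 3 2 (n 2 3 (n 4 3 e e) e) (n 2 4 (n 4 3 e (n 4 3 e (n 4 4 e e))) e)) (n 4 5 e (n 3 4 (n 4 3 e
  e) e)))) (n 2 1 (n 2 2 (n 6 6 e e) e) (n 2 5 e (n 3 2 (n 2 3 e e) e)))) e) e)))) e))) e)))))) (l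
  (n 2 6 e (n 1 3 e (n 1 5 e (n 3 2 (n 5 2 (n 1 2 e (n 2 4 (n 3 4 (n 3 1 e (n 2 1 (n 5 1 (n 6 1 (n 3
  6 (n 4 6 (n 3 3 e (n 3 3 e e)) e) e) e) e) e)) e) e)) (n 3 5 e (n 5 2 (n 3 4 (n 3 1 e (n 2 1 (n 6
  1 (n 3 3 e (n 6 3 e (n 6 4 e e))) e) e)) e) (n 3 1 e (n 4 1 e (n 6 1 (n 6 4 e (n 3 4 (n 3 3 e e)
  e)) (n 6 5 (n 3 3 e (n 4 1 (n 4 3 e e) (n 6 4 e (n 1 3 (n 3 4 e e) e)))) e))))))) (n 6 3 e (n 2 5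
  e (n 4 2 e (n 2 6 (n 2 1 e (n 6 3 (n 3 2 (n 5 2 e (n 1 4 (n 3 4 (n 6 4 (n 4 6 e e) e) e) e)) (n 1
  4 (n 2 4 (n 3 4 (n 4 6 e (n 4 6 e e)) e) e) e)) (n 5 6 e (n 5 2 e (n 1 4 (n 4 6 e (n 3 4 (n 4 3 e
  e) e)) e))))) (n 1 2 (n 3 2 e (n 4 3 (n 1 6 (n 2 6 (n 3 6 (n 6 4 e (n 6 5 e e)) e) e) e) e)) (n 3
  4 (n 6 1 e (n 4 1 (n 2 6 (n 3 6 (n 6 5 e e) e) e) e)) (n 6 1 e (n 2 6 (n 3 6 (n 6 4 e (n 6 5 e e))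
  e) e)))))))))))))))))))) (b (b (t [0, 1] (t [0, 6] (t [0, 6] (f [0, 2, 6, 7] (l (n 2 3 (n 6 2 (n 3
  3 (n 1 2 e (n 1 5 e (n 2 5 (n 6 1 e (n 4 1 e e)) e))) e) e) e)))))) (f [0, 1] (t [0, 6] (t [0, 6]
  (b (l (n 6 2 (n 2 5 (n 6 3 (n 1 2 e (n 2 3 e (n 1 3 e (n 3 2 (n 5 1 (n 6 2 e (n 6 6 (n 1 2 (n 4 1
  e e) e) e)) e) (n 5 1 (n 6 1 e e) e))))) (n 3 2 e (n 6 3 (n 3 3 (n 1 5 (n 6 2 e (n 4 6 (n 5 6 e e)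
  e)) (n 1 2 (n 2 6 (n 4 6 e e) e) (n 2 1 (n 1 6 (n 2 4 (n 4 6 e (n 1 4 (n 4 1 e e) e)) e) e) (n 4 1
  e (n 4 6 e e))))) e) e))) e) e)) (l (n 6 2 (n 1 5 (n 6 3 e (n 3 2 e (n 2 5 (n 3 6 e (n 6 2 e (n 4
  6 (n 5 6 e e) e))) (n 1 2 e (n 3 6 e (n 6 4 e (n 5 6 e e))))))) (n 2 5 (n 6 3 (n 2 3 e (n 1 3 e (n
  3 2 (n 6 2 e (n 1 2 (n 4 1 (n 6 6 e e) e) (n 6 1 e (n 4 1 e (n 4 2 e e))))) (n 6 1 e (n 4 1 e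
  e))))) (n 3 2 e (n 3 6 e (n 1 6 (n 6 4 (n 1 4 (n 4 1 e e) e) e) (n 1 2 (n 1 4 (n 4 6 e (n 4 6 e
  e)) e) (n 1 3 (n 1 4 (n 2 4 (n 4 6 e (n 4 6 e (n 4 4 e e))) e) e) e)))))) e)) e))))))) (t [0, 1]
  (b (t [0, 1] (t [0, 6] (t [0, 6] (b (l (n 2 2 (n 3 3 (n 1 5 e (n 6 6 (n 1 4 e e) e)) e) e)) (l (n
  2 3 (n 6 2 (n 3 3 (n 1 2 e (n 1 5 e (n 2 5 (n 6 1 (n 4 1 (n 2 2 (n 6 6 e e) e) (n 6 4 e e)) e)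
  e))) e) e) e)))))) (f [0, 1] (t [0, 6] (t [0, 6] (b (l (n 1 5 e (n 1 3 e (n 6 2 (n 2 5 (n 6 3 (n 2
  3 e (n 3 2 (n 6 2 e (n 6 6 (n 4 1 e (n 4 2 e e)) e)) (n 6 6 (n 4 1 (n 3 3 e e) e) e))) (n 3 6 e (n
  3 2 (n 2 2 (n 1 4 (n 4 3 e (n 4 6 e (n 4 6 e e))) e) e) e))) e) e)))) (l (n 1 5 e (n 1 3 e (n 6 2
  (n 2 5 (n 6 3 (n 3 2 (n 2 3 (n 2 2 e (n 4 1 (n 3 3 (n 6 6 e e) e) (n 6 4 e e))) (n 6 4 (n 6 2 e (n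
  4 1 (n 6 6 e e) e)) (n 4 2 (n 6 2 e e) e))) e) (n 3 6 e (n 3 2 e (n 1 4 (n 2 4 (n 4 3 e (n 4 6 e
  (n 4 6 e (n 4 4 e e)))) e) e)))) e) e))))))))))))))) (t [0, 3] (f [0, 1] (t [0, 3] (b (b (b (t [0,
  4] (t [0, 4] (t [0, 6] (t [0, 6] (f [0, 3] (l (n 3 2 e (n 2 6 e (n 2 5 (n 5 5 (n 1 3 e (n 1 2 e (n
  1 2 e (n 1 6 (n 1 4 e e) e)))) e) e))))))))) (t [0, 4] (t [0, 4] (t [0, 6] (t [0, 6] (l (n 3 2 e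
  (n 2 6 e (n 1 2 e (n 2 5 e (n 1 3 e (n 1 5 e (n 1 6 (n 1 4 e (n 4 2 e e)) e))))))))))))) (b (t [0,
  4] (t [0, 4] (t [0, 6] (t [0, 6] (f [0, 3] (l (n 1 3 e (n 3 2 e (n 2 6 e (n 2 1 (n 5 2 (n 2 4 (n 6
  4 (n 1 4 e e) (n 1 1 (n 2 2 e e) e)) e) e) e)))))))))) (t [0, 4] (t [0, 4] (t [0, 6] (t [0, 6] (f
  [0, 2] (l (n 1 3 e (n 3 2 e (n 2 6 e (n 1 5 e (n 2 5 e (n 2 1 e (n 4 1 e (n 6 4 e (n 4 2 e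
  e))))))))))))))))) (b (t [0, 3] (t [0, 3] (t [0, 5] (t [0, 5] (f [0, 1, 5, 6] (l (n 3 2 e (n 6 2
  (n 1 5 e (n 2 5 (n 1 2 e (n 1 3 e (n 6 1 e (n 4 1 e e)))) e)) e)))))))) (t [0, 1] (t [0, 3] (t [0,
  3] (t [0, 5] (t [0, 5] (b (l (n 2 2 (n 6 6 (n 1 3 e (n 1 5 e (n 4 1 (n 3 3 e e) e))) e) e)) (l (n
  3 2 e (n 1 5 e (n 1 3 e (n 1 2 e (n 6 2 (n 2 5 (n 4 1 (n 2 2 (n 6 6 e e) e) (n 6 4 e e)) e)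
  e))))))))))))))))))))))) z) (b (t [0, 1] (f [0, 2] (f [0, 2] (t [0, 1] (t [0, 1] (b (t [0, 1, 2]
  (t [0, 1] (t [0, 1, 2] (f [0, 3] (b (b (t [0, 1] (t [0, 4] (t [0, 4] (f [0, 2, 4] (l (n 2 3 (n 3 3
  (n 6 2 e (n 1 5 e (n 1 2 (n 1 4 e e) e))) e) e)))))) (f [0, 1] (t [0, 4] (t [0, 4] (b (l (n 6 2 e
  (n 2 3 e (n 3 2 e (n 1 5 (n 3 3 (n 2 4 e (n 5 2 e e)) e) (n 3 3 (n 4 2 (n 1 2 e (n 1 4 e e)) (n 1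
  4 e (n 1 2 (n 4 2 e e) e))) e)))))) (l (n 6 2 e (n 2 3 e (n 3 2 e (n 1 5 (n 3 3 e (n 2 4 e (n 5 2
  e e))) (n 1 2 (n 2 4 (n 3 3 e (n 1 4 (n 4 1 e e) e)) (n 3 3 e e)) (n 1 3 (n 4 2 (n 1 1 (n 3 3 e e)
  e) (n 4 2 (n 1 1 (n 3 3 e e) e) (n 1 4 e e))) e)))))))))))) (t [0, 1] (b (t [0, 1] (t [0, 4] (t
  [0, 4] (b (l (n 2 2 (n 3 3 (n 1 5 e (n 1 4 e (n 6 6 e e))) e) e)) (l (n 2 3 (n 3 3 (n 1 5 e (n 6 2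
  e (n 1 4 e (n 2 1 (n 2 2 e e) (n 4 2 e e))))) e) e)))))) (f [0, 1] (t [0, 4] (t [0, 4] (b (l (n 6
  2 e (n 2 3 e (n 1 5 e (n 1 3 e (n 3 2 e (n 3 3 (n 1 4 (n 4 2 e (n 4 2 e (n 4 4 e e))) e) e)))))))
  (l (n 6 2 e (n 2 3 e (n 1 5 e (n 1 3 e (n 3 2 e (n 3 4 (n 3 3 e (n 1 4 (n 4 2 e (n 4 2 e (n 4 4 e
  e))) e)) e)))))))))))))))))) (t [0, 2] (f [0, 1] (t [0, 2] (f [0, 3] (b (t [0, 2] (t [0, 2] (t [0,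
  3] (t [0, 3] (f [0, 1, 3] (l (n 3 2 e (n 6 2 e (n 1 3 e (n 1 5 e (n 1 2 (n 1 4 e e) e)))))))))))
  (t [0, 1] (t [0, 2] (t [0, 2] (t [0, 3] (t [0, 3] (b (l (n 2 2 (n 1 3 e (n 1 5 e (n 4 1 (n 3 3 e
  (n 6 6 e e)) e))) e)) (l (n 1 3 e (n 3 2 e (n 1 5 e (n 6 2 e (n 2 2 e (n 4 1 e (n 4 2 e
  e))))))))))))))))))))))))) z)) z)

set_option maxRecDepth 100000 in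
theorem f23A : chkQ 6 2 10897286400000 t23A
    (blks.getD 23 ⟨0, 0, 0, 0, 0, .zr, .zr⟩).A = some [-1513512000000, -454053600000] := by
  decide +kernel

end Pool.Agent.TH32
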