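import Pool.Agent.TH32.H.Fast

set_option autoImplicit false

namespace Pool.Agent.TH32

open CT PT

set_option maxRecDepth 100000 in
/-- certificate for block 26 (CR1), tree A -/
def t26A : PT :=
  (b (b (b (b (b (t [0, 1] (b (t [0, 1] (b (t [0, 1] (b (b (t [0, 2] (t [0, 1] (t [0, 4] (b (b (b (t
  [0, 1] (t [0, 1, 4] (t [0, 1, 4] (b (l (n 2 2 (n 6 6 (n 3 3 (n 1 4 e (n 5 5 (n 1 1 e e) e)) e) e)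
  e)) (l (n 2 3 (n 6 2 (n 5 6 (n 2 2 (n 3 3 (n 1 4 e (n 6 1 (n 1 5 (n 6 4 (n 1 1 (n 5 5 (n 6 6 e e)
  e) e) e) e) e)) e) e) e) e) e)))))) (f [0, 1] (t [0, 2, 8] (t [0, 2, 8] (b (l (n 2 3 e (n 6 3 e (n
  5 3 (n 1 4 e (n 3 1 (n 4 3 e (n 2 6 (n 6 6 (n 2 4 (n 3 2 (n 5 2 e (n 5 5 (n 1 2 e (n 1 1 e e)) e))
  (n 5 5 (n 1 1 (n 3 3 e e) e) e)) e) e) e)) e)) (n 1 4 (n 4 5 (n 3 2 e (n 6 2 (n 2 2 (n 4 6 (n 5 6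
  (n 3 3 (n 1 6 (n 6 4 e e) e) e) e) e) e) e)) e) (n 2 6 (n 6 6 (n 3 2 e (n 5 2 (n 3 3 (n 2 4 (n 1 2
  e (n 1 5 e e)) e) e) e)) e) e)))))) (l (n 2 3 e (n 6 3 e (n 1 4 (n 5 3 e (n 3 2 e (n 6 2 (n 2 2 (n
  5 6 (n 4 5 (n 3 3 e (n 1 6 (n 6 4 e e) e)) e) e) e) e))) (n 2 6 (n 5 3 (n 3 1 (n 6 6 (n 4 2 e (n 3
  4 (n 3 2 (n 5 2 e (n 1 5 (n 1 1 (n 5 5 e e) e) (n 1 2 (n 5 5 e e) e))) (n 5 5 (n 1 1 (n 3 3 e e)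
  e) (n 1 5 e (n 1 1 e e)))) e)) e) e) (n 6 6 (n 3 2 e (n 5 2 (n 2 4 (n 1 2 (n 3 3 e e) (n 3 3 e (n
  1 3 e (n 1 5 e e)))) e) e)) e)) e)))))))))) (b (t [0, 1] (t [0, 1, 4] (t [0, 1, 4] (f [0, 2, 3, 6]
  (l (n 2 3 (n 2 6 e (n 5 6 (n 3 3 (n 1 4 e (n 1 2 e (n 1 6 e (n 5 1 e (n 2 1 (n 6 4 e e) e))))) e)
  e)) e)))))) (f [0, 1] (b (t [0, 1] (b (l (n 1 4 (n 2 6 e (n 5 6 (n 5 3 e (n 5 4 e (n 3 5 e (n 2 5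
  (n 3 4 e (n 3 6 e (n 3 2 (n 1 6 (n 6 4 (n 2 2 e e) e) (n 2 2 e e)) (n 3 2 (n 1 6 (n 6 4 e e) e)
  e)))) e)))) e)) (n 2 3 e (n 6 3 (n 5 6 (n 1 3 e (n 6 1 (n 3 1 (n 5 1 e (n 2 1 (n 6 4 (n 3 5 (n 1 2
  (n 3 2 (n 5 2 (n 6 2 e (n 6 6 e e)) (n 5 5 (n 6 6 e e) e)) (n 3 3 (n 5 5 (n 6 6 e e) e) e)) (n 1 1
  (n 3 3 (n 5 5 (n 6 6 e e) e) e) e)) e) e) e)) e) e)) e) (n 5 3 (n 3 1 (n 2 6 e (n 1 2 e (n 5 2 e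
  (n 3 6 (n 5 6 e (n 4 6 e (n 3 4 (n 3 4 (n 1 5 (n 1 2 (n 5 2 e (n 5 5 e e)) (n 1 1 (n 5 5 e e) e))
  (n 1 6 (n 5 2 e (n 5 5 e e)) e)) e) e))) (n 4 3 e (n 4 6 e (n 6 4 (n 1 5 (n 1 2 (n 3 2 (n 5 2 e (n
  5 5 e e)) (n 3 3 (n 5 5 e e) e)) (n 1 1 (n 3 3 (n 5 5 e e) e) e)) e) e))))))) e) (n 2 6 e (n 3 6 e
  (n 5 6 (n 3 2 e (n 1 2 (n 2 5 (n 6 4 (n 3 1 e (n 3 2 e e)) e) e) (n 6 4 (n 3 1 (n 1 5 (n 3 2 e (n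
  3 3 e e)) (n 1 6 (n 3 2 e (n 3 3 e e)) e)) (n 1 2 (n 3 2 e e) e)) e))) e)))))))) (l (n 1 4 (n 2 3
  e (n 5 4 e (n 3 5 (n 6 3 e (n 3 2 e (n 2 6 e (n 4 6 (n 5 6 (n 5 2 e (n 3 2 e (n 3 3 e (n 1 6 (n 6
  4 e e) e)))) e) e)))) e))) (n 2 3 e (n 6 2 e (n 5 2 (n 4 2 e (n 6 4 (n 3 6 e (n 5 6 (n 1 6 e (n 6
  2 e (n 1 3 e (n 3 1 (n 6 6 e (n 5 1 e (n 3 5 e e))) e)))) e)) e)) (n 5 6 (n 3 5 e (n 6 4 (n 2 3 (n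
  6 2 (n 1 3 e (n 3 1 (n 2 1 (n 6 1 (n 1 5 (n 3 5 (n 1 2 (n 3 2 (n 5 2 e (n 5 5 e e)) (n 3 3 (n 5 5
  e e) e)) (n 1 1 (n 3 3 (n 5 5 e e) e) e)) e) e) (n 3 6 (n 5 2 e (n 5 5 e e)) (n 3 5 (n 3 2 (n 5 2
  e (n 5 5 e e)) (n 3 3 (n 5 5 e e) e)) e))) e) e)) (n 3 1 (n 3 6 e (n 1 3 e (n 5 1 (n 1 2 (n 3 2 (n
  5 5 (n 6 6 e e) e) e) e) (n 2 3 (n 3 5 e (n 3 3 e e)) e)))) e)) (n 6 3 (n 1 3 (n 3 2 (n 5 2 e (n 5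
  3 e (n 5 1 e (n 3 5 e e)))) e) (n 5 2 e (n 5 3 e (n 5 5 e (n 1 2 e (n 1 3 e (n 1 5 e (n 1 6 e
  e)))))))) e)) e)) e)))))))) (f [0, 1] (b (l (n 1 4 (n 2 6 e (n 5 6 (n 5 3 e (n 3 6 e (n 3 5 e (n 5
  4 e (n 2 5 e (n 3 5 e (n 3 5 (n 2 3 (n 6 1 (n 6 2 e e) (n 4 6 e (n 1 2 (n 2 6 e e) e))) e)
  e))))))) e)) (n 2 3 e (n 6 3 (n 5 6 (n 3 1 (n 6 1 (n 1 5 (n 1 3 (n 6 2 e e) (n 2 1 e (n 6 4 (n 6 2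
  e (n 2 1 (n 3 1 (n 5 1 (n 6 1 e e) e) e) e)) e))) e) e) e) e) (n 2 6 e (n 5 3 (n 3 1 (n 1 2 (n 1 5
  (n 4 3 e (n 5 6 (n 3 6 e (n 3 1 (n 3 2 e (n 5 4 (n 6 4 e e) e)) e)) (n 6 4 (n 3 1 (n 5 1 (n 3 2 (n
  5 2 e (n 2 6 e e)) e) e) e) e))) e) e) e) (n 3 6 e (n 5 6 (n 6 4 (n 1 2 (n 3 1 e (n 2 3 (n 2 5 e
  (n 6 2 e (n 1 2 (n 2 5 (n 3 5 e e) e) (n 3 1 e (n 3 5 e e))))) e)) e) e) e)))))))) z)))))) (b (b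
  (t [0, 1] (t [0, 2] (t [0, 2] (b (l (n 2 2 (n 6 6 (n 3 3 (n 1 4 e (n 5 5 (n 1 1 e e) e)) e) e) e))
  (l (n 1 4 e (n 1 3 e (n 2 3 (n 3 3 (n 2 6 (n 5 2 (n 6 6 (n 2 4 (n 2 2 (n 5 5 e e) e) e) e) e) (n 2
  1 (n 5 6 (n 6 4 e e) e) e)) e) e)))))))) (f [0, 1] (t [0, 2] (t [0, 2] (b (l (n 1 4 e (n 1 3 e (n
  2 3 e (n 3 6 (n 3 2 e (n 3 3 (n 5 2 (n 6 2 (n 4 2 e (n 2 1 (n 5 1 (n 6 4 (n 6 4 e e) e) e) e)) (n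
  6 5 (n 4 6 e (n 2 4 (n 4 2 e (n 5 1 e (n 5 5 e e))) e)) e)) (n 6 2 (n 5 6 (n 2 1 (n 6 4 e e) e) e)
  (n 6 6 (n 5 2 (n 4 2 e e) (n 5 5 e e)) e))) e)) (n 1 3 e (n 2 1 (n 3 2 (n 6 2 (n 5 6 (n 6 4 (n 2 2
  e e) e) e) e) e) e))))))) (l (n 1 4 e (n 1 3 e (n 5 6 (n 6 4 (n 5 2 (n 5 3 (n 2 3 e (n 3 6 (n 6 2
  (n 2 1 (n 3 2 (n 5 2 e (n 5 6 e e)) (n 3 6 (n 5 6 e e) e)) e) (n 3 2 (n 5 2 e (n 5 5 e (n 6 6 e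
  e))) (n 6 6 (n 3 3 (n 5 5 e e) e) e))) (n 1 3 e (n 2 1 (n 3 2 (n 5 2 (n 6 2 e e) e) e) e)))) (n 3
  2 e (n 3 5 e (n 6 2 (n 2 1 e (n 2 2 e e)) e)))) e) e) e))))))))) (b (t [0, 1] (t [0, 1, 4] (t [0,
  1, 4] (f [0, 3] (l (n 1 4 e (n 1 3 e (n 2 3 (n 2 6 e (n 5 6 (n 2 1 e (n 5 2 e (n 3 3 (n 6 4 e e)
  e))) e)) e)))))))) (f [0, 1] (b (t [0, 1] (b (l (n 1 4 e (n 1 3 e (n 2 3 e (n 3 6 (n 3 2 e (n 5 2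
  (n 2 6 (n 5 6 e (n 1 5 (n 4 3 e (n 6 4 (n 2 4 (n 2 4 (n 3 5 e (n 3 3 e e)) e) e) e)) e)) (n 1 2 e
  (n 5 1 e (n 4 2 e (n 4 3 e (n 6 4 (n 6 4 (n 3 5 e (n 3 3 e e)) e) e)))))) (n 2 6 e (n 1 2 (n 6 5
  (n 5 3 (n 5 2 (n 3 4 (n 3 2 e (n 3 3 e e)) e) (n 3 3 (n 5 5 e e) e)) e) (n 4 3 e (n 6 4 (n 3 2 e
  (n 3 3 e e)) e))) e)))) (n 5 6 (n 1 3 (n 5 2 e (n 6 4 (n 5 2 (n 3 5 (n 1 2 (n 6 2 e e) e) e) e)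
  e)) (n 6 4 (n 5 2 (n 2 1 (n 5 1 e (n 3 2 (n 2 6 (n 6 5 e (n 6 6 e e)) e) (n 3 5 (n 6 5 e e) e)))
  e) (n 2 1 e (n 3 2 (n 5 2 (n 6 2 e e) e) e))) e)) e)))))) (l (n 1 4 e (n 1 3 e (n 2 3 e (n 3 6 (n
  3 2 e (n 5 2 (n 6 2 (n 2 1 (n 5 1 e (n 4 3 e (n 3 5 e (n 2 4 (n 3 3 e (n 6 4 (n 6 4 e e) e)) e))))
  e) (n 5 6 e (n 5 1 e (n 4 3 e (n 3 5 e (n 4 6 e (n 3 3 e (n 2 4 (n 2 4 e e) e)))))))) (n 2 6 e (n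
  1 2 (n 3 5 (n 5 6 (n 6 4 (n 3 2 e (n 3 3 e e)) e) e) (n 4 3 e (n 6 4 (n 3 2 (n 5 2 e e) e) e)))
  e)))) (n 5 6 (n 3 1 (n 6 4 (n 1 2 (n 5 2 e (n 3 1 (n 5 1 (n 6 1 e (n 2 6 e e)) (n 5 2 (n 2 6 e e)
  e)) (n 3 2 (n 5 2 (n 2 6 e e) e) e))) e) e) (n 5 2 e (n 5 3 e (n 6 4 (n 1 2 (n 3 2 (n 5 2 (n 2 6 e
  e) e) e) e) e)))) e)))))))) (f [0, 1] (b (l (n 1 4 e (n 1 3 e (n 2 6 e (n 5 6 (n 6 4 (n 2 1 e (n 5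
  2 (n 3 5 e (n 6 2 e (n 2 3 (n 1 3 (n 3 6 (n 1 6 (n 3 6 e (n 5 2 e (n 3 5 e e))) (n 5 1 e (n 2 5 (n
  3 5 e e) e))) (n 5 3 e (n 5 1 e (n 2 5 (n 3 5 (n 6 5 e e) e) e)))) (n 3 1 e (n 3 6 e (n 5 2 e (n 3
  5 e e))))) e))) e)) e) e))))) z)))))))))) z) (b (f [0, 2] (t [0, 1] (t [0, 4] (b (b (t [0, 4] (t
  [0, 4] (t [0, 3] (t [0, 3] (b (l (n 2 2 (n 6 6 (n 1 3 e (n 4 1 (n 5 5 (n 1 1 (n 3 3 e e) e) e) e))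
  e) e)) (l (n 3 2 e (n 6 2 (n 5 6 (n 2 2 (n 1 3 e (n 1 4 e (n 6 1 (n 6 4 (n 5 5 (n 1 1 (n 6 6 e e)
  e) (n 1 5 e (n 1 1 e e))) e) e))) e) e) e)))))))) (t [0, 4] (t [0, 4] (t [0, 3] (t [0, 3] (f [0,
  1, 2, 5] (l (n 3 2 e (n 2 6 e (n 5 6 (n 1 3 e (n 1 4 e (n 1 2 e (n 1 6 e (n 5 1 e (n 2 1 (n 6 4 e
  e) e)))))) e)))))))))) (b (t [0, 4] (t [0, 4] (t [0, 1] (t [0, 1] (b (l (n 2 2 (n 6 6 (n 1 3 e (n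
  1 4 e (n 5 5 (n 3 3 e e) e))) e) e)) (l (n 1 3 e (n 1 4 e (n 3 2 e (n 2 6 (n 5 2 (n 6 6 (n 2 4 (n
  2 2 (n 5 5 e e) e) e) e) e) (n 2 1 (n 5 6 (n 6 4 e e) e) e))))))))))) (t [0, 4] (t [0, 4] (t [0,
  3] (t [0, 3] (f [0, 2] (l (n 1 3 e (n 1 4 e (n 3 2 e (n 2 6 e (n 5 6 (n 2 1 e (n 5 2 e (n 6 4 e
  e))) e)))))))))))))))) z))) z)) (f [0, 1] (t [0, 2, 3] (t [0, 2, 3] (b (t [0, 1, 3] (t [0, 1] (t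
  [0, 1, 3] (f [0, 2] (b (b (t [0, 1] (t [0, 5] (t [0, 5] (b (l (n 2 2 (n 5 5 (n 3 3 (n 1 4 e (n 6 4
  (n 1 1 (n 6 6 e e) e) e)) e) e) e)) (l (n 2 3 (n 3 3 (n 5 6 (n 5 2 (n 1 2 e (n 4 1 (n 1 5 (n 6 4
  (n 6 2 e (n 1 1 (n 2 2 (n 5 5 e e) e) e)) e) e) e)) e) e) e) e)))))) (f [0, 1] (t [0, 5] (t [0, 5]
  (b (l (n 2 3 e (n 3 2 e (n 3 3 (n 5 6 (n 1 4 (n 5 2 e (n 5 4 e (n 4 2 (n 5 2 (n 6 1 (n 6 2 e e) (n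
  4 6 e (n 1 2 (n 2 6 e e) e))) e) e))) (n 6 4 (n 5 2 (n 1 2 e (n 6 5 e (n 1 5 (n 6 2 e (n 6 2 e e))
  e))) (n 5 2 (n 6 2 e (n 6 6 e (n 1 2 e (n 1 5 e e)))) (n 5 5 (n 6 6 e (n 1 2 e (n 1 1 e e))) e)))
  e)) e) e)))) (l (n 5 6 (n 2 3 e (n 5 3 (n 1 3 e (n 4 1 (n 6 4 (n 6 2 e (n 6 3 e (n 3 2 (n 5 2 e (n
  1 2 (n 5 5 e e) (n 5 1 (n 1 1 (n 5 5 e e) e) e))) (n 5 1 (n 1 1 (n 3 3 (n 5 5 e e) e) e) e)))) e)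
  e)) (n 3 2 e (n 5 2 (n 1 4 (n 4 5 (n 3 3 e (n 6 1 (n 6 2 e e) (n 4 6 e (n 1 2 (n 2 6 e e) e)))) e)
  (n 6 4 (n 6 2 e (n 3 1 (n 1 2 (n 3 3 e e) (n 1 5 (n 3 3 e e) e)) e)) e)) e)))) e))))))) (t [0, 1]
  (b (t [0, 1] (t [0, 2] (t [0, 2] (b (l (n 2 2 (n 5 5 (n 3 3 (n 1 4 e (n 6 4 (n 1 1 e (n 6 6 e e))
  e)) e) e) e)) (l (n 2 3 (n 3 3 (n 1 2 e (n 1 4 e (n 5 6 (n 5 2 (n 6 4 (n 6 2 e (n 2 2 (n 5 5 e e)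
  e)) e) e) e))) e) e)))))) (f [0, 1] (t [0, 2] (t [0, 2] (b (l (n 1 3 e (n 1 4 e (n 2 3 e (n 3 2 e
  (n 3 3 (n 5 6 (n 6 4 (n 5 2 (n 6 5 e (n 6 2 e (n 6 2 e e))) (n 5 2 (n 6 2 e (n 6 6 e e)) (n 5 5 (n
  6 6 e e) e))) e) e) e)))))) (l (n 1 3 e (n 1 4 e (n 5 6 (n 3 2 (n 3 5 (n 3 2 e (n 5 2 (n 6 4 (n 6
  2 e (n 2 2 (n 5 5 e e) e)) e) e)) (n 6 4 (n 6 2 e (n 6 3 e (n 2 2 e (n 3 2 (n 5 2 e e) e)))) e))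
  e) e))))))))))))))) (t [0, 3] (f [0, 1] (t [0, 3] (f [0, 2] (b (t [0, 2] (t [0, 2] (t [0, 4] (t
  [0, 4] (b (l (n 2 2 (n 5 5 (n 1 3 e (n 4 1 (n 6 4 (n 1 1 (n 3 3 e (n 6 6 e e)) e) e) e)) e) e)) (l
  (n 3 2 e (n 5 2 (n 5 6 (n 1 2 e (n 1 3 e (n 4 1 (n 1 5 (n 6 4 (n 6 2 e (n 1 1 (n 2 2 (n 5 5 e e)
  e) e)) e) e) e))) e) e)))))))) (t [0, 1] (t [0, 2] (t [0, 2] (t [0, 1] (t [0, 1] (b (l (n 2 2 (n 5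
  5 (n 1 3 e (n 1 4 e (n 6 4 (n 3 3 e (n 6 6 e e)) e))) e) e)) (l (n 1 3 e (n 1 4 e (n 3 2 e (n 5 6
  (n 5 2 (n 6 4 (n 6 2 e (n 2 2 (n 5 5 e e) e)) e) e) e)))))))))))))))))))))) z) (b (t [0, 1] (f [0,
  2, 4] (f [0, 2, 4] (t [0, 1] (t [0, 1] (b (t [0, 1, 2] (t [0, 1] (t [0, 1, 2] (f [0, 3, 5] (b (b
  (t [0, 1] (t [0, 4] (t [0, 4] (b (l (n 2 2 (n 3 3 (n 5 6 (n 1 4 e (n 6 4 (n 1 1 (n 5 5 e e) e) e))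
  e) e) e)) (l (n 2 3 (n 5 6 (n 3 3 (n 1 4 e (n 5 2 e (n 1 2 (n 6 4 (n 1 1 (n 2 2 e e) e) e) e))) e)
  e) e)))))) (f [0, 1] (t [0, 4] (t [0, 4] (b (l (n 5 6 (n 5 2 e (n 2 3 e (n 3 2 e (n 3 3 (n 1 4 (n
  4 2 (n 1 6 (n 6 4 e e) e) e) (n 6 4 (n 1 2 e (n 1 1 e e)) e)) e)))) e)) (l (n 5 6 (n 5 2 e (n 2 3
  e (n 3 2 e (n 3 3 e (n 1 4 (n 4 2 (n 1 6 (n 6 4 e e) e) e) (n 6 4 (n 1 2 e (n 1 3 e (n 1 1 e e)))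
  e)))))) e))))))) (t [0, 1] (b (t [0, 1] (t [0, 2] (t [0, 2] (b (l (n 2 2 (n 3 3 (n 1 4 e (n 5 6 (n
  6 4 (n 1 1 e (n 5 5 e e)) e) e)) e) e)) (l (n 2 3 (n 5 6 (n 3 3 (n 1 4 e (n 1 2 e (n 5 2 e (n 6 4
  (n 2 2 e e) e)))) e) e) e)))))) (f [0, 1] (t [0, 1, 2] (t [0, 1, 2] (b (l (n 2 3 e (n 1 4 e (n 5 6
  (n 1 3 e (n 3 2 e (n 3 3 (n 6 4 (n 5 2 e (n 5 2 e (n 5 5 e e))) e) e))) e)))) (l (n 2 3 e (n 1 4 e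
  (n 5 6 (n 1 3 e (n 5 2 e (n 5 3 e (n 3 2 e (n 6 4 (n 3 3 e e) e))))) e))))))))))))))) (t [0, 2] (f
  [0, 1] (t [0, 2] (f [0, 3, 5] (b (t [0, 2] (t [0, 2] (t [0, 3] (t [0, 3] (b (l (n 2 2 (n 5 6 (n 1
  3 e (n 4 1 (n 6 4 (n 1 1 (n 3 3 e (n 5 5 e e)) e) e) e)) e) e)) (l (n 3 2 e (n 5 6 (n 5 2 e (n 1 3
  e (n 1 4 e (n 1 2 (n 6 4 (n 1 1 (n 2 2 e e) e) e) e)))) e)))))))) (t [0, 1] (t [0, 2] (t [0, 2] (t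
  [0, 1] (t [0, 1] (b (l (n 2 2 (n 5 6 (n 1 3 e (n 1 4 e (n 6 4 (n 3 3 e (n 5 5 e e)) e))) e) e)) (l
  (n 1 3 e (n 1 4 e (n 3 2 e (n 5 6 (n 5 2 e (n 6 4 (n 2 2 e e) e)) e)))))))))))))))))))))) z)) z)
  (b (b (b (t [0, 1] (t [0, 2] (t [0, 2] (b (t [0, 1] (b (t [0, 1, 2] (t [0, 1] (t [0, 1, 2] (t [0,
  4] (b (b (b (t [0, 1] (t [0, 5] (t [0, 5] (b (l (n 2 2 (n 6 6 (n 3 3 (n 1 4 e (n 1 1 (n 5 5 e e)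
  e)) e) e) e)) (l (n 2 3 (n 6 2 (n 5 6 e (n 2 2 (n 3 3 (n 1 4 e (n 6 1 (n 1 1 (n 6 6 e e) e) e)) e)
  e)) e) e)))))) (f [0, 1] (t [0, 5] (t [0, 5] (b (l (n 5 6 e (n 2 6 (n 2 3 e (n 3 2 e (n 6 6 (n 3 3
  (n 1 4 (n 4 2 e e) (n 1 2 e (n 1 1 e e))) e) e))) e))) (l (n 5 6 e (n 2 6 (n 2 3 e (n 6 6 (n 3 2 e
  (n 1 4 (n 4 2 (n 3 3 e e) e) (n 1 3 (n 1 1 (n 3 3 e e) e) (n 1 2 (n 3 3 e e) e)))) e)) e))))))))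
  (b (t [0, 1] (t [0, 5] (t [0, 5] (f [0, 2, 3, 5] (l (n 2 3 (n 2 6 e (n 5 6 e (n 3 3 (n 1 4 e (n 1
  2 e (n 1 6 (n 1 2 e e) e))) e))) e)))))) (f [0, 1] (t [0, 5] (t [0, 5] (b (l (n 5 6 e (n 2 3 e (n
  6 3 (n 1 4 e (n 1 3 e (n 6 1 e (n 2 1 (n 3 1 (n 1 2 (n 3 2 (n 6 2 e (n 6 6 e e)) (n 3 3 (n 6 6 e
  e) e)) (n 1 1 (n 3 3 (n 6 6 e e) e) e)) e) e)))) (n 2 6 e (n 3 6 e (n 1 4 (n 6 4 e (n 3 2 e (n 2 6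
  (n 3 2 e (n 3 3 e e)) e))) (n 3 2 e (n 1 2 (n 2 6 (n 3 1 e (n 3 2 e e)) e) (n 1 3 (n 1 2 (n 3 2 e
  (n 3 3 e e)) (n 1 1 (n 3 3 e e) e)) (n 1 6 (n 3 2 e (n 3 3 e e)) e))))))))))) (l (n 5 6 e (n 2 3 e
  (n 6 3 (n 1 4 e (n 1 3 e (n 6 1 e (n 2 1 (n 3 1 (n 1 2 (n 3 2 (n 6 2 e (n 6 6 e e)) (n 3 3 (n 6 6
  e e) e)) (n 1 1 (n 3 3 (n 6 6 e e) e) e)) e) e)))) (n 2 6 e (n 3 6 e (n 1 4 (n 6 4 e (n 3 2 e (n 2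
  6 (n 3 2 e (n 3 3 e e)) e))) (n 3 2 e (n 1 2 (n 3 1 e (n 3 2 e (n 2 6 e e))) (n 3 2 e (n 3 1 (n 3
  3 e (n 1 2 e (n 1 6 e (n 1 1 e e)))) e))))))))))))))))) (b (b (t [0, 1] (t [0, 2] (t [0, 2] (b (l
  (n 2 2 (n 6 6 (n 3 3 (n 1 4 e (n 1 1 e (n 5 5 e e))) e) e) e)) (l (n 1 3 e (n 1 4 e (n 5 6 e (n 2
  3 (n 3 3 (n 6 2 (n 2 2 (n 6 6 e e) (n 2 1 e e)) e) e) e))))))))) (f [0, 1] (t [0, 2] (t [0, 2] (b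
  (l (n 1 3 e (n 1 4 e (n 5 6 e (n 2 3 e (n 3 2 e (n 3 3 (n 6 2 (n 1 2 e (n 2 1 (n 6 1 e e) e)) (n 6
  2 (n 2 1 e e) (n 6 6 e e))) e))))))) (l (n 1 3 e (n 1 4 e (n 5 6 e (n 2 6 (n 2 3 e (n 3 2 e (n 3 3
  e (n 6 6 e e)))) (n 3 6 (n 3 2 e (n 3 6 e (n 2 1 e e))) (n 2 1 (n 2 3 e (n 3 2 (n 6 2 e e) e))
  e)))))))))))) (b (t [0, 1] (t [0, 5] (t [0, 5] (f [0, 3] (l (n 5 6 e (n 1 3 e (n 1 4 e (n 2 3 (n 2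
  6 e (n 2 1 e (n 6 2 e (n 3 3 e e)))) e))))))))) (f [0, 1] (t [0, 5] (t [0, 5] (b (l (n 1 4 e (n 1
  3 e (n 5 6 e (n 2 3 e (n 6 2 (n 2 1 (n 3 1 e (n 6 3 e (n 1 2 e (n 6 1 (n 1 3 e (n 1 1 e e)) e))))
  (n 3 6 e e)) (n 3 6 e (n 3 1 e (n 6 2 (n 1 2 (n 2 3 (n 1 3 (n 6 3 (n 3 6 e e) e) e) (n 2 2 e e))
  e) e))))))))) (l (n 1 4 e (n 1 3 e (n 5 6 e (n 2 3 e (n 6 2 (n 1 2 e (n 3 6 e (n 3 1 (n 2 3 (n 6 1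
  e (n 3 6 e (n 3 3 e e))) e) e))) (n 3 6 e (n 3 1 e (n 6 2 (n 1 2 e (n 2 3 (n 6 3 (n 3 6 e e) e)
  e)) (n 3 6 e (n 2 3 (n 3 2 e e) e)))))))))))))))))))))) (t [0, 2] (f [0, 1] (t [0, 2] (t [0, 4] (b
  (b (t [0, 3] (t [0, 3] (t [0, 4] (t [0, 4] (b (l (n 2 2 (n 6 6 (n 1 3 e (n 4 1 (n 1 1 (n 3 3 e (n
  5 5 e e)) e) e)) e) e)) (l (n 5 6 e (n 3 2 e (n 6 2 (n 2 2 (n 1 3 e (n 1 4 e (n 6 1 (n 1 1 (n 6 6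
  e e) e) e))) e) e))))))))) (t [0, 3] (t [0, 3] (t [0, 4] (t [0, 4] (f [0, 1, 2, 4] (l (n 5 6 e (n
  3 2 e (n 2 6 e (n 1 3 e (n 1 4 e (n 1 2 e (n 1 6 (n 1 2 e e) e)))))))))))))) (b (t [0, 3] (t [0,
  3] (t [0, 1] (t [0, 1] (b (l (n 2 2 (n 6 6 (n 1 3 e (n 1 4 e (n 3 3 e (n 5 5 e e)))) e) e)) (l (n
  1 3 e (n 1 4 e (n 5 6 e (n 3 2 e (n 2 6 (n 2 2 e (n 6 6 e e)) (n 2 1 e e)))))))))))) (t [0, 3] (t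
  [0, 3] (t [0, 4] (t [0, 4] (f [0, 2] (l (n 5 6 e (n 1 3 e (n 1 4 e (n 3 2 e (n 2 6 e (n 2 1 e (n 6
  2 e e))))))))))))))))))))) z)))) z) (b (t [0, 1] (f [0, 2] (f [0, 2] (t [0, 1] (t [0, 1] (b (t [0,
  1, 2] (t [0, 1] (t [0, 1, 2] (f [0, 3] (b (b (t [0, 1] (t [0, 4] (t [0, 4] (b (l (n 2 2 (n 5 6 e
  (n 3 3 (n 1 4 e (n 1 1 (n 6 6 e e) e)) e)) e)) (l (n 2 3 (n 5 6 e (n 3 3 (n 1 4 e (n 6 2 e (n 1 2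
  (n 1 1 (n 2 2 e e) e) e))) e)) e)))))) (f [0, 1] (t [0, 4] (t [0, 4] (b (l (n 5 6 e (n 6 2 e (n 2
  3 e (n 3 2 e (n 3 3 (n 1 4 (n 4 2 e e) (n 1 2 e (n 1 1 e e))) e)))))) (l (n 5 6 e (n 6 2 e (n 2 3
  e (n 3 2 e (n 1 4 (n 4 2 (n 3 3 e e) e) (n 1 2 (n 3 3 e e) (n 3 1 (n 1 1 (n 3 3 e e) e)
  e))))))))))))) (t [0, 1] (b (t [0, 1] (t [0, 2] (t [0, 2] (b (l (n 2 2 (n 5 6 e (n 3 3 (n 1 4 e (n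
  1 1 e (n 6 6 e e))) e)) e)) (l (n 2 3 (n 5 6 e (n 3 3 (n 1 4 e (n 1 2 e (n 6 2 e (n 2 2 e e))))
  e)) e)))))) (f [0, 1] (t [0, 1, 2] (t [0, 1, 2] (b (l (n 5 6 e (n 1 4 e (n 1 3 e (n 6 2 e (n 2 3 e
  (n 3 2 e (n 3 3 e e)))))))) (l (n 5 6 e (n 1 4 e (n 1 3 e (n 6 2 e (n 2 3 e (n 3 2 e (n 3 3 e
  e))))))))))))))))))) (t [0, 2] (f [0, 1] (t [0, 2] (f [0, 3] (b (t [0, 2] (t [0, 2] (t [0, 3] (t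
  [0, 3] (b (l (n 2 2 (n 5 6 e (n 1 3 e (n 1 4 (n 3 3 e (n 4 4 (n 6 6 e e) e)) e))) e)) (l (n 5 6 e
  (n 3 2 e (n 6 2 e (n 1 3 e (n 1 4 e (n 1 2 (n 1 1 (n 2 2 e e) e) e)))))))))))) (t [0, 1] (t [0, 2]
  (t [0, 2] (t [0, 1] (t [0, 1] (b (l (n 2 2 (n 5 6 e (n 1 3 e (n 1 4 e (n 3 3 e (n 6 6 e e))))) e))
  (l (n 5 6 e (n 1 3 e (n 1 4 e (n 3 2 e (n 6 2 e (n 2 2 e e)))))))))))))))))))))))) z)) z)) z)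

set_option maxRecDepth 100000 in
theorem f26A : chkQ 6 2 10897286400000 t26A
    (blks.getD 26 ⟨0, 0, 0, 0, 0, .zr, .zr⟩).A = some [0] := by
  decide +kernel

end Pool.Agent.TH32
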