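import Pool.Agent.TH32.H.Fast

set_option autoImplicit false

namespace Pool.Agent.TH32

open CT PT

set_option maxRecDepth 100000 in
/-- certificate for block 26 (CR1), tree B -/
def t26B : PT :=
  (b (b (b (b (b (t [0, 1] (b (t [0, 1] (b (t [0, 1] (b (b (t [0, 2] (t [0, 1] (t [0, 4] (b (b (b (t
  [0, 1] (t [0, 1, 4] (t [0, 1, 4] (b (l (n 2 3 (n 6 2 (n 5 6 (n 2 2 (n 3 3 (n 1 4 e (n 6 1 (n 1 5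
  (n 6 4 (n 1 1 (n 5 5 (n 6 6 e e) e) e) e) e) e)) e) e) e) e) e)) z)))) (f [0, 1] (t [0, 2, 8] (t
  [0, 2, 8] (b (l (n 2 3 e (n 6 3 e (n 1 4 (n 5 3 e (n 3 2 e (n 6 2 (n 2 2 (n 5 6 (n 4 5 (n 3 3 e (n
  1 6 (n 6 4 e e) e)) e) e) e) e))) (n 2 6 (n 5 3 (n 3 1 (n 6 6 (n 4 2 e (n 3 4 (n 3 2 (n 5 2 e (n 1
  5 (n 1 1 (n 5 5 e e) e) (n 1 2 (n 5 5 e e) e))) (n 5 5 (n 1 1 (n 3 3 e e) e) (n 1 5 e (n 1 1 e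
  e)))) e)) e) e) (n 6 6 (n 3 2 e (n 5 2 (n 2 4 (n 1 2 (n 3 3 e e) (n 3 3 e (n 1 3 e (n 1 5 e e))))
  e) e)) e)) e))))) z))))) (b (t [0, 1] (t [0, 1, 4] (t [0, 1, 4] (t [0, 2, 3, 6] (l (n 2 3 (n 2 6 e
  (n 5 6 (n 3 3 (n 1 4 e (n 1 2 e (n 1 6 e (n 5 1 e (n 2 1 (n 6 4 e e) e))))) e) e)) e)))))) (f [0,
  1] (b (t [0, 1] (b (l (n 1 4 (n 2 3 e (n 5 4 e (n 3 5 (n 6 3 e (n 3 2 e (n 2 6 e (n 4 6 (n 5 6 (n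
  5 2 e (n 3 2 e (n 3 3 e (n 1 6 (n 6 4 e e) e)))) e) e)))) e))) (n 2 3 e (n 6 2 e (n 5 2 (n 4 2 e
  (n 6 4 (n 3 6 e (n 5 6 (n 1 6 e (n 6 2 e (n 1 3 e (n 3 1 (n 6 6 e (n 5 1 e (n 3 5 e e))) e)))) e))
  e)) (n 5 6 (n 3 5 e (n 6 4 (n 2 3 (n 6 2 (n 1 3 e (n 3 1 (n 2 1 (n 6 1 (n 1 5 (n 3 5 (n 1 2 (n 3 2
  (n 5 2 e (n 5 5 e e)) (n 3 3 (n 5 5 e e) e)) (n 1 1 (n 3 3 (n 5 5 e e) e) e)) e) e) (n 3 6 (n 5 2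
  e (n 5 5 e e)) (n 3 5 (n 3 2 (n 5 2 e (n 5 5 e e)) (n 3 3 (n 5 5 e e) e)) e))) e) e)) (n 3 1 (n 3
  6 e (n 1 3 e (n 5 1 (n 1 2 (n 3 2 (n 5 5 (n 6 6 e e) e) e) e) (n 2 3 (n 3 5 e (n 3 3 e e)) e))))
  e)) (n 6 3 (n 1 3 (n 3 2 (n 5 2 e (n 5 3 e (n 5 1 e (n 3 5 e e)))) e) (n 5 2 e (n 5 3 e (n 5 5 e
  (n 1 2 e (n 1 3 e (n 1 5 e (n 1 6 e e)))))))) e)) e)) e)))))) z)) z)))) (b (b (t [0, 1] (t [0, 2]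
  (t [0, 2] (b (l (n 1 4 e (n 1 3 e (n 2 3 (n 3 3 (n 2 6 (n 5 2 (n 6 6 (n 2 4 (n 2 2 (n 5 5 e e) e)
  e) e) e) (n 2 1 (n 5 6 (n 6 4 e e) e) e)) e) e)))) z)))) (f [0, 1] (t [0, 2] (t [0, 2] (b (l (n 1
  4 e (n 1 3 e (n 5 6 (n 6 4 (n 5 2 (n 5 3 (n 2 3 e (n 3 6 (n 6 2 (n 2 1 (n 3 2 (n 5 2 e (n 5 6 e
  e)) (n 3 6 (n 5 6 e e) e)) e) (n 3 2 (n 5 2 e (n 5 5 e (n 6 6 e e))) (n 6 6 (n 3 3 (n 5 5 e e) e)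
  e))) (n 1 3 e (n 2 1 (n 3 2 (n 5 2 (n 6 2 e e) e) e) e)))) (n 3 2 e (n 3 5 e (n 6 2 (n 2 1 e (n 2
  2 e e)) e)))) e) e) e)))) z))))) (b (t [0, 1] (t [0, 1, 4] (t [0, 1, 4] (t [0, 3] (l (n 1 4 e (n 1
  3 e (n 2 3 (n 2 6 e (n 5 6 (n 2 1 e (n 5 2 e (n 3 3 (n 6 4 e e) e))) e)) e)))))))) (f [0, 1] (b (t
  [0, 1] (b (l (n 1 4 e (n 1 3 e (n 2 3 e (n 3 6 (n 3 2 e (n 5 2 (n 6 2 (n 2 1 (n 5 1 e (n 4 3 e (n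
  3 5 e (n 2 4 (n 3 3 e (n 6 4 (n 6 4 e e) e)) e)))) e) (n 5 6 e (n 5 1 e (n 4 3 e (n 3 5 e (n 4 6 e
  (n 3 3 e (n 2 4 (n 2 4 e e) e)))))))) (n 2 6 e (n 1 2 (n 3 5 (n 5 6 (n 6 4 (n 3 2 e (n 3 3 e e))
  e) e) (n 4 3 e (n 6 4 (n 3 2 (n 5 2 e e) e) e))) e)))) (n 5 6 (n 3 1 (n 6 4 (n 1 2 (n 5 2 e (n 3 1
  (n 5 1 (n 6 1 e (n 2 6 e e)) (n 5 2 (n 2 6 e e) e)) (n 3 2 (n 5 2 (n 2 6 e e) e) e))) e) e) (n 5 2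
  e (n 5 3 e (n 6 4 (n 1 2 (n 3 2 (n 5 2 (n 2 6 e e) e) e) e) e)))) e)))))) z)) z)))))))) z) (b (f
  [0, 2] (t [0, 1] (t [0, 4] (b (b (t [0, 4] (t [0, 4] (t [0, 3] (t [0, 3] (b (l (n 3 2 e (n 6 2 (n
  5 6 (n 2 2 (n 1 3 e (n 1 4 e (n 6 1 (n 6 4 (n 5 5 (n 1 1 (n 6 6 e e) e) (n 1 5 e (n 1 1 e e))) e)
  e))) e) e) e))) z))))) (t [0, 4] (t [0, 4] (t [0, 3] (t [0, 3] (t [0, 1, 2, 5] (l (n 3 2 e (n 2 6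
  e (n 5 6 (n 1 3 e (n 1 4 e (n 1 2 e (n 1 6 e (n 5 1 e (n 2 1 (n 6 4 e e) e)))))) e)))))))))) (b (t
  [0, 4] (t [0, 4] (t [0, 1] (t [0, 1] (b (l (n 1 3 e (n 1 4 e (n 3 2 e (n 2 6 (n 5 2 (n 6 6 (n 2 4
  (n 2 2 (n 5 5 e e) e) e) e) e) (n 2 1 (n 5 6 (n 6 4 e e) e) e)))))) z))))) (t [0, 4] (t [0, 4] (t
  [0, 3] (t [0, 3] (t [0, 2] (l (n 1 3 e (n 1 4 e (n 3 2 e (n 2 6 e (n 5 6 (n 2 1 e (n 5 2 e (n 6 4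
  e e))) e)))))))))))))))) z))) z)) (f [0, 1] (t [0, 2, 3] (t [0, 2, 3] (b (t [0, 1, 3] (t [0, 1] (t
  [0, 1, 3] (f [0, 2] (b (b (t [0, 1] (t [0, 5] (t [0, 5] (b (l (n 2 3 (n 3 3 (n 5 6 (n 5 2 (n 1 2 e
  (n 4 1 (n 1 5 (n 6 4 (n 6 2 e (n 1 1 (n 2 2 (n 5 5 e e) e) e)) e) e) e)) e) e) e) e)) z)))) (f [0,
  1] (t [0, 5] (t [0, 5] (b (l (n 5 6 (n 2 3 e (n 5 3 (n 1 3 e (n 4 1 (n 6 4 (n 6 2 e (n 6 3 e (n 3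
  2 (n 5 2 e (n 1 2 (n 5 5 e e) (n 5 1 (n 1 1 (n 5 5 e e) e) e))) (n 5 1 (n 1 1 (n 3 3 (n 5 5 e e)
  e) e) e)))) e) e)) (n 3 2 e (n 5 2 (n 1 4 (n 4 5 (n 3 3 e (n 6 1 (n 6 2 e e) (n 4 6 e (n 1 2 (n 2
  6 e e) e)))) e) (n 6 4 (n 6 2 e (n 3 1 (n 1 2 (n 3 3 e e) (n 1 5 (n 3 3 e e) e)) e)) e)) e)))) e))
  z))))) (t [0, 1] (b (t [0, 1] (t [0, 2] (t [0, 2] (b (l (n 2 3 (n 3 3 (n 1 2 e (n 1 4 e (n 5 6 (n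
  5 2 (n 6 4 (n 6 2 e (n 2 2 (n 5 5 e e) e)) e) e) e))) e) e)) z)))) (f [0, 1] (t [0, 2] (t [0, 2]
  (b (l (n 1 3 e (n 1 4 e (n 5 6 (n 3 2 (n 3 5 (n 3 2 e (n 5 2 (n 6 4 (n 6 2 e (n 2 2 (n 5 5 e e)
  e)) e) e)) (n 6 4 (n 6 2 e (n 6 3 e (n 2 2 e (n 3 2 (n 5 2 e e) e)))) e)) e) e)))) z))))))))))) (t
  [0, 3] (f [0, 1] (t [0, 3] (f [0, 2] (b (t [0, 2] (t [0, 2] (t [0, 4] (t [0, 4] (b (l (n 3 2 e (n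
  5 2 (n 5 6 (n 1 2 e (n 1 3 e (n 4 1 (n 1 5 (n 6 4 (n 6 2 e (n 1 1 (n 2 2 (n 5 5 e e) e) e)) e) e)
  e))) e) e))) z))))) (t [0, 1] (t [0, 2] (t [0, 2] (t [0, 1] (t [0, 1] (b (l (n 1 3 e (n 1 4 e (n 3
  2 e (n 5 6 (n 5 2 (n 6 4 (n 6 2 e (n 2 2 (n 5 5 e e) e)) e) e) e))))) z))))))))))))))))) z) (b (t
  [0, 1] (f [0, 2, 4] (f [0, 2, 4] (t [0, 1] (t [0, 1] (b (t [0, 1, 2] (t [0, 1] (t [0, 1, 2] (f [0,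
  3, 5] (b (b (t [0, 1] (t [0, 4] (t [0, 4] (b (l (n 2 3 (n 5 6 (n 3 3 (n 1 4 e (n 5 2 e (n 1 2 (n 6
  4 (n 1 1 (n 2 2 e e) e) e) e))) e) e) e)) z)))) (f [0, 1] (t [0, 4] (t [0, 4] (b (l (n 5 6 (n 5 2
  e (n 2 3 e (n 3 2 e (n 3 3 e (n 1 4 (n 4 2 (n 1 6 (n 6 4 e e) e) e) (n 6 4 (n 1 2 e (n 1 3 e (n 1
  1 e e))) e)))))) e)) z))))) (t [0, 1] (b (t [0, 1] (t [0, 2] (t [0, 2] (b (l (n 2 3 (n 5 6 (n 3 3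
  (n 1 4 e (n 1 2 e (n 5 2 e (n 6 4 (n 2 2 e e) e)))) e) e) e)) z)))) (f [0, 1] (t [0, 1, 2] (t [0,
  1, 2] (b (l (n 2 3 e (n 1 4 e (n 5 6 (n 1 3 e (n 5 2 e (n 5 3 e (n 3 2 e (n 6 4 (n 3 3 e e) e)))))
  e)))) z))))))))))) (t [0, 2] (f [0, 1] (t [0, 2] (f [0, 3, 5] (b (t [0, 2] (t [0, 2] (t [0, 3] (t
  [0, 3] (b (l (n 3 2 e (n 5 6 (n 5 2 e (n 1 3 e (n 1 4 e (n 1 2 (n 6 4 (n 1 1 (n 2 2 e e) e) e)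
  e)))) e))) z))))) (t [0, 1] (t [0, 2] (t [0, 2] (t [0, 1] (t [0, 1] (b (l (n 1 3 e (n 1 4 e (n 3 2
  e (n 5 6 (n 5 2 e (n 6 4 (n 2 2 e e) e)) e))))) z))))))))))))))))) z)) z) (b (b (b (t [0, 1] (t
  [0, 2] (t [0, 2] (b (t [0, 1] (b (t [0, 1, 2] (t [0, 1] (t [0, 1, 2] (t [0, 4] (b (b (b (t [0, 1]
  (t [0, 5] (t [0, 5] (b (l (n 2 3 (n 6 2 (n 5 6 e (n 2 2 (n 3 3 (n 1 4 e (n 6 1 (n 1 1 (n 6 6 e e)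
  e) e)) e) e)) e) e)) z)))) (f [0, 1] (t [0, 5] (t [0, 5] (b (l (n 5 6 e (n 2 6 (n 2 3 e (n 6 6 (n
  3 2 e (n 1 4 (n 4 2 (n 3 3 e e) e) (n 1 3 (n 1 1 (n 3 3 e e) e) (n 1 2 (n 3 3 e e) e)))) e)) e)))
  z))))) (b (t [0, 1] (t [0, 5] (t [0, 5] (t [0, 2, 3, 5] (l (n 2 3 (n 2 6 e (n 5 6 e (n 3 3 (n 1 4
  e (n 1 2 e (n 1 6 (n 1 2 e e) e))) e))) e)))))) (f [0, 1] (t [0, 5] (t [0, 5] (b (l (n 5 6 e (n 2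
  3 e (n 6 3 (n 1 4 e (n 1 3 e (n 6 1 e (n 2 1 (n 3 1 (n 1 2 (n 3 2 (n 6 2 e (n 6 6 e e)) (n 3 3 (n
  6 6 e e) e)) (n 1 1 (n 3 3 (n 6 6 e e) e) e)) e) e)))) (n 2 6 e (n 3 6 e (n 1 4 (n 6 4 e (n 3 2 e
  (n 2 6 (n 3 2 e (n 3 3 e e)) e))) (n 3 2 e (n 1 2 (n 3 1 e (n 3 2 e (n 2 6 e e))) (n 3 2 e (n 3 1
  (n 3 3 e (n 1 2 e (n 1 6 e (n 1 1 e e)))) e))))))))))) z)))))) (b (b (t [0, 1] (t [0, 2] (t [0, 2]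
  (b (l (n 1 3 e (n 1 4 e (n 5 6 e (n 2 3 (n 3 3 (n 6 2 (n 2 2 (n 6 6 e e) (n 2 1 e e)) e) e) e)))))
  z)))) (f [0, 1] (t [0, 2] (t [0, 2] (b (l (n 1 3 e (n 1 4 e (n 5 6 e (n 2 6 (n 2 3 e (n 3 2 e (n 3
  3 e (n 6 6 e e)))) (n 3 6 (n 3 2 e (n 3 6 e (n 2 1 e e))) (n 2 1 (n 2 3 e (n 3 2 (n 6 2 e e) e))
  e))))))) z))))) (b (t [0, 1] (t [0, 5] (t [0, 5] (t [0, 3] (l (n 5 6 e (n 1 3 e (n 1 4 e (n 2 3 (n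
  2 6 e (n 2 1 e (n 6 2 e (n 3 3 e e)))) e))))))))) (f [0, 1] (t [0, 5] (t [0, 5] (b (l (n 1 4 e (n
  1 3 e (n 5 6 e (n 2 3 e (n 6 2 (n 1 2 e (n 3 6 e (n 3 1 (n 2 3 (n 6 1 e (n 3 6 e (n 3 3 e e))) e)
  e))) (n 3 6 e (n 3 1 e (n 6 2 (n 1 2 e (n 2 3 (n 6 3 (n 3 6 e e) e) e)) (n 3 6 e (n 2 3 (n 3 2 e
  e) e))))))))))) z))))))))))) (t [0, 2] (f [0, 1] (t [0, 2] (t [0, 4] (b (b (t [0, 3] (t [0, 3] (t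
  [0, 4] (t [0, 4] (b (l (n 5 6 e (n 3 2 e (n 6 2 (n 2 2 (n 1 3 e (n 1 4 e (n 6 1 (n 1 1 (n 6 6 e e)
  e) e))) e) e)))) z))))) (t [0, 3] (t [0, 3] (t [0, 4] (t [0, 4] (t [0, 1, 2, 4] (l (n 5 6 e (n 3 2
  e (n 2 6 e (n 1 3 e (n 1 4 e (n 1 2 e (n 1 6 (n 1 2 e e) e)))))))))))))) (b (t [0, 3] (t [0, 3] (t
  [0, 1] (t [0, 1] (b (l (n 1 3 e (n 1 4 e (n 5 6 e (n 3 2 e (n 2 6 (n 2 2 e (n 6 6 e e)) (n 2 1 e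
  e))))))) z))))) (t [0, 3] (t [0, 3] (t [0, 4] (t [0, 4] (t [0, 2] (l (n 5 6 e (n 1 3 e (n 1 4 e (n
  3 2 e (n 2 6 e (n 2 1 e (n 6 2 e e))))))))))))))))))))) z)))) z) (b (t [0, 1] (f [0, 2] (f [0, 2]
  (t [0, 1] (t [0, 1] (b (t [0, 1, 2] (t [0, 1] (t [0, 1, 2] (f [0, 3] (b (b (t [0, 1] (t [0, 4] (t
  [0, 4] (b (l (n 2 3 (n 5 6 e (n 3 3 (n 1 4 e (n 6 2 e (n 1 2 (n 1 1 (n 2 2 e e) e) e))) e)) e))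
  z)))) (f [0, 1] (t [0, 4] (t [0, 4] (b (l (n 5 6 e (n 6 2 e (n 2 3 e (n 3 2 e (n 1 4 (n 4 2 (n 3 3
  e e) e) (n 1 2 (n 3 3 e e) (n 3 1 (n 1 1 (n 3 3 e e) e) e)))))))) z))))) (t [0, 1] (b (t [0, 1] (t
  [0, 2] (t [0, 2] (b (l (n 2 3 (n 5 6 e (n 3 3 (n 1 4 e (n 1 2 e (n 6 2 e (n 2 2 e e)))) e)) e))
  z)))) (f [0, 1] (t [0, 1, 2] (t [0, 1, 2] (b (l (n 5 6 e (n 1 4 e (n 1 3 e (n 6 2 e (n 2 3 e (n 3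
  2 e (n 3 3 e e)))))))) z))))))))))) (t [0, 2] (f [0, 1] (t [0, 2] (f [0, 3] (b (t [0, 2] (t [0, 2]
  (t [0, 3] (t [0, 3] (b (l (n 5 6 e (n 3 2 e (n 6 2 e (n 1 3 e (n 1 4 e (n 1 2 (n 1 1 (n 2 2 e e)
  e) e))))))) z))))) (t [0, 1] (t [0, 2] (t [0, 2] (t [0, 1] (t [0, 1] (b (l (n 5 6 e (n 1 3 e (n 1
  4 e (n 3 2 e (n 6 2 e (n 2 2 e e))))))) z))))))))))))))))) z)) z)) z)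

set_option maxRecDepth 100000 in
theorem f26B : chkQ 6 3 10897286400000 t26B
    (blks.getD 26 ⟨0, 0, 0, 0, 0, .zr, .zr⟩).B = some [0] := by
  decide +kernel

end Pool.Agent.TH32
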