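import Pool.Agent.TH32.H.Fast

set_option autoImplicit false

namespace Pool.Agent.TH32

open CT PT

set_option maxRecDepth 100000 in
/-- certificate for block 27 (CR2), tree A -/
def t27A : PT :=
  (b (b (b (t [0, 1] (b (t [0, 1] (b (t [0, 1] (b (b (t [0, 2] (t [0, 1] (t [0, 4] (b (b (b (t [0,
  1] (t [0, 1, 4] (t [0, 1, 4] (f [0, 7] (l (n 2 3 (n 5 2 (n 3 3 (n 2 4 e (n 2 2 (n 1 4 e (n 1 4 e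
  (n 1 5 e e))) e)) e) e) e)))))) (f [0, 1] (t [0, 2, 8] (t [0, 2, 8] (b (l (n 2 5 e (n 2 4 (n 4 4
  (n 3 5 (n 3 2 e (n 5 3 (n 3 3 (n 1 2 (n 5 2 e e) (n 1 2 e (n 1 5 e e))) e) e)) (n 1 3 e (n 1 2 e
  (n 2 3 e (n 3 2 (n 5 2 (n 1 5 (n 2 2 e e) e) e) e))))) e) e))) (l (n 2 5 e (n 2 4 (n 4 4 (n 3 5 (n
  3 2 e (n 3 5 e (n 1 2 (n 5 2 e e) (n 1 2 e (n 1 3 e (n 1 5 e e)))))) (n 1 3 e (n 1 2 e (n 2 3 e (n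
  5 2 (n 3 2 e (n 1 5 e e)) (n 1 2 e (n 1 5 e e))))))) e) e)))))))) (b (t [0, 1] (t [0, 1, 4] (t [0,
  1, 4] (l (n 2 3 (n 5 2 (n 3 3 (n 2 1 (n 2 1 (n 2 4 e (n 2 2 e (n 5 1 e (n 2 5 e e)))) e) e) e) e)
  e))))) (f [0, 1] (b (t [0, 1] (b (l (n 2 3 e (n 3 5 (n 3 2 e (n 5 2 (n 1 2 (n 5 2 e (n 1 4 (n 2 4
  e (n 3 2 e (n 3 3 e e))) (n 3 1 e (n 3 2 e e)))) (n 4 2 (n 3 2 (n 1 4 (n 2 2 (n 3 3 e e) e) (n 1 5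
  (n 2 2 (n 3 3 e e) e) (n 3 1 e e))) e) e)) e)) (n 1 3 e (n 1 3 e (n 1 2 e (n 4 2 (n 5 2 e (n 4 5
  (n 5 2 (n 4 1 (n 1 5 (n 3 5 e e) e) (n 3 4 e (n 3 5 e e))) e) (n 1 5 (n 3 5 (n 4 3 e e) e) e))) (n
  3 4 e (n 4 2 (n 5 2 (n 5 1 e (n 3 5 (n 2 3 e (n 2 2 e e)) e)) e) e))))))))) (l (n 2 3 e (n 3 5 (n
  3 2 e (n 5 2 (n 1 2 (n 5 2 e (n 1 4 (n 2 4 e (n 3 2 e (n 3 3 e e))) (n 3 1 e (n 3 2 e e)))) (n 2 4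
  e (n 3 1 (n 3 2 e (n 3 3 e (n 1 4 e (n 1 5 e e)))) (n 1 2 (n 3 2 e e) e)))) e)) (n 1 3 e (n 1 3 e
  (n 1 2 e (n 4 2 (n 5 2 e (n 5 4 e (n 1 4 (n 3 5 (n 3 2 (n 2 5 e e) e) (n 2 5 (n 3 4 e e) e)) (n 1
  5 (n 5 2 (n 2 1 (n 3 5 e e) e) (n 3 2 e (n 3 5 e e))) e)))) (n 3 4 e (n 5 2 (n 4 2 e (n 5 1 e (n 3
  5 e e))) (n 2 1 (n 1 5 (n 3 5 e e) e) (n 3 2 e (n 3 5 e e)))))))))))))) (f [0, 1] (b (l (n 2 5 e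
  (n 2 4 e (n 3 5 (n 1 4 (n 5 4 e (n 5 2 (n 3 1 e (n 3 4 e (n 3 4 e (n 5 3 (n 5 3 (n 5 3 e (n 2 3 (n
  1 2 (n 2 4 e e) e) e)) e) e)))) e)) (n 5 2 (n 1 2 (n 3 1 e (n 3 4 e (n 2 4 (n 5 3 (n 5 3 (n 1 3 (n
  5 3 e (n 1 2 (n 2 3 e e) e)) (n 2 3 e e)) e) e) e))) e) e)) (n 1 3 e (n 1 4 e (n 1 2 (n 1 5 (n 4 3
  (n 1 3 e (n 3 1 (n 4 1 (n 2 4 (n 5 1 e e) e) e) e)) (n 5 4 (n 3 4 e (n 1 3 e (n 2 3 e e))) (n 1 3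
  e (n 5 1 (n 2 3 e (n 5 2 e (n 2 4 e e))) e)))) e) e))))))) z)))))) (b (b (t [0, 1] (t [0, 2] (t
  [0, 2] (f [0, 7] (l (n 1 3 e (n 2 3 (n 2 5 e (n 2 1 (n 4 2 (n 3 3 (n 1 1 (n 2 2 e e) e) e) e) e))
  e))))))) (f [0, 1] (t [0, 2] (t [0, 2] (b (l (n 1 3 e (n 2 5 e (n 2 1 (n 3 2 (n 3 4 (n 3 2 e (n 4
  2 (n 3 5 (n 5 5 (n 1 1 (n 2 2 e e) e) e) e) e)) (n 2 3 (n 3 5 (n 4 5 (n 5 5 e e) e) e) (n 4 2 e (n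
  4 5 (n 5 5 e e) e)))) (n 5 3 e (n 2 5 (n 4 2 (n 3 5 (n 5 5 (n 1 1 (n 2 2 e e) e) e) e) e) e)))
  e)))) (l (n 1 3 e (n 2 5 e (n 2 1 (n 3 2 (n 3 4 (n 3 2 e (n 4 2 (n 3 5 e (n 1 1 (n 2 2 e e) e))
  e)) (n 3 2 (n 4 2 e (n 5 4 e e)) (n 3 5 (n 5 4 e e) e))) (n 5 3 e (n 2 5 (n 4 2 (n 3 5 e (n 1 1 (n
  2 2 e e) e)) e) (n 2 4 (n 4 5 e (n 1 4 e (n 4 4 e e))) e)))) e))))))))) (b (t [0, 1] (t [0, 1, 4]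
  (t [0, 1, 4] (f [0, 3] (l (n 1 3 e (n 2 3 (n 2 5 e (n 2 1 e (n 1 4 e (n 5 2 e (n 3 3 e e)))))
  e))))))) (f [0, 1] (b (t [0, 1] (b (l (n 2 3 e (n 3 5 (n 5 2 (n 1 2 (n 1 3 e e) (n 3 1 e (n 1 2 (n
  2 3 (n 1 4 e (n 1 3 e (n 5 3 e e))) e) (n 2 4 e (n 2 3 e (n 1 5 (n 5 3 e (n 5 5 e e)) e)))))) e)
  (n 1 3 e (n 1 3 e (n 1 2 e (n 4 2 (n 3 4 (n 5 1 e (n 2 5 (n 3 5 e (n 4 1 (n 1 2 e e) (n 4 5 e e)))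
  (n 2 1 (n 4 1 (n 1 5 e (n 1 1 e e)) e) e))) (n 2 3 e (n 2 5 (n 5 1 (n 2 1 e (n 5 2 e (n 5 5 e e)))
  (n 1 2 (n 4 5 (n 5 3 e (n 5 3 e e)) e) e)) e))) (n 5 1 e (n 1 2 (n 3 2 (n 3 4 e (n 3 5 e (n 2 5 e
  (n 2 2 e e)))) e) e))))))))) (l (n 1 3 e (n 2 5 e (n 3 5 (n 3 2 e (n 2 1 e (n 1 4 e (n 3 5 e (n 3
  2 e e))))) (n 2 3 e (n 1 3 (n 1 4 e (n 5 2 e (n 3 5 (n 1 2 (n 3 2 (n 4 2 (n 2 5 e e) e) e) e) e)))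
  (n 2 1 e (n 5 2 e (n 4 1 (n 3 1 (n 5 1 e (n 5 4 e (n 2 5 e e))) (n 3 4 (n 5 4 e (n 2 5 e e)) (n 3
  2 (n 2 5 e e) e))) (n 3 4 e (n 3 1 (n 4 1 (n 5 1 e (n 2 5 e e)) (n 4 2 (n 2 5 e e) e)) (n 3 2 (n 4
  2 (n 2 5 e e) e) e)))))))))))))) (f [0, 1] (b (l (n 2 3 e (n 5 3 (n 1 3 e (n 3 1 (n 2 1 e (n 3 4
  (n 1 4 e (n 5 1 (n 3 4 e (n 3 2 e (n 3 1 e (n 5 2 e (n 3 5 e e))))) e)) (n 3 1 (n 4 1 (n 1 5 (n 5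
  4 (n 5 2 e e) (n 2 4 (n 3 5 (n 3 5 e e) e) e)) e) e) e))) e)) (n 3 2 e (n 1 2 e e))))) z))))))))))
  z) (b (f [0, 2] (t [0, 1] (t [0, 4] (b (b (t [0, 4] (t [0, 4] (t [0, 3] (t [0, 3] (f [0, 6] (l (n
  3 2 e (n 5 2 (n 1 3 e (n 2 4 e (n 2 2 (n 1 4 e (n 1 4 e (n 1 5 e e))) e))) e)))))))) (t [0, 4] (t
  [0, 4] (t [0, 3] (t [0, 3] (l (n 3 2 e (n 5 2 (n 1 3 e (n 2 1 (n 2 1 (n 2 4 e (n 2 2 e (n 5 1 e (n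
  2 5 e e)))) e) e)) e)))))))) (b (t [0, 4] (t [0, 4] (t [0, 1] (t [0, 1] (f [0, 6] (l (n 1 3 e (n 3
  2 e (n 2 5 e (n 2 1 (n 4 2 (n 1 1 (n 2 2 e e) e) e) e)))))))))) (t [0, 4] (t [0, 4] (t [0, 3] (t
  [0, 3] (f [0, 2] (l (n 1 3 e (n 3 2 e (n 2 5 e (n 2 1 e (n 1 4 e (n 5 2 e e))))))))))))))))) z)))
  z)) (f [0, 1] (t [0, 2, 3] (t [0, 2, 3] (b (t [0, 1, 3] (t [0, 1] (t [0, 1, 3] (f [0, 2] (b (b (t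
  [0, 1] (t [0, 5] (t [0, 5] (b (l (n 2 2 (n 3 3 (n 5 5 (n 1 4 e (n 1 1 e e)) e) e) e)) (l (n 2 3 (n
  5 2 (n 3 3 (n 1 2 e (n 4 1 (n 1 5 (n 2 4 (n 1 1 (n 2 2 (n 5 5 e e) e) e) e) e) e)) e) e) e))))))
  (f [0, 1] (t [0, 5] (t [0, 5] (b (l (n 3 2 (n 3 2 (n 5 3 (n 2 2 (n 1 3 e (n 4 1 (n 5 4 (n 1 5 (n 3
  4 (n 3 3 (n 1 1 (n 5 5 e e) e) (n 4 3 e e)) e) e) e) e)) e) (n 2 2 (n 3 5 e (n 1 4 (n 4 5 (n 1 3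
  (n 3 4 e e) e) e) (n 3 4 (n 1 3 e (n 1 5 e e)) e))) e)) e) e)) (l (n 2 3 e (n 5 3 (n 1 3 e (n 4 1
  (n 4 2 e (n 3 4 (n 3 2 (n 5 2 e (n 1 2 (n 5 5 e e) (n 5 1 (n 1 1 (n 5 5 e e) e) e))) (n 5 1 (n 1 1
  (n 3 3 (n 5 5 e e) e) e) e)) e)) e)) (n 3 2 e (n 5 2 (n 1 4 (n 4 5 (n 1 2 (n 2 4 (n 3 3 e e) e) (n
  3 3 e e)) e) (n 2 4 (n 3 1 (n 1 2 (n 3 3 e e) (n 1 5 (n 3 3 e e) e)) e) e)) e)))))))))) (t [0, 1]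
  (b (t [0, 1] (t [0, 2] (t [0, 2] (b (l (n 2 2 (n 3 3 (n 1 4 e (n 1 1 e (n 5 5 e e))) e) e)) (l (n
  1 3 e (n 1 4 e (n 2 3 (n 5 2 (n 2 4 (n 3 3 (n 2 2 (n 5 5 e e) e) e) e) e) e)))))))) (f [0, 1] (t
  [0, 2] (t [0, 2] (b (l (n 1 3 e (n 1 4 e (n 2 3 e (n 3 2 e (n 3 3 (n 5 2 (n 4 5 e (n 4 2 e (n 2 4
  e e))) (n 5 2 (n 4 2 e e) (n 5 5 e e))) e)))))) (l (n 1 3 e (n 1 4 e (n 3 2 (n 3 5 (n 3 2 e (n 5 2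
  (n 2 4 (n 2 2 (n 5 5 e e) e) e) e)) (n 4 2 e (n 3 4 (n 2 2 e (n 3 2 (n 5 2 e e) e)) e)))
  e))))))))))))))) (t [0, 3] (f [0, 1] (t [0, 3] (f [0, 2] (b (t [0, 2] (t [0, 2] (t [0, 4] (t [0,
  4] (b (l (n 2 2 (n 5 5 (n 1 3 e (n 1 4 (n 3 3 e (n 4 4 e e)) e)) e) e)) (l (n 3 2 e (n 5 2 (n 1 2
  e (n 1 3 e (n 4 1 (n 1 5 (n 2 4 (n 1 1 (n 2 2 (n 5 5 e e) e) e) e) e) e))) e)))))))) (t [0, 1] (t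
  [0, 2] (t [0, 2] (t [0, 1] (t [0, 1] (b (l (n 2 2 (n 1 3 e (n 1 4 e (n 3 3 e (n 5 5 e e)))) e)) (l
  (n 1 3 e (n 1 4 e (n 3 2 e (n 5 2 (n 2 4 (n 2 2 (n 5 5 e e) e) e) e)))))))))))))))))))))) z) (b (t
  [0, 1] (f [0, 2] (f [0, 2] (t [0, 1] (t [0, 1] (b (t [0, 1, 2] (t [0, 1] (t [0, 1, 2] (f [0, 3] (b
  (b (t [0, 1] (t [0, 4] (t [0, 4] (b (l (n 2 2 (n 3 3 (n 1 4 e (n 1 1 (n 5 5 e e) e)) e) e)) (l (n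
  2 3 (n 3 3 (n 1 4 e (n 5 2 e (n 1 2 (n 1 1 (n 2 2 e e) e) e))) e) e)))))) (f [0, 1] (t [0, 4] (t
  [0, 4] (b (l (n 5 2 e (n 2 3 e (n 3 2 e (n 3 3 (n 1 4 (n 4 2 e e) (n 1 2 e (n 1 1 e e))) e))))) (l
  (n 5 2 e (n 2 3 e (n 3 2 e (n 1 4 (n 4 2 (n 3 3 e e) e) (n 1 2 (n 3 3 e e) (n 3 1 (n 1 1 (n 3 3 e
  e) e) e)))))))))))) (t [0, 1] (b (t [0, 1] (t [0, 2] (t [0, 2] (b (l (n 2 2 (n 3 3 (n 1 4 e (n 1 1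
  e (n 5 5 e e))) e) e)) (l (n 2 3 (n 3 3 (n 1 4 e (n 1 2 e (n 5 2 e (n 2 2 e e)))) e) e)))))) (f
  [0, 1] (t [0, 1, 2] (t [0, 1, 2] (b (l (n 1 4 e (n 1 3 e (n 5 2 e (n 2 3 e (n 3 2 e (n 3 3 e
  e))))))) (l (n 1 4 e (n 1 3 e (n 5 2 e (n 2 3 e (n 3 2 e (n 3 3 e e)))))))))))))))))) (t [0, 2] (f
  [0, 1] (t [0, 2] (f [0, 3] (b (t [0, 2] (t [0, 2] (t [0, 3] (t [0, 3] (b (l (n 2 2 (n 1 3 e (n 1 4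
  (n 3 3 e (n 4 4 (n 5 5 e e) e)) e)) e)) (l (n 3 2 e (n 5 2 e (n 1 3 e (n 1 4 e (n 1 2 (n 1 1 (n 2
  2 e e) e) e))))))))))) (t [0, 1] (t [0, 2] (t [0, 2] (t [0, 1] (t [0, 1] (b (l (n 2 2 (n 1 3 e (n
  1 4 e (n 3 3 e (n 5 5 e e)))) e)) (l (n 1 3 e (n 1 4 e (n 3 2 e (n 5 2 e (n 2 2 e
  e))))))))))))))))))))))) z)) z)

set_option maxRecDepth 100000 in
theorem f27A : chkQ 5 1 10897286400000 t27A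
    (blks.getD 27 ⟨0, 0, 0, 0, 0, .zr, .zr⟩).A = some [-908107200000] := by
  decide +kernel

end Pool.Agent.TH32
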