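import Pool.Agent.TH32.H.Fast

set_option autoImplicit false

namespace Pool.Agent.TH32

open CT PT

set_option maxRecDepth 100000 in
/-- certificate for block 27 (CR2), tree B -/
def t27B : PT :=
  (b (b (b (t [0, 1] (b (t [0, 1] (b (t [0, 1] (b (b (t [0, 2] (t [0, 1] (t [0, 4] (b (b (b (t [0,
  1] (t [0, 1, 4] (t [0, 1, 4] (t [0, 7] (l (n 2 3 (n 5 2 (n 3 3 (n 2 4 e (n 2 2 (n 1 4 e (n 1 4 e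
  (n 1 5 e e))) e)) e) e) e)))))) (f [0, 1] (t [0, 2, 8] (t [0, 2, 8] (b (l (n 2 5 e (n 2 4 (n 4 4
  (n 3 5 (n 3 2 e (n 3 5 e (n 1 2 (n 5 2 e e) (n 1 2 e (n 1 3 e (n 1 5 e e)))))) (n 1 3 e (n 1 2 e
  (n 2 3 e (n 5 2 (n 3 2 e (n 1 5 e e)) (n 1 2 e (n 1 5 e e))))))) e) e))) z))))) (b (t [0, 1] (t
  [0, 1, 4] (t [0, 1, 4] (l (n 2 3 (n 5 2 (n 3 3 (n 2 1 (n 2 1 (n 2 4 e (n 2 2 e (n 5 1 e (n 2 5 e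
  e)))) e) e) e) e) e))))) (f [0, 1] (b (t [0, 1] (b (l (n 2 3 e (n 3 5 (n 3 2 e (n 5 2 (n 1 2 (n 5
  2 e (n 1 4 (n 2 4 e (n 3 2 e (n 3 3 e e))) (n 3 1 e (n 3 2 e e)))) (n 2 4 e (n 3 1 (n 3 2 e (n 3 3
  e (n 1 4 e (n 1 5 e e)))) (n 1 2 (n 3 2 e e) e)))) e)) (n 1 3 e (n 1 3 e (n 1 2 e (n 4 2 (n 5 2 e
  (n 5 4 e (n 1 4 (n 3 5 (n 3 2 (n 2 5 e e) e) (n 2 5 (n 3 4 e e) e)) (n 1 5 (n 5 2 (n 2 1 (n 3 5 e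
  e) e) (n 3 2 e (n 3 5 e e))) e)))) (n 3 4 e (n 5 2 (n 4 2 e (n 5 1 e (n 3 5 e e))) (n 2 1 (n 1 5
  (n 3 5 e e) e) (n 3 2 e (n 3 5 e e)))))))))))) z)) z)))) (b (b (t [0, 1] (t [0, 2] (t [0, 2] (t
  [0, 7] (l (n 1 3 e (n 2 3 (n 2 5 e (n 2 1 (n 4 2 (n 3 3 (n 1 1 (n 2 2 e e) e) e) e) e)) e)))))))
  (f [0, 1] (t [0, 2] (t [0, 2] (b (l (n 1 3 e (n 2 5 e (n 2 1 (n 3 2 (n 3 4 (n 3 2 e (n 4 2 (n 3 5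
  e (n 1 1 (n 2 2 e e) e)) e)) (n 3 2 (n 4 2 e (n 5 4 e e)) (n 3 5 (n 5 4 e e) e))) (n 5 3 e (n 2 5
  (n 4 2 (n 3 5 e (n 1 1 (n 2 2 e e) e)) e) (n 2 4 (n 4 5 e (n 1 4 e (n 4 4 e e))) e)))) e))))
  z))))) (b (t [0, 1] (t [0, 1, 4] (t [0, 1, 4] (t [0, 3] (l (n 1 3 e (n 2 3 (n 2 5 e (n 2 1 e (n 1
  4 e (n 5 2 e (n 3 3 e e))))) e))))))) (f [0, 1] (b (t [0, 1] (b (l (n 1 3 e (n 2 5 e (n 3 5 (n 3 2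
  e (n 2 1 e (n 1 4 e (n 3 5 e (n 3 2 e e))))) (n 2 3 e (n 1 3 (n 1 4 e (n 5 2 e (n 3 5 (n 1 2 (n 3
  2 (n 4 2 (n 2 5 e e) e) e) e) e))) (n 2 1 e (n 5 2 e (n 4 1 (n 3 1 (n 5 1 e (n 5 4 e (n 2 5 e e)))
  (n 3 4 (n 5 4 e (n 2 5 e e)) (n 3 2 (n 2 5 e e) e))) (n 3 4 e (n 3 1 (n 4 1 (n 5 1 e (n 2 5 e e))
  (n 4 2 (n 2 5 e e) e)) (n 3 2 (n 4 2 (n 2 5 e e) e) e)))))))))))) z)) z)))))))) z) (b (f [0, 2] (t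
  [0, 1] (t [0, 4] (b (b (t [0, 4] (t [0, 4] (t [0, 3] (t [0, 3] (t [0, 6] (l (n 3 2 e (n 5 2 (n 1 3
  e (n 2 4 e (n 2 2 (n 1 4 e (n 1 4 e (n 1 5 e e))) e))) e)))))))) (t [0, 4] (t [0, 4] (t [0, 3] (t
  [0, 3] (l (n 3 2 e (n 5 2 (n 1 3 e (n 2 1 (n 2 1 (n 2 4 e (n 2 2 e (n 5 1 e (n 2 5 e e)))) e) e))
  e)))))))) (b (t [0, 4] (t [0, 4] (t [0, 1] (t [0, 1] (t [0, 6] (l (n 1 3 e (n 3 2 e (n 2 5 e (n 2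
  1 (n 4 2 (n 1 1 (n 2 2 e e) e) e) e)))))))))) (t [0, 4] (t [0, 4] (t [0, 3] (t [0, 3] (t [0, 2] (l
  (n 1 3 e (n 3 2 e (n 2 5 e (n 2 1 e (n 1 4 e (n 5 2 e e))))))))))))))))) z))) z)) (f [0, 1] (t [0,
  2, 3] (t [0, 2, 3] (b (t [0, 1, 3] (t [0, 1] (t [0, 1, 3] (f [0, 2] (b (b (t [0, 1] (t [0, 5] (t
  [0, 5] (b (l (n 2 3 (n 5 2 (n 3 3 (n 1 2 e (n 4 1 (n 1 5 (n 2 4 (n 1 1 (n 2 2 (n 5 5 e e) e) e) e)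
  e) e)) e) e) e)) z)))) (f [0, 1] (t [0, 5] (t [0, 5] (b (l (n 2 3 e (n 5 3 (n 1 3 e (n 4 1 (n 4 2
  e (n 3 4 (n 3 2 (n 5 2 e (n 1 2 (n 5 5 e e) (n 5 1 (n 1 1 (n 5 5 e e) e) e))) (n 5 1 (n 1 1 (n 3 3
  (n 5 5 e e) e) e) e)) e)) e)) (n 3 2 e (n 5 2 (n 1 4 (n 4 5 (n 1 2 (n 2 4 (n 3 3 e e) e) (n 3 3 e
  e)) e) (n 2 4 (n 3 1 (n 1 2 (n 3 3 e e) (n 1 5 (n 3 3 e e) e)) e) e)) e))))) z))))) (t [0, 1] (b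
  (t [0, 1] (t [0, 2] (t [0, 2] (b (l (n 1 3 e (n 1 4 e (n 2 3 (n 5 2 (n 2 4 (n 3 3 (n 2 2 (n 5 5 e
  e) e) e) e) e) e)))) z)))) (f [0, 1] (t [0, 2] (t [0, 2] (b (l (n 1 3 e (n 1 4 e (n 3 2 (n 3 5 (n
  3 2 e (n 5 2 (n 2 4 (n 2 2 (n 5 5 e e) e) e) e)) (n 4 2 e (n 3 4 (n 2 2 e (n 3 2 (n 5 2 e e) e))
  e))) e)))) z))))))))))) (t [0, 3] (f [0, 1] (t [0, 3] (f [0, 2] (b (t [0, 2] (t [0, 2] (t [0, 4]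
  (t [0, 4] (b (l (n 3 2 e (n 5 2 (n 1 2 e (n 1 3 e (n 4 1 (n 1 5 (n 2 4 (n 1 1 (n 2 2 (n 5 5 e e)
  e) e) e) e) e))) e))) z))))) (t [0, 1] (t [0, 2] (t [0, 2] (t [0, 1] (t [0, 1] (b (l (n 1 3 e (n 1
  4 e (n 3 2 e (n 5 2 (n 2 4 (n 2 2 (n 5 5 e e) e) e) e))))) z))))))))))))))))) z) (b (t [0, 1] (f
  [0, 2] (f [0, 2] (t [0, 1] (t [0, 1] (b (t [0, 1, 2] (t [0, 1] (t [0, 1, 2] (f [0, 3] (b (b (t [0,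
  1] (t [0, 4] (t [0, 4] (b (l (n 2 3 (n 3 3 (n 1 4 e (n 5 2 e (n 1 2 (n 1 1 (n 2 2 e e) e) e))) e)
  e)) z)))) (f [0, 1] (t [0, 4] (t [0, 4] (b (l (n 5 2 e (n 2 3 e (n 3 2 e (n 1 4 (n 4 2 (n 3 3 e e)
  e) (n 1 2 (n 3 3 e e) (n 3 1 (n 1 1 (n 3 3 e e) e) e))))))) z))))) (t [0, 1] (b (t [0, 1] (t [0,
  2] (t [0, 2] (b (l (n 2 3 (n 3 3 (n 1 4 e (n 1 2 e (n 5 2 e (n 2 2 e e)))) e) e)) z)))) (f [0, 1]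
  (t [0, 1, 2] (t [0, 1, 2] (b (l (n 1 4 e (n 1 3 e (n 5 2 e (n 2 3 e (n 3 2 e (n 3 3 e e)))))))
  z))))))))))) (t [0, 2] (f [0, 1] (t [0, 2] (f [0, 3] (b (t [0, 2] (t [0, 2] (t [0, 3] (t [0, 3] (b
  (l (n 3 2 e (n 5 2 e (n 1 3 e (n 1 4 e (n 1 2 (n 1 1 (n 2 2 e e) e) e)))))) z))))) (t [0, 1] (t
  [0, 2] (t [0, 2] (t [0, 1] (t [0, 1] (b (l (n 1 3 e (n 1 4 e (n 3 2 e (n 5 2 e (n 2 2 e e))))))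
  z))))))))))))))))) z)) z)

set_option maxRecDepth 100000 in
theorem f27B : chkQ 5 2 10897286400000 t27B
    (blks.getD 27 ⟨0, 0, 0, 0, 0, .zr, .zr⟩).B = some [227026800000] := by
  decide +kernel

end Pool.Agent.TH32
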