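import Pool.Agent.TH32.H.Fast

set_option autoImplicit false

namespace Pool.Agent.TH32

open CT PT

set_option maxRecDepth 100000 in
/-- certificate for block 28 (CR3), tree B -/
def t28B : PT :=
  (b (b (b (t [0, 1] (b (b (b (t [0, 1] (b (b (t [0, 2] (t [0, 1] (t [0, 4] (b (f [0, 5] (b (t [0,
  1] (t [0, 1, 3] (t [0, 1, 3] (l (n 2 3 (n 5 2 (n 3 3 (n 2 1 (n 2 1 (n 2 4 e (n 2 5 (n 2 6 e (n 1 5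
  e e)) e)) e) e) e) e) e))))) (f [0, 1] (b (b (b (l (n 2 3 e (n 5 3 (n 1 3 e (n 3 1 (n 2 1 (n 4 2
  (n 5 2 e (n 5 4 e (n 2 5 (n 3 2 (n 1 4 (n 2 6 (n 3 6 (n 3 6 e e) e) e) (n 1 2 (n 1 6 (n 2 6 (n 3 6
  (n 3 6 e e) e) e) e) (n 1 5 (n 2 6 (n 3 6 (n 3 6 e e) e) e) e))) (n 3 4 (n 1 4 (n 3 6 (n 2 6 (n 6
  2 e e) e) e) (n 1 5 (n 3 6 (n 2 6 (n 6 2 e e) e) e) e)) (n 1 5 (n 3 5 (n 3 6 (n 4 6 (n 6 2 e (n 6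
  2 e e)) e) e) e) e))) e))) (n 3 4 e (n 5 2 (n 4 2 e (n 3 5 (n 3 6 e (n 1 5 e e)) e)) (n 3 2 (n 3 6
  e (n 1 2 e (n 1 5 e e))) (n 1 5 (n 3 5 (n 2 6 (n 6 3 e e) e) e) e))))) e) e)) (n 3 2 e (n 2 5 e (n
  1 2 (n 2 5 (n 1 4 (n 4 2 (n 3 2 e (n 2 6 e e)) e) (n 3 1 e (n 3 2 e (n 1 6 (n 6 2 e e) e)))) e) (n
  4 2 (n 3 2 e (n 2 6 e (n 1 2 e (n 1 3 e (n 1 4 e (n 1 5 e (n 1 6 e e))))))) e))))))) z) z) z))))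
  (b (b (t [0, 1] (t [0, 2] (t [0, 2] (t [0, 7] (l (n 1 3 e (n 2 3 (n 2 5 e (n 2 1 (n 2 4 e (n 3 3
  (n 6 2 e e) e)) e)) e))))))) (f [0, 1] (t [0, 2] (t [0, 2] (b (l (n 1 3 e (n 2 5 e (n 2 1 (n 3 2
  (n 3 4 (n 3 2 e (n 2 4 e (n 3 5 e (n 6 2 e e)))) (n 3 2 (n 4 2 e (n 5 4 (n 2 6 (n 3 6 (n 6 3 e e)
  e) e) e)) (n 3 5 (n 5 4 (n 3 6 (n 6 2 e (n 6 2 e e)) e) e) (n 3 6 (n 6 5 e (n 6 2 e (n 6 2 e e)))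
  e)))) (n 2 4 e (n 5 3 e (n 2 5 (n 6 2 (n 3 5 (n 5 4 e e) e) e) (n 6 2 e (n 6 5 e e)))))) e))))
  z))))) (b (t [0, 1] (t [0, 1, 4] (t [0, 1, 4] (t [0, 3] (l (n 1 3 e (n 2 3 (n 2 5 e (n 2 1 e (n 1
  4 e (n 5 2 e (n 3 3 (n 6 1 e (n 6 2 e e)) e))))) e))))))) (f [0, 1] (b (b (b (l (n 2 5 e (n 3 5 (n
  1 2 e (n 3 1 e (n 1 2 e (n 2 4 e (n 1 5 e (n 2 3 e (n 6 2 e (n 6 3 e e)))))))) (n 1 3 e (n 1 2 e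
  (n 2 4 e (n 5 1 e (n 3 2 (n 2 3 (n 3 4 (n 1 4 e (n 3 5 (n 2 5 (n 5 2 (n 2 6 (n 2 2 e (n 2 6 (n 3 6
  (n 6 5 e (n 6 5 e e)) e) e)) e) e) (n 3 6 (n 2 6 (n 6 2 e (n 6 5 e (n 6 5 e e))) e) e)) (n 3 6 (n
  5 6 (n 6 2 e (n 6 2 e e)) e) e))) (n 3 5 (n 4 6 (n 2 5 (n 2 5 (n 5 4 (n 3 6 (n 6 2 e (n 6 2 e e))
  e) e) (n 3 6 (n 2 6 (n 6 2 e (n 6 5 e (n 6 5 e (n 6 6 e e)))) e) e)) (n 3 6 (n 2 6 (n 6 2 e (n 6 5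
  e (n 6 5 e (n 6 6 e e)))) e) e)) (n 4 5 (n 5 6 e (n 2 5 (n 5 2 e e) e)) e)) (n 3 6 (n 4 6 (n 6 5 e
  (n 6 2 e (n 6 2 e e))) e) e))) (n 1 2 e (n 1 4 e (n 2 5 (n 3 5 (n 5 3 (n 2 6 (n 3 6 (n 3 6 (n 6 5
  e (n 6 5 e e)) e) e) e) e) (n 2 6 (n 3 6 (n 6 3 e (n 6 5 e (n 6 5 e (n 6 6 e e)))) e) e)) (n 2 6
  (n 6 5 e (n 6 3 e (n 6 3 e e))) e))))) (n 4 3 e (n 2 4 (n 2 5 e (n 1 4 (n 4 3 (n 6 2 e (n 6 5 e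
  e)) e) (n 6 2 e (n 6 5 e e)))) (n 2 5 (n 6 4 (n 4 5 (n 5 6 e e) e) (n 5 4 (n 6 2 e e) e)) (n 6 2 e
  (n 6 4 e (n 6 5 e e)))))))))))))) z) z) z)))))))) z) (b (f [0, 2] (t [0, 1] (t [0, 4] (b (f [0, 5]
  (t [0, 3] (t [0, 3] (t [0, 2] (t [0, 2] (l (n 3 2 e (n 5 2 (n 1 3 e (n 2 1 (n 2 1 (n 2 4 e (n 2 5
  (n 2 6 e (n 1 5 e e)) e)) e) e)) e)))))))) (b (t [0, 4] (t [0, 4] (t [0, 1] (t [0, 1] (t [0, 6] (l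
  (n 1 3 e (n 3 2 e (n 2 5 e (n 2 1 (n 2 4 e (n 6 2 e e)) e)))))))))) (t [0, 4] (t [0, 4] (t [0, 3]
  (t [0, 3] (t [0, 2] (l (n 1 3 e (n 3 2 e (n 2 5 e (n 2 1 e (n 1 4 e (n 5 2 e (n 6 1 e (n 6 2 e
  e))))))))))))))))))) z))) z) (t [0, 3] (t [0, 3] (b (b (t [0, 2] (t [0, 1, 4] (t [0, 4] (b (b (b
  (t [0, 1] (t [0, 8] (t [0, 1, 4] (t [0, 7] (l (n 2 3 (n 2 5 e (n 2 4 (n 3 3 (n 1 2 e (n 1 2 e (n 4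
  4 (n 1 5 e e) e))) e) e)) e)))))) (f [0, 1] (t [0, 8] (t [0, 2, 8] (b (l (n 2 5 e (n 2 4 (n 4 4 (n
  3 5 (n 3 2 e (n 3 5 e (n 1 2 (n 5 2 e e) (n 1 2 e (n 1 3 e (n 1 5 e e)))))) (n 1 3 e (n 1 2 e (n 2
  3 e (n 5 2 (n 3 2 e (n 1 5 e e)) (n 1 2 e (n 1 5 e e))))))) e) e))) z))))) (b (t [0, 1] (t [0, 1,
  2, 4] (t [0, 1, 4] (l (n 2 3 (n 2 5 e (n 3 3 (n 1 2 e (n 1 2 e (n 2 4 e (n 6 2 e (n 5 1 e (n 2 5 e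
  e)))))) e)) e))))) (f [0, 1] (t [0, 8] (b (b (l (n 2 5 e (n 3 5 (n 3 2 e (n 2 4 e (n 1 4 (n 3 5 e
  (n 5 4 e (n 3 2 e (n 5 2 e (n 6 2 e e))))) (n 3 5 e (n 6 2 e (n 3 2 e (n 1 2 (n 5 2 e e) (n 1 2 e
  (n 1 3 e (n 1 4 e (n 1 5 e e))))))))))) (n 1 3 e (n 1 2 e (n 2 4 e (n 5 2 e (n 3 4 (n 6 2 e (n 3 4
  (n 5 4 e (n 1 5 (n 1 2 (n 2 5 e e) e) (n 1 4 (n 2 5 e e) e))) (n 5 2 (n 1 5 (n 2 3 e e) e) (n 1 2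
  e (n 1 5 e e))))) (n 6 2 e (n 2 3 e (n 5 2 (n 1 5 (n 3 2 (n 2 4 e e) e) e) (n 1 2 e (n 1 5 e
  e))))))))))))) z) z))))) (b (b (t [0, 1] (t [0, 3] (t [0, 2] (t [0, 7] (l (n 1 3 e (n 1 4 e (n 2 3
  (n 2 5 e (n 4 2 (n 3 3 (n 2 6 (n 2 1 e (n 2 2 e e)) e) e) e)) e)))))))) (f [0, 1] (t [0, 3] (t [0,
  2] (b (l (n 1 3 e (n 1 4 e (n 2 5 e (n 3 5 (n 3 2 e (n 4 2 (n 3 5 e (n 2 6 (n 2 1 e (n 2 2 e e))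
  e)) e)) (n 2 3 e (n 4 3 (n 3 1 (n 2 1 (n 6 2 e (n 3 6 (n 3 2 (n 4 2 (n 5 2 e e) e) e) e)) e) e) (n
  4 2 (n 3 4 (n 5 2 e (n 4 5 (n 2 6 (n 2 1 e (n 2 2 e e)) e) e)) (n 2 6 (n 3 2 (n 2 5 (n 2 1 (n 3 1
  e (n 3 3 e e)) (n 2 2 (n 3 3 e e) e)) e) (n 2 1 e (n 2 2 e e))) e)) e)))))))) z))))) (b (t [0, 1]
  (t [0, 3] (t [0, 1, 4] (t [0, 3] (l (n 1 3 e (n 2 3 (n 2 5 e (n 1 4 e (n 2 4 e (n 3 3 (n 6 2 e (n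
  2 1 e (n 5 2 e e))) e)))) e))))))) (f [0, 1] (t [0, 3] (b (b (l (n 1 3 e (n 1 4 e (n 2 5 e (n 3 5
  (n 3 2 e (n 4 2 (n 5 3 (n 2 6 (n 2 1 e (n 3 2 e (n 2 2 e e))) e) e) e)) (n 2 4 e (n 3 4 (n 6 2 e
  (n 3 4 (n 2 5 (n 2 1 e (n 5 4 e (n 5 2 e e))) e) (n 5 2 (n 2 1 (n 5 1 e (n 3 2 e (n 5 3 e e))) e)
  (n 2 1 e (n 3 2 (n 2 5 e e) e))))) (n 6 2 e (n 2 3 e (n 1 3 (n 5 2 e (n 3 5 (n 1 2 (n 3 2 (n 4 2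
  (n 2 5 e e) e) e) e) e)) (n 5 2 (n 2 1 (n 5 1 e (n 3 2 (n 4 2 e (n 5 4 e e)) (n 3 5 (n 5 4 e e)
  e))) e) (n 2 1 e (n 3 2 (n 4 2 (n 2 5 e e) e) e))))))))))))) z) z))))))))) z) (b (f [0, 2] (t [0,
  5] (t [0, 4] (b (b (t [0, 4] (t [0, 4] (t [0, 7] (t [0, 3] (t [0, 6] (l (n 3 2 e (n 2 5 e (n 2 4
  (n 1 3 e (n 1 2 e (n 1 2 e (n 4 4 (n 1 5 e e) e)))) e))))))))) (t [0, 4] (t [0, 4] (t [0, 1, 3] (t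
  [0, 3] (l (n 3 2 e (n 2 5 e (n 1 2 e (n 2 4 e (n 1 3 e (n 1 4 e (n 6 2 e (n 1 5 (n 1 2 e e)
  e)))))))))))))) (b (t [0, 4] (t [0, 4] (t [0, 2] (t [0, 1] (t [0, 6] (l (n 1 3 e (n 3 2 e (n 2 5 e
  (n 1 4 e (n 4 2 (n 2 6 (n 2 1 e (n 2 2 e e)) e) e))))))))))) (t [0, 4] (t [0, 4] (t [0, 2] (t [0,
  3] (t [0, 2] (l (n 1 3 e (n 3 2 e (n 2 5 e (n 1 4 e (n 2 4 e (n 6 2 e (n 2 1 e (n 5 2 e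
  e))))))))))))))))))) z))))) (f [0, 1] (t [0, 2, 3] (t [0, 2, 3] (b (t [0, 1, 3] (t [0, 1] (t [0,
  1, 3] (f [0, 2] (b (b (t [0, 1] (t [0, 5] (t [0, 5] (b (l (n 2 3 (n 5 2 (n 3 3 (n 1 2 e (n 4 1 (n
  1 5 (n 2 4 (n 1 1 (n 2 2 (n 5 5 e e) e) e) e) e) e)) e) e) e)) z)))) (f [0, 1] (t [0, 5] (t [0, 5]
  (b (l (n 2 3 e (n 5 3 (n 1 3 e (n 4 1 (n 4 2 e (n 3 4 (n 3 2 (n 5 2 e (n 1 2 (n 5 5 e e) (n 5 1 (n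
  1 1 (n 5 5 e e) e) e))) (n 5 1 (n 1 1 (n 3 3 (n 5 5 e e) e) e) e)) e)) e)) (n 3 2 e (n 5 2 (n 1 4
  (n 4 5 (n 1 2 (n 2 4 (n 3 3 e e) e) (n 3 3 e e)) e) (n 2 4 (n 3 1 (n 1 2 (n 3 3 e e) (n 1 5 (n 3 3
  e e) e)) e) e)) e))))) z))))) (t [0, 1] (b (t [0, 1] (t [0, 2] (t [0, 2] (b (l (n 1 3 e (n 1 4 e
  (n 2 3 (n 5 2 (n 2 4 (n 3 3 (n 2 2 (n 5 5 e e) e) e) e) e) e)))) z)))) (f [0, 1] (t [0, 2] (t [0,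
  2] (b (l (n 1 3 e (n 1 4 e (n 3 2 (n 3 5 (n 3 2 e (n 5 2 (n 2 4 (n 2 2 (n 5 5 e e) e) e) e)) (n 4
  2 e (n 3 4 (n 2 2 e (n 3 2 (n 5 2 e e) e)) e))) e)))) z))))))))))) (t [0, 3] (f [0, 1] (t [0, 3]
  (f [0, 2] (b (t [0, 2] (t [0, 2] (t [0, 4] (t [0, 4] (b (l (n 3 2 e (n 5 2 (n 1 2 e (n 1 3 e (n 4
  1 (n 1 5 (n 2 4 (n 1 1 (n 2 2 (n 5 5 e e) e) e) e) e) e))) e))) z))))) (t [0, 1] (t [0, 2] (t [0,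
  2] (t [0, 1] (t [0, 1] (b (l (n 1 3 e (n 1 4 e (n 3 2 e (n 5 2 (n 2 4 (n 2 2 (n 5 5 e e) e) e)
  e))))) z))))))))))))))))) z) (b (t [0, 1] (f [0, 2] (f [0, 2] (t [0, 1] (t [0, 1] (b (t [0, 1, 2]
  (t [0, 1] (t [0, 1, 2] (f [0, 3] (b (b (t [0, 1] (t [0, 4] (t [0, 4] (b (l (n 2 3 (n 3 3 (n 1 4 e
  (n 5 2 e (n 1 2 (n 1 1 (n 2 2 e e) e) e))) e) e)) z)))) (f [0, 1] (t [0, 4] (t [0, 4] (b (l (n 5 2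
  e (n 2 3 e (n 3 2 e (n 1 4 (n 4 2 (n 3 3 e e) e) (n 1 2 (n 3 3 e e) (n 3 1 (n 1 1 (n 3 3 e e) e)
  e))))))) z))))) (t [0, 1] (b (t [0, 1] (t [0, 2] (t [0, 2] (b (l (n 2 3 (n 3 3 (n 1 4 e (n 1 2 e
  (n 5 2 e (n 2 2 e e)))) e) e)) z)))) (f [0, 1] (t [0, 1, 2] (t [0, 1, 2] (b (l (n 1 4 e (n 1 3 e
  (n 5 2 e (n 2 3 e (n 3 2 e (n 3 3 e e))))))) z))))))))))) (t [0, 2] (f [0, 1] (t [0, 2] (f [0, 3]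
  (b (t [0, 2] (t [0, 2] (t [0, 3] (t [0, 3] (b (l (n 3 2 e (n 5 2 e (n 1 3 e (n 1 4 e (n 1 2 (n 1 1
  (n 2 2 e e) e) e)))))) z))))) (t [0, 1] (t [0, 2] (t [0, 2] (t [0, 1] (t [0, 1] (b (l (n 1 3 e (n
  1 4 e (n 3 2 e (n 5 2 e (n 2 2 e e)))))) z))))))))))))))))) z)) z)

set_option maxRecDepth 100000 in
theorem f28B : chkQ 6 3 10897286400000 t28B
    (blks.getD 28 ⟨0, 0, 0, 0, 0, .zr, .zr⟩).B = some [227026800000] := by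
  decide +kernel

end Pool.Agent.TH32
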