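import Pool.Agent.TH32.H.Fast

set_option autoImplicit false

namespace Pool.Agent.TH32

open CT PT

set_option maxRecDepth 100000 in
/-- certificate for block 29 (CR4), tree A -/
def t29A : PT :=
  (b (b (b (t [0, 1] (b (t [0, 1] (b (t [0, 1] (b (b (t [0, 2] (b (t [0, 5] (b (f [0, 6] (b (t [0,
  1] (t [0, 1, 3] (t [0, 1, 3] (l (n 3 2 (n 2 2 (n 5 3 (n 3 1 (n 3 1 (n 3 4 e (n 3 5 (n 3 6 e (n 1 5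
  e e)) e)) e) e) e) e) e))))) (f [0, 1] (b (t [0, 1] (b (l (n 5 3 (n 2 5 e (n 1 3 e (n 2 1 (n 3 2
  (n 4 2 (n 2 5 (n 5 4 (n 1 5 (n 3 5 (n 3 6 (n 2 6 e (n 3 4 e e)) (n 3 4 (n 4 6 e e) e)) e) e) (n 5
  2 (n 3 5 (n 1 5 (n 1 6 (n 2 6 (n 5 6 (n 3 6 (n 3 6 e e) e) e) e) e) (n 1 4 (n 2 6 (n 5 6 (n 3 6 (n
  3 6 e e) e) e) e) e)) (n 1 4 (n 3 4 (n 2 6 (n 3 6 (n 5 6 (n 6 5 e e) e) e) e) e) e)) e)) e) (n 3 4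
  e (n 4 2 (n 5 2 (n 1 5 (n 3 5 (n 3 6 e (n 2 3 e (n 2 6 e e))) e) e) e) e))) e) e))) (n 2 3 e (n 3
  2 e (n 2 5 e (n 2 1 (n 2 4 e (n 6 2 (n 3 2 (n 1 3 e (n 1 4 e (n 1 5 e (n 1 1 e e)))) (n 3 6 (n 1 2
  e (n 1 3 e (n 1 4 e (n 1 5 e (n 1 1 e e))))) e)) e)) (n 1 4 (n 5 2 e (n 4 2 (n 6 2 (n 3 2 e (n 3 6
  e e)) e) e)) (n 6 2 (n 5 2 e (n 6 5 (n 3 1 e (n 3 2 e (n 3 6 e e))) e)) (n 5 2 e (n 6 1 (n 3 1 e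
  (n 3 2 e (n 3 6 e e))) e)))))))))) (l (n 2 3 e (n 5 3 (n 1 3 e (n 3 1 (n 2 1 (n 4 2 (n 5 2 e (n 5
  4 e (n 2 5 (n 3 2 (n 1 4 (n 2 6 (n 3 6 (n 3 6 e e) e) e) (n 1 2 (n 1 6 (n 2 6 (n 3 6 (n 3 6 e e)
  e) e) e) (n 1 5 (n 2 6 (n 3 6 (n 3 6 e e) e) e) e))) (n 3 4 (n 1 4 (n 3 6 (n 2 6 (n 6 2 e e) e) e)
  (n 1 5 (n 3 6 (n 2 6 (n 6 2 e e) e) e) e)) (n 1 5 (n 3 5 (n 3 6 (n 4 6 (n 6 2 e (n 6 2 e e)) e) e)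
  e) e))) e))) (n 3 4 e (n 5 2 (n 4 2 e (n 3 5 (n 3 6 e (n 1 5 e e)) e)) (n 3 2 (n 3 6 e (n 1 2 e (n
  1 5 e e))) (n 1 5 (n 3 5 (n 2 6 (n 6 3 e e) e) e) e))))) e) e)) (n 3 2 e (n 5 2 (n 2 1 (n 2 4 e (n
  3 2 e (n 2 6 e (n 1 2 e (n 1 3 e (n 1 4 e (n 1 5 e (n 1 6 e e)))))))) (n 2 5 (n 1 4 (n 4 2 (n 3 2
  e (n 2 6 e e)) e) (n 3 1 e (n 3 2 e (n 1 6 (n 6 2 e e) e)))) e)) e))))))) (b (b (l (n 2 3 e (n 3 5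
  (n 3 2 e (n 1 2 (n 5 2 (n 5 2 (n 2 6 (n 1 4 (n 5 4 e (n 5 3 (n 6 5 e e) e)) (n 1 3 (n 5 3 (n 1 6
  (n 6 5 e e) e) e) e)) e) e) e) e)) (n 1 3 e (n 1 3 e (n 1 2 (n 2 6 (n 4 1 (n 1 5 (n 2 5 (n 4 5 (n
  1 5 (n 1 3 (n 2 3 (n 4 3 (n 3 5 (n 2 6 (n 3 6 (n 4 6 (n 1 6 (n 6 1 e e) e) e) e) e) e) (n 2 6 (n 3
  6 (n 1 6 (n 6 1 e e) e) e) e)) (n 3 6 (n 1 6 (n 6 1 e e) e) e)) (n 1 6 (n 6 3 e (n 6 3 e e)) e))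
  e) e) e) e) (n 3 4 e (n 1 4 (n 2 4 (n 3 5 (n 6 3 e e) e) (n 2 5 (n 2 3 (n 3 5 (n 2 6 (n 6 3 e e)
  e) e) (n 6 3 e e)) e)) (n 1 5 (n 2 5 (n 6 3 (n 1 3 (n 2 3 (n 3 5 (n 6 5 e e) e) (n 6 2 e (n 6 5 e
  e))) (n 1 6 (n 6 2 e (n 6 5 e e)) e)) e) e) e)))) e) e)))))) (l (n 2 5 e (n 5 3 (n 3 1 (n 1 2 (n 3
  1 (n 1 4 (n 2 6 (n 3 4 e (n 1 4 (n 2 4 e (n 5 2 (n 3 5 (n 3 2 e (n 6 2 e (n 6 3 e e))) e) e)) (n 5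
  1 (n 3 5 (n 3 1 e (n 6 3 (n 3 2 (n 2 6 e e) e) (n 2 3 (n 6 1 e e) e))) e) (n 2 5 e (n 3 1 (n 3 2 e
  (n 6 2 e (n 6 3 e e))) (n 3 5 (n 1 2 (n 6 3 (n 3 2 (n 2 6 e e) e) (n 2 3 (n 6 1 e e) e)) (n 6 1 e
  (n 6 2 e (n 6 3 e e)))) e)))))) e) (n 2 6 (n 1 5 (n 5 2 (n 3 5 (n 3 2 e (n 3 4 e (n 1 6 (n 6 2 e
  (n 6 3 e (n 6 4 e e))) e))) e) (n 5 4 (n 3 2 (n 3 6 (n 3 4 e (n 6 1 e e)) (n 3 4 (n 4 6 e e) e))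
  (n 3 5 (n 2 4 (n 3 6 (n 4 3 (n 6 1 e (n 6 2 e e)) e) (n 4 3 e (n 4 6 e e))) (n 1 6 (n 6 2 e (n 6 3
  e (n 6 4 e e))) e)) e)) (n 1 5 e (n 3 5 (n 1 6 (n 5 6 (n 6 3 e (n 6 3 e e)) e) e) (n 3 2 (n 1 6 (n
  6 3 e (n 6 5 e (n 6 5 e e))) e) (n 3 4 (n 1 6 (n 2 6 (n 6 3 e (n 6 5 e (n 6 5 e (n 6 6 e e)))) e)
  e) e)))))) e) e)) e) e) e) (n 3 2 e (n 2 1 e (n 5 2 (n 2 6 (n 3 5 e (n 1 4 (n 5 4 e (n 3 5 (n 6 3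
  e (n 6 5 e e)) e)) (n 1 3 (n 6 5 (n 5 3 (n 3 6 e e) e) (n 3 5 (n 6 1 e e) e)) (n 6 1 e (n 6 3 e (n
  6 5 e e)))))) e) e))))))) (b (l (n 2 5 e (n 5 3 (n 3 1 (n 2 1 e (n 3 1 (n 1 4 (n 3 4 e (n 6 2 (n 4
  1 (n 5 1 (n 3 5 (n 3 2 e (n 1 3 (n 6 3 e e) e)) e) (n 6 5 e (n 1 2 (n 3 1 e (n 3 5 (n 2 3 (n 6 3
  (n 4 2 (n 2 4 e e) e) e) e) e)) (n 3 2 e (n 3 1 (n 6 3 e e) (n 3 5 (n 6 1 e (n 6 3 e e)) e))))))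
  (n 6 4 e (n 5 6 (n 3 5 (n 3 2 e (n 6 3 (n 2 4 e (n 1 2 (n 2 1 e e) e)) e)) e) e))) e)) (n 6 2 (n 1
  5 (n 5 4 (n 3 5 (n 3 2 e (n 3 4 e (n 3 6 e e))) e) (n 2 4 (n 5 6 (n 3 2 e (n 3 4 (n 3 6 e e) (n 5
  3 e (n 3 6 (n 6 4 e e) e)))) (n 5 1 (n 3 2 (n 5 2 e e) (n 3 4 e (n 5 3 (n 3 6 e e) e))) e)) e)) e)
  e)) e)) e) (n 2 1 e (n 3 1 e (n 2 5 e (n 6 2 (n 3 6 e (n 3 5 e (n 3 5 e (n 1 4 (n 5 4 e (n 3 5 (n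
  2 3 (n 1 2 (n 2 4 e e) e) e) e)) (n 2 4 (n 1 3 (n 3 5 (n 1 2 (n 2 3 e e) e) e) (n 2 3 e e)) e)))))
  e))))))) z)))))) (b (b (t [0, 1] (t [0, 2] (t [0, 2] (f [0, 8] (l (n 1 3 e (n 2 3 (n 2 5 e (n 2 1
  (n 2 4 e (n 3 3 (n 6 2 e e) e)) e)) e))))))) (f [0, 1] (t [0, 2] (t [0, 2] (b (l (n 1 3 e (n 2 5 e
  (n 2 1 (n 3 2 (n 3 4 (n 3 2 e (n 2 4 e (n 3 5 (n 6 2 (n 5 5 e e) e) e))) (n 4 5 (n 2 3 (n 3 5 (n 5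
  5 (n 3 6 (n 2 6 (n 6 2 e e) e) e) e) e) e) (n 2 3 e (n 2 4 (n 4 4 (n 2 6 (n 6 3 e (n 6 3 e e)) e)
  e) e)))) (n 5 3 e (n 2 5 (n 2 4 e (n 3 5 (n 6 2 (n 5 5 e e) e) e)) e))) e)))) (l (n 1 3 e (n 2 5 e
  (n 2 1 (n 3 2 (n 3 4 (n 3 2 e (n 2 4 e (n 3 5 e (n 6 2 e e)))) (n 4 5 (n 3 2 e (n 5 3 (n 3 6 (n 5
  6 (n 6 2 e (n 6 2 e e)) e) e) e)) (n 3 2 (n 2 4 (n 2 6 (n 3 6 (n 6 3 e e) e) e) e) (n 3 6 (n 6 2 e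
  (n 6 2 e e)) e)))) (n 5 3 e (n 2 4 e (n 2 5 (n 3 5 (n 5 4 (n 6 2 e e) e) (n 6 2 e e)) (n 6 2 e (n
  6 5 e e)))))) e))))))))) (b (t [0, 1] (t [0, 1, 4] (t [0, 1, 4] (f [0, 3] (l (n 1 3 e (n 2 3 (n 2
  5 e (n 2 1 e (n 1 4 e (n 5 2 e (n 3 3 (n 6 1 e (n 6 2 e e)) e))))) e))))))) (f [0, 1] (b (t [0, 1]
  (b (l (n 2 3 e (n 3 5 (n 1 4 e (n 1 3 e (n 3 2 e (n 2 5 e (n 2 4 e (n 1 2 (n 6 2 (n 3 2 e (n 3 6 e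
  e)) (n 6 1 (n 3 2 e (n 3 3 e e)) e)) e)))))) (n 1 3 e (n 1 3 e (n 1 2 e (n 3 4 (n 5 1 e (n 2 4 e
  (n 1 4 (n 5 2 (n 2 3 (n 4 3 (n 6 5 (n 3 5 e (n 3 6 e e)) (n 6 2 (n 3 5 e (n 3 3 e e)) e)) e) e) e)
  (n 5 2 (n 2 1 (n 1 5 (n 5 6 (n 3 5 (n 6 1 e (n 6 2 e e)) e) (n 3 5 e (n 3 6 e e))) e) (n 1 6 (n 5
  6 (n 2 3 (n 3 5 (n 6 2 e (n 6 6 e (n 6 6 e e))) (n 3 3 (n 6 2 e (n 6 6 e (n 6 6 e e))) e)) e) (n 3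
  2 (n 2 2 e e) (n 3 5 e (n 3 6 e e)))) (n 2 3 (n 3 5 e (n 3 3 e e)) e))) e)))) (n 2 3 e (n 5 2 (n 5
  1 e (n 5 6 (n 4 2 (n 2 2 (n 1 6 (n 6 4 e (n 6 3 e (n 6 3 e (n 6 6 e e)))) e) e) (n 4 5 (n 1 6 (n 6
  2 e (n 6 3 e (n 6 3 e (n 6 6 e e)))) e) e)) (n 4 2 (n 2 2 e e) (n 4 5 e (n 4 6 e e))))) (n 1 2 (n
  2 6 (n 4 2 (n 1 5 (n 5 3 (n 1 6 (n 3 6 (n 6 3 e (n 6 5 e (n 6 5 e e))) e) e) (n 5 3 (n 1 6 (n 3 6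
  (n 6 3 e (n 6 5 e (n 6 5 e e))) e) e) e)) (n 1 6 (n 6 5 e (n 6 3 e (n 6 3 e (n 6 6 e e)))) e)) e)
  (n 4 2 (n 1 5 (n 5 3 e (n 5 3 e e)) e) (n 4 6 (n 1 5 (n 5 3 e (n 5 3 e e)) e) e))) e)))))))))) (l
  (n 1 3 e (n 2 5 e (n 3 5 (n 3 2 e (n 2 1 e (n 1 4 e (n 3 5 e (n 3 2 e (n 6 1 e (n 6 2 e e)))))))
  (n 1 3 (n 2 1 e (n 5 2 e (n 3 2 (n 1 4 e (n 1 2 (n 3 2 (n 4 2 (n 2 5 (n 2 6 (n 4 6 (n 1 6 (n 1 6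
  (n 6 3 e (n 6 3 e e)) e) e) e) e) e) (n 2 6 (n 1 6 (n 1 6 (n 6 3 e (n 6 3 e e)) e) e) e)) (n 3 6
  (n 1 6 (n 1 6 (n 6 2 e (n 6 2 e (n 6 6 e e))) e) e) e)) (n 1 6 (n 3 6 (n 6 2 e (n 6 2 e (n 6 6 e
  e))) e) e))) e))) (n 2 3 e (n 2 1 e (n 5 2 e (n 4 1 (n 5 4 (n 3 1 e (n 3 4 e (n 2 3 (n 3 6 (n 4 6
  (n 1 6 (n 1 6 (n 6 2 e (n 6 2 e (n 6 6 e (n 6 6 e e)))) e) e) e) e) e))) (n 3 1 (n 5 1 e (n 2 5 (n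
  1 6 (n 2 6 (n 6 3 e (n 6 3 e e)) e) e) e)) (n 3 2 (n 2 5 (n 2 6 (n 1 6 (n 1 6 (n 6 3 e (n 6 3 e (n
  6 6 e e))) e) e) e) e) (n 3 6 (n 1 6 (n 1 6 (n 6 2 e (n 6 2 e (n 6 6 e (n 6 6 e e)))) e) e) e))))
  (n 3 4 e (n 4 1 (n 5 1 (n 3 1 e (n 2 3 (n 1 6 (n 3 6 (n 6 2 e (n 6 2 e (n 6 6 e e))) e) e) e)) (n
  3 2 (n 2 5 (n 2 6 (n 6 3 e (n 6 3 e e)) e) e) (n 3 6 (n 6 2 e (n 6 2 e (n 6 6 e e))) e))) (n 3 2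
  (n 4 2 (n 2 5 (n 2 6 (n 4 6 (n 6 3 e (n 6 3 e e)) e) e) e) (n 2 6 (n 6 3 e (n 6 3 e e)) e)) (n 3 6
  (n 6 2 e (n 6 2 e (n 6 6 e e))) e))))))))))))))) (b (b (l (n 2 5 e (n 5 3 (n 3 1 (n 1 2 (n 3 1 (n
  3 1 e (n 2 6 (n 2 3 (n 2 4 (n 3 4 (n 1 4 (n 1 4 e (n 5 1 (n 6 1 e (n 6 5 e e)) e)) (n 4 5 (n 5 1
  (n 4 6 (n 1 6 (n 6 1 e (n 6 5 e (n 6 5 e e))) e) e) (n 5 1 (n 4 6 (n 1 6 (n 6 1 e (n 6 5 e (n 6 5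
  e e))) e) e) e)) (n 4 6 (n 6 5 e (n 6 1 e (n 6 1 e (n 6 6 e e)))) e))) (n 3 5 (n 1 5 (n 5 1 (n 3 6
  (n 1 6 (n 1 6 (n 6 5 e (n 6 5 e e)) e) e) e) e) (n 3 6 (n 1 6 (n 6 1 e (n 6 5 e (n 6 5 e (n 6 6 e
  e)))) e) e)) (n 3 6 (n 6 5 e (n 6 1 e (n 6 1 e e))) e))) (n 2 5 (n 3 6 (n 1 5 (n 1 5 (n 5 3 (n 2 6
  (n 6 1 e (n 6 1 e e)) e) e) (n 2 6 (n 1 6 (n 6 1 e (n 6 5 e (n 6 5 e (n 6 6 e e)))) e) e)) (n 2 6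
  (n 1 6 (n 6 1 e (n 6 5 e (n 6 5 e (n 6 6 e e)))) e) e)) (n 3 5 (n 5 6 e (n 1 5 (n 5 1 e e) e)) e))
  (n 2 6 (n 3 6 (n 6 5 e (n 6 1 e (n 6 1 e e))) e) e))) e) e)) e) e) e) e))) (l (n 3 1 (n 2 5 e (n 5
  3 (n 1 4 e (n 1 1 e (n 2 4 e (n 3 4 (n 3 4 (n 2 5 e e) (n 2 1 e (n 5 2 (n 2 6 (n 3 1 e (n 3 2 e (n
  5 3 e (n 1 6 (n 3 6 (n 6 5 e (n 6 6 e (n 6 6 e e))) e) e)))) e) e))) (n 2 1 e (n 1 3 (n 5 2 (n 2 6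
  (n 3 2 (n 4 2 (n 1 2 (n 3 2 e (n 5 3 e (n 1 6 (n 3 6 (n 2 5 (n 2 6 (n 6 5 e (n 6 6 e (n 6 6 e e)))
  e) (n 2 2 (n 6 5 e (n 6 6 e (n 6 6 e e))) e)) (n 2 5 e (n 2 2 e e))) (n 2 5 e (n 2 2 e e))))) (n 5
  3 e (n 1 5 (n 2 6 (n 3 6 (n 5 6 (n 1 6 (n 6 1 e (n 6 6 e (n 6 6 e (n 6 6 e e)))) e) e) e) e) e)))
  (n 5 3 e (n 1 5 (n 4 5 (n 3 6 (n 4 6 (n 5 6 (n 1 6 (n 6 1 e (n 6 6 e (n 6 6 e e))) e) e) e) e) e)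
  e))) (n 5 3 e (n 5 2 e (n 1 5 (n 3 5 (n 4 5 (n 2 6 (n 4 6 (n 5 6 (n 1 6 (n 1 6 (n 3 6 (n 6 3 e (n
  6 6 e (n 6 6 e (n 6 6 e e)))) e) e) e) e) e) e) e) e) e)))) e) e) (n 5 2 (n 2 6 (n 4 2 (n 3 1 e (n
  3 2 e (n 5 3 e (n 2 6 (n 5 6 (n 1 6 (n 1 6 (n 3 6 (n 6 3 e (n 6 6 e (n 6 6 e (n 6 6 e (n 6 6 e (n
  6 6 e e)))))) e) e) e) e) e)))) (n 3 1 (n 4 1 e (n 5 4 e (n 1 6 (n 4 6 (n 5 6 (n 3 6 (n 6 3 e (n 6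
  6 e (n 6 6 e (n 6 6 e e)))) e) e) e) e))) (n 5 3 e (n 4 5 (n 4 6 (n 5 6 (n 1 6 (n 1 6 (n 3 6 (n 6
  3 e (n 6 6 e (n 6 6 e (n 6 6 e (n 6 6 e e))))) e) e) e) e) e) e)))) e) e))))))) (n 2 3 e e))) e)))
  (b (l (n 3 1 (n 2 5 e (n 2 1 e (n 5 2 (n 6 2 (n 1 4 e (n 3 5 e (n 4 3 (n 1 3 (n 3 5 (n 2 4 (n 4 6
  (n 1 6 (n 3 6 (n 3 6 e (n 5 2 (n 2 6 (n 1 1 e e) e) (n 1 1 e e))) (n 5 2 e (n 3 5 (n 1 1 e e) e)))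
  (n 5 1 e (n 2 5 (n 3 5 e e) e))) (n 5 1 e (n 1 1 e (n 2 5 (n 3 5 (n 4 5 e e) e) e)))) e) e) (n 3 1
  (n 4 1 e (n 2 4 (n 4 6 e (n 5 2 e (n 4 5 e e))) e)) (n 2 4 (n 3 6 (n 4 6 e (n 5 2 e (n 4 5 e e)))
  (n 5 2 e (n 3 5 (n 4 5 e e) e))) e))) (n 3 4 e (n 2 3 (n 1 3 (n 3 6 e (n 5 2 e (n 3 5 (n 1 1 e e)
  e))) e) e))))) e) e))) e)) z)))))))) z)) z) (b (f [0, 2] (b (t [0, 5] (b (f [0, 6] (t [0, 4] (t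
  [0, 4] (t [0, 2] (t [0, 2] (l (n 3 2 e (n 5 2 (n 1 3 e (n 2 1 (n 2 1 (n 2 4 e (n 2 5 (n 2 6 e (n 1
  5 e e)) e)) e) e)) e)))))))) (b (t [0, 5] (t [0, 5] (t [0, 1] (t [0, 1] (f [0, 7] (l (n 1 3 e (n 3
  2 e (n 2 5 e (n 2 1 (n 2 4 e (n 6 2 e e)) e)))))))))) (t [0, 5] (t [0, 5] (t [0, 3] (t [0, 3] (f
  [0, 2] (l (n 1 3 e (n 3 2 e (n 2 5 e (n 2 1 e (n 5 2 e (n 1 4 e (n 6 1 e (n 6 2 e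
  e))))))))))))))))) z)) z))) z)) (b (t [0, 3] (t [0, 3] (b (t [0, 1, 4] (t [0, 1] (b (t [0, 3] (b
  (b (b (t [0, 1] (t [0, 1, 4] (t [0, 8] (f [0, 6] (l (n 2 3 (n 2 5 e (n 2 4 (n 3 3 (n 1 2 e (n 1 2
  e (n 4 4 (n 1 5 e e) e))) e) e)) e)))))) (f [0, 1] (t [0, 2, 8] (t [0, 8] (b (l (n 2 5 e (n 2 4 (n
  4 4 (n 3 2 (n 5 3 (n 1 3 e (n 3 1 (n 3 2 e (n 2 1 (n 5 1 (n 1 5 (n 3 3 e e) e) e) e)) e)) e) (n 5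
  3 e (n 2 5 (n 5 3 (n 3 3 (n 1 2 (n 5 2 e e) (n 1 2 e (n 1 5 e e))) e) e) e))) e) e))) (l (n 2 5 e
  (n 2 4 (n 4 4 (n 3 5 (n 3 2 e (n 3 5 e (n 1 2 (n 5 2 e e) (n 1 2 e (n 1 3 e (n 1 5 e e)))))) (n 1
  3 e (n 1 2 e (n 2 3 e (n 5 2 (n 3 2 e (n 1 5 e e)) (n 1 2 e (n 1 5 e e))))))) e) e)))))))) (b (t
  [0, 1] (t [0, 1, 4] (t [0, 1, 2, 4] (l (n 2 3 (n 2 5 e (n 3 3 (n 1 2 e (n 1 2 e (n 2 4 e (n 6 2 e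
  (n 5 1 e (n 2 5 e e)))))) e)) e))))) (f [0, 1] (b (t [0, 1, 3] (b (l (n 2 5 e (n 5 3 (n 1 3 e (n 2
  1 (n 2 4 e (n 5 2 e (n 3 4 (n 6 2 e (n 5 4 (n 1 5 (n 3 4 e (n 3 2 e (n 3 3 e e))) e) (n 3 2 (n 5 2
  (n 1 4 e (n 1 5 e e)) (n 5 1 (n 5 5 (n 1 2 e (n 1 4 e (n 1 1 e e))) e) e)) (n 5 1 (n 3 3 (n 5 5 (n
  1 4 e (n 1 1 e e)) e) e) e)))) (n 6 2 e (n 3 2 (n 3 2 (n 4 2 (n 5 2 (n 1 5 e e) e) e) e) e)))))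
  e)) (n 3 2 e (n 2 4 e (n 3 5 e (n 6 2 e (n 1 2 (n 5 4 e (n 2 5 (n 3 1 e (n 3 2 e e)) e)) (n 4 1 (n
  3 1 (n 3 2 (n 1 4 e (n 1 5 e (n 1 1 e (n 1 1 e e)))) (n 3 3 (n 1 4 e (n 1 5 e (n 1 1 e (n 1 1 e
  e)))) e)) (n 1 2 (n 3 2 e e) e)) (n 5 4 e (n 3 2 e (n 3 3 e e)))))))))))) (l (n 2 5 e (n 3 5 (n 3
  2 e (n 2 4 e (n 1 4 (n 3 5 e (n 5 4 e (n 3 2 e (n 5 2 e (n 6 2 e e))))) (n 3 5 e (n 6 2 e (n 3 2 e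
  (n 1 2 (n 5 2 e e) (n 1 2 e (n 1 3 e (n 1 4 e (n 1 5 e e))))))))))) (n 1 3 e (n 1 2 e (n 2 4 e (n
  5 2 e (n 3 4 (n 6 2 e (n 3 4 (n 5 4 e (n 1 5 (n 1 2 (n 2 5 e e) e) (n 1 4 (n 2 5 e e) e))) (n 5 2
  (n 1 5 (n 2 3 e e) e) (n 1 2 e (n 1 5 e e))))) (n 6 2 e (n 2 3 e (n 5 2 (n 1 5 (n 3 2 (n 2 4 e e)
  e) e) (n 1 2 e (n 1 5 e e))))))))))))))) (t [0, 9] (b (l (n 2 5 e (n 3 5 (n 3 2 e (n 2 4 e (n 5 3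
  (n 6 2 e (n 1 4 (n 5 4 e (n 5 2 (n 5 3 e e) e)) (n 1 2 (n 5 2 (n 1 3 (n 5 3 e e) e) e) e))) e)))
  (n 1 3 e (n 1 4 e (n 2 3 e (n 3 4 (n 4 2 (n 3 4 (n 1 5 (n 2 5 (n 4 5 (n 6 2 e (n 1 2 e e)) e) e)
  e) (n 6 2 e (n 1 5 (n 2 3 (n 1 2 e e) (n 2 5 (n 1 2 e (n 1 3 e e)) e)) e))) e) (n 1 5 (n 1 3 e (n
  6 2 e (n 2 4 (n 6 3 e (n 1 2 e e)) (n 6 3 e (n 5 2 (n 2 3 (n 1 2 e (n 4 1 (n 1 5 e e) e)) e) (n 1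
  2 e (n 1 4 e e))))))) e)))))))) (l (n 2 5 e (n 5 3 (n 1 3 e (n 4 1 (n 1 5 (n 3 2 (n 3 4 (n 2 4 e
  (n 3 4 (n 6 2 e (n 1 2 (n 5 2 e (n 5 4 e (n 1 5 e e))) e)) (n 6 2 e (n 3 2 (n 1 2 (n 5 2 e (n 1 5
  e e)) (n 3 1 e (n 5 2 e e))) e)))) (n 3 1 (n 6 2 e (n 1 2 (n 3 6 (n 2 4 (n 1 3 e (n 4 1 (n 5 1 e
  e) e)) (n 5 2 (n 3 2 (n 3 2 e e) (n 1 3 e e)) (n 1 3 e (n 5 1 e e)))) e) e)) e)) e) e) e)) (n 3 2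
  e (n 2 4 e (n 4 1 (n 6 2 e (n 1 2 (n 3 5 e (n 5 2 (n 1 3 (n 5 3 e e) e) e)) e)) (n 6 2 e (n 3 5 e
  (n 5 4 e (n 5 2 (n 5 3 e e) e)))))))))))))))) (b (b (t [0, 1] (t [0, 2] (t [0, 3] (f [0, 6] (l (n
  1 3 e (n 1 4 e (n 2 3 (n 2 5 e (n 4 2 (n 3 3 (n 2 6 (n 2 1 e (n 2 2 e e)) e) e) e)) e)))))))) (f
  [0, 1] (t [0, 2] (t [0, 3] (b (l (n 1 3 e (n 1 4 e (n 2 3 e (n 3 5 (n 3 2 e (n 5 2 (n 4 2 (n 2 6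
  (n 3 3 (n 2 1 e (n 2 2 e e)) e) e) e) e)) (n 4 3 (n 3 1 (n 2 1 (n 6 2 e (n 3 2 (n 4 2 (n 2 5 (n 3
  6 (n 5 5 e e) e) e) e) e)) e) e) (n 4 2 (n 3 4 (n 2 5 (n 4 5 (n 2 6 (n 5 5 (n 2 1 e (n 2 2 e e))
  e) e) e) e) (n 2 6 (n 2 3 e (n 2 5 (n 5 5 (n 2 1 (n 3 1 e e) e) e) e)) e)) e))))))) (l (n 1 3 e (n
  1 4 e (n 2 5 e (n 3 5 (n 3 2 e (n 4 2 (n 3 5 e (n 2 6 (n 2 1 e (n 2 2 e e)) e)) e)) (n 2 3 e (n 4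
  3 (n 3 1 (n 2 1 (n 6 2 e (n 3 6 (n 3 2 (n 4 2 (n 5 2 e e) e) e) e)) e) e) (n 4 2 (n 3 4 (n 5 2 e
  (n 4 5 (n 2 6 (n 2 1 e (n 2 2 e e)) e) e)) (n 2 6 (n 3 2 (n 2 5 (n 2 1 (n 3 1 e (n 3 3 e e)) (n 2
  2 (n 3 3 e e) e)) e) (n 2 1 e (n 2 2 e e))) e)) e))))))))))))) (b (t [0, 1] (t [0, 1, 4] (t [0, 3]
  (f [0, 3] (l (n 1 3 e (n 2 3 (n 2 5 e (n 1 4 e (n 2 4 e (n 3 3 (n 6 2 e (n 2 1 e (n 5 2 e e)))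
  e)))) e))))))) (f [0, 1] (b (t [0, 4] (b (l (n 2 3 e (n 3 5 (n 5 2 (n 1 2 (n 1 3 e e) (n 3 2 e (n
  1 2 (n 1 4 e (n 6 1 e (n 1 3 e (n 2 6 (n 5 3 e e) e)))) (n 4 2 (n 2 6 (n 3 1 e (n 1 5 (n 2 3 e (n
  2 2 e (n 5 3 e (n 5 5 e e)))) e)) e) e)))) e) (n 1 3 e (n 1 3 e (n 1 2 e (n 3 4 (n 5 1 e (n 4 2 (n
  6 2 e (n 2 5 e (n 1 2 (n 2 3 (n 4 3 (n 3 5 e (n 3 3 e e)) e) e) (n 4 1 (n 1 5 (n 3 5 e e) e) (n 4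
  3 (n 3 5 e (n 3 3 e e)) e))))) e)) (n 6 2 e (n 6 3 e (n 2 3 e (n 5 2 (n 5 1 e (n 2 4 (n 4 5 e (n 4
  4 e e)) e)) (n 1 2 (n 4 2 (n 1 5 (n 5 3 e (n 5 3 e e)) e) e) e)))))))))))) (l (n 1 3 e (n 1 4 e (n
  2 5 e (n 3 5 (n 3 2 e (n 4 2 (n 5 3 (n 2 6 (n 2 1 e (n 3 2 e (n 2 2 e e))) e) e) e)) (n 2 4 e (n 3
  4 (n 6 2 e (n 3 4 (n 2 5 (n 2 1 e (n 5 4 e (n 5 2 e e))) e) (n 5 2 (n 2 1 (n 5 1 e (n 3 2 e (n 5 3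
  e e))) e) (n 2 1 e (n 3 2 (n 2 5 e e) e))))) (n 6 2 e (n 2 3 e (n 1 3 (n 5 2 e (n 3 5 (n 1 2 (n 3
  2 (n 4 2 (n 2 5 e e) e) e) e) e)) (n 5 2 (n 2 1 (n 5 1 e (n 3 2 (n 4 2 e (n 5 4 e e)) (n 3 5 (n 5
  4 e e) e))) e) (n 2 1 e (n 3 2 (n 4 2 (n 2 5 e e) e) e))))))))))))))) (t [0, 4] (b (l (n 1 3 e (n
  1 4 e (n 2 5 e (n 3 5 e (n 2 4 e (n 4 3 (n 6 2 e (n 3 2 (n 3 1 (n 2 5 e (n 1 2 (n 3 1 (n 4 1 e (n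
  2 4 (n 5 4 e e) e)) (n 3 2 (n 2 4 (n 5 4 e e) e) (n 3 5 (n 5 4 e (n 5 5 e e)) e))) e)) (n 3 5 (n 1
  2 (n 2 5 (n 5 1 (n 2 3 e (n 2 4 e e)) e) (n 4 2 (n 2 3 (n 5 3 e e) e) (n 3 5 (n 5 4 e (n 5 5 e e))
  e))) (n 5 2 e e)) e)) e)) (n 3 2 e (n 4 3 (n 2 1 e (n 6 1 e (n 6 2 e (n 5 2 e e)))) e))))))))) (l
  (n 2 3 e (n 5 3 (n 3 1 (n 3 1 (n 3 4 (n 1 2 (n 1 4 e (n 3 4 (n 1 5 e e) (n 1 5 e (n 3 1 e (n 3 2 e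
  (n 6 1 e (n 6 2 e (n 5 6 (n 5 3 e e) e)))))))) e) (n 6 2 e (n 3 6 (n 1 2 (n 2 4 (n 1 3 e (n 4 1 (n
  1 5 (n 5 4 (n 5 5 e e) (n 3 5 (n 3 5 e e) e)) e) e)) (n 3 2 (n 1 5 (n 3 5 e (n 5 2 e e)) e) (n 1 3
  e (n 1 5 (n 5 2 (n 5 5 e e) (n 3 5 (n 5 3 e e) e)) e)))) e) e))) e) e) (n 3 2 e (n 1 2 e
  e))))))))))))) z))) (t [0, 4] (f [0, 1] (b (t [0, 3] (b (b (t [0, 4] (t [0, 4] (t [0, 3] (t [0, 7]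
  (f [0, 5] (l (n 3 2 e (n 2 5 e (n 2 4 (n 1 3 e (n 1 2 e (n 1 2 e (n 4 4 (n 1 5 e e) e))))
  e))))))))) (t [0, 4] (t [0, 4] (t [0, 3] (t [0, 1, 3] (l (n 3 2 e (n 2 5 e (n 1 2 e (n 2 4 e (n 1
  3 e (n 1 4 e (n 6 2 e (n 1 5 (n 1 2 e e) e)))))))))))))) (b (t [0, 4] (t [0, 4] (t [0, 1] (t [0,
  2] (f [0, 5] (l (n 1 3 e (n 3 2 e (n 2 5 e (n 1 4 e (n 4 2 (n 2 6 (n 2 1 e (n 2 2 e e)) e)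
  e))))))))))) (t [0, 4] (t [0, 4] (t [0, 3] (t [0, 2] (f [0, 2] (l (n 1 3 e (n 3 2 e (n 2 5 e (n 1
  4 e (n 2 4 e (n 6 2 e (n 2 1 e (n 5 2 e e))))))))))))))))) z)))))) (t [0, 3, 4] (t [0, 3, 4] (b (t
  [0, 1, 4] (t [0, 1] (t [0, 1, 4] (f [0, 2] (b (b (t [0, 1] (t [0, 6] (t [0, 6] (b (l (n 2 2 (n 3 3
  (n 5 5 (n 1 4 e (n 1 1 e e)) e) e) e)) (l (n 2 3 (n 2 5 (n 3 3 (n 5 5 (n 4 1 (n 1 2 (n 1 1 e e) (n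
  1 1 (n 2 2 e e) e)) e) e) e) (n 3 3 (n 1 2 e (n 1 4 e (n 4 2 e (n 1 5 e e)))) e)) e)))))) (f [0,
  1] (t [0, 6] (t [0, 6] (b (l (n 5 2 (n 2 4 (n 5 3 (n 1 2 e (n 2 3 e (n 3 1 (n 4 1 (n 3 2 (n 5 2 e
  (n 5 5 (n 1 2 e (n 1 1 e e)) e)) (n 5 5 (n 1 1 (n 3 3 e e) e) e)) e) e))) (n 3 2 e (n 1 4 (n 5 3
  (n 3 3 (n 2 5 (n 4 5 e e) e) e) e) (n 5 3 (n 3 3 (n 2 1 (n 1 2 e (n 1 5 e e)) (n 2 5 e e)) e)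
  e)))) e) e)) (l (n 5 2 (n 5 3 (n 1 4 e (n 2 4 (n 2 3 e (n 3 1 (n 5 2 (n 3 2 e (n 1 5 (n 3 3 e e)
  e)) (n 1 2 (n 3 3 (n 5 5 e e) e) (n 5 5 (n 1 1 (n 3 3 e e) e) (n 1 5 e (n 1 1 e e))))) e)) e)) (n
  2 4 (n 3 2 e (n 3 5 e (n 1 4 (n 2 5 (n 4 5 e e) e) (n 2 1 (n 1 2 e (n 1 3 e (n 1 5 e e))) (n 2 5 e
  e))))) e)) e))))))) (t [0, 1] (b (t [0, 1] (t [0, 2] (t [0, 2] (b (l (n 2 2 (n 3 3 (n 1 4 e (n 1 1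
  e (n 5 5 e e))) e) e)) (l (n 1 3 e (n 1 4 e (n 2 3 (n 5 2 (n 3 3 (n 2 4 (n 2 2 (n 5 5 e e) e) e)
  e) e) e)))))))) (f [0, 1] (t [0, 2] (t [0, 2] (b (l (n 1 3 e (n 1 4 e (n 5 2 (n 2 4 (n 2 3 (n 5 3
  e (n 2 5 (n 3 5 e (n 3 3 e e)) (n 2 2 (n 3 3 e e) e))) (n 3 2 e (n 3 5 (n 5 5 e e) e))) e) e))))
  (l (n 1 3 e (n 1 4 e (n 5 2 (n 2 4 (n 2 3 (n 5 3 e (n 2 5 (n 3 5 e (n 3 3 e e)) (n 2 2 (n 3 3 e e)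
  e))) (n 3 2 e (n 3 5 e e))) e) e))))))))))))))) (t [0, 4] (f [0, 1] (t [0, 4] (f [0, 2] (b (t [0,
  2] (t [0, 2] (t [0, 5] (t [0, 5] (b (l (n 2 2 (n 5 5 (n 1 3 e (n 1 4 (n 3 3 e (n 4 4 e e)) e)) e)
  e)) (l (n 3 2 e (n 5 2 (n 1 4 e (n 2 4 (n 1 2 e (n 3 1 (n 5 1 (n 1 1 (n 2 2 (n 5 5 e e) e) e) e)
  e)) e)) e)))))))) (t [0, 1] (t [0, 2] (t [0, 2] (t [0, 1] (t [0, 1] (b (l (n 2 2 (n 1 3 e (n 1 4 e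
  (n 3 3 e (n 5 5 e e)))) e)) (l (n 1 3 e (n 1 4 e (n 3 2 e (n 2 5 (n 2 2 e (n 5 5 e e)) (n 4 2 e
  e))))))))))))))))))))))) z) (b (t [0, 1] (f [0, 2] (f [0, 2] (t [0, 1] (t [0, 1] (b (t [0, 1, 2]
  (t [0, 1] (t [0, 1, 2] (f [0, 3] (b (b (t [0, 1] (t [0, 4] (t [0, 4] (b (l (n 2 2 (n 3 3 (n 1 4 e
  (n 1 1 (n 5 5 e e) e)) e) e)) (l (n 2 3 (n 3 3 (n 1 4 e (n 5 2 e (n 1 2 (n 1 1 (n 2 2 e e) e) e)))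
  e) e)))))) (f [0, 1] (t [0, 4] (t [0, 4] (b (l (n 5 2 e (n 2 3 e (n 3 2 e (n 3 3 (n 1 4 (n 4 2 e
  e) (n 1 2 e (n 1 1 e e))) e))))) (l (n 5 2 e (n 2 3 e (n 3 2 e (n 1 4 (n 4 2 (n 3 3 e e) e) (n 1 2
  (n 3 3 e e) (n 3 1 (n 1 1 (n 3 3 e e) e) e)))))))))))) (t [0, 1] (b (t [0, 1] (t [0, 2] (t [0, 2]
  (b (l (n 2 2 (n 3 3 (n 1 4 e (n 1 1 e (n 5 5 e e))) e) e)) (l (n 2 3 (n 3 3 (n 1 4 e (n 1 2 e (n 5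
  2 e (n 2 2 e e)))) e) e)))))) (f [0, 1] (t [0, 1, 2] (t [0, 1, 2] (b (l (n 1 4 e (n 1 3 e (n 5 2 e
  (n 2 3 e (n 3 2 e (n 3 3 e e))))))) (l (n 1 4 e (n 1 3 e (n 5 2 e (n 2 3 e (n 3 2 e (n 3 3 e
  e)))))))))))))))))) (t [0, 2] (f [0, 1] (t [0, 2] (f [0, 3] (b (t [0, 2] (t [0, 2] (t [0, 3] (t
  [0, 3] (b (l (n 2 2 (n 1 3 e (n 1 4 (n 3 3 e (n 4 4 (n 5 5 e e) e)) e)) e)) (l (n 3 2 e (n 5 2 e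
  (n 1 3 e (n 1 4 e (n 1 2 (n 1 1 (n 2 2 e e) e) e))))))))))) (t [0, 1] (t [0, 2] (t [0, 2] (t [0,
  1] (t [0, 1] (b (l (n 2 2 (n 1 3 e (n 1 4 e (n 3 3 e (n 5 5 e e)))) e)) (l (n 1 3 e (n 1 4 e (n 3
  2 e (n 5 2 e (n 2 2 e e))))))))))))))))))))))) z)) z)

set_option maxRecDepth 100000 in
theorem f29A : chkQ 6 2 10897286400000 t29A
    (blks.getD 29 ⟨0, 0, 0, 0, 0, .zr, .zr⟩).A = some [-908107200000] := by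
  decide +kernel

end Pool.Agent.TH32
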