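import Pool.Agent.TH32.H.Fast

set_option autoImplicit false

namespace Pool.Agent.TH32

open CT PT

set_option maxRecDepth 100000 in
/-- certificate for block 30 (CR5), tree A -/
def t30A : PT :=
  (b (b (b (t [0, 1] (b (t [0, 1] (b (t [0, 1] (b (b (t [0, 2] (t [0, 1] (b (b (b (b (t [0, 1] (t
  [0, 1, 5] (t [0, 1, 5] (f [0, 4] (l (n 2 3 (n 5 2 (n 3 3 (n 1 2 e (n 2 4 e (n 4 1 (n 1 5 (n 2 1 (n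
  2 6 e (n 2 2 e e)) e) e) e))) e) e) e)))))) (f [0, 1] (b (t [0, 1] (b (l (n 2 5 e (n 5 3 (n 1 3 e
  (n 2 1 (n 2 4 e (n 5 2 e (n 3 4 (n 3 4 (n 2 6 (n 6 6 (n 5 4 e (n 5 5 (n 1 4 e (n 1 1 e e)) e)) e)
  e) (n 2 6 (n 1 5 (n 6 6 (n 1 1 (n 3 3 (n 5 5 e e) e) e) e) e) e)) e))) e)) (n 3 2 e (n 2 4 e (n 1
  4 (n 3 5 e (n 5 2 e (n 4 5 (n 2 6 (n 3 3 (n 6 6 e e) e) e) e))) (n 3 5 e (n 2 6 (n 3 3 (n 6 6 (n 1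
  2 (n 2 5 e e) (n 1 4 e (n 1 5 e (n 1 1 e e)))) e) e) e)))))))) (l (n 2 5 e (n 3 5 (n 3 2 e (n 1 2
  (n 3 5 e (n 5 2 e (n 1 4 (n 2 4 e (n 2 6 (n 6 6 e e) e)) (n 1 6 (n 2 6 (n 6 6 e e) e) e)))) (n 2 4
  e (n 3 5 e (n 2 6 (n 1 3 (n 6 6 e e) (n 6 6 (n 1 4 e (n 1 5 e e)) e)) e))))) (n 1 3 e (n 1 2 e (n
  2 4 e (n 5 2 e (n 4 3 (n 2 6 (n 3 2 (n 1 5 (n 6 6 e e) e) e) e) (n 2 6 (n 6 6 (n 5 4 (n 3 4 e (n 1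
  5 e e)) (n 1 4 e (n 1 5 e e))) e) e))))))))))) (f [0, 1] (f [0, 1, 1, 12] z))))) (b (t [0, 1] (t
  [0, 1, 5] (t [0, 1, 5] (l (n 2 3 (n 2 5 e (n 3 3 (n 1 2 e (n 1 2 e (n 2 4 e (n 5 1 e (n 2 5 (n 2 6
  e e) e))))) e)) e))))) (f [0, 1] (b (t [0, 1] (b (l (n 2 5 e (n 5 3 (n 1 3 e (n 2 1 (n 2 4 e (n 5
  2 e (n 2 6 e (n 3 4 (n 5 4 (n 3 4 e (n 1 5 (n 3 2 e (n 3 3 e e)) e)) (n 3 2 (n 5 2 (n 1 4 e (n 1 5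
  e e)) (n 5 5 (n 1 2 e (n 1 4 e (n 1 1 e e))) e)) (n 5 5 (n 3 3 (n 1 4 e (n 1 1 e e)) e) e))) (n 3
  2 (n 3 2 (n 4 2 (n 5 2 (n 1 5 e e) e) e) e) e))))) e)) (n 3 2 e (n 2 4 e (n 1 2 (n 3 5 e (n 5 4 e
  (n 2 5 (n 1 6 (n 2 6 e (n 3 2 e (n 3 3 e e))) (n 3 1 e (n 3 2 e e))) e))) (n 2 6 e (n 3 5 e (n 1 4
  (n 4 5 (n 3 2 e (n 3 3 e e)) e) (n 1 4 (n 3 2 e (n 3 3 e e)) (n 3 2 (n 1 3 e (n 1 5 e e)) (n 3 3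
  (n 1 2 e (n 1 5 e (n 1 1 e e))) e)))))))))))) (l (n 2 5 e (n 3 5 (n 3 2 e (n 4 2 (n 1 4 (n 5 3 (n
  5 2 e (n 4 5 (n 2 6 e (n 3 2 e (n 2 2 e e))) e)) e) (n 3 5 (n 2 6 e e) (n 2 1 (n 2 6 e (n 2 3 (n 2
  2 e (n 1 2 e (n 1 3 e (n 1 4 e (n 1 5 e e))))) e)) (n 5 2 e (n 1 6 (n 2 6 e (n 3 2 e e)) (n 3 1 e
  (n 2 3 e e))))))) e)) (n 1 3 e (n 1 2 e (n 2 4 e (n 5 2 e (n 3 4 (n 2 6 e (n 3 4 (n 5 4 e (n 1 5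
  (n 1 2 (n 2 5 e e) e) (n 1 4 (n 2 5 e e) e))) (n 5 2 (n 1 5 (n 2 3 e e) e) (n 1 2 e (n 1 5 e
  e))))) (n 2 3 e (n 1 5 (n 2 6 (n 6 3 e e) (n 1 2 (n 3 2 (n 4 2 (n 2 5 e e) e) e) e)) e))))))))))))
  (f [0, 1] (b (l (n 2 5 e (n 5 3 (n 1 3 e (n 2 4 e (n 4 1 (n 3 4 (n 1 5 (n 1 2 (n 1 6 (n 3 4 (n 5 4
  e e) e) (n 3 2 (n 5 4 e (n 2 4 (n 5 1 (n 5 2 e (n 3 1 e e)) e) e)) (n 3 4 (n 5 4 e (n 1 2 e (n 5 1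
  e e))) (n 1 2 e (n 3 1 (n 5 1 e e) e))))) e) e) (n 1 3 e (n 2 3 e (n 5 1 e (n 1 2 (n 1 6 e (n 4 1
  (n 2 4 (n 5 1 (n 3 5 e e) e) e) e)) e))))) e))) (n 2 4 e (n 3 4 e (n 3 5 e (n 1 4 (n 5 4 e (n 3 2
  e (n 2 5 e (n 5 6 e (n 2 5 (n 3 5 (n 1 2 (n 2 4 e e) e) e) e))))) (n 3 2 e (n 2 1 e (n 2 6 (n 5 2
  (n 1 6 e (n 2 4 (n 3 1 (n 2 1 (n 2 1 e e) e) e) e)) e) (n 5 6 (n 4 2 e (n 6 4 (n 1 2 e (n 1 3 e (n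
  6 1 (n 6 1 e e) e))) e)) (n 5 2 (n 2 4 (n 1 2 (n 2 5 (n 3 5 e e) e) (n 3 1 e (n 3 5 e e))) e)
  e)))))))))))) z)))))) (b (b (t [0, 1] (t [0, 1, 5] (t [0, 1, 5] (f [0, 4] (l (n 1 3 e (n 2 3 (n 2
  5 e (n 1 4 e (n 2 4 e (n 3 3 (n 1 2 (n 2 5 (n 2 6 (n 6 1 e e) (n 2 2 e e)) e) (n 6 2 e e)) e))))
  e))))))) (f [0, 1] (b (t [0, 1] (b (l (n 1 3 e (n 1 4 e (n 2 5 e (n 2 4 e (n 3 5 (n 3 2 e (n 6 2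
  (n 3 4 e (n 3 5 (n 5 5 (n 2 1 e (n 2 2 e e)) e) e)) e)) (n 5 2 (n 2 1 (n 2 3 (n 3 4 (n 2 4 (n 4 3
  (n 5 6 (n 6 2 (n 3 3 e e) e) (n 5 1 (n 3 3 e e) e)) e) e) e) (n 3 2 e (n 3 4 (n 5 6 (n 4 4 (n 3 6
  (n 6 2 e (n 6 2 e (n 6 6 e e))) e) e) (n 5 1 (n 4 4 e e) e)) e))) e) (n 4 3 e (n 6 2 (n 3 4 (n 4 5
  (n 5 5 (n 2 1 e (n 2 2 e e)) e) e) e) e))))))))) (l (n 2 5 e (n 3 5 (n 1 3 e (n 3 2 e (n 2 4 e (n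
  3 5 e (n 1 4 e (n 6 2 (n 2 1 e (n 2 2 e e)) e)))))) (n 1 3 e (n 1 2 e (n 2 3 e (n 3 4 (n 4 2 (n 5
  2 (n 3 2 e (n 4 3 (n 5 6 (n 6 2 e e) (n 5 1 e e)) e)) (n 1 5 e (n 3 4 (n 4 5 (n 6 2 (n 2 1 e (n 2
  2 e e)) e) e) (n 6 2 (n 2 1 e (n 2 2 e e)) e)))) e) (n 5 2 (n 3 2 (n 2 4 (n 5 6 (n 2 6 (n 6 3 e (n
  6 3 e e)) e) (n 5 1 e e)) e) (n 5 6 (n 6 3 e (n 6 2 e (n 6 2 e e))) (n 5 1 e e))) (n 6 2 (n 5 1 (n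
  2 1 e e) e) (n 6 3 (n 1 5 (n 5 6 e (n 3 5 e (n 5 5 e e))) e) e)))))))))))) (f [0, 1] (f [0, 1, 1,
  12] z))))) (b (t [0, 1] (t [0, 1, 5] (t [0, 1, 5] (f [0, 3] (l (n 1 3 e (n 2 3 (n 2 5 e (n 2 1 e
  (n 1 4 e (n 5 2 e (n 2 6 e (n 3 3 e e)))))) e))))))) (f [0, 1] (b (t [0, 1] (b (l (n 1 3 e (n 2 5
  e (n 5 3 (n 4 1 (n 2 4 e (n 3 4 (n 5 2 (n 1 2 e (n 5 6 e (n 5 1 e (n 3 2 e (n 4 3 (n 3 3 e (n 3 5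
  e (n 3 3 e e))) e))))) (n 2 6 e (n 3 4 (n 5 4 e (n 1 2 (n 1 1 e (n 5 2 e (n 5 5 e e))) e)) (n 1 2
  (n 1 1 e (n 3 2 (n 5 2 e (n 5 5 e e)) (n 3 3 (n 5 5 e e) e))) e)))) (n 1 3 (n 1 2 (n 5 2 e (n 2 3
  e (n 1 1 e (n 2 6 e (n 1 2 (n 3 2 (n 4 2 (n 5 2 e e) e) e) e))))) e) (n 2 3 e (n 1 2 (n 5 2 e (n 2
  6 e (n 3 1 (n 4 1 (n 5 1 (n 1 1 e e) (n 5 2 e e)) (n 4 2 (n 5 2 e e) e)) (n 3 2 (n 4 2 (n 5 2 e e)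
  e) e)))) e))))) e) (n 3 2 e (n 2 4 e (n 1 4 e (n 2 6 e (n 2 1 e (n 5 3 (n 3 3 e (n 3 2 e (n 3 3 e
  e))) e)))))))))) (l (n 2 5 e (n 3 5 (n 1 2 (n 1 3 e e) (n 4 2 (n 1 3 (n 2 3 e (n 3 6 e (n 1 2 e (n
  1 4 e (n 1 5 e (n 3 1 (n 3 3 e e) e)))))) e) e)) (n 1 3 e (n 1 2 e (n 2 4 e (n 3 4 (n 5 1 e (n 2 5
  e (n 5 6 e (n 1 2 (n 3 2 e (n 3 4 e (n 5 3 e e))) (n 1 4 (n 3 4 e (n 5 3 e e)) (n 1 5 (n 5 3 e e)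
  e)))))) (n 2 3 e (n 5 1 e (n 5 2 (n 5 6 e (n 1 2 (n 3 2 (n 2 4 (n 5 4 e e) e) (n 5 3 e (n 5 4 e
  e))) (n 1 5 (n 5 3 e (n 5 4 e e)) e))) (n 3 5 e (n 2 6 (n 6 5 e e) (n 1 2 (n 2 3 e (n 4 2 (n 2 5 e
  e) e)) e))))))))))))))) (f [0, 1] (b (l (n 2 5 e (n 5 3 (n 1 3 e (n 2 1 e (n 3 1 (n 3 1 (n 5 1 e
  (n 6 1 (n 5 2 e (n 3 4 (n 3 4 e (n 3 2 e (n 3 5 e e))) (n 3 5 (n 2 4 (n 3 5 (n 4 5 e e) e) e) (n 2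
  4 e e)))) e)) e) e))) (n 2 1 e (n 1 3 e e))))) z))))))) (b (b (t [0, 1] (t [0, 1, 4] (t [0, 1, 4]
  (f [0, 7] (l (n 2 3 (n 5 2 (n 3 3 (n 2 1 (n 2 1 (n 2 4 e (n 2 6 (n 1 5 (n 2 5 e e) e) e)) e) e) e)
  e) e)))))) (f [0, 1] (b (t [0, 1] (b (l (n 2 5 e (n 5 3 (n 1 3 e (n 2 1 (n 4 2 (n 2 5 (n 3 4 (n 3
  4 (n 2 6 (n 5 4 e (n 5 5 (n 1 4 e (n 1 1 e e)) e)) e) (n 1 5 (n 2 6 (n 1 1 (n 3 3 (n 5 5 e e) e)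
  e) e) e)) e) e) e) e)) (n 3 2 e (n 3 5 e (n 1 2 (n 2 5 (n 1 4 (n 4 2 (n 2 6 (n 3 3 e e) e) e) (n 3
  3 (n 6 1 e (n 2 6 e e)) e)) e) (n 4 2 (n 2 6 (n 3 3 (n 1 4 e (n 1 5 e (n 1 1 e e))) e) e) e)))))))
  (l (n 5 2 (n 5 3 (n 3 1 (n 2 1 (n 2 4 e (n 2 5 (n 3 4 (n 2 6 (n 3 4 (n 5 4 e (n 1 5 (n 1 1 (n 5 5
  e e) e) (n 1 4 (n 5 5 e e) e))) (n 5 5 (n 1 1 (n 3 3 e e) e) (n 1 5 e (n 1 1 e e)))) e) (n 1 5 (n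
  2 6 (n 2 3 e e) e) e)) e)) e) e) (n 3 2 e (n 3 5 e (n 2 1 (n 2 4 e (n 2 6 (n 1 3 e (n 1 4 e (n 1 5
  e (n 1 1 e e)))) e)) (n 2 5 (n 1 4 (n 4 2 (n 2 6 e e) e) (n 6 1 e (n 2 6 e e))) e))))) e)))) (f
  [0, 1] (f [0, 1, 1, 11] z))))) (t [0, 1] (b (t [0, 1] (t [0, 1, 4] (t [0, 1, 4] (f [0, 7] (l (n 2
  3 (n 5 2 (n 3 3 (n 2 1 (n 2 1 (n 2 4 e (n 2 6 (n 1 5 (n 2 5 e e) e) e)) e) e) e) e) e)))))) (f [0,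
  1] (b (t [0, 1] (b (l (n 2 5 e (n 5 3 (n 1 3 e (n 2 1 (n 3 2 (n 3 4 (n 4 2 (n 2 6 (n 2 5 (n 1 5 e
  (n 3 4 (n 5 4 e (n 5 5 e e)) (n 3 3 (n 5 5 e e) e))) (n 3 2 e (n 3 4 e (n 3 3 e e)))) e) e) (n 6 2
  e (n 5 2 (n 3 2 (n 2 4 (n 3 6 (n 4 4 e e) e) e) e) e))) e) e)) (n 2 3 (n 1 2 e (n 4 2 (n 2 6 (n 1
  3 e (n 4 1 (n 3 5 e (n 3 3 e (n 3 3 e e))) e)) e) e)) e)))) (l (n 1 3 e (n 1 4 e (n 2 5 e (n 3 5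
  (n 3 2 e (n 3 5 e (n 4 2 (n 2 6 e e) e))) (n 4 2 (n 4 3 (n 2 6 (n 2 3 e (n 5 2 (n 3 1 (n 2 1 (n 3
  2 (n 4 2 e e) e) e) e) (n 1 3 (n 3 5 e (n 3 3 e e)) e))) e) (n 5 2 (n 3 2 e (n 4 3 (n 2 6 (n 5 6
  (n 2 1 e (n 2 2 e e)) e) e) e)) (n 2 6 (n 3 4 (n 4 5 e e) e) e))) e)))))))) (f [0, 1] (f [0, 1, 1,
  11] z)))))))))) z) (b (f [0, 2] (t [0, 1] (b (b (b (t [0, 5] (t [0, 5] (t [0, 4] (t [0, 4] (f [0,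
  3] (l (n 3 2 e (n 5 2 (n 1 2 e (n 2 4 e (n 1 3 e (n 4 1 (n 1 5 (n 2 1 (n 2 6 e (n 2 2 e e)) e) e)
  e)))) e)))))))) (t [0, 5] (t [0, 5] (t [0, 4] (t [0, 4] (l (n 3 2 e (n 5 2 (n 1 2 e (n 2 4 e (n 1
  3 e (n 4 1 (n 1 5 (n 2 1 (n 2 6 e (n 2 2 e e)) e) e) e)))) e)))))))) (b (t [0, 5] (t [0, 5] (t [0,
  4] (t [0, 4] (f [0, 3] (l (n 1 3 e (n 3 2 e (n 2 5 e (n 1 4 e (n 2 4 e (n 1 2 (n 2 5 (n 2 6 (n 6 1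
  e e) (n 2 2 e e)) e) (n 6 2 e e))))))))))))) (t [0, 5] (t [0, 5] (t [0, 4] (t [0, 4] (f [0, 2] (l
  (n 1 3 e (n 3 2 e (n 2 5 e (n 2 1 e (n 1 4 e (n 5 2 e (n 2 6 e e))))))))))))))) (b (t [0, 4] (t
  [0, 4] (t [0, 3] (t [0, 3] (f [0, 6] (l (n 3 2 e (n 5 2 (n 1 3 e (n 2 1 (n 2 1 (n 2 4 e (n 2 6 (n
  1 5 (n 2 5 e e) e) e)) e) e)) e)))))))) (t [0, 1] (t [0, 4] (t [0, 4] (t [0, 3] (t [0, 3] (f [0,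
  6] (l (n 1 3 e (n 1 4 e (n 3 2 e (n 2 5 e (n 4 2 (n 2 6 (n 2 1 e (n 2 5 e e)) e) e))))))))))))))))
  z))) z)) (f [0, 1] (t [0, 2, 3] (t [0, 2, 3] (b (t [0, 1, 3] (t [0, 1] (t [0, 1, 3] (f [0, 2] (b
  (b (t [0, 1] (t [0, 5] (t [0, 5] (b (l (n 2 2 (n 3 3 (n 5 5 (n 1 4 e (n 1 1 e e)) e) e) e)) (l (n
  2 3 (n 5 2 (n 3 3 (n 1 2 e (n 4 1 (n 1 5 (n 2 4 (n 1 1 (n 2 2 (n 5 5 e e) e) e) e) e) e)) e) e)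
  e)))))) (f [0, 1] (t [0, 5] (t [0, 5] (b (l (n 3 2 (n 3 2 (n 5 3 (n 2 2 (n 1 3 e (n 4 1 (n 5 4 (n
  1 5 (n 3 4 (n 3 3 (n 1 1 (n 5 5 e e) e) (n 4 3 e e)) e) e) e) e)) e) (n 2 2 (n 3 5 e (n 1 4 (n 4 5
  (n 1 3 (n 3 4 e e) e) e) (n 3 4 (n 1 3 e (n 1 5 e e)) e))) e)) e) e)) (l (n 2 3 e (n 5 3 (n 1 3 e
  (n 4 1 (n 4 2 e (n 3 4 (n 3 2 (n 5 2 e (n 1 2 (n 5 5 e e) (n 5 1 (n 1 1 (n 5 5 e e) e) e))) (n 5 1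
  (n 1 1 (n 3 3 (n 5 5 e e) e) e) e)) e)) e)) (n 3 2 e (n 5 2 (n 1 4 (n 4 5 (n 1 2 (n 2 4 (n 3 3 e
  e) e) (n 3 3 e e)) e) (n 2 4 (n 3 1 (n 1 2 (n 3 3 e e) (n 1 5 (n 3 3 e e) e)) e) e)) e))))))))))
  (t [0, 1] (b (t [0, 1] (t [0, 2] (t [0, 2] (b (l (n 2 2 (n 3 3 (n 1 4 e (n 1 1 e (n 5 5 e e))) e)
  e)) (l (n 1 3 e (n 1 4 e (n 2 3 (n 5 2 (n 2 4 (n 3 3 (n 2 2 (n 5 5 e e) e) e) e) e) e)))))))) (f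
  [0, 1] (t [0, 2] (t [0, 2] (b (l (n 1 3 e (n 1 4 e (n 2 3 e (n 3 2 e (n 3 3 (n 5 2 (n 4 5 e (n 4 2
  e (n 2 4 e e))) (n 5 2 (n 4 2 e e) (n 5 5 e e))) e)))))) (l (n 1 3 e (n 1 4 e (n 3 2 (n 3 5 (n 3 2
  e (n 5 2 (n 2 4 (n 2 2 (n 5 5 e e) e) e) e)) (n 4 2 e (n 3 4 (n 2 2 e (n 3 2 (n 5 2 e e) e)) e)))
  e))))))))))))))) (t [0, 3] (f [0, 1] (t [0, 3] (f [0, 2] (b (t [0, 2] (t [0, 2] (t [0, 4] (t [0,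
  4] (b (l (n 2 2 (n 5 5 (n 1 3 e (n 1 4 (n 3 3 e (n 4 4 e e)) e)) e) e)) (l (n 3 2 e (n 5 2 (n 1 2
  e (n 1 3 e (n 4 1 (n 1 5 (n 2 4 (n 1 1 (n 2 2 (n 5 5 e e) e) e) e) e) e))) e)))))))) (t [0, 1] (t
  [0, 2] (t [0, 2] (t [0, 1] (t [0, 1] (b (l (n 2 2 (n 1 3 e (n 1 4 e (n 3 3 e (n 5 5 e e)))) e)) (l
  (n 1 3 e (n 1 4 e (n 3 2 e (n 5 2 (n 2 4 (n 2 2 (n 5 5 e e) e) e) e)))))))))))))))))))))) z) (b (t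
  [0, 1] (f [0, 2] (f [0, 2] (t [0, 1] (t [0, 1] (b (t [0, 1, 2] (t [0, 1] (t [0, 1, 2] (f [0, 3] (b
  (b (t [0, 1] (t [0, 4] (t [0, 4] (b (l (n 2 2 (n 3 3 (n 1 4 e (n 1 1 (n 5 5 e e) e)) e) e)) (l (n
  2 3 (n 3 3 (n 1 4 e (n 5 2 e (n 1 2 (n 1 1 (n 2 2 e e) e) e))) e) e)))))) (f [0, 1] (t [0, 4] (t
  [0, 4] (b (l (n 5 2 e (n 2 3 e (n 3 2 e (n 3 3 (n 1 4 (n 4 2 e e) (n 1 2 e (n 1 1 e e))) e))))) (l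
  (n 5 2 e (n 2 3 e (n 3 2 e (n 1 4 (n 4 2 (n 3 3 e e) e) (n 1 2 (n 3 3 e e) (n 3 1 (n 1 1 (n 3 3 e
  e) e) e)))))))))))) (t [0, 1] (b (t [0, 1] (t [0, 2] (t [0, 2] (b (l (n 2 2 (n 3 3 (n 1 4 e (n 1 1
  e (n 5 5 e e))) e) e)) (l (n 2 3 (n 3 3 (n 1 4 e (n 1 2 e (n 5 2 e (n 2 2 e e)))) e) e)))))) (f
  [0, 1] (t [0, 1, 2] (t [0, 1, 2] (b (l (n 1 4 e (n 1 3 e (n 5 2 e (n 2 3 e (n 3 2 e (n 3 3 e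
  e))))))) (l (n 1 4 e (n 1 3 e (n 5 2 e (n 2 3 e (n 3 2 e (n 3 3 e e)))))))))))))))))) (t [0, 2] (f
  [0, 1] (t [0, 2] (f [0, 3] (b (t [0, 2] (t [0, 2] (t [0, 3] (t [0, 3] (b (l (n 2 2 (n 1 3 e (n 1 4
  (n 3 3 e (n 4 4 (n 5 5 e e) e)) e)) e)) (l (n 3 2 e (n 5 2 e (n 1 3 e (n 1 4 e (n 1 2 (n 1 1 (n 2
  2 e e) e) e))))))))))) (t [0, 1] (t [0, 2] (t [0, 2] (t [0, 1] (t [0, 1] (b (l (n 2 2 (n 1 3 e (n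
  1 4 e (n 3 3 e (n 5 5 e e)))) e)) (l (n 1 3 e (n 1 4 e (n 3 2 e (n 5 2 e (n 2 2 e
  e))))))))))))))))))))))) z)) z)

set_option maxRecDepth 100000 in
theorem f30A : chkQ 6 2 10897286400000 t30A
    (blks.getD 30 ⟨0, 0, 0, 0, 0, .zr, .zr⟩).A = some [-908107200000] := by
  decide +kernel

end Pool.Agent.TH32
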