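import Pool.Agent.TH32.H.Fast

set_option autoImplicit false

namespace Pool.Agent.TH32

open CT PT

set_option maxRecDepth 100000 in
/-- certificate for block 6 (Ld0R3), tree B -/
def t06B : PT :=
  (b (b (b (t [0, 1] (b (t [0, 1] (b (t [0, 1] (b (t [0, 1, 2] (t [0, 1] (b (t [0, 4] (b (f [0, 5]
  (f [0, 3] (b (b (t [0, 1] (t [0, 1, 2, 3, 7] (l (n 2 4 e (n 2 3 (n 5 2 (n 3 3 (n 1 4 e (n 2 1 (n 1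
  5 (n 2 1 (n 2 6 e e) e) e) e)) e) e) e))))) z) (b (t [0, 1] (b (l (n 2 4 e (n 1 4 (n 5 2 (n 5 3 e
  (n 3 5 e (n 4 5 (n 2 5 (n 3 2 e (n 2 3 (n 2 6 e e) e)) e) e))) e) (n 2 3 e (n 5 3 (n 1 3 e (n 5 1
  e (n 2 1 (n 3 1 (n 6 2 (n 1 2 (n 3 2 (n 5 2 e (n 5 6 e e)) (n 3 6 (n 5 6 e e) e)) (n 1 6 (n 3 6 (n
  5 6 e e) e) e)) (n 3 6 e (n 1 2 (n 3 2 (n 5 2 (n 6 2 e e) e) e) e))) e) e))) (n 3 2 e (n 5 2 (n 3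
  2 e (n 2 1 (n 2 6 e (n 1 2 e (n 1 3 e (n 1 5 e (n 1 6 e e))))) (n 2 5 (n 1 6 (n 6 2 e e) e) e)))
  e))))))) z)) z)))) (b (f [0, 4] (b (t [0, 2] (t [0, 2] (t [0, 1, 7] (l (n 1 3 e (n 1 4 e (n 2 4 e
  (n 2 3 (n 2 5 e (n 2 1 (n 3 3 (n 6 2 e e) e) e)) e)))))))) (t [0, 2] (t [0, 2] (b (l (n 1 3 e (n 1
  4 e (n 2 4 e (n 2 5 e (n 2 1 (n 3 2 (n 3 2 e (n 3 5 e (n 3 6 (n 5 6 (n 6 2 e (n 6 2 e (n 6 6 e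
  e))) e) e))) (n 5 3 e (n 3 5 (n 2 5 e (n 6 2 e (n 6 5 e e))) (n 6 2 e e)))) e)))))) z))))) (f [0,
  4] (b (b (t [0, 1] (t [0, 1, 2, 3, 4] (l (n 1 3 e (n 1 4 e (n 2 4 e (n 2 3 (n 2 5 e (n 2 1 e (n 5
  2 e (n 3 3 (n 6 1 e (n 6 2 e e)) e)))) e))))))) z) (b (t [0, 1] (b (l (n 1 3 e (n 1 4 e (n 2 4 e
  (n 2 3 e (n 3 5 (n 3 2 e (n 2 5 e (n 1 2 (n 3 2 e (n 3 3 e (n 6 1 e (n 6 2 e e)))) e))) (n 3 1 (n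
  1 2 (n 5 2 e (n 3 1 (n 5 1 e (n 2 5 (n 1 6 (n 2 6 (n 6 3 e (n 6 3 e e)) e) e) e)) (n 3 2 (n 2 5 (n
  2 6 (n 1 6 (n 6 1 e (n 6 3 e (n 6 3 e e))) e) e) e) (n 3 6 (n 1 6 (n 6 1 e (n 6 2 e (n 6 2 e (n 6
  6 e e)))) e) e)))) e) (n 5 2 e (n 5 3 e (n 1 2 (n 3 2 (n 2 5 (n 2 6 (n 1 6 (n 6 1 e (n 6 3 e (n 6
  3 e e))) e) e) e) (n 3 6 (n 1 6 (n 6 1 e (n 6 2 e (n 6 2 e (n 6 6 e e)))) e) e)) (n 1 6 (n 6 3 e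
  (n 6 2 e (n 6 2 e (n 6 6 e e)))) e))))))))))) z)) z)))))) z))) (t [0, 2] (b (b (t [0, 5] (b (f [0,
  6] (b (t [0, 1] (t [0, 1, 3] (t [0, 1, 3] (l (n 2 3 (n 5 2 (n 3 3 (n 2 1 (n 2 1 (n 2 4 e (n 2 5 (n
  2 6 e (n 1 5 e e)) e)) e) e) e) e) e))))) (t [0, 5] (b (t [0, 1] (t [0, 6] (l (n 2 3 e (n 4 2 e (n
  5 3 (n 1 2 e (n 3 1 (n 3 1 (n 3 4 e (n 3 5 (n 3 6 e (n 1 5 e e)) e)) e) e)) e)))))) z)))) (b (b (t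
  [0, 1] (t [0, 2] (t [0, 2] (t [0, 8] (l (n 1 3 e (n 2 3 (n 2 5 e (n 2 1 (n 2 4 e (n 3 3 (n 6 2 e
  e) e)) e)) e))))))) (t [0, 6] (t [0, 2] (t [0, 2] (t [0, 6, 8] (l (n 1 3 e (n 1 4 e (n 2 4 e (n 3
  2 e (n 2 5 e (n 2 1 (n 4 3 e (n 6 2 e e)) e)))))))))))) (b (t [0, 1] (t [0, 1, 4] (t [0, 1, 4] (t
  [0, 3] (l (n 1 3 e (n 2 3 (n 2 5 e (n 2 1 e (n 1 4 e (n 5 2 e (n 3 3 (n 6 1 e (n 6 2 e e)) e)))))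
  e))))))) (t [0, 6] (b (t [0, 1] (t [0, 4, 7] (l (n 1 3 e (n 1 4 e (n 2 4 e (n 3 2 e (n 2 5 e (n 2
  1 e (n 5 2 e (n 4 3 e (n 6 1 e (n 6 2 e e))))))))))))) z)))))) z) (b (t [0, 5] (b (f [0, 6] (t [0,
  3] (t [0, 3] (t [0, 2] (t [0, 2] (l (n 3 2 e (n 5 2 (n 1 3 e (n 2 1 (n 2 1 (n 2 4 e (n 2 5 (n 2 6
  e (n 1 5 e e)) e)) e) e)) e)))))))) (b (t [0, 4] (t [0, 4] (t [0, 1] (t [0, 1] (t [0, 7] (l (n 1 3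
  e (n 3 2 e (n 2 5 e (n 2 1 (n 2 4 e (n 6 2 e e)) e)))))))))) (t [0, 4] (t [0, 4] (t [0, 3] (t [0,
  3] (t [0, 2] (l (n 1 3 e (n 3 2 e (n 2 5 e (n 2 1 e (n 1 4 e (n 5 2 e (n 6 1 e (n 6 2 e
  e))))))))))))))))) z))))) z)) (t [0, 3] (t [0, 2] (t [0, 2] (b (t [0, 1, 3] (t [0, 1] (b (b (b (b
  (f [0, 5] (b (t [0, 2, 8] (t [0, 8] (b (l (n 2 4 e (n 2 5 (n 3 2 (n 2 2 (n 5 5 (n 1 4 e (n 1 3 (n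
  1 1 (n 3 3 e e) e) e)) e) e) e) e))) z))) (t [0, 2, 8] (t [0, 8] (b (l (n 2 4 e (n 2 5 (n 2 3 e (n
  5 5 (n 1 4 (n 3 2 e (n 4 2 (n 3 3 e e) e)) (n 3 2 e (n 3 3 e (n 1 2 e (n 1 3 e (n 1 1 e e))))))
  e)) e))) z))))) (f [0, 5] (b (b (t [0, 1, 3] (t [0, 1, 2, 3, 4] (l (n 2 4 e (n 2 5 e (n 5 3 (n 1 3
  e (n 3 2 e (n 1 4 e (n 3 3 (n 5 1 e (n 2 1 (n 6 2 e e) e)) e)))) e)))))) z) (b (t [0, 1, 3] (b (l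
  (n 2 4 e (n 2 5 e (n 5 3 (n 6 2 e (n 3 2 (n 5 2 e (n 1 3 e (n 1 4 e (n 3 1 (n 2 1 (n 1 5 (n 3 5 (n
  1 2 (n 3 2 (n 5 2 e (n 5 5 e e)) (n 3 3 (n 5 5 e e) e)) (n 1 1 (n 3 3 (n 5 5 e e) e) e)) e) e) e)
  e)))) e)) (n 1 4 (n 3 5 e (n 5 4 e (n 3 2 e (n 6 2 e (n 2 5 (n 3 2 e (n 3 3 e e)) e))))) (n 6 2 e
  (n 3 5 e (n 3 2 e (n 1 2 (n 3 1 e (n 3 2 e (n 2 5 e e))) (n 3 2 e (n 3 1 (n 3 3 e (n 1 2 e (n 1 5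
  e (n 1 1 e e)))) e))))))))))) z)) z)))) (b (f [0, 5] (b (t [0, 2] (t [0, 3] (b (l (n 1 3 e (n 2 4
  e (n 1 4 e (n 2 3 (n 3 3 (n 2 5 (n 5 5 (n 2 2 e e) e) (n 2 1 (n 6 2 e e) e)) e) e))))) z))) (t [0,
  2] (t [0, 3] (b (l (n 1 3 e (n 1 4 e (n 2 4 e (n 2 3 e (n 3 5 (n 3 2 e (n 5 2 (n 6 2 e (n 2 1 (n 3
  3 e e) e)) (n 5 5 (n 3 3 e e) e))) (n 1 3 e (n 2 1 (n 6 2 e (n 6 3 e (n 3 2 (n 5 2 e e) e)))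
  e)))))))) z))))) (f [0, 5] (b (b (t [0, 4] (t [0, 1, 2, 3, 4] (l (n 1 3 e (n 2 4 e (n 1 4 e (n 2 3
  (n 2 5 e (n 3 3 (n 6 2 e (n 2 1 e (n 5 2 e e))) e)) e))))))) z) (b (t [0, 4] (b (l (n 1 3 e (n 1 4
  e (n 2 4 e (n 2 3 e (n 3 5 (n 3 2 e (n 5 2 (n 6 2 e (n 2 1 e (n 3 2 e (n 3 3 e e)))) e)) (n 3 1 (n
  6 2 e (n 6 3 e (n 1 2 (n 5 2 e (n 3 1 (n 5 1 e (n 2 5 e e)) (n 3 2 (n 2 5 e e) e))) e))) (n 5 2 e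
  (n 5 3 e (n 6 1 e (n 6 2 e (n 6 3 e (n 1 2 (n 3 2 (n 2 5 e e) e) e))))))))))))) z)) z))))) (b (f
  [0, 4] (b (t [0, 3, 7] (t [0, 7] (b (l (n 2 4 e (n 5 2 e (n 3 2 (n 2 2 (n 5 4 (n 4 1 (n 3 3 e (n 1
  3 e (n 1 5 e (n 1 1 e e)))) e) e) e) e)))) z))) (t [0, 3, 7] (t [0, 7] (b (l (n 2 4 e (n 5 2 e (n
  2 3 e (n 3 2 e (n 5 4 (n 3 3 e (n 4 1 (n 1 2 e (n 1 3 e (n 1 5 e (n 1 1 e e)))) (n 4 2 e e)))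
  e)))))) z))))) (t [0, 1] (f [0, 4] (b (t [0, 2, 3] (t [0, 2] (b (l (n 2 4 e (n 5 2 e (n 3 2 (n 1 4
  e (n 2 2 (n 1 3 e (n 5 4 (n 3 3 e e) e)) e)) e)))) z))) (t [0, 2, 3] (t [0, 2] (b (l (n 2 4 e (n 5
  2 e (n 2 3 e (n 1 4 e (n 1 3 e (n 3 2 e (n 5 4 (n 3 3 e e) e)))))))) z)))))))) z))) (t [0, 3] (b
  (b (b (b (b (b (t [0, 1] (t [0, 1, 5] (t [0, 9] (t [0, 4] (l (n 2 3 (n 5 2 (n 3 3 (n 1 2 e (n 2 4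
  e (n 2 2 (n 4 1 (n 1 5 e e) e) e))) e) e) e)))))) (t [0, 7] (t [0, 2, 9] (t [0, 9] (t [0, 4, 7] (l
  (n 2 5 e (n 2 4 (n 4 4 (n 3 5 e (n 1 3 e (n 1 2 e (n 2 3 e (n 1 5 e e))))) e) e)))))))) (b (t [0,
  1] (t [0, 1, 5] (t [0, 1, 2, 5] (l (n 2 3 (n 2 5 e (n 3 3 (n 1 2 e (n 1 2 e (n 2 4 e (n 6 2 e (n 5
  1 e (n 2 5 e e)))))) e)) e))))) (t [0, 7] (b (t [0, 1, 3] (t [0, 8] (l (n 2 5 e (n 2 4 e (n 3 5 e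
  (n 1 3 e (n 3 2 e (n 1 4 e (n 4 3 e (n 1 5 (n 1 2 e (n 6 2 e e)) e))))))))))) z)))) (b (b (t [0,
  1] (t [0, 2] (t [0, 3] (t [0, 4] (l (n 1 3 e (n 2 3 (n 2 5 e (n 3 3 (n 2 1 (n 4 2 (n 2 6 (n 1 1 (n
  2 2 e e) e) e) e) e) e)) e))))))) (t [0, 7] (t [0, 2] (t [0, 3] (t [0, 4, 7] (l (n 1 3 e (n 1 4 e
  (n 2 4 e (n 3 2 e (n 5 2 (n 4 3 e (n 2 6 (n 2 1 e (n 2 2 e e)) e)) e))))))))))) (b (t [0, 1] (t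
  [0, 1, 5] (t [0, 3] (t [0, 3] (l (n 1 3 e (n 2 3 (n 2 5 e (n 3 3 (n 2 1 e (n 1 4 e (n 5 2 e (n 6 1
  e (n 6 2 e e))))) e)) e))))))) (t [0, 7] (b (t [0, 4] (t [0, 4, 8] (l (n 1 3 e (n 1 4 e (n 2 4 e
  (n 3 2 e (n 5 2 (n 4 3 e (n 2 6 (n 2 1 e (n 2 5 (n 2 2 e e) e)) e)) e)))))))) z))))) (b (b (t [0,
  1] (t [0, 3, 8] (t [0, 8] (b (l (n 2 3 (n 3 3 (n 1 4 (n 5 2 e e) (n 2 5 (n 5 5 (n 1 2 (n 1 1 (n 2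
  2 e e) e) e) e) (n 4 2 e (n 1 2 e (n 1 5 e e))))) e) e)) z)))) (t [0, 6] (t [0, 3, 8] (t [0, 8] (b
  (l (n 2 3 e (n 4 2 e (n 1 4 (n 5 3 e (n 5 2 e e)) (n 3 5 (n 1 2 (n 5 2 e (n 5 1 (n 3 3 e e) e)) (n
  1 3 (n 5 2 (n 1 1 (n 3 3 e e) e) (n 5 5 (n 1 1 (n 3 3 e e) e) e)) e)) (n 4 3 e (n 1 3 e (n 1 2 e
  (n 1 5 e e))))))))) z))))) (t [0, 1] (b (t [0, 1] (t [0, 2, 3] (t [0, 2] (b (l (n 2 3 (n 3 3 (n 1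
  4 e (n 1 2 e (n 5 2 (n 2 4 (n 2 2 (n 5 5 e e) e) e) e))) e) e)) z)))) (t [0, 6] (t [0, 2, 3] (t
  [0, 2] (b (l (n 1 3 e (n 2 3 e (n 1 4 e (n 4 2 e (n 5 3 (n 3 3 (n 5 5 e e) (n 4 3 e e)) (n 5 2 (n
  3 3 e e) e))))))) z)))))))) z) (b (b (b (b (t [0, 5] (t [0, 5] (t [0, 4] (t [0, 8] (t [0, 3] (l (n
  3 2 e (n 5 2 (n 1 3 e (n 1 2 e (n 2 4 e (n 2 2 (n 4 1 (n 1 5 e e) e) e)))) e)))))))) (t [0, 5] (t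
  [0, 5] (t [0, 4] (t [0, 1, 4] (l (n 3 2 e (n 2 5 e (n 1 2 e (n 2 4 e (n 1 3 e (n 1 4 e (n 6 2 e (n
  1 5 (n 1 2 e e) e)))))))))))))) (b (t [0, 5] (t [0, 5] (t [0, 1] (t [0, 2] (t [0, 3] (l (n 1 3 e
  (n 3 2 e (n 2 5 e (n 1 4 e (n 4 2 (n 2 6 (n 2 1 e (n 2 2 e e)) e) e))))))))))) (t [0, 5] (t [0, 5]
  (t [0, 4] (t [0, 2] (t [0, 2] (l (n 1 3 e (n 3 2 e (n 2 5 e (n 2 1 e (n 1 4 e (n 5 2 e (n 6 1 e (n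
  6 2 e e)))))))))))))))) (b (t [0, 4] (t [0, 4] (t [0, 2, 7] (t [0, 7] (b (l (n 3 2 e (n 5 2 (n 2 4
  (n 1 3 e (n 1 2 e (n 2 1 (n 4 1 (n 5 1 (n 1 1 (n 2 2 (n 5 5 e e) e) e) e) e) e))) e) e))) z)))))
  (t [0, 1] (t [0, 4] (t [0, 4] (t [0, 1, 2] (t [0, 1] (b (l (n 1 3 e (n 3 2 e (n 1 4 e (n 5 2 (n 2
  2 (n 5 5 e e) (n 4 2 e e)) e))))) z)))))))) z))))))))) z) (b (t [0, 1] (f [0, 2] (f [0, 2] (t [0,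
  1] (t [0, 1] (b (t [0, 1, 1] (t [0, 1] (t [0, 1, 1] (f [0, 3] (b (f [0, 2] (b (t [0, 3] (t [0, 3]
  (b (l (n 2 4 e (n 2 3 (n 3 3 (n 5 2 e (n 5 4 e (n 2 2 e (n 1 2 e (n 1 4 e (n 1 1 e e)))))) e) e)))
  z))) (t [0, 1] (t [0, 1] (b (l (n 5 2 e (n 2 4 e (n 2 3 e (n 3 1 (n 3 2 e (n 3 3 e (n 1 4 e (n 1 1
  e e)))) (n 1 2 (n 3 2 e e) e)))))) z))))) (t [0, 1] (f [0, 2] (b (t [0, 2] (t [0, 2] (b (l (n 2 4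
  e (n 3 2 (n 2 2 (n 1 3 e (n 1 4 e (n 5 3 e (n 5 4 e (n 3 3 e e))))) e) e))) z))) (t [0, 1, 2] (t
  [0, 1, 2] (b (l (n 2 4 e (n 5 2 e (n 2 3 e (n 5 4 e (n 1 3 e (n 3 2 e (n 1 4 e (n 3 3 e e)))))))))
  z))))))))))) (t [0, 2] (b (t [0, 1, 3] (f [0, 4] (b (b (t [0, 1] (t [0, 5] (t [0, 5] (b (l (n 2 3
  (n 3 3 (n 1 4 e (n 5 2 e (n 1 2 (n 1 1 (n 2 2 e e) e) e))) e) e)) z)))) (t [0, 4] (t [0, 1] (t [0,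
  5] (b (l (n 2 3 e (n 4 2 e (n 1 4 e (n 5 2 e (n 5 3 e (n 3 3 e (n 1 2 e (n 1 3 e (n 1 1 e
  e)))))))))) z))))) (t [0, 1] (b (t [0, 1] (t [0, 2] (t [0, 2] (b (l (n 2 3 (n 3 3 (n 1 4 e (n 1 2
  e (n 5 2 e (n 2 2 e e)))) e) e)) z)))) (t [0, 4] (t [0, 2] (t [0, 1, 2] (b (l (n 2 3 e (n 1 4 e (n
  4 2 e (n 1 3 e (n 5 2 e (n 5 3 e (n 3 3 e e)))))))) z))))))))) (t [0, 3] (f [0, 4] (b (t [0, 2] (t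
  [0, 2] (t [0, 4] (t [0, 4] (b (l (n 3 2 e (n 5 2 e (n 1 3 e (n 1 4 e (n 1 2 (n 1 1 (n 2 2 e e) e)
  e)))))) z))))) (t [0, 1] (t [0, 2] (t [0, 2] (t [0, 1] (t [0, 1] (b (l (n 1 3 e (n 3 2 e (n 1 4 e
  (n 5 2 e (n 2 2 e e)))))) z))))))))))))))))) z)) z)

set_option maxRecDepth 100000 in
theorem f06B : chkQ 6 3 10897286400000 t06B
    (blks.getD 6 ⟨0, 0, 0, 0, 0, .zr, .zr⟩).B = some [-1078377300000, -170270100000, 0] := by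
  decide +kernel

end Pool.Agent.TH32
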