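import Pool.Agent.TH32.H.Fast

set_option autoImplicit false

namespace Pool.Agent.TH32

open CT PT

set_option maxRecDepth 100000 in
/-- certificate for block 22 (Le1R4), tree B -/
def t22B : PT :=
  (b (b (b (b (t [0, 1] (b (t [0, 1] (b (t [0, 1] (b (b (t [0, 2] (t [0, 1] (t [0, 4] (b (f [0, 5]
  (b (t [0, 1] (t [0, 1, 3] (t [0, 1, 3] (l (n 2 3 (n 6 2 (n 3 3 (n 4 7 e (n 1 2 e (n 4 1 (n 2 1 (n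
  2 5 e (n 6 2 e (n 2 7 e (n 1 6 (n 4 6 e e) e)))) e) e))) e) e) e))))) (f [0, 1] (b (t [0, 1] (b (l
  (n 4 7 e (n 1 4 (n 6 2 (n 6 3 e (n 3 6 e (n 4 6 (n 2 6 (n 2 3 (n 2 5 e (n 3 2 e (n 2 7 e (n 1 3 e
  (n 1 4 e (n 1 6 e (n 1 2 e (n 1 2 e (n 1 2 e (n 1 5 e (n 1 5 e (n 5 1 (n 7 1 (n 7 1 (n 1 7 e e) e)
  e) e)))))))))))) e) e) e))) e) (n 2 3 e (n 3 6 (n 3 2 e (n 6 2 (n 1 2 (n 6 2 e (n 5 2 (n 3 2 e (n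
  2 7 (n 1 3 (n 1 7 e (n 1 4 (n 3 4 (n 4 6 e (n 4 7 e (n 2 4 (n 2 4 (n 2 4 (n 4 5 e (n 4 5 e (n 4 5
  e e))) e) e) e))) e) e)) e) (n 3 4 (n 1 3 (n 4 6 e (n 2 4 (n 2 4 (n 2 4 (n 4 5 e (n 4 5 e (n 4 5 e
  (n 4 7 e (n 4 7 e (n 4 7 e e)))))) e) e) e)) e) (n 1 3 e (n 1 4 e e))))) (n 1 5 e (n 3 1 e (n 1 7
  e (n 1 4 (n 3 4 (n 4 5 e (n 4 6 e (n 4 7 e (n 4 2 e (n 4 2 e (n 4 2 e e)))))) e) e)))))) (n 5 2 (n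
  3 2 e (n 2 7 e (n 1 2 (n 2 4 (n 3 4 (n 4 5 e (n 4 6 e (n 4 7 e e))) e) e) (n 1 3 (n 3 4 (n 4 5 e
  (n 6 4 (n 4 7 e e) e)) e) (n 5 1 (n 6 1 (n 1 7 (n 4 7 e e) e) (n 4 6 e (n 4 7 e e))) (n 4 5 e (n 6
  4 (n 4 7 e e) e))))))) e)) e)) (n 1 3 e (n 1 3 e (n 1 2 e (n 5 2 (n 6 2 e (n 6 5 e (n 2 6 (n 5 4
  (n 3 7 (n 7 2 (n 2 1 (n 6 1 (n 1 7 (n 3 7 (n 4 7 e e) e) e) (n 3 6 (n 4 6 e (n 4 7 e e)) (n 3 7 (n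
  4 7 e e) e))) (n 2 3 (n 3 6 (n 4 6 e (n 4 7 e e)) (n 3 7 (n 4 7 e e) e)) (n 4 2 e (n 4 6 e (n 4 7
  e e))))) e) (n 2 1 (n 6 1 e (n 3 6 (n 4 6 (n 7 6 e e) e) e)) (n 2 3 (n 3 6 (n 4 6 (n 7 6 e e) e)
  e) (n 4 2 (n 7 2 e (n 7 6 e e)) (n 4 6 (n 7 6 e e) e))))) (n 3 7 (n 7 2 (n 1 2 (n 2 3 (n 3 5 e (n
  6 3 (n 3 7 e e) e)) e) (n 5 1 (n 6 1 (n 1 7 (n 3 7 e e) e) (n 3 6 e (n 3 7 e e))) (n 3 5 e (n 6 3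
  (n 3 7 e e) e)))) e) (n 2 1 (n 5 1 (n 1 6 (n 3 6 (n 7 6 e e) e) e) (n 3 5 (n 7 5 e (n 7 6 e e)) (n
  3 6 (n 7 6 e e) e))) (n 2 3 (n 3 5 (n 7 5 e (n 7 6 e e)) (n 3 6 (n 7 6 e e) e)) (n 7 2 e (n 7 5 e
  (n 7 6 e e))))))) e))) (n 3 5 e (n 5 2 (n 7 3 (n 6 3 e (n 6 2 (n 2 3 (n 6 1 e (n 4 6 (n 7 6 e e)
  e)) e) (n 2 1 (n 1 6 (n 4 6 (n 7 6 e e) e) e) (n 4 2 (n 7 2 e (n 7 6 e e)) (n 4 6 (n 7 6 e e)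
  e))))) e) (n 6 1 e (n 6 3 e (n 7 3 (n 4 6 e e) e)))))))))))))) z)) z)))) (b (b (t [0, 1] (t [0, 1,
  4] (t [0, 1, 4] (t [0, 7] (l (n 1 3 e (n 2 3 (n 2 6 e (n 2 1 (n 2 5 e (n 3 3 (n 7 2 (n 4 7 e (n 1
  4 (n 6 4 e e) e)) e) e)) e)) e))))))) (f [0, 1] (b (t [0, 1] (b (l (n 1 3 e (n 4 7 e (n 6 2 (n 6 3
  (n 6 4 (n 4 1 (n 2 1 (n 2 5 e (n 3 2 (n 3 2 (n 6 2 e (n 2 7 (n 6 5 e (n 3 7 (n 3 7 e e) e)) (n 6 5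
  e e))) (n 3 5 (n 3 7 (n 6 5 e (n 2 7 (n 7 2 e e) e)) (n 6 5 e e)) (n 3 7 (n 5 7 (n 7 2 e (n 7 2 e
  e)) e) e))) (n 5 3 e (n 2 5 (n 2 7 e (n 3 5 (n 6 5 e e) e)) (n 2 7 (n 7 5 e e) e))))) e) e) (n 2 3
  e (n 3 1 (n 2 1 (n 2 5 (n 3 2 (n 3 5 e (n 7 3 (n 4 2 (n 6 2 e e) e) e)) (n 2 5 (n 5 3 (n 7 3 e e)
  e) (n 7 2 e (n 7 3 e e)))) (n 4 5 (n 6 5 (n 3 7 (n 3 2 e (n 7 2 (n 3 5 e e) e)) (n 3 2 (n 7 2 e (n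
  5 7 e e)) (n 3 5 (n 5 7 e e) e))) (n 7 2 (n 3 2 (n 6 2 e (n 7 6 e e)) (n 3 7 (n 7 6 e e) e)) (n 3
  2 (n 3 7 e (n 6 2 e e)) (n 2 7 (n 7 3 e e) e)))) (n 7 2 (n 3 2 (n 4 2 (n 6 2 e (n 7 6 e e)) (n 4 7
  (n 7 6 e e) e)) (n 3 7 (n 4 7 (n 7 6 e e) e) e)) (n 3 2 (n 3 7 e (n 4 2 (n 6 2 e e) e)) (n 2 7 (n
  7 3 e e) e))))) e) e))) (n 1 4 (n 4 6 (n 3 2 e (n 2 5 e (n 2 7 e (n 1 5 e (n 3 4 e (n 6 3 (n 2 1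
  (n 7 1 e e) e) e)))))) (n 4 3 (n 2 3 (n 2 5 e (n 5 1 (n 2 1 (n 4 6 (n 2 7 e (n 3 6 e (n 3 3 e e)))
  (n 2 7 e (n 3 3 (n 4 4 e e) e))) e) e)) e) e)) (n 3 2 e (n 3 6 e (n 2 5 e (n 2 7 e (n 1 5 (n 5 4
  (n 2 4 (n 7 4 e e) e) e) (n 2 1 (n 7 1 e (n 7 4 e e)) (n 2 4 (n 7 4 e e) e))))))))) e)))) z)) z)))
  (b (t [0, 1] (t [0, 1, 4] (t [0, 1, 4] (t [0, 3] (l (n 1 3 e (n 2 3 (n 2 6 e (n 2 1 e (n 1 5 e (n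
  4 7 e (n 6 4 e (n 6 2 e (n 3 3 (n 7 1 e (n 7 2 e e)) e))))))) e))))))) (f [0, 1] (b (t [0, 1] (b
  (l (n 1 3 e (n 4 7 e (n 2 6 e (n 6 3 (n 6 4 (n 1 2 e e) (n 2 3 (n 2 1 e (n 6 2 e (n 1 5 e (n 3 3
  (n 7 1 e (n 7 2 e e)) e)))) (n 1 2 (n 6 3 e (n 2 6 (n 1 5 e (n 3 7 (n 7 1 (n 4 1 (n 6 1 (n 3 1 e
  (n 3 5 e (n 3 7 e (n 2 3 e e)))) (n 6 5 (n 3 5 e (n 3 7 e (n 2 3 e e))) (n 6 7 (n 3 7 e (n 2 3 e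
  e)) (n 3 2 (n 2 6 e e) e)))) (n 4 5 (n 6 5 (n 3 5 e (n 3 7 e (n 2 3 e e))) (n 6 7 (n 3 7 e (n 2 3
  e e)) (n 3 2 (n 2 6 e e) e))) (n 4 7 (n 6 7 (n 3 7 e (n 2 3 e e)) (n 3 2 (n 2 6 e e) e)) (n 3 2 (n
  4 2 (n 2 6 e e) e) e)))) (n 7 2 (n 4 1 (n 6 1 (n 3 1 e (n 3 5 e (n 3 2 e (n 7 3 e e)))) (n 6 5 (n
  3 5 e (n 3 2 e (n 7 3 e e))) (n 3 2 (n 6 2 e (n 7 6 e e)) (n 3 7 (n 7 6 e e) e)))) (n 4 5 (n 6 5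
  (n 3 5 e (n 3 2 e (n 7 3 e e))) (n 3 2 (n 6 2 e (n 7 6 e e)) (n 3 7 (n 7 6 e e) e))) (n 3 2 (n 4 2
  (n 6 2 e (n 7 6 e e)) (n 4 7 (n 7 6 e e) e)) (n 3 7 (n 4 7 (n 7 6 e e) e) e)))) e)) (n 4 1 (n 3 1
  (n 6 1 (n 7 1 e (n 7 5 e (n 2 7 e e))) (n 6 5 (n 7 5 e (n 2 7 e e)) (n 6 2 (n 2 7 e e) e))) (n 6 5
  (n 3 5 (n 7 5 e (n 2 7 e e)) (n 3 2 (n 2 7 e e) e)) (n 3 2 (n 6 2 (n 2 7 e e) e) e))) (n 4 5 (n 6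
  5 (n 3 5 (n 7 5 e (n 2 7 e e)) (n 3 2 (n 2 7 e e) e)) (n 3 2 (n 6 2 (n 2 7 e e) e) e)) (n 3 2 (n 4
  2 (n 6 2 (n 2 7 e e) e) e) e))))) e)) (n 3 1 e (n 6 3 e (n 3 7 (n 5 2 (n 7 2 (n 1 2 (n 4 2 (n 6 2
  (n 3 2 e (n 5 3 (n 7 3 e e) e)) (n 6 5 (n 5 3 (n 7 3 e e) e) (n 7 6 e (n 7 3 e e)))) (n 4 5 (n 6 5
  (n 5 3 (n 7 3 e e) e) (n 7 6 e (n 7 3 e e))) (n 4 7 (n 7 6 e (n 7 3 e e)) e))) (n 1 5 (n 4 5 (n 6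
  5 (n 5 3 (n 7 3 e e) e) (n 7 6 e (n 7 3 e e))) (n 4 7 (n 7 6 e (n 7 3 e e)) e)) (n 1 7 (n 4 7 (n 7
  6 e (n 7 3 e e)) e) e))) (n 4 2 (n 6 2 (n 1 2 (n 7 1 (n 3 2 e (n 5 3 e e)) e) (n 7 1 (n 1 5 (n 7 5
  (n 5 3 e e) e) e) (n 7 2 (n 1 5 (n 5 3 e e) e) e))) (n 1 5 (n 7 1 (n 6 5 (n 5 3 e e) e) e) (n 7 1
  e (n 7 5 e e)))) (n 1 5 (n 7 1 (n 4 5 (n 6 5 (n 5 3 e e) e) e) e) (n 7 1 e (n 7 5 e e))))) (n 1 2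
  (n 5 1 (n 7 1 (n 4 2 (n 6 2 (n 3 2 e (n 1 1 (n 7 7 e e) e)) (n 1 1 (n 7 7 e e) e)) (n 1 1 (n 7 7 e
  e) e)) e) e) (n 5 1 (n 7 1 e (n 7 2 e e)) (n 2 5 e (n 7 2 e (n 7 7 e e)))))) (n 5 2 (n 1 2 (n 4 2
  (n 6 2 (n 3 2 (n 2 7 (n 5 7 e e) e) (n 5 3 e (n 5 7 e e))) (n 5 6 e (n 3 5 (n 5 7 e e) e))) (n 4 5
  (n 5 6 e (n 3 5 (n 5 7 e e) e)) e)) (n 1 5 (n 4 5 (n 5 6 e (n 3 5 (n 5 7 e e) e)) e) e)) (n 1 2 (n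
  1 5 e (n 4 2 (n 6 2 (n 3 2 (n 2 7 e e) e) e) e)) (n 1 5 (n 5 2 e e) e))))))))) (n 1 4 (n 3 2 e (n
  4 3 (n 2 5 e (n 1 5 e (n 7 2 (n 3 6 (n 4 6 e (n 2 1 (n 7 1 e (n 4 7 e (n 4 4 e e))) (n 4 2 e (n 4
  7 e e)))) (n 2 1 (n 1 7 (n 3 7 (n 4 7 e (n 3 3 (n 7 7 e e) e)) (n 7 7 e e)) e) (n 3 2 (n 4 2 e (n
  4 7 e e)) (n 3 7 (n 4 7 e e) e)))) e))) (n 4 6 (n 3 4 e (n 2 1 e (n 1 5 e (n 3 6 e (n 3 2 e (n 7 1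
  e (n 7 2 e e))))))) e))) (n 3 2 e (n 3 6 e (n 2 5 e (n 7 2 (n 1 5 (n 5 4 (n 2 4 (n 7 4 e (n 3 7 e
  (n 3 3 e e))) (n 3 2 e (n 3 7 e e))) e) (n 2 1 (n 1 7 (n 7 4 e (n 3 7 e (n 7 7 e e))) e) (n 2 4 (n
  7 4 e (n 3 7 e (n 3 3 e e))) (n 3 2 e (n 3 7 e e))))) e)))))))))) z)) z)))))))) z) (b (f [0, 2] (t
  [0, 1] (t [0, 4] (b (f [0, 5] (t [0, 3] (t [0, 3] (t [0, 2] (t [0, 2] (l (n 3 2 e (n 6 2 (n 1 3 e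
  (n 4 7 e (n 1 2 e (n 4 1 (n 2 1 (n 2 5 e (n 6 2 e (n 2 7 e (n 1 6 (n 4 6 e e) e)))) e) e))))
  e)))))))) (b (t [0, 4] (t [0, 4] (t [0, 3] (t [0, 3] (t [0, 6] (l (n 1 3 e (n 3 2 e (n 2 6 e (n 2
  1 (n 2 5 e (n 7 2 (n 4 7 e (n 1 4 (n 6 4 e e) e)) e)) e)))))))))) (t [0, 4] (t [0, 4] (t [0, 3] (t
  [0, 3] (t [0, 2] (l (n 1 3 e (n 3 2 e (n 2 6 e (n 2 1 e (n 1 5 e (n 4 7 e (n 6 4 e (n 6 2 e (n 7 1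
  e (n 7 2 e e))))))))))))))))))))) z))) z)) (f [0, 1] (t [0, 2, 3] (t [0, 2, 3] (b (t [0, 1, 3] (t
  [0, 1] (t [0, 1, 3] (b (b (b (b (t [0, 1] (t [0, 7] (t [0, 7] (t [0, 3, 4, 7, 10] (l (n 2 3 (n 2 6
  e (n 2 5 (n 3 3 (n 5 5 (n 1 2 e (n 1 2 e (n 1 6 (n 1 4 e (n 4 7 e e)) e))) e) e) e)) e)))))) (f
  [0, 1] (t [0, 7] (t [0, 7] (b (l (n 2 6 e (n 2 5 (n 5 5 (n 3 6 (n 3 2 e (n 3 6 e (n 1 2 (n 6 2 e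
  (n 6 4 e (n 4 7 e e))) (n 1 6 (n 1 4 (n 6 4 (n 1 4 e (n 1 7 (n 6 7 (n 4 7 (n 7 4 e e) e) e) e)) (n
  1 7 (n 4 7 e e) e)) (n 4 7 e e)) (n 4 7 e (n 1 2 (n 1 4 (n 6 4 (n 6 4 e (n 7 6 e e)) (n 4 7 (n 7 6
  e (n 7 6 e e)) e)) (n 1 7 (n 6 7 (n 7 6 e e) e) e)) (n 1 3 (n 1 4 (n 2 4 (n 6 4 (n 4 6 (n 7 6 e e)
  e) (n 7 4 e (n 7 6 e (n 7 6 e e)))) (n 2 7 (n 7 6 e (n 7 6 e e)) e)) (n 1 7 (n 2 7 (n 7 6 e (n 7 6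
  e e)) e) e)) e))))))) (n 1 2 e (n 2 3 e (n 1 3 e (n 6 2 (n 3 2 e (n 1 6 (n 1 4 e (n 4 7 e e)) e))
  (n 1 2 (n 1 4 e (n 4 7 e e)) (n 1 6 (n 4 1 (n 4 7 e e) (n 2 4 e (n 1 7 (n 7 4 e e) e))) e)))))))
  e) e))) z))))) (b (t [0, 1] (t [0, 7] (t [0, 7] (l (n 2 3 (n 2 6 e (n 3 3 (n 1 2 e (n 2 5 e (n 1 5
  e (n 1 6 (n 1 4 e (n 4 7 e (n 7 2 e e))) e)))) e)) e))))) (f [0, 1] (t [0, 7] (t [0, 7] (b (l (n 2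
  6 e (n 3 2 (n 2 5 (n 3 5 e (n 5 6 e (n 5 2 e (n 4 7 e (n 7 3 e (n 1 3 e (n 1 6 e (n 1 2 e (n 1 2 e
  (n 1 2 e (n 1 5 e (n 1 5 e (n 6 1 e (n 1 3 e (n 1 4 e (n 7 1 e e)))))))))))))))) e) (n 6 3 e (n 2
  5 e (n 5 6 (n 3 6 e (n 1 2 (n 6 4 e (n 4 7 e (n 7 1 e (n 2 7 (n 6 2 e (n 6 5 e e)) e)))) (n 1 5 (n
  6 4 e (n 4 7 e (n 6 5 e (n 7 2 e e)))) (n 1 6 (n 4 7 e (n 6 4 (n 1 4 (n 1 4 e (n 1 7 e (n 7 2 e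
  e))) (n 7 1 (n 7 2 e e) (n 4 7 (n 1 7 e (n 1 2 (n 2 4 e (n 7 2 (n 2 7 e e) e)) e)) (n 1 2 (n 2 7 e
  e) e)))) (n 1 7 (n 6 7 (n 1 7 e (n 1 2 (n 6 2 (n 7 2 (n 2 7 e e) e) e) e)) (n 1 2 (n 7 2 e e) e))
  (n 7 2 e e)))) (n 1 3 (n 4 7 e (n 1 4 (n 6 4 (n 6 4 e (n 7 6 (n 7 2 e e) e)) (n 7 4 (n 7 2 e e) (n
  2 4 (n 6 7 (n 7 6 e e) e) (n 7 6 (n 7 2 e e) (n 6 2 (n 6 7 e (n 2 7 e e)) (n 2 7 (n 7 6 e e)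
  e)))))) (n 7 6 (n 7 2 e e) (n 1 7 (n 6 7 e (n 1 2 (n 2 6 e (n 7 2 (n 2 7 e e) e)) e)) (n 6 2 (n 2
  7 e e) e))))) (n 1 5 (n 4 7 e (n 7 2 e (n 1 2 (n 3 2 (n 6 2 (n 6 2 e (n 4 6 (n 7 6 e e) e)) (n 2 4
  (n 4 6 (n 4 7 (n 7 6 e (n 7 6 e e)) e) (n 4 6 (n 7 6 e e) e)) (n 7 2 e (n 7 6 e (n 7 6 e e))))) (n
  3 4 (n 6 4 (n 4 6 (n 7 6 e e) e) (n 7 4 e (n 7 6 e (n 7 6 e e)))) (n 3 7 (n 7 6 e (n 7 6 e e))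
  e))) (n 1 4 (n 3 4 (n 6 4 (n 4 6 (n 7 6 e e) e) (n 7 4 e (n 7 6 e (n 7 6 e e)))) (n 3 7 (n 7 6 e
  (n 7 6 e e)) e)) (n 1 7 (n 3 7 (n 7 6 e (n 7 6 e e)) e) e))))) e)))))) (n 4 7 e (n 7 2 e (n 1 2 e
  (n 1 6 e (n 1 5 e (n 1 5 e (n 1 2 e (n 3 2 (n 1 6 (n 2 6 (n 1 4 e (n 1 7 e e)) e) e) (n 1 3 (n 1 4
  e (n 1 7 e e)) (n 1 6 (n 1 4 (n 3 4 e (n 7 3 e e)) (n 1 7 (n 7 3 e e) e)) e))))))))))))))))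
  z)))))) (b (b (t [0, 1] (t [0, 7] (t [0, 7] (t [0, 4] (l (n 1 3 e (n 2 3 (n 2 6 e (n 1 5 e (n 5 2
  (n 3 3 (n 2 7 (n 2 4 (n 2 1 (n 4 7 e (n 1 4 (n 6 4 e (n 7 6 e e)) (n 1 7 (n 7 6 e e) e))) (n 2 2
  (n 6 4 e (n 4 7 e e)) e)) e) e) e) e))) e))))))) (f [0, 1] (t [0, 7] (t [0, 7] (b (l (n 1 3 e (n 1
  5 e (n 2 6 e (n 3 2 (n 3 2 e (n 5 3 (n 3 6 (n 5 6 e (n 4 7 e (n 3 7 (n 6 4 (n 1 7 e (n 4 1 (n 7 2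
  e (n 2 7 (n 3 1 e (n 3 4 e (n 3 7 e e))) e)) e)) (n 1 7 (n 7 6 (n 2 1 (n 2 1 (n 1 1 (n 3 3 (n 7 7
  e e) e) (n 3 1 e (n 3 3 e e))) e) e) e) (n 7 2 e (n 2 7 (n 3 1 e (n 3 7 e (n 3 3 e e))) e)))) e)))
  (n 4 7 e (n 6 7 (n 1 4 e (n 7 1 (n 7 3 e (n 7 2 e (n 2 7 (n 6 1 e (n 6 4 e (n 6 7 e e))) e))) e))
  e))) (n 3 6 e (n 5 2 (n 4 7 e (n 5 7 (n 5 1 (n 6 4 (n 1 7 e (n 4 1 (n 2 7 (n 2 7 e e) e) e)) (n 1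
  7 (n 2 1 (n 7 6 (n 2 1 e (n 2 2 (n 7 7 e e) e)) e) e) (n 2 7 (n 2 7 e e) e))) (n 2 2 (n 5 5 (n 6 4
  e (n 6 7 e e)) e) e)) e)) (n 2 5 e (n 4 7 e (n 2 7 (n 2 1 (n 1 4 (n 6 4 e (n 7 6 e e)) (n 1 7 (n 7
  6 e e) e)) (n 2 2 (n 6 4 e (n 6 7 e e)) e)) e))))))) (n 6 3 e (n 2 6 (n 3 6 e (n 5 2 (n 4 7 e (n 2
  7 (n 3 4 (n 4 5 (n 7 1 (n 2 1 e (n 2 7 e e)) (n 5 7 (n 6 7 (n 7 6 (n 2 1 e (n 2 2 e e)) e) (n 2 1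
  e (n 2 2 e e))) (n 2 1 e (n 2 2 e e)))) (n 2 1 (n 1 4 (n 2 4 (n 6 4 (n 4 6 (n 7 6 e e) e) (n 7 4 e
  (n 7 6 e (n 7 6 e e)))) (n 2 7 (n 7 6 e (n 7 6 e e)) e)) (n 1 7 (n 2 7 (n 7 6 e (n 7 6 e e)) e)
  e)) (n 2 2 (n 1 4 (n 6 4 (n 4 6 (n 7 6 e e) e) (n 7 4 e (n 7 6 e (n 7 6 e e)))) (n 1 7 (n 7 6 e (n
  7 6 e e)) e)) e))) (n 7 1 (n 2 1 e (n 2 7 e e)) (n 2 1 (n 3 7 (n 5 7 (n 7 6 e (n 7 6 e e)) e) e)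
  (n 2 2 (n 3 7 (n 5 7 (n 7 6 e (n 7 6 e e)) e) e) e)))) e)) e)) (n 5 2 (n 4 7 e (n 6 7 (n 7 2 e (n
  2 1 (n 3 4 (n 1 4 e (n 6 1 (n 1 7 (n 7 6 e e) e) (n 6 4 (n 7 1 e e) e))) (n 1 7 (n 6 1 (n 7 3 e e)
  e) (n 6 1 e (n 6 7 e e)))) e)) e)) (n 5 6 (n 4 7 e (n 6 7 (n 3 4 (n 1 4 (n 4 5 (n 7 5 (n 6 1 e (n
  6 6 e e)) e) e) (n 4 6 (n 7 1 (n 6 1 e (n 6 7 e (n 6 6 e e))) (n 7 5 (n 6 1 e (n 6 6 e (n 6 6 e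
  e))) e)) (n 7 1 e (n 7 5 e e)))) (n 7 1 (n 6 1 e (n 6 7 e e)) (n 3 7 (n 7 5 (n 6 1 e (n 6 6 e e))
  e) (n 6 1 e (n 6 6 e e))))) e)) e))))))))) z))))) (b (t [0, 1] (t [0, 7] (t [0, 7] (t [0, 3] (l (n
  1 3 e (n 2 3 (n 2 6 e (n 1 5 e (n 2 5 e (n 4 7 e (n 3 3 (n 7 2 e (n 2 1 e (n 6 2 e (n 6 4 e (n 6 7
  e e))))) e))))) e))))))) (f [0, 1] (t [0, 7] (t [0, 7] (b (l (n 1 3 e (n 2 6 e (n 1 5 e (n 3 2 (n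
  5 2 (n 4 7 e (n 1 2 e (n 2 7 (n 3 7 (n 3 1 e (n 2 1 (n 5 1 (n 6 1 (n 6 3 e (n 4 6 (n 7 6 (n 3 3 e
  (n 3 3 e e)) e) e)) e) e) e)) e) e))) (n 3 5 e (n 5 2 (n 4 7 e (n 3 7 (n 3 1 e (n 2 1 (n 6 1 (n 6
  3 e (n 3 3 e (n 6 4 e (n 7 6 e e)))) e) e)) e)) (n 6 5 (n 4 7 e (n 3 7 (n 3 1 e (n 6 3 e (n 3 3 e
  (n 6 4 e (n 7 6 e e))))) e)) (n 3 7 (n 3 1 e (n 4 1 e (n 6 1 (n 4 5 (n 4 3 e (n 7 4 (n 3 3 e e)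
  e)) (n 6 4 e (n 4 7 (n 3 3 e (n 5 3 e (n 7 5 e e))) (n 3 3 e (n 4 3 (n 3 5 e e) e))))) e))) e)))))
  (n 6 3 e (n 5 2 (n 2 7 (n 3 6 (n 2 1 e (n 4 1 e (n 2 2 e (n 6 1 (n 4 2 e (n 6 2 (n 3 2 (n 3 2 e (n
  4 3 (n 4 7 e e) e)) (n 4 2 (n 4 7 e e) (n 7 2 (n 3 4 (n 4 3 e e) e) (n 4 3 (n 4 7 e e) (n 3 7 (n 3
  4 e (n 7 4 e e)) (n 3 4 (n 4 7 e e) e)))))) (n 4 3 (n 4 7 e e) (n 6 4 (n 3 4 e (n 3 7 (n 6 7 (n 7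
  4 e (n 7 4 e e)) e) e)) (n 3 7 (n 7 4 e e) e))))) (n 5 6 e (n 4 2 e (n 4 7 e (n 1 2 (n 6 2 (n 3 2
  (n 3 2 e (n 4 3 (n 7 3 e e) e)) (n 2 4 (n 4 3 (n 4 7 (n 7 3 e (n 7 3 e e)) e) (n 4 3 (n 7 3 e e)
  e)) (n 7 2 e (n 7 3 e (n 7 3 e e))))) (n 6 4 (n 3 4 (n 4 3 (n 7 3 e e) e) (n 7 4 e (n 7 3 e (n 7 3
  e e)))) (n 6 7 (n 7 3 e (n 7 3 e e)) e))) (n 1 4 (n 6 4 (n 3 4 (n 4 3 (n 7 3 e e) e) (n 7 4 e (n 7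
  3 e (n 7 3 e e)))) (n 6 7 (n 7 3 e (n 7 3 e e)) e)) (n 1 7 (n 6 7 (n 7 3 e (n 7 3 e e)) e)
  e)))))))))) (n 2 1 e (n 4 1 e (n 2 2 e (n 4 2 e (n 3 2 (n 6 2 (n 2 6 (n 4 6 (n 4 7 e e) e) e) (n 4
  2 (n 4 7 e e) (n 7 2 (n 4 6 e (n 4 6 e e)) (n 4 6 (n 4 7 e e) (n 6 7 (n 4 6 (n 7 4 e e) e) (n 4 6
  e (n 4 7 e e))))))) (n 4 3 (n 4 7 e e) (n 7 3 (n 6 4 (n 4 6 e e) e) (n 4 6 (n 4 7 e e) (n 6 7 (n 6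
  4 e (n 7 4 e e)) (n 6 4 (n 4 7 e e) e))))))))))) e) e))))))) z))))))) (b (b (t [0, 1] (t [0, 6] (t
  [0, 6] (t [0, 2, 6, 7, 9] (l (n 2 3 (n 6 2 (n 3 3 (n 1 2 e (n 1 5 e (n 2 5 (n 6 1 e (n 4 1 (n 4 7
  e e) e)) e))) e) e) e)))))) (f [0, 1] (t [0, 6] (t [0, 6] (b (l (n 1 5 (n 6 2 (n 6 3 e (n 3 2 e (n
  3 6 e (n 1 2 (n 6 4 e (n 4 7 e (n 5 6 (n 2 5 e e) e))) (n 6 4 e (n 4 7 e (n 5 6 e e))))))) e) (n 6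
  2 (n 2 5 (n 6 3 (n 2 3 e (n 1 3 e (n 6 2 (n 3 2 e (n 6 1 e (n 4 1 (n 4 7 e (n 3 3 e e)) e))) (n 6
  1 (n 1 2 (n 4 1 (n 4 7 e (n 3 3 (n 6 6 e e) e)) (n 6 4 e (n 1 7 (n 7 4 e e) e))) e) (n 4 1 (n 4 7
  e e) e))))) (n 3 2 e (n 3 6 e (n 1 6 (n 4 1 (n 4 7 e e) (n 6 4 (n 1 4 e (n 1 7 (n 6 7 (n 7 4 e (n
  7 4 e e)) e) e)) (n 1 7 (n 7 4 e e) e))) (n 4 7 e (n 1 2 (n 1 4 (n 6 4 (n 4 6 (n 7 6 e e) e) (n 7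
  4 e (n 7 6 e (n 7 6 e e)))) (n 1 7 (n 7 6 e (n 7 6 e e)) e)) (n 1 3 (n 1 4 (n 2 4 (n 4 6 (n 4 7 (n
  7 6 e (n 7 6 e e)) e) (n 4 6 (n 7 6 e e) e)) (n 7 2 e (n 7 6 e (n 7 6 e e)))) (n 1 7 (n 7 2 e (n 7
  6 e (n 7 6 e e))) e)) e))))))) e) e))) z))))) (t [0, 1] (b (t [0, 1] (t [0, 6] (t [0, 6] (b (l (n
  2 3 (n 6 2 (n 3 3 (n 1 2 e (n 1 5 e (n 2 5 (n 4 1 (n 6 4 (n 4 7 (n 6 7 e e) (n 2 2 (n 6 6 e e) e))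
  (n 1 6 e (n 4 7 e e))) e) e))) e) e) e)) z)))) (f [0, 1] (t [0, 6] (t [0, 6] (b (l (n 1 5 e (n 1 3
  e (n 6 2 (n 2 5 (n 3 6 (n 3 2 e (n 6 3 (n 4 7 e (n 2 4 (n 1 4 (n 4 3 (n 6 7 (n 7 3 (n 2 2 (n 6 6 e
  e) e) (n 6 7 e e)) e) (n 4 6 (n 4 7 (n 6 7 (n 6 7 e e) e) e) (n 6 4 e (n 6 7 e e)))) (n 7 1 (n 2 2
  (n 6 6 e e) e) (n 6 7 (n 7 3 (n 2 2 (n 6 6 e e) e) (n 6 7 e e)) e))) (n 1 7 (n 2 7 (n 3 7 (n 7 6 e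
  (n 7 6 e e)) e) e) e))) e)) (n 2 3 e (n 2 3 (n 2 2 e (n 4 1 (n 4 7 e e) (n 6 4 e (n 1 7 (n 7 4 e
  e) e)))) (n 6 2 e (n 4 1 (n 4 7 e e) (n 2 4 (n 4 6 (n 1 7 (n 2 7 (n 7 4 e e) e) e) e) (n 1 7 (n 7
  4 e e) e))))))) e) e)))) z))))))))))) (t [0, 3] (f [0, 1] (t [0, 3] (b (b (b (t [0, 4] (t [0, 4]
  (t [0, 6] (t [0, 6] (t [0, 2, 3, 6, 9] (l (n 3 2 e (n 2 6 e (n 2 5 (n 5 5 (n 1 3 e (n 1 2 e (n 1 2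
  e (n 1 6 (n 1 4 e (n 4 7 e e)) e)))) e) e))))))))) (t [0, 4] (t [0, 4] (t [0, 6] (t [0, 6] (l (n 3
  2 e (n 2 6 e (n 1 2 e (n 2 5 e (n 1 3 e (n 1 5 e (n 1 6 (n 1 4 e (n 4 7 e (n 7 2 e e)))
  e))))))))))))) (b (t [0, 4] (t [0, 4] (t [0, 6] (t [0, 6] (t [0, 3] (l (n 1 3 e (n 3 2 e (n 2 6 e
  (n 2 1 (n 5 2 (n 4 7 e (n 2 7 (n 1 4 (n 6 4 e (n 6 7 e (n 1 1 (n 2 2 e e) e))) (n 1 7 (n 6 7 e e)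
  e)) e)) e) e)))))))))) (t [0, 4] (t [0, 4] (t [0, 6] (t [0, 6] (t [0, 2] (l (n 1 3 e (n 3 2 e (n 2
  6 e (n 1 5 e (n 2 5 e (n 4 7 e (n 7 2 e (n 2 1 e (n 6 2 e (n 6 4 e (n 6 7 e e)))))))))))))))))))
  (b (t [0, 3] (t [0, 3] (t [0, 5] (t [0, 5] (t [0, 1, 5, 6, 8] (l (n 3 2 e (n 6 2 (n 1 5 e (n 2 5
  (n 1 2 e (n 1 3 e (n 6 1 e (n 4 1 (n 4 7 e e) e)))) e)) e)))))))) (t [0, 1] (t [0, 3] (t [0, 3] (t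
  [0, 5] (t [0, 5] (b (l (n 3 2 e (n 6 2 (n 1 5 e (n 2 5 (n 1 2 e (n 1 3 e (n 4 1 (n 4 7 e (n 6 1 (n
  2 2 (n 6 6 e e) e) (n 4 6 (n 6 7 e e) e))) e))) e)) e))) z))))))))))))))))) z) (b (t [0, 1] (f [0,
  2] (f [0, 2] (t [0, 1] (t [0, 1] (b (t [0, 1, 2] (t [0, 1] (t [0, 1, 2] (f [0, 3] (b (b (t [0, 1]
  (t [0, 4] (t [0, 4] (t [0, 2, 4, 7] (l (n 2 3 (n 3 3 (n 6 2 e (n 1 5 e (n 1 2 (n 1 4 e (n 4 7 e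
  e)) e))) e) e)))))) (f [0, 1] (t [0, 4] (t [0, 4] (b (l (n 6 2 e (n 2 3 e (n 3 2 e (n 1 5 (n 2 4 e
  (n 4 7 e (n 5 2 (n 3 3 e e) e))) (n 1 3 (n 4 2 (n 4 7 e (n 1 1 (n 3 3 e e) e)) (n 1 4 e (n 2 7 (n
  7 4 e e) e))) (n 1 2 (n 4 7 e (n 3 4 (n 3 3 e (n 2 4 (n 1 4 (n 4 1 (n 7 1 e e) e) (n 7 4 e (n 7 1
  e (n 7 1 e e)))) (n 2 7 (n 7 1 e (n 7 1 e e)) e))) (n 2 7 (n 3 7 (n 7 1 e (n 7 1 e e)) e) e)))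
  e))))))) z))))) (t [0, 1] (b (t [0, 1] (t [0, 4] (t [0, 4] (b (l (n 2 3 (n 3 3 (n 1 5 e (n 6 2 e
  (n 1 4 e (n 4 7 e (n 2 1 (n 2 2 e e) (n 4 2 (n 2 7 e e) e)))))) e) e)) z)))) (f [0, 1] (t [0, 4]
  (t [0, 4] (b (l (n 1 5 e (n 6 2 e (n 2 3 e (n 1 3 e (n 3 2 e (n 4 7 e (n 3 4 (n 3 3 e (n 1 4 (n 4
  2 (n 4 7 (n 7 2 e (n 7 2 e e)) e) (n 4 2 (n 7 2 e e) e)) (n 7 1 e (n 7 2 e (n 7 2 e e))))) (n 1 7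
  (n 7 3 e (n 7 2 e (n 7 2 e e))) e))))))))) z))))))))))) (t [0, 2] (f [0, 1] (t [0, 2] (f [0, 3] (b
  (t [0, 2] (t [0, 2] (t [0, 3] (t [0, 3] (t [0, 1, 3, 6] (l (n 3 2 e (n 6 2 e (n 1 3 e (n 1 5 e (n
  1 2 (n 1 4 e (n 4 7 e e)) e))))))))))) (t [0, 1] (t [0, 2] (t [0, 2] (t [0, 3] (t [0, 3] (b (l (n
  3 2 e (n 1 3 e (n 1 5 e (n 6 2 e (n 1 4 e (n 4 7 e (n 2 1 (n 2 2 e e) (n 4 2 (n 2 7 e e)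
  e))))))))) z))))))))))))))))) z)) z) z)

set_option maxRecDepth 100000 in
theorem f22B : chkQ 7 4 10897286400000 t22B
    (blks.getD 22 ⟨0, 0, 0, 0, 0, .zr, .zr⟩).B = some [-548648100000, -113513400000] := by
  decide +kernel

end Pool.Agent.TH32
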