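import Pool.Agent.TH32.H.Fast

set_option autoImplicit false

namespace Pool.Agent.TH32

open CT PT

set_option maxRecDepth 100000 in
/-- certificate for block 30 (CR5), tree B -/
def t30B : PT :=
  (b (b (b (t [0, 1] (b (t [0, 1] (b (t [0, 1] (b (b (t [0, 2] (t [0, 1] (b (b (b (b (t [0, 1] (t
  [0, 1, 5] (t [0, 1, 5] (t [0, 4] (l (n 2 3 (n 5 2 (n 3 3 (n 1 2 e (n 2 4 e (n 4 1 (n 1 5 (n 2 1 (n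
  2 6 e (n 2 2 e e)) e) e) e))) e) e) e)))))) (f [0, 1] (b (t [0, 1] (b (l (n 2 5 e (n 3 5 (n 3 2 e
  (n 1 2 (n 3 5 e (n 5 2 e (n 1 4 (n 2 4 e (n 2 6 (n 6 6 e e) e)) (n 1 6 (n 2 6 (n 6 6 e e) e) e))))
  (n 2 4 e (n 3 5 e (n 2 6 (n 1 3 (n 6 6 e e) (n 6 6 (n 1 4 e (n 1 5 e e)) e)) e))))) (n 1 3 e (n 1
  2 e (n 2 4 e (n 5 2 e (n 4 3 (n 2 6 (n 3 2 (n 1 5 (n 6 6 e e) e) e) e) (n 2 6 (n 6 6 (n 5 4 (n 3 4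
  e (n 1 5 e e)) (n 1 4 e (n 1 5 e e))) e) e))))))))) z)) z))) (b (t [0, 1] (t [0, 1, 5] (t [0, 1,
  5] (l (n 2 3 (n 2 5 e (n 3 3 (n 1 2 e (n 1 2 e (n 2 4 e (n 5 1 e (n 2 5 (n 2 6 e e) e))))) e))
  e))))) (f [0, 1] (b (t [0, 1] (b (l (n 2 5 e (n 3 5 (n 3 2 e (n 4 2 (n 1 4 (n 5 3 (n 5 2 e (n 4 5
  (n 2 6 e (n 3 2 e (n 2 2 e e))) e)) e) (n 3 5 (n 2 6 e e) (n 2 1 (n 2 6 e (n 2 3 (n 2 2 e (n 1 2 e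
  (n 1 3 e (n 1 4 e (n 1 5 e e))))) e)) (n 5 2 e (n 1 6 (n 2 6 e (n 3 2 e e)) (n 3 1 e (n 2 3 e
  e))))))) e)) (n 1 3 e (n 1 2 e (n 2 4 e (n 5 2 e (n 3 4 (n 2 6 e (n 3 4 (n 5 4 e (n 1 5 (n 1 2 (n
  2 5 e e) e) (n 1 4 (n 2 5 e e) e))) (n 5 2 (n 1 5 (n 2 3 e e) e) (n 1 2 e (n 1 5 e e))))) (n 2 3 e
  (n 1 5 (n 2 6 (n 6 3 e e) (n 1 2 (n 3 2 (n 4 2 (n 2 5 e e) e) e) e)) e)))))))))) z)) z)))) (b (b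
  (t [0, 1] (t [0, 1, 5] (t [0, 1, 5] (t [0, 4] (l (n 1 3 e (n 2 3 (n 2 5 e (n 1 4 e (n 2 4 e (n 3 3
  (n 1 2 (n 2 5 (n 2 6 (n 6 1 e e) (n 2 2 e e)) e) (n 6 2 e e)) e)))) e))))))) (f [0, 1] (b (t [0,
  1] (b (l (n 2 5 e (n 3 5 (n 1 3 e (n 3 2 e (n 2 4 e (n 3 5 e (n 1 4 e (n 6 2 (n 2 1 e (n 2 2 e e))
  e)))))) (n 1 3 e (n 1 2 e (n 2 3 e (n 3 4 (n 4 2 (n 5 2 (n 3 2 e (n 4 3 (n 5 6 (n 6 2 e e) (n 5 1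
  e e)) e)) (n 1 5 e (n 3 4 (n 4 5 (n 6 2 (n 2 1 e (n 2 2 e e)) e) e) (n 6 2 (n 2 1 e (n 2 2 e e))
  e)))) e) (n 5 2 (n 3 2 (n 2 4 (n 5 6 (n 2 6 (n 6 3 e (n 6 3 e e)) e) (n 5 1 e e)) e) (n 5 6 (n 6 3
  e (n 6 2 e (n 6 2 e e))) (n 5 1 e e))) (n 6 2 (n 5 1 (n 2 1 e e) e) (n 6 3 (n 1 5 (n 5 6 e (n 3 5
  e (n 5 5 e e))) e) e)))))))))) z)) z))) (b (t [0, 1] (t [0, 1, 5] (t [0, 1, 5] (t [0, 3] (l (n 1 3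
  e (n 2 3 (n 2 5 e (n 2 1 e (n 1 4 e (n 5 2 e (n 2 6 e (n 3 3 e e)))))) e))))))) (f [0, 1] (b (t
  [0, 1] (b (l (n 2 5 e (n 3 5 (n 1 2 (n 1 3 e e) (n 4 2 (n 1 3 (n 2 3 e (n 3 6 e (n 1 2 e (n 1 4 e
  (n 1 5 e (n 3 1 (n 3 3 e e) e)))))) e) e)) (n 1 3 e (n 1 2 e (n 2 4 e (n 3 4 (n 5 1 e (n 2 5 e (n
  5 6 e (n 1 2 (n 3 2 e (n 3 4 e (n 5 3 e e))) (n 1 4 (n 3 4 e (n 5 3 e e)) (n 1 5 (n 5 3 e e)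
  e)))))) (n 2 3 e (n 5 1 e (n 5 2 (n 5 6 e (n 1 2 (n 3 2 (n 2 4 (n 5 4 e e) e) (n 5 3 e (n 5 4 e
  e))) (n 1 5 (n 5 3 e (n 5 4 e e)) e))) (n 3 5 e (n 2 6 (n 6 5 e e) (n 1 2 (n 2 3 e (n 4 2 (n 2 5 e
  e) e)) e))))))))))))) z)) z))))) (b (b (t [0, 1] (t [0, 1, 4] (t [0, 1, 4] (t [0, 7] (l (n 2 3 (n
  5 2 (n 3 3 (n 2 1 (n 2 1 (n 2 4 e (n 2 6 (n 1 5 (n 2 5 e e) e) e)) e) e) e) e) e)))))) (f [0, 1]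
  (b (t [0, 1] (b (l (n 5 2 (n 5 3 (n 3 1 (n 2 1 (n 2 4 e (n 2 5 (n 3 4 (n 2 6 (n 3 4 (n 5 4 e (n 1
  5 (n 1 1 (n 5 5 e e) e) (n 1 4 (n 5 5 e e) e))) (n 5 5 (n 1 1 (n 3 3 e e) e) (n 1 5 e (n 1 1 e
  e)))) e) (n 1 5 (n 2 6 (n 2 3 e e) e) e)) e)) e) e) (n 3 2 e (n 3 5 e (n 2 1 (n 2 4 e (n 2 6 (n 1
  3 e (n 1 4 e (n 1 5 e (n 1 1 e e)))) e)) (n 2 5 (n 1 4 (n 4 2 (n 2 6 e e) e) (n 6 1 e (n 2 6 e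
  e))) e))))) e)) z)) z))) (t [0, 1] (b (t [0, 1] (t [0, 1, 4] (t [0, 1, 4] (t [0, 7] (l (n 2 3 (n 5
  2 (n 3 3 (n 2 1 (n 2 1 (n 2 4 e (n 2 6 (n 1 5 (n 2 5 e e) e) e)) e) e) e) e) e)))))) (f [0, 1] (b
  (t [0, 1] (b (l (n 1 3 e (n 1 4 e (n 2 5 e (n 3 5 (n 3 2 e (n 3 5 e (n 4 2 (n 2 6 e e) e))) (n 4 2
  (n 4 3 (n 2 6 (n 2 3 e (n 5 2 (n 3 1 (n 2 1 (n 3 2 (n 4 2 e e) e) e) e) (n 1 3 (n 3 5 e (n 3 3 e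
  e)) e))) e) (n 5 2 (n 3 2 e (n 4 3 (n 2 6 (n 5 6 (n 2 1 e (n 2 2 e e)) e) e) e)) (n 2 6 (n 3 4 (n
  4 5 e e) e) e))) e)))))) z)) z)))))))) z) (b (f [0, 2] (t [0, 1] (b (b (b (t [0, 5] (t [0, 5] (t
  [0, 4] (t [0, 4] (t [0, 3] (l (n 3 2 e (n 5 2 (n 1 2 e (n 2 4 e (n 1 3 e (n 4 1 (n 1 5 (n 2 1 (n 2
  6 e (n 2 2 e e)) e) e) e)))) e)))))))) (t [0, 5] (t [0, 5] (t [0, 4] (t [0, 4] (l (n 3 2 e (n 5 2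
  (n 1 2 e (n 2 4 e (n 1 3 e (n 4 1 (n 1 5 (n 2 1 (n 2 6 e (n 2 2 e e)) e) e) e)))) e)))))))) (b (t
  [0, 5] (t [0, 5] (t [0, 4] (t [0, 4] (t [0, 3] (l (n 1 3 e (n 3 2 e (n 2 5 e (n 1 4 e (n 2 4 e (n
  1 2 (n 2 5 (n 2 6 (n 6 1 e e) (n 2 2 e e)) e) (n 6 2 e e))))))))))))) (t [0, 5] (t [0, 5] (t [0,
  4] (t [0, 4] (t [0, 2] (l (n 1 3 e (n 3 2 e (n 2 5 e (n 2 1 e (n 1 4 e (n 5 2 e (n 2 6 e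
  e))))))))))))))) (b (t [0, 4] (t [0, 4] (t [0, 3] (t [0, 3] (t [0, 6] (l (n 3 2 e (n 5 2 (n 1 3 e
  (n 2 1 (n 2 1 (n 2 4 e (n 2 6 (n 1 5 (n 2 5 e e) e) e)) e) e)) e)))))))) (t [0, 1] (t [0, 4] (t
  [0, 4] (t [0, 3] (t [0, 3] (t [0, 6] (l (n 1 3 e (n 1 4 e (n 3 2 e (n 2 5 e (n 4 2 (n 2 6 (n 2 1 e
  (n 2 5 e e)) e) e)))))))))))))))) z))) z)) (f [0, 1] (t [0, 2, 3] (t [0, 2, 3] (b (t [0, 1, 3] (t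
  [0, 1] (t [0, 1, 3] (f [0, 2] (b (b (t [0, 1] (t [0, 5] (t [0, 5] (b (l (n 2 3 (n 5 2 (n 3 3 (n 1
  2 e (n 4 1 (n 1 5 (n 2 4 (n 1 1 (n 2 2 (n 5 5 e e) e) e) e) e) e)) e) e) e)) z)))) (f [0, 1] (t
  [0, 5] (t [0, 5] (b (l (n 2 3 e (n 5 3 (n 1 3 e (n 4 1 (n 4 2 e (n 3 4 (n 3 2 (n 5 2 e (n 1 2 (n 5
  5 e e) (n 5 1 (n 1 1 (n 5 5 e e) e) e))) (n 5 1 (n 1 1 (n 3 3 (n 5 5 e e) e) e) e)) e)) e)) (n 3 2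
  e (n 5 2 (n 1 4 (n 4 5 (n 1 2 (n 2 4 (n 3 3 e e) e) (n 3 3 e e)) e) (n 2 4 (n 3 1 (n 1 2 (n 3 3 e
  e) (n 1 5 (n 3 3 e e) e)) e) e)) e))))) z))))) (t [0, 1] (b (t [0, 1] (t [0, 2] (t [0, 2] (b (l (n
  1 3 e (n 1 4 e (n 2 3 (n 5 2 (n 2 4 (n 3 3 (n 2 2 (n 5 5 e e) e) e) e) e) e)))) z)))) (f [0, 1] (t
  [0, 2] (t [0, 2] (b (l (n 1 3 e (n 1 4 e (n 3 2 (n 3 5 (n 3 2 e (n 5 2 (n 2 4 (n 2 2 (n 5 5 e e)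
  e) e) e)) (n 4 2 e (n 3 4 (n 2 2 e (n 3 2 (n 5 2 e e) e)) e))) e)))) z))))))))))) (t [0, 3] (f [0,
  1] (t [0, 3] (f [0, 2] (b (t [0, 2] (t [0, 2] (t [0, 4] (t [0, 4] (b (l (n 3 2 e (n 5 2 (n 1 2 e
  (n 1 3 e (n 4 1 (n 1 5 (n 2 4 (n 1 1 (n 2 2 (n 5 5 e e) e) e) e) e) e))) e))) z))))) (t [0, 1] (t
  [0, 2] (t [0, 2] (t [0, 1] (t [0, 1] (b (l (n 1 3 e (n 1 4 e (n 3 2 e (n 5 2 (n 2 4 (n 2 2 (n 5 5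
  e e) e) e) e))))) z))))))))))))))))) z) (b (t [0, 1] (f [0, 2] (f [0, 2] (t [0, 1] (t [0, 1] (b (t
  [0, 1, 2] (t [0, 1] (t [0, 1, 2] (f [0, 3] (b (b (t [0, 1] (t [0, 4] (t [0, 4] (b (l (n 2 3 (n 3 3
  (n 1 4 e (n 5 2 e (n 1 2 (n 1 1 (n 2 2 e e) e) e))) e) e)) z)))) (f [0, 1] (t [0, 4] (t [0, 4] (b
  (l (n 5 2 e (n 2 3 e (n 3 2 e (n 1 4 (n 4 2 (n 3 3 e e) e) (n 1 2 (n 3 3 e e) (n 3 1 (n 1 1 (n 3 3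
  e e) e) e))))))) z))))) (t [0, 1] (b (t [0, 1] (t [0, 2] (t [0, 2] (b (l (n 2 3 (n 3 3 (n 1 4 e (n
  1 2 e (n 5 2 e (n 2 2 e e)))) e) e)) z)))) (f [0, 1] (t [0, 1, 2] (t [0, 1, 2] (b (l (n 1 4 e (n 1
  3 e (n 5 2 e (n 2 3 e (n 3 2 e (n 3 3 e e))))))) z))))))))))) (t [0, 2] (f [0, 1] (t [0, 2] (f [0,
  3] (b (t [0, 2] (t [0, 2] (t [0, 3] (t [0, 3] (b (l (n 3 2 e (n 5 2 e (n 1 3 e (n 1 4 e (n 1 2 (n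
  1 1 (n 2 2 e e) e) e)))))) z))))) (t [0, 1] (t [0, 2] (t [0, 2] (t [0, 1] (t [0, 1] (b (l (n 1 3 e
  (n 1 4 e (n 3 2 e (n 5 2 e (n 2 2 e e)))))) z))))))))))))))))) z)) z)

set_option maxRecDepth 100000 in
theorem f30B : chkQ 6 3 10897286400000 t30B
    (blks.getD 30 ⟨0, 0, 0, 0, 0, .zr, .zr⟩).B = some [227026800000] := by
  decide +kernel

end Pool.Agent.TH32
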